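import Pool.Agent.Lib.H57C.Defs
import Pool.Agent.Lib.H57M.B9

/-!
# Chunk A1: the mean values of the weight
-/

open Finset

namespace Pool.Agent.Lib.H57C

open Pool.Agent.Lib.H15P Pool.Agent.Lib.H92G Pool.Agent.Lib.H57M

theorem a1_forms {K : ℕ} (w : Par K) (H : Finset ℕ) (hH : H.card = K) (HW : ∀ h ∈ H, h ≤ w.W) :
    Forms w.P w.W K 1 (fun h : {h // h ∈ H} => h.1) := by
  refine ⟨w.prime, w.big, ?_, ?_, w.Kpos, ?_, w.KW⟩
  · intro p hp h
    exact (w.prime p hp).one_lt.ne' (Nat.dvd_one.1 h)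
  · intro p hp j j' hne hm
    apply hne
    apply Subtype.ext
    have h1 := HW j.1 j.2
    have h2 := HW j'.1 j'.2
    have h3 := w.big p hp
    have h5 : j.1 % p = j.1 := Nat.mod_eq_of_lt (by omega)
    have h6 : j'.1 % p = j'.1 := Nat.mod_eq_of_lt (by omega)
    unfold Nat.ModEq at hm
    omega
  · rw [Fintype.card_coe, hH]

/-- Proof. `Forms w.P w.W K 1 (fun h => h.1)` as in `Sc.forms` (`H57M/Sc.lean`). `EP_le` (`H15P`), `EX_LG_sq_le`, `B8_ZG`, `B8_exp`:
`EP (L^2) ≤ (11/10) z^K`; divide by `z^K ≥ 1`. -/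
theorem ae_none {K : ℕ} (w : Par K) (H : Finset ℕ) (hH : H.card = K) (HW : ∀ h ∈ H, h ≤ w.W)
    (hKW : 400 * K ^ 2 ≤ w.W) :
    0 ≤ AE w.P H none (FC w H) ∧ AE w.P H none (FC w H) ≤ 11 / 10 := by
  classical
  have hJ : Fintype.card {h // h ∈ H} = K := by rw [Fintype.card_coe, hH]
  have hz := w.z_bounds.1
  have hzK : 0 < w.z ^ K := pow_pos (by linarith) K
  have h0 : ∀ S, 0 ≤ FC w H S := fun S => div_nonneg (sq_nonneg _) hzK.le
  constructor
  · unfold AE EP
    exact div_nonneg (Finset.sum_nonneg fun t _ => h0 _) (Nat.cast_nonneg _)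
  · have h1 := EP_le w.P w.W K 1 (fun h : {h // h ∈ H} => h.1) (a1_forms w H hH HW) (FC w H) h0
    have h2 : EX (qq w.P K) (FC w H) ≤ 1 := by
      have e : EX (qq w.P K) (FC w H) = EX (qq w.P K) (fun S : {h // h ∈ H} → Finset {p // p ∈ w.P} =>
          w.L S ^ 2) / w.z ^ K := by
        unfold EX FC
        rw [Finset.sum_div]
        exact Finset.sum_congr rfl fun S _ => by ring
      rw [e, div_le_one hzK, ← B8_ZG (J := {h // h ∈ H}) w hJ]
      exact EX_LG_sq_le _ _ _ (w.goodJ _) w.m univ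
    have h3 := B8_exp w (by omega)
    refine h1.trans ?_
    calc Real.exp (2 * (K : ℝ) ^ 2 / w.W) * EX (qq w.P K) (FC w H)
        ≤ Real.exp (2 * (K : ℝ) ^ 2 / w.W) * 1 :=
          mul_le_mul_of_nonneg_left h2 (Real.exp_pos _).le
      _ ≤ 11 / 10 := by rw [mul_one]; exact h3

/-- Proof. `B9_main` with `M = 1`, `b h = h`, `j0 = ⟨h, _⟩`; for `t` with `h + t` prime to `∏ P` the set `hit P (t + h)` is empty, so
`cfg P H (some h) t = fun j => hit P (j + 1 * t)`; divide by `z^K > 0`. -/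
theorem ae_some {K : ℕ} (w : Par K) (H : Finset ℕ) (hH : H.card = K) (HW : ∀ h ∈ H, h ≤ w.W)
    (hKW : 400 * (K : ℝ) ^ 2 ≤ w.W) (h : ℕ) (hh : h ∈ H)
    (n2 : (((∏ p ∈ w.P, p : ℕ) : ℝ) / ((∏ p ∈ w.P, p).totient : ℝ)) *
      (8 * (K : ℝ) ^ 2 * w.CL * w.Dt ^ 2 / w.W) ≤ 1 / 100) :
    36 / 100 * (1 + w.n * w.c) ^ 2 ≤ AE w.P H (some h) (FC w H) := by
  classical
  have hJ : Fintype.card {h // h ∈ H} = K := by rw [Fintype.card_coe, hH]
  have hz := w.z_bounds.1
  have hzK : 0 < w.z ^ K := pow_pos (by linarith) K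
  have h1 := B9_main w hJ 1 (fun h : {h // h ∈ H} => h.1) (a1_forms w H hH HW) ⟨h, hh⟩ hKW n2
  have h2 : AE w.P H (some h) (FC w H) =
      EU w.P 1 h (fun t => w.L (fun j : {h // h ∈ H} => hit w.P (j.1 + 1 * t)) ^ 2) / w.z ^ K := by
    change EU w.P 1 h (fun t => FC w H (cfg w.P H (some h) t)) = _
    unfold EU FC
    simp only [Finset.sum_div]
    apply Finset.sum_congr rfl
    intro t ht
    rw [Finset.mem_filter] at ht
    have e : cfg w.P H (some h) t = fun j : {h // h ∈ H} => hit w.P (j.1 + 1 * t) := by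
      funext j
      unfold cfg
      by_cases hj : h = j.1
      · rw [if_pos (by rw [hj])]
        symm
        unfold hit
        rw [Finset.filter_eq_empty_iff]
        intro p _ hp
        rw [← hj] at hp
        have h3 : p.1 ∣ ∏ p ∈ w.P, p := Finset.dvd_prod_of_mem (fun p => p) p.2
        have h4 := Nat.dvd_gcd hp h3
        rw [Nat.Coprime] at ht
        rw [ht.2] at h4
        exact (w.prime p.1 p.2).one_lt.ne' (Nat.dvd_one.1 h4)
      · rw [if_neg (by rw [Option.some_inj]; exact hj), one_mul, add_comm t]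
    rw [e]
    ring
  rw [h2, le_div_iff₀ hzK]
  calc 36 / 100 * (1 + (w.n : ℝ) * w.c) ^ 2 * w.z ^ K
      = 36 / 100 * (w.z ^ K * (1 + w.n * w.c) ^ 2) := by ring
    _ ≤ _ := h1

end Pool.Agent.Lib.H57C
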