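import Pool.Agent.Lib.H57C.D2
import Pool.Agent.Lib.Sieve.Averages

/-!
# Chunk A2: the small primes
-/

open Finset

namespace Pool.Agent.Lib.H57C

open Pool.Agent.Lib.H59C (gq)

/-- The class `-h` modulo `q`. -/
theorem a2_cls {q h c : ℕ} (hq : 0 < q) (hc : c < q) : q ∣ c + h ↔ c = (q - h % q) % q := by
  have hr : h % q < q := Nat.mod_lt _ hq
  have h1 : q ∣ c + h ↔ q ∣ c + h % q := by
    rw [Nat.dvd_iff_mod_eq_zero, Nat.dvd_iff_mod_eq_zero, Nat.add_mod c h, Nat.add_mod c (h % q), Nat.mod_mod]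
  rw [h1]
  set r := h % q with hrdef
  constructor
  · rintro ⟨k, hk⟩
    have hk2 : k < 2 := by
      by_contra hk2
      push Not at hk2
      have : q * 2 ≤ q * k := Nat.mul_le_mul_left q hk2
      omega
    interval_cases k
    · have : r = 0 := by omega
      rw [this, Nat.sub_zero, Nat.mod_self]
      omega
    · have h2 : c = q - r := by omega
      rw [← h2, Nat.mod_eq_of_lt hc]
  · intro h2
    rcases Nat.eq_zero_or_pos r with h3 | h3
    · rw [h3, Nat.sub_zero, Nat.mod_self] at h2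
      rw [h2, h3]
      exact dvd_zero q
    · rw [Nat.mod_eq_of_lt (by omega)] at h2
      exact ⟨1, by omega⟩

theorem a2_mod {q N c : ℕ} (hc : c < q) : c ≡ N [MOD q] ↔ c = N % q := by
  unfold Nat.ModEq
  rw [Nat.mod_eq_of_lt hc]

open Classical in
theorem a2_one (Q : Finset ℕ) (R : ℕ → Finset ℕ) (Al : ℕ → ℕ → Prop) (c0 : ℕ → ℕ) (hQ : ∀ q ∈ Q, q.Prime)
    (h0 : ∀ q ∈ Q, c0 q ∈ R q) (hAl : ∀ q ∈ Q, ∀ c ∈ R q, (Al q c ↔ c ≠ c0 q)) :
    VS Q R gq Al = VbR Q R := by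
  unfold VS VbR VaR
  rw [← Finset.prod_mul_distrib]
  refine Finset.prod_congr rfl fun q hq => ?_
  have h1 : (R q).filter (fun c => Al q c) = (R q).erase (c0 q) := by
    ext c
    rw [Finset.mem_filter, Finset.mem_erase]
    constructor
    · rintro ⟨h2, h3⟩
      exact ⟨(hAl q hq c h2).1 h3, h2⟩
    · rintro ⟨h2, h3⟩
      exact ⟨h3, (hAl q hq c h3).2 h2⟩
  rw [h1, Finset.card_erase_of_mem (h0 q hq)]
  have hpos : 1 ≤ (R q).card := Finset.card_pos.2 ⟨_, h0 q hq⟩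
  have hq2 : (2 : ℝ) ≤ q := by exact_mod_cast (hQ q hq).two_le
  rw [Nat.cast_sub hpos]
  unfold gq
  have hq0 : (q : ℝ) ≠ 0 := by linarith
  have hq1 : (q : ℝ) - 1 ≠ 0 := by linarith
  push_cast
  field_simp
  ring

/-- Proof. For every `q ∈ Q`: the class `-h` mod `q` (the `c < q` with `q ∣ c + h`) is in `R q` and is the only class which is not
allowed, so the filtered set has `#R - 1` elements, and `1 - (r - 1)/(q - 1) = (1 - r/q) q/(q - 1)`. -/
theorem vs_BR (Q : Finset ℕ) (R : ℕ → Finset ℕ) (h : ℕ) (hQ : ∀ q ∈ Q, q.Prime)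
    (hR : ∀ q ∈ Q, R q ⊆ range q) (hRH : ∀ q ∈ Q, ∀ c < q, q ∣ c + h → c ∈ R q) :
    VS Q R gq (fun q c => ¬ q ∣ c + h) = VbR Q R := by
  refine a2_one Q R _ (fun q => (q - h % q) % q) hQ ?_ ?_
  · intro q hq
    have hq0 := (hQ q hq).pos
    have hlt : (q - h % q) % q < q := Nat.mod_lt _ hq0
    exact hRH q hq _ hlt ((a2_cls hq0 hlt).2 rfl)
  · intro q hq c hc
    have hlt := Finset.mem_range.1 (hR q hq hc)
    rw [a2_cls (hQ q hq).pos hlt]

theorem a2_Ps {W p1 q : ℕ} (hq : q ∈ Ps W p1) : q.Prime := by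
  unfold Ps at hq
  rw [Finset.mem_filter] at hq
  exact hq.2.1

theorem a2_Rb {N : ℕ} {H : Finset ℕ} {q : ℕ} : Rb N H q ⊆ range q := by
  unfold Rb
  exact Finset.filter_subset _ _

/-- Proof. `vs_BR`. -/
theorem vs_B (N W p1 : ℕ) (H : Finset ℕ) (h : ℕ) (hh : h ∈ H) :
    VS (Ps W p1) (Rb N H) gq (fun q c => ¬ q ∣ c + h) = Vb N W p1 H := by
  rw [Vb_eq]
  refine vs_BR _ _ h (fun q hq => a2_Ps hq) (fun q _ => a2_Rb) ?_
  intro q hq c hc hd
  unfold Rb
  rw [Finset.mem_filter, Finset.mem_range]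
  exact ⟨hc, Or.inl ⟨h, hh, hd⟩⟩

/-- Proof. As before, the class of `N` is the only one which is not allowed. -/
theorem vs_C (N W p1 : ℕ) (H : Finset ℕ) :
    VS (Ps W p1) (Rb N H) gq (fun q c => ¬ c ≡ N [MOD q]) = Vb N W p1 H := by
  rw [Vb_eq]
  refine a2_one _ _ _ (fun q => N % q) (fun q hq => a2_Ps hq) ?_ ?_
  · intro q hq
    have hlt : N % q < q := Nat.mod_lt _ (a2_Ps hq).pos
    unfold Rb
    rw [Finset.mem_filter, Finset.mem_range]
    exact ⟨hlt, Or.inr ((a2_mod hlt).2 rfl)⟩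
  · intro q hq c hc
    have hlt := Finset.mem_range.1 (a2_Rb hc)
    rw [a2_mod hlt]

theorem vs_IR (Q : Finset ℕ) (R : ℕ → Finset ℕ) :
    VS Q R (fun q => 1 / (q : ℝ)) (fun _ _ => True) = VaR Q R := by
  unfold VS VaR
  refine Finset.prod_congr rfl fun q _ => ?_
  rw [Finset.filter_true]
  ring

theorem vs_I (N W p1 : ℕ) (H : Finset ℕ) :
    VS (Ps W p1) (Rb N H) (fun q => 1 / (q : ℝ)) (fun _ _ => True) = Va N W p1 H := by
  rw [Va_eq]
  exact vs_IR _ _

theorem a2_exp {x : ℝ} (h0 : 0 ≤ x) (h1 : x ≤ 1 / 2) : Real.exp (-(2 * x)) ≤ 1 - x := by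
  have h2 : 0 < 1 - x := by linarith
  have h3 : Real.log (1 - x)⁻¹ ≤ (1 - x)⁻¹ - 1 := Real.log_le_sub_one_of_pos (inv_pos.2 h2)
  have h4 : (1 - x)⁻¹ - 1 ≤ 2 * x := by
    rw [inv_eq_one_div, div_sub_one h2.ne', div_le_iff₀ h2]
    nlinarith
  rw [Real.log_inv] at h3
  rw [← Real.le_log_iff_exp_le h2]
  linarith

theorem a2_fac {K q r : ℕ} (hK : 1 ≤ K) (hq : 2 ≤ q) (hr : r ≤ K) (hrq : r < q) :
    (if q ≤ 2 * K then 1 / (2 * (K : ℝ)) else 1) * Real.exp (-(2 * K * (1 / (q : ℝ)))) ≤ 1 - (r : ℝ) / q := by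
  have hK1 : (1 : ℝ) ≤ K := by exact_mod_cast hK
  have hq2 : (2 : ℝ) ≤ q := by exact_mod_cast hq
  have hr0 : (0 : ℝ) ≤ r := Nat.cast_nonneg r
  have hrK : (r : ℝ) ≤ K := by exact_mod_cast hr
  have hrq' : (r : ℝ) + 1 ≤ q := by exact_mod_cast hrq
  have he : Real.exp (-(2 * K * (1 / (q : ℝ)))) ≤ 1 := by
    rw [Real.exp_le_one_iff]
    have : 0 ≤ 2 * (K : ℝ) * (1 / (q : ℝ)) := by positivity
    linarith
  have he0 := Real.exp_pos (-(2 * K * (1 / (q : ℝ))))
  split_ifs with h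
  · have hqK : (q : ℝ) ≤ 2 * K := by exact_mod_cast h
    calc 1 / (2 * (K : ℝ)) * Real.exp (-(2 * K * (1 / (q : ℝ)))) ≤ 1 / (2 * (K : ℝ)) * 1 :=
          mul_le_mul_of_nonneg_left he (by positivity)
      _ = 1 / (2 * (K : ℝ)) := mul_one _
      _ ≤ 1 / (q : ℝ) := one_div_le_one_div_of_le (by linarith) hqK
      _ ≤ 1 - (r : ℝ) / q := by
          rw [div_le_iff₀ (by linarith)]
          have : (1 - (r : ℝ) / q) * q = q - r := by field_simp
          rw [this]; linarith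
  · push Not at h
    have hqK : 2 * (K : ℝ) ≤ q := by exact_mod_cast h.le
    rw [one_mul]
    have h1 : (K : ℝ) / q ≤ 1 / 2 := by
      rw [div_le_iff₀ (by linarith)]; linarith
    have h2 := a2_exp (x := (K : ℝ) / q) (by positivity) h1
    have h3 : -(2 * (K : ℝ) * (1 / (q : ℝ))) = -(2 * ((K : ℝ) / q)) := by ring
    rw [h3]
    have h4 : (r : ℝ) / q ≤ (K : ℝ) / q := div_le_div_of_nonneg_right hrK (by linarith)
    linarith

theorem a2_large (K B : ℕ) (c : ℝ) (hc : 0 < c) : ∃ n0 : ℕ, ∀ N : ℕ, n0 ≤ N →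
    1 ≤ Real.log N ∧ Real.log (Real.log N ^ B + 3) ≤ (B + 1) * Real.log (Real.log N) ∧
      (((B : ℝ) + 1) * Real.log (Real.log N)) ^ (2 * K) ≤ c * Real.log N := by
  have h1 : ∀ᶠ x : ℝ in Filter.atTop, 1 ≤ x ∧ Real.log (x ^ B + 3) ≤ (B + 1) * Real.log x ∧
      (((B : ℝ) + 1) * Real.log x) ^ (2 * K) ≤ c * x := by
    have e1 := (Real.isLittleO_pow_log_id_atTop (n := 2 * K)).def
      (show 0 < c / ((B : ℝ) + 1) ^ (2 * K) by positivity)
    filter_upwards [e1, Filter.eventually_ge_atTop (4 : ℝ)] with x hx1 hx2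
    refine ⟨by linarith, ?_, ?_⟩
    · have h3 : x ^ B + 3 ≤ x ^ (B + 1) := by
        have : 1 ≤ x ^ B := one_le_pow₀ (by linarith)
        rw [pow_succ]
        nlinarith
      calc Real.log (x ^ B + 3) ≤ Real.log (x ^ (B + 1)) := Real.log_le_log (by positivity) h3
        _ = (B + 1) * Real.log x := by rw [Real.log_pow]; push_cast; ring
    · have hl : 0 ≤ Real.log x := Real.log_nonneg (by linarith)
      rw [Real.norm_eq_abs, Real.norm_eq_abs, abs_of_nonneg (pow_nonneg hl _), id, abs_of_nonneg (by linarith)] at hx1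
      rw [mul_pow]
      calc ((B : ℝ) + 1) ^ (2 * K) * Real.log x ^ (2 * K) ≤
            ((B : ℝ) + 1) ^ (2 * K) * (c / ((B : ℝ) + 1) ^ (2 * K) * x) :=
            mul_le_mul_of_nonneg_left hx1 (by positivity)
        _ = c * x := by field_simp
  have h2 : Filter.Tendsto (fun N : ℕ => Real.log (N : ℝ)) Filter.atTop Filter.atTop :=
    Real.tendsto_log_atTop.comp tendsto_natCast_atTop_atTop
  obtain ⟨n0, hn0⟩ := Filter.eventually_atTop.1 (h2.eventually h1)
  exact ⟨n0, fun N hN => hn0 N hN⟩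

/-- Lower bound for the small primes.

Proof. `#R ≤ K` and `#R < q`. For `q ≤ 2 K` the factor is at least `1/q`, the product of these is a constant
`c_K > 0`. For `q > 2 K`: `1 - K/q ≥ exp (-2 K/q)`, and `∑_{q ≤ W} 1/q ≤ log log W + C` (`mertens` in `H59C/MER0.lean`), so
`VaR ≥ c_K' (log W)^(-2K)`, and `log W ≤ (B + 1) log L`, so this is `≥ 1/L` for large `N` (`L = log N`). -/
theorem vaR_low (K B : ℕ) (hK : 1 ≤ K) : ∃ n0 : ℕ, ∀ N : ℕ, n0 ≤ N → ∀ (W p1 : ℕ)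
    (R : ℕ → Finset ℕ), W = ⌈Real.log N ^ B⌉₊ → (∀ q ∈ Ps W p1, (R q).card ≤ K) →
    (∀ q ∈ Ps W p1, (R q).card < q) →
    1 / Real.log N ≤ VaR (Ps W p1) R ∧ VaR (Ps W p1) R ≤ 1 := by
  obtain ⟨C, hC, hmer⟩ := Pool.Agent.Lib.H59C.mertens
  have hK1 : (1 : ℝ) ≤ K := by exact_mod_cast hK
  have hl2 : 0 < Real.log 2 := Real.log_pos (by norm_num)
  set C' : ℝ := C / Real.log 2 - Real.log (Real.log 2) with hC'
  set c : ℝ := (1 / (2 * (K : ℝ))) ^ (2 * K) * Real.exp (-(2 * K * C')) with hc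
  have hcpos : 0 < c := by rw [hc]; positivity
  obtain ⟨n0, hn0⟩ := a2_large K B c hcpos
  refine ⟨n0, fun N hN W p1 R hW hR1 hR2 => ?_⟩
  obtain ⟨hL1, hL2, hL3⟩ := hn0 N hN
  have hL0 : 0 < Real.log N := by linarith
  have hfac : ∀ q ∈ Ps W p1, 0 ≤ 1 - ((R q).card : ℝ) / q := by
    intro q hq
    have hq2 : (2 : ℝ) ≤ q := by exact_mod_cast (a2_Ps hq).two_le
    have h1 : ((R q).card : ℝ) ≤ q := by exact_mod_cast (hR2 q hq).le
    have h2 : ((R q).card : ℝ) / q ≤ 1 := by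
      rw [div_le_one (by linarith)]; exact h1
    linarith
  constructor
  · have hW1 : (W : ℝ) + 1 ≤ Real.log N ^ B + 3 := by
      rw [hW]
      have := (Nat.ceil_lt_add_one (show 0 ≤ Real.log N ^ B by positivity)).le
      linarith
    have hWone : 1 ≤ W := by
      rw [hW]
      exact Nat.one_le_iff_ne_zero.2 (by
        have : 0 < ⌈Real.log N ^ B⌉₊ := Nat.ceil_pos.2 (by positivity)
        omega)
    have hWone' : (1 : ℝ) ≤ W := by exact_mod_cast hWone
    have hsum : ∑ q ∈ Ps W p1, 1 / (q : ℝ) ≤ Real.log (Real.log (W + 1)) + C' := by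
      have h1 := hmer 2 (W + 1) le_rfl (by linarith)
      have h2 : ∑ q ∈ Ps W p1, 1 / (q : ℝ) ≤ ∑ q ∈ Pool.Agent.Lib.H59C.PR 2 (W + 1), 1 / (q : ℝ) := by
        refine Finset.sum_le_sum_of_subset_of_nonneg ?_ fun q _ _ => by positivity
        intro q hq
        rw [Pool.Agent.Lib.H59C.mem_PR]
        unfold Ps at hq
        rw [Finset.mem_filter, Finset.mem_Icc] at hq
        refine ⟨hq.2.1, by exact_mod_cast hq.2.1.two_le, ?_⟩
        have : (q : ℝ) ≤ W := by exact_mod_cast hq.1.2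
        linarith
      have h3 := (abs_le.1 h1).2
      rw [hC']
      linarith
    have hlogW : 0 < Real.log (W + 1) := Real.log_pos (by linarith)
    have hlogW2 : Real.log (W + 1) ≤ (B + 1) * Real.log (Real.log N) := by
      refine le_trans (Real.log_le_log (by linarith) hW1) hL2
    have hcard : ((Ps W p1).filter (fun q => q ≤ 2 * K)).card ≤ 2 * K := by
      calc ((Ps W p1).filter (fun q => q ≤ 2 * K)).card ≤ (Icc 1 (2 * K)).card := by
            refine Finset.card_le_card fun q hq => ?_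
            rw [Finset.mem_filter] at hq
            rw [Finset.mem_Icc]
            exact ⟨(a2_Ps hq.1).one_le, hq.2⟩
        _ = 2 * K := by simp
    have h1 : (1 / (2 * (K : ℝ))) ^ (2 * K) ≤ ∏ q ∈ Ps W p1, (if q ≤ 2 * K then 1 / (2 * (K : ℝ)) else 1) := by
      rw [← Finset.prod_filter, Finset.prod_const]
      refine pow_le_pow_of_le_one (by positivity) ?_ hcard
      rw [div_le_one (by positivity)]
      linarith
    have h2 : Real.exp (-(2 * K * (Real.log (Real.log (W + 1)) + C'))) ≤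
        ∏ q ∈ Ps W p1, Real.exp (-(2 * K * (1 / (q : ℝ)))) := by
      rw [← Real.exp_sum, Real.exp_le_exp, Finset.sum_neg_distrib, ← Finset.mul_sum]
      have := mul_le_mul_of_nonneg_left hsum (show (0 : ℝ) ≤ 2 * K by positivity)
      linarith
    have h3 : Real.exp (-(2 * K * (Real.log (Real.log (W + 1)) + C'))) =
        Real.exp (-(2 * K * C')) * (Real.log (W + 1) ^ (2 * K))⁻¹ := by
      have h4 : -(2 * (K : ℝ) * (Real.log (Real.log (W + 1)) + C')) =
          -(2 * K * C') + -(((2 * K : ℕ) : ℝ) * Real.log (Real.log (W + 1))) := by push_cast; ring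
      rw [h4, Real.exp_add, Real.exp_neg (((2 * K : ℕ) : ℝ) * _), Real.exp_nat_mul, Real.exp_log hlogW]
    have h5 : c * (Real.log (W + 1) ^ (2 * K))⁻¹ ≤ VaR (Ps W p1) R := by
      unfold VaR
      calc c * (Real.log (W + 1) ^ (2 * K))⁻¹ = (1 / (2 * (K : ℝ))) ^ (2 * K) *
            Real.exp (-(2 * K * (Real.log (Real.log (W + 1)) + C'))) := by rw [h3, hc]; ring
        _ ≤ (∏ q ∈ Ps W p1, (if q ≤ 2 * K then 1 / (2 * (K : ℝ)) else 1)) *
            ∏ q ∈ Ps W p1, Real.exp (-(2 * K * (1 / (q : ℝ)))) :=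
            mul_le_mul h1 h2 (Real.exp_pos _).le (le_trans (by positivity) h1)
        _ = ∏ q ∈ Ps W p1, ((if q ≤ 2 * K then 1 / (2 * (K : ℝ)) else 1) *
            Real.exp (-(2 * K * (1 / (q : ℝ))))) := by rw [Finset.prod_mul_distrib]
        _ ≤ ∏ q ∈ Ps W p1, (1 - ((R q).card : ℝ) / q) := by
            refine Finset.prod_le_prod (fun q _ => ?_) fun q hq => ?_
            · refine mul_nonneg ?_ (Real.exp_pos _).le
              split_ifs
              · positivity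
              · norm_num
            · exact a2_fac hK (a2_Ps hq).two_le (hR1 q hq) (hR2 q hq)
    refine le_trans ?_ h5
    have h6 : Real.log (W + 1) ^ (2 * K) ≤ c * Real.log N :=
      le_trans (pow_le_pow_left₀ hlogW.le hlogW2 _) hL3
    have h7 : 0 < Real.log (W + 1) ^ (2 * K) := pow_pos hlogW _
    rw [← div_eq_mul_inv, div_le_div_iff₀ hL0 h7]
    linarith
  · unfold VaR
    refine Finset.prod_le_one hfac fun q hq => ?_
    have : 0 ≤ ((R q).card : ℝ) / q := by positivity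
    linarith

/-- Proof. `vaR_low` with `K + 1`: the classes in `Rb` are those of `-h`, `h ∈ H`, and `N`: at most `K + 1`. -/
theorem va_low (K B : ℕ) (hK : 1 ≤ K) : ∃ n0 : ℕ, ∀ N : ℕ, n0 ≤ N → ∀ (W p1 : ℕ) (H : Finset ℕ),
    W = ⌈Real.log N ^ B⌉₊ → H.card = K → (∀ q : ℕ, q.Prime → (Rb N H q).card < q) →
    1 / Real.log N ≤ Va N W p1 H ∧ Va N W p1 H ≤ 1 := by
  obtain ⟨n0, hn0⟩ := vaR_low (K + 1) B (by omega)
  refine ⟨n0, fun N hN W p1 H hW hH hq => ?_⟩
  rw [Va_eq]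
  refine hn0 N hN W p1 (Rb N H) hW ?_ fun q hq' => hq q (a2_Ps hq')
  intro q hq'
  have hsub : Rb N H q ⊆ insert (N % q) (H.image (fun h => (q - h % q) % q)) := by
    intro c hc
    have hlt := Finset.mem_range.1 (a2_Rb hc)
    unfold Rb at hc
    rw [Finset.mem_filter] at hc
    rw [Finset.mem_insert, Finset.mem_image]
    rcases hc.2 with ⟨h, hh, hd⟩ | hd
    · exact Or.inr ⟨h, hh, ((a2_cls (a2_Ps hq').pos hlt).1 hd).symm⟩
    · exact Or.inl ((a2_mod hlt).1 hd)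
  calc (Rb N H q).card ≤ (insert (N % q) (H.image (fun h => (q - h % q) % q))).card := Finset.card_le_card hsub
    _ ≤ (H.image (fun h => (q - h % q) % q)).card + 1 := Finset.card_insert_le _ _
    _ ≤ H.card + 1 := by have := Finset.card_image_le (s := H) (f := fun h => (q - h % q) % q); omega
    _ = K + 1 := by rw [hH]

/-- Proof. `∏_{q ≤ W} q/(q-1) ≥ log W` (`Sieve.prod_one_sub_inv_le` or `∏ (1 - 1/q)⁻¹ ≥ ∑_{n ≤ W} 1/n`), and the factor at `p1` which is missing is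
`p1/(p1 - 1) ≤ 2`. -/
theorem vbR_ge (W p1 : ℕ) (R : ℕ → Finset ℕ) (hW : 2 ≤ W) (hp : p1.Prime)
    (hV : 0 ≤ VaR (Ps W p1) R) :
    Real.log W / 4 * VaR (Ps W p1) R ≤ VbR (Ps W p1) R ∧
      VaR (Ps W p1) R ≤ VbR (Ps W p1) R := by
  have hW2 : (2 : ℝ) ≤ W := by exact_mod_cast hW
  have hlog : 0 < Real.log W := Real.log_pos (by linarith)
  have hone : ∀ q : ℕ, q.Prime → 1 ≤ (q : ℝ) / ((q : ℝ) - 1) := by
    intro q hq
    have : (2 : ℝ) ≤ q := by exact_mod_cast hq.two_le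
    rw [le_div_iff₀ (by linarith)]
    linarith
  have h1 : 1 ≤ ∏ q ∈ Ps W p1, ((q : ℝ) / ((q : ℝ) - 1)) :=
    Finset.one_le_prod fun q hq => hone q (a2_Ps hq)
  have h2 := Pool.Agent.Lib.Sieve.prod_one_sub_inv_le W hW
  have h3 : ∏ p ∈ Pool.Agent.Lib.Sieve.primesUpTo W, ((p : ℝ) / ((p : ℝ) - 1)) =
      (∏ p ∈ Pool.Agent.Lib.Sieve.primesUpTo W, (1 - 1 / (p : ℝ)))⁻¹ := by
    rw [← Finset.prod_inv_distrib]
    refine Finset.prod_congr rfl fun p hp => ?_
    have : (2 : ℝ) ≤ p := by exact_mod_cast (Pool.Agent.Lib.Sieve.mem_primesUpTo.1 hp).1.two_le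
    have h4 : (p : ℝ) ≠ 0 := by linarith
    have h5 : (p : ℝ) - 1 ≠ 0 := by linarith
    field_simp
  have h4 : 0 < ∏ p ∈ Pool.Agent.Lib.Sieve.primesUpTo W, (1 - 1 / (p : ℝ)) := by
    refine Finset.prod_pos fun p hp => ?_
    have : (2 : ℝ) ≤ p := by exact_mod_cast (Pool.Agent.Lib.Sieve.mem_primesUpTo.1 hp).1.two_le
    have : 1 / (p : ℝ) ≤ 1 / 2 := one_div_le_one_div_of_le (by norm_num) this
    linarith
  have h5 : Real.log W ≤ ∏ p ∈ Pool.Agent.Lib.Sieve.primesUpTo W, ((p : ℝ) / ((p : ℝ) - 1)) := by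
    rw [h3, ← one_div, le_div_iff₀ h4]
    calc Real.log W * ∏ p ∈ Pool.Agent.Lib.Sieve.primesUpTo W, (1 - 1 / (p : ℝ)) ≤
          Real.log W * (1 / Real.log W) := mul_le_mul_of_nonneg_left h2 hlog.le
      _ = 1 := by field_simp
  have h6 : ∏ p ∈ Pool.Agent.Lib.Sieve.primesUpTo W, ((p : ℝ) / ((p : ℝ) - 1)) ≤
      2 * ∏ q ∈ Ps W p1, ((q : ℝ) / ((q : ℝ) - 1)) := by
    have hsub : Pool.Agent.Lib.Sieve.primesUpTo W ⊆ insert p1 (Ps W p1) := by
      intro q hq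
      rw [Pool.Agent.Lib.Sieve.mem_primesUpTo] at hq
      rw [Finset.mem_insert]
      by_cases h : q = p1
      · exact Or.inl h
      · refine Or.inr ?_
        unfold Ps
        rw [Finset.mem_filter, Finset.mem_Icc]
        exact ⟨⟨hq.1.one_le, hq.2⟩, hq.1, h⟩
    have hnot : p1 ∉ Ps W p1 := by
      unfold Ps
      rw [Finset.mem_filter]
      rintro ⟨_, _, h⟩
      exact h rfl
    calc ∏ p ∈ Pool.Agent.Lib.Sieve.primesUpTo W, ((p : ℝ) / ((p : ℝ) - 1)) ≤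
          ∏ p ∈ insert p1 (Ps W p1), ((p : ℝ) / ((p : ℝ) - 1)) := by
          refine Finset.prod_le_prod_of_subset_of_one_le hsub (fun q hq => ?_) fun q hq _ => ?_
          · exact le_trans zero_le_one (hone q (Pool.Agent.Lib.Sieve.mem_primesUpTo.1 hq).1)
          · rw [Finset.mem_insert] at hq
            rcases hq with rfl | hq
            · exact hone _ hp
            · exact hone _ (a2_Ps hq)
      _ = (p1 : ℝ) / ((p1 : ℝ) - 1) * ∏ q ∈ Ps W p1, ((q : ℝ) / ((q : ℝ) - 1)) := Finset.prod_insert hnot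
      _ ≤ 2 * ∏ q ∈ Ps W p1, ((q : ℝ) / ((q : ℝ) - 1)) := by
          refine mul_le_mul_of_nonneg_right ?_ (by linarith)
          have : (2 : ℝ) ≤ p1 := by exact_mod_cast hp.two_le
          rw [div_le_iff₀ (by linarith)]
          linarith
  unfold VbR
  constructor
  · rw [mul_comm]
    refine mul_le_mul_of_nonneg_left ?_ hV
    linarith
  · calc VaR (Ps W p1) R = VaR (Ps W p1) R * 1 := (mul_one _).symm
      _ ≤ _ := mul_le_mul_of_nonneg_left h1 hV

/-- Proof. `vbR_ge`. -/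
theorem vb_ge (N W p1 : ℕ) (H : Finset ℕ) (hW : 2 ≤ W) (hp : p1.Prime)
    (hV : 0 ≤ Va N W p1 H) :
    Real.log W / 4 * Va N W p1 H ≤ Vb N W p1 H ∧ Va N W p1 H ≤ Vb N W p1 H := by
  rw [Va_eq] at hV
  rw [Va_eq, Vb_eq]
  exact vbR_ge W p1 (Rb N H) hW hp hV

end Pool.Agent.Lib.H57C
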