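import Pool.Agent.Lib.Sieve.BrunHooley

/-!
# Chunk BH1: the Brun-Hooley sieve, weights
-/

open Finset

namespace Pool.Agent.Lib.H57C

open Pool.Agent.Lib.Sieve

theorem bh1_sum_union {ι : Type} [DecidableEq ι] (A B : Finset ι) (h : Disjoint A B)
    (F : Finset ι → ℝ) :
    ∑ E ∈ (A ∪ B).powerset, F E = ∑ D ∈ A.powerset, ∑ E ∈ B.powerset, F (D ∪ E) := by
  rw [← Finset.sum_product']
  symm
  refine Finset.sum_nbij' (fun x => x.1 ∪ x.2) (fun X => (X ∩ A, X ∩ B)) ?_ ?_ ?_ ?_ ?_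
  · rintro ⟨D, E⟩ hx
    rw [Finset.mem_product, Finset.mem_powerset, Finset.mem_powerset] at hx
    exact Finset.mem_powerset.2 (Finset.union_subset_union hx.1 hx.2)
  · intro X _
    rw [Finset.mem_product, Finset.mem_powerset, Finset.mem_powerset]
    exact ⟨Finset.inter_subset_right, Finset.inter_subset_right⟩
  · rintro ⟨D, E⟩ hx
    rw [Finset.mem_product, Finset.mem_powerset, Finset.mem_powerset] at hx
    have h1 : (D ∪ E) ∩ A = D := by
      ext x
      simp only [Finset.mem_inter, Finset.mem_union]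
      constructor
      · rintro ⟨h1 | h1, h2⟩
        · exact h1
        · exact absurd (hx.2 h1) (Finset.disjoint_left.1 h h2)
      · intro h1
        exact ⟨Or.inl h1, hx.1 h1⟩
    have h2 : (D ∪ E) ∩ B = E := by
      ext x
      simp only [Finset.mem_inter, Finset.mem_union]
      constructor
      · rintro ⟨h1 | h1, h2⟩
        · exact absurd h2 (Finset.disjoint_left.1 h (hx.1 h1))
        · exact h1
      · intro h1
        exact ⟨Or.inr h1, hx.2 h1⟩
    simp only [h1, h2]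
  · intro X hX
    rw [Finset.mem_powerset] at hX
    simp only
    rw [← Finset.inter_union_distrib_left]
    exact Finset.inter_eq_left.2 hX
  · intro x _
    rfl

theorem bh1_rep {ι κ : Type} [DecidableEq ι] [DecidableEq κ] (Q : κ → Finset ι) (J : Finset κ)
    (hdisj : ∀ i ∈ J, ∀ j ∈ J, i ≠ j → Disjoint (Q i) (Q j)) (c : κ → Finset ι → ℝ)
    (f : ι → ℝ) :
    ∑ E ∈ (J.biUnion Q).powerset, (∏ j ∈ J, c j (E ∩ Q j)) * ∏ p ∈ E, f p =
      ∏ j ∈ J, poly (c j) f (Q j) := by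
  induction J using Finset.induction_on with
  | empty => simp
  | insert a J ha ih =>
    have ih' := ih (fun i hi j hj hij => hdisj i (Finset.mem_insert_of_mem hi) j
      (Finset.mem_insert_of_mem hj) hij)
    have hne : ∀ j ∈ J, a ≠ j := fun j hj h => ha (h ▸ hj)
    have hda : ∀ j ∈ J, Disjoint (Q a) (Q j) := fun j hj =>
      hdisj a (Finset.mem_insert_self a J) j (Finset.mem_insert_of_mem hj) (hne j hj)
    have hd : Disjoint (Q a) (J.biUnion Q) := (Finset.disjoint_biUnion_right _ _ _).2 hda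
    rw [Finset.biUnion_insert, bh1_sum_union _ _ hd, Finset.prod_insert ha, ← ih', poly,
      Finset.sum_mul_sum]
    refine Finset.sum_congr rfl fun D hD => Finset.sum_congr rfl fun E hE => ?_
    rw [Finset.mem_powerset] at hD hE
    have hDE : Disjoint D E := Finset.disjoint_of_subset_left hD (Finset.disjoint_of_subset_right hE hd)
    rw [Finset.prod_insert ha, Finset.prod_union hDE]
    have h1 : (D ∪ E) ∩ Q a = D := by
      rw [Finset.union_inter_distrib_right, Finset.inter_eq_left.2 hD]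
      have : E ∩ Q a = ∅ := by
        rw [← Finset.disjoint_iff_inter_eq_empty]
        exact (Finset.disjoint_of_subset_right hE hd).symm
      rw [this, Finset.union_empty]
    have h2 : ∀ j ∈ J, (D ∪ E) ∩ Q j = E ∩ Q j := by
      intro j hj
      rw [Finset.union_inter_distrib_right]
      have : D ∩ Q j = ∅ := by
        rw [← Finset.disjoint_iff_inter_eq_empty]
        exact Finset.disjoint_of_subset_left hD (hda j hj)
      rw [this, Finset.empty_union]
    rw [h1, Finset.prod_congr rfl fun j hj => by rw [h2 j hj]]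
    ring

theorem bh1_cT_abs {ι : Type} [DecidableEq ι] (b : ℕ) (D : Finset ι) : |cT b D| ≤ 1 := by
  unfold cT
  split_ifs <;> simp

theorem bh1_cE_abs {ι : Type} [DecidableEq ι] (b : ℕ) (D : Finset ι) : |cE b D| ≤ 1 := by
  unfold cE
  split_ifs <;> simp

/-- Proof. `lp E = ∏_{j ∈ J} cT (b j) (E ∩ Q j)` and `lm E = lp E - ∑_{l ∈ J} cE (b l + 1) (E ∩ Q l) ∏_{j ∈ J.erase l} cT (b j) (E ∩ Q j)` for
`E ⊆ ⋃ Q j` (and `0` otherwise). At most one of the terms of `lm E` is not `0`, and it is `± 1`: if all `|E ∩ Q j| ≤ b j` only the first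
one; if exactly one `|E ∩ Q l| = b l + 1` and the others are `≤ b j`, only the term of `l`; otherwise none. For every `f` the sum
`∑_E (∏_j c j (E ∩ Q j)) ∏_{p ∈ E} f p` over `E ⊆ ⋃ Q j` is `∏_j poly (c j) f (Q j)` (disjoint blocks; induction over `J` as in `rep`, or
`Finset.prod_univ_sum`-like). The inequalities are then those in the proof of `brun_hooley` (`Sieve/BrunHooley.lean`): pointwise
`prod_ge_telescope`, `le_polyT_of_even`, `polyT_le_of_even`; the main terms `∏ Tj ≤ 2 ∏ V` and `∏ Tj - ∑_l Ej l ∏_{j ≠ l} Tj ≥ (1/2) ∏ Tj ≥ (1/2) ∏ V`. -/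
theorem bh_weights {ι κ : Type} [DecidableEq ι] [DecidableEq κ] (Q : κ → Finset ι) (J : Finset κ)
    (b : κ → ℕ) (hb : ∀ j ∈ J, Even (b j))
    (hdisj : ∀ i ∈ J, ∀ j ∈ J, i ≠ j → Disjoint (Q i) (Q j)) (g : ι → ℝ)
    (hg0 : ∀ p ∈ J.biUnion Q, 0 ≤ g p) (hg1 : ∀ p ∈ J.biUnion Q, g p ≤ 1)
    (ε : κ → ℝ) (hε0 : ∀ j ∈ J, 0 ≤ ε j)
    (hε : ∀ j ∈ J, poly (cE (b j + 1)) g (Q j) ≤ ε j * ∏ p ∈ Q j, (1 - g p))
    (hεsum : ∑ j ∈ J, ε j ≤ 1 / 2) :
    ∃ lp lm : Finset ι → ℝ, (∀ E, |lp E| ≤ 1) ∧ (∀ E, |lm E| ≤ 1) ∧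
      (∀ E, (lp E ≠ 0 ∨ lm E ≠ 0) → ∀ j ∈ J, (E ∩ Q j).card ≤ b j + 1) ∧
      (∀ f : ι → ℝ, (∀ p, 0 ≤ f p) → (∀ p, f p ≤ 1) →
        ∑ E ∈ (J.biUnion Q).powerset, lm E * ∏ p ∈ E, f p ≤ ∏ p ∈ J.biUnion Q, (1 - f p) ∧
        ∏ p ∈ J.biUnion Q, (1 - f p) ≤ ∑ E ∈ (J.biUnion Q).powerset, lp E * ∏ p ∈ E, f p) ∧
      1 / 2 * ∏ p ∈ J.biUnion Q, (1 - g p) ≤
        ∑ E ∈ (J.biUnion Q).powerset, lm E * ∏ p ∈ E, g p ∧
      ∑ E ∈ (J.biUnion Q).powerset, lp E * ∏ p ∈ E, g p ≤ 2 * ∏ p ∈ J.biUnion Q, (1 - g p) := by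
  set lp : Finset ι → ℝ := fun E => ∏ j ∈ J, cT (b j) (E ∩ Q j) with hlp
  set tm : κ → Finset ι → ℝ := fun l E => cE (b l + 1) (E ∩ Q l) *
    ∏ j ∈ J.erase l, cT (b j) (E ∩ Q j) with htm
  set lm : Finset ι → ℝ := fun E => lp E - ∑ l ∈ J, tm l E with hlm
  have hprod1 : ∀ (s : Finset κ) (E : Finset ι), |∏ j ∈ s, cT (b j) (E ∩ Q j)| ≤ 1 := by
    intro s E
    rw [Finset.abs_prod]
    exact Finset.prod_le_one (fun j _ => abs_nonneg _) fun j _ => bh1_cT_abs _ _
  -- case A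
  have hA : ∀ E : Finset ι, (∀ j ∈ J, (E ∩ Q j).card ≤ b j) → lm E = lp E := by
    intro E hE
    have : ∑ l ∈ J, tm l E = 0 := by
      refine Finset.sum_eq_zero fun l hl => ?_
      have h1 : cE (b l + 1) (E ∩ Q l) = 0 := by
        unfold cE
        rw [if_neg]
        have := hE l hl
        omega
      simp only [htm, h1, zero_mul]
    simp only [hlm, this, sub_zero]
  -- case B
  have hB : ∀ E : Finset ι, ∀ l0 ∈ J, ¬ (E ∩ Q l0).card ≤ b l0 → lp E = 0 ∧ lm E = - tm l0 E := by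
    intro E l0 hl0 hc
    have h0 : cT (b l0) (E ∩ Q l0) = 0 := by
      unfold cT
      rw [if_neg hc]
    have h1 : lp E = 0 := Finset.prod_eq_zero hl0 h0
    refine ⟨h1, ?_⟩
    have h2 : ∑ l ∈ J, tm l E = tm l0 E := by
      refine Finset.sum_eq_single l0 (fun l hl hne => ?_) (fun h => absurd hl0 h)
      have : ∏ j ∈ J.erase l, cT (b j) (E ∩ Q j) = 0 :=
        Finset.prod_eq_zero (Finset.mem_erase.2 ⟨hne.symm, hl0⟩) h0
      simp only [htm, this, mul_zero]
    simp only [hlm, h1, h2, zero_sub]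
  -- the representation
  have rep1 : ∀ f : ι → ℝ, ∑ E ∈ (J.biUnion Q).powerset, lp E * ∏ p ∈ E, f p =
      ∏ j ∈ J, poly (cT (b j)) f (Q j) := fun f =>
    bh1_rep Q J hdisj (fun j => cT (b j)) f
  have rep2 : ∀ f : ι → ℝ, ∀ l ∈ J, ∑ E ∈ (J.biUnion Q).powerset, tm l E * ∏ p ∈ E, f p =
      poly (cE (b l + 1)) f (Q l) * ∏ j ∈ J.erase l, poly (cT (b j)) f (Q j) := by
    intro f l hl
    have h := bh1_rep Q J hdisj (Function.update (fun j => cT (b j)) l (cE (b l + 1))) f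
    have hupd : ∀ F : κ → (Finset ι → ℝ) → ℝ,
        ∏ j ∈ J, F j (Function.update (fun j => cT (b j)) l (cE (b l + 1)) j)
          = F l (cE (b l + 1)) * ∏ j ∈ J.erase l, F j (cT (b j)) := by
      intro F
      rw [← Finset.mul_prod_erase J _ hl]
      rw [Function.update_self]
      congr 1
      refine Finset.prod_congr rfl fun j hj => ?_
      rw [Function.update_of_ne (Finset.ne_of_mem_erase hj)]
    have h1 : ∀ E : Finset ι, ∏ j ∈ J, Function.update (fun j => cT (b j)) l (cE (b l + 1)) j (E ∩ Q j)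
        = tm l E := fun E => hupd (fun j c => c (E ∩ Q j))
    have h2 : ∏ j ∈ J, poly (Function.update (fun j => cT (b j)) l (cE (b l + 1)) j) f (Q j)
        = poly (cE (b l + 1)) f (Q l) * ∏ j ∈ J.erase l, poly (cT (b j)) f (Q j) :=
      hupd (fun j c => poly c f (Q j))
    rw [h2] at h
    rw [← h]
    exact Finset.sum_congr rfl fun E _ => by rw [h1 E]
  have rep3 : ∀ f : ι → ℝ, ∑ E ∈ (J.biUnion Q).powerset, lm E * ∏ p ∈ E, f p =
      ∏ j ∈ J, poly (cT (b j)) f (Q j) - ∑ l ∈ J, poly (cE (b l + 1)) f (Q l) *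
        ∏ j ∈ J.erase l, poly (cT (b j)) f (Q j) := by
    intro f
    rw [← rep1 f, ← Finset.sum_congr rfl (rep2 f), Finset.sum_comm, ← Finset.sum_sub_distrib]
    refine Finset.sum_congr rfl fun E _ => ?_
    simp only [hlm]
    rw [sub_mul, Finset.sum_mul]
  have hbU : ∀ f : ι → ℝ, ∏ p ∈ J.biUnion Q, (1 - f p) = ∏ j ∈ J, ∏ p ∈ Q j, (1 - f p) := by
    intro f
    exact Finset.prod_biUnion (fun i hi j hj hij => hdisj i hi j hj hij)
  have hQg0 : ∀ j ∈ J, ∀ p ∈ Q j, 0 ≤ g p := fun j hj p hp =>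
    hg0 p (Finset.mem_biUnion.2 ⟨j, hj, hp⟩)
  have hQg1 : ∀ j ∈ J, ∀ p ∈ Q j, g p ≤ 1 := fun j hj p hp =>
    hg1 p (Finset.mem_biUnion.2 ⟨j, hj, hp⟩)
  set V : κ → ℝ := fun j => ∏ p ∈ Q j, (1 - g p) with hV
  set Tj : κ → ℝ := fun j => poly (cT (b j)) g (Q j) with hT
  set Ej : κ → ℝ := fun j => poly (cE (b j + 1)) g (Q j) with hE
  have hVnn : ∀ j ∈ J, 0 ≤ V j := fun j hj =>
    Finset.prod_nonneg fun p hp => by
      have := hQg1 j hj p hp
      linarith
  have hVT : ∀ j ∈ J, V j ≤ Tj j := fun j hj =>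
    le_polyT_of_even (hQg0 j hj) (hQg1 j hj) (hb j hj)
  have hTV : ∀ j ∈ J, Tj j ≤ (1 + ε j) * V j := by
    intro j hj
    have h1 := polyT_le_of_even (hQg0 j hj) (hQg1 j hj) (hb j hj)
    have h2 := hε j hj
    simp only [hT, hV] at *
    linarith
  have hTnn : ∀ j ∈ J, 0 ≤ Tj j := fun j hj => (hVnn j hj).trans (hVT j hj)
  have hcard : ∀ l ∈ J, Ej l * ∏ j ∈ J.erase l, Tj j ≤ ε l * ∏ j ∈ J, Tj j := by
    intro l hl
    rw [← Finset.mul_prod_erase J Tj hl, ← mul_assoc]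
    apply mul_le_mul_of_nonneg_right
    · have h1 := hε l hl
      have h2 := mul_le_mul_of_nonneg_left (hVT l hl) (hε0 l hl)
      simp only [hE, hV] at *
      linarith
    · exact Finset.prod_nonneg fun j hj => hTnn j (Finset.mem_of_mem_erase hj)
  have hprodT : 0 ≤ ∏ j ∈ J, Tj j := Finset.prod_nonneg hTnn
  have hVT' : ∏ j ∈ J, V j ≤ ∏ j ∈ J, Tj j := Finset.prod_le_prod hVnn hVT
  refine ⟨lp, lm, fun E => hprod1 J E, fun E => ?_, fun E hE0 j hj => ?_, fun f hf0 hf1 => ⟨?_, ?_⟩,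
    ?_, ?_⟩
  · by_cases hc : ∀ j ∈ J, (E ∩ Q j).card ≤ b j
    · rw [hA E hc]
      exact hprod1 J E
    · push_neg at hc
      obtain ⟨l0, hl0, hc⟩ := hc
      rw [(hB E l0 hl0 (not_le.2 hc)).2, abs_neg]
      simp only [htm]
      rw [abs_mul]
      exact mul_le_one₀ (bh1_cE_abs _ _) (abs_nonneg _) (hprod1 _ E)
  · by_cases hc : ∀ j ∈ J, (E ∩ Q j).card ≤ b j
    · have := hc j hj
      omega
    · push_neg at hc
      obtain ⟨l0, hl0, hc⟩ := hc
      obtain ⟨h1, h2⟩ := hB E l0 hl0 (not_le.2 hc)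
      have h3 : tm l0 E ≠ 0 := by
        rcases hE0 with h | h
        · exact absurd h1 h
        · intro h4
          rw [h2, h4, neg_zero] at h
          exact h rfl
      simp only [htm] at h3
      have h4 := left_ne_zero_of_mul h3
      have h5 := right_ne_zero_of_mul h3
      by_cases hjl : j = l0
      · subst hjl
        unfold cE at h4
        by_contra h6
        rw [if_neg (by omega)] at h4
        exact h4 rfl
      · have h6 := (Finset.prod_ne_zero_iff.1 h5) j (Finset.mem_erase.2 ⟨hjl, hj⟩)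
        unfold cT at h6
        by_contra h7
        rw [if_neg (by omega)] at h6
        exact h6 rfl
  · rw [rep3 f, hbU f]
    apply prod_ge_telescope
    · intro j _
      exact Finset.prod_nonneg fun p _ => by linarith [hf1 p]
    · intro j hj
      exact le_polyT_of_even (fun p _ => hf0 p) (fun p _ => hf1 p) (hb j hj)
    · intro j hj
      have := polyT_le_of_even (f := f) (Q := Q j) (fun p _ => hf0 p)
        (fun p _ => hf1 p) (hb j hj)
      linarith
  · rw [rep1 f, hbU f]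
    apply Finset.prod_le_prod
    · intro j _
      exact Finset.prod_nonneg fun p _ => by linarith [hf1 p]
    · intro j hj
      exact le_polyT_of_even (fun p _ => hf0 p) (fun p _ => hf1 p) (hb j hj)
  · rw [rep3 g, hbU g]
    have h2 : ∑ l ∈ J, Ej l * ∏ j ∈ J.erase l, Tj j ≤ ∑ l ∈ J, ε l * ∏ j ∈ J, Tj j :=
      Finset.sum_le_sum hcard
    rw [← Finset.sum_mul] at h2
    have h5 : (∑ l ∈ J, ε l) * ∏ j ∈ J, Tj j ≤ 1 / 2 * ∏ j ∈ J, Tj j :=
      mul_le_mul_of_nonneg_right hεsum hprodT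
    simp only [hV, hT, hE] at *
    linarith
  · rw [rep1 g, hbU g]
    have h3 : ∏ j ∈ J, Tj j ≤ ∏ j ∈ J, ((1 + ε j) * V j) := Finset.prod_le_prod hTnn hTV
    rw [Finset.prod_mul_distrib] at h3
    have h4 : ∏ j ∈ J, (1 + ε j) ≤ Real.exp (∑ j ∈ J, ε j) := by
      rw [Real.exp_sum]
      refine Finset.prod_le_prod (fun j hj => by linarith [hε0 j hj]) fun j _ => ?_
      have := Real.add_one_le_exp (ε j)
      linarith
    have h5 : Real.exp (∑ j ∈ J, ε j) ≤ Real.exp (1 / 2) := Real.exp_le_exp.mpr hεsum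
    have h6 : Real.exp (1 / 2) ≤ 2 := by
      have h7 : Real.exp (1 / 2) ^ 2 = Real.exp 1 := by
        rw [← Real.exp_nat_mul]
        norm_num
      have h8 := Real.exp_one_lt_d9
      have h9 : 0 < Real.exp (1 / 2) := Real.exp_pos _
      nlinarith
    have h10 : 0 ≤ ∏ j ∈ J, V j := Finset.prod_nonneg hVnn
    calc ∏ j ∈ J, Tj j ≤ (∏ j ∈ J, (1 + ε j)) * ∏ j ∈ J, V j := h3
      _ ≤ 2 * ∏ j ∈ J, V j := mul_le_mul_of_nonneg_right (by linarith) h10

end Pool.Agent.Lib.H57C
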