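import Pool.Agent.Lib.H57C.BH1
import Pool.Agent.Lib.Sieve.Fundamental

/-!
# Chunk BH2: the Brun-Hooley sieve for weighted sequences with remainder terms
-/

open Finset

namespace Pool.Agent.Lib.H57C

open Pool.Agent.Lib.Sieve

theorem bh2_blockE (k z : ℕ) (Q : Finset ℕ)
    (hQ : ∀ q ∈ Q, q.Prime ∧ 2 * k + 2 < q ∧ q ≤ z) (g : ℕ → ℝ) (hg0 : ∀ q, 0 ≤ g q)
    (hg : ∀ q ∈ Q, g q ≤ k / q) (j : ℕ) :
    poly (cE (bj k j + 1)) g (Q.filter (fun q => blk z q = j)) ≤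
      epsj k j * ∏ p ∈ Q.filter (fun q => blk z q = j), (1 - g p) := by
  set R := Q.filter (fun q => blk z q = j) with hR
  have hsub : R ⊆ blockSet (2 * k + 2) z j := by
    intro q hq
    rw [hR, mem_filter] at hq
    rw [mem_blockSet]
    exact ⟨hQ q hq.1, hq.2⟩
  have hRQ : ∀ q ∈ R, q ∈ Q := fun q hq => (mem_filter.1 hq).1
  have hg1 : ∀ p ∈ R, g p ≤ 1 / 2 := fun p hp => by
    have h1 := hg p (hRQ p hp)
    have h2 := (hQ p (hRQ p hp)).2.1
    refine h1.trans ?_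
    have hp0 : (0 : ℝ) < p := by
      have : 0 < p := by omega
      exact_mod_cast this
    rw [div_le_iff₀ hp0]
    have h3 : (2 * k + 2 : ℝ) < p := by exact_mod_cast h2
    linarith
  have hsum : ∑ p ∈ R, g p ≤ 6 * k := by
    calc ∑ p ∈ R, g p ≤ ∑ p ∈ R, (k : ℝ) * (1 / p) :=
          Finset.sum_le_sum fun p hp => by
            rw [mul_one_div]
            exact hg p (hRQ p hp)
      _ = k * ∑ p ∈ R, (1 : ℝ) / p := by rw [Finset.mul_sum]
      _ ≤ k * ∑ p ∈ blockSet (2 * k + 2) z j, (1 : ℝ) / p := by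
          refine mul_le_mul_of_nonneg_left ?_ (Nat.cast_nonneg _)
          exact sum_le_sum_of_subset_of_nonneg hsub (fun p _ _ => by positivity)
      _ ≤ k * 6 := mul_le_mul_of_nonneg_left (block_sum_inv _ _ _) (Nat.cast_nonneg _)
      _ = 6 * k := by ring
  have h1 := rankinE (f := g) (Q := R) (fun p _ => hg0 p) (bj k j + 1) (l := 2) (by norm_num)
  have h2 : ∏ p ∈ R, (1 + 2 * g p) ≤ Real.exp (∑ p ∈ R, 2 * g p) :=
    prod_one_add_le fun p _ => by
      have := hg0 p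
      linarith
  rw [← Finset.mul_sum] at h2
  have h3 : Real.exp (2 * ∑ p ∈ R, g p) ≤ Real.exp (12 * k) :=
    Real.exp_le_exp.mpr (by linarith)
  have h4 : Real.exp (-(12 * k)) ≤ ∏ p ∈ R, (1 - g p) :=
    (Real.exp_le_exp.mpr (by linarith)).trans (prod_one_sub_ge (fun p _ => hg0 p) hg1)
  have h5 : (0 : ℝ) < 2 ^ (bj k j + 1) := by positivity
  have h6 : poly (cE (bj k j + 1)) g R ≤ Real.exp (12 * k) / 2 ^ (bj k j + 1) := by
    rw [le_div_iff₀ h5]
    linarith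
  refine h6.trans ?_
  unfold epsj
  have h7 : Real.exp (12 * k) = Real.exp (24 * k) * Real.exp (-(12 * k)) := by
    rw [← Real.exp_add]
    congr 1
    ring
  rw [h7]
  have h8 : 0 ≤ Real.exp (24 * k) / 2 ^ (bj k j + 1) := by positivity
  calc Real.exp (24 * k) * Real.exp (-(12 * k)) / 2 ^ (bj k j + 1)
      = Real.exp (24 * k) / 2 ^ (bj k j + 1) * Real.exp (-(12 * k)) := by ring
    _ ≤ Real.exp (24 * k) / 2 ^ (bj k j + 1) * ∏ p ∈ R, (1 - g p) :=
        mul_le_mul_of_nonneg_left h4 h8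

/-- The level. -/
theorem bh2_level (k z : ℕ) (hz : 2 ≤ z) (Q : Finset ℕ)
    (hQ : ∀ q ∈ Q, q.Prime ∧ 2 * k + 2 < q ∧ q ≤ z) (E : Finset ℕ) (hE : E ⊆ Q)
    (hc : ∀ j ∈ range (z + 1), (E ∩ Q.filter (fun q => blk z q = j)).card ≤ bj k j + 1) :
    ∏ q ∈ E, q ≤ z ^ (96 * k + 10) := by
  have hz0 : (0 : ℝ) < z := by
    have : 0 < z := by omega
    exact_mod_cast this
  have hz1 : (1 : ℝ) ≤ z := by
    have : 1 ≤ z := by omega
    exact_mod_cast this
  have hlog : 0 ≤ Real.log z := Real.log_nonneg hz1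
  have hEf : ∀ j, E ∩ Q.filter (fun q => blk z q = j) = E.filter (fun q => blk z q = j) := by
    intro j
    ext q
    rw [mem_inter, mem_filter, mem_filter]
    constructor
    · rintro ⟨h1, -, h2⟩
      exact ⟨h1, h2⟩
    · rintro ⟨h1, h2⟩
      exact ⟨h1, hE h1, h2⟩
  have h1 : ∏ q ∈ E, (q : ℝ) = ∏ j ∈ range (z + 1), ∏ q ∈ E.filter (fun q => blk z q = j), (q : ℝ) := by
    symm
    apply Finset.prod_fiberwise_of_maps_to
    intro p _
    exact Finset.mem_range.mpr (Nat.lt_succ_of_le (blk_le z p))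
  have h2 : ∀ j ∈ range (z + 1), ∏ q ∈ E.filter (fun q => blk z q = j), (q : ℝ) ≤
      Real.exp (((48 * k + 3 : ℝ) + 2 * j) / 2 ^ j * Real.log z) := by
    intro j hj
    have h3 : ∀ q ∈ E.filter (fun q => blk z q = j), (q : ℝ) ≤ Real.exp (Real.log z / 2 ^ j) := by
      intro q hq
      rw [mem_filter] at hq
      have hqq := hQ q (hE hq.1)
      have h6 := (blk_spec hqq.1 hqq.2.2).1
      rw [hq.2] at h6
      have hq0 : (0 : ℝ) < q := by exact_mod_cast hqq.1.pos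
      have h7 : Real.log ((q : ℝ) ^ (2 ^ j)) ≤ Real.log z := by
        apply Real.log_le_log (by positivity)
        exact_mod_cast h6
      rw [Real.log_pow] at h7
      push_cast at h7
      rw [← Real.log_le_iff_le_exp hq0, le_div_iff₀ (by positivity)]
      linarith
    have h4 : ∏ q ∈ E.filter (fun q => blk z q = j), (q : ℝ) ≤
        Real.exp (Real.log z / 2 ^ j) ^ (E.filter (fun q => blk z q = j)).card := by
      rw [← prod_const]
      exact prod_le_prod (fun q _ => Nat.cast_nonneg _) h3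
    refine h4.trans ?_
    have h5 := hc j hj
    rw [hEf j] at h5
    have h6 : (1 : ℝ) ≤ Real.exp (Real.log z / 2 ^ j) := Real.one_le_exp (by positivity)
    refine (pow_le_pow_right₀ h6 h5).trans (le_of_eq ?_)
    rw [← Real.exp_nat_mul]
    congr 1
    unfold bj
    push_cast
    ring
  have h3 : ∏ q ∈ E, (q : ℝ) ≤ (z : ℝ) ^ (96 * k + 10) := by
    rw [h1]
    refine (prod_le_prod (fun j _ => prod_nonneg (fun q _ => Nat.cast_nonneg _)) h2).trans ?_
    rw [← Real.exp_sum, ← Finset.sum_mul]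
    have h4 := sum_aux (48 * k + 3 : ℝ) (by positivity) (z + 1)
    have h5 : (∑ j ∈ range (z + 1), ((48 * k + 3 : ℝ) + 2 * j) / 2 ^ j) * Real.log z ≤
        ((96 * k + 10 : ℕ) : ℝ) * Real.log z := by
      refine mul_le_mul_of_nonneg_right (h4.trans (le_of_eq ?_)) hlog
      push_cast
      ring
    refine (Real.exp_le_exp.2 h5).trans (le_of_eq ?_)
    rw [Real.exp_nat_mul, Real.exp_log hz0]
  have h4 : ((∏ q ∈ E, q : ℕ) : ℝ) ≤ ((z ^ (96 * k + 10) : ℕ) : ℝ) := by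
    rw [Nat.cast_prod, Nat.cast_pow]
    exact h3
  exact Nat.cast_le.1 h4

open Classical in
theorem bh2_rem (k z : ℕ) (hz : 2 ≤ z) (Q : Finset ℕ)
    (hQ : ∀ q ∈ Q, q.Prime ∧ 2 * k + 2 < q ∧ q ≤ z) (g : ℕ → ℝ)
    {ι : Type} (S : Finset ι) (wt : ι → ℝ)
    (ev : ℕ → ι → Prop) (X : ℝ) (Rm : ℝ)
    (hRm : ∑ d ∈ (Icc 1 (z ^ (96 * k + 10))).filter
        (fun d => Squarefree d ∧ ∀ q ∈ d.primeFactors, q ∈ Q),
      |∑ i ∈ S.filter (fun i => ∀ q ∈ d.primeFactors, ev q i), wt i -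
        X * ∏ q ∈ d.primeFactors, g q| ≤ Rm) (l : Finset ℕ → ℝ) (hl : ∀ E, |l E| ≤ 1)
    (hc : ∀ E, l E ≠ 0 → ∀ j ∈ range (z + 1),
      (E ∩ Q.filter (fun q => blk z q = j)).card ≤ bj k j + 1) :
    |∑ E ∈ Q.powerset, l E * (∑ i ∈ S.filter (fun i => ∀ q ∈ E, ev q i), wt i) -
      X * ∑ E ∈ Q.powerset, l E * ∏ q ∈ E, g q| ≤ Rm := by
  have hP : ∀ E ⊆ Q, (∏ q ∈ E, q).primeFactors = E := fun E hE =>
    Nat.primeFactors_prod (fun p hp => (hQ p (hE hp)).1)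
  rw [mul_sum, ← sum_sub_distrib]
  refine (abs_sum_le_sum_abs _ _).trans (le_trans ?_ hRm)
  have h1 : ∀ E ∈ Q.powerset, |l E * (∑ i ∈ S.filter (fun i => ∀ q ∈ E, ev q i), wt i) -
      X * (l E * ∏ q ∈ E, g q)| ≤ if l E ≠ 0 then
        |∑ i ∈ S.filter (fun i => ∀ q ∈ E, ev q i), wt i - X * ∏ q ∈ E, g q| else 0 := by
    intro E _
    split_ifs with h
    · rw [show l E * (∑ i ∈ S.filter (fun i => ∀ q ∈ E, ev q i), wt i) - X * (l E * ∏ q ∈ E, g q) =
        l E * (∑ i ∈ S.filter (fun i => ∀ q ∈ E, ev q i), wt i - X * ∏ q ∈ E, g q) by ring, abs_mul]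
      exact mul_le_of_le_one_left (abs_nonneg _) (hl E)
    · rw [not_not] at h
      rw [h]
      simp
  refine (sum_le_sum h1).trans ?_
  rw [← sum_filter]
  have hinj : Set.InjOn (fun E : Finset ℕ => ∏ q ∈ E, q) (Q.powerset.filter (fun E => l E ≠ 0)) := by
    intro E hE E' hE' hh
    have a1 := hP E (mem_powerset.1 (mem_filter.1 (mem_coe.1 hE)).1)
    have a2 := hP E' (mem_powerset.1 (mem_filter.1 (mem_coe.1 hE')).1)
    rw [← a1, ← a2]
    exact congrArg Nat.primeFactors hh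
  have h2 : ∑ E ∈ Q.powerset.filter (fun E => l E ≠ 0),
      |∑ i ∈ S.filter (fun i => ∀ q ∈ E, ev q i), wt i - X * ∏ q ∈ E, g q| =
      ∑ d ∈ (Q.powerset.filter (fun E => l E ≠ 0)).image (fun E : Finset ℕ => ∏ q ∈ E, q),
        |∑ i ∈ S.filter (fun i => ∀ q ∈ d.primeFactors, ev q i), wt i -
          X * ∏ q ∈ d.primeFactors, g q| := by
    rw [sum_image hinj]
    refine sum_congr rfl (fun E hE => ?_)
    rw [hP E (mem_powerset.1 (mem_filter.1 hE).1)]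
  rw [h2]
  refine sum_le_sum_of_subset_of_nonneg ?_ (fun d _ _ => abs_nonneg _)
  intro d hd
  rw [mem_image] at hd
  obtain ⟨E, hE, rfl⟩ := hd
  rw [mem_filter, mem_powerset] at hE
  rw [mem_filter, mem_Icc]
  refine ⟨⟨?_, ?_⟩, ?_, ?_⟩
  · exact Nat.one_le_iff_ne_zero.2 (prod_ne_zero_iff.2 (fun q hq => (hQ q (hE.1 hq)).1.ne_zero))
  · exact bh2_level k z hz Q hQ E hE.1 (hc E hE.2)
  · refine Finset.squarefree_prod_of_pairwise_isCoprime ?_ ?_
    · intro p hp q hq hpq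
      exact Nat.coprime_iff_isRelPrime.1
        ((Nat.coprime_primes (hQ p (hE.1 (Finset.mem_coe.1 hp))).1
          (hQ q (hE.1 (Finset.mem_coe.1 hq))).1).2 hpq)
    · intro p hp
      exact (hQ p (hE.1 hp)).1.squarefree
  · rw [hP E hE.1]
    exact hE.1

open Classical in
theorem bh (k z : ℕ) (hz : 2 ≤ z) (hk : 1 ≤ k) (Q : Finset ℕ)
    (hQ : ∀ q ∈ Q, q.Prime ∧ 2 * k + 2 < q ∧ q ≤ z) (g : ℕ → ℝ) (hg0 : ∀ q, 0 ≤ g q)
    (hg : ∀ q ∈ Q, g q ≤ k / q) {ι : Type} (S : Finset ι) (wt : ι → ℝ) (hw : ∀ i ∈ S, 0 ≤ wt i)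
    (ev : ℕ → ι → Prop) (X : ℝ) (hX : 0 ≤ X) (Rm : ℝ)
    (hRm : ∑ d ∈ (Icc 1 (z ^ (96 * k + 10))).filter
        (fun d => Squarefree d ∧ ∀ q ∈ d.primeFactors, q ∈ Q),
      |∑ i ∈ S.filter (fun i => ∀ q ∈ d.primeFactors, ev q i), wt i -
        X * ∏ q ∈ d.primeFactors, g q| ≤ Rm) :
    X / 2 * ∏ q ∈ Q, (1 - g q) - Rm ≤ ∑ i ∈ S.filter (fun i => ∀ q ∈ Q, ¬ ev q i), wt i ∧
    ∑ i ∈ S.filter (fun i => ∀ q ∈ Q, ¬ ev q i), wt i ≤ 2 * X * ∏ q ∈ Q, (1 - g q) + Rm := by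
  have _ := hk
  have hbU : (range (z + 1)).biUnion (fun j => Q.filter (fun q => blk z q = j)) = Q := by
    ext q
    rw [mem_biUnion]
    constructor
    · rintro ⟨j, _, h⟩
      exact (mem_filter.1 h).1
    · intro h
      exact ⟨blk z q, Finset.mem_range.mpr (Nat.lt_succ_of_le (blk_le z q)), mem_filter.2 ⟨h, rfl⟩⟩
  have hg1 : ∀ q ∈ Q, g q ≤ 1 := by
    intro p hp
    have h1 := hg p hp
    have h2 := (hQ p hp).2.1
    refine h1.trans ?_
    have hp0 : (0 : ℝ) < p := by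
      have : 0 < p := by omega
      exact_mod_cast this
    rw [div_le_iff₀ hp0]
    have h3 : (2 * k + 2 : ℝ) < p := by exact_mod_cast h2
    linarith [Nat.cast_nonneg (α := ℝ) k]
  obtain ⟨lp, lm, hlp, hlm, hlev, hpt, hm1, hm2⟩ := bh_weights
    (fun j => Q.filter (fun q => blk z q = j)) (range (z + 1)) (bj k) (fun j _ => bj_even k j)
    (fun i _ j _ hij => by
      rw [Finset.disjoint_left]
      intro p hp hp'
      exact hij ((mem_filter.mp hp).2.symm.trans (mem_filter.mp hp').2))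
    g (fun p _ => hg0 p) (fun p hp => hg1 p (by rwa [hbU] at hp)) (epsj k)
    (fun j _ => epsj_nonneg k j) (fun j _ => bh2_blockE k z Q hQ g hg0 hg j) (sum_epsj k (z + 1))
  rw [hbU] at hm1 hm2
  have hpt' : ∀ i : ι, ∑ E ∈ Q.powerset, lm E * ∏ p ∈ E, (if ev p i then (1 : ℝ) else 0) ≤
      (if ∀ q ∈ Q, ¬ ev q i then (1 : ℝ) else 0) ∧ (if ∀ q ∈ Q, ¬ ev q i then (1 : ℝ) else 0) ≤
      ∑ E ∈ Q.powerset, lp E * ∏ p ∈ E, (if ev p i then (1 : ℝ) else 0) := by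
    intro i
    have h1 := hpt (fun p => if ev p i then (1 : ℝ) else 0) (fun p => by split_ifs <;> norm_num)
      (fun p => by split_ifs <;> norm_num)
    rw [hbU] at h1
    have h2 : ∏ p ∈ Q, (1 - (if ev p i then (1 : ℝ) else 0)) =
        (if ∀ q ∈ Q, ¬ ev q i then (1 : ℝ) else 0) := by
      split_ifs with h
      · apply prod_eq_one
        intro p hp
        rw [if_neg (h p hp)]
        norm_num
      · push Not at h
        obtain ⟨q, hq, he⟩ := h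
        refine prod_eq_zero hq ?_
        rw [if_pos he]
        norm_num
    rw [h2] at h1
    exact h1
  have hprod : ∀ (i : ι) (E : Finset ℕ), ∏ p ∈ E, (if ev p i then (1 : ℝ) else 0) =
      if ∀ q ∈ E, ev q i then (1 : ℝ) else 0 := by
    intro i E
    split_ifs with h
    · exact prod_eq_one (fun p hp => if_pos (h p hp))
    · push Not at h
      obtain ⟨q, hq, he⟩ := h
      exact prod_eq_zero hq (if_neg he)
  have hswap : ∀ l : Finset ℕ → ℝ, ∑ i ∈ S, wt i * ∑ E ∈ Q.powerset, l E *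
      ∏ p ∈ E, (if ev p i then (1 : ℝ) else 0) =
      ∑ E ∈ Q.powerset, l E * (∑ i ∈ S.filter (fun i => ∀ q ∈ E, ev q i), wt i) := by
    intro l
    simp_rw [mul_sum]
    rw [sum_comm]
    refine sum_congr rfl (fun E _ => ?_)
    rw [sum_filter]
    refine sum_congr rfl (fun i _ => ?_)
    rw [hprod i E]
    split_ifs <;> ring
  have hlhs : ∑ i ∈ S.filter (fun i => ∀ q ∈ Q, ¬ ev q i), wt i =
      ∑ i ∈ S, wt i * (if ∀ q ∈ Q, ¬ ev q i then (1 : ℝ) else 0) := by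
    rw [sum_filter]
    refine sum_congr rfl (fun i _ => ?_)
    split_ifs <;> ring
  have hr1 := bh2_rem k z hz Q hQ g S wt ev X Rm hRm lp hlp (fun E hE => hlev E (Or.inl hE))
  have hr2 := bh2_rem k z hz Q hQ g S wt ev X Rm hRm lm hlm (fun E hE => hlev E (Or.inr hE))
  rw [abs_le] at hr1 hr2
  rw [hlhs]
  constructor
  · have h1 : ∑ i ∈ S, wt i * ∑ E ∈ Q.powerset, lm E * ∏ p ∈ E, (if ev p i then (1 : ℝ) else 0) ≤
        ∑ i ∈ S, wt i * (if ∀ q ∈ Q, ¬ ev q i then (1 : ℝ) else 0) :=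
      sum_le_sum (fun i hi => mul_le_mul_of_nonneg_left (hpt' i).1 (hw i hi))
    rw [hswap lm] at h1
    have h2 := mul_le_mul_of_nonneg_left hm1 hX
    linarith [hr2.1]
  · have h1 : ∑ i ∈ S, wt i * (if ∀ q ∈ Q, ¬ ev q i then (1 : ℝ) else 0) ≤
        ∑ i ∈ S, wt i * ∑ E ∈ Q.powerset, lp E * ∏ p ∈ E, (if ev p i then (1 : ℝ) else 0) :=
      sum_le_sum (fun i hi => mul_le_mul_of_nonneg_left (hpt' i).2 (hw i hi))
    rw [hswap lp] at h1
    have h2 := mul_le_mul_of_nonneg_left hm2 hX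
    linarith [hr1.2]

end Pool.Agent.Lib.H57C
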