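import Pool.Agent.Lib.H57C.BH2

/-!
# Chunk BH3: the Brun-Hooley sieve with main terms `1 ± 2^(-c)`
-/

open Finset

namespace Pool.Agent.Lib.H57C

open Pool.Agent.Lib.Sieve

/-- Proof. Copy of the proof of `bh_weights` (`BH1.lean`) with `∑ ε j ≤ η ≤ 1/2` instead of `≤ 1/2`: the main terms are `∏ Tj ≤ exp (∑ ε j) ∏ V ≤ (1 + 2 η) ∏ V` and
`∏ Tj - ∑_l Ej l ∏_{j ≠ l} Tj ≥ (1 - η) ∏ Tj ≥ (1 - η) ∏ V`. -/
theorem bh_weights_eta {ι κ : Type} [DecidableEq ι] [DecidableEq κ] (Q : κ → Finset ι)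
    (J : Finset κ) (b : κ → ℕ) (hb : ∀ j ∈ J, Even (b j))
    (hdisj : ∀ i ∈ J, ∀ j ∈ J, i ≠ j → Disjoint (Q i) (Q j)) (g : ι → ℝ)
    (hg0 : ∀ p ∈ J.biUnion Q, 0 ≤ g p) (hg1 : ∀ p ∈ J.biUnion Q, g p ≤ 1)
    (ε : κ → ℝ) (hε0 : ∀ j ∈ J, 0 ≤ ε j)
    (hε : ∀ j ∈ J, poly (cE (b j + 1)) g (Q j) ≤ ε j * ∏ p ∈ Q j, (1 - g p))
    (η : ℝ) (hη : η ≤ 1 / 2) (hεsum : ∑ j ∈ J, ε j ≤ η) :
    ∃ lp lm : Finset ι → ℝ, (∀ E, |lp E| ≤ 1) ∧ (∀ E, |lm E| ≤ 1) ∧
      (∀ E, (lp E ≠ 0 ∨ lm E ≠ 0) → ∀ j ∈ J, (E ∩ Q j).card ≤ b j + 1) ∧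
      (∀ f : ι → ℝ, (∀ p, 0 ≤ f p) → (∀ p, f p ≤ 1) →
        ∑ E ∈ (J.biUnion Q).powerset, lm E * ∏ p ∈ E, f p ≤ ∏ p ∈ J.biUnion Q, (1 - f p) ∧
        ∏ p ∈ J.biUnion Q, (1 - f p) ≤ ∑ E ∈ (J.biUnion Q).powerset, lp E * ∏ p ∈ E, f p) ∧
      (1 - η) * ∏ p ∈ J.biUnion Q, (1 - g p) ≤
        ∑ E ∈ (J.biUnion Q).powerset, lm E * ∏ p ∈ E, g p ∧
      ∑ E ∈ (J.biUnion Q).powerset, lp E * ∏ p ∈ E, g p ≤
        (1 + 2 * η) * ∏ p ∈ J.biUnion Q, (1 - g p) := by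
  set lp : Finset ι → ℝ := fun E => ∏ j ∈ J, cT (b j) (E ∩ Q j) with hlp
  set tm : κ → Finset ι → ℝ := fun l E => cE (b l + 1) (E ∩ Q l) *
    ∏ j ∈ J.erase l, cT (b j) (E ∩ Q j) with htm
  set lm : Finset ι → ℝ := fun E => lp E - ∑ l ∈ J, tm l E with hlm
  have hprod1 : ∀ (s : Finset κ) (E : Finset ι), |∏ j ∈ s, cT (b j) (E ∩ Q j)| ≤ 1 := by
    intro s E
    rw [Finset.abs_prod]
    exact Finset.prod_le_one (fun j _ => abs_nonneg _) fun j _ => bh1_cT_abs _ _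
  -- case A
  have hA : ∀ E : Finset ι, (∀ j ∈ J, (E ∩ Q j).card ≤ b j) → lm E = lp E := by
    intro E hE
    have : ∑ l ∈ J, tm l E = 0 := by
      refine Finset.sum_eq_zero fun l hl => ?_
      have h1 : cE (b l + 1) (E ∩ Q l) = 0 := by
        unfold cE
        rw [if_neg]
        have := hE l hl
        omega
      simp only [htm, h1, zero_mul]
    simp only [hlm, this, sub_zero]
  -- case B
  have hB : ∀ E : Finset ι, ∀ l0 ∈ J, ¬ (E ∩ Q l0).card ≤ b l0 → lp E = 0 ∧ lm E = - tm l0 E := by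
    intro E l0 hl0 hc
    have h0 : cT (b l0) (E ∩ Q l0) = 0 := by
      unfold cT
      rw [if_neg hc]
    have h1 : lp E = 0 := Finset.prod_eq_zero hl0 h0
    refine ⟨h1, ?_⟩
    have h2 : ∑ l ∈ J, tm l E = tm l0 E := by
      refine Finset.sum_eq_single l0 (fun l hl hne => ?_) (fun h => absurd hl0 h)
      have : ∏ j ∈ J.erase l, cT (b j) (E ∩ Q j) = 0 :=
        Finset.prod_eq_zero (Finset.mem_erase.2 ⟨hne.symm, hl0⟩) h0
      simp only [htm, this, mul_zero]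
    simp only [hlm, h1, h2, zero_sub]
  -- the representation
  have rep1 : ∀ f : ι → ℝ, ∑ E ∈ (J.biUnion Q).powerset, lp E * ∏ p ∈ E, f p =
      ∏ j ∈ J, poly (cT (b j)) f (Q j) := fun f =>
    bh1_rep Q J hdisj (fun j => cT (b j)) f
  have rep2 : ∀ f : ι → ℝ, ∀ l ∈ J, ∑ E ∈ (J.biUnion Q).powerset, tm l E * ∏ p ∈ E, f p =
      poly (cE (b l + 1)) f (Q l) * ∏ j ∈ J.erase l, poly (cT (b j)) f (Q j) := by
    intro f l hl
    have h := bh1_rep Q J hdisj (Function.update (fun j => cT (b j)) l (cE (b l + 1))) f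
    have hupd : ∀ F : κ → (Finset ι → ℝ) → ℝ,
        ∏ j ∈ J, F j (Function.update (fun j => cT (b j)) l (cE (b l + 1)) j)
          = F l (cE (b l + 1)) * ∏ j ∈ J.erase l, F j (cT (b j)) := by
      intro F
      rw [← Finset.mul_prod_erase J _ hl]
      rw [Function.update_self]
      congr 1
      refine Finset.prod_congr rfl fun j hj => ?_
      rw [Function.update_of_ne (Finset.ne_of_mem_erase hj)]
    have h1 : ∀ E : Finset ι, ∏ j ∈ J, Function.update (fun j => cT (b j)) l (cE (b l + 1)) j (E ∩ Q j)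
        = tm l E := fun E => hupd (fun j c => c (E ∩ Q j))
    have h2 : ∏ j ∈ J, poly (Function.update (fun j => cT (b j)) l (cE (b l + 1)) j) f (Q j)
        = poly (cE (b l + 1)) f (Q l) * ∏ j ∈ J.erase l, poly (cT (b j)) f (Q j) :=
      hupd (fun j c => poly c f (Q j))
    rw [h2] at h
    rw [← h]
    exact Finset.sum_congr rfl fun E _ => by rw [h1 E]
  have rep3 : ∀ f : ι → ℝ, ∑ E ∈ (J.biUnion Q).powerset, lm E * ∏ p ∈ E, f p =
      ∏ j ∈ J, poly (cT (b j)) f (Q j) - ∑ l ∈ J, poly (cE (b l + 1)) f (Q l) *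
        ∏ j ∈ J.erase l, poly (cT (b j)) f (Q j) := by
    intro f
    rw [← rep1 f, ← Finset.sum_congr rfl (rep2 f), Finset.sum_comm, ← Finset.sum_sub_distrib]
    refine Finset.sum_congr rfl fun E _ => ?_
    simp only [hlm]
    rw [sub_mul, Finset.sum_mul]
  have hbU : ∀ f : ι → ℝ, ∏ p ∈ J.biUnion Q, (1 - f p) = ∏ j ∈ J, ∏ p ∈ Q j, (1 - f p) := by
    intro f
    exact Finset.prod_biUnion (fun i hi j hj hij => hdisj i hi j hj hij)
  have hQg0 : ∀ j ∈ J, ∀ p ∈ Q j, 0 ≤ g p := fun j hj p hp =>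
    hg0 p (Finset.mem_biUnion.2 ⟨j, hj, hp⟩)
  have hQg1 : ∀ j ∈ J, ∀ p ∈ Q j, g p ≤ 1 := fun j hj p hp =>
    hg1 p (Finset.mem_biUnion.2 ⟨j, hj, hp⟩)
  set V : κ → ℝ := fun j => ∏ p ∈ Q j, (1 - g p) with hV
  set Tj : κ → ℝ := fun j => poly (cT (b j)) g (Q j) with hT
  set Ej : κ → ℝ := fun j => poly (cE (b j + 1)) g (Q j) with hE
  have hVnn : ∀ j ∈ J, 0 ≤ V j := fun j hj =>
    Finset.prod_nonneg fun p hp => by
      have := hQg1 j hj p hp
      linarith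
  have hVT : ∀ j ∈ J, V j ≤ Tj j := fun j hj =>
    le_polyT_of_even (hQg0 j hj) (hQg1 j hj) (hb j hj)
  have hTV : ∀ j ∈ J, Tj j ≤ (1 + ε j) * V j := by
    intro j hj
    have h1 := polyT_le_of_even (hQg0 j hj) (hQg1 j hj) (hb j hj)
    have h2 := hε j hj
    simp only [hT, hV] at *
    linarith
  have hTnn : ∀ j ∈ J, 0 ≤ Tj j := fun j hj => (hVnn j hj).trans (hVT j hj)
  have hcard : ∀ l ∈ J, Ej l * ∏ j ∈ J.erase l, Tj j ≤ ε l * ∏ j ∈ J, Tj j := by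
    intro l hl
    rw [← Finset.mul_prod_erase J Tj hl, ← mul_assoc]
    apply mul_le_mul_of_nonneg_right
    · have h1 := hε l hl
      have h2 := mul_le_mul_of_nonneg_left (hVT l hl) (hε0 l hl)
      simp only [hE, hV] at *
      linarith
    · exact Finset.prod_nonneg fun j hj => hTnn j (Finset.mem_of_mem_erase hj)
  have hprodT : 0 ≤ ∏ j ∈ J, Tj j := Finset.prod_nonneg hTnn
  have hVT' : ∏ j ∈ J, V j ≤ ∏ j ∈ J, Tj j := Finset.prod_le_prod hVnn hVT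
  refine ⟨lp, lm, fun E => hprod1 J E, fun E => ?_, fun E hE0 j hj => ?_, fun f hf0 hf1 => ⟨?_, ?_⟩,
    ?_, ?_⟩
  · by_cases hc : ∀ j ∈ J, (E ∩ Q j).card ≤ b j
    · rw [hA E hc]
      exact hprod1 J E
    · push Not at hc
      obtain ⟨l0, hl0, hc⟩ := hc
      rw [(hB E l0 hl0 (not_le.2 hc)).2, abs_neg]
      simp only [htm]
      rw [abs_mul]
      exact mul_le_one₀ (bh1_cE_abs _ _) (abs_nonneg _) (hprod1 _ E)
  · by_cases hc : ∀ j ∈ J, (E ∩ Q j).card ≤ b j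
    · have := hc j hj
      omega
    · push Not at hc
      obtain ⟨l0, hl0, hc⟩ := hc
      obtain ⟨h1, h2⟩ := hB E l0 hl0 (not_le.2 hc)
      have h3 : tm l0 E ≠ 0 := by
        rcases hE0 with h | h
        · exact absurd h1 h
        · intro h4
          rw [h2, h4, neg_zero] at h
          exact h rfl
      simp only [htm] at h3
      have h4 := left_ne_zero_of_mul h3
      have h5 := right_ne_zero_of_mul h3
      by_cases hjl : j = l0
      · subst hjl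
        unfold cE at h4
        by_contra h6
        rw [if_neg (by omega)] at h4
        exact h4 rfl
      · have h6 := (Finset.prod_ne_zero_iff.1 h5) j (Finset.mem_erase.2 ⟨hjl, hj⟩)
        unfold cT at h6
        by_contra h7
        rw [if_neg (by omega)] at h6
        exact h6 rfl
  · rw [rep3 f, hbU f]
    apply prod_ge_telescope
    · intro j _
      exact Finset.prod_nonneg fun p _ => by linarith [hf1 p]
    · intro j hj
      exact le_polyT_of_even (fun p _ => hf0 p) (fun p _ => hf1 p) (hb j hj)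
    · intro j hj
      have := polyT_le_of_even (f := f) (Q := Q j) (fun p _ => hf0 p)
        (fun p _ => hf1 p) (hb j hj)
      linarith
  · rw [rep1 f, hbU f]
    apply Finset.prod_le_prod
    · intro j _
      exact Finset.prod_nonneg fun p _ => by linarith [hf1 p]
    · intro j hj
      exact le_polyT_of_even (fun p _ => hf0 p) (fun p _ => hf1 p) (hb j hj)
  · rw [rep3 g, hbU g]
    have h2 : ∑ l ∈ J, Ej l * ∏ j ∈ J.erase l, Tj j ≤ ∑ l ∈ J, ε l * ∏ j ∈ J, Tj j :=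
      Finset.sum_le_sum hcard
    rw [← Finset.sum_mul] at h2
    have h5 : (∑ l ∈ J, ε l) * ∏ j ∈ J, Tj j ≤ η * ∏ j ∈ J, Tj j :=
      mul_le_mul_of_nonneg_right hεsum hprodT
    have h7 : (1 - η) * ∏ j ∈ J, V j ≤ (1 - η) * ∏ j ∈ J, Tj j :=
      mul_le_mul_of_nonneg_left hVT' (by linarith)
    simp only [hV, hT, hE] at *
    linarith
  · rw [rep1 g, hbU g]
    have h3 : ∏ j ∈ J, Tj j ≤ ∏ j ∈ J, ((1 + ε j) * V j) := Finset.prod_le_prod hTnn hTV
    rw [Finset.prod_mul_distrib] at h3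
    have h4 : ∏ j ∈ J, (1 + ε j) ≤ Real.exp (∑ j ∈ J, ε j) := by
      rw [Real.exp_sum]
      refine Finset.prod_le_prod (fun j hj => by linarith [hε0 j hj]) fun j _ => ?_
      have := Real.add_one_le_exp (ε j)
      linarith
    have hη0 : 0 ≤ η := (Finset.sum_nonneg hε0).trans hεsum
    have h5 : Real.exp (∑ j ∈ J, ε j) ≤ Real.exp η := Real.exp_le_exp.mpr hεsum
    have h6 : Real.exp η ≤ 1 + 2 * η := by
      have h7 := Real.abs_exp_sub_one_le (x := η) (by rw [abs_of_nonneg hη0]; linarith)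
      rw [abs_of_nonneg hη0] at h7
      have h8 := le_abs_self (Real.exp η - 1)
      linarith
    have h10 : 0 ≤ ∏ j ∈ J, V j := Finset.prod_nonneg hVnn
    calc ∏ j ∈ J, Tj j ≤ (∏ j ∈ J, (1 + ε j)) * ∏ j ∈ J, V j := h3
      _ ≤ (1 + 2 * η) * ∏ j ∈ J, V j := mul_le_mul_of_nonneg_right (by linarith) h10

theorem bh3_blockE (k c z : ℕ) (Q : Finset ℕ)
    (hQ : ∀ q ∈ Q, q.Prime ∧ 2 * k + 2 < q ∧ q ≤ z) (g : ℕ → ℝ) (hg0 : ∀ q, 0 ≤ g q)
    (hg : ∀ q ∈ Q, g q ≤ k / q) (j : ℕ) :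
    poly (cE (bj k j + c + 1)) g (Q.filter (fun q => blk z q = j)) ≤
      epsj k j / 2 ^ c * ∏ p ∈ Q.filter (fun q => blk z q = j), (1 - g p) := by
  set R := Q.filter (fun q => blk z q = j) with hR
  have hsub : R ⊆ blockSet (2 * k + 2) z j := by
    intro q hq
    rw [hR, mem_filter] at hq
    rw [mem_blockSet]
    exact ⟨hQ q hq.1, hq.2⟩
  have hRQ : ∀ q ∈ R, q ∈ Q := fun q hq => (mem_filter.1 hq).1
  have hg1 : ∀ p ∈ R, g p ≤ 1 / 2 := fun p hp => by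
    have h1 := hg p (hRQ p hp)
    have h2 := (hQ p (hRQ p hp)).2.1
    refine h1.trans ?_
    have hp0 : (0 : ℝ) < p := by
      have : 0 < p := by omega
      exact_mod_cast this
    rw [div_le_iff₀ hp0]
    have h3 : (2 * k + 2 : ℝ) < p := by exact_mod_cast h2
    linarith
  have hsum : ∑ p ∈ R, g p ≤ 6 * k := by
    calc ∑ p ∈ R, g p ≤ ∑ p ∈ R, (k : ℝ) * (1 / p) :=
          Finset.sum_le_sum fun p hp => by
            rw [mul_one_div]
            exact hg p (hRQ p hp)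
      _ = k * ∑ p ∈ R, (1 : ℝ) / p := by rw [Finset.mul_sum]
      _ ≤ k * ∑ p ∈ blockSet (2 * k + 2) z j, (1 : ℝ) / p := by
          refine mul_le_mul_of_nonneg_left ?_ (Nat.cast_nonneg _)
          exact sum_le_sum_of_subset_of_nonneg hsub (fun p _ _ => by positivity)
      _ ≤ k * 6 := mul_le_mul_of_nonneg_left (block_sum_inv _ _ _) (Nat.cast_nonneg _)
      _ = 6 * k := by ring
  have h1 := rankinE (f := g) (Q := R) (fun p _ => hg0 p) (bj k j + c + 1) (l := 2) (by norm_num)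
  have h2 : ∏ p ∈ R, (1 + 2 * g p) ≤ Real.exp (∑ p ∈ R, 2 * g p) :=
    prod_one_add_le fun p _ => by
      have := hg0 p
      linarith
  rw [← Finset.mul_sum] at h2
  have h3 : Real.exp (2 * ∑ p ∈ R, g p) ≤ Real.exp (12 * k) :=
    Real.exp_le_exp.mpr (by linarith)
  have h4 : Real.exp (-(12 * k)) ≤ ∏ p ∈ R, (1 - g p) :=
    (Real.exp_le_exp.mpr (by linarith)).trans (prod_one_sub_ge (fun p _ => hg0 p) hg1)
  have h5 : (0 : ℝ) < 2 ^ (bj k j + c + 1) := by positivity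
  have h6 : poly (cE (bj k j + c + 1)) g R ≤ Real.exp (12 * k) / 2 ^ (bj k j + c + 1) := by
    rw [le_div_iff₀ h5]
    linarith
  refine h6.trans ?_
  unfold epsj
  have h7 : Real.exp (12 * k) = Real.exp (24 * k) * Real.exp (-(12 * k)) := by
    rw [← Real.exp_add]
    congr 1
    ring
  rw [h7]
  have h8 : 0 ≤ Real.exp (24 * k) / 2 ^ (bj k j + 1) / 2 ^ c := by positivity
  calc Real.exp (24 * k) * Real.exp (-(12 * k)) / 2 ^ (bj k j + c + 1)
      = Real.exp (24 * k) / 2 ^ (bj k j + 1) / 2 ^ c * Real.exp (-(12 * k)) := by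
        rw [div_div, ← pow_add, show bj k j + 1 + c = bj k j + c + 1 by ring]
        ring
    _ ≤ Real.exp (24 * k) / 2 ^ (bj k j + 1) / 2 ^ c * ∏ p ∈ R, (1 - g p) :=
        mul_le_mul_of_nonneg_left h4 h8

/-- The level. -/
theorem bh3_level (k c z : ℕ) (hz : 2 ≤ z) (Q : Finset ℕ)
    (hQ : ∀ q ∈ Q, q.Prime ∧ 2 * k + 2 < q ∧ q ≤ z) (E : Finset ℕ) (hE : E ⊆ Q)
    (hc : ∀ j ∈ range (z + 1), (E ∩ Q.filter (fun q => blk z q = j)).card ≤ bj k j + c + 1) :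
    ∏ q ∈ E, q ≤ z ^ (96 * k + 10 + 2 * c) := by
  have hz0 : (0 : ℝ) < z := by
    have : 0 < z := by omega
    exact_mod_cast this
  have hz1 : (1 : ℝ) ≤ z := by
    have : 1 ≤ z := by omega
    exact_mod_cast this
  have hlog : 0 ≤ Real.log z := Real.log_nonneg hz1
  have hEf : ∀ j, E ∩ Q.filter (fun q => blk z q = j) = E.filter (fun q => blk z q = j) := by
    intro j
    ext q
    rw [mem_inter, mem_filter, mem_filter]
    constructor
    · rintro ⟨h1, -, h2⟩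
      exact ⟨h1, h2⟩
    · rintro ⟨h1, h2⟩
      exact ⟨h1, hE h1, h2⟩
  have h1 : ∏ q ∈ E, (q : ℝ) = ∏ j ∈ range (z + 1), ∏ q ∈ E.filter (fun q => blk z q = j), (q : ℝ) := by
    symm
    apply Finset.prod_fiberwise_of_maps_to
    intro p _
    exact Finset.mem_range.mpr (Nat.lt_succ_of_le (blk_le z p))
  have h2 : ∀ j ∈ range (z + 1), ∏ q ∈ E.filter (fun q => blk z q = j), (q : ℝ) ≤
      Real.exp (((48 * k + 3 + c : ℝ) + 2 * j) / 2 ^ j * Real.log z) := by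
    intro j hj
    have h3 : ∀ q ∈ E.filter (fun q => blk z q = j), (q : ℝ) ≤ Real.exp (Real.log z / 2 ^ j) := by
      intro q hq
      rw [mem_filter] at hq
      have hqq := hQ q (hE hq.1)
      have h6 := (blk_spec hqq.1 hqq.2.2).1
      rw [hq.2] at h6
      have hq0 : (0 : ℝ) < q := by exact_mod_cast hqq.1.pos
      have h7 : Real.log ((q : ℝ) ^ (2 ^ j)) ≤ Real.log z := by
        apply Real.log_le_log (by positivity)
        exact_mod_cast h6
      rw [Real.log_pow] at h7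
      push_cast at h7
      rw [← Real.log_le_iff_le_exp hq0, le_div_iff₀ (by positivity)]
      linarith
    have h4 : ∏ q ∈ E.filter (fun q => blk z q = j), (q : ℝ) ≤
        Real.exp (Real.log z / 2 ^ j) ^ (E.filter (fun q => blk z q = j)).card := by
      rw [← prod_const]
      exact prod_le_prod (fun q _ => Nat.cast_nonneg _) h3
    refine h4.trans ?_
    have h5 := hc j hj
    rw [hEf j] at h5
    have h6 : (1 : ℝ) ≤ Real.exp (Real.log z / 2 ^ j) := Real.one_le_exp (by positivity)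
    refine (pow_le_pow_right₀ h6 h5).trans (le_of_eq ?_)
    rw [← Real.exp_nat_mul]
    congr 1
    unfold bj
    push_cast
    ring
  have h3 : ∏ q ∈ E, (q : ℝ) ≤ (z : ℝ) ^ (96 * k + 10 + 2 * c) := by
    rw [h1]
    refine (prod_le_prod (fun j _ => prod_nonneg (fun q _ => Nat.cast_nonneg _)) h2).trans ?_
    rw [← Real.exp_sum, ← Finset.sum_mul]
    have h4 := sum_aux (48 * k + 3 + c : ℝ) (by positivity) (z + 1)
    have h5 : (∑ j ∈ range (z + 1), ((48 * k + 3 + c : ℝ) + 2 * j) / 2 ^ j) * Real.log z ≤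
        ((96 * k + 10 + 2 * c : ℕ) : ℝ) * Real.log z := by
      refine mul_le_mul_of_nonneg_right (h4.trans (le_of_eq ?_)) hlog
      push_cast
      ring
    refine (Real.exp_le_exp.2 h5).trans (le_of_eq ?_)
    rw [Real.exp_nat_mul, Real.exp_log hz0]
  have h4 : ((∏ q ∈ E, q : ℕ) : ℝ) ≤ ((z ^ (96 * k + 10 + 2 * c) : ℕ) : ℝ) := by
    rw [Nat.cast_prod, Nat.cast_pow]
    exact h3
  exact Nat.cast_le.1 h4

open Classical in
theorem bh3_rem (k c z : ℕ) (hz : 2 ≤ z) (Q : Finset ℕ)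
    (hQ : ∀ q ∈ Q, q.Prime ∧ 2 * k + 2 < q ∧ q ≤ z) (g : ℕ → ℝ)
    {ι : Type} (S : Finset ι) (wt : ι → ℝ)
    (ev : ℕ → ι → Prop) (X : ℝ) (Rm : ℝ)
    (hRm : ∑ d ∈ (Icc 1 (z ^ (96 * k + 10 + 2 * c))).filter
        (fun d => Squarefree d ∧ ∀ q ∈ d.primeFactors, q ∈ Q),
      |∑ i ∈ S.filter (fun i => ∀ q ∈ d.primeFactors, ev q i), wt i -
        X * ∏ q ∈ d.primeFactors, g q| ≤ Rm) (l : Finset ℕ → ℝ) (hl : ∀ E, |l E| ≤ 1)
    (hc : ∀ E, l E ≠ 0 → ∀ j ∈ range (z + 1),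
      (E ∩ Q.filter (fun q => blk z q = j)).card ≤ bj k j + c + 1) :
    |∑ E ∈ Q.powerset, l E * (∑ i ∈ S.filter (fun i => ∀ q ∈ E, ev q i), wt i) -
      X * ∑ E ∈ Q.powerset, l E * ∏ q ∈ E, g q| ≤ Rm := by
  have hP : ∀ E ⊆ Q, (∏ q ∈ E, q).primeFactors = E := fun E hE =>
    Nat.primeFactors_prod (fun p hp => (hQ p (hE hp)).1)
  rw [mul_sum, ← sum_sub_distrib]
  refine (abs_sum_le_sum_abs _ _).trans (le_trans ?_ hRm)
  have h1 : ∀ E ∈ Q.powerset, |l E * (∑ i ∈ S.filter (fun i => ∀ q ∈ E, ev q i), wt i) -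
      X * (l E * ∏ q ∈ E, g q)| ≤ if l E ≠ 0 then
        |∑ i ∈ S.filter (fun i => ∀ q ∈ E, ev q i), wt i - X * ∏ q ∈ E, g q| else 0 := by
    intro E _
    split_ifs with h
    · rw [show l E * (∑ i ∈ S.filter (fun i => ∀ q ∈ E, ev q i), wt i) - X * (l E * ∏ q ∈ E, g q) =
        l E * (∑ i ∈ S.filter (fun i => ∀ q ∈ E, ev q i), wt i - X * ∏ q ∈ E, g q) by ring, abs_mul]
      exact mul_le_of_le_one_left (abs_nonneg _) (hl E)
    · rw [not_not] at h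
      rw [h]
      simp
  refine (sum_le_sum h1).trans ?_
  rw [← sum_filter]
  have hinj : Set.InjOn (fun E : Finset ℕ => ∏ q ∈ E, q) (Q.powerset.filter (fun E => l E ≠ 0)) := by
    intro E hE E' hE' hh
    have a1 := hP E (mem_powerset.1 (mem_filter.1 (mem_coe.1 hE)).1)
    have a2 := hP E' (mem_powerset.1 (mem_filter.1 (mem_coe.1 hE')).1)
    rw [← a1, ← a2]
    exact congrArg Nat.primeFactors hh
  have h2 : ∑ E ∈ Q.powerset.filter (fun E => l E ≠ 0),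
      |∑ i ∈ S.filter (fun i => ∀ q ∈ E, ev q i), wt i - X * ∏ q ∈ E, g q| =
      ∑ d ∈ (Q.powerset.filter (fun E => l E ≠ 0)).image (fun E : Finset ℕ => ∏ q ∈ E, q),
        |∑ i ∈ S.filter (fun i => ∀ q ∈ d.primeFactors, ev q i), wt i -
          X * ∏ q ∈ d.primeFactors, g q| := by
    rw [sum_image hinj]
    refine sum_congr rfl (fun E hE => ?_)
    rw [hP E (mem_powerset.1 (mem_filter.1 hE).1)]
  rw [h2]
  refine sum_le_sum_of_subset_of_nonneg ?_ (fun d _ _ => abs_nonneg _)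
  intro d hd
  rw [mem_image] at hd
  obtain ⟨E, hE, rfl⟩ := hd
  rw [mem_filter, mem_powerset] at hE
  rw [mem_filter, mem_Icc]
  refine ⟨⟨?_, ?_⟩, ?_, ?_⟩
  · exact Nat.one_le_iff_ne_zero.2 (prod_ne_zero_iff.2 (fun q hq => (hQ q (hE.1 hq)).1.ne_zero))
  · exact bh3_level k c z hz Q hQ E hE.1 (hc E hE.2)
  · refine Finset.squarefree_prod_of_pairwise_isCoprime ?_ ?_
    · intro p hp q hq hpq
      exact Nat.coprime_iff_isRelPrime.1
        ((Nat.coprime_primes (hQ p (hE.1 (Finset.mem_coe.1 hp))).1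
          (hQ q (hE.1 (Finset.mem_coe.1 hq))).1).2 hpq)
    · intro p hp
      exact (hQ p (hE.1 hp)).1.squarefree
  · rw [hP E hE.1]
    exact hE.1

open Classical in
/-- Proof. Copy of the proof of `bh` (`BH2.lean`) with `b j = 48 k + 2 + 2 j + c` (even) and `ε j = epsj k j/2^c`, so `η = 1/2^(c+1)` (`sum_epsj`). Level:
`∏_j z^((48k + 3 + c + 2j)/2^j) ≤ z^(96 k + 10 + 2 c)`. -/
theorem bhc (k c z : ℕ) (hz : 2 ≤ z) (hk : 1 ≤ k) (hc : Even c) (Q : Finset ℕ)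
    (hQ : ∀ q ∈ Q, q.Prime ∧ 2 * k + 2 < q ∧ q ≤ z) (g : ℕ → ℝ) (hg0 : ∀ q, 0 ≤ g q)
    (hg : ∀ q ∈ Q, g q ≤ k / q) {ι : Type} (S : Finset ι) (wt : ι → ℝ) (hw : ∀ i ∈ S, 0 ≤ wt i)
    (ev : ℕ → ι → Prop) (X : ℝ) (hX : 0 ≤ X) (Rm : ℝ)
    (hRm : ∑ d ∈ (Icc 1 (z ^ (96 * k + 10 + 2 * c))).filter
        (fun d => Squarefree d ∧ ∀ q ∈ d.primeFactors, q ∈ Q),
      |∑ i ∈ S.filter (fun i => ∀ q ∈ d.primeFactors, ev q i), wt i -
        X * ∏ q ∈ d.primeFactors, g q| ≤ Rm) :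
    (1 - 1 / 2 ^ (c + 1)) * X * ∏ q ∈ Q, (1 - g q) - Rm ≤
      ∑ i ∈ S.filter (fun i => ∀ q ∈ Q, ¬ ev q i), wt i ∧
    ∑ i ∈ S.filter (fun i => ∀ q ∈ Q, ¬ ev q i), wt i ≤
      (1 + 1 / 2 ^ c) * X * ∏ q ∈ Q, (1 - g q) + Rm := by
  have _ := hk
  have hbU : (range (z + 1)).biUnion (fun j => Q.filter (fun q => blk z q = j)) = Q := by
    ext q
    rw [mem_biUnion]
    constructor
    · rintro ⟨j, _, h⟩
      exact (mem_filter.1 h).1
    · intro h
      exact ⟨blk z q, Finset.mem_range.mpr (Nat.lt_succ_of_le (blk_le z q)), mem_filter.2 ⟨h, rfl⟩⟩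
  have hg1 : ∀ q ∈ Q, g q ≤ 1 := by
    intro p hp
    have h1 := hg p hp
    have h2 := (hQ p hp).2.1
    refine h1.trans ?_
    have hp0 : (0 : ℝ) < p := by
      have : 0 < p := by omega
      exact_mod_cast this
    rw [div_le_iff₀ hp0]
    have h3 : (2 * k + 2 : ℝ) < p := by exact_mod_cast h2
    linarith [Nat.cast_nonneg (α := ℝ) k]
  have hsum : ∑ j ∈ range (z + 1), epsj k j / 2 ^ c ≤ 1 / 2 ^ (c + 1) := by
    rw [← Finset.sum_div, pow_succ, div_le_div_iff₀ (by positivity) (by positivity)]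
    have h1 := sum_epsj k (z + 1)
    have h2 : (0 : ℝ) < 2 ^ c := by positivity
    nlinarith
  have heta : (1 : ℝ) / 2 ^ (c + 1) ≤ 1 / 2 := by
    apply one_div_le_one_div_of_le (by norm_num)
    rw [pow_succ]
    have : (1 : ℝ) ≤ 2 ^ c := one_le_pow₀ (by norm_num)
    linarith
  obtain ⟨lp, lm, hlp, hlm, hlev, hpt, hm1, hm2⟩ := bh_weights_eta
    (fun j => Q.filter (fun q => blk z q = j)) (range (z + 1)) (fun j => bj k j + c)
    (fun j _ => (bj_even k j).add hc)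
    (fun i _ j _ hij => by
      rw [Finset.disjoint_left]
      intro p hp hp'
      exact hij ((mem_filter.mp hp).2.symm.trans (mem_filter.mp hp').2))
    g (fun p _ => hg0 p) (fun p hp => hg1 p (by rwa [hbU] at hp)) (fun j => epsj k j / 2 ^ c)
    (fun j _ => div_nonneg (epsj_nonneg k j) (by positivity))
    (fun j _ => bh3_blockE k c z Q hQ g hg0 hg j) (1 / 2 ^ (c + 1)) heta hsum
  rw [hbU] at hm1 hm2
  have hpt' : ∀ i : ι, ∑ E ∈ Q.powerset, lm E * ∏ p ∈ E, (if ev p i then (1 : ℝ) else 0) ≤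
      (if ∀ q ∈ Q, ¬ ev q i then (1 : ℝ) else 0) ∧ (if ∀ q ∈ Q, ¬ ev q i then (1 : ℝ) else 0) ≤
      ∑ E ∈ Q.powerset, lp E * ∏ p ∈ E, (if ev p i then (1 : ℝ) else 0) := by
    intro i
    have h1 := hpt (fun p => if ev p i then (1 : ℝ) else 0) (fun p => by split_ifs <;> norm_num)
      (fun p => by split_ifs <;> norm_num)
    rw [hbU] at h1
    have h2 : ∏ p ∈ Q, (1 - (if ev p i then (1 : ℝ) else 0)) =
        (if ∀ q ∈ Q, ¬ ev q i then (1 : ℝ) else 0) := by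
      split_ifs with h
      · apply prod_eq_one
        intro p hp
        rw [if_neg (h p hp)]
        norm_num
      · push Not at h
        obtain ⟨q, hq, he⟩ := h
        refine prod_eq_zero hq ?_
        rw [if_pos he]
        norm_num
    rw [h2] at h1
    exact h1
  have hprod : ∀ (i : ι) (E : Finset ℕ), ∏ p ∈ E, (if ev p i then (1 : ℝ) else 0) =
      if ∀ q ∈ E, ev q i then (1 : ℝ) else 0 := by
    intro i E
    split_ifs with h
    · exact prod_eq_one (fun p hp => if_pos (h p hp))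
    · push Not at h
      obtain ⟨q, hq, he⟩ := h
      exact prod_eq_zero hq (if_neg he)
  have hswap : ∀ l : Finset ℕ → ℝ, ∑ i ∈ S, wt i * ∑ E ∈ Q.powerset, l E *
      ∏ p ∈ E, (if ev p i then (1 : ℝ) else 0) =
      ∑ E ∈ Q.powerset, l E * (∑ i ∈ S.filter (fun i => ∀ q ∈ E, ev q i), wt i) := by
    intro l
    simp_rw [mul_sum]
    rw [sum_comm]
    refine sum_congr rfl (fun E _ => ?_)
    rw [sum_filter]
    refine sum_congr rfl (fun i _ => ?_)
    rw [hprod i E]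
    split_ifs <;> ring
  have hlhs : ∑ i ∈ S.filter (fun i => ∀ q ∈ Q, ¬ ev q i), wt i =
      ∑ i ∈ S, wt i * (if ∀ q ∈ Q, ¬ ev q i then (1 : ℝ) else 0) := by
    rw [sum_filter]
    refine sum_congr rfl (fun i _ => ?_)
    split_ifs <;> ring
  have hr1 := bh3_rem k c z hz Q hQ g S wt ev X Rm hRm lp hlp (fun E hE => hlev E (Or.inl hE))
  have hr2 := bh3_rem k c z hz Q hQ g S wt ev X Rm hRm lm hlm (fun E hE => hlev E (Or.inr hE))
  rw [abs_le] at hr1 hr2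
  rw [hlhs]
  constructor
  · have h1 : ∑ i ∈ S, wt i * ∑ E ∈ Q.powerset, lm E * ∏ p ∈ E, (if ev p i then (1 : ℝ) else 0) ≤
        ∑ i ∈ S, wt i * (if ∀ q ∈ Q, ¬ ev q i then (1 : ℝ) else 0) :=
      sum_le_sum (fun i hi => mul_le_mul_of_nonneg_left (hpt' i).1 (hw i hi))
    rw [hswap lm] at h1
    have h2 := mul_le_mul_of_nonneg_left hm1 hX
    linarith [hr2.1]
  · have h1 : ∑ i ∈ S, wt i * (if ∀ q ∈ Q, ¬ ev q i then (1 : ℝ) else 0) ≤
        ∑ i ∈ S, wt i * ∑ E ∈ Q.powerset, lp E * ∏ p ∈ E, (if ev p i then (1 : ℝ) else 0) :=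
      sum_le_sum (fun i hi => mul_le_mul_of_nonneg_left (hpt' i).2 (hw i hi))
    rw [hswap lp] at h1
    have h2 := mul_le_mul_of_nonneg_left hm2 hX
    have h3 : (2 : ℝ) * (1 / 2 ^ (c + 1)) = 1 / 2 ^ c := by
      rw [pow_succ]
      field_simp
    rw [h3] at h2
    linarith [hr1.2]

end Pool.Agent.Lib.H57C
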