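import Pool.Agent.Lib.H57C.Defs

/-!
# Definitions: abstract bad classes `R` and target classes `T`
-/

open Finset

namespace Pool.Agent.Lib.H57C

open Pool.Agent.Lib.H15P Pool.Agent.Lib.H92G Pool.Agent.Lib.H57M
open Pool.Agent.Lib.H59C (Sq lg XX gq VV PR zz yy Tri BX wB remd sift)

noncomputable section

/-- Small primes, integers. -/
def VaR (Q : Finset ℕ) (R : ℕ → Finset ℕ) : ℝ := ∏ q ∈ Q, (1 - ((R q).card : ℝ) / q)

/-- Small primes, sequences without one of the bad classes. -/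
def VbR (Q : Finset ℕ) (R : ℕ → Finset ℕ) : ℝ :=
  VaR Q R * ∏ q ∈ Q, ((q : ℝ) / ((q : ℝ) - 1))

/-- What is assumed about the weight. -/
structure Pre0 (B cF : ℕ) (θ : ℝ) {K : ℕ} (w : Par K) (H : Finset ℕ) (n p1 : ℕ) : Prop where
  cardH : H.card = K
  HW : ∀ h ∈ H, h ≤ w.W
  Wdef : w.W = ⌈Real.log n ^ B⌉₊
  PN : ∀ p ∈ w.P, (p : ℝ) ≤ (n : ℝ) ^ (1 / 100 : ℝ)
  p1p : p1.Prime
  p1W : p1 ≤ w.W
  exF : ExJ w.P (FC w H) (Real.log n ^ cF) 3 ((n : ℝ) ^ (2 * θ))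

/-- What is assumed about the bad classes `R` modulo the primes `≤ W` and the target classes `T` modulo the primes
in `P'`. -/
structure HRT (K k W p1 : ℕ) (H : Finset ℕ) (R T : ℕ → Finset ℕ) (P' : Finset ℕ) : Prop where
  Rr : ∀ q, R q ⊆ range q
  Rk : ∀ q ∈ Ps W p1, (R q).card ≤ K + k
  Rq : ∀ q ∈ Ps W p1, (R q).card < q
  RH : ∀ q ∈ Ps W p1, ∀ h ∈ H, ∀ c < q, q ∣ c + h → c ∈ R q
  P'p : ∀ q ∈ P', q.Prime ∧ W < q
  Tr : ∀ q ∈ P', T q ⊆ range q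
  Tk : ∀ q ∈ P', (T q).card ≤ k
  TH : ∀ q ∈ P', ∀ t ∈ T q, ∀ h ∈ H, ¬ q ∣ t + h

/-- The target classes and the class `-h`. -/
def Tp (T : ℕ → Finset ℕ) (h q : ℕ) : Finset ℕ := (range q).filter (fun c => c ∈ T q ∨ q ∣ c + h)

theorem Pre.to0 {B cF : ℕ} {θ : ℝ} {K : ℕ} {w : Par K} {H : Finset ℕ} {N p1 : ℕ}
    (h : Pre B cF θ w H N p1) : Pre0 B cF θ w H N p1 :=
  ⟨h.cardH, h.HW, h.Wdef, h.PN, h.p1p, h.p1W, h.exF⟩

theorem Va_eq (N W p1 : ℕ) (H : Finset ℕ) : Va N W p1 H = VaR (Ps W p1) (Rb N H) := rfl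

theorem Vb_eq (N W p1 : ℕ) (H : Finset ℕ) : Vb N W p1 H = VbR (Ps W p1) (Rb N H) := rfl

theorem Fs_eq {K : ℕ} (w : Par K) (H : Finset ℕ) (N p1 : ℕ) (i : Option ℕ) (t : ℕ) :
    Fs w H N p1 i t = FF w H i t * Sg (Ps w.W p1) (Rb N H) t := rfl

end

end Pool.Agent.Lib.H57C
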