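import Pool.Agent.Lib.H57M.Defs
import Pool.Agent.Lib.H59C.CDefs
import Pool.Agent.Lib.H59C.JR
import Pool.Agent.Lib.Sieve.Combi

/-!
# Project H57C (MP_0bf1d2_nt): Chen's theorem with Maynard-Tao tuples, for ALL large N. Definitions

See `PROOF.md` in this folder.
-/

open Finset

namespace Pool.Agent.Lib.H57C

open Pool.Agent.Lib.H15P Pool.Agent.Lib.H92G Pool.Agent.Lib.H57M
open Pool.Agent.Lib.H59C (Sq lg XX gq VV PR zz yy Tri BX wB remd sift)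

noncomputable section

/-! ## Expansions -/

/-- `G(A) = ∑_{T ⊆ A} g(T)` with `|g| ≤ C`, and `g(T) ≠ 0` only if the product of the primes in `T` is at
most `D`. -/
def Ex1 (P : Finset ℕ) (G : Finset {p // p ∈ P} → ℝ) (C D : ℝ) : Prop :=
  ∃ g : Finset {p // p ∈ P} → ℝ, (∀ A, G A = ∑ T ∈ A.powerset, g T) ∧ (∀ T, |g T| ≤ C) ∧
    ∀ T, g T ≠ 0 → (∏ p ∈ T, (p.1 : ℝ)) ≤ D

/-- `F(S) = ∑_U c(U)`, the sum over the families `U_j ⊆ S_j`, with `|c(U)| ≤ C E^(∑ |U_j|)`, and `c(U) ≠ 0` only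
if the product of the primes in the `U_j` is at most `D`. -/
def ExJ {J : Type} [Fintype J] [DecidableEq J] (P : Finset ℕ)
    (F : (J → Finset {p // p ∈ P}) → ℝ) (C : ℝ) (E : ℕ) (D : ℝ) : Prop :=
  ∃ c : (J → Finset {p // p ∈ P}) → ℝ,
    (∀ S, F S = ∑ U : J → Finset {p // p ∈ P}, if ∀ j, U j ⊆ S j then c U else 0) ∧
    (∀ U, |c U| ≤ C * (E : ℝ) ^ (∑ j, (U j).card)) ∧
    ∀ U, c U ≠ 0 → (∏ j, ∏ p ∈ U j, (p.1 : ℝ)) ≤ D

/-- The configuration of `t`: the primes of `P` dividing `t + h`, `h ∈ H`; if `i = some h` the form `t + h` is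
left out. -/
def cfg (P H : Finset ℕ) (i : Option ℕ) (t : ℕ) : {h // h ∈ H} → Finset {p // p ∈ P} :=
  fun h => if i = some h.1 then ∅ else hit P (t + h.1)

/-! ## Small primes and targets -/

/-- The primes `≤ W` different from `p1`. -/
def Ps (W p1 : ℕ) : Finset ℕ := (Icc 1 W).filter (fun q => q.Prime ∧ q ≠ p1)

/-- `1` if `t` is in no bad class modulo the primes in `Q`. -/
def Sg (Q : Finset ℕ) (R : ℕ → Finset ℕ) (t : ℕ) : ℝ := if ∀ q ∈ Q, t % q ∉ R q then 1 else 0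

/-- `t` is in a target class for all prime factors of `d`. -/
def inT (T : ℕ → Finset ℕ) (d t : ℕ) : Prop := ∀ q ∈ d.primeFactors, t % q ∈ T q

instance (T : ℕ → Finset ℕ) (d t : ℕ) : Decidable (inT T d t) := by unfold inT; infer_instance

/-! ## Sequences -/

/-- A weighted sequence of natural numbers `x i`, `i ∈ S`, with its model: the class `c` mod `q` has density
`hd q` if it is allowed (`Al q c`), otherwise the sequence does not meet it. -/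
structure Seq (ι : Type) where
  S : Finset ι
  wt : ι → ℝ
  x : ι → ℕ
  X : ℝ
  hd : ℕ → ℝ
  Al : ℕ → ℕ → Prop

/-- Level of distribution, uniformly in the residue classes, with weights `E^ω(m)`. -/
def Lvl {ι : Type} (s : Seq ι) (p1 D E : ℕ) (Err : ℝ) : Prop :=
  ∃ rr : ℕ → ℝ, (∀ m, 0 ≤ rr m) ∧
    (∀ m, Squarefree m → m ≤ D → ¬ p1 ∣ m → ∀ c : ℕ, (∀ q ∈ m.primeFactors, s.Al q c) →
      |∑ i ∈ s.S.filter (fun i => s.x i ≡ c [MOD m]), s.wt i -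
        s.X * ∏ q ∈ m.primeFactors, s.hd q| ≤ rr m) ∧
    ∑ m ∈ (Icc 1 D).filter (fun m => Squarefree m ∧ ¬ p1 ∣ m),
      (E : ℝ) ^ m.primeFactors.card * rr m ≤ Err

open Classical in
/-- Product over the small primes. -/
def VS (Q : Finset ℕ) (R : ℕ → Finset ℕ) (hd : ℕ → ℝ) (Al : ℕ → ℕ → Prop) : ℝ :=
  ∏ q ∈ Q, (1 - (((R q).filter (fun c => Al q c)).card : ℝ) * hd q)

/-- Mean value of the weight function: over all residue classes (`none`), or over the classes for which `t + h0`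
is prime to `P` (`some h0`). -/
def AE (P H : Finset ℕ) (i : Option ℕ) (F : ({h // h ∈ H} → Finset {p // p ∈ P}) → ℝ) : ℝ :=
  match i with
  | none => EP P 1 (fun h : {h // h ∈ H} => h.1) F
  | some h0 => EU P 1 h0 (fun t => F (cfg P H (some h0) t))

open Classical in
/-- The hypotheses of the transfer theorem. `P`: the primes of the weight, `H`: the shifts, `i`: the form which is left
out, `R`: the bad classes modulo the primes `≤ W`, `T`: the target classes modulo the primes in `P'`. -/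
structure Hy {ι : Type} (s : Seq ι) (P H : Finset ℕ) (i : Option ℕ) (W p1 : ℕ)
    (R T : ℕ → Finset ℕ) (P' : Finset ℕ) (k b : ℕ) : Prop where
  w0 : ∀ j ∈ s.S, 0 ≤ s.wt j
  X0 : 0 ≤ s.X
  al : ∀ q c c' : ℕ, c ≡ c' [MOD q] → (s.Al q c ↔ s.Al q c')
  nev : ∀ j ∈ s.S, s.wt j ≠ 0 → ∀ q : ℕ, q.Prime → (q ∈ P ∨ (q ≤ W ∧ q ≠ p1)) → s.Al q (s.x j)
  hd0 : ∀ q : ℕ, q.Prime → 0 ≤ s.hd q
  hd2 : ∀ q : ℕ, q.Prime → s.hd q ≤ 2 / q
  hdq : ∀ q : ℕ, q.Prime → W < q → |s.hd q - 1 / q| ≤ 2 / (q : ℝ) ^ 2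
  Pp : ∀ p ∈ P, p.Prime ∧ W < p
  p1p : p1.Prime
  p1W : p1 ≤ W
  HW : ∀ h ∈ H, h ≤ W
  iH : ∀ h, i = some h → h ∈ H
  Rr : ∀ q, R q ⊆ range q
  Rk : ∀ q ∈ Ps W p1, (R q).card ≤ k
  R1 : ∀ q ∈ Ps W p1, (((R q).filter (fun c => s.Al q c)).card : ℝ) * s.hd q ≤ 1
  P'p : ∀ q ∈ P', q.Prime ∧ W < q
  Tr : ∀ q ∈ P', T q ⊆ range q
  Tk : ∀ q ∈ P', (T q).card ≤ k
  TA : ∀ q ∈ P', ∀ t ∈ T q, s.Al q t
  TH : ∀ q ∈ P', ∀ t ∈ T q, ∀ h ∈ H, i ≠ some h → ¬ q ∣ t + h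
  bad : (P.filter (fun p => ∃ h ∈ H, i ≠ some h ∧ ∃ c : ℕ, p ∣ c + h ∧ ¬ s.Al p c)).card ≤ b

/-- The moduli: squarefree, composed of primes in `P'`, at most `D1`. -/
def Dv (P' : Finset ℕ) (D1 : ℕ) : Finset ℕ :=
  (Icc 1 D1).filter (fun d => Squarefree d ∧ ∀ q ∈ d.primeFactors, q ∈ P')

/-! ## The concrete situation -/

/-- The weight of `t` (the form `t + h` is left out if `i = some h`). -/
def FF {K : ℕ} (w : Par K) (H : Finset ℕ) (i : Option ℕ) (t : ℕ) : ℝ :=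
  w.L (cfg w.P H i t) ^ 2 / w.z ^ K

/-- The weight as a function of the configuration. -/
def FC {K : ℕ} (w : Par K) (H : Finset ℕ) (S : {h // h ∈ H} → Finset {p // p ∈ w.P}) : ℝ :=
  w.L S ^ 2 / w.z ^ K

/-- The bad classes modulo `q`: `q ∣ t + h` for some `h ∈ H`, or `q ∣ N - t`. -/
def Rb (N : ℕ) (H : Finset ℕ) (q : ℕ) : Finset ℕ :=
  (range q).filter (fun c => (∃ h ∈ H, q ∣ c + h) ∨ c ≡ N [MOD q])

/-- The good primes in `(W, N]`: they divide no `N + h`, `h ∈ H`. -/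
def Pg (N W : ℕ) (H : Finset ℕ) : Finset ℕ :=
  (Ioc W N).filter (fun q => q.Prime ∧ ∀ h ∈ H, ¬ q ∣ N + h)

/-- The window for `t`. -/
def Ya (N : ℕ) : ℕ := 7 * N / 20

/-- The window for `t`. -/
def Yb (N : ℕ) : ℕ := 9 * N / 20

/-- The weight with the condition that no prime `≤ W`, `≠ p1`, divides `(N - t) ∏ (t + h)`. -/
def Fs {K : ℕ} (w : Par K) (H : Finset ℕ) (N p1 : ℕ) (i : Option ℕ) (t : ℕ) : ℝ :=
  FF w H i t * Sg (Ps w.W p1) (Rb N H) t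

/-- Small primes, integers. -/
def Va (N W p1 : ℕ) (H : Finset ℕ) : ℝ := ∏ q ∈ Ps W p1, (1 - ((Rb N H q).card : ℝ) / q)

/-- Small primes, the sequences without the classes `0` (`t + h` prime, `N - t = q1 q2 q3`). -/
def Vb (N W p1 : ℕ) (H : Finset ℕ) : ℝ :=
  Va N W p1 H * ∏ q ∈ Ps W p1, ((q : ℝ) / ((q : ℝ) - 1))

/-- The level of distribution of the sieve. -/
def Lv (N : ℕ) (θ : ℝ) : ℕ := ⌊(N : ℝ) ^ (1 / 2 - 4 * θ)⌋₊

/-- The value of the switched sequence: congruent to `N - m q` modulo all `d ≤ N`. -/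
def xv (N : ℕ) (x : ℕ × ℕ) : ℕ := N + (N.factorial - 1) * (x.1 * x.2)

/-- The total weight of the `t` with `t + h` prime. -/
def Xh {K : ℕ} (w : Par K) (H : Finset ℕ) (N p1 h : ℕ) : ℝ :=
  XX (Ya N + h) (Yb N + h) * (AE w.P H (some h) (FC w H) * Vb N w.W p1 H)

/-- The total weight of the integers. -/
def Xi {K : ℕ} (w : Par K) (H : Finset ℕ) (N p1 : ℕ) : ℝ :=
  ((Yb N : ℝ) - Ya N) * (AE w.P H none (FC w H) * Va N w.W p1 H)

/-- The sequence of the `t` with `t + h` prime. -/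
def sB (h y1 y2 : ℕ) : Seq ℕ where
  S := Sq y1 y2
  wt := lg
  x := fun p => p - h
  X := XX y1 y2
  hd := gq
  Al := fun q c => ¬ q ∣ c + h

/-- The switched sequence. -/
def sC (N M u v : ℕ) (α : ℕ → ℝ) : Seq (ℕ × ℕ) where
  S := BX M u v
  wt := wB α
  x := xv N
  X := H59C.XB M u v α
  hd := gq
  Al := fun q c => ¬ c ≡ N [MOD q]

/-- The integers `≡ N` modulo `r` (`r = 1`, or `r = p1`). -/
def sI (N r y1 y2 : ℕ) : Seq ℕ where
  S := (Ioc y1 y2).filter (fun t => t ≡ N [MOD r])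
  wt := fun _ => 1
  x := fun t => t
  X := ((y2 : ℝ) - y1) / r
  hd := fun q => 1 / q
  Al := fun _ _ => True

/-- What is assumed about the parameters. -/
structure Pre (B cF : ℕ) (θ : ℝ) {K : ℕ} (w : Par K) (H : Finset ℕ) (N p1 : ℕ) : Prop where
  cardH : H.card = K
  HW : ∀ h ∈ H, h ≤ w.W
  Wdef : w.W = ⌈Real.log N ^ B⌉₊
  PN : ∀ p ∈ w.P, (p : ℝ) ≤ (N : ℝ) ^ (1 / 100 : ℝ)
  p1p : p1.Prime
  p1W : p1 ≤ w.W
  even : ∀ h ∈ H, 2 ∣ N + h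
  nf : ∀ q : ℕ, q.Prime → (Rb N H q).card < q
  exF : ExJ w.P (FC w H) (Real.log N ^ cF) 3 ((N : ℝ) ^ (2 * θ))

open Classical in
/-- Everything that is needed for the sieve. -/
structure Reg (B cF : ℕ) (θ G : ℝ) {K : ℕ} (w : Par K) (H : Finset ℕ) (N p1 : ℕ) : Prop
    extends Pre B cF θ w H N p1 where
  aen0 : 0 ≤ AE w.P H none (FC w H)
  aen : AE w.P H none (FC w H) ≤ 11 / 10
  aes : ∀ h ∈ H, 36 / 100 * (1 + w.n * w.c) ^ 2 ≤ AE w.P H (some h) (FC w H)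
  gain : G * Real.log N ≤ K * (1 + w.n * w.c) ^ 2 * Real.log w.W
  remB : ∀ h ∈ H, ∑ d ∈ Dv (Pg N w.W H) (Lv N θ),
    |∑ p ∈ (Sq (Ya N + h) (Yb N + h)).filter (fun p => d ∣ Nat.dist (N + h) p),
        lg p * Fs w H N p1 (some h) (p - h) -
      Xh w H N p1 h / (Nat.totient d : ℝ)| ≤ N / Real.log N ^ 10
  remC : ∀ h ∈ H, ∀ (M u v : ℕ) (α : ℕ → ℝ), (∀ m, 0 ≤ α m ∧ α m ≤ 1) →
    (∀ m, α m ≠ 0 → ∀ r : ℕ, r.Prime → r ∣ m → (N : ℝ) ^ (1 / 10 : ℝ) ≤ r) →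
    (N : ℝ) ^ (1 / 4 : ℝ) ≤ M → (N : ℝ) ^ (1 / 4 : ℝ) ≤ u → u ≤ v → M * v ≤ 8 * N → ∀ z : ℝ,
    remd (BX M u v) (fun x => wB α x * Fs w H N p1 (some h) (xv N x)) (fun x => xv N x + h)
      (Pg N w.W H) z (H59C.XB M u v α * (AE w.P H (some h) (FC w H) * Vb N w.W p1 H)) (Lv N θ) ≤
      N / Real.log N ^ 10
  remI : ∑ d ∈ Dv (Pg N w.W H) (Lv N θ),
    |∑ t ∈ (Ioc (Ya N) (Yb N)).filter (fun t => d ∣ N - t), Fs w H N p1 none t -
      Xi w H N p1 / (Nat.totient d : ℝ)| ≤ N / Real.log N ^ 10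
  remJ : ∀ h ∈ H, ∑ d ∈ Dv (Pg N w.W H) (Lv N θ),
    |∑ t ∈ (Ioc (Ya N) (Yb N)).filter
        (fun t => t ≡ N [MOD p1] ∧ ∀ q ∈ d.primeFactors, q ∣ N - t ∨ q ∣ t + h),
        Fs w H N p1 (some h) t -
      ((Yb N : ℝ) - Ya N) / p1 * (AE w.P H (some h) (FC w H) * Va N w.W p1 H) *
        ((2 : ℝ) ^ d.primeFactors.card / d)| ≤ N / Real.log N ^ 10
  cls : ∀ h ∈ H, ∀ r c : ℕ, (r.Prime ∨ ∀ p ∈ w.P, r.Coprime p) → 1 ≤ r →
    ∑ t ∈ (Ioc (Ya N) (Yb N)).filter (fun t => t ≡ c [MOD r]), FF w H (some h) t ≤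
      Real.log N ^ B * (N / r) / Real.log N ^ 20 + (N : ℝ) ^ (1 / 20 : ℝ)
  mom : ∑ t ∈ Icc 1 N, FF w H none t ^ 2 ≤ Real.log N ^ B * N

end

end Pool.Agent.Lib.H57C
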