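import Pool.Agent.Lib.H57C.S0
import Pool.Agent.Lib.H57C.BH2
import Pool.Agent.Lib.H57C.S3b
import Pool.Agent.Lib.H57M.B8

/-!
# Chunk E1: the exceptional prime
-/

open Finset

namespace Pool.Agent.Lib.H57C

open Pool.Agent.Lib.H57M
open Pool.Agent.Lib.H59C (AA zz XX)
open Pool.Agent.Lib.H59C (PR mem_PR mertens MER3_sq MER3_fac gq VV VP)

/-- large `N` -/
theorem e1_large (B : ℕ) : ∃ n0 : ℕ, ∀ N : ℕ, n0 ≤ N → 1000 ≤ N ∧ 8 ≤ Real.log N ∧
    Real.log N ^ B + 2 ≤ (N : ℝ) ^ (1 / 1000 : ℝ) := by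
  have h1 : ∀ᶠ x : ℝ in Filter.atTop, Real.log x ^ B ≤ 1 / 2 * x ^ (1 / 1000 : ℝ) := by
    have h := (isLittleO_log_rpow_rpow_atTop (B : ℝ) (show (0 : ℝ) < 1 / 1000 by norm_num)).bound
      (show (0 : ℝ) < 1 / 2 by norm_num)
    filter_upwards [h, Filter.eventually_ge_atTop 1] with x hx hx1
    rw [Real.rpow_natCast, Real.norm_eq_abs, Real.norm_eq_abs,
      abs_of_nonneg (pow_nonneg (Real.log_nonneg hx1) B), abs_of_nonneg (by positivity)] at hx
    exact hx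
  have h2 : ∀ᶠ x : ℝ in Filter.atTop, 4 ≤ x ^ (1 / 1000 : ℝ) :=
    (tendsto_rpow_atTop (show (0 : ℝ) < 1 / 1000 by norm_num)).eventually_ge_atTop 4
  have h3 : ∀ᶠ x : ℝ in Filter.atTop, 8 ≤ Real.log x := Real.tendsto_log_atTop.eventually_ge_atTop 8
  have h4 := (((h1.and h2).and h3).and (Filter.eventually_ge_atTop (1000 : ℝ)))
  have h5 := tendsto_natCast_atTop_atTop.eventually h4
  obtain ⟨n0, hn0⟩ := Filter.eventually_atTop.1 h5
  refine ⟨n0, fun N hN => ?_⟩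
  obtain ⟨⟨⟨h6, h7⟩, h8⟩, h9⟩ := hn0 N hN
  refine ⟨by exact_mod_cast h9, h8, by linarith⟩

theorem e1_W {B N W : ℕ} (hB : 3 ≤ B) (hL : 8 ≤ Real.log N) (hW : W = ⌈Real.log N ^ B⌉₊) :
    Real.log N ^ 3 ≤ W ∧ 512 ≤ W ∧ (W : ℝ) ≤ Real.log N ^ B + 1 := by
  have h1 : Real.log N ^ B ≤ W := by rw [hW]; exact Nat.le_ceil _
  have h2 : Real.log N ^ 3 ≤ Real.log N ^ B := pow_le_pow_right₀ (by linarith) hB
  have h3 : (8 : ℝ) ^ 3 ≤ Real.log N ^ 3 := pow_le_pow_left₀ (by norm_num) hL 3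
  refine ⟨h2.trans h1, ?_, ?_⟩
  · have h4 : (512 : ℝ) ≤ W := by
      have : (8 : ℝ) ^ 3 = 512 := by norm_num
      linarith
    exact_mod_cast h4
  · rw [hW]
    exact (Nat.ceil_lt_add_one (by positivity)).le

/-- Proof. `∏ (1 - 2/q) ≤ exp (-2 ∑_Q 1/q)`, and `∑_Q 1/q ≥ ∑_{W < q ≤ N^(1/1000)} 1/q - #Bd/W`, `#Bd ≤ log^2 N` (`bd_card`), `W ≥ log^3 N`; so by `mertens`
the product is `≤ C (log W/log N)^2`. And `Vz ≥ ∏_{W < q < zz} (1 - 1/(q-1)) ≥ exp (-∑ 1/q - 4 ∑ 1/q^2) ≥ c log W/log N`. -/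
theorem e1a : ∃ C : ℝ, 0 < C ∧ ∀ K B : ℕ, 3 ≤ B → ∃ n0 : ℕ, ∀ N : ℕ, n0 ≤ N →
    ∀ (W : ℕ) (H : Finset ℕ), W = ⌈Real.log N ^ B⌉₊ → H.card = K → (∀ h ∈ H, h ≤ N) →
    Real.log N * ∏ q ∈ (Pg N W H).filter (fun q => q ≤ ⌊(N : ℝ) ^ (1 / 1000 : ℝ)⌋₊),
      (1 - 2 / (q : ℝ)) ≤ C * Real.log W * Vz N W H := by
  classical
  obtain ⟨C1, hC1, hmer⟩ := mertens
  obtain ⟨Bs, hBs, hsq⟩ := MER3_sq
  have hl2 : 0 < Real.log 2 := Real.log_pos (by norm_num)
  set C' : ℝ := C1 / Real.log 2 with hC'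
  have hC'0 : 0 < C' := by positivity
  refine ⟨250000 * Real.exp (3 * C' + 2 + 6 * Bs), by positivity, fun K B hB => ?_⟩
  obtain ⟨n1, hn1⟩ := bd_card K
  obtain ⟨n2, hn2⟩ := e1_large B
  refine ⟨max n1 n2, fun N hN W H hW hHK hH => ?_⟩
  have hbd := hn1 N ((le_max_left _ _).trans hN) W H hHK hH
  obtain ⟨hN1000, hL, hlarge⟩ := hn2 N ((le_max_right _ _).trans hN)
  obtain ⟨hW3, hW512, hWu⟩ := e1_W hB hL hW
  set L : ℝ := Real.log N with hLd
  have hL0 : 0 < L := by linarith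
  have hNr : (1000 : ℝ) ≤ N := by exact_mod_cast hN1000
  have hN0 : (0 : ℝ) < N := by linarith
  have hWr : (512 : ℝ) ≤ W := by exact_mod_cast hW512
  set u : ℝ := (W : ℝ) + 1 with hu
  set v : ℝ := (N : ℝ) ^ (1 / 1000 : ℝ) with hv
  have hu2 : 2 ≤ u := by linarith
  have huv : u ≤ v := by linarith
  have hvN : v ≤ N := by
    calc v ≤ (N : ℝ) ^ (1 : ℝ) := Real.rpow_le_rpow_of_exponent_le (by linarith) (by norm_num)
      _ = N := Real.rpow_one _
  have hvz : v ≤ zz N := by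
    unfold zz
    exact Real.rpow_le_rpow_of_exponent_le (by linarith) (by norm_num)
  have hlv : Real.log v = L / 1000 := by
    rw [hv, Real.log_rpow hN0]
    ring
  have hlz : Real.log (zz N) = L / 8 := by
    unfold zz
    rw [Real.log_rpow hN0]
    ring
  have hlu : 0 < Real.log u := Real.log_pos (by linarith)
  have hlu2 : Real.log 2 ≤ Real.log u := Real.log_le_log (by norm_num) hu2
  have hCu : C1 / Real.log u ≤ C' := div_le_div_of_nonneg_left hC1.le hl2 hlu2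
  have hlW : 0 < Real.log W := Real.log_pos (by linarith)
  have hluW : Real.log u ≤ 2 * Real.log W := by
    have h1 : u ≤ (W : ℝ) ^ 2 := by nlinarith
    have h2 := Real.log_le_log (by linarith) h1
    rw [Real.log_pow] at h2
    exact_mod_cast h2
  -- upper bound of the product
  set Q := (Pg N W H).filter (fun q => q ≤ ⌊v⌋₊) with hQ
  have hQm : ∀ q ∈ Q, q.Prime ∧ W < q := fun q hq => by
    have h1 := (Finset.mem_filter.1 hq).1
    unfold Pg at h1
    rw [Finset.mem_filter, Finset.mem_Ioc] at h1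
    exact ⟨h1.2.1, h1.1.1⟩
  have hup : ∏ q ∈ Q, (1 - 2 / (q : ℝ)) ≤ Real.exp (-(2 * ∑ q ∈ Q, 1 / (q : ℝ))) := by
    have h1 : -(2 * ∑ q ∈ Q, 1 / (q : ℝ)) = ∑ q ∈ Q, -(2 / (q : ℝ)) := by
      rw [Finset.sum_neg_distrib, Finset.mul_sum]
      congr 1
      exact Finset.sum_congr rfl fun q _ => by ring
    rw [h1, Real.exp_sum]
    refine Finset.prod_le_prod (fun q hq => ?_) fun q hq => Real.one_sub_le_exp_neg _
    have h2 := (hQm q hq).2
    have h3 : (512 : ℝ) ≤ q := by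
      have : W ≤ q := h2.le
      exact hWr.trans (by exact_mod_cast this)
    have h4 : 2 / (q : ℝ) ≤ 1 := by
      rw [div_le_one (by linarith)]
      linarith
    linarith
  have hBd1 : ∑ q ∈ Bd N W H, 1 / (q : ℝ) ≤ 1 := by
    have h1 : ∀ q ∈ Bd N W H, 1 / (q : ℝ) ≤ 1 / (W : ℝ) := by
      intro q hq
      unfold Bd at hq
      rw [Finset.mem_filter, Finset.mem_Ioc] at hq
      have h2 : (W : ℝ) ≤ q := by exact_mod_cast hq.1.1.le
      exact one_div_le_one_div_of_le (by linarith) h2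
    have h2 : ∑ q ∈ Bd N W H, 1 / (q : ℝ) ≤ (Bd N W H).card * (1 / (W : ℝ)) := by
      have := Finset.sum_le_card_nsmul _ _ _ h1
      rwa [nsmul_eq_mul] at this
    refine h2.trans ?_
    have h3 : L ^ 2 ≤ W := by
      refine le_trans ?_ hW3
      exact pow_le_pow_right₀ (by linarith) (by norm_num)
    rw [mul_one_div, div_le_one (by linarith)]
    exact hbd.trans h3
  have hsub : PR u v ⊆ Q ∪ Bd N W H := by
    intro q hq
    rw [mem_PR] at hq
    obtain ⟨hqp, hqu, hqv⟩ := hq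
    have hWq : W < q := by
      have : ((W + 1 : ℕ) : ℝ) ≤ q := by push_cast; exact hqu
      have : W + 1 ≤ q := by exact_mod_cast this
      omega
    have hqN : q ≤ N := by
      have : (q : ℝ) ≤ N := hqv.le.trans hvN
      exact_mod_cast this
    rw [Finset.mem_union]
    by_cases hb : ∃ h ∈ H, q ∣ N + h
    · right
      unfold Bd
      rw [Finset.mem_filter, Finset.mem_Ioc]
      exact ⟨⟨hWq, hqN⟩, hqp, hb⟩
    · left
      push Not at hb
      rw [hQ, Finset.mem_filter]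
      unfold Pg
      rw [Finset.mem_filter, Finset.mem_Ioc]
      exact ⟨⟨⟨hWq, hqN⟩, hqp, hb⟩, Nat.le_floor hqv.le⟩
  have hsumQ : Real.log (Real.log v) - Real.log (Real.log u) - C' - 1 ≤ ∑ q ∈ Q, 1 / (q : ℝ) := by
    have h1 := (abs_le.1 (hmer u v hu2 huv)).1
    have h2 : ∑ q ∈ PR u v, 1 / (q : ℝ) ≤ ∑ q ∈ Q, 1 / (q : ℝ) + ∑ q ∈ Bd N W H, 1 / (q : ℝ) := by
      refine (Finset.sum_le_sum_of_subset_of_nonneg hsub fun q _ _ => by positivity).trans ?_
      rw [← Finset.sum_union_inter]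
      have : 0 ≤ ∑ q ∈ Q ∩ Bd N W H, 1 / (q : ℝ) := Finset.sum_nonneg fun q _ => by positivity
      linarith
    linarith
  have hprodQ : ∏ q ∈ Q, (1 - 2 / (q : ℝ)) ≤
      (Real.log u / (L / 1000)) ^ 2 * Real.exp (2 * C' + 2) := by
    refine hup.trans ?_
    have h1 : -(2 * ∑ q ∈ Q, 1 / (q : ℝ)) ≤
        (Real.log (Real.log u) - Real.log (Real.log v)) + (Real.log (Real.log u) - Real.log (Real.log v)) +
          (2 * C' + 2) := by linarith
    refine (Real.exp_le_exp.2 h1).trans (le_of_eq ?_)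
    have hlv0 : 0 < Real.log v := by rw [hlv]; positivity
    rw [Real.exp_add, Real.exp_add, Real.exp_sub, Real.exp_log hlu, Real.exp_log hlv0, hlv]
    ring
  -- lower bound of Vz
  have hlow : (Real.log u / (L / 8)) * Real.exp (-C' - 6 * Bs) ≤ Vz N W H := by
    set A := PR u (zz N) with hA
    have hA3 : ∀ q ∈ A, 3 ≤ q := fun q hq => by
      rw [hA, mem_PR] at hq
      have : (3 : ℝ) ≤ q := by linarith [hq.2.1]
      exact_mod_cast this
    have h1 : ∏ q ∈ A, (1 - gq q) ≤ Vz N W H := by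
      unfold Vz VV VP
      refine Finset.prod_le_prod_of_subset_of_le_one ?_ (fun q hq => ?_) fun q hq _ => ?_
      · intro q hq
        rw [Finset.mem_filter] at hq
        have h2 := hq.1
        unfold Pg at h2
        rw [Finset.mem_filter, Finset.mem_Ioc] at h2
        rw [hA, mem_PR]
        refine ⟨h2.2.1, ?_, hq.2⟩
        have h3 : W + 1 ≤ q := h2.1.1
        have h4 : ((W + 1 : ℕ) : ℝ) ≤ q := by exact_mod_cast h3
        push_cast at h4
        exact h4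
      · exact (MER3_fac q (hA3 q hq)).1.le
      · exact (MER3_fac q (hA3 q hq)).2.1
    refine le_trans ?_ h1
    have h2 : Real.exp (∑ q ∈ A, -(1 / (q : ℝ) + 6 * (1 / (q : ℝ) ^ 2))) ≤ ∏ q ∈ A, (1 - gq q) := by
      rw [Real.exp_sum]
      exact Finset.prod_le_prod (fun q _ => (Real.exp_pos _).le) fun q hq => (MER3_fac q (hA3 q hq)).2.2.2
    refine le_trans ?_ h2
    have h3 := (abs_le.1 (hmer u (zz N) hu2 (huv.trans hvz))).2
    have h4 := hsq A
    have h5 : ∑ q ∈ A, -(1 / (q : ℝ) + 6 * (1 / (q : ℝ) ^ 2)) =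
        -∑ q ∈ A, 1 / (q : ℝ) - 6 * ∑ q ∈ A, 1 / (q : ℝ) ^ 2 := by
      rw [Finset.sum_neg_distrib, Finset.sum_add_distrib, ← Finset.mul_sum]
      ring
    rw [h5]
    have h6 : Real.log (Real.log u) - Real.log (Real.log (zz N)) + (-C' - 6 * Bs) ≤
        -∑ q ∈ A, 1 / (q : ℝ) - 6 * ∑ q ∈ A, 1 / (q : ℝ) ^ 2 := by linarith
    refine le_trans (le_of_eq ?_) (Real.exp_le_exp.2 h6)
    have hlz0 : 0 < Real.log (zz N) := by rw [hlz]; positivity
    rw [Real.exp_add, Real.exp_sub (Real.log (Real.log u)), Real.exp_log hlu, Real.exp_log hlz0, hlz]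
  -- conclusion
  calc L * ∏ q ∈ Q, (1 - 2 / (q : ℝ)) ≤ L * ((Real.log u / (L / 1000)) ^ 2 * Real.exp (2 * C' + 2)) :=
        mul_le_mul_of_nonneg_left hprodQ hL0.le
    _ = 1000000 * (Real.log u / L) * Real.exp (2 * C' + 2) * Real.log u := by
        field_simp
        norm_num
    _ ≤ 1000000 * (Real.log u / L) * Real.exp (2 * C' + 2) * (2 * Real.log W) :=
        mul_le_mul_of_nonneg_left hluW (by positivity)
    _ = 250000 * Real.exp (3 * C' + 2 + 6 * Bs) * Real.log W *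
          ((Real.log u / (L / 8)) * Real.exp (-C' - 6 * Bs)) := by
        have e : Real.exp (2 * C' + 2) = Real.exp (3 * C' + 2 + 6 * Bs) * Real.exp (-C' - 6 * Bs) := by
          rw [← Real.exp_add]
          congr 1
          ring
        rw [e]
        field_simp
        norm_num
    _ ≤ 250000 * Real.exp (3 * C' + 2 + 6 * Bs) * Real.log W * Vz N W H :=
        mul_le_mul_of_nonneg_left hlow (by positivity)

theorem e1_Vz (N W : ℕ) (H : Finset ℕ) (hW : 2 ≤ W) : 0 ≤ Vz N W H := by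
  unfold Vz VV VP
  refine Finset.prod_nonneg fun q hq => ?_
  have h2 := (Finset.mem_filter.1 hq).1
  unfold Pg at h2
  rw [Finset.mem_filter, Finset.mem_Ioc] at h2
  exact (MER3_fac q (by omega)).1.le

theorem e1_Fs {K : ℕ} (w : Par K) (H : Finset ℕ) (N p1 : ℕ) (i : Option ℕ) (t : ℕ) :
    0 ≤ Fs w H N p1 i t := by
  unfold Fs FF Sg
  have h1 := w.z_bounds.1
  have h2 : 0 < w.z ^ K := by positivity
  refine mul_nonneg (div_nonneg (sq_nonneg _) h2.le) ?_
  split_ifs <;> norm_num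

/-- Proof. `bh` with `k = 2`, `z = ⌊N^(1/1000)⌋₊` (`z^202 ≤ Lv N θ`), `Q = (Pg N W H).filter (· ≤ z)`, `g q = 2/q`, `S` = the `t ∈ (Ya, Yb]`, `t ≡ N [MOD p1]`, weights
`Fs (some h) t`, `ev q t = (q ∣ N - t ∨ q ∣ t + h)`, `X = (Yb - Ya)/p1 · AE Va`, `Rm = N/L^10` by `remJ`. The primes `p = t + h` counted in `E1s` (`p ↦ p - h` is
injective, `h ≤ p`): `t ≡ N [MOD p1]`, no `q ∈ Q` divides `N - t` (`q < zz N`) or `p` (`p` prime `> z`); `lg p ≤ log N`. So
`E1s ≤ log N (2 X ∏ (1 - 2/q) + N/L^10)`, use `e1a`, `Vb ≥ (log W/4) Va` (`vb_ge`), `XX ≥ N/20` (`main_low`), `Yb - Ya ≤ N/8`. -/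
theorem E1_up : ∃ C : ℝ, 0 < C ∧ ∀ θ : ℝ, 0 < θ → θ ≤ 1 / 100 →
    ∀ (K B cF : ℕ) (G : ℝ), 1 ≤ K → 3 ≤ B → ∃ n0 : ℕ, ∀ N : ℕ, n0 ≤ N →
    ∀ (w : Par K) (H : Finset ℕ) (p1 : ℕ), Reg B cF θ G w H N p1 → ∀ h ∈ H,
    E1s w H N p1 h ≤ C / p1 * (Xh w H N p1 h * Vz N w.W H) + N / Real.log N ^ 9 := by
  classical
  obtain ⟨Ca, hCa, hea⟩ := e1a
  refine ⟨20 * Ca, by positivity, fun θ hθ0 hθ K B cF G hK hB => ?_⟩
  obtain ⟨n1, hn1⟩ := hea K B hB
  obtain ⟨n2, hn2⟩ := e1_large B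
  obtain ⟨n3, hn3⟩ := main_low K B cF hK θ G
  obtain ⟨n4, hn4⟩ := va_low K B hK
  refine ⟨max (max n1 n2) (max n3 n4), fun N hN w H p1 hR h hh => ?_⟩
  have hN1 : n1 ≤ N := ((le_max_left _ _).trans (le_max_left _ _)).trans hN
  have hN2 : n2 ≤ N := ((le_max_right _ _).trans (le_max_left _ _)).trans hN
  have hN3 : n3 ≤ N := ((le_max_left _ _).trans (le_max_right _ _)).trans hN
  have hN4 : n4 ≤ N := ((le_max_right _ _).trans (le_max_right _ _)).trans hN
  obtain ⟨hN1000, hL, hlarge⟩ := hn2 N hN2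
  obtain ⟨hW3, hW512, hWu⟩ := e1_W hB hL hR.Wdef
  obtain ⟨hm1, hXh0, hXX1, hXX2⟩ := hn3 N hN3 w H p1 hR h hh
  obtain ⟨hVa1, -⟩ := hn4 N hN4 w.W p1 H hR.Wdef hR.cardH hR.nf
  set L : ℝ := Real.log N with hLd
  have hL0 : 0 < L := by linarith
  have hNr : (1000 : ℝ) ≤ N := by exact_mod_cast hN1000
  have hN0 : (0 : ℝ) < N := by linarith
  set v : ℝ := (N : ℝ) ^ (1 / 1000 : ℝ) with hv
  set z : ℕ := ⌊v⌋₊ with hz
  have hv0 : 0 ≤ v := by positivity
  have hzv : (z : ℝ) ≤ v := Nat.floor_le hv0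
  have hWv : (w.W : ℝ) + 1 ≤ v := by linarith
  have hWN : (w.W : ℝ) * 100 ≤ N := by
    have h1 : v ^ 1000 = N := by
      rw [hv, ← Real.rpow_natCast, ← Real.rpow_mul hN0.le]
      norm_num
    have hWr : (512 : ℝ) ≤ w.W := by exact_mod_cast hW512
    have h2 : (1 : ℝ) ≤ v := by linarith
    have h3 : v ^ 2 ≤ v ^ 1000 := pow_le_pow_right₀ h2 (by norm_num)
    rw [h1] at h3
    nlinarith
  have hWN' : w.W * 100 ≤ N := by exact_mod_cast hWN
  have hHN : ∀ h ∈ H, h ≤ N := fun h hh => (hR.HW h hh).trans (by omega)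
  have hprod := hn1 N hN1 w.W H hR.Wdef hR.cardH hHN
  have hz2 : 2 ≤ z := by
    apply Nat.le_floor
    have hWr : (512 : ℝ) ≤ w.W := by exact_mod_cast hW512
    push_cast
    linarith
  set Q := (Pg N w.W H).filter (fun q => q ≤ z) with hQ
  have hQm : ∀ q ∈ Q, q.Prime ∧ w.W < q ∧ q ≤ z := fun q hq => by
    have h1 := (Finset.mem_filter.1 hq).1
    unfold Pg at h1
    rw [Finset.mem_filter, Finset.mem_Ioc] at h1
    exact ⟨h1.2.1, h1.1.1, (Finset.mem_filter.1 hq).2⟩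
  have hYab : (Ya N : ℝ) ≤ Yb N := by
    have : Ya N ≤ Yb N := by unfold Ya Yb; omega
    exact_mod_cast this
  have hYd : (Yb N : ℝ) - Ya N ≤ N / 8 := by
    have h1 : 8 * Yb N ≤ 8 * Ya N + N := by unfold Ya Yb; omega
    have h2 : (8 : ℝ) * Yb N ≤ 8 * Ya N + N := by exact_mod_cast h1
    linarith
  have hAE : 0 ≤ AE w.P H (some h) (FC w H) := by
    refine le_trans ?_ (hR.aes h hh)
    positivity
  have hVa0 : 0 ≤ Va N w.W p1 H := le_trans (by positivity) hVa1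
  have hp1r : (0 : ℝ) < p1 := by exact_mod_cast hR.p1p.pos
  set X : ℝ := ((Yb N : ℝ) - Ya N) / p1 * (AE w.P H (some h) (FC w H) * Va N w.W p1 H) with hX
  have hX0 : 0 ≤ X := mul_nonneg (div_nonneg (by linarith) hp1r.le) (mul_nonneg hAE hVa0)
  have hrem := hR.remJ h hh
  have hLv : z ^ (96 * 2 + 10) ≤ Lv N θ := by
    unfold Lv
    apply Nat.le_floor
    push_cast
    have h1 : (z : ℝ) ^ (96 * 2 + 10) ≤ v ^ (96 * 2 + 10) := pow_le_pow_left₀ (Nat.cast_nonneg _) hzv _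
    refine h1.trans ?_
    rw [hv, ← Real.rpow_natCast, ← Real.rpow_mul hN0.le]
    refine Real.rpow_le_rpow_of_exponent_le (by linarith) ?_
    push_cast
    linarith
  have hbh := bh 2 z hz2 (by norm_num) Q (fun q hq => by
      obtain ⟨h1, h2, h3⟩ := hQm q hq
      exact ⟨h1, by omega, h3⟩) (fun q => 2 / (q : ℝ)) (fun q => by positivity)
    (fun q _ => by norm_num) ((Ioc (Ya N) (Yb N)).filter (fun t => t ≡ N [MOD p1]))
    (fun t => Fs w H N p1 (some h) t) (fun t _ => e1_Fs w H N p1 _ t)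
    (fun q t => q ∣ N - t ∨ q ∣ t + h) X hX0 (N / L ^ 10) (by
      refine le_trans ?_ hrem
      have hsub : (Icc 1 (z ^ (96 * 2 + 10))).filter
          (fun d => Squarefree d ∧ ∀ q ∈ d.primeFactors, q ∈ Q) ⊆ Dv (Pg N w.W H) (Lv N θ) := by
        intro d hd
        rw [Finset.mem_filter, Finset.mem_Icc] at hd
        unfold Dv
        rw [Finset.mem_filter, Finset.mem_Icc]
        exact ⟨⟨hd.1.1, hd.1.2.trans hLv⟩, hd.2.1, fun q hq => (Finset.mem_filter.1 (hd.2.2 q hq)).1⟩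
      refine le_trans (le_of_eq ?_) (Finset.sum_le_sum_of_subset_of_nonneg hsub fun d _ _ => abs_nonneg _)
      refine Finset.sum_congr rfl fun d hd => ?_
      rw [Finset.mem_filter] at hd
      congr 2
      · rw [Finset.filter_filter]
        refine Finset.sum_congr ?_ fun _ _ => rfl
        ext t
        simp only [Finset.mem_filter]
      · congr 1
        rw [Finset.prod_div_distrib, Finset.prod_const]
        congr 1
        have h1 := Nat.prod_primeFactors_of_squarefree hd.2.1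
        rw [← Nat.cast_prod, h1])
  have hup := hbh.2
  -- the primes
  have hE : E1s w H N p1 h ≤ L * ∑ t ∈ ((Ioc (Ya N) (Yb N)).filter (fun t => t ≡ N [MOD p1])).filter
      (fun t => ∀ q ∈ Q, ¬ (q ∣ N - t ∨ q ∣ t + h)), Fs w H N p1 (some h) t := by
    have hhW : h ≤ w.W := hR.HW h hh
    have hSh : ∀ p ∈ Sh N h, p.Prime ∧ Ya N + h < p ∧ p ≤ Yb N + h := by
      intro p hp
      unfold Sh H59C.Sq at hp
      rw [Finset.mem_filter, Finset.mem_Ioc] at hp
      exact ⟨hp.2, hp.1.1, hp.1.2⟩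
    have hYbN : Yb N + h ≤ N := by unfold Yb; omega
    have hYa4 : N ≤ 4 * Ya N := by unfold Ya; omega
    unfold E1s
    rw [Finset.mul_sum]
    have h1 : ∀ p ∈ (Sh N h).filter (fun p => p1 ∣ Nat.dist (N + h) p ∧
        ∀ q ∈ Pg N w.W H, (q : ℝ) < zz N → ¬ q ∣ Nat.dist (N + h) p),
        wh w H N p1 h p ≤ L * Fs w H N p1 (some h) (p - h) := by
      intro p hp
      obtain ⟨hpp, hp1, hp2⟩ := hSh p (Finset.mem_filter.1 hp).1
      unfold wh
      refine mul_le_mul_of_nonneg_right ?_ (e1_Fs w H N p1 _ _)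
      unfold H59C.lg
      refine Real.log_le_log (by exact_mod_cast hpp.pos) ?_
      exact_mod_cast hp2.trans hYbN
    refine (Finset.sum_le_sum h1).trans ?_
    have hinj : Set.InjOn (fun p => p - h) (((Sh N h).filter (fun p => p1 ∣ Nat.dist (N + h) p ∧
        ∀ q ∈ Pg N w.W H, (q : ℝ) < zz N → ¬ q ∣ Nat.dist (N + h) p) : Finset ℕ) : Set ℕ) := by
      intro p hp p' hp' heq
      obtain ⟨-, h2, -⟩ := hSh p (Finset.mem_filter.1 (Finset.mem_coe.1 hp)).1
      obtain ⟨-, h3, -⟩ := hSh p' (Finset.mem_filter.1 (Finset.mem_coe.1 hp')).1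
      simp only at heq
      omega
    rw [← Finset.sum_image (f := fun t => L * Fs w H N p1 (some h) t) hinj]
    refine Finset.sum_le_sum_of_subset_of_nonneg ?_ fun t _ _ =>
      mul_nonneg hL0.le (e1_Fs w H N p1 _ t)
    intro t ht
    rw [Finset.mem_image] at ht
    obtain ⟨p, hp, rfl⟩ := ht
    obtain ⟨hps, hpd, hpq⟩ := Finset.mem_filter.1 hp
    obtain ⟨hpp, hpl, hpu⟩ := hSh p hps
    have hdist : Nat.dist (N + h) p = N - (p - h) := by
      rw [Nat.dist_eq_sub_of_le_right (by omega)]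
      omega
    rw [hdist] at hpd hpq
    rw [Finset.mem_filter, Finset.mem_filter, Finset.mem_Ioc]
    refine ⟨⟨⟨by omega, by omega⟩, ?_⟩, ?_⟩
    · exact (Nat.modEq_iff_dvd' (by omega)).2 hpd
    · intro q hq
      obtain ⟨hqp, hqW, hqz⟩ := hQm q hq
      have hqv : (q : ℝ) ≤ v := (by exact_mod_cast hqz : (q : ℝ) ≤ z).trans hzv
      have hvz : v < zz N := by
        unfold zz
        exact Real.rpow_lt_rpow_of_exponent_lt (by linarith) (by norm_num)
      rintro (h2 | h2)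
      · exact hpq q (Finset.mem_filter.1 hq).1 (hqv.trans_lt hvz) h2
      · have h3 : p - h + h = p := by omega
        rw [h3] at h2
        have h4 : q = p := (Nat.prime_dvd_prime_iff_eq hqp hpp).1 h2
        -- p > N / 4 > v
        have h5 : v ^ 2 ≤ N := by
          have h1' : v ^ 1000 = N := by
            rw [hv, ← Real.rpow_natCast, ← Real.rpow_mul hN0.le]
            norm_num
          rw [← h1']
          have hWr : (512 : ℝ) ≤ w.W := by exact_mod_cast hW512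
          exact pow_le_pow_right₀ (by linarith) (by norm_num)
        have h6 : (N : ℝ) ≤ 4 * Ya N := by exact_mod_cast hYa4
        have h7 : (Ya N : ℝ) < p := by
          have : Ya N < p := by omega
          exact_mod_cast this
        have hWr : (512 : ℝ) ≤ w.W := by exact_mod_cast hW512
        rw [h4] at hqv
        nlinarith
  have hlW : 0 < Real.log w.W := Real.log_pos (by
    have hWr : (512 : ℝ) ≤ w.W := by exact_mod_cast hW512
    linarith)
  have hVz := e1_Vz N w.W H (by omega)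
  obtain ⟨hvb, -⟩ := vb_ge N w.W p1 H (by omega) hR.p1p hVa0
  have hVb0 : 0 ≤ Vb N w.W p1 H := le_trans (by positivity) hvb
  have hE2 : E1s w H N p1 h ≤ 2 * X * (L * ∏ q ∈ Q, (1 - 2 / (q : ℝ))) + N / L ^ 9 := by
    refine hE.trans ?_
    have h1 := mul_le_mul_of_nonneg_left hup hL0.le
    have h2 : L * (2 * X * ∏ q ∈ Q, (1 - 2 / (q : ℝ)) + N / L ^ 10) =
        2 * X * (L * ∏ q ∈ Q, (1 - 2 / (q : ℝ))) + N / L ^ 9 := by
      field_simp
    rw [← h2]
    refine le_trans (le_of_eq ?_) h1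
    congr 1
    refine Finset.sum_congr ?_ fun _ _ => rfl
    ext t
    simp only [Finset.mem_filter]
  refine hE2.trans (add_le_add ?_ le_rfl)
  have h3 : 2 * X * (L * ∏ q ∈ Q, (1 - 2 / (q : ℝ))) ≤ 2 * X * (Ca * Real.log w.W * Vz N w.W H) :=
    mul_le_mul_of_nonneg_left hprod (by positivity)
  refine h3.trans ?_
  -- log W Va <= 4 Vb
  have h4 : Real.log w.W * Va N w.W p1 H ≤ 4 * Vb N w.W p1 H := by linarith
  have h5 : ((Yb N : ℝ) - Ya N) ≤ 5 / 2 * XX (Ya N + h) (Yb N + h) := by linarith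
  have h6 : ((Yb N : ℝ) - Ya N) * (Real.log w.W * Va N w.W p1 H) ≤
      (5 / 2 * XX (Ya N + h) (Yb N + h)) * (4 * Vb N w.W p1 H) :=
    mul_le_mul h5 h4 (mul_nonneg hlW.le hVa0) (by linarith)
  have h7 : 0 ≤ 2 * Ca / p1 * AE w.P H (some h) (FC w H) * Vz N w.W H := by positivity
  have h8 := mul_le_mul_of_nonneg_left h6 h7
  unfold Xh
  calc 2 * X * (Ca * Real.log w.W * Vz N w.W H) = 2 * Ca / p1 * AE w.P H (some h) (FC w H) * Vz N w.W H *
        (((Yb N : ℝ) - Ya N) * (Real.log w.W * Va N w.W p1 H)) := by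
        rw [hX]
        ring
    _ ≤ _ := h8
    _ = _ := by ring

end Pool.Agent.Lib.H57C
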