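import Pool.Agent.Lib.H57C.S0
import Pool.Agent.Lib.H57C.S3b

/-!
# Chunk E2: bad primes and squares
-/

open Finset

namespace Pool.Agent.Lib.H57C

open Pool.Agent.Lib.H57M
open Pool.Agent.Lib.H59C (AA zz XX)

theorem E2_FF {K : ℕ} (w : Par K) (H : Finset ℕ) (i : Option ℕ) (t : ℕ) : 0 ≤ FF w H i t := by
  have hz : 0 ≤ w.z := by
    unfold Par.z
    have : 0 ≤ ∑ i, H15P.ex (H15P.qq w.P K) (fun A => w.D i A ^ 2) :=
      Finset.sum_nonneg fun i _ => H15P.ex_nonneg _ w.good.q0 w.good.q1 _ fun A => sq_nonneg _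
    linarith
  unfold FF
  exact div_nonneg (sq_nonneg _) (pow_nonneg hz _)

theorem E2_Fs {K : ℕ} (w : Par K) (H : Finset ℕ) (N p1 : ℕ) (i : Option ℕ) (t : ℕ) :
    0 ≤ Fs w H N p1 i t ∧ Fs w H N p1 i t ≤ FF w H i t := by
  have h0 := E2_FF w H i t
  unfold Fs Sg
  split_ifs
  · rw [mul_one]
    exact ⟨h0, le_refl _⟩
  · rw [mul_zero]
    exact ⟨le_refl _, h0⟩

theorem E2_ev (k : ℕ) (s C : ℝ) (hs : 0 < s) (hC : 0 < C) : ∃ n0 : ℕ, ∀ N : ℕ, n0 ≤ N →
    C * Real.log N ^ k ≤ (N : ℝ) ^ s := by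
  have h1 : ∀ᶠ x : ℝ in Filter.atTop, C * Real.log x ^ k ≤ x ^ s := by
    have e1 := (isLittleO_log_rpow_rpow_atTop (k : ℝ) hs).def (show (0 : ℝ) < 1 / C by positivity)
    filter_upwards [e1, Filter.eventually_ge_atTop (1 : ℝ)] with x hx1 hx2
    have hl : 0 ≤ Real.log x := Real.log_nonneg hx2
    rw [Real.rpow_natCast, Real.norm_eq_abs, Real.norm_eq_abs, abs_of_nonneg (pow_nonneg hl _),
      abs_of_nonneg (Real.rpow_nonneg (by linarith) _)] at hx1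
    calc C * Real.log x ^ k ≤ C * (1 / C * x ^ s) := mul_le_mul_of_nonneg_left hx1 hC.le
      _ = x ^ s := by
          field_simp
  obtain ⟨n0, hn0⟩ := Filter.eventually_atTop.1
    ((tendsto_natCast_atTop_atTop (R := ℝ)).eventually h1)
  exact ⟨n0, hn0⟩

theorem E2_one (K B cF : ℕ) (θ G : ℝ) (N : ℕ) (w : Par K) (H : Finset ℕ) (p1 : ℕ)
    (hR : Reg B cF θ G w H N p1) (h : ℕ) (hh : h ∈ H) (hN : 1000 ≤ N) (hhN : 100 * h ≤ N)
    (r : ℕ) (hr : r.Prime ∨ ∀ p ∈ w.P, r.Coprime p) (hr1 : 1 ≤ r) :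
    ∑ p ∈ (Sh N h).filter (fun p => r ∣ Nat.dist (N + h) p), wh w H N p1 h p ≤
      Real.log N * (Real.log N ^ B * (N / r) / Real.log N ^ 20 + (N : ℝ) ^ (1 / 20 : ℝ)) := by
  have hL : 0 ≤ Real.log N := Real.log_natCast_nonneg _
  have key : ∀ p ∈ (Sh N h).filter (fun p => r ∣ Nat.dist (N + h) p),
      (p - h ∈ (Ioc (Ya N) (Yb N)).filter (fun t => t ≡ N [MOD r]) ∧ h < p) ∧
      wh w H N p1 h p ≤ Real.log N * FF w H (some h) (p - h) := by
    intro p hp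
    unfold Sh at hp
    rw [mem_filter, Pool.Agent.Lib.H59C.mem_Sq] at hp
    obtain ⟨⟨⟨h1, h2⟩, h3⟩, h4⟩ := hp
    have h5 : Yb N < N := by unfold Yb; omega
    have h6 : Yb N + h ≤ N := by unfold Yb; omega
    refine ⟨⟨?_, by omega⟩, ?_⟩
    · rw [mem_filter, mem_Ioc]
      refine ⟨⟨by omega, by omega⟩, ?_⟩
      rw [Nat.modEq_iff_dvd' (by omega)]
      have h7 : Nat.dist (N + h) p = N - (p - h) := by
        unfold Nat.dist
        omega
      rw [h7] at h4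
      exact h4
    · unfold wh
      have h7 : Pool.Agent.Lib.H59C.lg p ≤ Real.log N := by
        unfold Pool.Agent.Lib.H59C.lg
        apply Real.log_le_log (by exact_mod_cast h3.pos)
        exact_mod_cast (by omega : p ≤ N)
      exact mul_le_mul h7 (E2_Fs w H N p1 (some h) (p - h)).2 (E2_Fs w H N p1 (some h) (p - h)).1 hL
  have hinj : Set.InjOn (fun p => p - h) ((Sh N h).filter (fun p => r ∣ Nat.dist (N + h) p)) := by
    intro p hp p' hp' heq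
    have h1 := (key p hp).1.2
    have h2 := (key p' hp').1.2
    simp only at heq
    omega
  calc ∑ p ∈ (Sh N h).filter (fun p => r ∣ Nat.dist (N + h) p), wh w H N p1 h p
      ≤ ∑ p ∈ (Sh N h).filter (fun p => r ∣ Nat.dist (N + h) p),
          Real.log N * FF w H (some h) (p - h) := sum_le_sum fun p hp => (key p hp).2
    _ = ∑ t ∈ ((Sh N h).filter (fun p => r ∣ Nat.dist (N + h) p)).image (fun p => p - h),
          Real.log N * FF w H (some h) t := by rw [sum_image hinj]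
    _ ≤ ∑ t ∈ (Ioc (Ya N) (Yb N)).filter (fun t => t ≡ N [MOD r]),
          Real.log N * FF w H (some h) t := by
        apply sum_le_sum_of_subset_of_nonneg
        · intro t ht
          rw [mem_image] at ht
          obtain ⟨p, hp, rfl⟩ := ht
          exact (key p hp).1.1
        · intro t _ _
          exact mul_nonneg hL (E2_FF w H _ t)
    _ = Real.log N * ∑ t ∈ (Ioc (Ya N) (Yb N)).filter (fun t => t ≡ N [MOD r]),
          FF w H (some h) t := by rw [mul_sum]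
    _ ≤ _ := mul_le_mul_of_nonneg_left (hR.cls h hh r N hr hr1) hL

theorem E2_h100 (K B cF : ℕ) (θ G : ℝ) (N : ℕ) (w : Par K) (H : Finset ℕ) (p1 : ℕ)
    (hR : Reg B cF θ G w H N p1) (h : ℕ) (hh : h ∈ H) (hl : 100 * (Real.log N ^ B + 1) ≤ (N : ℝ))
    (hL : 0 ≤ Real.log N) : 100 * h ≤ N := by
  have h1 : (w.W : ℝ) ≤ Real.log N ^ B + 1 := by
    rw [hR.Wdef]
    exact (Nat.ceil_lt_add_one (by positivity)).le
  have h2 : (h : ℝ) ≤ w.W := by exact_mod_cast hR.HW h hh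
  have h3 : (100 * h : ℝ) ≤ N := by linarith
  exact_mod_cast h3

/-- Proof. `lg p ≤ log N`, `Fs ≤ FF`, `t = p - h ∈ (Ya, Yb]`, `q ∣ Nat.dist (N + h) p = N - t` iff `t ≡ N [MOD q]`. `Reg.cls` with `r = q` (a prime `> W ≥ L^B`):
the sum over one `q` is at most `L (N/L^20 + N^(1/20))`; `#Bd ≤ L^2` (`bd_card`). -/
theorem E2_up (K B cF : ℕ) (θ G : ℝ) (hK : 1 ≤ K) (hB : 3 ≤ B) : ∃ n0 : ℕ, ∀ N : ℕ, n0 ≤ N →
    ∀ (w : Par K) (H : Finset ℕ) (p1 : ℕ), Reg B cF θ G w H N p1 → ∀ h ∈ H,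
    E2s w H N p1 h ≤ N / Real.log N ^ 9 := by
  obtain ⟨n1, hn1⟩ := s0_large B (1 / 2) (by norm_num)
  obtain ⟨n2, hn2⟩ := bd_card K
  obtain ⟨n3, hn3⟩ := E2_ev 12 (19 / 20) 2 (by norm_num) (by norm_num)
  refine ⟨max n1 (max n2 n3), fun N hN w H p1 hR h hh => ?_⟩
  have hN1 : n1 ≤ N := le_trans (le_max_left _ _) hN
  have hN2 : n2 ≤ N := le_trans (le_trans (le_max_left _ _) (le_max_right _ _)) hN
  have hN3 : n3 ≤ N := le_trans (le_trans (le_max_right _ _) (le_max_right _ _)) hN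
  obtain ⟨g1, g2, g3, g4⟩ := hn1 N hN1
  have hNr : (1000 : ℝ) ≤ N := by exact_mod_cast g1
  have hL2 : 2 ≤ Real.log N := by linarith
  have hL0 : 0 < Real.log N := by linarith
  have hhN := E2_h100 K B cF θ G N w H p1 hR h hh g4 hL0.le
  have hH : ∀ h' ∈ H, h' ≤ N := by
    intro h' hh'
    have := E2_h100 K B cF θ G N w H p1 hR h' hh' g4 hL0.le
    omega
  have hcard := hn2 N hN2 w.W H hR.cardH hH
  have hev := hn3 N hN3
  have hpw : 0 ≤ (N : ℝ) ^ (1 / 20 : ℝ) := Real.rpow_nonneg (by linarith) _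
  unfold E2s
  have hb : ∀ q ∈ Bd N w.W H, ∑ p ∈ (Sh N h).filter (fun p => q ∣ Nat.dist (N + h) p),
      wh w H N p1 h p ≤ Real.log N * (N / Real.log N ^ 20 + (N : ℝ) ^ (1 / 20 : ℝ)) := by
    intro q hq
    unfold Bd at hq
    rw [mem_filter, mem_Ioc] at hq
    obtain ⟨⟨hq1, hq2⟩, hq3, _⟩ := hq
    refine le_trans (E2_one K B cF θ G N w H p1 hR h hh g1 hhN q (Or.inl hq3) hq3.one_lt.le) ?_
    apply mul_le_mul_of_nonneg_left _ hL0.le
    have hq0 : (0 : ℝ) < q := by exact_mod_cast hq3.pos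
    have h1 : Real.log N ^ B ≤ q := by
      have h2 : Real.log N ^ B ≤ w.W := by
        rw [hR.Wdef]
        exact Nat.le_ceil _
      have h3 : (w.W : ℝ) ≤ q := by exact_mod_cast hq1.le
      linarith
    have h2 : Real.log N ^ B * (N / q) ≤ N := by
      rw [mul_div_assoc', div_le_iff₀ hq0, mul_comm]
      exact mul_le_mul_of_nonneg_left h1 (by linarith)
    have h3 : Real.log N ^ B * (N / q) / Real.log N ^ 20 ≤ N / Real.log N ^ 20 :=
      div_le_div_of_nonneg_right h2 (by positivity)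
    linarith
  have hs := Finset.sum_le_card_nsmul _ _ _ hb
  rw [nsmul_eq_mul] at hs
  refine le_trans hs ?_
  refine le_trans (mul_le_mul_of_nonneg_right hcard (by positivity)) ?_
  have e1 : Real.log N ^ 2 * (Real.log N * (N / Real.log N ^ 20 + (N : ℝ) ^ (1 / 20 : ℝ))) =
      (N : ℝ) / Real.log N ^ 9 * (1 / Real.log N ^ 8) + Real.log N ^ 3 * (N : ℝ) ^ (1 / 20 : ℝ) := by
    field_simp
  have e2 : (1 : ℝ) / Real.log N ^ 8 ≤ 1 / 2 := by
    apply one_div_le_one_div_of_le (by norm_num)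
    calc (2 : ℝ) ≤ 2 ^ 8 := by norm_num
      _ ≤ Real.log N ^ 8 := pow_le_pow_left₀ (by norm_num) hL2 8
  have e3 : Real.log N ^ 3 * (N : ℝ) ^ (1 / 20 : ℝ) ≤ (N : ℝ) / Real.log N ^ 9 * (1 / 2) := by
    rw [div_mul_eq_mul_div, le_div_iff₀ (by positivity)]
    have e4 : (N : ℝ) ^ (19 / 20 : ℝ) * (N : ℝ) ^ (1 / 20 : ℝ) = N := by
      rw [← Real.rpow_add (by linarith)]
      norm_num
    calc Real.log N ^ 3 * (N : ℝ) ^ (1 / 20 : ℝ) * Real.log N ^ 9
        = 2 * Real.log N ^ 12 * (N : ℝ) ^ (1 / 20 : ℝ) * (1 / 2) := by ring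
      _ ≤ (N : ℝ) ^ (19 / 20 : ℝ) * (N : ℝ) ^ (1 / 20 : ℝ) * (1 / 2) := by
          apply mul_le_mul_of_nonneg_right _ (by norm_num)
          exact mul_le_mul_of_nonneg_right hev hpw
      _ = N * (1 / 2) := by rw [e4]
  rw [e1]
  have e5 : (N : ℝ) / Real.log N ^ 9 * (1 / Real.log N ^ 8) ≤ (N : ℝ) / Real.log N ^ 9 * (1 / 2) :=
    mul_le_mul_of_nonneg_left e2 (by positivity)
  linarith

/-- Proof. Union bound over the primes `q ∈ [zz N, √(N)]` (`q^2 ∣ N - t > 0`); `Reg.cls` with `r = q^2` (prime to all `p ∈ w.P`, `p ≤ N^(1/100) < q`):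
at most `L (L^B N/q^2 + N^(1/20))` each; `∑_{q ≥ z} 1/q^2 ≤ 2/z`, `√N N^(1/20) ≤ N^(3/5)`; `N^(7/8) L^(B+1)` is small. -/
theorem E3_up (K B cF : ℕ) (θ G : ℝ) (hK : 1 ≤ K) (hB : 3 ≤ B) : ∃ n0 : ℕ, ∀ N : ℕ, n0 ≤ N →
    ∀ (w : Par K) (H : Finset ℕ) (p1 : ℕ), Reg B cF θ G w H N p1 → ∀ h ∈ H,
    E3s w H N p1 h ≤ N / Real.log N ^ 9 := by
  obtain ⟨n1, hn1⟩ := s0_large B (1 / 2) (by norm_num)
  obtain ⟨n2, hn2⟩ := E2_ev (B + 10) (1 / 8) 4 (by norm_num) (by norm_num)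
  obtain ⟨n3, hn3⟩ := E2_ev 10 (9 / 20) 2 (by norm_num) (by norm_num)
  refine ⟨max n1 (max n2 n3), fun N hN w H p1 hR h hh => ?_⟩
  have hN1 : n1 ≤ N := le_trans (le_max_left _ _) hN
  have hN2 : n2 ≤ N := le_trans (le_trans (le_max_left _ _) (le_max_right _ _)) hN
  have hN3 : n3 ≤ N := le_trans (le_trans (le_max_right _ _) (le_max_right _ _)) hN
  obtain ⟨g1, g2, g3, g4⟩ := hn1 N hN1
  have hNr : (1000 : ℝ) ≤ N := by exact_mod_cast g1
  have hL2 : 2 ≤ Real.log N := by linarith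
  have hL0 : 0 < Real.log N := by linarith
  have hhN := E2_h100 K B cF θ G N w H p1 hR h hh g4 hL0.le
  have hev2 := hn2 N hN2
  have hev3 := hn3 N hN3
  have hpw : 0 ≤ (N : ℝ) ^ (1 / 20 : ℝ) := Real.rpow_nonneg (by linarith) _
  have hz1 : 1 ≤ zz N := by
    unfold zz
    exact Real.one_le_rpow (by linarith) (by norm_num)
  have hw0 : ∀ p, 0 ≤ wh w H N p1 h p := by
    intro p
    unfold wh
    refine mul_nonneg ?_ (E2_Fs w H N p1 (some h) (p - h)).1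
    unfold Pool.Agent.Lib.H59C.lg
    exact Real.log_natCast_nonneg _
  obtain ⟨k, hk⟩ : ∃ k, ⌈zz N⌉₊ = k + 1 := by
    have h1 : 0 < ⌈zz N⌉₊ := Nat.ceil_pos.2 (by linarith)
    exact ⟨⌈zz N⌉₊ - 1, by omega⟩
  obtain ⟨Qs, hQs⟩ : ∃ Qs : Finset ℕ, Qs = (Ioo k (Nat.sqrt N + 1)).filter Nat.Prime := ⟨_, rfl⟩
  have hQ : ∀ q ∈ Qs, q.Prime ∧ zz N ≤ q := by
    intro q hq
    rw [hQs, mem_filter, mem_Ioo] at hq
    refine ⟨hq.2, ?_⟩
    have h1 : ⌈zz N⌉₊ ≤ q := by omega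
    exact Nat.ceil_le.1 h1
  have hstep : E3s w H N p1 h ≤ ∑ q ∈ Qs, ∑ p ∈ (Sh N h).filter
      (fun p => q ^ 2 ∣ Nat.dist (N + h) p), wh w H N p1 h p := by
    unfold E3s
    rw [sum_filter]
    have h1 : ∀ q, ∑ p ∈ (Sh N h).filter (fun p => q ^ 2 ∣ Nat.dist (N + h) p),
        wh w H N p1 h p = ∑ p ∈ Sh N h, if q ^ 2 ∣ Nat.dist (N + h) p then wh w H N p1 h p else 0 :=
      fun q => sum_filter _ _
    rw [sum_congr rfl fun q _ => h1 q, sum_comm]
    apply sum_le_sum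
    intro p hp
    have h0 : ∀ q ∈ Qs, 0 ≤ (if q ^ 2 ∣ Nat.dist (N + h) p then wh w H N p1 h p else 0) := by
      intro q _
      split_ifs
      · exact hw0 p
      · exact le_refl _
    split_ifs with hc
    · obtain ⟨q, hq1, hq2, hq3⟩ := hc
      have hpp := hp
      unfold Sh at hpp
      rw [Pool.Agent.Lib.H59C.mem_Sq] at hpp
      have h5 : Yb N < N := by unfold Yb; omega
      have hd0 : 0 < Nat.dist (N + h) p := by
        unfold Nat.dist
        omega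
      have hdN : Nat.dist (N + h) p ≤ N := by
        unfold Nat.dist
        omega
      have hqN : q ^ 2 ≤ N := (Nat.le_of_dvd hd0 hq3).trans hdN
      have hqm : q ∈ Qs := by
        rw [hQs, mem_filter, mem_Ioo]
        refine ⟨⟨?_, ?_⟩, hq1⟩
        · have h1 : ⌈zz N⌉₊ ≤ q := Nat.ceil_le.2 hq2
          omega
        · have h1 : q ≤ Nat.sqrt N := Nat.le_sqrt'.2 hqN
          omega
      have h2 := Finset.single_le_sum h0 hqm
      rw [if_pos hq3] at h2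
      exact h2
    · exact sum_nonneg h0
  refine le_trans hstep ?_
  have hb : ∀ q ∈ Qs, ∑ p ∈ (Sh N h).filter (fun p => q ^ 2 ∣ Nat.dist (N + h) p),
      wh w H N p1 h p ≤ Real.log N ^ (B + 1) * N * ((q : ℝ) ^ 2)⁻¹ +
        Real.log N * (N : ℝ) ^ (1 / 20 : ℝ) := by
    intro q hq
    obtain ⟨hq1, hq2⟩ := hQ q hq
    have hcop : ∀ p ∈ w.P, (q ^ 2).Coprime p := by
      intro p hp
      have hpp := w.prime p hp
      apply Nat.Coprime.pow_left 2
      rw [Nat.coprime_primes hq1 hpp]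
      intro he
      have h1 := hR.PN p hp
      rw [← he] at h1
      have h2 : (N : ℝ) ^ (1 / 100 : ℝ) < (N : ℝ) ^ (1 / 8 : ℝ) :=
        Real.rpow_lt_rpow_of_exponent_lt (by linarith) (by norm_num)
      unfold zz at hq2
      linarith
    have hq0 : (0 : ℝ) < q := by exact_mod_cast hq1.pos
    refine le_trans (E2_one K B cF θ G N w H p1 hR h hh g1 hhN (q ^ 2) (Or.inr hcop)
      (Nat.one_le_pow _ _ hq1.pos)) ?_
    rw [mul_add]
    have h1 : (1 : ℝ) ≤ Real.log N ^ 20 := one_le_pow₀ (by linarith)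
    have h2 : Real.log N ^ B * ((N : ℝ) / ((q ^ 2 : ℕ) : ℝ)) / Real.log N ^ 20 ≤
        Real.log N ^ B * ((N : ℝ) / ((q ^ 2 : ℕ) : ℝ)) :=
      div_le_self (by positivity) h1
    have h3 : Real.log N * (Real.log N ^ B * ((N : ℝ) / ((q ^ 2 : ℕ) : ℝ))) =
        Real.log N ^ (B + 1) * N * ((q : ℝ) ^ 2)⁻¹ := by
      push_cast
      rw [div_eq_mul_inv]
      ring
    have h4 := mul_le_mul_of_nonneg_left h2 hL0.le
    rw [h3] at h4
    linarith
  refine le_trans (sum_le_sum hb) ?_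
  rw [sum_add_distrib, ← mul_sum, sum_const, nsmul_eq_mul]
  have s1 : ∑ q ∈ Qs, ((q : ℝ) ^ 2)⁻¹ ≤ 2 / zz N := by
    have h1 : ∑ q ∈ Qs, ((q : ℝ) ^ 2)⁻¹ ≤ ∑ q ∈ Ioo k (Nat.sqrt N + 1), ((q : ℝ) ^ 2)⁻¹ := by
      apply sum_le_sum_of_subset_of_nonneg
      · rw [hQs]
        exact filter_subset _ _
      · intro q _ _
        positivity
    refine le_trans h1 (le_trans (sum_Ioo_inv_sq_le k _) ?_)
    apply div_le_div_of_nonneg_left (by norm_num) (by linarith)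
    have h2 : (⌈zz N⌉₊ : ℝ) = (k : ℝ) + 1 := by
      rw [hk]
      push_cast
      rfl
    rw [← h2]
    exact Nat.le_ceil _
  have s2 : (Qs.card : ℝ) ≤ (N : ℝ) ^ (1 / 2 : ℝ) := by
    have h1 : Qs.card ≤ Nat.sqrt N := by
      rw [hQs]
      refine le_trans (card_filter_le _ _) ?_
      rw [Nat.card_Ioo]
      omega
    have h2 : ((Nat.sqrt N : ℕ) : ℝ) ≤ Real.sqrt N := Real.nat_sqrt_le_real_sqrt
    have h3 : (Qs.card : ℝ) ≤ (Nat.sqrt N : ℕ) := by exact_mod_cast h1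
    rw [← Real.sqrt_eq_rpow]
    linarith
  have t1 : Real.log N ^ (B + 1) * N * ∑ q ∈ Qs, ((q : ℝ) ^ 2)⁻¹ ≤
      (N : ℝ) / Real.log N ^ 9 * (1 / 2) := by
    have hz0 : 0 < zz N := by linarith
    calc Real.log N ^ (B + 1) * N * ∑ q ∈ Qs, ((q : ℝ) ^ 2)⁻¹
        ≤ Real.log N ^ (B + 1) * N * (2 / zz N) := mul_le_mul_of_nonneg_left s1 (by positivity)
      _ ≤ (N : ℝ) / Real.log N ^ 9 * (1 / 2) := by
          rw [mul_div_assoc', div_mul_eq_mul_div, div_le_div_iff₀ hz0 (by positivity)]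
          calc Real.log N ^ (B + 1) * N * 2 * Real.log N ^ 9
              = 4 * Real.log N ^ (B + 10) * (N * (1 / 2)) := by ring
            _ ≤ (N : ℝ) ^ (1 / 8 : ℝ) * (N * (1 / 2)) :=
                mul_le_mul_of_nonneg_right hev2 (by positivity)
            _ = (N : ℝ) * (1 / 2) * zz N := by
                unfold zz
                ring
  have t2 : (Qs.card : ℝ) * (Real.log N * (N : ℝ) ^ (1 / 20 : ℝ)) ≤
      (N : ℝ) / Real.log N ^ 9 * (1 / 2) := by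
    refine le_trans (mul_le_mul_of_nonneg_right s2 (by positivity)) ?_
    rw [div_mul_eq_mul_div, le_div_iff₀ (by positivity)]
    have e4 : (N : ℝ) ^ (1 / 2 : ℝ) * (N : ℝ) ^ (1 / 20 : ℝ) * (N : ℝ) ^ (9 / 20 : ℝ) = N := by
      rw [← Real.rpow_add (by linarith), ← Real.rpow_add (by linarith)]
      norm_num
    calc (N : ℝ) ^ (1 / 2 : ℝ) * (Real.log N * (N : ℝ) ^ (1 / 20 : ℝ)) * Real.log N ^ 9
        = (N : ℝ) ^ (1 / 2 : ℝ) * (N : ℝ) ^ (1 / 20 : ℝ) * (2 * Real.log N ^ 10) * (1 / 2) := by ring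
      _ ≤ (N : ℝ) ^ (1 / 2 : ℝ) * (N : ℝ) ^ (1 / 20 : ℝ) * (N : ℝ) ^ (9 / 20 : ℝ) * (1 / 2) := by
          apply mul_le_mul_of_nonneg_right _ (by norm_num)
          exact mul_le_mul_of_nonneg_left hev3 (by positivity)
      _ = N * (1 / 2) := by rw [e4]
  linarith

end Pool.Agent.Lib.H57C
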