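import Pool.Agent.Lib.H57C.P2
import Pool.Agent.Lib.H59C.MER0
import Pool.Agent.Lib.H59C.MER1
import Pool.Agent.Lib.H59C.MER3

/-!
# Chunk VP: products over the good primes
-/

open Finset

namespace Pool.Agent.Lib.H57C

open Pool.Agent.Lib.H59C (gq)
open Pool.Agent.Lib.H59C (PR mem_PR mertens MER3_sq)

/-- large `n` -/
theorem vp_large (B : ℕ) (r M : ℝ) (hr : 0 < r) : ∃ n0 : ℕ, ∀ n : ℕ, n0 ≤ n → 1000 ≤ n ∧
    M ≤ Real.log n ∧ Real.log n ^ B + 2 ≤ (n : ℝ) ^ r := by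
  have h1 : ∀ᶠ x : ℝ in Filter.atTop, Real.log x ^ B ≤ 1 / 2 * x ^ r := by
    have h := (isLittleO_log_rpow_rpow_atTop (B : ℝ) hr).bound (show (0 : ℝ) < 1 / 2 by norm_num)
    filter_upwards [h, Filter.eventually_ge_atTop 1] with x hx hx1
    rw [Real.rpow_natCast, Real.norm_eq_abs, Real.norm_eq_abs,
      abs_of_nonneg (pow_nonneg (Real.log_nonneg hx1) B), abs_of_nonneg (by positivity)] at hx
    exact hx
  have h2 : ∀ᶠ x : ℝ in Filter.atTop, 4 ≤ x ^ r :=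
    (tendsto_rpow_atTop hr).eventually_ge_atTop 4
  have h3 : ∀ᶠ x : ℝ in Filter.atTop, M ≤ Real.log x := Real.tendsto_log_atTop.eventually_ge_atTop M
  have h4 := (((h1.and h2).and h3).and (Filter.eventually_ge_atTop (1000 : ℝ)))
  have h5 := tendsto_natCast_atTop_atTop.eventually h4
  obtain ⟨n0, hn0⟩ := Filter.eventually_atTop.1 h5
  refine ⟨n0, fun N hN => ?_⟩
  obtain ⟨⟨⟨h6, h7⟩, h8⟩, h9⟩ := hn0 N hN
  refine ⟨by exact_mod_cast h9, h8, by linarith⟩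

/-- one factor -/
theorem vp_fac (k q τ : ℕ) (hq : 4 * k + 5 ≤ q) (hτ : τ ≤ k) :
    0 < 1 - (τ : ℝ) * gq q ∧ 1 - (τ : ℝ) * gq q ≤ 1 ∧
    Real.exp (-(k * (1 / (q : ℝ)) + 2 * k * (k + 1) * (1 / (q : ℝ) ^ 2))) ≤ 1 - (τ : ℝ) * gq q := by
  have hqr : (4 : ℝ) * k + 5 ≤ q := by exact_mod_cast hq
  have hτr : (τ : ℝ) ≤ k := by exact_mod_cast hτ
  have hk0 : (0 : ℝ) ≤ k := Nat.cast_nonneg _
  have hτ0 : (0 : ℝ) ≤ τ := Nat.cast_nonneg _
  have hq0 : (0 : ℝ) < q := by linarith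
  have hq1 : (0 : ℝ) < q - 1 := by linarith
  have hqk : (0 : ℝ) < q - 1 - k := by linarith
  unfold gq
  have h1 : (τ : ℝ) * (1 / ((q : ℝ) - 1)) ≤ k / ((q : ℝ) - 1) := by
    rw [mul_one_div]
    exact div_le_div_of_nonneg_right hτr hq1.le
  have h2 : (k : ℝ) / ((q : ℝ) - 1) ≤ 1 / 4 := by
    rw [div_le_div_iff₀ hq1 (by norm_num)]
    linarith
  have h3 : 0 ≤ (τ : ℝ) * (1 / ((q : ℝ) - 1)) := by positivity
  have h4 : 1 - (k : ℝ) / ((q : ℝ) - 1) = (q - 1 - k) / (q - 1) := by field_simp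
  refine ⟨by linarith, by linarith, ?_⟩
  have h5 : Real.exp (-(k * (1 / (q : ℝ)) + 2 * k * (k + 1) * (1 / (q : ℝ) ^ 2))) ≤
      1 - (k : ℝ) / ((q : ℝ) - 1) := by
    have h9 := Real.one_sub_inv_le_log_of_pos (show (0 : ℝ) < (q - 1 - k) / (q - 1) by positivity)
    rw [h4, ← Real.le_log_iff_exp_le (by positivity)]
    refine le_trans ?_ h9
    have h10 : 1 - (((q : ℝ) - 1 - k) / (q - 1))⁻¹ = -(k / ((q : ℝ) - 1 - k)) := by
      rw [inv_div]
      field_simp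
      ring
    rw [h10, neg_le_neg_iff]
    have h11 : (k : ℝ) * (1 / (q : ℝ)) + 2 * k * (k + 1) * (1 / (q : ℝ) ^ 2) =
        (k * (q + 2 * (k + 1))) / (q : ℝ) ^ 2 := by
      field_simp
    rw [h11, div_le_div_iff₀ hqk (by positivity)]
    have h12 : (q : ℝ) ^ 2 ≤ (q + 2 * (k + 1)) * (q - 1 - k) := by nlinarith
    calc (k : ℝ) * (q : ℝ) ^ 2 ≤ k * ((q + 2 * (k + 1)) * (q - 1 - k)) :=
          mul_le_mul_of_nonneg_left h12 hk0
      _ = _ := by ring
  linarith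

/-- Proof. `1 - k/(q-1) ≥ exp (-k/q - 4 k^2/q^2)`... for `q > W ≥ 4 k + 4`, so with `mertens` (`∑_{q ≤ n} 1/q ≤ log log n + C`) the product is
`≥ c_k/(log n)^k ≥ 1/(log n)^(k+1)` for large `n`. -/
theorem v1_low (k : ℕ) (hk : 1 ≤ k) : ∃ n0 : ℕ, ∀ n : ℕ, n0 ≤ n → ∀ (W : ℕ) (T : ℕ → Finset ℕ)
    (Q : Finset ℕ), 4 * k + 4 ≤ W → (∀ q ∈ Q, q.Prime ∧ W < q ∧ q ≤ n ∧ (T q).card ≤ k) →
    1 / Real.log n ^ (k + 1) ≤ V1R T Q ∧ V1R T Q ≤ 1 := by
  classical
  obtain ⟨C, hC, hmer⟩ := mertens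
  obtain ⟨Bs, hBs, hsq⟩ := MER3_sq
  have hl2 : 0 < Real.log 2 := Real.log_pos (by norm_num)
  set c : ℝ := k * (-Real.log (Real.log 2) + C / Real.log 2) + 2 * k * (k + 1) * Bs with hc
  obtain ⟨n0, hn0⟩ := vp_large 1 1 (2 ^ k * Real.exp c) one_pos
  refine ⟨n0, fun n hn W T Q hW hQ => ?_⟩
  obtain ⟨hn1000, hL, -⟩ := hn0 n hn
  have hnr : (1000 : ℝ) ≤ n := by exact_mod_cast hn1000
  set L : ℝ := Real.log n with hLd
  have hL0 : 0 < L := Real.log_pos (by linarith)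
  have hfac : ∀ q ∈ Q, 0 < 1 - ((T q).card : ℝ) * gq q ∧ 1 - ((T q).card : ℝ) * gq q ≤ 1 ∧
      Real.exp (-(k * (1 / (q : ℝ)) + 2 * k * (k + 1) * (1 / (q : ℝ) ^ 2))) ≤
        1 - ((T q).card : ℝ) * gq q := fun q hq => by
    obtain ⟨-, h2, -, h4⟩ := hQ q hq
    exact vp_fac k q (T q).card (by omega) h4
  constructor
  · unfold V1R
    have h1 : Real.exp (∑ q ∈ Q, -(k * (1 / (q : ℝ)) + 2 * k * (k + 1) * (1 / (q : ℝ) ^ 2))) ≤
        ∏ q ∈ Q, (1 - ((T q).card : ℝ) * gq q) := by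
      rw [Real.exp_sum]
      exact Finset.prod_le_prod (fun q _ => (Real.exp_pos _).le) fun q hq => (hfac q hq).2.2
    refine le_trans ?_ h1
    have h2 : ∑ q ∈ Q, -(k * (1 / (q : ℝ)) + 2 * k * (k + 1) * (1 / (q : ℝ) ^ 2)) =
        -(k * ∑ q ∈ Q, 1 / (q : ℝ)) - 2 * k * (k + 1) * ∑ q ∈ Q, 1 / (q : ℝ) ^ 2 := by
      rw [Finset.sum_neg_distrib, Finset.sum_add_distrib, ← Finset.mul_sum, ← Finset.mul_sum]
      ring
    rw [h2]
    have h3 : ∑ q ∈ Q, 1 / (q : ℝ) ≤ Real.log (Real.log (n + 1)) - Real.log (Real.log 2) +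
        C / Real.log 2 := by
      have hsub : Q ⊆ PR 2 ((n : ℝ) + 1) := by
        intro q hq
        obtain ⟨h4, h5, h6, -⟩ := hQ q hq
        rw [mem_PR]
        refine ⟨h4, by exact_mod_cast h4.two_le, ?_⟩
        have : (q : ℝ) ≤ n := by exact_mod_cast h6
        linarith
      have h4 := (abs_le.1 (hmer 2 ((n : ℝ) + 1) le_rfl (by linarith))).2
      have h5 := Finset.sum_le_sum_of_subset_of_nonneg (f := fun q : ℕ => 1 / (q : ℝ)) hsub
        fun q _ _ => by positivity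
      linarith
    have hln : Real.log (n + 1) ≤ 2 * L := by
      have h4 : (n : ℝ) + 1 ≤ (n : ℝ) ^ 2 := by nlinarith
      have h5 := Real.log_le_log (by linarith) h4
      rw [Real.log_pow] at h5
      exact_mod_cast h5
    have hln0 : 0 < Real.log (n + 1) := Real.log_pos (by linarith)
    have h4 : Real.log (Real.log (n + 1)) ≤ Real.log (2 * L) := Real.log_le_log hln0 hln
    have h5 := hsq Q
    have hk0 : (0 : ℝ) ≤ k := Nat.cast_nonneg _
    have h6 : -(k * Real.log (2 * L)) - c ≤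
        -(k * ∑ q ∈ Q, 1 / (q : ℝ)) - 2 * k * (k + 1) * ∑ q ∈ Q, 1 / (q : ℝ) ^ 2 := by
      have h7 : (k : ℝ) * ∑ q ∈ Q, 1 / (q : ℝ) ≤ k * (Real.log (2 * L) - Real.log (Real.log 2) +
          C / Real.log 2) := mul_le_mul_of_nonneg_left (by linarith) hk0
      have h8 : 2 * (k : ℝ) * (k + 1) * ∑ q ∈ Q, 1 / (q : ℝ) ^ 2 ≤ 2 * k * (k + 1) * Bs :=
        mul_le_mul_of_nonneg_left h5 (by positivity)
      rw [hc]
      linarith
    refine le_trans ?_ (Real.exp_le_exp.2 h6)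
    have h9 : Real.exp (-(k * Real.log (2 * L)) - c) = 1 / ((2 * L) ^ k * Real.exp c) := by
      rw [Real.exp_sub, Real.exp_neg, ← Real.log_pow, Real.exp_log (by positivity)]
      field_simp
    rw [h9]
    apply one_div_le_one_div_of_le (by positivity)
    calc (2 * L) ^ k * Real.exp c = L ^ k * (2 ^ k * Real.exp c) := by rw [mul_pow]; ring
      _ ≤ L ^ k * L := mul_le_mul_of_nonneg_left hL (by positivity)
      _ = L ^ (k + 1) := by rw [pow_succ]
  · unfold V1R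
    exact Finset.prod_le_one (fun q hq => (hfac q hq).1.le) fun q hq => (hfac q hq).2.1

theorem vp_tel (W M : ℕ) (hW : 1 ≤ W) (hM : W ≤ M) :
    ∑ q ∈ Ioc W M, 1 / ((q : ℝ) * (q - 1)) ≤ 1 / W - 1 / M := by
  induction M, hM using Nat.le_induction with
  | base => simp
  | succ m hm ih =>
    rw [Finset.sum_Ioc_succ_top hm]
    have hm0 : (1 : ℝ) ≤ m := by exact_mod_cast hW.trans hm
    have h1 : 1 / (((m + 1 : ℕ) : ℝ) * (((m + 1 : ℕ) : ℝ) - 1)) = 1 / (m : ℝ) - 1 / ((m + 1 : ℕ) : ℝ) := by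
      push_cast
      have : (m : ℝ) + 1 - 1 = m := by ring
      rw [this]
      field_simp
      ring
    rw [h1]
    linarith

/-- Proof. `(1 - τ/q)/(1 - τ/(q-1)) = 1 + τ/(q (q - 1 - τ)) ≤ 1 + 2 k/q^2` and `∑_{q > W} 1/q^2 ≤ 1/W`: the quotient is `≤ exp (2 k/W) ≤ 2`. -/
theorem v0_le (k W : ℕ) (T : ℕ → Finset ℕ) (Q : Finset ℕ) (hW : 8 * k + 8 ≤ W)
    (hQ : ∀ q ∈ Q, q.Prime ∧ W < q ∧ (T q).card ≤ k) :
    V0R T Q ≤ 2 * V1R T Q ∧ 0 ≤ V1R T Q := by
  classical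
  have hfac : ∀ q ∈ Q, 0 < 1 - ((T q).card : ℝ) * gq q ∧ 1 - ((T q).card : ℝ) * gq q ≤ 1 ∧
      Real.exp (-(k * (1 / (q : ℝ)) + 2 * k * (k + 1) * (1 / (q : ℝ) ^ 2))) ≤
        1 - ((T q).card : ℝ) * gq q := fun q hq => by
    obtain ⟨-, h2, h4⟩ := hQ q hq
    exact vp_fac k q (T q).card (by omega) h4
  have hV1 : 0 ≤ V1R T Q := by
    unfold V1R
    exact Finset.prod_nonneg fun q hq => (hfac q hq).1.le
  refine ⟨?_, hV1⟩
  have hWr : (8 : ℝ) * k + 8 ≤ W := by exact_mod_cast hW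
  have hk0 : (0 : ℝ) ≤ k := Nat.cast_nonneg _
  have h1 : ∀ q ∈ Q, 0 ≤ 1 - ((T q).card : ℝ) * (1 / (q : ℝ)) ∧
      1 - ((T q).card : ℝ) * (1 / (q : ℝ)) ≤
        Real.exp (2 * k * (1 / ((q : ℝ) * (q - 1)))) * (1 - ((T q).card : ℝ) * gq q) := by
    intro q hq
    obtain ⟨hqp, hqW, hqT⟩ := hQ q hq
    have hqr : (W : ℝ) < q := by exact_mod_cast hqW
    have hτr : ((T q).card : ℝ) ≤ k := by exact_mod_cast hqT
    have hτ0 : (0 : ℝ) ≤ (T q).card := Nat.cast_nonneg _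
    have hq0 : (0 : ℝ) < q := by linarith
    have hq1 : (0 : ℝ) < q - 1 := by linarith
    constructor
    · have : ((T q).card : ℝ) * (1 / (q : ℝ)) ≤ 1 := by
        rw [mul_one_div, div_le_one hq0]
        linarith
      linarith
    · have h2 := Real.add_one_le_exp (2 * k * (1 / ((q : ℝ) * (q - 1))))
      refine le_trans ?_ (mul_le_mul_of_nonneg_right h2 (hfac q hq).1.le)
      unfold gq
      set τ : ℝ := ((T q).card : ℝ) with hτ
      have h3 : (2 * k * (1 / ((q : ℝ) * (q - 1))) + 1) * (1 - τ * (1 / ((q : ℝ) - 1))) -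
          (1 - τ * (1 / (q : ℝ))) = (2 * k * (q - 1 - τ) - τ * (q - 1)) / (q * (q - 1) ^ 2) := by
        field_simp
        ring
      have h4 : 0 ≤ (2 * k * (q - 1 - τ) - τ * (q - 1)) / (q * (q - 1) ^ 2) := by
        apply div_nonneg _ (by positivity)
        nlinarith
      linarith
  have h2 : V0R T Q ≤ ∏ q ∈ Q, (Real.exp (2 * k * (1 / ((q : ℝ) * (q - 1)))) *
      (1 - ((T q).card : ℝ) * gq q)) := by
    unfold V0R
    exact Finset.prod_le_prod (fun q hq => (h1 q hq).1) fun q hq => (h1 q hq).2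
  refine h2.trans ?_
  rw [Finset.prod_mul_distrib, ← Real.exp_sum]
  refine mul_le_mul_of_nonneg_right ?_ hV1
  rw [← Finset.mul_sum]
  have h3 : ∑ q ∈ Q, 1 / ((q : ℝ) * (q - 1)) ≤ 1 / W := by
    have hsub : Q ⊆ Ioc W (W + ∑ q ∈ Q, q) := by
      intro q hq
      rw [Finset.mem_Ioc]
      have : q ≤ ∑ q ∈ Q, q := Finset.single_le_sum (f := fun q => q) (fun _ _ => Nat.zero_le _) hq
      exact ⟨(hQ q hq).2.1, by omega⟩
    have h4 := vp_tel W (W + ∑ q ∈ Q, q) (by omega) (by omega)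
    have h5 := Finset.sum_le_sum_of_subset_of_nonneg (f := fun q : ℕ => 1 / ((q : ℝ) * (q - 1))) hsub
      fun q hq _ => by
        rw [Finset.mem_Ioc] at hq
        have : (1 : ℝ) ≤ q := by
          have : 1 ≤ q := by omega
          exact_mod_cast this
        have h6 : (0 : ℝ) ≤ q - 1 := by linarith
        positivity
    have h6 : (0 : ℝ) ≤ 1 / ((W + ∑ q ∈ Q, q : ℕ) : ℝ) := by positivity
    linarith
  have h4 : 2 * k * ∑ q ∈ Q, 1 / ((q : ℝ) * (q - 1)) ≤ 1 / 4 := by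
    have h5 : 2 * (k : ℝ) * ∑ q ∈ Q, 1 / ((q : ℝ) * (q - 1)) ≤ 2 * k * (1 / W) :=
      mul_le_mul_of_nonneg_left h3 (by positivity)
    refine h5.trans ?_
    rw [mul_one_div, div_le_div_iff₀ (by linarith) (by norm_num)]
    linarith
  have h5 : Real.exp (2 * k * ∑ q ∈ Q, 1 / ((q : ℝ) * (q - 1))) ≤ Real.exp (1 / 4) :=
    Real.exp_le_exp.2 h4
  refine h5.trans ?_
  have h6 := Real.exp_bound_div_one_sub_of_interval (show (0 : ℝ) ≤ 1 / 4 by norm_num)
    (show (1 : ℝ) / 4 < 1 by norm_num)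
  refine h6.trans ?_
  norm_num

/-- Proof. `1 - (τ+1)/q ≤ (1 - τ/q)(1 - 1/q)`, so `V2R ≤ V0R ∏_{Q2} (1 - 1/q) ≤ 2 V1R ∏_{Q2} (1 - 1/q)`. `Q2` contains all primes in `(W, z2]` except those of `Z`, at most
`log^2 n` primes `> W ≥ log^3 n`: `∏_{Q2} (1 - 1/q) ≤ exp (-∑_{W < q ≤ z2} 1/q + log^2 n/W)`, and by `mertens` this is `≤ C log W/log z2`, `log z2 ≥ log n/(2 se k)`. -/
theorem v2_le (k : ℕ) (hk : 1 ≤ k) : ∃ C : ℝ, 0 < C ∧ ∀ B : ℕ, 3 ≤ B → ∃ n0 : ℕ, ∀ n : ℕ,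
    n0 ≤ n → ∀ (W : ℕ) (T : ℕ → Finset ℕ) (P' Z : Finset ℕ), W = ⌈Real.log n ^ B⌉₊ →
    (∀ q ∈ P', q.Prime ∧ W < q ∧ (T q).card ≤ k) → (Z.card : ℝ) ≤ Real.log n ^ 2 →
    (∀ q : ℕ, q.Prime → W < q → q ≤ n → q ∈ P' ∨ q ∈ Z) →
    Real.log n * V2R T (Q2 P' n k) ≤ C * Real.log W * V1R T (Q2 P' n k) := by
  classical
  obtain ⟨C1, hC1, hmer⟩ := mertens
  have hl2 : 0 < Real.log 2 := Real.log_pos (by norm_num)
  set C' : ℝ := C1 / Real.log 2 with hC'
  have hC'0 : 0 < C' := by positivity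
  have hse : 0 < se k := by unfold se; positivity
  have hse1 : 1 ≤ se k := by
    unfold se
    have : (0 : ℝ) ≤ k := Nat.cast_nonneg _
    linarith
  refine ⟨4 * se k * Real.exp (C' + 1), by positivity, fun B hB => ?_⟩
  obtain ⟨n0, hn0⟩ := vp_large B (1 / se k) (8 * k + 8) (by positivity)
  refine ⟨n0, fun n hn W T P' Z hW hP' hZ hall => ?_⟩
  obtain ⟨hn1000, hL, hlarge⟩ := hn0 n hn
  set L : ℝ := Real.log n with hLd
  have hk0 : (0 : ℝ) ≤ k := Nat.cast_nonneg _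
  have hL8 : 8 ≤ L := by linarith
  have hL0 : 0 < L := by linarith
  have hnr : (1000 : ℝ) ≤ n := by exact_mod_cast hn1000
  have hn0' : (0 : ℝ) < n := by linarith
  have hWl : L ^ B ≤ W := by rw [hW]; exact Nat.le_ceil _
  have hWu : (W : ℝ) ≤ L ^ B + 1 := by
    rw [hW]
    exact (Nat.ceil_lt_add_one (by positivity)).le
  have hW3 : L ^ 3 ≤ W := (pow_le_pow_right₀ (by linarith) hB).trans hWl
  have hWL : L ≤ W := by
    refine le_trans ?_ hW3
    calc L = L ^ 1 := (pow_one L).symm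
      _ ≤ L ^ 3 := pow_le_pow_right₀ (by linarith) (by norm_num)
  have hW8 : 8 * k + 8 ≤ W := by
    have : ((8 * k + 8 : ℕ) : ℝ) ≤ W := by push_cast; linarith
    exact_mod_cast this
  have hWr : (8 : ℝ) ≤ W := by linarith
  set u : ℝ := (W : ℝ) + 1 with hu
  set v : ℝ := (n : ℝ) ^ (1 / se k) with hv
  have hu2 : 2 ≤ u := by linarith
  have huv : u ≤ v := by linarith
  have hvn : v ≤ n := by
    calc v ≤ (n : ℝ) ^ (1 : ℝ) := Real.rpow_le_rpow_of_exponent_le (by linarith) (by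
          rw [div_le_one hse]; exact hse1)
      _ = n := Real.rpow_one _
  have hlv : Real.log v = L / se k := by
    rw [hv, Real.log_rpow hn0']
    ring
  have hlu : 0 < Real.log u := Real.log_pos (by linarith)
  have hlu2 : Real.log 2 ≤ Real.log u := Real.log_le_log (by norm_num) hu2
  have hCu : C1 / Real.log u ≤ C' := div_le_div_of_nonneg_left hC1.le hl2 hlu2
  have hlW : 0 < Real.log W := Real.log_pos (by linarith)
  have hluW : Real.log u ≤ 2 * Real.log W := by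
    have h1 : u ≤ (W : ℝ) ^ 2 := by nlinarith
    have h2 := Real.log_le_log (by linarith) h1
    rw [Real.log_pow] at h2
    exact_mod_cast h2
  set Q := Q2 P' n k with hQ
  have hQm : ∀ q ∈ Q, q.Prime ∧ W < q ∧ (T q).card ≤ k := fun q hq =>
    hP' q (Finset.mem_filter.1 hq).1
  obtain ⟨hV0, hV1⟩ := v0_le k W T Q hW8 hQm
  have hstep : V2R T Q ≤ V0R T Q * ∏ q ∈ Q, (1 - 1 / (q : ℝ)) := by
    unfold V2R V0R
    rw [← Finset.prod_mul_distrib]
    refine Finset.prod_le_prod (fun q hq => ?_) fun q hq => ?_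
    · obtain ⟨-, h2, h3⟩ := hQm q hq
      have h4 : (W : ℝ) < q := by exact_mod_cast h2
      have h5 : ((T q).card : ℝ) ≤ k := by exact_mod_cast h3
      have h6 : (8 : ℝ) * k + 8 ≤ W := by exact_mod_cast hW8
      have h7 : (((T q).card : ℝ) + 1) * (1 / (q : ℝ)) ≤ 1 := by
        rw [mul_one_div, div_le_one (by linarith)]
        linarith
      linarith
    · have h1 : (1 - ((T q).card : ℝ) * (1 / (q : ℝ))) * (1 - 1 / (q : ℝ)) -
          (1 - (((T q).card : ℝ) + 1) * (1 / (q : ℝ))) = (T q).card * (1 / (q : ℝ)) ^ 2 := by ring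
      have h2 : 0 ≤ ((T q).card : ℝ) * (1 / (q : ℝ)) ^ 2 := by positivity
      linarith
  have hup : ∏ q ∈ Q, (1 - 1 / (q : ℝ)) ≤ Real.exp (-∑ q ∈ Q, 1 / (q : ℝ)) := by
    rw [← Finset.sum_neg_distrib, Real.exp_sum]
    refine Finset.prod_le_prod (fun q hq => ?_) fun q hq => Real.one_sub_le_exp_neg _
    have h2 := (hQm q hq).2.1
    have h3 : (W : ℝ) < q := by exact_mod_cast h2
    have h4 : 1 / (q : ℝ) ≤ 1 := by
      rw [div_le_one (by linarith)]
      linarith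
    linarith
  have hup0 : 0 ≤ ∏ q ∈ Q, (1 - 1 / (q : ℝ)) := by
    refine Finset.prod_nonneg fun q hq => ?_
    have h2 := (hQm q hq).2.1
    have h3 : (W : ℝ) < q := by exact_mod_cast h2
    have h4 : 1 / (q : ℝ) ≤ 1 := by
      rw [div_le_one (by linarith)]
      linarith
    linarith
  have hZ1 : ∑ q ∈ (PR u v).filter (fun q => q ∈ Z), 1 / (q : ℝ) ≤ 1 := by
    have h1 : ∀ q ∈ (PR u v).filter (fun q => q ∈ Z), 1 / (q : ℝ) ≤ 1 / (W : ℝ) := by
      intro q hq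
      rw [Finset.mem_filter, mem_PR] at hq
      exact one_div_le_one_div_of_le (by linarith) (by linarith [hq.1.2.1])
    have h2 : ∑ q ∈ (PR u v).filter (fun q => q ∈ Z), 1 / (q : ℝ) ≤
        ((PR u v).filter (fun q => q ∈ Z)).card * (1 / (W : ℝ)) := by
      have := Finset.sum_le_card_nsmul _ _ _ h1
      rwa [nsmul_eq_mul] at this
    refine h2.trans ?_
    have h3 : L ^ 2 ≤ W := by
      refine le_trans ?_ hW3
      exact pow_le_pow_right₀ (by linarith) (by norm_num)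
    have h4 : (((PR u v).filter (fun q => q ∈ Z)).card : ℝ) ≤ Z.card := by
      have : ((PR u v).filter (fun q => q ∈ Z)).card ≤ Z.card :=
        Finset.card_le_card fun q hq => (Finset.mem_filter.1 hq).2
      exact_mod_cast this
    rw [mul_one_div, div_le_one (by linarith)]
    linarith
  have hsub : PR u v ⊆ Q ∪ (PR u v).filter (fun q => q ∈ Z) := by
    intro q hq
    have hq' := hq
    rw [mem_PR] at hq
    obtain ⟨hqp, hqu, hqv⟩ := hq
    have hWq : W < q := by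
      have : ((W + 1 : ℕ) : ℝ) ≤ q := by push_cast; exact hqu
      have : W + 1 ≤ q := by exact_mod_cast this
      omega
    have hqN : q ≤ n := by
      have : (q : ℝ) ≤ n := hqv.le.trans hvn
      exact_mod_cast this
    rw [Finset.mem_union]
    rcases hall q hqp hWq hqN with h | h
    · left
      rw [hQ]
      unfold Q2
      rw [Finset.mem_filter]
      exact ⟨h, Nat.le_floor hqv.le⟩
    · right
      rw [Finset.mem_filter]
      exact ⟨hq', h⟩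
  have hsumQ : Real.log (Real.log v) - Real.log (Real.log u) - C' - 1 ≤ ∑ q ∈ Q, 1 / (q : ℝ) := by
    have h1 := (abs_le.1 (hmer u v hu2 huv)).1
    have h2 : ∑ q ∈ PR u v, 1 / (q : ℝ) ≤ ∑ q ∈ Q, 1 / (q : ℝ) +
        ∑ q ∈ (PR u v).filter (fun q => q ∈ Z), 1 / (q : ℝ) := by
      refine (Finset.sum_le_sum_of_subset_of_nonneg hsub fun q _ _ => by positivity).trans ?_
      rw [← Finset.sum_union_inter]
      have : 0 ≤ ∑ q ∈ Q ∩ (PR u v).filter (fun q => q ∈ Z), 1 / (q : ℝ) :=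
        Finset.sum_nonneg fun q _ => by positivity
      linarith
    linarith
  have hprodQ : ∏ q ∈ Q, (1 - 1 / (q : ℝ)) ≤ (Real.log u / (L / se k)) * Real.exp (C' + 1) := by
    refine hup.trans ?_
    have h1 : -∑ q ∈ Q, 1 / (q : ℝ) ≤
        (Real.log (Real.log u) - Real.log (Real.log v)) + (C' + 1) := by linarith
    refine (Real.exp_le_exp.2 h1).trans (le_of_eq ?_)
    have hlv0 : 0 < Real.log v := by rw [hlv]; positivity
    rw [Real.exp_add, Real.exp_sub, Real.exp_log hlu, Real.exp_log hlv0, hlv]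
  calc L * V2R T Q ≤ L * (V0R T Q * ∏ q ∈ Q, (1 - 1 / (q : ℝ))) :=
        mul_le_mul_of_nonneg_left hstep hL0.le
    _ ≤ L * ((2 * V1R T Q) * ((Real.log u / (L / se k)) * Real.exp (C' + 1))) := by
        refine mul_le_mul_of_nonneg_left ?_ hL0.le
        exact mul_le_mul hV0 hprodQ hup0 (by positivity)
    _ = 2 * se k * Real.exp (C' + 1) * V1R T Q * Real.log u := by
        field_simp
    _ ≤ 2 * se k * Real.exp (C' + 1) * V1R T Q * (2 * Real.log W) :=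
        mul_le_mul_of_nonneg_left hluW (by positivity)
    _ = 4 * se k * Real.exp (C' + 1) * Real.log W * V1R T Q := by ring

end Pool.Agent.Lib.H57C
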