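import Pool.Agent.Lib.H57C.L1
import Pool.Agent.Lib.H57C.VP
import Pool.Agent.Lib.H59C.C0

/-!
# Chunk F1: the exceptional prime
-/

open Finset

namespace Pool.Agent.Lib.H57C

open Pool.Agent.Lib.H57M
open Pool.Agent.Lib.H59C (gq XX Win)

theorem f1_XX : ∃ n0 : ℕ, ∀ n : ℕ, n0 ≤ n → ∀ h : ℕ, h * 100 ≤ n →
    (n : ℝ) / 20 ≤ XX (Ya n + h) (Yb n + h) := by
  obtain ⟨n0, hn0⟩ := H59C.XX_bounds (1 / 4) (by norm_num)
  refine ⟨max n0 1000, fun n hn h hh => ?_⟩
  have hn1 : n0 ≤ n := (le_max_left _ _).trans hn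
  have hn2 : 1000 ≤ n := (le_max_right _ _).trans hn
  have hW : Win n (2 * n) (Ya n + h) (Yb n + h) := by
    unfold Ya Yb
    refine ⟨by omega, by omega, by omega, by omega, by omega, by omega, by omega, Or.inl ⟨by omega, by omega⟩⟩
  have h1 := (hn0 n hn1 (2 * n) _ _ hW).1
  refine le_trans ?_ h1
  have h2 : n ≤ 10 * (Yb n + h - (Ya n + h)) + 10 := by unfold Ya Yb; omega
  have h3 : Ya n + h ≤ Yb n + h := by unfold Ya Yb; omega
  have h4 : (n : ℝ) ≤ 10 * (((Yb n + h : ℕ) : ℝ) - ((Ya n + h : ℕ) : ℝ)) + 10 := by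
    rw [← Nat.cast_sub h3]
    exact_mod_cast h2
  have h5 : (1000 : ℝ) ≤ n := by exact_mod_cast hn2
  linarith

/-- Size of the main term. Proof. `XX (Ya n + h) (Yb n + h) ≥ n/20` (`XX_bounds` in `H59C/C0.lean` with `Win n (2 n) (Ya n + h) (Yb n + h)`; `h ≤ W ≤ n/100`),
`AE ≥ 36/100 (1 + n c)^2` (`aes`, `w.c ≥ 0`), `VbR ≥ (log W/4) VaR` and `VbR ≥ VaR ≥ 1/L` (`vbR_ge`, `vaR_low` with `K + k`), `V1R ≥ 1/L^(k+1)` (`v1_low`):
`XhR V1R ≥ (n/20) (36/100) L^(-1) L^(-k-1) ≥ n/L^(k+3)`. -/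
theorem mainR_low (K B cF k : ℕ) (θ Ga : ℝ) (hK : 1 ≤ K) (hk : 1 ≤ k) (hB : 3 ≤ B) :
    ∃ n0 : ℕ, ∀ n : ℕ, n0 ≤ n → ∀ (w : Par K) (H : Finset ℕ) (p1 : ℕ)
    (R T : ℕ → Finset ℕ) (P' : Finset ℕ), Reg2 B cF k θ Ga w H n p1 R T P' →
    (∀ q ∈ P', q ≤ n) → ∀ h ∈ H,
    n / Real.log n ^ (k + 3) ≤ XhR w H n p1 h R * V1R T (Q2 P' n k) ∧
    n / 20 * (36 / 100 * (1 + w.n * w.c) ^ 2 * (Real.log w.W / 4 * VaR (Ps w.W p1) R)) *
      V1R T (Q2 P' n k) ≤ XhR w H n p1 h R * V1R T (Q2 P' n k) ∧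
    0 ≤ VaR (Ps w.W p1) R ∧ 0 ≤ V1R T (Q2 P' n k) := by
  obtain ⟨n1, hn1⟩ := l1_facts k B hB
  obtain ⟨n2, hn2⟩ := f1_XX
  obtain ⟨n3, hn3⟩ := v1_low k hk
  obtain ⟨n4, hn4⟩ := vaR_low (K + k) B (by omega)
  refine ⟨max (max n1 n2) (max n3 n4), fun n hn w H p1 R T P' hR hPn h hh => ?_⟩
  have hN1 : n1 ≤ n := ((le_max_left _ _).trans (le_max_left _ _)).trans hn
  have hN2 : n2 ≤ n := ((le_max_right _ _).trans (le_max_left _ _)).trans hn
  have hN3 : n3 ≤ n := ((le_max_left _ _).trans (le_max_right _ _)).trans hn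
  have hN4 : n4 ≤ n := ((le_max_right _ _).trans (le_max_right _ _)).trans hn
  obtain ⟨hn1000, hL, hW3, hW8, hWv, hz, hWn⟩ := hn1 n hN1 w.W hR.Wdef
  have hQ := l1_Q (n := n) (k := k) hR.P'p hR.Tk
  have hXX := hn2 n hN2 h (by have := hR.HW h hh; omega)
  obtain ⟨hV1, -⟩ := hn3 n hN3 w.W T (Q2 P' n k) (by omega) fun q hq => by
    obtain ⟨h1, h2, h3, -, h5⟩ := hQ q hq
    exact ⟨h1, h2, hPn q h5, h3⟩
  obtain ⟨hVa, -⟩ := hn4 n hN4 w.W p1 R hR.Wdef hR.Rk hR.Rq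
  have hVa0 := l1_VaR hR.Rq
  obtain ⟨hVb1, hVb2⟩ := vbR_ge w.W p1 R (by omega) hR.p1p hVa0
  set L : ℝ := Real.log n with hLd
  have hk0 : (0 : ℝ) ≤ k := Nat.cast_nonneg _
  have hL0 : 100 ≤ L := by linarith
  have hV10 : 0 ≤ V1R T (Q2 P' n k) := le_trans (by positivity) hV1
  have hae := hR.aes h hh
  have hn0 : (0 : ℝ) ≤ n := Nat.cast_nonneg _
  have hc0 : 0 ≤ (w.n : ℝ) * w.c := mul_nonneg (Nat.cast_nonneg _) w.c0
  have hVbn : 0 ≤ VbR (Ps w.W p1) R := l1_VbR hR.Rq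
  refine ⟨?_, ?_, hVa0, hV10⟩
  · have h1 : (36 : ℝ) / 100 ≤ AE w.P H (some h) (FC w H) := by
      refine le_trans ?_ hae
      nlinarith
    have h2 : 1 / L ≤ VbR (Ps w.W p1) R := hVa.trans hVb2
    have h3 : 36 / 100 * (1 / L) ≤ AE w.P H (some h) (FC w H) * VbR (Ps w.W p1) R :=
      mul_le_mul h1 h2 (by positivity) (by linarith)
    have h4 : n / 20 * (36 / 100 * (1 / L)) ≤ XhR w H n p1 h R := by
      unfold XhR
      exact mul_le_mul hXX h3 (by positivity) (le_trans (by positivity) hXX)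
    have h5 : n / 20 * (36 / 100 * (1 / L)) * (1 / L ^ (k + 1)) ≤ XhR w H n p1 h R * V1R T (Q2 P' n k) :=
      mul_le_mul h4 hV1 (by positivity) (le_trans (by positivity) h4)
    refine le_trans ?_ h5
    have h6 : n / 20 * (36 / 100 * (1 / L)) * (1 / L ^ (k + 1)) = (n / L ^ (k + 3)) * (36 / 2000 * L) := by
      have : L ^ (k + 3) = L ^ (k + 1) * L * L := by ring
      rw [this]
      field_simp
      norm_num
    rw [h6]
    have h7 : (1 : ℝ) ≤ 36 / 2000 * L := by linarith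
    exact le_mul_of_one_le_right (by positivity) h7
  · refine mul_le_mul_of_nonneg_right ?_ hV10
    unfold XhR
    refine mul_le_mul hXX ?_ (by positivity) (le_trans (by positivity) hXX)
    exact mul_le_mul hae hVb1 (by positivity) (le_trans (by positivity) hae)

/-- Proof. The primes `p = t + h` counted in `E1R`: `t % p1 = c0` for one of the at most `k` classes `c0 ∈ T p1`, and no `q ∈ Q2` has `t % q ∈ Tp T h q` (`q ≤ z2 < p`
does not divide the prime `p = t + h`). `lg p ≤ log (2 n)`. For every `c0`: `bhc` (or `bh`) with `k + 1`, `g q = (#T q + 1)/q`, `S` = the `t ∈ (Ya, Yb]`, `t ≡ c0 [MOD p1]`, weights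
`FF (some h) t Sg t`, `ev q t = t % q ∈ Tp T h q`, `Reg2.remJ`. So `E1R ≤ k log (2n) (2 (n/8)/p1 AE VaR V2R + n/L^(k+12))`; `v2_le`, and
`XhR V1R ≥ (n/20) AE (log W/4) VaR V1R`. -/
theorem E1R_up (k : ℕ) (hk : 1 ≤ k) : ∃ C : ℝ, 0 < C ∧ ∀ (K B cF : ℕ) (θ Ga : ℝ), 1 ≤ K →
    3 ≤ B → 0 < θ → θ ≤ 1 / 1000 → ∃ n0 : ℕ, ∀ n : ℕ, n0 ≤ n → ∀ (w : Par K) (H : Finset ℕ)
    (p1 : ℕ) (R T T2 : ℕ → Finset ℕ) (P' Z : Finset ℕ), Reg2 B cF k θ Ga w H n p1 R T P' →
    HZ k n w.W p1 T T2 P' Z → ∀ h ∈ H,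
    E1R w H n k p1 h R T P' ≤ C / p1 * (XhR w H n p1 h R * V1R T (Q2 P' n k)) +
      n / Real.log n ^ (k + 10) := by
  classical
  obtain ⟨C2, hC2, hv2⟩ := v2_le k hk
  refine ⟨20 * k * C2, by positivity, fun K B cF θ Ga hK hB hθ0 hθ => ?_⟩
  obtain ⟨n1, hn1⟩ := l1_facts k B hB
  obtain ⟨n2, hn2⟩ := f1_XX
  obtain ⟨n3, hn3⟩ := hv2 B hB
  refine ⟨max n1 (max n2 n3), fun n hn w H p1 R T T2 P' Z hR hZ h hh => ?_⟩
  have hN1 : n1 ≤ n := (le_max_left _ _).trans hn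
  have hN2 : n2 ≤ n := ((le_max_left _ _).trans (le_max_right _ _)).trans hn
  have hN3 : n3 ≤ n := ((le_max_right _ _).trans (le_max_right _ _)).trans hn
  obtain ⟨hn1000, hL, hW3, hW8, hWv, hz, hWn⟩ := hn1 n hN1 w.W hR.Wdef
  have hQ := l1_Q (n := n) (k := k) hR.P'p hR.Tk
  have hhW := hR.HW h hh
  have hXX := hn2 n hN2 h (by omega)
  have hv2' := hn3 n hN3 w.W T P' Z hR.Wdef
    (fun q hq => ⟨(hR.P'p q hq).1, (hR.P'p q hq).2, hR.Tk q hq⟩) hZ.Zc hZ.all
  set Q := Q2 P' n k with hQd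
  set L : ℝ := Real.log n with hLd
  have hk0 : (1 : ℝ) ≤ k := by exact_mod_cast hk
  have hL0 : 100 ≤ L := by linarith
  have hnr : (1000 : ℝ) ≤ n := by exact_mod_cast hn1000
  have hVa0 := l1_VaR hR.Rq
  obtain ⟨hVb1, -⟩ := vbR_ge w.W p1 R (by omega) hR.p1p hVa0
  obtain ⟨hAE, hXh⟩ := l1_XhR hR hh
  have hYab : (Ya n : ℝ) ≤ Yb n := by
    have : Ya n ≤ Yb n := by unfold Ya Yb; omega
    exact_mod_cast this
  have hYd : (Yb n : ℝ) - Ya n ≤ n / 8 := by
    have h1 : 8 * Yb n ≤ 8 * Ya n + n := by unfold Ya Yb; omega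
    have h2 : (8 : ℝ) * Yb n ≤ 8 * Ya n + n := by exact_mod_cast h1
    linarith
  have hp1r : (0 : ℝ) < p1 := by exact_mod_cast hR.p1p.pos
  set X : ℝ := ((Yb n : ℝ) - Ya n) / p1 * (AE w.P H (some h) (FC w H) * VaR (Ps w.W p1) R) with hX
  have hX0 : 0 ≤ X := mul_nonneg (div_nonneg (by linarith) hp1r.le) (mul_nonneg hAE hVa0)
  have hV10 : 0 ≤ V1R T Q :=
    (v0_le k w.W T Q (by omega) fun q hq => ⟨(hQ q hq).1, (hQ q hq).2.1, (hQ q hq).2.2.1⟩).2
  -- the sieve in one class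
  have hone : ∀ c0 : ℕ, ∑ t ∈ (Ioc (Ya n) (Yb n)).filter
      (fun t => t ≡ c0 [MOD p1] ∧ ∀ q ∈ Q, t % q ∉ Tp T h q),
      FF w H (some h) t * Sg (Ps w.W p1) R t ≤ 2 * X * V2R T Q + n / L ^ (k + 12) := by
    intro c0
    have hrem := hR.remJ h hh c0
    have hbh := (bh (k + 1) (z2 n k) hz (by omega) Q
      (fun q hq => by
        obtain ⟨h1, h2, h3, h4, -⟩ := hQ q hq
        exact ⟨h1, by omega, h4⟩) (fun q => (((T q).card : ℝ) + 1) * (1 / (q : ℝ)))
      (fun q => by positivity)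
      (fun q hq => by
        have h3 := (hQ q hq).2.2.1
        have h4 : ((T q).card : ℝ) + 1 ≤ ((k + 1 : ℕ) : ℝ) := by exact_mod_cast Nat.succ_le_succ h3
        rw [mul_one_div]
        exact div_le_div_of_nonneg_right h4 (Nat.cast_nonneg _))
      ((Ioc (Ya n) (Yb n)).filter (fun t => t ≡ c0 [MOD p1]))
      (fun t => FF w H (some h) t * Sg (Ps w.W p1) R t)
      (fun t _ => mul_nonneg (l1_FF _ _ _ _) (l1_Sg _ _ _))
      (fun q t => t % q ∈ Tp T h q) X hX0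
      (n / L ^ (k + 12)) (by
        refine le_trans ?_ hrem
        have hlev : z2 n k ^ (96 * (k + 1) + 10) ≤ Lv n θ := by
          refine le_trans ?_ (l1_Lv n k θ (by omega) hθ0 hθ)
          exact Nat.pow_le_pow_right (by omega) (by omega)
        have hsub : (Icc 1 (z2 n k ^ (96 * (k + 1) + 10))).filter
            (fun d => Squarefree d ∧ ∀ q ∈ d.primeFactors, q ∈ Q) ⊆ Dv P' (Lv n θ) := by
          intro d hd
          rw [Finset.mem_filter, Finset.mem_Icc] at hd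
          unfold Dv
          rw [Finset.mem_filter, Finset.mem_Icc]
          exact ⟨⟨hd.1.1, hd.1.2.trans hlev⟩, hd.2.1,
            fun q hq => (hQ q (hd.2.2 q hq)).2.2.2.2⟩
        refine le_trans (le_of_eq ?_) (Finset.sum_le_sum_of_subset_of_nonneg hsub fun d _ _ => abs_nonneg _)
        refine Finset.sum_congr rfl fun d hd => ?_
        rw [Finset.mem_filter] at hd
        congr 2
        refine Finset.sum_congr ?_ fun _ _ => rfl
        ext t
        simp only [Finset.mem_filter, inT, and_assoc])).2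
    refine le_trans (le_of_eq ?_) hbh
    refine Finset.sum_congr ?_ fun _ _ => rfl
    ext t
    simp only [Finset.mem_filter, and_assoc]
  -- the primes
  have hSh : ∀ p ∈ Sh n h, p.Prime ∧ Ya n + h < p ∧ p ≤ Yb n + h := by
    intro p hp
    unfold Sh H59C.Sq at hp
    rw [Finset.mem_filter, Finset.mem_Ioc] at hp
    exact ⟨hp.2, hp.1.1, hp.1.2⟩
  have hYbn : Yb n + h ≤ n := by unfold Yb; omega
  have hYa4 : n ≤ 4 * Ya n := by unfold Ya; omega
  have hz2 : z2 n k < Ya n := by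
    have hse := l1_se k
    set v : ℝ := (n : ℝ) ^ (1 / se k) with hv
    have h1 : v ^ se k = n := by
      rw [hv, ← Real.rpow_mul (by linarith), one_div, inv_mul_cancel₀ (by linarith), Real.rpow_one]
    have hv100 : 100 ≤ v := by
      have : (100 : ℝ) ≤ w.W := by
        have : 100 ≤ L ^ 3 := by
          calc (100 : ℝ) ≤ L := hL0
            _ = L ^ 1 := (pow_one L).symm
            _ ≤ L ^ 3 := pow_le_pow_right₀ (by linarith) (by norm_num)
        linarith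
      linarith
    have h2 : v ^ (2 : ℝ) ≤ v ^ se k := Real.rpow_le_rpow_of_exponent_le (by linarith) (by linarith)
    rw [h1, Real.rpow_two] at h2
    have h3 : (z2 n k : ℝ) ≤ v := Nat.floor_le (by positivity)
    have h4 : (n : ℝ) ≤ 4 * Ya n := by exact_mod_cast hYa4
    have h5 : (z2 n k : ℝ) < Ya n := by nlinarith
    exact_mod_cast h5
  have hE : E1R w H n k p1 h R T P' ≤ L * ∑ c0 ∈ T p1, ∑ t ∈ (Ioc (Ya n) (Yb n)).filter
      (fun t => t ≡ c0 [MOD p1] ∧ ∀ q ∈ Q, t % q ∉ Tp T h q),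
      FF w H (some h) t * Sg (Ps w.W p1) R t := by
    have h1 : ∀ p ∈ (Sh n h).filter
        (fun p => (p - h) % p1 ∈ T p1 ∧ ∀ q ∈ Q, (p - h) % q ∉ T q),
        whR w H p1 h R p ≤ L * (FF w H (some h) (p - h) * Sg (Ps w.W p1) R (p - h)) := by
      intro p hp
      obtain ⟨hpp, hp1, hp2⟩ := hSh p (Finset.mem_filter.1 hp).1
      unfold whR
      refine mul_le_mul_of_nonneg_right ?_ (mul_nonneg (l1_FF _ _ _ _) (l1_Sg _ _ _))
      unfold H59C.lg
      refine Real.log_le_log (by exact_mod_cast hpp.pos) ?_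
      exact_mod_cast hp2.trans hYbn
    unfold E1R
    rw [← hQd]
    refine (Finset.sum_le_sum h1).trans ?_
    rw [← Finset.mul_sum]
    refine mul_le_mul_of_nonneg_left ?_ (by linarith)
    set A := ((Sh n h).filter
          (fun p => (p - h) % p1 ∈ T p1 ∧ ∀ q ∈ Q, (p - h) % q ∉ T q)).image (fun p => p - h) with hA
    have hinj : Set.InjOn (fun p => p - h) (((Sh n h).filter
        (fun p => (p - h) % p1 ∈ T p1 ∧ ∀ q ∈ Q, (p - h) % q ∉ T q) : Finset ℕ) : Set ℕ) := by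
      intro p hp p' hp' heq
      obtain ⟨-, h2, -⟩ := hSh p (Finset.mem_filter.1 (Finset.mem_coe.1 hp)).1
      obtain ⟨-, h3, -⟩ := hSh p' (Finset.mem_filter.1 (Finset.mem_coe.1 hp')).1
      simp only at heq
      omega
    have hAm : ∀ t ∈ A, t % p1 ∈ T p1 ∧ t ∈ Ioc (Ya n) (Yb n) ∧ ∀ q ∈ Q, t % q ∉ Tp T h q := by
      intro t ht
      rw [hA, Finset.mem_image] at ht
      obtain ⟨p, hp, rfl⟩ := ht
      obtain ⟨hps, hpd, hpq⟩ := Finset.mem_filter.1 hp
      obtain ⟨hpp, hpl, hpu⟩ := hSh p hps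
      refine ⟨hpd, ?_, ?_⟩
      · rw [Finset.mem_Ioc]
        omega
      · intro q hq hmem
        obtain ⟨hqp, hqW, -, hqz, -⟩ := hQ q hq
        unfold Tp at hmem
        rw [Finset.mem_filter] at hmem
        rcases hmem.2 with h2 | h2
        · exact hpq q hq h2
        · have h3 : q ∣ p - h + h := by
            have h4 : q ∣ (p - h) % q + h + q * ((p - h) / q) := Dvd.dvd.add h2 (dvd_mul_right _ _)
            have h5 : (p - h) % q + h + q * ((p - h) / q) = p - h + h := by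
              have := Nat.mod_add_div (p - h) q
              omega
            rwa [h5] at h4
          have h6 : p - h + h = p := by omega
          rw [h6] at h3
          have h7 : q = p := (Nat.prime_dvd_prime_iff_eq hqp hpp).1 h3
          omega
    rw [← Finset.sum_image (f := fun t => FF w H (some h) t * Sg (Ps w.W p1) R t) hinj, ← hA,
      ← Finset.sum_fiberwise_of_maps_to (s := A) (t := T p1) (g := fun t => t % p1)
        (fun t ht => (hAm t ht).1)]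
    refine Finset.sum_le_sum fun c0 _ => ?_
    refine Finset.sum_le_sum_of_subset_of_nonneg ?_ fun t _ _ =>
      mul_nonneg (l1_FF _ _ _ _) (l1_Sg _ _ _)
    intro t ht
    rw [Finset.mem_filter] at ht
    obtain ⟨-, h2, h3⟩ := hAm t ht.1
    rw [Finset.mem_filter]
    refine ⟨h2, ?_, h3⟩
    have h4 : t % p1 = c0 := ht.2
    rw [← h4]
    exact (Nat.mod_modEq _ _).symm
  have hV2 : 0 ≤ V2R T Q := by
    unfold V2R
    refine Finset.prod_nonneg fun q hq => ?_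
    obtain ⟨h1, h2, h3, -, -⟩ := hQ q hq
    have h4 : ((T q).card : ℝ) + 1 ≤ q := by
      have : (T q).card + 1 ≤ q := by omega
      exact_mod_cast this
    have h5 : (((T q).card : ℝ) + 1) * (1 / (q : ℝ)) ≤ 1 := by
      rw [mul_one_div]
      exact div_le_one_of_le₀ h4 (Nat.cast_nonneg _)
    linarith
  have hLp : (0 : ℝ) < L ^ (k + 12) := by positivity
  have hsum : ∑ c0 ∈ T p1, ∑ t ∈ (Ioc (Ya n) (Yb n)).filter
      (fun t => t ≡ c0 [MOD p1] ∧ ∀ q ∈ Q, t % q ∉ Tp T h q),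
      FF w H (some h) t * Sg (Ps w.W p1) R t ≤ k * (2 * X * V2R T Q + n / L ^ (k + 12)) := by
    refine (Finset.sum_le_sum fun c0 _ => hone c0).trans ?_
    rw [Finset.sum_const, nsmul_eq_mul]
    refine mul_le_mul_of_nonneg_right (by exact_mod_cast hZ.T1) ?_
    positivity
  refine (hE.trans (mul_le_mul_of_nonneg_left hsum (by linarith))).trans ?_
  have hL1 : L * (k * (2 * X * V2R T Q + n / L ^ (k + 12))) =
      2 * k * X * (L * V2R T Q) + (n / L ^ (k + 10)) * (k / L) := by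
    have e : L ^ (k + 12) = L ^ (k + 10) * L * L := by ring
    rw [e]
    field_simp
  rw [hL1]
  refine add_le_add ?_ ?_
  · have h1 : 2 * k * X * (L * V2R T Q) ≤ 2 * k * X * (C2 * Real.log w.W * V1R T Q) :=
      mul_le_mul_of_nonneg_left hv2' (by positivity)
    refine h1.trans ?_
    have h4 : Real.log w.W * VaR (Ps w.W p1) R ≤ 4 * VbR (Ps w.W p1) R := by linarith
    have h5 : ((Yb n : ℝ) - Ya n) ≤ 5 / 2 * XX (Ya n + h) (Yb n + h) := by linarith
    have hlW : 0 ≤ Real.log w.W := Real.log_nonneg (by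
      have : 1 ≤ w.W := by omega
      exact_mod_cast this)
    have h6 : ((Yb n : ℝ) - Ya n) * (Real.log w.W * VaR (Ps w.W p1) R) ≤
        (5 / 2 * XX (Ya n + h) (Yb n + h)) * (4 * VbR (Ps w.W p1) R) :=
      mul_le_mul h5 h4 (mul_nonneg hlW hVa0) (by linarith)
    have h7 : 0 ≤ 2 * k * C2 / p1 * AE w.P H (some h) (FC w H) * V1R T Q := by positivity
    have h8 := mul_le_mul_of_nonneg_left h6 h7
    unfold XhR
    calc 2 * k * X * (C2 * Real.log w.W * V1R T Q) = 2 * k * C2 / p1 * AE w.P H (some h) (FC w H) *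
          V1R T Q * (((Yb n : ℝ) - Ya n) * (Real.log w.W * VaR (Ps w.W p1) R)) := by
          rw [hX]
          ring
      _ ≤ _ := h8
      _ = _ := by ring
  · refine mul_le_of_le_one_right (by positivity) ?_
    rw [div_le_one (by linarith)]
    linarith

end Pool.Agent.Lib.H57C
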