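import Pool.Agent.Lib.H57C.P2

/-!
# Chunk F2: bad primes and squares
-/

open Finset

namespace Pool.Agent.Lib.H57C

open Pool.Agent.Lib.H57M

theorem F2_FF {K : ℕ} (w : Par K) (H : Finset ℕ) (i : Option ℕ) (t : ℕ) : 0 ≤ FF w H i t := by
  have hz : 0 ≤ w.z := by
    unfold Par.z
    have : 0 ≤ ∑ i, H15P.ex (H15P.qq w.P K) (fun A => w.D i A ^ 2) :=
      Finset.sum_nonneg fun i _ => H15P.ex_nonneg _ w.good.q0 w.good.q1 _ fun A => sq_nonneg _
    linarith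
  unfold FF
  exact div_nonneg (sq_nonneg _) (pow_nonneg hz _)

theorem F2_ev (k : ℕ) (s C : ℝ) (hs : 0 < s) (hC : 0 < C) : ∃ n0 : ℕ, ∀ N : ℕ, n0 ≤ N →
    C * Real.log N ^ k ≤ (N : ℝ) ^ s := by
  have h1 : ∀ᶠ x : ℝ in Filter.atTop, C * Real.log x ^ k ≤ x ^ s := by
    have e1 := (isLittleO_log_rpow_rpow_atTop (k : ℝ) hs).def (show (0 : ℝ) < 1 / C by positivity)
    filter_upwards [e1, Filter.eventually_ge_atTop (1 : ℝ)] with x hx1 hx2
    have hl : 0 ≤ Real.log x := Real.log_nonneg hx2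
    rw [Real.rpow_natCast, Real.norm_eq_abs, Real.norm_eq_abs, abs_of_nonneg (pow_nonneg hl _),
      abs_of_nonneg (Real.rpow_nonneg (by linarith) _)] at hx1
    calc C * Real.log x ^ k ≤ C * (1 / C * x ^ s) := mul_le_mul_of_nonneg_left hx1 hC.le
      _ = x ^ s := by
          field_simp
  obtain ⟨n0, hn0⟩ := Filter.eventually_atTop.1
    ((tendsto_natCast_atTop_atTop (R := ℝ)).eventually h1)
  exact ⟨n0, hn0⟩

theorem F2_log (C : ℝ) : ∃ n0 : ℕ, ∀ N : ℕ, n0 ≤ N → C ≤ Real.log N :=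
  Filter.eventually_atTop.1
    ((Real.tendsto_log_atTop.comp (tendsto_natCast_atTop_atTop (R := ℝ))).eventually_ge_atTop C)

theorem F2_wh {K : ℕ} (w : Par K) (H : Finset ℕ) (p1 h : ℕ) (R : ℕ → Finset ℕ) (p : ℕ) :
    0 ≤ whR w H p1 h R p ∧ whR w H p1 h R p ≤ Real.log p * FF w H (some h) (p - h) := by
  have h0 := F2_FF w H (some h) (p - h)
  have h1 : 0 ≤ Real.log (p : ℝ) := Real.log_natCast_nonneg p
  unfold whR Sg Pool.Agent.Lib.H59C.lg
  split_ifs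
  · rw [mul_one]
    exact ⟨mul_nonneg h1 h0, le_refl _⟩
  · rw [mul_zero, mul_zero]
    exact ⟨le_refl _, mul_nonneg h1 h0⟩

theorem F2_one {K B cF k : ℕ} {θ Ga : ℝ} {n : ℕ} {w : Par K} {H : Finset ℕ} {p1 : ℕ}
    {R T : ℕ → Finset ℕ} {P' : Finset ℕ} (hR : Reg2 B cF k θ Ga w H n p1 R T P') {h : ℕ}
    (hh : h ∈ H) (hhn : 100 * h ≤ n) (m : ℕ)
    (hm : ∃ q : ℕ, q.Prime ∧ (m = q ∨ m = q ^ 2)) (C : Finset ℕ) (hC : C.card ≤ k) :
    ∑ p ∈ (Sh n h).filter (fun p => (p - h) % m ∈ C), whR w H p1 h R p ≤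
      k * (Real.log n * (Real.log n ^ B * (n / m) / Real.log n ^ (k + 22) +
        (n : ℝ) ^ (1 / 20 : ℝ))) := by
  have hL : 0 ≤ Real.log n := Real.log_natCast_nonneg _
  have hm1 : 1 ≤ m := by
    obtain ⟨q, hq, h1 | h1⟩ := hm
    · rw [h1]; exact hq.one_lt.le
    · rw [h1]; exact Nat.one_le_pow _ _ hq.pos
  have hpos : 0 ≤ Real.log n * (Real.log n ^ B * (n / m) / Real.log n ^ (k + 22) +
        (n : ℝ) ^ (1 / 20 : ℝ)) := by positivity
  -- one class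
  have hone : ∀ c ∈ C, ∑ p ∈ (Sh n h).filter (fun p => (p - h) % m = c), whR w H p1 h R p ≤
      Real.log n * (Real.log n ^ B * (n / m) / Real.log n ^ (k + 22) +
        (n : ℝ) ^ (1 / 20 : ℝ)) := by
    intro c _
    have key : ∀ p ∈ (Sh n h).filter (fun p => (p - h) % m = c),
        (p - h ∈ (Ioc (Ya n) (Yb n)).filter (fun t => t ≡ c [MOD m]) ∧ h < p) ∧
        whR w H p1 h R p ≤ Real.log n * FF w H (some h) (p - h) := by
      intro p hp
      unfold Sh at hp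
      rw [mem_filter, Pool.Agent.Lib.H59C.mem_Sq] at hp
      obtain ⟨⟨⟨h1, h2⟩, h3⟩, h4⟩ := hp
      have h6 : Yb n + h ≤ n := by unfold Yb; omega
      refine ⟨⟨?_, by omega⟩, ?_⟩
      · rw [mem_filter, mem_Ioc]
        refine ⟨⟨by omega, by omega⟩, ?_⟩
        rw [← h4]
        exact (Nat.mod_modEq _ _).symm
      · refine (F2_wh w H p1 h R p).2.trans ?_
        apply mul_le_mul_of_nonneg_right _ (F2_FF w H _ _)
        apply Real.log_le_log (by exact_mod_cast h3.pos)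
        exact_mod_cast (by omega : p ≤ n)
    have hinj : Set.InjOn (fun p => p - h) ((Sh n h).filter (fun p => (p - h) % m = c)) := by
      intro p hp p' hp' heq
      have h1 := (key p hp).1.2
      have h2 := (key p' hp').1.2
      simp only at heq
      omega
    calc ∑ p ∈ (Sh n h).filter (fun p => (p - h) % m = c), whR w H p1 h R p
        ≤ ∑ p ∈ (Sh n h).filter (fun p => (p - h) % m = c),
            Real.log n * FF w H (some h) (p - h) := sum_le_sum fun p hp => (key p hp).2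
      _ = ∑ t ∈ ((Sh n h).filter (fun p => (p - h) % m = c)).image (fun p => p - h),
            Real.log n * FF w H (some h) t := by rw [sum_image hinj]
      _ ≤ ∑ t ∈ (Ioc (Ya n) (Yb n)).filter (fun t => t ≡ c [MOD m]),
            Real.log n * FF w H (some h) t := by
          apply sum_le_sum_of_subset_of_nonneg
          · intro t ht
            rw [mem_image] at ht
            obtain ⟨p, hp, rfl⟩ := ht
            exact (key p hp).1.1
          · intro t _ _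
            exact mul_nonneg hL (F2_FF w H _ t)
      _ = Real.log n * ∑ t ∈ (Ioc (Ya n) (Yb n)).filter (fun t => t ≡ c [MOD m]),
            FF w H (some h) t := by rw [mul_sum]
      _ ≤ _ := mul_le_mul_of_nonneg_left (hR.cls h hh m c (Or.inl hm) hm1) hL
  have hsplit : ∑ p ∈ (Sh n h).filter (fun p => (p - h) % m ∈ C), whR w H p1 h R p =
      ∑ c ∈ C, ∑ p ∈ (Sh n h).filter (fun p => (p - h) % m = c), whR w H p1 h R p := by
    rw [sum_filter]
    have h1 : ∀ c, ∑ p ∈ (Sh n h).filter (fun p => (p - h) % m = c), whR w H p1 h R p =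
        ∑ p ∈ Sh n h, if (p - h) % m = c then whR w H p1 h R p else 0 := fun c => sum_filter _ _
    rw [sum_congr rfl fun c _ => h1 c, sum_comm]
    apply sum_congr rfl
    intro p _
    rw [sum_ite_eq]
  rw [hsplit]
  have hs := Finset.sum_le_card_nsmul _ _ _ hone
  rw [nsmul_eq_mul] at hs
  refine hs.trans (mul_le_mul_of_nonneg_right ?_ hpos)
  exact_mod_cast hC

theorem F2_h100 {K B cF k : ℕ} {θ Ga : ℝ} {n : ℕ} {w : Par K} {H : Finset ℕ} {p1 : ℕ}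
    {R T : ℕ → Finset ℕ} {P' : Finset ℕ} (hR : Reg2 B cF k θ Ga w H n p1 R T P') {h : ℕ}
    (hh : h ∈ H) (hL : 1 ≤ Real.log n) (hl : 200 * Real.log n ^ B ≤ (n : ℝ)) : 100 * h ≤ n := by
  have h1 : (w.W : ℝ) ≤ Real.log n ^ B + 1 := by
    rw [hR.Wdef]
    exact (Nat.ceil_lt_add_one (by positivity)).le
  have h2 : (h : ℝ) ≤ w.W := by exact_mod_cast hR.HW h hh
  have h4 : 1 ≤ Real.log n ^ B := one_le_pow₀ hL
  have h3 : (100 * h : ℝ) ≤ n := by linarith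
  exact_mod_cast h3

/-- Proof. `lg p ≤ log (2n)`, `Sg ≤ 1`; for every `q ∈ Z` and every class `c ∈ T q` (at most `k`): `Reg2.cls` with `r = q > W ≥ L^B`: `≤ n/L^(k+22) + n^(1/20)`.
`#Z ≤ L^2`: total `≤ 2 L L^2 k (n/L^(k+22) + n^(1/20)) ≤ n/L^(k+11)`. -/
theorem E2R_up (K B cF k : ℕ) (θ Ga : ℝ) (hK : 1 ≤ K) (hk : 1 ≤ k) (hB : 3 ≤ B) :
    ∃ n0 : ℕ, ∀ n : ℕ, n0 ≤ n → ∀ (w : Par K) (H : Finset ℕ) (p1 : ℕ)
    (R T T2 : ℕ → Finset ℕ) (P' Z : Finset ℕ), Reg2 B cF k θ Ga w H n p1 R T P' →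
    HZ k n w.W p1 T T2 P' Z → ∀ h ∈ H,
    E2R w H n p1 h R T Z ≤ n / Real.log n ^ (k + 11) := by
  have hkR : (1 : ℝ) ≤ k := by exact_mod_cast hk
  obtain ⟨n1, hn1⟩ := F2_log (2 * k + 1)
  obtain ⟨n2, hn2⟩ := F2_ev (k + 14) (19 / 20) (2 * k) (by norm_num) (by linarith)
  obtain ⟨n3, hn3⟩ := F2_ev B 1 200 (by norm_num) (by norm_num)
  refine ⟨max n1 (max n2 (max n3 2)), fun n hn w H p1 R T T2 P' Z hR hZ h hh => ?_⟩
  simp only [max_le_iff] at hn
  have hL := hn1 n hn.1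
  have hev2 := hn2 n hn.2.1
  have hev3 := hn3 n hn.2.2.1
  rw [Real.rpow_one] at hev3
  have hnR : (2 : ℝ) ≤ n := by exact_mod_cast hn.2.2.2
  have hL1 : 1 ≤ Real.log n := by linarith
  have hL0 : 0 < Real.log n := by linarith
  have hhn := F2_h100 hR hh hL1 hev3
  obtain ⟨L, hLd⟩ : ∃ L : ℝ, L = Real.log n := ⟨_, rfl⟩
  obtain ⟨P, hPd⟩ : ∃ P : ℝ, P = (n : ℝ) ^ (1 / 20 : ℝ) := ⟨_, rfl⟩
  have hP0 : 0 ≤ P := by rw [hPd]; positivity
  unfold E2R
  have hb : ∀ q ∈ Z, ∑ p ∈ (Sh n h).filter (fun p => (p - h) % q ∈ T q), whR w H p1 h R p ≤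
      k * (L * (n / L ^ (k + 22) + P)) := by
    intro q hq
    obtain ⟨hq1, hq2, _⟩ := hZ.Zp q hq
    refine (F2_one hR hh hhn q ⟨q, hq1, Or.inl rfl⟩ (T q) (hZ.ZT q hq)).trans ?_
    rw [← hLd, ← hPd]
    have hL0' : 0 < L := by rw [hLd]; exact hL0
    apply mul_le_mul_of_nonneg_left _ (by linarith)
    apply mul_le_mul_of_nonneg_left _ hL0'.le
    have hq0 : (0 : ℝ) < q := by exact_mod_cast hq1.pos
    have h1 : L ^ B ≤ q := by
      have h2 : L ^ B ≤ w.W := by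
        rw [hR.Wdef, hLd]
        exact Nat.le_ceil _
      have h3 : (w.W : ℝ) ≤ q := by exact_mod_cast hq2.le
      linarith
    have h2 : L ^ B * (n / q) ≤ n := by
      rw [mul_div_assoc', div_le_iff₀ hq0, mul_comm]
      exact mul_le_mul_of_nonneg_left h1 (by linarith)
    have h3 : L ^ B * (n / q) / L ^ (k + 22) ≤ n / L ^ (k + 22) :=
      div_le_div_of_nonneg_right h2 (by positivity)
    linarith
  have hs := Finset.sum_le_card_nsmul _ _ _ hb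
  rw [nsmul_eq_mul] at hs
  refine hs.trans ?_
  rw [← hLd] at hL hL0 hL1 hev2 ⊢
  have hZc : (Z.card : ℝ) ≤ L ^ 2 := by rw [hLd]; exact hZ.Zc
  refine (mul_le_mul_of_nonneg_right hZc (by positivity)).trans ?_
  have e1 : L ^ 2 * (k * (L * (n / L ^ (k + 22) + P))) =
      (n : ℝ) / L ^ (k + 11) * (k / L ^ 8) + k * L ^ 3 * P := by
    have : L ^ (k + 22) = L ^ (k + 11) * L ^ 11 := by rw [← pow_add]
    rw [this]
    field_simp
  have e2 : (k : ℝ) / L ^ 8 ≤ 1 / 2 := by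
    rw [div_le_div_iff₀ (by positivity) (by norm_num)]
    have : L ^ 1 ≤ L ^ 8 := pow_le_pow_right₀ hL1 (by norm_num)
    linarith
  have e3 : (k : ℝ) * L ^ 3 * P ≤ (n : ℝ) / L ^ (k + 11) * (1 / 2) := by
    rw [div_mul_eq_mul_div, le_div_iff₀ (by positivity)]
    have e4 : (n : ℝ) ^ (19 / 20 : ℝ) * P = n := by
      rw [hPd, ← Real.rpow_add (by linarith)]
      norm_num
    have e5 : (k : ℝ) * L ^ 3 * P * L ^ (k + 11) = 2 * k * L ^ (k + 14) * P * (1 / 2) := by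
      have : L ^ (k + 14) = L ^ (k + 11) * L ^ 3 := by rw [← pow_add]
      rw [this]
      ring
    rw [e5]
    calc 2 * k * L ^ (k + 14) * P * (1 / 2) ≤ (n : ℝ) ^ (19 / 20 : ℝ) * P * (1 / 2) := by
          apply mul_le_mul_of_nonneg_right _ (by norm_num)
          exact mul_le_mul_of_nonneg_right hev2 hP0
      _ = n * (1 / 2) := by rw [e4]
  rw [e1]
  have e6 : (n : ℝ) / L ^ (k + 11) * (k / L ^ 8) ≤ (n : ℝ) / L ^ (k + 11) * (1 / 2) :=
    mul_le_mul_of_nonneg_left e2 (by positivity)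
  linarith

/-- Proof. The same with `r = q^2`, `q ∈ Qy`, and the at most `k` classes of `T2 q`: `≤ 2 L k ∑_{q ∈ Qy} (L^B n/q^2 + n^(1/20)) ≤ 2 L k (L^B n (2/z2) + n^(1/3 + 1/20))` (`q > z2`, `q ≤ n^(1/3)`), and
`z2 ≥ n^(1/s)/2`. -/
theorem E3R_up (K B cF k : ℕ) (θ Ga : ℝ) (hK : 1 ≤ K) (hk : 1 ≤ k) (hB : 3 ≤ B) :
    ∃ n0 : ℕ, ∀ n : ℕ, n0 ≤ n → ∀ (w : Par K) (H : Finset ℕ) (p1 : ℕ)
    (R T T2 : ℕ → Finset ℕ) (P' Z : Finset ℕ), Reg2 B cF k θ Ga w H n p1 R T P' →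
    HZ k n w.W p1 T T2 P' Z → ∀ h ∈ H,
    E3R w H n k p1 h R T2 P' ≤ n / Real.log n ^ (k + 11) := by
  classical
  have hkR : (1 : ℝ) ≤ k := by exact_mod_cast hk
  have hs0 : (0 : ℝ) < se k := by unfold se; positivity
  obtain ⟨n1, hn1⟩ := F2_log (2 * k + 1)
  obtain ⟨n2, hn2⟩ := F2_ev (B + k + 12) (1 / se k) (4 * k) (by positivity) (by linarith)
  obtain ⟨n3, hn3⟩ := F2_ev B 1 200 (by norm_num) (by norm_num)
  obtain ⟨n4, hn4⟩ := F2_ev (k + 12) (37 / 60) (2 * k) (by norm_num) (by linarith)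
  refine ⟨max n1 (max n2 (max n3 (max n4 2))), fun n hn w H p1 R T T2 P' Z hR hZ h hh => ?_⟩
  simp only [max_le_iff] at hn
  have hL := hn1 n hn.1
  have hev2 := hn2 n hn.2.1
  have hev3 := hn3 n hn.2.2.1
  have hev4 := hn4 n hn.2.2.2.1
  rw [Real.rpow_one] at hev3
  have hnR : (2 : ℝ) ≤ n := by exact_mod_cast hn.2.2.2.2
  have hL1 : 1 ≤ Real.log n := by linarith
  have hL0 : 0 < Real.log n := by linarith
  have hhn := F2_h100 hR hh hL1 hev3
  obtain ⟨L, hLd⟩ : ∃ L : ℝ, L = Real.log n := ⟨_, rfl⟩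
  obtain ⟨P, hPd⟩ : ∃ P : ℝ, P = (n : ℝ) ^ (1 / 20 : ℝ) := ⟨_, rfl⟩
  have hP0 : 0 ≤ P := by rw [hPd]; positivity
  have hstep : E3R w H n k p1 h R T2 P' ≤ ∑ q ∈ Qy P' n k, ∑ p ∈ (Sh n h).filter
      (fun p => (p - h) % (q ^ 2) ∈ T2 q), whR w H p1 h R p := by
    unfold E3R
    rw [sum_filter]
    have h1 : ∀ q, ∑ p ∈ (Sh n h).filter (fun p => (p - h) % (q ^ 2) ∈ T2 q),
        whR w H p1 h R p = ∑ p ∈ Sh n h, if (p - h) % (q ^ 2) ∈ T2 q then whR w H p1 h R p else 0 :=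
      fun q => sum_filter _ _
    rw [sum_congr rfl fun q _ => h1 q, sum_comm]
    apply sum_le_sum
    intro p _
    have hw0 := (F2_wh w H p1 h R p).1
    have h0 : ∀ q ∈ Qy P' n k,
        0 ≤ (if (p - h) % (q ^ 2) ∈ T2 q then whR w H p1 h R p else 0) := by
      intro q _
      split_ifs
      · exact hw0
      · exact le_refl _
    split_ifs with hc
    · obtain ⟨q, hq1, hq2⟩ := hc
      have h2 := Finset.single_le_sum h0 hq1
      rw [if_pos hq2] at h2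
      exact h2
    · exact sum_nonneg h0
  refine hstep.trans ?_
  have hb : ∀ q ∈ Qy P' n k, ∑ p ∈ (Sh n h).filter (fun p => (p - h) % (q ^ 2) ∈ T2 q),
      whR w H p1 h R p ≤ k * L ^ (B + 1) * n * ((q : ℝ) ^ 2)⁻¹ + k * (L * P) := by
    intro q hq
    unfold Qy at hq
    rw [mem_filter] at hq
    have hq1 := (hR.P'p q hq.1).1
    have hq0 : (0 : ℝ) < q := by exact_mod_cast hq1.pos
    refine (F2_one hR hh hhn (q ^ 2) ⟨q, hq1, Or.inr rfl⟩ (T2 q) (hZ.T2c q hq.1)).trans ?_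
    rw [← hLd, ← hPd]
    have hL1' : 1 ≤ L := by rw [hLd]; exact hL1
    have h1 : (1 : ℝ) ≤ L ^ (k + 22) := one_le_pow₀ hL1'
    have h2 : L ^ B * ((n : ℝ) / ((q ^ 2 : ℕ) : ℝ)) / L ^ (k + 22) ≤
        L ^ B * ((n : ℝ) / ((q ^ 2 : ℕ) : ℝ)) := div_le_self (by positivity) h1
    calc (k : ℝ) * (L * (L ^ B * ((n : ℝ) / ((q ^ 2 : ℕ) : ℝ)) / L ^ (k + 22) + P)) ≤
          k * (L * (L ^ B * ((n : ℝ) / ((q ^ 2 : ℕ) : ℝ)) + P)) := by
          apply mul_le_mul_of_nonneg_left _ (by linarith)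
          apply mul_le_mul_of_nonneg_left _ (by linarith)
          linarith
      _ = k * L ^ (B + 1) * n * ((q : ℝ) ^ 2)⁻¹ + k * (L * P) := by
          push_cast
          rw [div_eq_mul_inv]
          ring
  refine (sum_le_sum hb).trans ?_
  rw [sum_add_distrib, ← mul_sum, sum_const, nsmul_eq_mul]
  rw [← hLd] at hL hL0 hL1 hev2 hev4 ⊢
  have hu1 : (2 : ℝ) ≤ (n : ℝ) ^ (1 / se k) := by
    have h1 : 1 ≤ L ^ (B + k + 12) := one_le_pow₀ hL1
    nlinarith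
  have hz : (n : ℝ) ^ (1 / se k) / 2 ≤ z2 n k := by
    unfold z2
    have := Nat.lt_floor_add_one ((n : ℝ) ^ (1 / se k))
    linarith
  have hz1 : (1 : ℝ) ≤ z2 n k := by linarith
  have hz0 : z2 n k ≠ 0 := by
    intro h0
    rw [h0] at hz1
    norm_num at hz1
  have s1 : ∑ q ∈ Qy P' n k, ((q : ℝ) ^ 2)⁻¹ ≤ 2 / (n : ℝ) ^ (1 / se k) := by
    have h1 : ∑ q ∈ Qy P' n k, ((q : ℝ) ^ 2)⁻¹ ≤
        ∑ q ∈ Ioc (z2 n k) (max (z2 n k) n), ((q : ℝ) ^ 2)⁻¹ := by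
      apply sum_le_sum_of_subset_of_nonneg
      · intro q hq
        unfold Qy at hq
        rw [mem_filter] at hq
        rw [mem_Ioc]
        refine ⟨hq.2.1, le_trans ?_ (le_max_right _ _)⟩
        exact (Nat.le_self_pow (by norm_num) q).trans hq.2.2
      · intro q _ _
        positivity
    have h2 := sum_Ioc_inv_sq_le_sub (α := ℝ) (k := z2 n k) (n := max (z2 n k) n) hz0
      (le_max_left _ _)
    have h3 : (0 : ℝ) ≤ ((max (z2 n k) n : ℕ) : ℝ)⁻¹ := by positivity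
    have h4 : ((z2 n k : ℕ) : ℝ)⁻¹ ≤ 2 / (n : ℝ) ^ (1 / se k) := by
      rw [inv_le_comm₀ (by linarith) (by positivity), inv_div]
      exact hz
    linarith
  have s2 : ((Qy P' n k).card : ℝ) ≤ (n : ℝ) ^ (1 / 3 : ℝ) := by
    have h1 : Qy P' n k ⊆ Icc 1 ⌊(n : ℝ) ^ (1 / 3 : ℝ)⌋₊ := by
      intro q hq
      unfold Qy at hq
      rw [mem_filter] at hq
      rw [mem_Icc]
      refine ⟨by omega, Nat.le_floor ?_⟩
      have h3 : ((n : ℝ) ^ (1 / 3 : ℝ)) ^ 3 = n := by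
        rw [← Real.rpow_natCast, ← Real.rpow_mul (by linarith)]
        norm_num
      have h4 : (q : ℝ) ^ 3 ≤ ((n : ℝ) ^ (1 / 3 : ℝ)) ^ 3 := by
        rw [h3]
        exact_mod_cast hq.2.2
      exact le_of_pow_le_pow_left₀ (by norm_num) (by positivity) h4
    have h2 := card_le_card h1
    rw [Nat.card_Icc, Nat.add_sub_cancel] at h2
    have h3 : ((Qy P' n k).card : ℝ) ≤ ⌊(n : ℝ) ^ (1 / 3 : ℝ)⌋₊ := by exact_mod_cast h2
    exact h3.trans (Nat.floor_le (by positivity))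
  have t1 : k * L ^ (B + 1) * n * ∑ q ∈ Qy P' n k, ((q : ℝ) ^ 2)⁻¹ ≤
      (n : ℝ) / L ^ (k + 11) * (1 / 2) := by
    refine (mul_le_mul_of_nonneg_left s1 (by positivity)).trans ?_
    rw [mul_div_assoc', div_mul_eq_mul_div, div_le_div_iff₀ (by positivity) (by positivity)]
    have e : L ^ (B + k + 12) = L ^ (B + 1) * L ^ (k + 11) := by
      rw [← pow_add]
      congr 1
      omega
    calc (k : ℝ) * L ^ (B + 1) * n * 2 * L ^ (k + 11)
        = 4 * k * L ^ (B + k + 12) * (n * (1 / 2)) := by rw [e]; ring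
      _ ≤ (n : ℝ) ^ (1 / se k) * (n * (1 / 2)) :=
          mul_le_mul_of_nonneg_right hev2 (by positivity)
      _ = (n : ℝ) * (1 / 2) * (n : ℝ) ^ (1 / se k) := by ring
  have t2 : ((Qy P' n k).card : ℝ) * (k * (L * P)) ≤ (n : ℝ) / L ^ (k + 11) * (1 / 2) := by
    refine (mul_le_mul_of_nonneg_right s2 (by positivity)).trans ?_
    rw [div_mul_eq_mul_div, le_div_iff₀ (by positivity)]
    have e4 : (n : ℝ) ^ (1 / 3 : ℝ) * P * (n : ℝ) ^ (37 / 60 : ℝ) = n := by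
      rw [hPd, ← Real.rpow_add (by linarith), ← Real.rpow_add (by linarith)]
      norm_num
    have e : L ^ (k + 12) = L * L ^ (k + 11) := by ring
    calc (n : ℝ) ^ (1 / 3 : ℝ) * (k * (L * P)) * L ^ (k + 11)
        = (n : ℝ) ^ (1 / 3 : ℝ) * P * (2 * k * L ^ (k + 12)) * (1 / 2) := by rw [e]; ring
      _ ≤ (n : ℝ) ^ (1 / 3 : ℝ) * P * (n : ℝ) ^ (37 / 60 : ℝ) * (1 / 2) := by
          apply mul_le_mul_of_nonneg_right _ (by norm_num)
          exact mul_le_mul_of_nonneg_left hev4 (by positivity)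
      _ = n * (1 / 2) := by rw [e4]
  linarith

end Pool.Agent.Lib.H57C
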