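import Pool.Agent.Lib.H57C.D2

/-!
# Chunk RA: the bad classes and the target classes of part (i)
-/

open Finset

namespace Pool.Agent.Lib.H57C

open Pool.Agent.Lib.H57M

theorem RA_res {q c h : ℕ} (hc : c < q) (hd : q ∣ c + h) : (q - h % q) % q = c := by
  have hq : 0 < q := by omega
  have hr : h % q < q := Nat.mod_lt _ hq
  have h1 : q ∣ c + h % q := by
    have h2 : c + h = (c + h % q) + q * (h / q) := by
      have := Nat.mod_add_div h q
      omega
    rw [h2] at hd
    exact (Nat.dvd_add_left (Dvd.intro _ rfl)).1 hd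
  obtain ⟨k, hk⟩ := h1
  have hk2 : k < 2 := by
    by_contra hcon
    have : q * 2 ≤ q * k := Nat.mul_le_mul_left q (by omega)
    omega
  interval_cases k
  · have : h % q = 0 := by omega
    have hc0 : c = 0 := by omega
    rw [this, hc0, Nat.sub_zero, Nat.mod_self]
  · have h3 : q - h % q = c := by omega
    rw [h3, Nat.mod_eq_of_lt hc]

/-- At most `K + 1` bad classes: those of `-h`, `h ∈ H`, and `N`. -/
theorem rb_card (N : ℕ) (H : Finset ℕ) (q : ℕ) (hq : q.Prime) :
    (Rb N H q).card ≤ H.card + 1 := by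
  classical
  have h1 : Rb N H q ⊆ insert (N % q) (H.image (fun h => (q - h % q) % q)) := by
    intro c hc
    unfold Rb at hc
    rw [mem_filter, mem_range] at hc
    obtain ⟨hcq, h2 | h2⟩ := hc
    · obtain ⟨h, hh, hd⟩ := h2
      exact mem_insert_of_mem (mem_image.2 ⟨h, hh, RA_res hcq hd⟩)
    · rw [mem_insert]
      left
      have h3 : c % q = N % q := h2
      rwa [Nat.mod_eq_of_lt hcq] at h3
  refine (card_le_card h1).trans ((card_insert_le _ _).trans ?_)
  have := card_image_le (s := H) (f := fun h => (q - h % q) % q)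
  omega

/-- Proof. `Rk`: `rb_card`; `Rq`: `Pre.nf`; `RH`: definition of `Rb`; `P'p`: definition of `Pg`; `T q = {N % q}`; `TH`: `q ∈ Pg` does not
divide `N + h`. -/
theorem pre_hrt (B cF : ℕ) (θ : ℝ) {K : ℕ} (w : Par K) (H : Finset ℕ) (N p1 : ℕ)
    (h : Pre B cF θ w H N p1) :
    HRT K 1 w.W p1 H (Rb N H) (fun q => {N % q}) (Pg N w.W H) := by
  have hPs : ∀ q ∈ Ps w.W p1, q.Prime := by
    intro q hq
    unfold Ps at hq
    exact (mem_filter.1 hq).2.1
  have hPg : ∀ q ∈ Pg N w.W H, q.Prime ∧ w.W < q ∧ ∀ h ∈ H, ¬ q ∣ N + h := by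
    intro q hq
    unfold Pg at hq
    rw [mem_filter, mem_Ioc] at hq
    exact ⟨hq.2.1, hq.1.1, hq.2.2⟩
  refine ⟨fun q => filter_subset _ _, fun q hq => ?_, fun q hq => h.nf q (hPs q hq), ?_,
    fun q hq => ⟨(hPg q hq).1, (hPg q hq).2.1⟩, fun q hq => ?_, fun q hq => ?_, ?_⟩
  · have h1 := rb_card N H q (hPs q hq)
    rwa [h.cardH] at h1
  · intro q hq h' hh' c hc hd
    unfold Rb
    rw [mem_filter, mem_range]
    exact ⟨hc, Or.inl ⟨h', hh', hd⟩⟩
  · intro t ht
    have h1 : t = N % q := by simpa using ht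
    rw [h1, mem_range]
    exact Nat.mod_lt _ (hPg q hq).1.pos
  · simp
  · intro q hq t ht h' hh' hd
    have h1 : t = N % q := by simpa using ht
    rw [h1] at hd
    apply (hPg q hq).2.2 h' hh'
    have h2 : N + h' = (N % q + h') + q * (N / q) := by
      have := Nat.mod_add_div N q
      omega
    rw [h2]
    exact Dvd.dvd.add hd (Dvd.intro _ rfl)

/-- `T q = {N % q}`: `inT T d t` iff `d ∣ N - t`, for squarefree `d` and `t ≤ N`. -/
theorem inT_iff (N d t : ℕ) (hd : Squarefree d) (ht : t ≤ N) :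
    inT (fun q => {N % q}) d t ↔ d ∣ N - t := by
  unfold inT
  have h1 : ∀ q : ℕ, t % q ∈ ({N % q} : Finset ℕ) ↔ q ∣ N - t := by
    intro q
    rw [mem_singleton]
    exact (Nat.modEq_iff_dvd' ht)
  simp only [h1]
  constructor
  · intro h
    rw [← Nat.prod_primeFactors_of_squarefree hd]
    exact Finset.prod_primes_dvd _ (fun p hp => (Nat.prime_of_mem_primeFactors hp).prime)
      (fun p hp => h p hp)
  · intro h q hq
    exact (Nat.dvd_of_mem_primeFactors hq).trans h

/-- `∏_{q ∣ d} 1/(q - 1) = 1/φ(d)` for squarefree `d`. -/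
theorem prod_gq (d : ℕ) (hd : Squarefree d) :
    ∏ q ∈ d.primeFactors, H59C.gq q = 1 / (Nat.totient d : ℝ) := by
  have h0 : 0 < d := Nat.pos_of_ne_zero hd.ne_zero
  have h1 := Nat.totient_mul_prod_primeFactors d
  rw [Nat.prod_primeFactors_of_squarefree hd, mul_comm d] at h1
  have h2 := Nat.eq_of_mul_eq_mul_right h0 h1
  rw [h2]
  push_cast
  unfold H59C.gq
  rw [Finset.prod_div_distrib, Finset.prod_const_one]
  congr 1
  refine Finset.prod_congr rfl fun q hq => ?_
  rw [Nat.cast_sub (Nat.prime_of_mem_primeFactors hq).one_le, Nat.cast_one]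

end Pool.Agent.Lib.H57C
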