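import Pool.Agent.Lib.H57C.VF
import Pool.Agent.Lib.Helper57.Mertens
import Pool.Agent.Lib.Sieve.Averages

/-!
# Chunk V1: Bombieri-Vinogradov, all classes at once, with weights
-/

open Finset

namespace Pool.Agent.Lib.H57C

open Pool.Agent.Lib.Sieve

/-- weighted harmonic sum of a product over prime factors -/
theorem V1_sum (h : ℕ → ℝ) (h0 : ∀ p, 0 ≤ h p) (N : ℕ) :
    ∑ m ∈ Icc 1 N, (∏ p ∈ m.primeFactors, (1 + h p)) / (m : ℝ)
      ≤ (∑ k ∈ Icc 1 N, 1 / (k : ℝ)) * ∏ p ∈ primesUpTo N, (1 + h p / p) := by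
  have hD0 : ∀ D : Finset ℕ, 0 ≤ ∏ p ∈ D, h p := fun D => Finset.prod_nonneg fun p _ => h0 p
  have h1 : ∀ m ∈ Finset.Icc 1 N, (∏ p ∈ m.primeFactors, (1 + h p)) / (m : ℝ)
      ≤ ∑ D ∈ (primesUpTo N).powerset, if (∏ p ∈ D, p) ∣ m then (∏ p ∈ D, h p) / (m : ℝ) else 0 := by
    intro m hm
    rw [Finset.mem_Icc] at hm
    rw [Finset.prod_one_add, ← Finset.sum_filter, Finset.sum_div]
    apply Finset.sum_le_sum_of_subset_of_nonneg
    · intro D hD
      rw [Finset.mem_powerset] at hD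
      rw [Finset.mem_filter, Finset.mem_powerset]
      refine ⟨fun p hp => ?_, ?_⟩
      · have hpm := Nat.mem_primeFactors.mp (hD hp)
        rw [mem_primesUpTo]
        exact ⟨hpm.1, (Nat.le_of_dvd (by omega) hpm.2.1).trans hm.2⟩
      · exact (Finset.prod_dvd_prod_of_subset _ _ _ hD).trans (Nat.prod_primeFactors_dvd m)
    · intro D _ _
      exact div_nonneg (hD0 D) (Nat.cast_nonneg _)
  refine (Finset.sum_le_sum h1).trans ?_
  rw [Finset.sum_comm, Finset.prod_one_add, Finset.mul_sum]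
  refine Finset.sum_le_sum fun D hD => ?_
  rw [Finset.mem_powerset] at hD
  rw [← Finset.sum_filter]
  set d := ∏ p ∈ D, p with hd
  have hdpos : 0 < d := Finset.prod_pos fun p hp => (mem_primesUpTo.mp (hD hp)).1.pos
  rw [Finset.prod_div_distrib]
  have hdr : (∏ p ∈ D, (p : ℝ)) = d := by
    rw [hd]
    push_cast
    rfl
  rw [hdr]
  have h2 : ∑ a ∈ (Icc 1 N).filter (fun m => d ∣ m), (∏ p ∈ D, h p) / (a : ℝ) ≤
      ∑ k ∈ Icc 1 N, (∏ p ∈ D, h p) / ((d * k : ℕ) : ℝ) := by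
    have h3 : (Icc 1 N).filter (fun m => d ∣ m) ⊆ (Icc 1 N).image (fun k => d * k) := by
      intro m hm
      rw [mem_filter, mem_Icc] at hm
      obtain ⟨k, rfl⟩ := hm.2
      rw [mem_image]
      refine ⟨k, ?_, rfl⟩
      rw [mem_Icc]
      constructor
      · by_contra h
        have : k = 0 := by omega
        rw [this] at hm
        omega
      · exact (Nat.le_mul_of_pos_left k hdpos).trans hm.1.2
    refine (sum_le_sum_of_subset_of_nonneg h3 fun i _ _ => div_nonneg (hD0 D)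
      (Nat.cast_nonneg _)).trans ?_
    rw [sum_image]
    intro a _ b _ hab
    exact Nat.eq_of_mul_eq_mul_left hdpos hab
  refine h2.trans (le_of_eq ?_)
  rw [sum_mul]
  apply sum_congr rfl
  intro k _
  push_cast
  rw [div_mul_div_comm, one_mul, mul_comm (k : ℝ)]

/-- the weights on average -/
theorem V1_w (E n : ℕ) (hn : 2 ≤ n) : ∑ d ∈ Icc 1 n, (E : ℝ) ^ d.primeFactors.card /
    (Nat.totient d : ℝ) ≤ (1 + Real.log n) * (500 * Real.log n) ^ (2 * E) := by
  have h1 : ∀ d ∈ Icc 1 n, (E : ℝ) ^ d.primeFactors.card / (Nat.totient d : ℝ) ≤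
      (∏ p ∈ d.primeFactors, (1 + (fun _ => 2 * (E : ℝ)) p)) / (d : ℝ) := by
    intro d hd
    rw [mem_Icc] at hd
    have hd0 : (0 : ℝ) < d := by exact_mod_cast hd.1
    have hphi : (0 : ℝ) < Nat.totient d := by exact_mod_cast Nat.totient_pos.2 (by omega)
    have h2 : (Nat.totient d : ℝ) * ∏ p ∈ d.primeFactors, (p : ℝ) =
        d * ∏ p ∈ d.primeFactors, ((p : ℝ) - 1) := by
      have h3 := Nat.totient_mul_prod_primeFactors d
      have h4 : ((d.totient * ∏ p ∈ d.primeFactors, p : ℕ) : ℝ) =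
        ((d * ∏ p ∈ d.primeFactors, (p - 1) : ℕ) : ℝ) := by rw [h3]
      push_cast at h4
      rw [h4]
      congr 1
      apply prod_congr rfl
      intro p hp
      have := (Nat.prime_of_mem_primeFactors hp).one_le
      push_cast [Nat.cast_sub this]
      ring
    rw [div_le_div_iff₀ hphi hd0]
    have h5 : 0 < ∏ p ∈ d.primeFactors, ((p : ℝ) - 1) := by
      apply prod_pos
      intro p hp
      have : (1 : ℝ) < p := by exact_mod_cast (Nat.prime_of_mem_primeFactors hp).one_lt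
      linarith
    have h6 : (E : ℝ) ^ d.primeFactors.card * ∏ p ∈ d.primeFactors, (p : ℝ) ≤
        (∏ p ∈ d.primeFactors, (1 + 2 * (E : ℝ))) * ∏ p ∈ d.primeFactors, ((p : ℝ) - 1) := by
      rw [← prod_const, ← prod_mul_distrib, ← prod_mul_distrib]
      apply prod_le_prod
      · intro p _
        positivity
      · intro p hp
        have h2 : (2 : ℝ) ≤ p := by exact_mod_cast (Nat.prime_of_mem_primeFactors hp).two_le
        have hE : (0 : ℝ) ≤ E := Nat.cast_nonneg _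
        nlinarith
    have h7 : (E : ℝ) ^ d.primeFactors.card * d * ∏ p ∈ d.primeFactors, ((p : ℝ) - 1) ≤
        (∏ p ∈ d.primeFactors, (1 + 2 * (E : ℝ))) * (Nat.totient d : ℝ) *
          ∏ p ∈ d.primeFactors, ((p : ℝ) - 1) := by
      calc (E : ℝ) ^ d.primeFactors.card * d * ∏ p ∈ d.primeFactors, ((p : ℝ) - 1) =
          (E : ℝ) ^ d.primeFactors.card * (Nat.totient d * ∏ p ∈ d.primeFactors, (p : ℝ)) := by
            rw [h2]; ring
        _ = (Nat.totient d : ℝ) * ((E : ℝ) ^ d.primeFactors.card *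
            ∏ p ∈ d.primeFactors, (p : ℝ)) := by ring
        _ ≤ (Nat.totient d : ℝ) * ((∏ p ∈ d.primeFactors, (1 + 2 * (E : ℝ))) *
            ∏ p ∈ d.primeFactors, ((p : ℝ) - 1)) := mul_le_mul_of_nonneg_left h6 hphi.le
        _ = _ := by ring
    exact le_of_mul_le_mul_right h7 h5
  refine (sum_le_sum h1).trans ((V1_sum (fun _ => 2 * (E : ℝ)) (fun _ => by positivity) n).trans ?_)
  have h8 : ∑ k ∈ Icc 1 n, 1 / (k : ℝ) ≤ 1 + Real.log n := by
    have := harmonic_le_one_add_log n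
    have h9 : ((harmonic n : ℚ) : ℝ) = ∑ k ∈ Icc 1 n, 1 / (k : ℝ) := by
      rw [harmonic_eq_sum_Icc]
      push_cast
      simp
    rw [← h9]
    exact this
  have h10 : ∏ p ∈ primesUpTo n, (1 + 2 * (E : ℝ) / p) ≤ (500 * Real.log n) ^ (2 * E) := by
    calc ∏ p ∈ primesUpTo n, (1 + 2 * (E : ℝ) / p) ≤
        ∏ p ∈ primesUpTo n, ((1 - 1 / (p : ℝ))⁻¹) ^ (2 * E) := by
          apply prod_le_prod
          · intro p _
            positivity
          · intro p hp
            have hp1 : (1 : ℝ) < p := by exact_mod_cast (mem_primesUpTo.mp hp).1.one_lt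
            have h11 : 1 + 1 / (p : ℝ) ≤ (1 - 1 / (p : ℝ))⁻¹ := by
              have h12 : 0 < 1 - 1 / (p : ℝ) := by
                rw [sub_pos, div_lt_one (by linarith)]
                exact hp1
              rw [le_inv_comm₀ (by positivity) h12, ← one_div, le_div_iff₀ (by positivity)]
              have : 0 < 1 / (p : ℝ) := by positivity
              nlinarith
            refine le_trans ?_ (pow_le_pow_left₀ (by positivity) h11 _)
            have h13 := one_add_mul_le_pow (a := 1 / (p : ℝ)) (by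
              have : 0 < 1 / (p : ℝ) := by positivity
              linarith) (2 * E)
            push_cast at h13
            calc 1 + 2 * (E : ℝ) / p = 1 + 2 * (E : ℝ) * (1 / p) := by ring
              _ ≤ _ := h13
      _ = (∏ p ∈ primesUpTo n, (1 - 1 / (p : ℝ))⁻¹) ^ (2 * E) := prod_pow _ _ _
      _ ≤ (500 * Real.log n) ^ (2 * E) := by
          apply pow_le_pow_left₀
          · apply prod_nonneg
            intro p hp
            have hp1 : (1 : ℝ) < p := by exact_mod_cast (mem_primesUpTo.mp hp).1.one_lt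
            have h12 : 0 < 1 - 1 / (p : ℝ) := by
              rw [sub_pos, div_lt_one (by linarith)]
              exact hp1
            positivity
          · exact Helper57.prod_one_sub_inv_inv_le n hn
  have h14 : 0 ≤ Real.log n := Real.log_natCast_nonneg n
  exact mul_le_mul h8 h10 (prod_nonneg fun _ _ => by positivity) (by positivity)


/-- Cauchy-Schwarz -/
theorem V1_cs (E n : ℕ) (hn : 2 ≤ n) (S : Finset ℕ) (hS : S ⊆ Icc 1 n) (rr : ℕ → ℝ)
    (h0 : ∀ d, 0 ≤ rr d) (R0 R1 : ℝ) (hR0 : 0 ≤ R0) (h1 : ∑ d ∈ S, rr d ≤ R1)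
    (h2 : ∀ d ∈ S, rr d ≤ R0 * (1 / (Nat.totient d : ℝ))) :
    (∑ d ∈ S, (E : ℝ) ^ d.primeFactors.card * rr d) ^ 2 ≤
      R0 * ((1 + Real.log n) * (500 * Real.log n) ^ (2 * E ^ 2)) * R1 := by
  have hcs := sum_mul_sq_le_sq_mul_sq S
    (fun d => (E : ℝ) ^ d.primeFactors.card * Real.sqrt (rr d)) (fun d => Real.sqrt (rr d))
  have e1 : ∑ d ∈ S, (E : ℝ) ^ d.primeFactors.card * rr d =
      ∑ d ∈ S, (E : ℝ) ^ d.primeFactors.card * Real.sqrt (rr d) * Real.sqrt (rr d) := by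
    apply sum_congr rfl
    intro d _
    rw [mul_assoc, Real.mul_self_sqrt (h0 d)]
  have e2 : ∑ d ∈ S, ((E : ℝ) ^ d.primeFactors.card * Real.sqrt (rr d)) ^ 2 ≤
      R0 * ((1 + Real.log n) * (500 * Real.log n) ^ (2 * E ^ 2)) := by
    calc ∑ d ∈ S, ((E : ℝ) ^ d.primeFactors.card * Real.sqrt (rr d)) ^ 2
        ≤ ∑ d ∈ S, R0 * (((E ^ 2 : ℕ) : ℝ) ^ d.primeFactors.card / (Nat.totient d : ℝ)) := by
          apply sum_le_sum
          intro d hd
          rw [mul_pow, Real.sq_sqrt (h0 d), ← pow_mul, mul_comm d.primeFactors.card 2, pow_mul]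
          push_cast
          calc ((E : ℝ) ^ 2) ^ d.primeFactors.card * rr d ≤
              ((E : ℝ) ^ 2) ^ d.primeFactors.card * (R0 * (1 / (Nat.totient d : ℝ))) :=
                mul_le_mul_of_nonneg_left (h2 d hd) (by positivity)
            _ = _ := by ring
      _ = R0 * ∑ d ∈ S, (((E ^ 2 : ℕ) : ℝ) ^ d.primeFactors.card / (Nat.totient d : ℝ)) := by
          rw [mul_sum]
      _ ≤ R0 * ∑ d ∈ Icc 1 n, (((E ^ 2 : ℕ) : ℝ) ^ d.primeFactors.card / (Nat.totient d : ℝ)) := by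
          apply mul_le_mul_of_nonneg_left _ hR0
          exact sum_le_sum_of_subset_of_nonneg hS fun _ _ _ => by positivity
      _ ≤ _ := mul_le_mul_of_nonneg_left (V1_w (E ^ 2) n hn) hR0
  have e3 : ∑ d ∈ S, Real.sqrt (rr d) ^ 2 ≤ R1 := by
    refine le_trans (le_of_eq ?_) h1
    exact sum_congr rfl fun d _ => Real.sq_sqrt (h0 d)
  rw [e1]
  have hl : 0 ≤ Real.log n := Real.log_natCast_nonneg n
  exact hcs.trans (mul_le_mul e2 e3 (sum_nonneg fun _ _ => by positivity) (by positivity))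

theorem V1_ev : ∃ n0 : ℕ, 8 ≤ n0 ∧ ∀ n : ℕ, n0 ≤ n → 500 ≤ Real.log n := by
  have h := (Real.tendsto_log_atTop.comp tendsto_natCast_atTop_atTop).eventually_ge_atTop 500
  rw [Filter.eventually_atTop] at h
  obtain ⟨n0, h⟩ := h
  exact ⟨max n0 8, le_max_right _ _, fun n hn => h n ((le_max_left _ _).trans hn)⟩

/-- numerical conclusion -/
theorem V1_num (A E : ℕ) (n L X : ℝ) (hn : 0 ≤ n) (hL : 500 ≤ L)
    (h : X ^ 2 ≤ 100 * n * L * ((1 + L) * (500 * L) ^ (2 * E ^ 2)) *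
      (n / L ^ (2 * A + 4 * E ^ 2 + 10))) : X ≤ n / L ^ A := by
  have hL0 : 0 < L := by linarith
  have hL1 : 1 ≤ L := by linarith
  have h1 : (1 + L) * (500 * L) ^ (2 * E ^ 2) ≤ L ^ 2 * (L ^ 2) ^ (2 * E ^ 2) := by
    apply mul_le_mul _ _ (by positivity) (by positivity)
    · nlinarith
    · apply pow_le_pow_left₀ (by positivity)
      nlinarith
  have h2 : 100 * n * L * (L ^ 2 * (L ^ 2) ^ (2 * E ^ 2)) * (n / L ^ (2 * A + 4 * E ^ 2 + 10)) ≤
      (n / L ^ A) ^ 2 := by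
    have e1 : L ^ (2 * A + 4 * E ^ 2 + 10) = (L ^ A) ^ 2 * ((L ^ 2) ^ (2 * E ^ 2) * L ^ 10) := by
      rw [← pow_mul, ← pow_mul, ← pow_add, ← pow_add]
      congr 1
      ring
    rw [e1, div_pow]
    have e2 : 100 * n * L * (L ^ 2 * (L ^ 2) ^ (2 * E ^ 2)) *
        (n / ((L ^ A) ^ 2 * ((L ^ 2) ^ (2 * E ^ 2) * L ^ 10))) =
        n ^ 2 / (L ^ A) ^ 2 * (100 / L ^ 7) := by
      field_simp
    rw [e2]
    have e3 : 100 / L ^ 7 ≤ 1 := by
      rw [div_le_one (by positivity)]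
      calc (100 : ℝ) ≤ L ^ 1 := by rw [pow_one]; linarith
        _ ≤ L ^ 7 := pow_le_pow_right₀ hL1 (by norm_num)
    calc n ^ 2 / (L ^ A) ^ 2 * (100 / L ^ 7) ≤ n ^ 2 / (L ^ A) ^ 2 * 1 :=
          mul_le_mul_of_nonneg_left e3 (by positivity)
      _ = _ := mul_one _
  have h3 : X ^ 2 ≤ (n / L ^ A) ^ 2 := by
    refine h.trans (le_trans ?_ h2)
    apply mul_le_mul_of_nonneg_right _ (by positivity)
    exact mul_le_mul_of_nonneg_left h1 (by positivity)
  exact le_of_sq_le_sq h3 (by positivity)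


open Pool.Agent.Lib.H59C

/-- a worst residue class -/
theorem V1_max (d : ℕ) (hd : 1 ≤ d) (f : ℕ → ℝ) (hf : ∀ a, f (a % d) = f a) :
    ∃ a0 : ℕ, a0.Coprime d ∧ ∀ a : ℕ, a.Coprime d → f a ≤ f a0 := by
  have hne : ((range d).filter (fun a => a.Coprime d)).Nonempty := by
    rcases Nat.lt_or_ge 1 d with h | h
    · exact ⟨1, mem_filter.2 ⟨mem_range.2 h, Nat.coprime_one_left d⟩⟩
    · have : d = 1 := by omega
      subst this
      exact ⟨0, mem_filter.2 ⟨mem_range.2 (by omega), Nat.coprime_one_right 0⟩⟩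
  obtain ⟨a0, ha0, h⟩ := exists_max_image _ f hne
  rw [mem_filter] at ha0
  refine ⟨a0, ha0.2, fun a ha => ?_⟩
  rw [← hf a]
  apply h
  rw [mem_filter, mem_range]
  refine ⟨Nat.mod_lt _ hd, ?_⟩
  unfold Nat.Coprime at ha ⊢
  rw [← Nat.gcd_rec, Nat.gcd_comm]
  exact ha

/-- Proof. Put `r0(y, d) = sup over a < d, (a, d) = 1, of |thp y d a - th y/φ(d)|` (`Finset.sup'` or `exists_max_image` over the
nonempty set `{a ∈ range d : a.Coprime d}`; both sides only depend on `a` mod `d`), attained at `a(y, d)`, and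
`rr d = r0(y, d)` for `d ≥ 1`. By `bvf A1` with `A1 = 2 A + 2 c + 10`: `∑_{d ≤ DD n B, p1 ∤ d} rr d ≤ n/L^A1`. Trivially (`bv2_triv`)
`rr d ≤ 2 y log y/φ(d) + log y ≤ 100 n L (1/φ(d) + 1/d) ≤ 200 n L/φ(d)` (`d ≤ √n`). By Cauchy-Schwarz
`∑ E^ω(d) rr d ≤ (∑ E^(2ω(d)) rr d)^(1/2) (∑ rr d)^(1/2) ≤ (200 n L ∑_{d ≤ n} (E^2)^ω(d)/φ(d))^(1/2) (n/L^A1)^(1/2)`, and
`∑_{d ≤ n} (E^2)^ω(d)/φ(d) ≤ ∏_{q ≤ n} (1 + E^2/(q-1) · (1 + 1/q + 1/q^2 + ..)) ≤ exp (4 E^2 ∑_{q ≤ n} 1/q) ≤ L^c` for large `n`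
(`c` depends on `E`; `mertens` in `H59C/MER0.lean`, or `Sieve.sum_prod_primeFactors_le`). -/
theorem bvw (A E : ℕ) : ∃ A' B n0 : ℕ, ∀ n : ℕ, n0 ≤ n → ∀ p1 : ℕ, SWp A' n p1 →
    ∀ y : ℕ, y ≤ 8 * n → ∃ rr : ℕ → ℝ, (∀ d, 0 ≤ rr d) ∧
      (∀ d, 1 ≤ d → d ≤ DD n B → ¬ p1 ∣ d → ∀ a : ℕ, a.Coprime d →
        |thp y d a - th y / (Nat.totient d : ℝ)| ≤ rr d) ∧
      ∑ d ∈ (Icc 1 (DD n B)).filter (fun d => ¬ p1 ∣ d),
        (E : ℝ) ^ d.primeFactors.card * rr d ≤ n / Real.log n ^ A := by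
  obtain ⟨A', B, n0, hbv⟩ := bvf (2 * A + 4 * E ^ 2 + 10)
  obtain ⟨n1, hn1, hlog⟩ := V1_ev
  refine ⟨A', B, max n0 n1, fun n hn p1 hSW y hy => ?_⟩
  have hn8 : 8 ≤ n := hn1.trans ((le_max_right _ _).trans hn)
  have hL := hlog n ((le_max_right _ _).trans hn)
  have hnR : (8 : ℝ) ≤ n := by exact_mod_cast hn8
  have hmod : ∀ d a : ℕ, thp y d (a % d) = thp y d a := by
    intro d a
    unfold thp
    congr 1
    apply filter_congr
    intro q _
    rw [Nat.ModEq, Nat.ModEq, Nat.mod_mod]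
  have hex : ∀ d : ℕ, 1 ≤ d → ∃ a0 : ℕ, a0.Coprime d ∧ ∀ a : ℕ, a.Coprime d →
      |thp y d a - th y / (Nat.totient d : ℝ)| ≤ |thp y d a0 - th y / (Nat.totient d : ℝ)| :=
    fun d hd => V1_max d hd (fun a => |thp y d a - th y / (Nat.totient d : ℝ)|)
      (fun a => by simp only [hmod])
  choose! a ha hmax using hex
  refine ⟨fun d => |thp y d (a d) - th y / (Nat.totient d : ℝ)|, fun _ => abs_nonneg _,
    fun d hd _ _ b hb => hmax d hd b hb, ?_⟩
  have hDn : DD n B ≤ n := by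
    unfold DD
    have h1 : Real.sqrt n / Real.log n ^ B ≤ n := by
      refine (div_le_self (Real.sqrt_nonneg _) (one_le_pow₀ (by linarith))).trans ?_
      rw [Real.sqrt_le_left (by linarith)]
      nlinarith
    exact_mod_cast (Nat.floor_le (by positivity)).trans h1
  have hsub : (Icc 1 (DD n B)).filter (fun d => ¬ p1 ∣ d) ⊆ Icc 1 n := by
    intro d hd
    rw [mem_filter, mem_Icc] at hd
    rw [mem_Icc]
    exact ⟨hd.1.1, hd.1.2.trans hDn⟩
  have hb1 : ∑ d ∈ (Icc 1 (DD n B)).filter (fun d => ¬ p1 ∣ d),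
      |thp y d (a d) - th y / (Nat.totient d : ℝ)| ≤
      n / Real.log n ^ (2 * A + 4 * E ^ 2 + 10) := by
    have h1 := hbv n ((le_max_left _ _).trans hn) p1 hSW a y hy
    have h2 : (Icc 1 (DD n B)).filter (fun d => (a d).Coprime d ∧ ¬ p1 ∣ d) =
        (Icc 1 (DD n B)).filter (fun d => ¬ p1 ∣ d) := by
      apply filter_congr
      intro d hd
      rw [mem_Icc] at hd
      exact ⟨fun h => h.2, fun h => ⟨ha d hd.1, h⟩⟩
    rwa [h2] at h1
  have hb2 : ∀ d ∈ (Icc 1 (DD n B)).filter (fun d => ¬ p1 ∣ d),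
      |thp y d (a d) - th y / (Nat.totient d : ℝ)| ≤
      100 * n * Real.log n * (1 / (Nat.totient d : ℝ)) := by
    intro d hd
    have hd' := mem_Icc.1 (hsub hd)
    refine (bv2_triv y d (a d) hd'.1).trans ?_
    have hphi : (0 : ℝ) < Nat.totient d := by exact_mod_cast Nat.totient_pos.2 (by omega)
    have hphi2 : (Nat.totient d : ℝ) ≤ n := by exact_mod_cast (Nat.totient_le d).trans hd'.2
    have hly : Real.log y ≤ 2 * Real.log n := by
      rcases Nat.eq_zero_or_pos y with h | h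
      · rw [h]; simp; linarith
      · have h1 : Real.log y ≤ Real.log (8 * n) := Real.log_le_log (by exact_mod_cast h)
          (by exact_mod_cast hy)
        rw [Real.log_mul (by norm_num) (by positivity)] at h1
        have h2 : Real.log 8 ≤ Real.log n := Real.log_le_log (by norm_num) hnR
        linarith
    have hy' : (y : ℝ) ≤ 8 * n := by exact_mod_cast hy
    have hly0 : 0 ≤ Real.log y := Real.log_natCast_nonneg y
    have h1 : (y : ℝ) * Real.log y ≤ 8 * n * (2 * Real.log n) :=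
      mul_le_mul hy' hly hly0 (by positivity)
    have h2 : 2 * ((y : ℝ) * Real.log y) * (1 / (Nat.totient d : ℝ)) ≤
        2 * (8 * n * (2 * Real.log n)) * (1 / (Nat.totient d : ℝ)) :=
      mul_le_mul_of_nonneg_right (by linarith) (by positivity)
    have h3 : Real.log y ≤ 2 * Real.log n * n * (1 / (Nat.totient d : ℝ)) := by
      rw [mul_assoc, mul_one_div]
      have h4 : 1 ≤ (n : ℝ) / Nat.totient d := by
        rw [le_div_iff₀ hphi]; linarith
      have h5 : 0 ≤ 2 * Real.log n := by linarith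
      nlinarith
    have h6 : 0 < (n : ℝ) * Real.log n * (1 / (Nat.totient d : ℝ)) := by
      have : 0 < Real.log n := by linarith
      positivity
    calc 2 * ((y : ℝ) * Real.log y) * (1 / (Nat.totient d : ℝ)) + Real.log y
        ≤ 2 * (8 * n * (2 * Real.log n)) * (1 / (Nat.totient d : ℝ)) +
          2 * Real.log n * n * (1 / (Nat.totient d : ℝ)) := add_le_add h2 h3
      _ = 34 * ((n : ℝ) * Real.log n * (1 / (Nat.totient d : ℝ))) := by ring
      _ ≤ 100 * ((n : ℝ) * Real.log n * (1 / (Nat.totient d : ℝ))) := by linarith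
      _ = _ := by ring
  have hcs := V1_cs E n (by omega) _ hsub
    (fun d => |thp y d (a d) - th y / (Nat.totient d : ℝ)|) (fun _ => abs_nonneg _)
    (100 * n * Real.log n) _ (by
      have : 0 ≤ Real.log n := by linarith
      positivity) hb1 hb2
  exact V1_num A E n (Real.log n) _ (by linarith) hL hcs

end Pool.Agent.Lib.H57C
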