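import Pool.Agent.Lib.H57C.Defs
import Pool.Agent.Lib.H57C.V1
import Pool.Agent.Lib.H59C.C0

/-!
# Chunk V3: level of distribution of the `t` with `t + h` prime
-/

open Finset

namespace Pool.Agent.Lib.H57C

open Pool.Agent.Lib.H59C

/-- the product of `1/(q-1)` -/
theorem V3_gq (m : ℕ) (hm : Squarefree m) :
    ∏ q ∈ m.primeFactors, gq q = 1 / (Nat.totient m : ℝ) := by
  have h1 : Nat.totient m = ∏ q ∈ m.primeFactors, (q - 1) := by
    have h2 := Nat.totient_mul_prod_primeFactors m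
    rw [Nat.prod_primeFactors_of_squarefree hm, mul_comm] at h2
    exact Nat.eq_of_mul_eq_mul_left (Nat.pos_of_ne_zero hm.ne_zero) h2
  rw [h1]
  push_cast
  rw [one_div, ← prod_inv_distrib]
  apply prod_congr rfl
  intro q hq
  have h3 := (Nat.prime_of_mem_primeFactors hq).one_le
  unfold gq
  rw [one_div, Nat.cast_sub h3, Nat.cast_one]

theorem V3_coprime (a m : ℕ) (hm : m ≠ 0) (h : ∀ q ∈ m.primeFactors, ¬ q ∣ a) : a.Coprime m := by
  by_contra hc
  obtain ⟨q, hq, ha, hqm⟩ := Nat.Prime.not_coprime_iff_dvd.1 hc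
  exact h q (Nat.mem_primeFactors.2 ⟨hq, hqm, hm⟩) ha

theorem V3_sum (m h y1 y2 c : ℕ) (hy : h ≤ y1) (h12 : y1 ≤ y2) :
    ∑ p ∈ (Sq y1 y2).filter (fun p => p - h ≡ c [MOD m]), lg p =
      thp y2 m (c + h) - thp y1 m (c + h) := by
  have h0 : ∀ p ∈ Ioc y1 y2, (p - h ≡ c [MOD m] ↔ p ≡ c + h [MOD m]) := by
    intro p hp
    rw [mem_Ioc] at hp
    have h3 : p - h + h = p := by omega
    constructor
    · intro h1
      have h2 := Nat.ModEq.add_right h h1
      rwa [h3] at h2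
    · intro h1
      rw [← h3] at h1
      exact Nat.ModEq.add_right_cancel' h h1
  unfold thp Sq lg
  rw [filter_filter]
  have h1 : (Icc 1 y2).filter (fun q => q.Prime ∧ q ≡ c + h [MOD m]) =
      (Icc 1 y1).filter (fun q => q.Prime ∧ q ≡ c + h [MOD m]) ∪
        (Ioc y1 y2).filter (fun q => q.Prime ∧ q ≡ c + h [MOD m]) := by
    ext q
    simp only [mem_filter, mem_Icc, mem_union, mem_Ioc]
    constructor
    · rintro ⟨⟨h1, h2⟩, h3⟩
      rcases le_or_gt q y1 with h4 | h4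
      · left; exact ⟨⟨h1, h4⟩, h3⟩
      · right; exact ⟨⟨h4, h2⟩, h3⟩
    · rintro (⟨⟨h1, h2⟩, h3⟩ | ⟨⟨h1, h2⟩, h3⟩)
      · exact ⟨⟨h1, by omega⟩, h3⟩
      · exact ⟨⟨by omega, h2⟩, h3⟩
  have h2 : Disjoint ((Icc 1 y1).filter (fun q => q.Prime ∧ q ≡ c + h [MOD m]))
      ((Ioc y1 y2).filter (fun q => q.Prime ∧ q ≡ c + h [MOD m])) := by
    rw [Finset.disjoint_left]
    intro q hq hq'
    simp only [mem_filter, mem_Icc, mem_Ioc] at hq hq'
    omega
  rw [h1, sum_union h2]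
  have h3 : (Ioc y1 y2).filter (fun a => a.Prime ∧ a - h ≡ c [MOD m]) =
      (Ioc y1 y2).filter (fun q => q.Prime ∧ q ≡ c + h [MOD m]) := by
    apply filter_congr
    intro p hp
    rw [h0 p hp]
  rw [h3]
  ring

/-- Proof. `bvw (A + 1) E` at `y2` and at `y1`, `rr = rr_2 + rr_1`. For `m` squarefree and a class `c` with `¬ q ∣ c + h` for all
`q ∣ m`: `(c + h).Coprime m`; for a prime `p ∈ (y1, y2]`, `p ≥ h`: `p - h ≡ c` iff `p ≡ c + h [MOD m]`, so the sum is
`thp y2 m (c + h) - thp y1 m (c + h)`, `XX y1 y2 = th y2 - th y1` (`XX_eq`), and `∏_{q ∣ m} gq q = 1/φ(m)` (`m` squarefree,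
`Nat.totient_eq_prod_factorization` or `Nat.prod_primeFactors_of_squarefree`). `2 n/L^(A+1) ≤ n/L^A`. -/
theorem lvlB (A E : ℕ) : ∃ A' B n0 : ℕ, ∀ n : ℕ, n0 ≤ n → ∀ p1 : ℕ, SWp A' n p1 →
    ∀ h y1 y2 : ℕ, h ≤ y1 → y1 ≤ y2 → y2 ≤ 2 * n →
      Lvl (sB h y1 y2) p1 (DD n B) E (n / Real.log n ^ A) := by
  obtain ⟨A', B, n0, hbv⟩ := bvw (A + 1) E
  obtain ⟨n1, hn1, hlog⟩ := V1_ev
  refine ⟨A', B, max n0 n1, fun n hn p1 hSW h y1 y2 hy h12 hy2 => ?_⟩
  have hL := hlog n ((le_max_right _ _).trans hn)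
  obtain ⟨r1, h01, hr1, hs1⟩ := hbv n ((le_max_left _ _).trans hn) p1 hSW y1 (by omega)
  obtain ⟨r2, h02, hr2, hs2⟩ := hbv n ((le_max_left _ _).trans hn) p1 hSW y2 (by omega)
  refine ⟨fun d => r1 d + r2 d, fun d => add_nonneg (h01 d) (h02 d), ?_, ?_⟩
  · intro m hm hmD hp1 c hc
    have hm1 : 1 ≤ m := Nat.pos_of_ne_zero hm.ne_zero
    have hcop : (c + h).Coprime m := V3_coprime _ _ hm.ne_zero hc
    have e1 := hr1 m hm1 hmD hp1 _ hcop
    have e2 := hr2 m hm1 hmD hp1 _ hcop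
    have e3 : ∑ i ∈ (sB h y1 y2).S.filter (fun i => (sB h y1 y2).x i ≡ c [MOD m]),
        (sB h y1 y2).wt i - (sB h y1 y2).X * ∏ q ∈ m.primeFactors, (sB h y1 y2).hd q =
        (thp y2 m (c + h) - th y2 / (Nat.totient m : ℝ)) -
          (thp y1 m (c + h) - th y1 / (Nat.totient m : ℝ)) := by
      change ∑ p ∈ (Sq y1 y2).filter (fun p => p - h ≡ c [MOD m]), lg p -
        XX y1 y2 * ∏ q ∈ m.primeFactors, gq q = _
      rw [V3_sum m h y1 y2 c hy h12, V3_gq m hm, XX_eq h12]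
      ring
    rw [e3]
    refine (abs_sub _ _).trans ((add_le_add e2 e1).trans ?_)
    rw [add_comm]
  · have e1 : ∑ m ∈ (Icc 1 (DD n B)).filter (fun m => Squarefree m ∧ ¬ p1 ∣ m),
        (E : ℝ) ^ m.primeFactors.card * (r1 m + r2 m) ≤
        ∑ m ∈ (Icc 1 (DD n B)).filter (fun m => ¬ p1 ∣ m),
          (E : ℝ) ^ m.primeFactors.card * (r1 m + r2 m) := by
      apply sum_le_sum_of_subset_of_nonneg
      · exact monotone_filter_right _ fun m _ hm => hm.2
      · intro m _ _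
        have := h01 m
        have := h02 m
        positivity
    refine e1.trans ?_
    simp only [mul_add]
    rw [sum_add_distrib]
    refine (add_le_add hs1 hs2).trans ?_
    have hL0 : 0 < Real.log n := by linarith
    have e2 : (n : ℝ) / Real.log n ^ (A + 1) + n / Real.log n ^ (A + 1) =
        n / Real.log n ^ A * (2 / Real.log n) := by
      rw [pow_succ]
      field_simp
      ring
    rw [e2]
    have e3 : 2 / Real.log n ≤ 1 := by
      rw [div_le_one hL0]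
      linarith
    calc (n : ℝ) / Real.log n ^ A * (2 / Real.log n) ≤ n / Real.log n ^ A * 1 :=
          mul_le_mul_of_nonneg_left e3 (by positivity)
      _ = _ := mul_one _

end Pool.Agent.Lib.H57C
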