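import Pool.Agent.Lib.H57C.M6
import Pool.Agent.Lib.H57C.V3
import Pool.Agent.Lib.H57C.A2
import Pool.Agent.Lib.H57C.RA

/-!
# Chunk RB: the remainder terms for the sequence `t + h` prime
-/

open Finset

namespace Pool.Agent.Lib.H57C

open Pool.Agent.Lib.H57M

theorem RB_ev (k : ℕ) (s C : ℝ) (hs : 0 < s) (hC : 0 < C) : ∃ n0 : ℕ, ∀ N : ℕ, n0 ≤ N →
    C * Real.log N ^ k ≤ (N : ℝ) ^ s := by
  have h1 : ∀ᶠ x : ℝ in Filter.atTop, C * Real.log x ^ k ≤ x ^ s := by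
    have e1 := (isLittleO_log_rpow_rpow_atTop (k : ℝ) hs).def (show (0 : ℝ) < 1 / C by positivity)
    filter_upwards [e1, Filter.eventually_ge_atTop (1 : ℝ)] with x hx1 hx2
    have hl : 0 ≤ Real.log x := Real.log_nonneg hx2
    rw [Real.rpow_natCast, Real.norm_eq_abs, Real.norm_eq_abs, abs_of_nonneg (pow_nonneg hl _),
      abs_of_nonneg (Real.rpow_nonneg (by linarith) _)] at hx1
    calc C * Real.log x ^ k ≤ C * (1 / C * x ^ s) := mul_le_mul_of_nonneg_left hx1 hC.le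
      _ = x ^ s := by
          field_simp
  obtain ⟨n0, hn0⟩ := Filter.eventually_atTop.1
    ((tendsto_natCast_atTop_atTop (R := ℝ)).eventually h1)
  exact ⟨n0, hn0⟩

theorem RB_DD (B : ℕ) (θ : ℝ) (hθ : 0 < θ) (hθ1 : θ ≤ 1 / 100) : ∃ n0 : ℕ, ∀ n : ℕ, n0 ≤ n →
    (n : ℝ) ^ (1 / 2 - θ) ≤ (H59C.DD n B : ℕ) := by
  obtain ⟨n0, hn0⟩ := RB_ev B θ 2 hθ (by norm_num)
  refine ⟨max n0 3, fun n hn => ?_⟩
  have h1 := hn0 n (le_trans (le_max_left _ _) hn)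
  have hn3 : 3 ≤ n := le_trans (le_max_right _ _) hn
  have hnr : (3 : ℝ) ≤ n := by exact_mod_cast hn3
  have hL : 0 < Real.log n := Real.log_pos (by linarith)
  unfold H59C.DD
  have h2 : (n : ℝ) ^ (1 / 2 - θ) + 1 ≤ Real.sqrt n / Real.log n ^ B := by
    rw [le_div_iff₀ (by positivity)]
    have h3 : 1 ≤ (n : ℝ) ^ (1 / 2 - θ) := Real.one_le_rpow (by linarith) (by linarith)
    have h4 : (n : ℝ) ^ (1 / 2 - θ) * (n : ℝ) ^ θ = Real.sqrt n := by
      rw [Real.sqrt_eq_rpow, ← Real.rpow_add (by linarith)]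
      congr 1
      ring
    calc ((n : ℝ) ^ (1 / 2 - θ) + 1) * Real.log n ^ B
        ≤ ((n : ℝ) ^ (1 / 2 - θ) * 2) * Real.log n ^ B := by
          apply mul_le_mul_of_nonneg_right _ (by positivity)
          linarith
      _ = (n : ℝ) ^ (1 / 2 - θ) * (2 * Real.log n ^ B) := by ring
      _ ≤ (n : ℝ) ^ (1 / 2 - θ) * (n : ℝ) ^ θ := mul_le_mul_of_nonneg_left h1 (by linarith)
      _ = Real.sqrt n := h4
  have h5 := Nat.lt_floor_add_one (Real.sqrt n / Real.log n ^ B)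
  linarith

theorem RB_FC {K : ℕ} (w : Par K) (H : Finset ℕ) (S : {h // h ∈ H} → Finset {p // p ∈ w.P}) :
    0 ≤ FC w H S := by
  have hz : 0 ≤ w.z := by
    unfold Par.z
    have : 0 ≤ ∑ i, H15P.ex (H15P.qq w.P K) (fun A => w.D i A ^ 2) :=
      Finset.sum_nonneg fun i _ => H15P.ex_nonneg _ w.good.q0 w.good.q1 _ fun A => sq_nonneg _
    linarith
  unfold FC
  exact div_nonneg (sq_nonneg _) (pow_nonneg hz _)

theorem RB_gq0 (q : ℕ) (hq : q.Prime) : 0 ≤ H59C.gq q := by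
  have h2 : (2 : ℝ) ≤ q := by exact_mod_cast hq.two_le
  unfold H59C.gq
  exact div_nonneg zero_le_one (by linarith)

theorem RB_gq2 (q : ℕ) (hq : q.Prime) : H59C.gq q ≤ 2 / q := by
  have h2 : (2 : ℝ) ≤ q := by exact_mod_cast hq.two_le
  unfold H59C.gq
  rw [div_le_div_iff₀ (by linarith) (by linarith)]
  linarith

theorem RB_gqq (q : ℕ) (hq : q.Prime) : |H59C.gq q - 1 / q| ≤ 2 / (q : ℝ) ^ 2 := by
  have h2 : (2 : ℝ) ≤ q := by exact_mod_cast hq.two_le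
  have h3 : (q : ℝ) - 1 ≠ 0 := by linarith
  have h4 : (q : ℝ) ≠ 0 := by linarith
  have h1 : H59C.gq q - 1 / q = 1 / (((q : ℝ) - 1) * q) := by
    unfold H59C.gq
    field_simp
    ring
  have h5 : 0 < ((q : ℝ) - 1) * q := mul_pos (by linarith) (by linarith)
  rw [h1, abs_of_nonneg (by positivity), div_le_div_iff₀ h5 (by positivity)]
  nlinarith

theorem RB_XX (n y1 y2 : ℕ) (h2 : y2 ≤ n) (hL : 1 ≤ Real.log n) :
    H59C.XX y1 y2 ≤ n * Real.log n ^ 2 := by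
  unfold H59C.XX
  have h1 : ∀ p ∈ H59C.Sq y1 y2, H59C.lg p ≤ Real.log n := by
    intro p hp
    rw [Pool.Agent.Lib.H59C.mem_Sq] at hp
    unfold H59C.lg
    apply Real.log_le_log (by exact_mod_cast hp.2.pos)
    exact_mod_cast (by omega : p ≤ n)
  have h3 := Finset.sum_le_card_nsmul _ _ _ h1
  rw [nsmul_eq_mul] at h3
  have h4 : ((H59C.Sq y1 y2).card : ℝ) ≤ n := by
    have h5 : (H59C.Sq y1 y2).card ≤ n := by
      unfold H59C.Sq
      refine le_trans (card_filter_le _ _) ?_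
      rw [Nat.card_Ioc]
      omega
    exact_mod_cast h5
  refine le_trans h3 ?_
  have h6 : Real.log n ≤ Real.log n ^ 2 := by nlinarith
  exact mul_le_mul h4 h6 (by linarith) (Nat.cast_nonneg _)

theorem RB_large (B : ℕ) : ∃ n0 : ℕ, ∀ N : ℕ, n0 ≤ N →
    1000 ≤ N ∧ 1 ≤ Real.log N ∧ 100 * (Real.log N ^ B + 1) ≤ (N : ℝ) ∧
      10 * (N : ℝ) ^ (1 / 100 : ℝ) ≤ N := by
  have h1 : ∀ᶠ x : ℝ in Filter.atTop, 1 ≤ Real.log x ∧ 100 * (Real.log x ^ B + 1) ≤ x := by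
    have e1 := (Real.isLittleO_pow_log_id_atTop (n := B)).def (show (0 : ℝ) < 1 / 200 by norm_num)
    filter_upwards [e1, Filter.eventually_ge_atTop (200 : ℝ),
      Real.tendsto_log_atTop.eventually_ge_atTop 1] with x hx1 hx2 hx3
    refine ⟨hx3, ?_⟩
    rw [Real.norm_eq_abs, Real.norm_eq_abs, abs_of_nonneg (pow_nonneg (by linarith) _), id, abs_of_nonneg (by linarith)] at hx1
    linarith
  obtain ⟨n0, hn0⟩ := Filter.eventually_atTop.1
    ((tendsto_natCast_atTop_atTop (R := ℝ)).eventually h1)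
  refine ⟨max n0 1000, fun N hN => ?_⟩
  obtain ⟨a1, a2⟩ := hn0 N (le_trans (le_max_left _ _) hN)
  have a3 : 1000 ≤ N := le_trans (le_max_right _ _) hN
  have a4 : (1000 : ℝ) ≤ N := by exact_mod_cast a3
  refine ⟨a3, a1, a2, ?_⟩
  have h2 : (N : ℝ) ^ (1 / 100 : ℝ) ≤ (N : ℝ) ^ (1 / 2 : ℝ) :=
    Real.rpow_le_rpow_of_exponent_le (by linarith) (by norm_num)
  have h3 : 10 ≤ (N : ℝ) ^ (1 / 2 : ℝ) := by
    rw [← Real.sqrt_eq_rpow]
    apply Real.le_sqrt_of_sq_le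
    linarith
  have h4 : (N : ℝ) ^ (1 / 2 : ℝ) * (N : ℝ) ^ (1 / 2 : ℝ) = N := by
    rw [← Real.rpow_add (by linarith)]
    norm_num
  nlinarith

/-- The hypotheses of the transfer theorem. -/
theorem RB_Hy (B cF K k : ℕ) (θ : ℝ) (n : ℕ) (w : Par K) (H : Finset ℕ) (p1 : ℕ)
    (R T : ℕ → Finset ℕ) (P' : Finset ℕ) (hP : Pre0 B cF θ w H n p1)
    (hT : HRT K k w.W p1 H R T P') (h : ℕ) (hh : h ∈ H) (hn : 1000 ≤ n)
    (hl : 100 * (Real.log n ^ B + 1) ≤ (n : ℝ)) (hL : 1 ≤ Real.log n)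
    (hr : 10 * (n : ℝ) ^ (1 / 100 : ℝ) ≤ n) :
    Hy (sB h (Ya n + h) (Yb n + h)) w.P H (some h) w.W p1 R T P' (K + k) 0 := by
  have hW : 100 * w.W ≤ n := by
    have h1 : (w.W : ℝ) ≤ Real.log n ^ B + 1 := by
      rw [hP.Wdef]
      exact (Nat.ceil_lt_add_one (by positivity)).le
    have h3 : (100 * w.W : ℝ) ≤ n := by linarith
    exact_mod_cast h3
  have hPs : ∀ q ∈ Ps w.W p1, q.Prime := fun q hq => a2_Ps hq
  refine ⟨?_, ?_, ?_, ?_, RB_gq0, RB_gq2, fun q hq _ => RB_gqq q hq,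
    fun p hp => ⟨w.prime p hp, w.big p hp⟩, hP.p1p, hP.p1W, hP.HW, ?_, hT.Rr, hT.Rk, ?_,
    hT.P'p, hT.Tr, ?_, ?_, ?_, ?_⟩
  · intro j _
    show 0 ≤ H59C.lg j
    unfold H59C.lg
    exact Real.log_natCast_nonneg _
  · show 0 ≤ H59C.XX (Ya n + h) (Yb n + h)
    unfold H59C.XX H59C.lg
    exact sum_nonneg fun p _ => Real.log_natCast_nonneg _
  · intro q c c' hc
    show ¬ q ∣ c + h ↔ ¬ q ∣ c' + h
    have h1 : c + h ≡ c' + h [MOD q] := hc.add_right h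
    rw [h1.dvd_iff (dvd_refl q)]
  · intro j hj _ q hq hqq
    show ¬ q ∣ j - h + h
    have hj' : j ∈ H59C.Sq (Ya n + h) (Yb n + h) := hj
    rw [Pool.Agent.Lib.H59C.mem_Sq] at hj'
    obtain ⟨⟨h1, h2⟩, h3⟩ := hj'
    rw [Nat.sub_add_cancel (by omega)]
    intro hd
    have h4 : q = j := (Nat.prime_dvd_prime_iff_eq hq h3).1 hd
    have h5 : 10 * q ≤ n := by
      rcases hqq with hqq | hqq
      · have h6 := hP.PN q hqq
        have h7 : (10 * q : ℝ) ≤ n := by linarith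
        exact_mod_cast h7
      · omega
    unfold Ya at h1
    omega
  · intro h' hh'
    rw [Option.some.injEq] at hh'
    rw [← hh']
    exact hh
  · classical
    intro q hq
    have hqp := hPs q hq
    have h0 : ∀ S : Finset ℕ, S ⊆ R q → (S.card : ℝ) * H59C.gq q ≤ 1 := by
      intro S hS
      have h1 : S.card + 1 ≤ q := by
        have h2 := hT.Rq q hq
        have h3 := card_le_card hS
        omega
      have h2 : (S.card : ℝ) + 1 ≤ q := by exact_mod_cast h1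
      have h3 : (2 : ℝ) ≤ q := by exact_mod_cast hqp.two_le
      unfold H59C.gq
      rw [mul_one_div, div_le_one (by linarith)]
      linarith
    exact h0 _ (filter_subset _ _)
  · intro q hq
    have := hT.Tk q hq
    omega
  · intro q hq t ht
    exact hT.TH q hq t ht h hh
  · intro q hq t ht h' hh' _
    exact hT.TH q hq t ht h' hh'
  · classical
    rw [Nat.le_zero, card_eq_zero]
    refine Finset.eq_empty_of_forall_notMem fun p hpf => ?_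
    rw [mem_filter] at hpf
    obtain ⟨hp, h', hh', hne, c, hc1, hc2⟩ := hpf
    have hc3 : p ∣ c + h := by
      by_contra hcon
      exact hc2 hcon
    have hpW := w.big p hp
    have hW1 := hP.HW h hh
    have hW2 := hP.HW h' hh'
    have hne' : h ≠ h' := fun he => hne (by rw [he])
    rcases Nat.lt_or_ge h h' with hlt | hge
    · have h5 : p ∣ (c + h') - (c + h) := Nat.dvd_sub hc1 hc3
      have h6 := Nat.le_of_dvd (by omega) h5
      omega
    · have h5 : p ∣ (c + h) - (c + h') := Nat.dvd_sub hc3 hc1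
      have h6 := Nat.le_of_dvd (by omega) h5
      omega

/-- Proof. `mta` with `k` replaced by `K + k`, for the sequence `sB h (Ya n + h) (Yb n + h)`, `i = some h`, `P = w.P`, `F = FC w H`,
`b = 0`, `hr = gq`, `D = DD n B1` from `lvlB A (3 K + 2 (K + k))` (`n^(1/2 - θ) ≤ DD n B1` for large `n`). `A'` is the one of `lvlB`. The hypotheses `Hy`:
* `nev`: `t = p - h`, `t + h = p > Ya n` prime, and the primes of `w.P` and those `≤ W` are `≤ n^(1/100) < p` (`Pre0.PN`, `Wdef`).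
* `hd = gq`: `1/(q-1) - 1/q = 1/(q(q-1)) ≤ 2/q^2`.
* `R1`: `#R < q` and the class `-h` (which is in `R q` by `RH`) is not allowed: `#.. ≤ q - 1` (even `q - 2`), `gq q = 1/(q-1)`.
* `TA`, `TH`: `HRT.TH`. `bad`: empty (`p ∣ c + h'`, `p ∣ c + h`, `h ≠ h'`, `|h - h'| ≤ W < p`).
`FC w H (cfg ..) = FF`; `VS = VbR` (`vs_BR`); `0 ≤ XX ≤ n log^2 n`. -/
theorem rBR (K k cF A0 : ℕ) (hK : 1 ≤ K) (hk : 1 ≤ k) : ∃ A' B0 : ℕ, ∀ B : ℕ, B0 ≤ B → ∀ θ : ℝ,
    0 < θ → θ ≤ 1 / 100 → ∃ n0 : ℕ, ∀ n : ℕ, n0 ≤ n → ∀ (w : Par K) (H : Finset ℕ) (p1 : ℕ)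
    (R T : ℕ → Finset ℕ) (P' : Finset ℕ), Pre0 B cF θ w H n p1 → HRT K k w.W p1 H R T P' →
    H59C.SWp A' n p1 → ∀ h ∈ H, ∑ d ∈ Dv P' (Lv n θ),
    |∑ p ∈ (H59C.Sq (Ya n + h) (Yb n + h)).filter (fun p => inT T d (p - h)),
        H59C.lg p * (FF w H (some h) (p - h) * Sg (Ps w.W p1) R (p - h)) -
      H59C.XX (Ya n + h) (Yb n + h) * (AE w.P H (some h) (FC w H) * VbR (Ps w.W p1) R) *
        ∏ q ∈ d.primeFactors, (((T q).card : ℝ) * H59C.gq q)| ≤ n / Real.log n ^ A0 := by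
  obtain ⟨A, B0, hm⟩ := mta K (K + k) cF A0 hK (by omega)
  obtain ⟨A', B1, n1, hl⟩ := lvlB A (K * 3 + 2 * (K + k))
  refine ⟨A', B0, fun B hB θ hθ hθ1 => ?_⟩
  obtain ⟨n2, hm2⟩ := hm B hB θ hθ hθ1
  obtain ⟨n3, hn3⟩ := RB_DD B1 θ hθ hθ1
  obtain ⟨n4, hn4⟩ := RB_large B
  refine ⟨max (max n1 n2) (max n3 n4), fun n hn w H p1 R T P' hP hT hSW h hh => ?_⟩
  have hN1 : n1 ≤ n := le_trans (le_trans (le_max_left _ _) (le_max_left _ _)) hn
  have hN2 : n2 ≤ n := le_trans (le_trans (le_max_right _ _) (le_max_left _ _)) hn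
  have hN3 : n3 ≤ n := le_trans (le_trans (le_max_left _ _) (le_max_right _ _)) hn
  have hN4 : n4 ≤ n := le_trans (le_trans (le_max_right _ _) (le_max_right _ _)) hn
  obtain ⟨g1, g2, g3, g4⟩ := hn4 n hN4
  have hnr : (1000 : ℝ) ≤ n := by exact_mod_cast g1
  have hHy := RB_Hy B cF K k θ n w H p1 R T P' hP hT h hh g1 g3 g2 g4
  have hW : 100 * w.W ≤ n := by
    have h1 : (w.W : ℝ) ≤ Real.log n ^ B + 1 := by
      rw [hP.Wdef]
      exact (Nat.ceil_lt_add_one (by positivity)).le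
    have h3 : (100 * w.W : ℝ) ≤ n := by linarith
    exact_mod_cast h3
  have hhW := hP.HW h hh
  have hYn : Yb n + h ≤ n := by
    unfold Yb
    omega
  have hYY : Ya n ≤ Yb n := by
    unfold Ya Yb
    omega
  have hlvl := hl n hN1 p1 hSW h (Ya n + h) (Yb n + h) (by omega) (by omega) (by omega)
  have hPn : ∀ p ∈ w.P, p ≤ n := by
    intro p hp
    have h1 := hP.PN p hp
    have h2 : (p : ℝ) ≤ n := by
      have h3 : 0 ≤ (n : ℝ) ^ (1 / 100 : ℝ) := Real.rpow_nonneg (by linarith) _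
      linarith
    exact_mod_cast h2
  have hX : (sB h (Ya n + h) (Yb n + h)).X ≤ n * Real.log n ^ 2 := RB_XX n _ _ hYn g2
  have hb : ((0 : ℕ) : ℝ) ≤ Real.log n ^ 2 := by
    rw [Nat.cast_zero]
    exact sq_nonneg _
  have key := hm2 n hN2 (sB h (Ya n + h) (Yb n + h)) w.P H (some h) w.W p1 R T P' 0 H59C.gq
    (FC w H) (H59C.DD n B1) hHy RB_gq0 RB_gq2 (fun q hq _ => RB_gqq q hq) hP.cardH hP.Wdef hPn hX hb
    (RB_FC w H) hP.exF (hn3 n hN3) hlvl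
  have hVS : VS (Ps w.W p1) R H59C.gq (fun q c => ¬ q ∣ c + h) = VbR (Ps w.W p1) R :=
    vs_BR _ R h (fun q hq => a2_Ps hq) (fun q _ => hT.Rr q) (fun q hq => hT.RH q hq h hh)
  rw [← hVS]
  exact key

/-- Proof. `rBR` with `k = 1`, `A0 = 10`, `R = Rb N H`, `T q = {N % q}`, `P' = Pg N w.W H` (`pre_hrt`, `Pre.to0`). `inT T d (p - h)` iff `d ∣ N - (p - h) =
Nat.dist (N + h) p` (`inT_iff`; `h ≤ p ≤ N + h`), `∏ gq = 1/φ(d)` (`prod_gq`). -/
theorem rB (K cF : ℕ) (hK : 1 ≤ K) : ∃ A' B0 : ℕ, ∀ B : ℕ, B0 ≤ B → ∀ θ : ℝ, 0 < θ →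
    θ ≤ 1 / 100 → ∃ n0 : ℕ, ∀ N : ℕ, n0 ≤ N → ∀ (w : Par K) (H : Finset ℕ) (p1 : ℕ),
    Pre B cF θ w H N p1 → H59C.SWp A' N p1 → ∀ h ∈ H, ∑ d ∈ Dv (Pg N w.W H) (Lv N θ),
    |∑ p ∈ (H59C.Sq (Ya N + h) (Yb N + h)).filter (fun p => d ∣ Nat.dist (N + h) p),
        H59C.lg p * Fs w H N p1 (some h) (p - h) -
      Xh w H N p1 h / (Nat.totient d : ℝ)| ≤ N / Real.log N ^ 10 := by
  obtain ⟨A', B0, hm⟩ := rBR K 1 cF 10 hK (le_refl 1)
  refine ⟨A', B0, fun B hB θ hθ hθ1 => ?_⟩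
  obtain ⟨n0, hn0⟩ := hm B hB θ hθ hθ1
  refine ⟨n0, fun N hN w H p1 hP hSW h hh => ?_⟩
  have key := hn0 N hN w H p1 (Rb N H) (fun q => {N % q}) (Pg N w.W H) hP.to0
    (pre_hrt B cF θ w H N p1 hP) hSW h hh
  refine le_trans (le_of_eq ?_) key
  refine sum_congr rfl fun d hd => ?_
  have hsq : Squarefree d := by
    unfold Dv at hd
    exact (mem_filter.1 hd).2.1
  have hYb : Yb N ≤ N := by
    unfold Yb
    omega
  have hf : (H59C.Sq (Ya N + h) (Yb N + h)).filter (fun p => d ∣ Nat.dist (N + h) p) =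
      (H59C.Sq (Ya N + h) (Yb N + h)).filter (fun p => inT (fun q => {N % q}) d (p - h)) := by
    refine filter_congr fun p hp => ?_
    rw [Pool.Agent.Lib.H59C.mem_Sq] at hp
    rw [inT_iff N d (p - h) hsq (by omega)]
    have h1 : Nat.dist (N + h) p = N - (p - h) := by
      unfold Nat.dist
      omega
    rw [h1]
  have hg : ∏ q ∈ d.primeFactors, (((({N % q} : Finset ℕ)).card : ℝ) * H59C.gq q) =
      1 / (Nat.totient d : ℝ) := by
    rw [← prod_gq d hsq]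
    refine prod_congr rfl fun q _ => ?_
    rw [card_singleton, Nat.cast_one, one_mul]
  rw [hf, hg, mul_one_div]
  rfl

end Pool.Agent.Lib.H57C
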