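import Pool.Agent.Lib.H57C.VF
import Pool.Agent.Lib.H57C.V1

/-!
# Chunk V2: the bilinear Bombieri-Vinogradov theorem, all classes at once, with weights
-/

open Finset

namespace Pool.Agent.Lib.H57C

open Pool.Agent.Lib.H59C

/-- solutions of a linear congruence -/
theorem V2_one (d a m y : ℕ) (hd : 1 ≤ d) (ha : a.Coprime d) :
    (((Icc 1 y).filter (fun q => m * q ≡ a [MOD d])).card : ℝ) ≤ y / d + 1 := by
  rcases ((Icc 1 y).filter (fun q => m * q ≡ a [MOD d])).eq_empty_or_nonempty with h | ⟨q0, h⟩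
  · rw [h, card_empty]
    push_cast
    positivity
  · rw [mem_filter] at h
    have h1 : (m * q0).Coprime d := by
      rw [Nat.Coprime, h.2.gcd_eq]
      exact ha
    have h2 : d.Coprime m := (Nat.Coprime.coprime_mul_right h1).symm
    refine le_trans ?_ (bv2_card y d q0 hd)
    have h3 : ((Icc 1 y).filter (fun q => m * q ≡ a [MOD d])).card ≤
        ((Icc 1 y).filter (fun q => q ≡ q0 [MOD d])).card := by
      apply card_le_card
      apply monotone_filter_right
      intro q _ hq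
      exact Nat.ModEq.cancel_left_of_coprime h2 (hq.trans h.2.symm)
    exact_mod_cast h3

/-- the number of pairs -/
theorem V2_count (n d a M v : ℕ) (hd : 1 ≤ d) (hdn : (d : ℝ) ≤ Real.sqrt n) (ha : a.Coprime d)
    (hMv : M * v ≤ 8 * n) :
    ∑ m ∈ Icc 1 M, (((Icc 1 v).filter (fun q => m * q ≡ a [MOD d])).card : ℝ) ≤ 11 * n / d := by
  have hd0 : (0 : ℝ) < d := by exact_mod_cast hd
  have h1 : ∑ m ∈ Icc 1 M, (((Icc 1 v).filter (fun q => m * q ≡ a [MOD d])).card : ℝ) ≤
      M * (v / d + 1) := by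
    refine (sum_le_sum fun m _ => V2_one d a m v hd ha).trans ?_
    rw [sum_const, nsmul_eq_mul, Nat.card_Icc]
    simp
  have h2 : ∑ m ∈ Icc 1 M, (((Icc 1 v).filter (fun q => m * q ≡ a [MOD d])).card : ℝ) ≤
      v * (M / d + 1) := by
    have e1 : ∑ m ∈ Icc 1 M, (((Icc 1 v).filter (fun q => m * q ≡ a [MOD d])).card : ℝ) =
        ∑ q ∈ Icc 1 v, (((Icc 1 M).filter (fun m => q * m ≡ a [MOD d])).card : ℝ) := by
      simp only [card_filter, Nat.cast_sum]
      rw [sum_comm]
      apply sum_congr rfl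
      intro q _
      apply sum_congr rfl
      intro m _
      rw [mul_comm m q]
    rw [e1]
    refine (sum_le_sum fun q _ => V2_one d a q M hd ha).trans ?_
    rw [sum_const, nsmul_eq_mul, Nat.card_Icc]
    simp
  obtain ⟨c, hc⟩ : ∃ c : ℝ, c = ∑ m ∈ Icc 1 M,
    (((Icc 1 v).filter (fun q => m * q ≡ a [MOD d])).card : ℝ) := ⟨_, rfl⟩
  rw [← hc] at h1 h2 ⊢
  have hM0 : (0 : ℝ) ≤ M := Nat.cast_nonneg _
  have hv0 : (0 : ℝ) ≤ v := Nat.cast_nonneg _
  have hMvR : (M : ℝ) * v ≤ 8 * n := by exact_mod_cast hMv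
  have h3 : c - M * v / d ≤ M := by
    have : (M : ℝ) * (v / d + 1) = M * v / d + M := by ring
    linarith
  have h4 : c - M * v / d ≤ v := by
    have : (v : ℝ) * (M / d + 1) = M * v / d + v := by ring
    linarith
  have hs := Real.sqrt_nonneg n
  have hss : Real.sqrt n * Real.sqrt n = n := Real.mul_self_sqrt (Nat.cast_nonneg _)
  have h5 : c - M * v / d ≤ 3 * Real.sqrt n := by
    rcases le_or_gt (c - M * v / d) 0 with h | h
    · linarith
    · by_contra h6
      push Not at h6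
      have h7 : (3 * Real.sqrt n) * (3 * Real.sqrt n) < M * v :=
        mul_lt_mul'' (h6.trans_le h3) (h6.trans_le h4) (by positivity) (by positivity)
      have h8 : (0 : ℝ) ≤ n := Nat.cast_nonneg _
      nlinarith
  have h6 : Real.sqrt n ≤ n / d := by
    rw [le_div_iff₀ hd0]
    nlinarith
  have h7 : (M : ℝ) * v / d ≤ 8 * n / d := div_le_div_of_nonneg_right hMvR hd0.le
  have h8 : 11 * (n : ℝ) / d = 8 * n / d + 3 * (n / d) := by ring
  linarith

/-- the difference -/
noncomputable def V2_f (M u v d : ℕ) (α : ℕ → ℝ) (a : ℕ) : ℝ :=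
  |∑ m ∈ Icc 1 M, α m * ∑ q ∈ (Ioc u v).filter (fun q => q.Prime ∧ m * q ≡ a [MOD d]),
      Real.log q -
    1 / (Nat.totient d : ℝ) * ((∑ m ∈ (Icc 1 M).filter (fun m => m.Coprime d), α m) *
      ∑ q ∈ (Ioc u v).filter (fun q => q.Prime ∧ q.Coprime d), Real.log q)|

theorem V2_mod (M u v d : ℕ) (α : ℕ → ℝ) (a : ℕ) : V2_f M u v d α (a % d) = V2_f M u v d α a := by
  unfold V2_f
  have h : ∀ m, (Ioc u v).filter (fun q => q.Prime ∧ m * q ≡ a % d [MOD d]) =
      (Ioc u v).filter (fun q => q.Prime ∧ m * q ≡ a [MOD d]) := by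
    intro m
    apply filter_congr
    intro q _
    rw [Nat.ModEq, Nat.ModEq, Nat.mod_mod]
  simp only [h]

theorem V2_triv (n M u v d : ℕ) (α : ℕ → ℝ) (a : ℕ) (hn : 8 ≤ n) (hL : 500 ≤ Real.log n)
    (hα : ∀ m, |α m| ≤ 1) (hM : 1 ≤ M) (hv : 1 ≤ v) (hMv : M * v ≤ 8 * n) (hd : 1 ≤ d)
    (hdn : (d : ℝ) ≤ Real.sqrt n) (ha : a.Coprime d) :
    V2_f M u v d α a ≤ 100 * n * Real.log n * (1 / (Nat.totient d : ℝ)) := by
  have hnR : (8 : ℝ) ≤ n := by exact_mod_cast hn
  have hd0 : (0 : ℝ) < d := by exact_mod_cast hd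
  have hphi : (0 : ℝ) < Nat.totient d := by exact_mod_cast Nat.totient_pos.2 (by omega)
  have hphi2 : (Nat.totient d : ℝ) ≤ d := by exact_mod_cast Nat.totient_le d
  have hvn : v ≤ 8 * n := (Nat.le_mul_of_pos_left v hM).trans hMv
  have hlv : Real.log v ≤ 2 * Real.log n := by
    have h1 : Real.log v ≤ Real.log (8 * n) := Real.log_le_log (by exact_mod_cast hv)
      (by exact_mod_cast hvn)
    rw [Real.log_mul (by norm_num) (by positivity)] at h1
    have h2 : Real.log 8 ≤ Real.log n := Real.log_le_log (by norm_num) hnR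
    linarith
  have hlv0 : 0 ≤ Real.log v := Real.log_natCast_nonneg v
  have hMvR : (M : ℝ) * v ≤ 8 * n := by exact_mod_cast hMv
  have hlq : ∀ q ∈ Ioc u v, 0 ≤ Real.log q ∧ Real.log q ≤ Real.log v := by
    intro q hq
    rw [mem_Ioc] at hq
    refine ⟨Real.log_natCast_nonneg q, ?_⟩
    apply Real.log_le_log
    · have : 0 < q := by omega
      exact_mod_cast this
    · exact_mod_cast hq.2
  -- first sum
  have h1 : |∑ m ∈ Icc 1 M, α m * ∑ q ∈ (Ioc u v).filter (fun q => q.Prime ∧ m * q ≡ a [MOD d]),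
      Real.log q| ≤ Real.log v * (11 * n / d) := by
    refine (abs_sum_le_sum_abs _ _).trans ?_
    refine le_trans ?_ (mul_le_mul_of_nonneg_left (V2_count n d a M v hd hdn ha hMv) hlv0)
    rw [mul_sum]
    apply sum_le_sum
    intro m _
    rw [abs_mul]
    have h2 : |∑ q ∈ (Ioc u v).filter (fun q => q.Prime ∧ m * q ≡ a [MOD d]), Real.log q| ≤
        Real.log v * (((Icc 1 v).filter (fun q => m * q ≡ a [MOD d])).card : ℝ) := by
      rw [abs_of_nonneg (sum_nonneg fun q hq => (hlq q (mem_filter.1 hq).1).1)]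
      refine (sum_le_sum fun q hq => (hlq q (mem_filter.1 hq).1).2).trans ?_
      rw [sum_const, nsmul_eq_mul, mul_comm]
      apply mul_le_mul_of_nonneg_left _ hlv0
      have h3 : ((Ioc u v).filter (fun q => q.Prime ∧ m * q ≡ a [MOD d])).card ≤
          ((Icc 1 v).filter (fun q => m * q ≡ a [MOD d])).card := by
        apply card_le_card
        intro q hq
        rw [mem_filter, mem_Ioc] at hq
        rw [mem_filter, mem_Icc]
        exact ⟨⟨by omega, hq.1.2⟩, hq.2.2⟩
      exact_mod_cast h3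
    calc |α m| * |∑ q ∈ (Ioc u v).filter (fun q => q.Prime ∧ m * q ≡ a [MOD d]), Real.log q|
        ≤ 1 * (Real.log v * (((Icc 1 v).filter (fun q => m * q ≡ a [MOD d])).card : ℝ)) :=
          mul_le_mul (hα m) h2 (abs_nonneg _) (by norm_num)
      _ = _ := one_mul _
  -- main term
  have h2 : |1 / (Nat.totient d : ℝ) * ((∑ m ∈ (Icc 1 M).filter (fun m => m.Coprime d), α m) *
      ∑ q ∈ (Ioc u v).filter (fun q => q.Prime ∧ q.Coprime d), Real.log q)| ≤
      1 / (Nat.totient d : ℝ) * (M * (v * Real.log v)) := by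
    rw [abs_mul, abs_mul, abs_of_nonneg (by positivity : (0 : ℝ) ≤ 1 / (Nat.totient d : ℝ))]
    apply mul_le_mul_of_nonneg_left _ (by positivity)
    apply mul_le_mul _ _ (abs_nonneg _) (Nat.cast_nonneg _)
    · refine (abs_sum_le_sum_abs _ _).trans ((sum_le_sum fun m _ => hα m).trans ?_)
      rw [sum_const, nsmul_eq_mul, mul_one]
      have h3 : ((Icc 1 M).filter (fun m => m.Coprime d)).card ≤ M := by
        refine (card_filter_le _ _).trans ?_
        rw [Nat.card_Icc]
        omega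
      exact_mod_cast h3
    · rw [abs_of_nonneg (sum_nonneg fun q hq => (hlq q (mem_filter.1 hq).1).1)]
      refine (sum_le_sum fun q hq => (hlq q (mem_filter.1 hq).1).2).trans ?_
      rw [sum_const, nsmul_eq_mul]
      apply mul_le_mul_of_nonneg_right _ hlv0
      have h3 : ((Ioc u v).filter (fun q => q.Prime ∧ q.Coprime d)).card ≤ v := by
        refine (card_filter_le _ _).trans ?_
        rw [Nat.card_Ioc]
        omega
      exact_mod_cast h3
  unfold V2_f
  refine (abs_sub _ _).trans ((add_le_add h1 h2).trans ?_)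
  have h3 : Real.log v * (11 * n / d) ≤ 22 * (n * Real.log n * (1 / (Nat.totient d : ℝ))) := by
    have h4 : 11 * (n : ℝ) / d ≤ 11 * n / Nat.totient d :=
      div_le_div_of_nonneg_left (by positivity) hphi hphi2
    calc Real.log v * (11 * n / d) ≤ (2 * Real.log n) * (11 * n / Nat.totient d) :=
          mul_le_mul hlv h4 (by positivity) (by linarith)
      _ = _ := by ring
  have h4 : 1 / (Nat.totient d : ℝ) * (M * (v * Real.log v)) ≤
      16 * (n * Real.log n * (1 / (Nat.totient d : ℝ))) := by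
    have h5 : (M : ℝ) * (v * Real.log v) ≤ 8 * n * (2 * Real.log n) := by
      rw [← mul_assoc]
      exact mul_le_mul hMvR hlv hlv0 (by positivity)
    calc 1 / (Nat.totient d : ℝ) * (M * (v * Real.log v)) ≤
        1 / (Nat.totient d : ℝ) * (8 * n * (2 * Real.log n)) :=
          mul_le_mul_of_nonneg_left h5 (by positivity)
      _ = _ := by ring
  have h5 : 0 ≤ (n : ℝ) * Real.log n * (1 / (Nat.totient d : ℝ)) := by
    have : 0 < Real.log n := by linarith
    positivity
  linarith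

/-- Proof. As for `bvw` (file V1, not imported), from `bv_bilf`: `rr d` = the maximum of the left side over the classes `a < d` prime
to `d`. Trivial bound: the number of pairs `(m, q)`, `m ≤ M`, `u < q ≤ v`, `m q ≡ a mod d`, weighted with `log q ≤ 2 L`, is at most
`2 L ∑_{k ≤ 8 n, k ≡ a (d)} τ(k)`; to avoid the divisor function: for every `m` prime to `d` the `q ≤ v` with `m q ≡ a` are in one
class mod `d`, at most `v/d + 1` of them, and for every `q` prime to `d` at most `M/d + 1` of the `m`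
(if `m` is not prime to `d` there is no solution, as `a` is prime to `d`). So the count is `≤ min (M (v/d + 1), v (M/d + 1))
≤ M v/d + min (M, v) ≤ 8 n/d + √(8 n)`, and `d ≤ √n`: at most `12 n/d`. The main term is `≤ M v log v/φ(d)`. So
`rr d ≤ 100 n L/φ(d)`. Cauchy-Schwarz as in V1. -/
theorem bilw (A E : ℕ) : ∃ A' B n0 : ℕ, ∀ n : ℕ, n0 ≤ n → ∀ p1 : ℕ, SWp A' n p1 →
    ∀ (M u v : ℕ) (α : ℕ → ℝ), (∀ m, |α m| ≤ 1) → (n : ℝ) ^ (1 / 4 : ℝ) ≤ M →
    (n : ℝ) ^ (1 / 4 : ℝ) ≤ v → u ≤ v → M * v ≤ 8 * n → ∃ rr : ℕ → ℝ, (∀ d, 0 ≤ rr d) ∧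
      (∀ d, 1 ≤ d → d ≤ DD n B → ¬ p1 ∣ d → ∀ a : ℕ, a.Coprime d →
        |∑ m ∈ Icc 1 M, α m * ∑ q ∈ (Ioc u v).filter (fun q => q.Prime ∧ m * q ≡ a [MOD d]),
            Real.log q -
          1 / (Nat.totient d : ℝ) * ((∑ m ∈ (Icc 1 M).filter (fun m => m.Coprime d), α m) *
            ∑ q ∈ (Ioc u v).filter (fun q => q.Prime ∧ q.Coprime d), Real.log q)| ≤ rr d) ∧
      ∑ d ∈ (Icc 1 (DD n B)).filter (fun d => ¬ p1 ∣ d),
        (E : ℝ) ^ d.primeFactors.card * rr d ≤ n / Real.log n ^ A := by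
  obtain ⟨A', B, n0, hbv⟩ := bv_bilf (2 * A + 4 * E ^ 2 + 10)
  obtain ⟨n1, hn1, hlog⟩ := V1_ev
  refine ⟨A', B, max n0 n1, fun n hn p1 hSW M u v α hα hM hv huv hMv => ?_⟩
  have hn8 : 8 ≤ n := hn1.trans ((le_max_right _ _).trans hn)
  have hL := hlog n ((le_max_right _ _).trans hn)
  have hnR : (8 : ℝ) ≤ n := by exact_mod_cast hn8
  have hn4 : (1 : ℝ) ≤ (n : ℝ) ^ (1 / 4 : ℝ) := Real.one_le_rpow (by linarith) (by norm_num)
  have hM1 : 1 ≤ M := by exact_mod_cast hn4.trans hM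
  have hv1 : 1 ≤ v := by exact_mod_cast hn4.trans hv
  have hex : ∀ d : ℕ, 1 ≤ d → ∃ a0 : ℕ, a0.Coprime d ∧ ∀ a : ℕ, a.Coprime d →
      V2_f M u v d α a ≤ V2_f M u v d α a0 :=
    fun d hd => V1_max d hd (V2_f M u v d α) (V2_mod M u v d α)
  choose! a ha hmax using hex
  refine ⟨fun d => V2_f M u v d α (a d), fun _ => abs_nonneg _,
    fun d hd _ _ b hb => hmax d hd b hb, ?_⟩
  have hDs : (DD n B : ℝ) ≤ Real.sqrt n := by
    unfold DD
    refine (Nat.floor_le (by positivity)).trans ?_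
    exact div_le_self (Real.sqrt_nonneg _) (one_le_pow₀ (by linarith))
  have hDn : DD n B ≤ n := by
    have h1 : Real.sqrt n ≤ n := by
      rw [Real.sqrt_le_left (by linarith)]
      nlinarith
    exact_mod_cast hDs.trans h1
  have hsub : (Icc 1 (DD n B)).filter (fun d => ¬ p1 ∣ d) ⊆ Icc 1 n := by
    intro d hd
    rw [mem_filter, mem_Icc] at hd
    rw [mem_Icc]
    exact ⟨hd.1.1, hd.1.2.trans hDn⟩
  have hb1 : ∑ d ∈ (Icc 1 (DD n B)).filter (fun d => ¬ p1 ∣ d), V2_f M u v d α (a d) ≤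
      n / Real.log n ^ (2 * A + 4 * E ^ 2 + 10) := by
    have h1 := hbv n ((le_max_left _ _).trans hn) p1 hSW a M u v α hα hM hv huv hMv
    have h2 : (Icc 1 (DD n B)).filter (fun d => (a d).Coprime d ∧ ¬ p1 ∣ d) =
        (Icc 1 (DD n B)).filter (fun d => ¬ p1 ∣ d) := by
      apply filter_congr
      intro d hd
      rw [mem_Icc] at hd
      exact ⟨fun h => h.2, fun h => ⟨ha d hd.1, h⟩⟩
    rwa [h2] at h1
  have hb2 : ∀ d ∈ (Icc 1 (DD n B)).filter (fun d => ¬ p1 ∣ d),
      V2_f M u v d α (a d) ≤ 100 * n * Real.log n * (1 / (Nat.totient d : ℝ)) := by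
    intro d hd
    have hd' := mem_Icc.1 (hsub hd)
    rw [mem_filter, mem_Icc] at hd
    have hdn : (d : ℝ) ≤ Real.sqrt n := le_trans (by exact_mod_cast hd.1.2) hDs
    exact V2_triv n M u v d α (a d) hn8 hL hα hM1 hv1 hMv hd'.1 hdn (ha d hd'.1)
  have hcs := V1_cs E n (by omega) _ hsub
    (fun d => V2_f M u v d α (a d)) (fun _ => abs_nonneg _)
    (100 * n * Real.log n) _ (by
      have : 0 ≤ Real.log n := by linarith
      positivity) hb1 hb2
  exact V1_num A E n (Real.log n) _ (by linarith) hL hcs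

end Pool.Agent.Lib.H57C
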