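import Pool.Agent.Lib.H57C.Defs
import Pool.Agent.Lib.H57C.V2
import Pool.Agent.Lib.H57C.V3
import Pool.Agent.Lib.H59C.CBR

/-!
# Chunk V4: level of distribution of the switched sequence
-/

open Finset

namespace Pool.Agent.Lib.H57C

open Pool.Agent.Lib.H59C

theorem V4_cast (n m : ℕ) (hm1 : 1 ≤ m) (hmn : m ≤ n) : ((n.factorial - 1 : ℕ) : ZMod m) = -1 := by
  have h1 : ((n.factorial : ℕ) : ZMod m) = 0 :=
    (ZMod.natCast_eq_zero_iff _ _).2 (Nat.dvd_factorial hm1 hmn)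
  rw [Nat.cast_sub (Nat.factorial_pos n), h1]
  simp

theorem V4_iff (n m : ℕ) (hm1 : 1 ≤ m) (hmn : m ≤ n) (x : ℕ × ℕ) (c : ℕ) :
    xv n x ≡ c [MOD m] ↔ x.1 * x.2 ≡ n + (n.factorial - 1) * c [MOD m] := by
  rw [← ZMod.natCast_eq_natCast_iff, ← ZMod.natCast_eq_natCast_iff]
  unfold xv
  rw [Nat.cast_add, Nat.cast_mul (n.factorial - 1), Nat.cast_add, Nat.cast_mul (n.factorial - 1),
    V4_cast n m hm1 hmn]
  constructor
  · intro h
    linear_combination -h
  · intro h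
    linear_combination -h

theorem V4_cop (n m c : ℕ) (hm : Squarefree m) (hmn : m ≤ n)
    (hc : ∀ q ∈ m.primeFactors, ¬ c ≡ n [MOD q]) : (n + (n.factorial - 1) * c).Coprime m := by
  refine V3_coprime _ _ hm.ne_zero ?_
  intro q hq hd
  apply hc q hq
  have hq' := Nat.mem_primeFactors.1 hq
  have hqn : q ≤ n := (Nat.le_of_dvd (Nat.pos_of_ne_zero hm.ne_zero) hq'.2.1).trans hmn
  have h1 := (ZMod.natCast_eq_zero_iff _ _).2 hd
  rw [Nat.cast_add, Nat.cast_mul, V4_cast n q hq'.1.one_le hqn] at h1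
  rw [← ZMod.natCast_eq_natCast_iff]
  linear_combination -h1

open Classical in
theorem V4_S (n M u v m c a : ℕ) (α : ℕ → ℝ)
    (h : ∀ x : ℕ × ℕ, xv n x ≡ c [MOD m] ↔ x.1 * x.2 ≡ a [MOD m]) :
    ∑ x ∈ (BX M u v).filter (fun x => xv n x ≡ c [MOD m]), wB α x =
      ∑ k ∈ Icc 1 M, α k * ∑ q ∈ (Ioc u v).filter (fun q => q.Prime ∧ k * q ≡ a [MOD m]),
        Real.log q := by
  unfold BX
  rw [sum_filter, sum_product]
  refine sum_congr rfl fun k _ => ?_
  unfold Sq wB lg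
  rw [mul_sum, ← filter_filter, sum_filter (s := (Ioc u v).filter Nat.Prime)]
  refine sum_congr rfl fun q _ => ?_
  by_cases hq : k * q ≡ a [MOD m]
  · rw [if_pos hq, if_pos ((h (k, q)).2 hq)]
  · rw [if_neg hq, if_neg (fun h' => hq ((h (k, q)).1 h'))]

/-- Proof. `bilw (A + 1) E`. Let `m ≤ DD n B` be squarefree (so `m ≤ n`, `m ∣ n!`), `c` a class with `¬ c ≡ n [MOD q]` for all
`q ∣ m`. `xv n x = n + (n! - 1) x1 x2 ≡ c` mod `m` iff `x1 x2 ≡ a`, `a = n + (n! - 1) c` (both sides times `-1 ≡ n! - 1`), and `a` is prime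
to `m` (`a ≡ n - c`). So the sum over the class is the sum of `bilw` (`CBR_S`-like), and the main terms
`XB M u v α/φ(m)` and `(1/φ(m)) (∑_{(m',m)=1} α)(∑_{(q,m)=1} log q)` differ by at most `(1/φ(m)) 40 (log n)^2 n^(9/10)`
(`CBR_A`, `CBR_Q`, `CBR_main`, `CBR_num` in `H59C/CBR.lean`, with `y = n^(1/10)`). So `rr m = rr_bil m + 40 L^2 n^(9/10)/φ(m)`,
and `∑_{m ≤ n} E^ω(m)/φ(m) ≤ n^(1/100)` for large `n` (as in V1, or `E^ω(m) ≤ C m^(1/1000)`). -/
theorem lvlC (A E : ℕ) : ∃ A' B n0 : ℕ, ∀ n : ℕ, n0 ≤ n → ∀ p1 : ℕ, p1.Prime → SWp A' n p1 →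
    ∀ (M u v : ℕ) (α : ℕ → ℝ), (∀ m, 0 ≤ α m ∧ α m ≤ 1) →
    (∀ m, α m ≠ 0 → ∀ r : ℕ, r.Prime → r ∣ m → (n : ℝ) ^ (1 / 10 : ℝ) ≤ r) →
    (n : ℝ) ^ (1 / 4 : ℝ) ≤ M → (n : ℝ) ^ (1 / 4 : ℝ) ≤ v → u ≤ v → M * v ≤ 8 * n →
      Lvl (sC n M u v α) p1 (DD n B) E (n / Real.log n ^ A) := by
  obtain ⟨A', B, n1, hbil⟩ := bilw (A + 1) E
  obtain ⟨n2, hn2⟩ := bv2_large 500 (A + 4 * E + 6)
  refine ⟨A', B, max n1 (max n2 8), fun n hn p1 hp1 hSW M u v α hα hαr hM hv huv hMv => ?_⟩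
  have hn1' : n1 ≤ n := (le_max_left _ _).trans hn
  have hn2' : n2 ≤ n := ((le_max_left _ _).trans (le_max_right _ _)).trans hn
  have hn8 : 8 ≤ n := ((le_max_right _ _).trans (le_max_right _ _)).trans hn
  obtain ⟨hL, hLn⟩ := hn2 n hn2'
  have hn1 : (1 : ℝ) ≤ n := by
    have : 1 ≤ n := by omega
    exact_mod_cast this
  have hn0 : (0 : ℝ) < n := by linarith
  obtain ⟨rb, hrb0, hrb, hrbs⟩ := hbil n hn1' p1 hSW M u v α (fun m => by
    rw [abs_of_nonneg (hα m).1]; exact (hα m).2) hM hv huv hMv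
  set D := DD n B with hD
  set L := Real.log n with hLdef
  have hL0 : 0 < L := by linarith
  have hDn : D ≤ n := by
    have h1 : (D : ℝ) ≤ Real.sqrt n / L ^ B := by
      rw [hD]
      unfold DD
      exact Nat.floor_le (by positivity)
    have h2 : Real.sqrt n / L ^ B ≤ Real.sqrt n :=
      div_le_self (Real.sqrt_nonneg _) (one_le_pow₀ (by linarith))
    have h3 : Real.sqrt n ≤ n := by
      rw [Real.sqrt_le_left (by linarith)]
      nlinarith
    have h4 : (D : ℝ) ≤ n := by linarith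
    exact_mod_cast h4
  set W : ℝ := 40 * L ^ 2 * ((n : ℝ) / (n : ℝ) ^ (1 / 10 : ℝ)) with hW
  have hW0 : 0 ≤ W := by positivity
  refine ⟨fun m => rb m + 1 / (Nat.totient m : ℝ) * W, fun m => add_nonneg (hrb0 m)
    (by positivity), ?_, ?_⟩
  · intro m hm hmD hpm c hc
    have hd1 : 1 ≤ m := Nat.pos_of_ne_zero hm.ne_zero
    have hmn : m ≤ n := hmD.trans hDn
    obtain ⟨a, ha⟩ : ∃ a : ℕ, a = n + (n.factorial - 1) * c := ⟨_, rfl⟩
    have ha1 : ∀ x : ℕ × ℕ, xv n x ≡ c [MOD m] ↔ x.1 * x.2 ≡ a [MOD m] := by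
      intro x
      rw [ha]
      exact V4_iff n m hd1 hmn x c
    have hcop : a.Coprime m := by
      rw [ha]
      exact V4_cop n m c hm hmn hc
    have hb := hrb m hd1 hmD hpm a hcop
    have hph : (0 : ℝ) < Nat.totient m := by exact_mod_cast Nat.totient_pos.2 hd1
    have hAd0 : 0 ≤ ∑ k ∈ (Icc 1 M).filter (fun k => k.Coprime m), α k :=
      sum_nonneg fun k _ => (hα k).1
    have hAdM : ∑ k ∈ (Icc 1 M).filter (fun k => k.Coprime m), α k ≤ M := by
      refine (sum_le_sum fun k _ => (hα k).2).trans ?_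
      rw [sum_const, nsmul_eq_mul, mul_one]
      have : ((Icc 1 M).filter (fun k => k.Coprime m)).card ≤ M := by
        refine (card_filter_le _ _).trans ?_
        simp
      exact_mod_cast this
    have hAA : 0 ≤ ∑ k ∈ Icc 1 M, α k - ∑ k ∈ (Icc 1 M).filter (fun k => k.Coprime m), α k := by
      rw [sub_nonneg]
      exact sum_le_sum_of_subset_of_nonneg (filter_subset _ _) fun k _ _ => (hα k).1
    have hAA' := CBR_A M m hd1 α hα ((n : ℝ) ^ (1 / 10 : ℝ)) (Real.rpow_pos_of_pos hn0 _) hαr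
    obtain ⟨hQ1, hQ2⟩ := CBR_Q u v m hd1
    have hmain := CBR_main hAA (by convert hAA' using 2) (CBR_XX_nonneg u v)
      (by convert hQ1 using 2) (by convert hQ2 using 2) hAd0 hAdM
    have hnum := CBR_num hn8 (by linarith) hd1 hmn hv hMv u huv
    have hm2 := hmain.trans hnum
    have hS : ∑ x ∈ (sC n M u v α).S.filter (fun x => (sC n M u v α).x x ≡ c [MOD m]),
        (sC n M u v α).wt x = ∑ k ∈ Icc 1 M, α k *
          ∑ q ∈ (Ioc u v).filter (fun q => q.Prime ∧ k * q ≡ a [MOD m]), Real.log q := by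
      have h := V4_S n M u v m c a α ha1
      change ∑ x ∈ (BX M u v).filter (fun x => xv n x ≡ c [MOD m]), wB α x = _
      convert h using 2
    have hprod : (sC n M u v α).X * ∏ q ∈ m.primeFactors, (sC n M u v α).hd q =
        H59C.XB M u v α / (Nat.totient m : ℝ) := by
      change H59C.XB M u v α * ∏ q ∈ m.primeFactors, gq q = _
      rw [V3_gq m hm]
      ring
    rw [hS, hprod]
    set S := ∑ k ∈ Icc 1 M, α k *
      ∑ q ∈ (Ioc u v).filter (fun q => q.Prime ∧ k * q ≡ a [MOD m]), Real.log q with hSd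
    set Ad := ∑ k ∈ (Icc 1 M).filter (fun k => k.Coprime m), α k with hAdd
    set Qd := ∑ q ∈ (Ioc u v).filter (fun q => q.Prime ∧ q.Coprime m), Real.log q with hQdd
    have e : S - H59C.XB M u v α / (Nat.totient m : ℝ) =
        (S - 1 / (Nat.totient m : ℝ) * (Ad * Qd)) -
        1 / (Nat.totient m : ℝ) * ((∑ k ∈ Icc 1 M, α k) * XX u v - Ad * Qd) := by
      unfold H59C.XB
      ring
    rw [e]
    refine (abs_sub _ _).trans ?_
    apply add_le_add
    · exact hb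
    · rw [abs_mul, abs_of_nonneg (by positivity : (0 : ℝ) ≤ 1 / (Nat.totient m : ℝ))]
      exact mul_le_mul_of_nonneg_left hm2 (by positivity)
  · have e1 : ∑ m ∈ (Icc 1 D).filter (fun m => Squarefree m ∧ ¬ p1 ∣ m),
        (E : ℝ) ^ m.primeFactors.card * (rb m + 1 / (Nat.totient m : ℝ) * W) ≤
        ∑ m ∈ (Icc 1 D).filter (fun m => ¬ p1 ∣ m),
          (E : ℝ) ^ m.primeFactors.card * (rb m + 1 / (Nat.totient m : ℝ) * W) := by
      apply sum_le_sum_of_subset_of_nonneg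
      · exact monotone_filter_right _ fun m _ hm => hm.2
      · intro m _ _
        have := hrb0 m
        positivity
    refine e1.trans ?_
    simp only [mul_add]
    rw [sum_add_distrib]
    have e2 : ∑ m ∈ (Icc 1 D).filter (fun m => ¬ p1 ∣ m),
        (E : ℝ) ^ m.primeFactors.card * (1 / (Nat.totient m : ℝ) * W) ≤
        ((1 + L) * (500 * L) ^ (2 * E)) * W := by
      have h1 : ∀ m ∈ (Icc 1 D).filter (fun m => ¬ p1 ∣ m),
          (E : ℝ) ^ m.primeFactors.card * (1 / (Nat.totient m : ℝ) * W) =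
          (E : ℝ) ^ m.primeFactors.card / (Nat.totient m : ℝ) * W := by
        intro m _
        ring
      rw [sum_congr rfl h1, ← sum_mul]
      apply mul_le_mul_of_nonneg_right _ hW0
      refine le_trans ?_ (V1_w E n (by omega))
      apply sum_le_sum_of_subset_of_nonneg
      · intro m hm
        rw [mem_filter, mem_Icc] at hm
        rw [mem_Icc]
        exact ⟨hm.1.1, hm.1.2.trans hDn⟩
      · intro m _ _
        positivity
    refine (add_le_add hrbs e2).trans ?_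
    have h3 : ((1 + L) * (500 * L) ^ (2 * E)) * W ≤ n / L ^ (A + 1) := by
      have hy0 : (0 : ℝ) < (n : ℝ) ^ (1 / 10 : ℝ) := Real.rpow_pos_of_pos hn0 _
      have h4 : (n : ℝ) ^ (1 / 20 : ℝ) ≤ (n : ℝ) ^ (1 / 10 : ℝ) :=
        Real.rpow_le_rpow_of_exponent_le hn1 (by norm_num)
      have h5 : ((1 + L) * (500 * L) ^ (2 * E)) * (40 * L ^ 2) * L ^ (A + 1) ≤
          (n : ℝ) ^ (1 / 10 : ℝ) := by
        have h6 : (1 + L) * (500 * L) ^ (2 * E) ≤ L ^ 2 * (L ^ 2) ^ (2 * E) := by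
          apply mul_le_mul _ _ (by positivity) (by positivity)
          · nlinarith
          · apply pow_le_pow_left₀ (by positivity)
            nlinarith
        calc ((1 + L) * (500 * L) ^ (2 * E)) * (40 * L ^ 2) * L ^ (A + 1)
            ≤ (L ^ 2 * (L ^ 2) ^ (2 * E)) * (L * L ^ 2) * L ^ (A + 1) := by
              apply mul_le_mul_of_nonneg_right _ (by positivity)
              apply mul_le_mul h6 _ (by positivity) (by positivity)
              apply mul_le_mul_of_nonneg_right _ (by positivity)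
              linarith
          _ = 1 * L ^ (A + 4 * E + 6) := by
              rw [← pow_mul]
              ring
          _ ≤ 500 * L ^ (A + 4 * E + 6) :=
              mul_le_mul_of_nonneg_right (by norm_num) (by positivity)
          _ ≤ _ := hLn.trans h4
      rw [hW, le_div_iff₀ (by positivity)]
      calc (1 + L) * (500 * L) ^ (2 * E) * (40 * L ^ 2 * ((n : ℝ) / (n : ℝ) ^ (1 / 10 : ℝ))) *
            L ^ (A + 1) = (((1 + L) * (500 * L) ^ (2 * E)) * (40 * L ^ 2) * L ^ (A + 1)) *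
              ((n : ℝ) / (n : ℝ) ^ (1 / 10 : ℝ)) := by ring
        _ ≤ (n : ℝ) ^ (1 / 10 : ℝ) * ((n : ℝ) / (n : ℝ) ^ (1 / 10 : ℝ)) :=
            mul_le_mul_of_nonneg_right h5 (by positivity)
        _ = n := by rw [mul_comm, div_mul_cancel₀ _ hy0.ne']
    have e2' : (n : ℝ) / L ^ (A + 1) + n / L ^ (A + 1) = n / L ^ A * (2 / L) := by
      rw [pow_succ]
      field_simp
      ring
    have e3 : 2 / L ≤ 1 := by
      rw [div_le_one hL0]
      linarith
    calc (n : ℝ) / L ^ (A + 1) + ((1 + L) * (500 * L) ^ (2 * E)) * W ≤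
          (n : ℝ) / L ^ (A + 1) + n / L ^ (A + 1) := by linarith
      _ = n / L ^ A * (2 / L) := e2'
      _ ≤ n / L ^ A * 1 := mul_le_mul_of_nonneg_left e3 (by positivity)
      _ = _ := mul_one _

end Pool.Agent.Lib.H57C
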