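import Pool.Agent.Lib.H57C.M6
import Pool.Agent.Lib.H57C.V4
import Pool.Agent.Lib.H57C.A2
import Pool.Agent.Lib.H57C.RA

/-!
# Chunk RC: the remainder terms for the switched sequence
-/

open Finset

namespace Pool.Agent.Lib.H57C

open Pool.Agent.Lib.H57M

/-- The target class `-h`. -/
def rc_T (h q : ℕ) : Finset ℕ := (range q).filter (fun c => q ∣ c + h)

theorem rc_mod {q h t : ℕ} : q ∣ t % q + h ↔ q ∣ t + h := by
  rw [Nat.dvd_iff_mod_eq_zero, Nat.dvd_iff_mod_eq_zero, Nat.add_mod t h, Nat.add_mod (t % q) h, Nat.mod_mod]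

theorem rc_T_mem {h q t : ℕ} (hq : 0 < q) : t % q ∈ rc_T h q ↔ q ∣ t + h := by
  unfold rc_T
  rw [mem_filter, mem_range, rc_mod]
  exact ⟨fun h => h.2, fun h => ⟨Nat.mod_lt _ hq, h⟩⟩

theorem rc_T_card {h q : ℕ} (hq : 0 < q) : (rc_T h q).card = 1 := by
  rw [Finset.card_eq_one]
  refine ⟨(q - h % q) % q, ?_⟩
  ext c
  unfold rc_T
  rw [mem_filter, mem_range, mem_singleton]
  constructor
  · rintro ⟨h1, h2⟩
    exact (a2_cls hq h1).1 h2
  · intro h1
    have hlt : c < q := by rw [h1]; exact Nat.mod_lt _ hq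
    exact ⟨hlt, (a2_cls hq hlt).2 h1⟩

theorem rc_inT (d t h : ℕ) (hd : Squarefree d) : inT (rc_T h) d t ↔ d ∣ t + h := by
  unfold inT
  constructor
  · intro h1
    rw [← Nat.prod_primeFactors_of_squarefree hd]
    refine Finset.prod_primes_dvd _ (fun p hp => (Nat.prime_of_mem_primeFactors hp).prime) fun p hp => ?_
    exact (rc_T_mem (Nat.prime_of_mem_primeFactors hp).pos).1 (h1 p hp)
  · intro h1 q hq
    exact (rc_T_mem (Nat.prime_of_mem_primeFactors hq).pos).2 ((Nat.dvd_of_mem_primeFactors hq).trans h1)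

/-- the density `1/(q-1)` -/
theorem rc_gq (q : ℕ) (hq : q.Prime) : 0 ≤ H59C.gq q ∧ H59C.gq q ≤ 2 / q ∧
    |H59C.gq q - 1 / q| ≤ 2 / (q : ℝ) ^ 2 := by
  have hq2 : (2 : ℝ) ≤ q := by exact_mod_cast hq.two_le
  have h1 : (0 : ℝ) < (q : ℝ) - 1 := by linarith
  have h0 : (0 : ℝ) < q := by linarith
  unfold H59C.gq
  refine ⟨by positivity, ?_, ?_⟩
  · rw [div_le_div_iff₀ h1 h0]; linarith
  · have h2 : 1 / ((q : ℝ) - 1) - 1 / q = 1 / (((q : ℝ) - 1) * q) := by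
      field_simp
      ring
    rw [h2, abs_of_nonneg (by positivity), div_le_div_iff₀ (by positivity) (by positivity)]
    nlinarith

/-- sizes for large `N` -/
theorem rc_large (K B B1 : ℕ) (θ : ℝ) (hθ : 0 < θ) (hθ1 : θ ≤ 1 / 100) : ∃ n0 : ℕ, ∀ N : ℕ, n0 ≤ N →
    2 ≤ N ∧ 8 * (N : ℝ) * Real.log (8 * N) ≤ N * Real.log N ^ 2 ∧
    (K : ℝ) * (Real.log (2 * N) / Real.log 2) ≤ Real.log N ^ 2 ∧
    (N : ℝ) ^ (1 / 2 - θ) ≤ (H59C.DD N B1 : ℕ) ∧ (⌈Real.log N ^ B⌉₊ : ℝ) < (N : ℝ) ^ (1 / 10 : ℝ) := by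
  have hev : ∀ᶠ x : ℝ in Filter.atTop, 2 ≤ x ∧ 8 * x * Real.log (8 * x) ≤ x * Real.log x ^ 2 ∧
      (K : ℝ) * (Real.log (2 * x) / Real.log 2) ≤ Real.log x ^ 2 ∧
      x ^ (1 / 2 - θ) + 1 ≤ Real.sqrt x / Real.log x ^ B1 ∧ Real.log x ^ B + 1 < x ^ (1 / 10 : ℝ) := by
    have hlog : Filter.Tendsto Real.log Filter.atTop Filter.atTop := Real.tendsto_log_atTop
    have e1 : ∀ᶠ x : ℝ in Filter.atTop, 16 ≤ Real.log x := hlog.eventually_ge_atTop 16
    have e2 : ∀ᶠ x : ℝ in Filter.atTop, 2 * (K : ℝ) / Real.log 2 ≤ Real.log x := hlog.eventually_ge_atTop _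
    have e3 := (isLittleO_log_rpow_rpow_atTop (s := θ / 2) (B1 : ℝ) (by positivity)).def
      (show (0 : ℝ) < 1 by norm_num)
    have e4 := (isLittleO_log_rpow_rpow_atTop (s := (1 / 10 : ℝ)) (B : ℝ) (by norm_num)).def
      (show (0 : ℝ) < 1 / 2 by norm_num)
    have e5 : ∀ᶠ x : ℝ in Filter.atTop, (2 : ℝ) ≤ x ^ (θ / 2) :=
      (tendsto_rpow_atTop (by positivity)).eventually_ge_atTop 2
    have e6 : ∀ᶠ x : ℝ in Filter.atTop, (4 : ℝ) ≤ x ^ (1 / 10 : ℝ) :=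
      (tendsto_rpow_atTop (by norm_num)).eventually_ge_atTop 4
    filter_upwards [e1, e2, e3, e4, e5, e6, Filter.eventually_ge_atTop (8 : ℝ)] with x h1 h2 h3 h4 h5 h6 h7
    have hx0 : 0 < x := by linarith
    have hl0 : 0 < Real.log x := by linarith
    have hl2 : 0 < Real.log 2 := Real.log_pos (by norm_num)
    refine ⟨by linarith, ?_, ?_, ?_, ?_⟩
    · have h8 : Real.log (8 * x) ≤ 2 * Real.log x := by
        rw [Real.log_mul (by norm_num) hx0.ne']
        have := Real.log_le_log (by norm_num) h7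
        linarith
      have h9 : 8 * Real.log (8 * x) ≤ Real.log x ^ 2 := by nlinarith
      have := mul_le_mul_of_nonneg_left h9 hx0.le
      linarith
    · have h8 : Real.log (2 * x) ≤ 2 * Real.log x := by
        rw [Real.log_mul (by norm_num) hx0.ne']
        have := Real.log_le_log (by norm_num) (show (2 : ℝ) ≤ x by linarith)
        linarith
      have h9 : (K : ℝ) * (Real.log (2 * x) / Real.log 2) ≤ (2 * (K : ℝ) / Real.log 2) * Real.log x := by
        have h10 : (K : ℝ) * (Real.log (2 * x) / Real.log 2) ≤ K * (2 * Real.log x / Real.log 2) :=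
          mul_le_mul_of_nonneg_left (div_le_div_of_nonneg_right h8 hl2.le) (Nat.cast_nonneg K)
        refine h10.trans (le_of_eq ?_)
        ring
      refine h9.trans ?_
      have := mul_le_mul_of_nonneg_right h2 hl0.le
      rw [sq]
      exact this
    · rw [Real.norm_eq_abs, Real.norm_eq_abs, Real.rpow_natCast, abs_of_nonneg (by positivity),
        abs_of_nonneg (by positivity), one_mul] at h3
      rw [le_div_iff₀ (by positivity)]
      have hs : Real.sqrt x = x ^ (1 / 2 - θ) * x ^ (θ / 2) * x ^ (θ / 2) := by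
        rw [Real.sqrt_eq_rpow, ← Real.rpow_add hx0, ← Real.rpow_add hx0]
        congr 1
        ring
      have h8 : (x ^ (1 / 2 - θ) + 1) ≤ x ^ (1 / 2 - θ) * x ^ (θ / 2) := by
        have h9 : 1 ≤ x ^ (1 / 2 - θ) := Real.one_le_rpow (by linarith) (by linarith)
        nlinarith
      rw [hs]
      exact mul_le_mul h8 h3 (by positivity) (by positivity)
    · rw [Real.norm_eq_abs, Real.norm_eq_abs, Real.rpow_natCast, abs_of_nonneg (by positivity),
        abs_of_nonneg (by positivity)] at h4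
      linarith
  obtain ⟨n0, hn0⟩ := Filter.eventually_atTop.1 (tendsto_natCast_atTop_atTop.eventually hev)
  refine ⟨n0, fun N hN => ?_⟩
  obtain ⟨h1, h2, h3, h4, h5⟩ := hn0 N hN
  refine ⟨by exact_mod_cast h1, h2, h3, ?_, ?_⟩
  · unfold H59C.DD
    have := Nat.lt_floor_add_one (Real.sqrt N / Real.log N ^ B1)
    linarith
  · have := Nat.ceil_lt_add_one (show 0 ≤ Real.log N ^ B by
      have : (1 : ℝ) ≤ N := by linarith
      have := Real.log_nonneg this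
      positivity)
    linarith

/-- number of prime factors -/
theorem rc_omega (n : ℕ) (hn : n ≠ 0) : (n.primeFactors.card : ℝ) ≤ Real.log n / Real.log 2 := by
  have hl2 : 0 < Real.log 2 := Real.log_pos (by norm_num)
  rw [le_div_iff₀ hl2]
  have h1 : 2 ^ n.primeFactors.card ≤ n := by
    calc 2 ^ n.primeFactors.card = ∏ _p ∈ n.primeFactors, 2 := by rw [Finset.prod_const]
      _ ≤ ∏ p ∈ n.primeFactors, p :=
          Finset.prod_le_prod' fun p hp => (Nat.prime_of_mem_primeFactors hp).two_le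
      _ ≤ n := Nat.le_of_dvd (Nat.pos_of_ne_zero hn) (Nat.prod_primeFactors_dvd n)
  have h2 : ((2 : ℝ)) ^ n.primeFactors.card ≤ n := by exact_mod_cast h1
  have h3 := Real.log_le_log (by positivity) h2
  rwa [Real.log_pow] at h3

theorem rc_bad (N K : ℕ) (P H : Finset ℕ) (Q : ℕ → Prop) [DecidablePred Q] (hP : ∀ p ∈ P, p.Prime) (hH : H.card = K)
    (hN : 1 ≤ N) (hHN : ∀ h ∈ H, h ≤ N) (hQ : ∀ p ∈ P, Q p → ∃ h ∈ H, p ∣ N + h) :
    ((P.filter Q).card : ℝ) ≤ (K : ℝ) * (Real.log (2 * N) / Real.log 2) := by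
  have hl2 : 0 < Real.log 2 := Real.log_pos (by norm_num)
  have hsub : P.filter Q ⊆ H.biUnion (fun h => (N + h).primeFactors) := by
    intro p hp
    rw [mem_filter] at hp
    obtain ⟨h, hh, hd⟩ := hQ p hp.1 hp.2
    rw [mem_biUnion]
    exact ⟨h, hh, Nat.mem_primeFactors.2 ⟨hP p hp.1, hd, by omega⟩⟩
  have h1 : ((P.filter Q).card : ℝ) ≤ ∑ h ∈ H, ((N + h).primeFactors.card : ℝ) := by
    exact_mod_cast (Finset.card_le_card hsub).trans Finset.card_biUnion_le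
  refine h1.trans ?_
  have hN1 : (1 : ℝ) ≤ N := by exact_mod_cast hN
  calc ∑ h ∈ H, ((N + h).primeFactors.card : ℝ) ≤ ∑ _h ∈ H, Real.log (2 * N) / Real.log 2 := by
        refine Finset.sum_le_sum fun h hh => (rc_omega (N + h) (by omega)).trans ?_
        refine div_le_div_of_nonneg_right (Real.log_le_log (by positivity) ?_) hl2.le
        have : (h : ℝ) ≤ N := by exact_mod_cast hHN h hh
        push_cast
        linarith
    _ = (K : ℝ) * (Real.log (2 * N) / Real.log 2) := by rw [Finset.sum_const, nsmul_eq_mul, hH]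

theorem rc_XB (N M u v : ℕ) (α : ℕ → ℝ) (hα : ∀ m, 0 ≤ α m ∧ α m ≤ 1) (hM : 1 ≤ M) (huv : u ≤ v) (hv : 1 ≤ v)
    (hMv : M * v ≤ 8 * N) : 0 ≤ H59C.XB M u v α ∧ H59C.XB M u v α ≤ 8 * (N : ℝ) * Real.log (8 * N) := by
  have hx0 := H59C.CBR_XX_nonneg u v
  have hx1 := H59C.CBR_XX_le u v huv
  have hs0 : 0 ≤ ∑ m ∈ Icc 1 M, α m := Finset.sum_nonneg fun m _ => (hα m).1
  have hs1 : ∑ m ∈ Icc 1 M, α m ≤ M := by
    calc ∑ m ∈ Icc 1 M, α m ≤ ∑ _m ∈ Icc 1 M, (1 : ℝ) := Finset.sum_le_sum fun m _ => (hα m).2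
      _ = M := by simp
  have hv1 : (1 : ℝ) ≤ v := by exact_mod_cast hv
  have hM1 : (1 : ℝ) ≤ M := by exact_mod_cast hM
  have hMv' : (M : ℝ) * v ≤ 8 * N := by exact_mod_cast hMv
  have hlv : 0 ≤ Real.log v := Real.log_nonneg hv1
  have hv8 : (v : ℝ) ≤ 8 * N := by nlinarith
  have hl : Real.log v ≤ Real.log (8 * N) := Real.log_le_log (by linarith) hv8
  unfold H59C.XB
  refine ⟨mul_nonneg hs0 hx0, ?_⟩
  calc (∑ m ∈ Icc 1 M, α m) * H59C.XX u v ≤ (M : ℝ) * (v * Real.log v) :=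
        mul_le_mul hs1 hx1 hx0 (by linarith)
    _ = (M * v) * Real.log v := by ring
    _ ≤ (8 * N) * Real.log (8 * N) := mul_le_mul hMv' hl hlv (by positivity)

theorem rc_nev {N M u v q : ℕ} {α : ℕ → ℝ} {x : ℕ × ℕ} (hx : x ∈ H59C.BX M u v)
    (hw : H59C.wB α x ≠ 0) (hα : ∀ m, α m ≠ 0 → ∀ r : ℕ, r.Prime → r ∣ m → (N : ℝ) ^ (1 / 10 : ℝ) ≤ r)
    (hu : (N : ℝ) ^ (1 / 4 : ℝ) ≤ u) (hN : 2 ≤ N) (hq : q.Prime) (hqN : (q : ℝ) < (N : ℝ) ^ (1 / 10 : ℝ)) :
    ¬ xv N x ≡ N [MOD q] := by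
  intro hc
  have hN1 : (1 : ℝ) ≤ N := by exact_mod_cast (by omega : 1 ≤ N)
  have hqN' : (q : ℝ) ≤ N := hqN.le.trans (by
    calc (N : ℝ) ^ (1 / 10 : ℝ) ≤ (N : ℝ) ^ (1 : ℝ) := Real.rpow_le_rpow_of_exponent_le hN1 (by norm_num)
      _ = N := Real.rpow_one _)
  have hqN2 : q ≤ N := by exact_mod_cast hqN'
  have hfac : q ∣ N.factorial := Nat.dvd_factorial hq.pos hqN2
  have hfp : 0 < N.factorial := Nat.factorial_pos N
  have h1 : q ∣ (N.factorial - 1) * (x.1 * x.2) := by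
    have h2 := (Nat.modEq_iff_dvd' (show N ≤ xv N x by unfold xv; omega)).1 hc.symm
    unfold xv at h2
    rwa [Nat.add_sub_cancel_left] at h2
  have h3 : ¬ q ∣ N.factorial - 1 := by
    intro h4
    have h5 : q ∣ 1 := by
      have h6 := Nat.dvd_sub hfac h4
      have h7 : N.factorial - (N.factorial - 1) = 1 := by omega
      rwa [h7] at h6
    exact hq.one_lt.ne' (Nat.dvd_one.1 h5)
  have h4 : q ∣ x.1 * x.2 := (hq.dvd_mul.1 h1).resolve_left h3
  have hα0 : α x.1 ≠ 0 := by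
    intro h5
    apply hw
    unfold H59C.wB
    rw [h5, zero_mul]
  unfold H59C.BX at hx
  rw [mem_product, H59C.mem_Sq] at hx
  rcases hq.dvd_mul.1 h4 with h5 | h5
  · exact absurd (hα _ hα0 q hq h5) (not_le.2 hqN)
  · have h6 : q = x.2 := (Nat.prime_dvd_prime_iff_eq hq hx.2.2).1 h5
    have h7 : u < q := by rw [h6]; exact hx.2.1.1
    have h8 : (u : ℝ) < q := by exact_mod_cast h7
    have h9 : (N : ℝ) ^ (1 / 10 : ℝ) ≤ (N : ℝ) ^ (1 / 4 : ℝ) :=
      Real.rpow_le_rpow_of_exponent_le hN1 (by norm_num)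
    linarith

open Classical in
/-- Proof. `mta` with `k = K + 2`, `A0 = 10`, for the sequence `sC N M u v α` (with `lvlC`), `i = some h`, `P = w.P`, `F = FC w H`, `R = Rb N H`,
`T q = {c < q : q ∣ c + h}` (one element), `P' = Pg N W H`, `hr = gq`, `b` = the number of primes `> W` dividing some `N + h'`:
at most `K log (2N)/log 2 ≤ log^2 N`. The hypotheses `Hy`:
* `nev`: if `xv N x ≡ N [MOD q]`, `q ≤ N^(1/100)` a prime (`q ∣ N!`), then `q ∣ x1 x2`; `wt ≠ 0` implies `α x1 ≠ 0`, so the prime factors of `x1` are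
  `≥ N^(1/10)`, and `x2` is a prime `> u ≥ N^(1/4)`: impossible.
* `TA`: `q ∣ t + h` and `t ≡ N` imply `q ∣ N + h`. `TH`: `q ∣ t + h`, `q ∣ t + h'`, `|h - h'| ≤ W < q`.
* `R1`: the class of `N` is not allowed, so `#.. ≤ q - 1`... (`#Rb < q`).
* `XB ≤ 8 N log (8 N) ≤ N log^2 N`, `XB ≥ 0`.
`remd` has the additional condition `q < z` and `d ≤ Lv N θ` (floor of a cast), a subset of `Dv` (`sum_le_sum_of_subset_of_nonneg`);
`d ∣ xv N x + h` iff `inT T d (xv N x)` for squarefree `d`; `VS = Vb` (`vs_C`). -/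
theorem rC (K cF : ℕ) (hK : 1 ≤ K) : ∃ A' B0 : ℕ, ∀ B : ℕ, B0 ≤ B → ∀ θ : ℝ, 0 < θ →
    θ ≤ 1 / 100 → ∃ n0 : ℕ, ∀ N : ℕ, n0 ≤ N → ∀ (w : Par K) (H : Finset ℕ) (p1 : ℕ),
    Pre B cF θ w H N p1 → H59C.SWp A' N p1 → ∀ h ∈ H, ∀ (M u v : ℕ) (α : ℕ → ℝ),
    (∀ m, 0 ≤ α m ∧ α m ≤ 1) →
    (∀ m, α m ≠ 0 → ∀ r : ℕ, r.Prime → r ∣ m → (N : ℝ) ^ (1 / 10 : ℝ) ≤ r) →
    (N : ℝ) ^ (1 / 4 : ℝ) ≤ M → (N : ℝ) ^ (1 / 4 : ℝ) ≤ u → u ≤ v → M * v ≤ 8 * N → ∀ z : ℝ,
    H59C.remd (H59C.BX M u v) (fun x => H59C.wB α x * Fs w H N p1 (some h) (xv N x))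
      (fun x => xv N x + h) (Pg N w.W H) z
      (H59C.XB M u v α * (AE w.P H (some h) (FC w H) * Vb N w.W p1 H)) (Lv N θ) ≤
      N / Real.log N ^ 10 := by
  obtain ⟨A, B0, hm⟩ := mta K (K + 2) cF 10 hK (by omega)
  obtain ⟨A', B1, nC, hC⟩ := lvlC A (K * 3 + 2 * (K + 2))
  refine ⟨A', B0, fun B hB θ hθ hθ1 => ?_⟩
  obtain ⟨nM, hM⟩ := hm B hB θ hθ hθ1
  obtain ⟨nL, hL⟩ := rc_large K B B1 θ hθ hθ1
  refine ⟨max nC (max nM nL), fun N hN w H p1 hpre hSW h hh M u v α hα hα2 hMN hu huv hMv z => ?_⟩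
  have hNC : nC ≤ N := le_trans (le_max_left _ _) hN
  have hNM : nM ≤ N := le_trans (le_trans (le_max_left _ _) (le_max_right _ _)) hN
  have hNL : nL ≤ N := le_trans (le_trans (le_max_right _ _) (le_max_right _ _)) hN
  obtain ⟨hN2, hX, hbb, hD, hW10⟩ := hL N hNL
  have hN1 : (1 : ℝ) ≤ N := by exact_mod_cast (by omega : 1 ≤ N)
  have huv' : (u : ℝ) ≤ v := by exact_mod_cast huv
  have hv4 : (N : ℝ) ^ (1 / 4 : ℝ) ≤ v := hu.trans huv'
  have h14 : 1 ≤ (N : ℝ) ^ (1 / 4 : ℝ) := Real.one_le_rpow hN1 (by norm_num)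
  have hM1 : 1 ≤ M := by exact_mod_cast h14.trans hMN
  have hv1 : 1 ≤ v := by exact_mod_cast h14.trans hv4
  obtain ⟨hX0, hX1⟩ := rc_XB N M u v α hα hM1 huv hv1 hMv
  have hWr : (w.W : ℝ) < (N : ℝ) ^ (1 / 10 : ℝ) := by rw [hpre.Wdef]; exact hW10
  have h10N : (N : ℝ) ^ (1 / 10 : ℝ) ≤ N := by
    calc (N : ℝ) ^ (1 / 10 : ℝ) ≤ (N : ℝ) ^ (1 : ℝ) := Real.rpow_le_rpow_of_exponent_le hN1 (by norm_num)
      _ = N := Real.rpow_one _
  have hWN : w.W ≤ N := by exact_mod_cast (hWr.le.trans h10N)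
  have hPN : ∀ p ∈ w.P, (p : ℝ) < (N : ℝ) ^ (1 / 10 : ℝ) := by
    intro p hp
    refine (hpre.PN p hp).trans_lt ?_
    exact Real.rpow_lt_rpow_of_exponent_lt (by exact_mod_cast (by omega : 1 < N)) (by norm_num)
  have hHN : ∀ h ∈ H, h ≤ N := fun h hh => (hpre.HW h hh).trans hWN
  have hPg : ∀ q ∈ Pg N w.W H, q.Prime ∧ w.W < q ∧ ∀ h ∈ H, ¬ q ∣ N + h := by
    intro q hq
    unfold Pg at hq
    rw [mem_filter, mem_Ioc] at hq
    exact ⟨hq.2.1, hq.1.1, hq.2.2⟩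
  have hPs : ∀ q ∈ Ps w.W p1, q.Prime := fun q hq => a2_Ps hq
  obtain ⟨b, hbdef⟩ : ∃ b : ℕ, b = (w.P.filter (fun p => ∃ h' ∈ H, some h ≠ some h' ∧
      ∃ c : ℕ, p ∣ c + h' ∧ ¬ (sC N M u v α).Al p c)).card := ⟨_, rfl⟩
  have hb2 : (b : ℝ) ≤ Real.log N ^ 2 := by
    rw [hbdef]
    refine (rc_bad N K w.P H _ w.prime hpre.cardH (by omega) hHN ?_).trans hbb
    rintro p _ ⟨h', hh', _, c, hc1, hc2⟩
    refine ⟨h', hh', ?_⟩
    have hc3 : c ≡ N [MOD p] := not_not.1 hc2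
    exact (Nat.ModEq.dvd_iff (hc3.add_right h') dvd_rfl).1 hc1
  have hy : Hy (sC N M u v α) w.P H (some h) w.W p1 (Rb N H) (rc_T h) (Pg N w.W H) (K + 2) b := by
    refine ⟨?_, hX0, ?_, ?_, fun q hq => (rc_gq q hq).1, fun q hq => (rc_gq q hq).2.1,
      fun q hq _ => (rc_gq q hq).2.2, fun p hp => ⟨w.prime p hp, w.big p hp⟩, hpre.p1p, hpre.p1W,
      hpre.HW, ?_, fun q => a2_Rb, ?_, ?_, fun q hq => ⟨(hPg q hq).1, (hPg q hq).2.1⟩, ?_, ?_, ?_, ?_, ?_⟩
    · rintro ⟨x1, x2⟩ _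
      exact mul_nonneg (hα x1).1 (Real.log_natCast_nonneg x2)
    · intro q c c' hcc
      exact not_congr ⟨fun h1 => hcc.symm.trans h1, fun h1 => hcc.trans h1⟩
    · intro x hx hwx q hq hq2
      refine rc_nev hx hwx hα2 hu hN2 hq ?_
      rcases hq2 with h1 | ⟨h1, _⟩
      · exact hPN q h1
      · exact lt_of_le_of_lt (by exact_mod_cast h1) hWr
    · intro h' hh'
      exact Option.some_injective _ hh' ▸ hh
    · intro q hq
      have h1 := rb_card N H q (hPs q hq)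
      rw [hpre.cardH] at h1
      omega
    · intro q hq
      have hqp := hPs q hq
      have hq2 : (2 : ℝ) ≤ q := by exact_mod_cast hqp.two_le
      have h1 : ((Rb N H q).filter (fun c => (sC N M u v α).Al q c)).card ≤ q - 1 := by
        have h2 := hpre.nf q hqp
        have h3 := Finset.card_filter_le (Rb N H q) (fun c => (sC N M u v α).Al q c)
        omega
      have h4 : (((Rb N H q).filter (fun c => (sC N M u v α).Al q c)).card : ℝ) ≤ (q : ℝ) - 1 := by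
        have h5 : (((Rb N H q).filter (fun c => (sC N M u v α).Al q c)).card : ℝ) ≤ ((q - 1 : ℕ) : ℝ) := by
          exact_mod_cast h1
        rwa [Nat.cast_sub hqp.one_le, Nat.cast_one] at h5
      have h5 : (sC N M u v α).hd q = 1 / ((q : ℝ) - 1) := rfl
      rw [h5, mul_one_div, div_le_one (by linarith)]
      exact h4
    · intro q hq
      exact Finset.filter_subset _ _
    · intro q hq
      rw [rc_T_card (hPg q hq).1.pos]
      omega
    · intro q hq t ht htN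
      unfold rc_T at ht
      rw [mem_filter] at ht
      exact (hPg q hq).2.2 h hh ((Nat.ModEq.dvd_iff (htN.add_right h) dvd_rfl).1 ht.2)
    · intro q hq t ht h' hh' hne hd
      unfold rc_T at ht
      rw [mem_filter] at ht
      have hne' : h ≠ h' := fun h1 => hne (by rw [h1])
      have h1 : t + h ≡ t + h' [MOD q] := by
        rw [Nat.modEq_iff_dvd]
        exact dvd_sub (Int.natCast_dvd_natCast.2 hd) (Int.natCast_dvd_natCast.2 ht.2)
      have h2 : h ≡ h' [MOD q] := Nat.ModEq.add_left_cancel' t h1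
      have hW1 := hpre.HW h hh
      have hW2 := hpre.HW h' hh'
      have hWq := (hPg q hq).2.1
      exact hne' (Nat.ModEq.eq_of_lt_of_lt h2 (by omega) (by omega))
    · exact le_of_eq hbdef.symm
  have hz : 0 ≤ w.z := by
    unfold Par.z
    have : 0 ≤ ∑ i, H15P.ex (H15P.qq w.P K) (fun A => w.D i A ^ 2) :=
      Finset.sum_nonneg fun i _ => H15P.ex_nonneg _ w.good.q0 w.good.q1 _ fun A => sq_nonneg _
    linarith
  have hF0 : ∀ S, 0 ≤ FC w H S := by
    intro S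
    unfold FC
    exact div_nonneg (sq_nonneg _) (pow_nonneg hz _)
  have hlvl := hC N hNC p1 hpre.p1p hSW M u v α hα hα2 hMN hv4 huv hMv
  have hmain := hM N hNM (sC N M u v α) w.P H (some h) w.W p1 (Rb N H) (rc_T h) (Pg N w.W H) b H59C.gq
    (FC w H) (H59C.DD N B1) hy (fun q hq => (rc_gq q hq).1) (fun q hq => (rc_gq q hq).2.1)
    (fun q hq _ => (rc_gq q hq).2.2) hpre.cardH hpre.Wdef
    (fun p hp => by exact_mod_cast ((hPN p hp).le.trans h10N)) (hX1.trans hX) hb2 hF0 hpre.exF hD hlvl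
  refine le_trans ?_ hmain
  have hVS : VS (Ps w.W p1) (Rb N H) (sC N M u v α).hd (sC N M u v α).Al = Vb N w.W p1 H := vs_C N w.W p1 H
  rw [hVS]
  unfold H59C.remd Dv
  rw [Nat.floor_natCast]
  refine (Finset.sum_le_sum fun d hd => le_of_eq ?_).trans (Finset.sum_le_sum_of_subset_of_nonneg ?_ fun d _ _ => abs_nonneg _)
  · rw [mem_filter] at hd
    have hsq := hd.2.1
    have h1 : ∏ q ∈ d.primeFactors, (((rc_T h q).card : ℝ) * H59C.gq q) = 1 / (Nat.totient d : ℝ) := by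
      rw [← prod_gq d hsq]
      refine Finset.prod_congr rfl fun q hq => ?_
      rw [rc_T_card (Nat.prime_of_mem_primeFactors hq).pos]
      push_cast
      ring
    rw [h1]
    congr 1
    have h2 : (H59C.BX M u v).filter (fun x => d ∣ xv N x + h) =
        (sC N M u v α).S.filter (fun j => inT (rc_T h) d ((sC N M u v α).x j)) := by
      refine Finset.filter_congr fun x _ => ?_
      exact (rc_inT d (xv N x) h hsq).symm
    have h3 : ∑ x ∈ (H59C.BX M u v).filter (fun x => d ∣ xv N x + h),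
        H59C.wB α x * Fs w H N p1 (some h) (xv N x) =
        ∑ j ∈ (sC N M u v α).S.filter (fun j => inT (rc_T h) d ((sC N M u v α).x j)),
          (sC N M u v α).wt j * (FC w H (cfg w.P H (some h) ((sC N M u v α).x j)) *
            Sg (Ps w.W p1) (Rb N H) ((sC N M u v α).x j)) := by
      rw [h2]
      rfl
    have h4 : H59C.XB M u v α * (AE w.P H (some h) (FC w H) * Vb N w.W p1 H) / (Nat.totient d : ℝ) =
        (sC N M u v α).X * (AE w.P H (some h) (FC w H) * Vb N w.W p1 H) * (1 / (Nat.totient d : ℝ)) := by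
      rw [mul_one_div]
      rfl
    rw [← h4, ← h3]
  · intro d hd
    rw [mem_filter] at hd ⊢
    exact ⟨hd.1, hd.2.1, fun q hq => (hd.2.2 q hq).1⟩

end Pool.Agent.Lib.H57C
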