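import Pool.Agent.Lib.H57C.Defs

/-!
# Chunk V5: level of distribution of the integers
-/

open Finset

namespace Pool.Agent.Lib.H57C

theorem v5_count (y1 y2 R v : ℕ) (hR : 0 < R) (h : y1 ≤ y2) :
    |(((Ioc y1 y2).filter (fun t => t ≡ v [MOD R])).card : ℝ) - ((y2 : ℝ) - y1) / R| ≤ 1 := by
  have h1 := Nat.Ioc_filter_modEq_card y1 y2 hR v
  have hR' : (0 : ℝ) < R := by exact_mod_cast hR
  have hRq : (0 : ℚ) < R := by exact_mod_cast hR
  have hAB : ⌊((y1 : ℚ) - v) / R⌋ ≤ ⌊((y2 : ℚ) - v) / R⌋ := by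
    apply Int.floor_le_floor
    have : (y1 : ℚ) ≤ y2 := by exact_mod_cast h
    gcongr
  rw [max_eq_left (by linarith)] at h1
  have h2 : (((Ioc y1 y2).filter (fun t => t ≡ v [MOD R])).card : ℝ) =
      (⌊((y2 : ℚ) - v) / R⌋ : ℝ) - (⌊((y1 : ℚ) - v) / R⌋ : ℝ) := by
    exact_mod_cast h1
  have a1 : (⌊((y2 : ℚ) - v) / R⌋ : ℝ) ≤ ((y2 : ℝ) - v) / R := by
    have := Int.floor_le (((y2 : ℚ) - v) / R)
    exact_mod_cast this
  have a2 : ((y2 : ℝ) - v) / R < (⌊((y2 : ℚ) - v) / R⌋ : ℝ) + 1 := by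
    have := Int.lt_floor_add_one (((y2 : ℚ) - v) / R)
    exact_mod_cast this
  have b1 : (⌊((y1 : ℚ) - v) / R⌋ : ℝ) ≤ ((y1 : ℝ) - v) / R := by
    have := Int.floor_le (((y1 : ℚ) - v) / R)
    exact_mod_cast this
  have b2 : ((y1 : ℝ) - v) / R < (⌊((y1 : ℚ) - v) / R⌋ : ℝ) + 1 := by
    have := Int.lt_floor_add_one (((y1 : ℚ) - v) / R)
    exact_mod_cast this
  have e : ((y2 : ℝ) - y1) / R = ((y2 : ℝ) - v) / R - ((y1 : ℝ) - v) / R := by ring
  rw [h2, e, abs_le]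
  constructor <;> linarith

theorem v5_omega (E m : ℕ) (hm : Squarefree m) :
    (E : ℝ) ^ m.primeFactors.card ≤ (E + 1 : ℝ) ^ ((E + 1) ^ 10) * (m : ℝ) ^ (1 / 10 : ℝ) := by
  have hE : (E : ℝ) ≤ E + 1 := by linarith
  have hE1 : (1 : ℝ) ≤ (E : ℝ) + 1 := by
    have : (0 : ℝ) ≤ E := Nat.cast_nonneg _
    linarith
  have hpr : (m : ℝ) = ∏ p ∈ m.primeFactors, (p : ℝ) := by
    have := Nat.prod_primeFactors_of_squarefree hm
    conv_lhs => rw [← this]
    push_cast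
    rfl
  calc (E : ℝ) ^ m.primeFactors.card ≤ (E + 1 : ℝ) ^ m.primeFactors.card :=
        pow_le_pow_left₀ (Nat.cast_nonneg _) hE _
    _ = ∏ p ∈ m.primeFactors, (E + 1 : ℝ) := by rw [Finset.prod_const]
    _ ≤ ∏ p ∈ m.primeFactors, ((if p < (E + 1) ^ 10 then (E + 1 : ℝ) else 1) * (p : ℝ) ^ (1 / 10 : ℝ)) := by
        refine Finset.prod_le_prod (fun p _ => by linarith) fun p hp => ?_
        have hp1 : 1 ≤ p := (Nat.prime_of_mem_primeFactors hp).one_lt.le
        have hp1' : (1 : ℝ) ≤ p := by exact_mod_cast hp1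
        split_ifs with h
        · refine le_mul_of_one_le_right (by linarith) ?_
          exact Real.one_le_rpow hp1' (by norm_num)
        · rw [one_mul]
          rw [not_lt] at h
          have h' : ((E : ℝ) + 1) ^ (10 : ℕ) ≤ p := by exact_mod_cast h
          calc (E : ℝ) + 1 = ((((E : ℝ) + 1) ^ (10 : ℕ))) ^ (1 / 10 : ℝ) := by
                rw [← Real.rpow_natCast, ← Real.rpow_mul (by linarith)]
                norm_num
            _ ≤ (p : ℝ) ^ (1 / 10 : ℝ) := Real.rpow_le_rpow (by positivity) h' (by norm_num)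
    _ = (∏ p ∈ m.primeFactors, (if p < (E + 1) ^ 10 then (E + 1 : ℝ) else 1)) *
          (m : ℝ) ^ (1 / 10 : ℝ) := by
        rw [Finset.prod_mul_distrib, Real.finset_prod_rpow _ _ (fun p _ => Nat.cast_nonneg _), ← hpr]
    _ ≤ (E + 1 : ℝ) ^ ((E + 1) ^ 10) * (m : ℝ) ^ (1 / 10 : ℝ) := by
        refine mul_le_mul_of_nonneg_right ?_ (by positivity)
        rw [← Finset.prod_filter, Finset.prod_const]
        refine pow_le_pow_right₀ hE1 ?_
        calc (m.primeFactors.filter (fun p => p < (E + 1) ^ 10)).card ≤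
              (Finset.range ((E + 1) ^ 10)).card := Finset.card_le_card (fun p hp => by
                rw [Finset.mem_range]
                exact (Finset.mem_filter.1 hp).2)
          _ = (E + 1) ^ 10 := Finset.card_range _

theorem v5_large (A : ℕ) (C : ℝ) (hC : 0 < C) : ∃ n0 : ℕ, ∀ n : ℕ, n0 ≤ n →
    C * (n : ℝ) ^ (11 / 20 : ℝ) ≤ n / Real.log n ^ A := by
  have h := isLittleO_log_rpow_rpow_atTop (A : ℝ) (show (0 : ℝ) < 9 / 20 by norm_num)
  have h1 := (h.bound (show (0 : ℝ) < 1 / C by positivity))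
  have h2 := tendsto_natCast_atTop_atTop (R := ℝ) |>.eventually h1
  obtain ⟨n1, hn1⟩ := Filter.eventually_atTop.1 h2
  refine ⟨max n1 3, fun n hn => ?_⟩
  have h3 := hn1 n (le_trans (le_max_left _ _) hn)
  have hn3 : 3 ≤ n := le_trans (le_max_right _ _) hn
  have hn3' : (3 : ℝ) ≤ n := by exact_mod_cast hn3
  have hn0 : (0 : ℝ) < n := by linarith
  have hlog : 0 < Real.log n := Real.log_pos (by linarith)
  rw [Real.rpow_natCast, Real.norm_of_nonneg (by positivity), Real.norm_of_nonneg (by positivity)] at h3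
  rw [le_div_iff₀ (by positivity)]
  calc C * (n : ℝ) ^ (11 / 20 : ℝ) * Real.log n ^ A ≤
        C * (n : ℝ) ^ (11 / 20 : ℝ) * (1 / C * (n : ℝ) ^ (9 / 20 : ℝ)) :=
        mul_le_mul_of_nonneg_left h3 (by positivity)
    _ = (n : ℝ) ^ (11 / 20 : ℝ) * (n : ℝ) ^ (9 / 20 : ℝ) := by field_simp
    _ = n := by
        rw [← Real.rpow_add hn0]
        norm_num

/-- Proof. `rr m = 1`: the `t ∈ (y1, y2]` with `t ≡ N [MOD r]` and `t ≡ c [MOD m]`, `(m, r) = 1` (`r = 1`, or `r = p1` prime,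
`p1 ∤ m`), are the `t` of one class modulo `r m` (`Nat.chineseRemainder`), their number differs from `(y2 - y1)/(r m)` by less
than `1` (`Nat.Ioc_filter_modEq_card` or `Int.Ioc_filter_modEq_card`). `∑_{m ≤ √n} E^ω(m) ≤ n^(3/4)` for large `n`
(`E^ω(m) ≤ C_E m^(1/10)`, or `E^ω(m) ≤ τ(m)^e`), at most `n/L^A`. -/
theorem lvlI (A E : ℕ) : ∃ n0 : ℕ, ∀ n : ℕ, n0 ≤ n → ∀ p1 N r y1 y2 : ℕ, p1.Prime →
    (r = 1 ∨ r = p1) → y1 ≤ y2 →
      Lvl (sI N r y1 y2) p1 ⌊Real.sqrt n⌋₊ E (n / Real.log n ^ A) := by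
  have hC : (0 : ℝ) < (E + 1 : ℝ) ^ ((E + 1) ^ 10) := by positivity
  obtain ⟨n1, hn1⟩ := v5_large A _ hC
  refine ⟨max n1 3, fun n hn p1 N r y1 y2 hp1 hr hy => ?_⟩
  have h1 := hn1 n (le_trans (le_max_left _ _) hn)
  have hr0 : 0 < r := by
    rcases hr with rfl | rfl
    · norm_num
    · exact hp1.pos
  refine ⟨fun _ => 1, fun _ => zero_le_one, ?_, ?_⟩
  · intro m hm hmD hpm c _
    have hm0 : 0 < m := Nat.pos_of_ne_zero hm.ne_zero
    have hcop : Nat.Coprime r m := by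
      rcases hr with rfl | rfl
      · exact Nat.coprime_one_left m
      · exact (Nat.Prime.coprime_iff_not_dvd hp1).2 hpm
    obtain ⟨v, hv1, hv2⟩ := Nat.chineseRemainder hcop N c
    have hset : ((Ioc y1 y2).filter (fun t => t ≡ N [MOD r])).filter (fun t => t ≡ c [MOD m]) =
        (Ioc y1 y2).filter (fun t => t ≡ v [MOD (r * m)]) := by
      rw [Finset.filter_filter]
      refine Finset.filter_congr fun t _ => ?_
      rw [← Nat.modEq_and_modEq_iff_modEq_mul hcop]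
      constructor
      · rintro ⟨h1, h2⟩
        exact ⟨h1.trans hv1.symm, h2.trans hv2.symm⟩
      · rintro ⟨h1, h2⟩
        exact ⟨h1.trans hv1, h2.trans hv2⟩
    have hpr : (m : ℝ) = ∏ p ∈ m.primeFactors, (p : ℝ) := by
      have := Nat.prod_primeFactors_of_squarefree hm
      conv_lhs => rw [← this]
      push_cast
      rfl
    have h2 := v5_count y1 y2 (r * m) v (Nat.mul_pos hr0 hm0) hy
    have e1 : ∑ i ∈ (sI N r y1 y2).S.filter (fun i => (sI N r y1 y2).x i ≡ c [MOD m]),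
        (sI N r y1 y2).wt i = (((Ioc y1 y2).filter (fun t => t ≡ v [MOD (r * m)])).card : ℝ) := by
      simp only [sI]
      rw [hset]
      simp
    have e2 : (sI N r y1 y2).X * ∏ q ∈ m.primeFactors, (sI N r y1 y2).hd q =
        ((y2 : ℝ) - y1) / ((r * m : ℕ) : ℝ) := by
      simp only [sI]
      rw [Finset.prod_div_distrib, ← hpr]
      push_cast
      simp only [Finset.prod_const_one]
      field_simp
    rw [e1, e2]
    exact h2
  · have hD : ((⌊Real.sqrt n⌋₊ : ℕ) : ℝ) ≤ Real.sqrt n := Nat.floor_le (Real.sqrt_nonneg _)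
    calc ∑ m ∈ (Icc 1 ⌊Real.sqrt n⌋₊).filter (fun m => Squarefree m ∧ ¬ p1 ∣ m),
          (E : ℝ) ^ m.primeFactors.card * 1
        ≤ ∑ m ∈ (Icc 1 ⌊Real.sqrt n⌋₊).filter (fun m => Squarefree m ∧ ¬ p1 ∣ m),
          (E + 1 : ℝ) ^ ((E + 1) ^ 10) * (Real.sqrt n) ^ (1 / 10 : ℝ) := by
          refine Finset.sum_le_sum fun m hm => ?_
          rw [Finset.mem_filter, Finset.mem_Icc] at hm
          rw [mul_one]
          refine (v5_omega E m hm.2.1).trans (mul_le_mul_of_nonneg_left ?_ hC.le)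
          refine Real.rpow_le_rpow (Nat.cast_nonneg _) ?_ (by norm_num)
          exact le_trans (by exact_mod_cast hm.1.2) hD
      _ = (((Icc 1 ⌊Real.sqrt n⌋₊).filter (fun m => Squarefree m ∧ ¬ p1 ∣ m)).card : ℝ) *
          ((E + 1 : ℝ) ^ ((E + 1) ^ 10) * (Real.sqrt n) ^ (1 / 10 : ℝ)) := by
          rw [Finset.sum_const, nsmul_eq_mul]
      _ ≤ Real.sqrt n * ((E + 1 : ℝ) ^ ((E + 1) ^ 10) * (Real.sqrt n) ^ (1 / 10 : ℝ)) := by
          refine mul_le_mul_of_nonneg_right ?_ (by positivity)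
          refine le_trans ?_ hD
          have : ((Icc 1 ⌊Real.sqrt n⌋₊).filter (fun m => Squarefree m ∧ ¬ p1 ∣ m)).card ≤
              ⌊Real.sqrt n⌋₊ := by
            refine (Finset.card_filter_le _ _).trans ?_
            simp
          exact_mod_cast this
      _ = (E + 1 : ℝ) ^ ((E + 1) ^ 10) * (n : ℝ) ^ (11 / 20 : ℝ) := by
          have hn0 : (0 : ℝ) ≤ n := Nat.cast_nonneg _
          have e3 : Real.sqrt n * (Real.sqrt n) ^ (1 / 10 : ℝ) = (n : ℝ) ^ (11 / 20 : ℝ) := by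
            rw [Real.sqrt_eq_rpow, ← Real.rpow_mul hn0, ← Real.rpow_add_of_nonneg hn0 (by norm_num) (by norm_num)]
            norm_num
          rw [← e3]
          ring
      _ ≤ _ := h1

end Pool.Agent.Lib.H57C
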