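import Pool.Agent.Lib.H57C.M6
import Pool.Agent.Lib.H57C.V5
import Pool.Agent.Lib.H57C.A2
import Pool.Agent.Lib.H57C.RA
import Pool.Agent.Lib.H57M.B8

/-!
# Chunk RI: the remainder terms for the integers
-/

open Finset

namespace Pool.Agent.Lib.H57C

open Pool.Agent.Lib.H57M

theorem ri_Ps {W p1 q : ℕ} (hq : q ∈ Ps W p1) : q.Prime ∧ q ≤ W ∧ q ≠ p1 := by
  unfold Ps at hq
  rw [mem_filter, mem_Icc] at hq
  exact ⟨hq.2.1, hq.1.2, hq.2.2⟩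

theorem ri_FC {K : ℕ} (w : Par K) (H : Finset ℕ) (S : {h // h ∈ H} → Finset {p // p ∈ w.P}) :
    0 ≤ FC w H S := by
  unfold FC
  have := w.z_bounds.1
  positivity

/-- The hypotheses for the integers. -/
theorem ri_hy {B cF : ℕ} {θ : ℝ} {K k : ℕ} {w : Par K} {H : Finset ℕ} {n p1 : ℕ}
    {R T : ℕ → Finset ℕ} {P' : Finset ℕ} (h0 : Pre0 B cF θ w H n p1)
    (h1 : HRT K k w.W p1 H R T P') (N r y1 y2 : ℕ) (hy : y1 ≤ y2) (i : Option ℕ)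
    (hi : ∀ h, i = some h → h ∈ H) (T' : ℕ → Finset ℕ) (k' : ℕ) (hk : K + k ≤ k')
    (Tr : ∀ q ∈ P', T' q ⊆ range q) (Tk : ∀ q ∈ P', (T' q).card ≤ k')
    (TH : ∀ q ∈ P', ∀ t ∈ T' q, ∀ h ∈ H, i ≠ some h → ¬ q ∣ t + h) :
    Hy (sI N r y1 y2) w.P H i w.W p1 R T' P' k' 0 where
  w0 := fun j _ => zero_le_one
  X0 := by
    have : (y1 : ℝ) ≤ y2 := by exact_mod_cast hy
    have h2 : (0 : ℝ) ≤ (y2 : ℝ) - y1 := by linarith
    exact div_nonneg h2 (Nat.cast_nonneg r)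
  al := fun q c c' _ => Iff.rfl
  nev := fun j _ _ q _ _ => trivial
  hd0 := fun q _ => by
    show (0 : ℝ) ≤ 1 / (q : ℝ)
    positivity
  hd2 := fun q _ => by
    show 1 / (q : ℝ) ≤ 2 / (q : ℝ)
    gcongr
    norm_num
  hdq := fun q _ _ => by
    show |1 / (q : ℝ) - 1 / (q : ℝ)| ≤ 2 / (q : ℝ) ^ 2
    rw [sub_self, abs_zero]
    positivity
  Pp := fun p hp => ⟨w.prime p hp, w.big p hp⟩
  p1p := h0.p1p
  p1W := h0.p1W
  HW := h0.HW
  iH := hi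
  Rr := h1.Rr
  Rk := fun q hq => (h1.Rk q hq).trans hk
  R1 := fun q hq => by
    classical
    have h2 : (((R q).filter (fun c => (sI N r y1 y2).Al q c)).card : ℝ) ≤ q := by
      have h3 : ((R q).filter (fun c => (sI N r y1 y2).Al q c)).card ≤ q :=
        (card_filter_le _ _).trans (h1.Rq q hq).le
      exact_mod_cast h3
    have hq0 : (0 : ℝ) < q := by exact_mod_cast (ri_Ps hq).1.pos
    show _ * (1 / (q : ℝ)) ≤ 1
    rw [mul_one_div, div_le_one hq0]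
    exact h2
  P'p := h1.P'p
  Tr := Tr
  Tk := Tk
  TA := fun q _ t _ => trivial
  TH := TH
  bad := by
    classical
    rw [Nat.le_zero, card_eq_zero, filter_eq_empty_iff]
    rintro p _ ⟨h, _, _, c, _, hn⟩
    exact hn trivial

theorem ri_Ya (n : ℕ) : Ya n ≤ Yb n := by
  unfold Ya Yb
  omega

theorem ri_Yb (n : ℕ) : Yb n ≤ n := by
  unfold Yb
  omega

/-- The total weight. -/
theorem ri_X (n N r : ℕ) (hr : 1 ≤ r) (hn : 3 ≤ n) :
    (sI N r (Ya n) (Yb n)).X ≤ n * Real.log n ^ 2 := by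
  show ((Yb n : ℝ) - Ya n) / r ≤ _
  have h1 : ((Yb n : ℝ) - Ya n) ≤ n := by
    have h2 : (Yb n : ℝ) ≤ n := by exact_mod_cast ri_Yb n
    have h3 : (0 : ℝ) ≤ Ya n := Nat.cast_nonneg _
    linarith
  have h2 : (1 : ℝ) ≤ r := by exact_mod_cast hr
  have hn0 : (0 : ℝ) ≤ n := Nat.cast_nonneg n
  have h3 : (1 : ℝ) ≤ Real.log n := by
    rw [Real.le_log_iff_exp_le (by positivity)]
    have h4 : (3 : ℝ) ≤ n := by exact_mod_cast hn
    linarith [Real.exp_one_lt_d9]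
  calc ((Yb n : ℝ) - Ya n) / r ≤ n / r := by gcongr
    _ ≤ n / 1 := by gcongr
    _ = n * 1 ^ 2 := by ring
    _ ≤ n * Real.log n ^ 2 := by gcongr

/-- The level. -/
theorem ri_lev (θ : ℝ) (hθ : 0 < θ) : ∃ n0 : ℕ, ∀ n : ℕ, n0 ≤ n →
    (n : ℝ) ^ (1 / 2 - θ) ≤ (⌊Real.sqrt n⌋₊ : ℕ) := by
  have h1 : Filter.Tendsto (fun n : ℕ => (n : ℝ) ^ θ) Filter.atTop Filter.atTop :=
    (tendsto_rpow_atTop hθ).comp tendsto_natCast_atTop_atTop
  obtain ⟨n0, hn0⟩ := Filter.eventually_atTop.1 (h1.eventually_ge_atTop 2)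
  refine ⟨max n0 4, fun n hn => ?_⟩
  have h2 := hn0 n ((le_max_left _ _).trans hn)
  have h3 : 4 ≤ n := (le_max_right _ _).trans hn
  have h3' : (4 : ℝ) ≤ n := by exact_mod_cast h3
  have hn0' : (0 : ℝ) < n := by linarith
  have h4 : Real.sqrt n < ⌊Real.sqrt n⌋₊ + 1 := Nat.lt_floor_add_one _
  have h5 : (2 : ℝ) ≤ Real.sqrt n := by
    rw [show (2 : ℝ) = Real.sqrt 4 by rw [show (4 : ℝ) = 2 ^ 2 by norm_num]; simp]
    exact Real.sqrt_le_sqrt h3'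
  have h6 : (n : ℝ) ^ (1 / 2 - θ) * (n : ℝ) ^ θ = Real.sqrt n := by
    rw [← Real.rpow_add hn0', Real.sqrt_eq_rpow]
    congr 1
    ring
  have h7 : 0 ≤ (n : ℝ) ^ (1 / 2 - θ) := by positivity
  nlinarith

/-- Proof. `mta` with `k` replaced by `K + k`, for the sequence `sI 0 1 (Ya n) (Yb n)` (`lvlI`, `D = ⌊√n⌋₊ ≥ n^(1/2 - θ)`), `i = none`, `b = 0`.
All classes are allowed. `TH`: `HRT.TH`. `R1`: `#R ≤ q`, `hd = 1/q`. `VS = VaR` (`vs_IR`), the condition `t ≡ 0 [MOD 1]` is empty. -/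
theorem rIR (K k cF A0 : ℕ) (hK : 1 ≤ K) (hk : 1 ≤ k) : ∃ B0 : ℕ, ∀ B : ℕ, B0 ≤ B → ∀ θ : ℝ,
    0 < θ → θ ≤ 1 / 100 → ∃ n0 : ℕ, ∀ n : ℕ, n0 ≤ n → ∀ (w : Par K) (H : Finset ℕ) (p1 : ℕ)
    (R T : ℕ → Finset ℕ) (P' : Finset ℕ), Pre0 B cF θ w H n p1 → HRT K k w.W p1 H R T P' →
    ∀ hr : ℕ → ℝ, (∀ q : ℕ, q.Prime → 0 ≤ hr q) → (∀ q : ℕ, q.Prime → hr q ≤ 2 / q) →
    (∀ q : ℕ, q.Prime → w.W < q → |hr q - 1 / q| ≤ 2 / (q : ℝ) ^ 2) →
    ∑ d ∈ Dv P' (Lv n θ),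
    |∑ t ∈ (Ioc (Ya n) (Yb n)).filter (fun t => inT T d t),
        FF w H none t * Sg (Ps w.W p1) R t -
      ((Yb n : ℝ) - Ya n) * (AE w.P H none (FC w H) * VaR (Ps w.W p1) R) *
        ∏ q ∈ d.primeFactors, (((T q).card : ℝ) * hr q)| ≤ n / Real.log n ^ A0 := by
  obtain ⟨A, B0, hB0⟩ := mta K (K + k) cF A0 hK (by omega)
  refine ⟨B0, fun B hB θ hθ hθ' => ?_⟩
  obtain ⟨n1, hn1⟩ := hB0 B hB θ hθ hθ'
  obtain ⟨n2, hn2⟩ := lvlI A (K * 3 + 2 * (K + k))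
  obtain ⟨n3, hn3⟩ := ri_lev θ hθ
  refine ⟨max (max n1 n2) (max n3 3), fun n hn w H p1 R T P' h0 h1 hr hr0 hr2 hrq => ?_⟩
  have hn1' : n1 ≤ n := ((le_max_left _ _).trans (le_max_left _ _)).trans hn
  have hn2' : n2 ≤ n := ((le_max_right _ _).trans (le_max_left _ _)).trans hn
  have hn3' : n3 ≤ n := ((le_max_left _ _).trans (le_max_right _ _)).trans hn
  have hn4' : 3 ≤ n := ((le_max_right _ _).trans (le_max_right _ _)).trans hn
  have hn0 : (1 : ℝ) ≤ n := by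
    have : 1 ≤ n := by omega
    exact_mod_cast this
  have hHy := ri_hy h0 h1 0 1 (Ya n) (Yb n) (ri_Ya n) none (by simp) T (K + k) le_rfl h1.Tr
    (fun q hq => (h1.Tk q hq).trans (by omega)) (fun q hq t ht h hh _ => h1.TH q hq t ht h hh)
  have key := hn1 n hn1' (sI 0 1 (Ya n) (Yb n)) w.P H none w.W p1 R T P' 0 hr (FC w H)
    ⌊Real.sqrt n⌋₊ hHy hr0 hr2 hrq h0.cardH h0.Wdef
    (fun p hp => by
      have h2 := h0.PN p hp
      have h3 : (n : ℝ) ^ (1 / 100 : ℝ) ≤ (n : ℝ) ^ (1 : ℝ) :=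
        Real.rpow_le_rpow_of_exponent_le hn0 (by norm_num)
      rw [Real.rpow_one] at h3
      exact_mod_cast h2.trans h3)
    (ri_X n 0 1 le_rfl hn4') (by push_cast; positivity) (ri_FC w H) h0.exF (hn3 n hn3')
    (hn2 n hn2' p1 0 1 (Ya n) (Yb n) h0.p1p (Or.inl rfl) (ri_Ya n))
  refine le_trans (le_of_eq ?_) key
  refine sum_congr rfl fun d _ => ?_
  have e1 : (sI 0 1 (Ya n) (Yb n)).S = Ioc (Ya n) (Yb n) := by
    show (Ioc (Ya n) (Yb n)).filter (fun t => t ≡ 0 [MOD 1]) = _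
    rw [filter_true_of_mem]
    intro t _
    exact Nat.modEq_one
  have e2 : VS (Ps w.W p1) R (sI 0 1 (Ya n) (Yb n)).hd (sI 0 1 (Ya n) (Yb n)).Al =
      VaR (Ps w.W p1) R := vs_IR _ _
  rw [e1, e2]
  congr 1
  congr 1
  · refine sum_congr rfl fun t _ => ?_
    show _ = 1 * _
    rw [one_mul]
    rfl
  · congr 2
    show _ = ((Yb n : ℝ) - Ya n) / ((1 : ℕ) : ℝ)
    rw [Nat.cast_one, div_one]

/-- Proof. `rIR` with `k = 1`, `A0 = 10`, `R = Rb N H`, `T q = {N % q}`, `P' = Pg N w.W H`, `hr = gq` (`pre_hrt`, `Pre.to0`, `inT_iff`, `prod_gq`). -/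
theorem rI (K cF : ℕ) (hK : 1 ≤ K) : ∃ B0 : ℕ, ∀ B : ℕ, B0 ≤ B → ∀ θ : ℝ, 0 < θ →
    θ ≤ 1 / 100 → ∃ n0 : ℕ, ∀ N : ℕ, n0 ≤ N → ∀ (w : Par K) (H : Finset ℕ) (p1 : ℕ),
    Pre B cF θ w H N p1 → ∑ d ∈ Dv (Pg N w.W H) (Lv N θ),
    |∑ t ∈ (Ioc (Ya N) (Yb N)).filter (fun t => d ∣ N - t), Fs w H N p1 none t -
      Xi w H N p1 / (Nat.totient d : ℝ)| ≤ N / Real.log N ^ 10 := by
  obtain ⟨B0, hB0⟩ := rIR K 1 cF 10 hK le_rfl
  refine ⟨B0, fun B hB θ hθ hθ' => ?_⟩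
  obtain ⟨n0, hn0⟩ := hB0 B hB θ hθ hθ'
  refine ⟨n0, fun N hN w H p1 hp => ?_⟩
  have h1 := hn0 N hN w H p1 (Rb N H) (fun q => {N % q}) (Pg N w.W H) hp.to0
    (pre_hrt B cF θ w H N p1 hp) H59C.gq ?_ ?_ ?_
  · refine le_trans (le_of_eq ?_) h1
    refine sum_congr rfl fun d hd => ?_
    have hsq : Squarefree d := by
      unfold Dv at hd
      exact (mem_filter.1 hd).2.1
    have e1 : (Ioc (Ya N) (Yb N)).filter (fun t => d ∣ N - t) =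
        (Ioc (Ya N) (Yb N)).filter (fun t => inT (fun q => {N % q}) d t) := by
      refine filter_congr fun t ht => ?_
      rw [mem_Ioc] at ht
      exact (inT_iff N d t hsq (ht.2.trans (ri_Yb N))).symm
    rw [e1]
    congr 1
    congr 1
    have e2 : ∏ q ∈ d.primeFactors, (((({N % q} : Finset ℕ).card : ℕ) : ℝ) * H59C.gq q) =
        1 / (Nat.totient d : ℝ) := by
      rw [← prod_gq d hsq]
      refine prod_congr rfl fun q _ => ?_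
      rw [card_singleton, Nat.cast_one, one_mul]
    rw [e2, mul_one_div]
    rfl
  · intro q hq
    unfold H59C.gq
    have : (2 : ℝ) ≤ q := by exact_mod_cast hq.two_le
    have h2 : (0 : ℝ) ≤ (q : ℝ) - 1 := by linarith
    positivity
  · intro q hq
    unfold H59C.gq
    have : (2 : ℝ) ≤ q := by exact_mod_cast hq.two_le
    rw [div_le_div_iff₀ (by linarith) (by linarith)]
    linarith
  · intro q hq _
    unfold H59C.gq
    have h2 : (2 : ℝ) ≤ q := by exact_mod_cast hq.two_le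
    have h3 : 1 / ((q : ℝ) - 1) - 1 / q = 1 / (((q : ℝ) - 1) * q) := by
      have : (q : ℝ) - 1 ≠ 0 := by linarith
      have : (q : ℝ) ≠ 0 := by linarith
      field_simp
      ring
    have h4 : (0 : ℝ) < ((q : ℝ) - 1) * q := by nlinarith
    rw [h3, abs_of_nonneg (by positivity), div_le_div_iff₀ h4 (by positivity)]
    nlinarith

end Pool.Agent.Lib.H57C
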