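import Pool.Agent.Lib.H57C.M0

/-!
# Chunk M3: the main terms
-/

open Finset

namespace Pool.Agent.Lib.H57C

open Pool.Agent.Lib.H15P Pool.Agent.Lib.H92G Pool.Agent.Lib.H57M

/-- The allowed classes modulo `q`. -/
noncomputable def m3_A {P H : Finset ℕ} (i : Option ℕ) (U : Fam P H) (q : ℕ) : Finset ℕ := by
  classical
  exact (range q).filter (fun c => (∀ h0, i = some h0 → ¬ q ∣ h0 + c) ∧
    ∀ h : {h // h ∈ H}, (∃ p ∈ U h, p.1 = q) → i ≠ some h.1 ∧ q ∣ c + h.1)

theorem m3_mem_A {P H : Finset ℕ} (i : Option ℕ) (U : Fam P H) (q c : ℕ) :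
    c ∈ m3_A i U q ↔ c < q ∧ (∀ h0, i = some h0 → ¬ q ∣ h0 + c) ∧
      ∀ h : {h // h ∈ H}, (∃ p ∈ U h, p.1 = q) → i ≠ some h.1 ∧ q ∣ c + h.1 := by
  unfold m3_A
  rw [mem_filter, mem_range]

theorem m3_Pf (P : Finset ℕ) (hP : ∀ p ∈ P, p.Prime) : (∏ p ∈ P, p).primeFactors = P :=
  Nat.primeFactors_prod hP

theorem m3_sqf (P : Finset ℕ) (hP : ∀ p ∈ P, p.Prime) : Squarefree (∏ p ∈ P, p) := by
  refine Finset.squarefree_prod_of_pairwise_isCoprime ?_ ?_
  · intro p hp q hq hpq
    exact Nat.coprime_iff_isRelPrime.1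
      ((Nat.coprime_primes (hP p (Finset.mem_coe.1 hp)) (hP q (Finset.mem_coe.1 hq))).2 hpq)
  · intro p hp
    exact (hP p hp).squarefree

theorem m3_cop (P : Finset ℕ) (hP : ∀ p ∈ P, p.Prime) (x : ℕ) :
    x.Coprime (∏ p ∈ P, p) ↔ ∀ p ∈ P, ¬ p ∣ x := by
  rw [Nat.coprime_prod_right_iff]
  constructor
  · intro h p hp hd
    have h1 := h p hp
    rw [Nat.coprime_comm, (hP p hp).coprime_iff_not_dvd] at h1
    exact h1 hd
  · intro h p hp
    rw [Nat.coprime_comm, (hP p hp).coprime_iff_not_dvd]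
    exact h p hp

/-- The count. -/
theorem m3_count (P H : Finset ℕ) (i : Option ℕ) (hP : ∀ p ∈ P, p.Prime) (U : Fam P H) :
    ((range (∏ p ∈ P, p)).filter (fun t => (∀ h0, i = some h0 → (h0 + 1 * t).Coprime (∏ p ∈ P, p)) ∧
      ∀ j, U j ⊆ cfg P H i t j)).card = ∏ q ∈ P, (m3_A i U q).card := by
  classical
  have h0 := crt_card (∏ p ∈ P, p) (m3_sqf P hP) (m3_A i U) (fun q _ => by
    intro c hc
    rw [m3_mem_A] at hc
    exact mem_range.2 hc.1)
  rw [m3_Pf P hP] at h0
  rw [← h0]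
  congr 1
  ext t
  rw [mem_filter, mem_filter]
  refine and_congr_right (fun _ => ?_)
  constructor
  · rintro ⟨h1, h2⟩ q hq
    rw [m3_mem_A]
    refine ⟨Nat.mod_lt _ (hP q hq).pos, ?_, ?_⟩
    · intro h0 hh hd
      have h3 := (m3_cop P hP _).1 (h1 h0 hh) q hq
      apply h3
      rw [one_mul]
      rw [Nat.dvd_iff_mod_eq_zero, Nat.add_mod, Nat.mod_mod, ← Nat.add_mod] at hd
      exact Nat.dvd_of_mod_eq_zero hd
    · rintro h ⟨p, hp, rfl⟩
      have h3 := h2 h hp
      unfold cfg at h3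
      split_ifs at h3 with h4
      · exact absurd h3 (by simp)
      · refine ⟨h4, ?_⟩
        unfold hit at h3
        have h5 := (mem_filter.1 h3).2
        rw [Nat.dvd_iff_mod_eq_zero, Nat.add_mod, Nat.mod_mod, ← Nat.add_mod]
        exact Nat.mod_eq_zero_of_dvd h5
  · intro h1
    constructor
    · intro h0 hh
      rw [m3_cop P hP]
      intro p hp hd
      have h2 := (m3_mem_A i U p _).1 (h1 p hp)
      apply h2.2.1 h0 hh
      rw [one_mul] at hd
      rw [Nat.dvd_iff_mod_eq_zero, Nat.add_mod, Nat.mod_mod, ← Nat.add_mod]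
      exact Nat.mod_eq_zero_of_dvd hd
    · intro j p hp
      have h2 := (m3_mem_A i U p.1 _).1 (h1 p.1 p.2)
      have h3 := h2.2.2 j ⟨p, hp, rfl⟩
      unfold cfg
      rw [if_neg h3.1]
      unfold hit
      rw [mem_filter]
      refine ⟨mem_univ _, ?_⟩
      have h4 := h3.2
      rw [Nat.dvd_iff_mod_eq_zero, Nat.add_mod, Nat.mod_mod, ← Nat.add_mod] at h4
      exact Nat.dvd_of_mod_eq_zero h4

/-- The normalisation. -/
noncomputable def m3_n (i : Option ℕ) (q : ℕ) : ℕ := if i = none then q else q - 1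

theorem m3_diff {q h h' c : ℕ} (hh : h < q) (hh' : h' < q) (h1 : q ∣ c + h) (h2 : q ∣ c + h') :
    h = h' := by
  have h3 : c + h ≡ c + h' [MOD q] := by
    rw [Nat.ModEq, Nat.mod_eq_zero_of_dvd h1, Nat.mod_eq_zero_of_dvd h2]
  have h4 : h ≡ h' [MOD q] := Nat.ModEq.add_left_cancel' c h3
  exact Nat.ModEq.eq_of_lt_of_lt h4 hh hh'

/-- No prime: all classes. -/
theorem m3_card0 {P H : Finset ℕ} (i : Option ℕ) (U : Fam P H) (q : ℕ) (hq : q.Prime)
    (hU : ∀ h : {h // h ∈ H}, ¬ ∃ p ∈ U h, p.1 = q) : (m3_A i U q).card = m3_n i q := by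
  classical
  unfold m3_n
  cases i with
  | none =>
    rw [if_pos rfl]
    have : m3_A none U q = range q := by
      ext c
      rw [m3_mem_A, mem_range]
      constructor
      · exact fun h => h.1
      · intro h
        refine ⟨h, ?_, ?_⟩
        · intro h0 hh
          exact absurd hh (by simp)
        · intro h' hh
          exact absurd hh (hU h')
    rw [this, card_range]
  | some h0 =>
    rw [if_neg (by simp)]
    have h1 : m3_A (some h0) U q = (range q).erase ((q - h0 % q) % q) := by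
      ext c
      rw [m3_mem_A, mem_erase, mem_range]
      have hm : h0 % q < q := Nat.mod_lt _ hq.pos
      have key : c < q → (q ∣ h0 + c ↔ c = (q - h0 % q) % q) := by
        intro hc
        have e1 : q ∣ h0 + (q - h0 % q) % q := by
          rw [Nat.dvd_iff_mod_eq_zero, Nat.add_mod, Nat.mod_mod, ← Nat.add_mod]
          have : h0 + (q - h0 % q) = q * (h0 / q) + q := by
            have := Nat.div_add_mod h0 q
            omega
          rw [this]
          simp
        constructor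
        · intro h
          exact m3_diff (c := h0) hc (Nat.mod_lt _ hq.pos) h e1
        · intro h
          rw [h]
          exact e1
      constructor
      · rintro ⟨h2, h3, -⟩
        refine ⟨?_, h2⟩
        intro h4
        exact h3 h0 rfl ((key h2).2 h4)
      · rintro ⟨h2, h3⟩
        refine ⟨h3, ?_, ?_⟩
        · intro h1 hh hd
          have : h0 = h1 := by simpa using hh
          subst this
          exact h2 ((key h3).1 hd)
        · intro h' hh
          exact absurd hh (hU h')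
    rw [h1, card_erase_of_mem (mem_range.2 (Nat.mod_lt _ hq.pos)), card_range]

/-- One form: one class. -/
theorem m3_card1 {P H : Finset ℕ} (i : Option ℕ) (U : Fam P H) (q : ℕ) (hq : q.Prime)
    (hH : ∀ h ∈ H, h < q) (iH : ∀ h, i = some h → h ∈ H) (h : {h // h ∈ H})
    (hU : ∃ p ∈ U h, p.1 = q) (hu : ∀ h' : {h // h ∈ H}, (∃ p ∈ U h', p.1 = q) → h' = h)
    (hi : i ≠ some h.1) : (m3_A i U q).card = 1 := by
  classical
  rw [card_eq_one]
  refine ⟨(q - h.1) % q, ?_⟩
  ext c
  rw [m3_mem_A, mem_singleton]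
  have hh := hH h.1 h.2
  have e1 : q ∣ (q - h.1) % q + h.1 := by
    rw [Nat.dvd_iff_mod_eq_zero, Nat.add_mod, Nat.mod_mod, ← Nat.add_mod]
    have : q - h.1 + h.1 = q := by omega
    rw [this, Nat.mod_self]
  constructor
  · rintro ⟨h1, -, h3⟩
    have h4 := (h3 h hU).2
    rw [add_comm] at h4 e1
    exact m3_diff h1 (Nat.mod_lt _ hq.pos) h4 e1
  · rintro rfl
    refine ⟨Nat.mod_lt _ hq.pos, ?_, ?_⟩
    · intro h0 h5 h6
      rw [add_comm] at h6
      have h7 := m3_diff (hH h0 (iH h0 h5)) hh h6 e1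
      apply hi
      rw [h5, h7]
    · intro h' h8
      have := hu h' h8
      subst this
      exact ⟨hi, e1⟩

/-- The local factor. -/
theorem m3_local {P H : Finset ℕ} (i : Option ℕ) (W : ℕ) (hP : ∀ p ∈ P, p.Prime ∧ W < p)
    (HW : ∀ h ∈ H, h ≤ W) (iH : ∀ h, i = some h → h ∈ H) (U : Fam P H) (hok : okA P H i U)
    (q : ℕ) (hq : q ∈ P) :
    ((m3_A i U q).card : ℝ) / (m3_n i q : ℝ) =
      ∏ h : {h // h ∈ H}, (if (⟨q, hq⟩ : {p // p ∈ P}) ∈ U h then hdr i q else 1) := by
  classical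
  have hqp := (hP q hq).1
  have hH : ∀ h ∈ H, h < q := fun h hh => lt_of_le_of_lt (HW h hh) (hP q hq).2
  have hn : (m3_n i q : ℝ) ≠ 0 := by
    unfold m3_n
    split_ifs
    · exact_mod_cast hqp.pos.ne'
    · have := hqp.one_lt
      have h2 : q - 1 ≠ 0 := by omega
      exact_mod_cast h2
  have hhd : hdr i q = 1 / (m3_n i q : ℝ) := by
    unfold hdr m3_n
    split_ifs
    · rfl
    · rw [Nat.cast_sub hqp.one_lt.le, Nat.cast_one]
  have hex : ∀ h : {h // h ∈ H}, (∃ p ∈ U h, p.1 = q) ↔ (⟨q, hq⟩ : {p // p ∈ P}) ∈ U h := by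
    intro h
    constructor
    · rintro ⟨p, hp, h2⟩
      have : p = ⟨q, hq⟩ := Subtype.ext h2
      rw [← this]
      exact hp
    · intro h2
      exact ⟨_, h2, rfl⟩
  by_cases hall : ∀ h : {h // h ∈ H}, ¬ ∃ p ∈ U h, p.1 = q
  · rw [m3_card0 i U q hqp hall, div_self hn]
    symm
    apply prod_eq_one
    intro h _
    rw [if_neg]
    rw [← hex]
    exact hall h
  · push Not at hall
    obtain ⟨h, hh⟩ := hall
    have hu : ∀ h' : {h // h ∈ H}, (∃ p ∈ U h', p.1 = q) → h' = h := by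
      intro h' hh'
      by_contra hne
      have hd := hok.2 h' h hne
      rw [hex] at hh hh'
      exact (Finset.disjoint_left.1 hd) hh' hh
    have hi : i ≠ some h.1 := by
      intro h5
      have := hok.1 h h5
      rw [hex, this] at hh
      exact absurd hh (by simp)
    rw [m3_card1 i U q hqp hH iH h hh hu hi, Nat.cast_one, ← hhd]
    rw [prod_eq_single h]
    · rw [if_pos ((hex h).1 hh)]
    · intro h' _ hne
      rw [if_neg]
      intro h6
      exact hne (hu h' ((hex h').2 h6))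
    · intro h7
      exact absurd (mem_univ _) h7

/-- The bad families. -/
theorem m3_zero {P H : Finset ℕ} (i : Option ℕ) (W : ℕ) (hP : ∀ p ∈ P, p.Prime ∧ W < p)
    (HW : ∀ h ∈ H, h ≤ W) (U : Fam P H) (hok : ¬ okA P H i U) :
    ∏ q ∈ P, (m3_A i U q).card = 0 := by
  classical
  unfold okA at hok
  rw [not_and_or] at hok
  rcases hok with hok | hok
  · push Not at hok
    obtain ⟨h, h1, h2⟩ := hok
    obtain ⟨p, hp⟩ := h2
    refine prod_eq_zero p.2 ?_
    rw [card_eq_zero, eq_empty_iff_forall_notMem]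
    intro c hc
    rw [m3_mem_A] at hc
    exact (hc.2.2 h ⟨p, hp, rfl⟩).1 h1
  · push Not at hok
    obtain ⟨h, h', hne, hd⟩ := hok
    rw [Finset.not_disjoint_iff] at hd
    obtain ⟨p, hp, hp'⟩ := hd
    refine prod_eq_zero p.2 ?_
    rw [card_eq_zero, eq_empty_iff_forall_notMem]
    intro c hc
    rw [m3_mem_A] at hc
    have h1 := (hc.2.2 h ⟨p, hp, rfl⟩).2
    have h2 := (hc.2.2 h' ⟨p, hp', rfl⟩).2
    have h3 := hP p.1 p.2
    exact hne (Subtype.ext (m3_diff (lt_of_le_of_lt (HW h.1 h.2) h3.2)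
      (lt_of_le_of_lt (HW h'.1 h'.2) h3.2) h1 h2))

/-- The density of a family. -/
theorem m3_dens {P H : Finset ℕ} (i : Option ℕ) (W : ℕ) (hP : ∀ p ∈ P, p.Prime ∧ W < p)
    (HW : ∀ h ∈ H, h ≤ W) (iH : ∀ h, i = some h → h ∈ H) (U : Fam P H) :
    (((∏ q ∈ P, (m3_A i U q).card : ℕ)) : ℝ) / (∏ q ∈ P, (m3_n i q : ℝ)) =
      (open Classical in if okA P H i U ∧ okB P H (fun _ _ => True) 1 U then fpr (hdr i) U else 0) := by
  classical
  by_cases hok : okA P H i U
  · have hB : okB P H (fun _ _ => True) 1 U := by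
      refine ⟨?_, ?_⟩
      · intro h p _ hd
        exact (hP p.1 p.2).1.one_lt.ne' (Nat.dvd_one.1 hd)
      · intro h p _ c _
        trivial
    rw [if_pos ⟨hok, hB⟩, Nat.cast_prod, ← prod_div_distrib]
    have h1 : ∀ q : {p // p ∈ P}, ((m3_A i U q.1).card : ℝ) / (m3_n i q.1 : ℝ) =
        ∏ h : {h // h ∈ H}, (if q ∈ U h then hdr i q.1 else 1) :=
      fun q => m3_local i W hP HW iH U hok q.1 q.2
    rw [← prod_attach P (fun q => ((m3_A i U q).card : ℝ) / (m3_n i q : ℝ))]
    rw [show (P.attach : Finset {p // p ∈ P}) = univ from rfl, prod_congr rfl (fun q _ => h1 q),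
      prod_comm]
    unfold fpr
    refine prod_congr rfl (fun h _ => ?_)
    rw [prod_ite_mem, univ_inter]
  · rw [if_neg (fun h => hok h.1), m3_zero i W hP HW U hok]
    simp

/-- The reference mean value as a sum over families. -/
theorem ae_sum (P H : Finset ℕ) (i : Option ℕ) (W : ℕ) (hP : ∀ p ∈ P, p.Prime ∧ W < p)
    (HW : ∀ h ∈ H, h ≤ W) (iH : ∀ h, i = some h → h ∈ H)
    (F : Fam P H → ℝ) (c : Fam P H → ℝ)
    (hc : ∀ S, F S = ∑ U : Fam P H, if ∀ j, U j ⊆ S j then c U else 0) :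
    AE P H i F = Am P H i (fun _ _ => True) (hdr i) 1 c := by
  classical
  have hPp : ∀ p ∈ P, p.Prime := fun p hp => (hP p hp).1
  have hN : AE P H i F = (∑ t ∈ (range (∏ p ∈ P, p)).filter (fun t => ∀ h0, i = some h0 →
      (h0 + 1 * t).Coprime (∏ p ∈ P, p)), F (cfg P H i t)) / (∏ q ∈ P, (m3_n i q : ℝ)) := by
    cases i with
    | none =>
      unfold AE EP m3_n
      simp only [if_true, Nat.cast_prod]
      congr 1
      refine sum_congr ?_ ?_
      · ext t
        simp
      · intro t _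
        congr 1
        funext h
        unfold cfg
        rw [if_neg (by simp), one_mul, add_comm]
    | some h0 =>
      unfold AE EU m3_n
      simp only [reduceCtorEq, if_false]
      congr 1
      · refine sum_congr ?_ (fun _ _ => rfl)
        ext t
        simp
      · have h3 := Nat.totient_mul_prod_primeFactors (∏ p ∈ P, p)
        rw [m3_Pf P hPp] at h3
        have h4 : 0 < ∏ p ∈ P, p := Finset.prod_pos (fun p hp => (hPp p hp).pos)
        have h5 : (∏ p ∈ P, p).totient = ∏ p ∈ P, (p - 1) := by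
          rw [mul_comm] at h3
          exact Nat.eq_of_mul_eq_mul_left h4 h3
        rw [h5, Nat.cast_prod]
  rw [hN]
  unfold Am
  simp only [hc]
  rw [sum_comm, sum_div]
  refine sum_congr rfl (fun U _ => ?_)
  rw [← sum_filter, filter_filter, sum_const, m3_count P H i hPp U, nsmul_eq_mul]
  have h2 := m3_dens i W hP HW iH U
  rw [mul_comm, mul_div_assoc, h2]
  split_ifs
  · rfl
  · rw [mul_zero]

end Pool.Agent.Lib.H57C
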