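import Pool.Agent.Lib.H57C.MDefs

/-!
# Chunk M4: perturbation of the main terms
-/

open Finset

namespace Pool.Agent.Lib.H57C

open Pool.Agent.Lib.H15P Pool.Agent.Lib.H92G Pool.Agent.Lib.H57M

theorem m4_sub {α : Type} [Fintype α] [DecidableEq α] (x : α → ℝ) :
    ∑ T : Finset α, ∏ p ∈ T, x p = ∏ p, (1 + x p) := by
  rw [Finset.prod_one_add, Finset.powerset_univ]

theorem m4_subp {α : Type} [Fintype α] [DecidableEq α] (x : α → ℝ) (hx : ∀ p, 0 ≤ x p) (p0 : α) :
    ∑ T : Finset α, (if p0 ∈ T then ∏ p ∈ T, x p else 0) ≤ x p0 * ∏ p, (1 + x p) := by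
  rw [← m4_sub, ← Finset.sum_filter, Finset.mul_sum]
  calc ∑ T ∈ univ.filter (fun T : Finset α => p0 ∈ T), ∏ p ∈ T, x p
      = ∑ T ∈ univ.filter (fun T : Finset α => p0 ∉ T), x p0 * ∏ p ∈ T, x p := by
        refine Finset.sum_nbij' (fun T => T.erase p0) (fun T => insert p0 T) ?_ ?_ ?_ ?_ ?_
        · intro T _
          simp
        · intro T _
          simp
        · intro T hT
          exact Finset.insert_erase (by simpa using hT)
        · intro T hT
          exact Finset.erase_insert (by simpa using hT)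
        · intro T hT
          exact (Finset.mul_prod_erase T x (by simpa using hT)).symm
    _ ≤ ∑ T : Finset α, x p0 * ∏ p ∈ T, x p := by
        refine Finset.sum_le_sum_of_subset_of_nonneg (Finset.filter_subset _ _) ?_
        intro T _ _
        exact mul_nonneg (hx _) (Finset.prod_nonneg fun p _ => hx p)

theorem m4_fam {ι α : Type} [Fintype ι] [DecidableEq ι] [Fintype α] [DecidableEq α] (x : α → ℝ) :
    ∑ U : ι → Finset α, ∏ h, ∏ p ∈ U h, x p = ∏ _h : ι, ∏ p, (1 + x p) := by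
  simp_rw [← m4_sub x]
  rw [Finset.prod_univ_sum, Fintype.piFinset_univ]

theorem m4_famp {ι α : Type} [Fintype ι] [DecidableEq ι] [Fintype α] [DecidableEq α] (x : α → ℝ)
    (hx : ∀ p, 0 ≤ x p) (h0 : ι) (p0 : α) :
    ∑ U : ι → Finset α, (if p0 ∈ U h0 then ∏ h, ∏ p ∈ U h, x p else 0) ≤
      x p0 * ∏ _h : ι, ∏ p, (1 + x p) := by
  have h1 : ∀ U : ι → Finset α, (if p0 ∈ U h0 then ∏ h, ∏ p ∈ U h, x p else 0) =
      ∏ h, (if h = h0 then (if p0 ∈ U h then ∏ p ∈ U h, x p else 0) else ∏ p ∈ U h, x p) := by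
    intro U
    by_cases hp : p0 ∈ U h0
    · rw [if_pos hp]
      refine Finset.prod_congr rfl fun h _ => ?_
      split_ifs with h2 h3
      · rfl
      · subst h2; exact absurd hp h3
      · rfl
    · rw [if_neg hp]
      symm
      exact Finset.prod_eq_zero (Finset.mem_univ h0) (by simp [hp])
  simp_rw [h1]
  have h2 := (Finset.prod_univ_sum (fun _ : ι => (univ : Finset (Finset α)))
    (fun (h : ι) (T : Finset α) =>
      if h = h0 then (if p0 ∈ T then ∏ p ∈ T, x p else 0) else ∏ p ∈ T, x p)).symm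
  rw [Fintype.piFinset_univ] at h2
  rw [h2]
  have h3 : x p0 * ∏ _h : ι, ∏ p, (1 + x p) =
      ∏ h : ι, (if h = h0 then x p0 * ∏ p, (1 + x p) else ∏ p, (1 + x p)) := by
    rw [← Finset.mul_prod_erase univ _ (Finset.mem_univ h0),
      ← Finset.mul_prod_erase univ (fun h : ι =>
        if h = h0 then x p0 * ∏ p, (1 + x p) else ∏ p, (1 + x p)) (Finset.mem_univ h0), if_pos rfl,
      mul_assoc]
    congr 2
    refine Finset.prod_congr rfl fun h hh => ?_
    rw [if_neg (Finset.ne_of_mem_erase hh)]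
  rw [h3]
  refine Finset.prod_le_prod ?_ ?_
  · intro h _
    refine Finset.sum_nonneg fun T _ => ?_
    have := Finset.prod_nonneg (fun p (_ : p ∈ T) => hx p)
    split_ifs <;> first | exact this | exact le_rfl
  · intro h _
    by_cases hh : h = h0
    · simp only [hh, if_true]
      exact m4_subp x hx p0
    · simp only [if_neg hh]
      exact (m4_sub x).le

theorem m4_pow {P H : Finset ℕ} (e : ℝ) (f : ℕ → ℝ) (U : Fam P H) :
    e ^ (∑ h, (U h).card) * fpr f U = ∏ h, ∏ p ∈ U h, (e * f p.1) := by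
  unfold fpr
  simp_rw [Finset.prod_mul_distrib, Finset.prod_const]
  rw [Finset.prod_pow_eq_pow_sum]

theorem m4_all {P H : Finset ℕ} {K : ℕ} (hK : H.card = K) (g : ℕ → ℝ) :
    ∏ _h : {h // h ∈ H}, ∏ p : {p // p ∈ P}, g p.1 = ∏ p ∈ P, g p ^ K := by
  rw [Finset.prod_const, Finset.card_univ, Fintype.card_coe, hK, Finset.prod_pow,
    Finset.prod_coe_sort P g]

theorem m4_diff {α : Type} [DecidableEq α] (a a' m : α → ℝ) (δ : ℝ) (hδ : 0 ≤ δ)
    (ha : ∀ p, 0 ≤ a p) (ha' : ∀ p, 0 ≤ a' p) (ham : ∀ p, a p ≤ m p) (ham' : ∀ p, a' p ≤ m p)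
    (hd : ∀ p, |a p - a' p| ≤ δ * m p) (T : Finset α) :
    |∏ p ∈ T, a p - ∏ p ∈ T, a' p| ≤ T.card * δ * ∏ p ∈ T, m p := by
  induction T using Finset.induction_on with
  | empty => simp
  | insert p T hp ih =>
    rw [Finset.prod_insert hp, Finset.prod_insert hp, Finset.prod_insert hp,
      Finset.card_insert_of_notMem hp]
    have h1 : a p * ∏ p ∈ T, a p - a' p * ∏ p ∈ T, a' p =
        (a p - a' p) * ∏ p ∈ T, a p + a' p * (∏ p ∈ T, a p - ∏ p ∈ T, a' p) := by ring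
    have hA : ∏ p ∈ T, a p ≤ ∏ p ∈ T, m p := Finset.prod_le_prod (fun p _ => ha p) fun p _ => ham p
    have hA0 : 0 ≤ ∏ p ∈ T, a p := Finset.prod_nonneg fun p _ => ha p
    have hM0 : 0 ≤ ∏ p ∈ T, m p := hA0.trans hA
    have hm0 : 0 ≤ m p := (ha p).trans (ham p)
    calc |a p * ∏ p ∈ T, a p - a' p * ∏ p ∈ T, a' p|
        ≤ |(a p - a' p) * ∏ p ∈ T, a p| + |a' p * (∏ p ∈ T, a p - ∏ p ∈ T, a' p)| := by
          rw [h1]; exact abs_add_le _ _
      _ = |a p - a' p| * ∏ p ∈ T, a p + a' p * |∏ p ∈ T, a p - ∏ p ∈ T, a' p| := by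
          rw [abs_mul, abs_mul, abs_of_nonneg hA0, abs_of_nonneg (ha' p)]
      _ ≤ (δ * m p) * ∏ p ∈ T, m p + m p * (T.card * δ * ∏ p ∈ T, m p) := by
          refine add_le_add (mul_le_mul (hd p) hA hA0 (mul_nonneg hδ hm0))
            (mul_le_mul (ham' p) ih (abs_nonneg _) hm0)
      _ = ((T.card + 1 : ℕ) : ℝ) * δ * (m p * ∏ p ∈ T, m p) := by
          push_cast; ring

theorem m4_two (n : ℕ) : (n : ℝ) ≤ 2 ^ n := by
  exact_mod_cast (Nat.lt_two_pow_self (n := n)).le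

theorem m4_fpr {P H : Finset ℕ} (f : ℕ → ℝ) (U : Fam P H) :
    fpr f U = ∏ x ∈ (univ : Finset {h // h ∈ H}).sigma U, f x.2.1 := by
  unfold fpr
  rw [Finset.prod_sigma]

open Classical in
theorem am_bound (P H : Finset ℕ) (i : Option ℕ) (W K E b : ℕ) (Al : ℕ → ℕ → Prop) (hd : ℕ → ℝ)
    (c : Fam P H → ℝ) (CF Pi0 : ℝ) (hCF : 0 ≤ CF) (hE : 1 ≤ E) (hK : H.card = K) (hK1 : 1 ≤ K)
    (hP : ∀ p ∈ P, p.Prime ∧ W < p) (hW : 1 ≤ W)
    (hd0 : ∀ q : ℕ, q.Prime → 0 ≤ hd q) (hd2 : ∀ q : ℕ, q.Prime → hd q ≤ 2 / q)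
    (hdq : ∀ q : ℕ, q.Prime → W < q → |hd q - 1 / q| ≤ 2 / (q : ℝ) ^ 2)
    (hcb : ∀ U, |c U| ≤ CF * (E : ℝ) ^ (∑ h, (U h).card))
    (hPi : ∏ p ∈ P, (1 + 4 * (E : ℝ) / p) ^ K ≤ Pi0)
    (hb : (P.filter (fun p => ∃ h ∈ H, i ≠ some h ∧ ∃ c : ℕ, p ∣ c + h ∧ ¬ Al p c)).card ≤ b)
    (d : ℕ) (hd1 : 1 ≤ d) :
    |Am P H i Al hd d c| ≤ CF * Pi0 ∧
    |Am P H i Al hd d c - Am P H i (fun _ _ => True) (hdr i) 1 c| ≤
      CF * Pi0 * ((2 * K * E * (b + d.primeFactors.card) + 2) / W) := by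
  have hWr : (1 : ℝ) ≤ W := by exact_mod_cast hW
  have hEr : (1 : ℝ) ≤ E := by exact_mod_cast hE
  have hE0 : (0 : ℝ) ≤ E := by linarith
  -- the densities
  have hp0 : ∀ p : {p // p ∈ P}, (0 : ℝ) < (p.1 : ℝ) := fun p => by
    exact_mod_cast (hP p.1 p.2).1.pos
  have hp2 : ∀ p : {p // p ∈ P}, (2 : ℝ) ≤ (p.1 : ℝ) := fun p => by
    exact_mod_cast (hP p.1 p.2).1.two_le
  have hpW : ∀ p : {p // p ∈ P}, (W : ℝ) ≤ (p.1 : ℝ) := fun p => by
    exact_mod_cast (hP p.1 p.2).2.le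
  have hr0 : ∀ p : {p // p ∈ P}, 0 ≤ hdr i p.1 := fun p => by
    have := hp2 p
    unfold hdr
    split_ifs
    · positivity
    · exact one_div_nonneg.2 (by linarith)
  have hr2 : ∀ p : {p // p ∈ P}, hdr i p.1 ≤ 2 / (p.1 : ℝ) := fun p => by
    have := hp2 p
    unfold hdr
    split_ifs
    · gcongr
      norm_num
    · rw [div_le_div_iff₀ (by linarith) (by linarith)]
      linarith
  have hrd : ∀ p : {p // p ∈ P}, |hd p.1 - hdr i p.1| ≤ (2 / (W : ℝ)) * (2 / (p.1 : ℝ)) := fun p => by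
    have h2 := hp2 p
    have h3 := hpW p
    have h4 := hdq p.1 (hP p.1 p.2).1 (hP p.1 p.2).2
    have h5 : |1 / (p.1 : ℝ) - hdr i p.1| ≤ 2 / (p.1 : ℝ) ^ 2 := by
      unfold hdr
      split_ifs
      · rw [sub_self, abs_zero]; positivity
      · rw [abs_sub_comm, abs_of_nonneg (by
          rw [sub_nonneg]
          exact one_div_le_one_div_of_le (by linarith) (by linarith))]
        rw [div_sub_div _ _ (by linarith) (by linarith), div_le_div_iff₀ (by nlinarith) (by nlinarith)]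
        nlinarith
    calc |hd p.1 - hdr i p.1| ≤ |hd p.1 - 1 / (p.1 : ℝ)| + |1 / (p.1 : ℝ) - hdr i p.1| :=
          abs_sub_le _ _ _
      _ ≤ 2 / (p.1 : ℝ) ^ 2 + 2 / (p.1 : ℝ) ^ 2 := add_le_add h4 h5
      _ = (2 / (p.1 : ℝ)) * (2 / (p.1 : ℝ)) := by ring
      _ ≤ (2 / (W : ℝ)) * (2 / (p.1 : ℝ)) := by
          gcongr
  -- products of densities
  have hf1 : ∀ U : Fam P H, 0 ≤ fpr hd U ∧ fpr hd U ≤ fpr (fun p => 2 / (p : ℝ)) U := fun U => by
    unfold fpr
    have h1 : ∀ h : {h // h ∈ H}, 0 ≤ ∏ p ∈ U h, hd p.1 := fun h =>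
      Finset.prod_nonneg fun p _ => hd0 p.1 (hP p.1 p.2).1
    exact ⟨Finset.prod_nonneg fun h _ => h1 h, Finset.prod_le_prod (fun h _ => h1 h) fun h _ =>
      Finset.prod_le_prod (fun p _ => hd0 p.1 (hP p.1 p.2).1) fun p _ => hd2 p.1 (hP p.1 p.2).1⟩
  have hf2 : ∀ U : Fam P H, 0 ≤ fpr (hdr i) U ∧ fpr (hdr i) U ≤ fpr (fun p => 2 / (p : ℝ)) U :=
    fun U => by
    unfold fpr
    have h1 : ∀ h : {h // h ∈ H}, 0 ≤ ∏ p ∈ U h, hdr i p.1 := fun h =>
      Finset.prod_nonneg fun p _ => hr0 p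
    exact ⟨Finset.prod_nonneg fun h _ => h1 h, Finset.prod_le_prod (fun h _ => h1 h) fun h _ =>
      Finset.prod_le_prod (fun p _ => hr0 p) fun p _ => hr2 p⟩
  have hf0 : ∀ U : Fam P H, 0 ≤ fpr (fun p => 2 / (p : ℝ)) U := fun U => (hf1 U).1.trans (hf1 U).2
  have hf3 : ∀ U : Fam P H, |fpr hd U - fpr (hdr i) U| ≤
      (2 : ℝ) ^ (∑ h, (U h).card) * (2 / (W : ℝ)) * fpr (fun p => 2 / (p : ℝ)) U := fun U => by
    have h1 := m4_diff (fun x : (_ : {h // h ∈ H}) × {p // p ∈ P} => hd x.2.1)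
      (fun x => hdr i x.2.1) (fun x => 2 / (x.2.1 : ℝ)) (2 / (W : ℝ)) (by positivity)
      (fun x => hd0 _ (hP _ x.2.2).1) (fun x => hr0 x.2) (fun x => hd2 _ (hP _ x.2.2).1)
      (fun x => hr2 x.2) (fun x => hrd x.2) ((univ : Finset {h // h ∈ H}).sigma U)
    rw [m4_fpr, m4_fpr, m4_fpr]
    rw [Finset.card_sigma] at h1
    refine h1.trans ?_
    have h2 : 0 ≤ ∏ x ∈ (univ : Finset {h // h ∈ H}).sigma U, (2 / (x.2.1 : ℝ)) :=
      Finset.prod_nonneg fun x _ => by positivity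
    refine mul_le_mul_of_nonneg_right (mul_le_mul_of_nonneg_right (m4_two _) (by positivity)) h2
  -- the total sums
  have hS2 : ∑ U : Fam P H, (E : ℝ) ^ (∑ h, (U h).card) * fpr (fun p => 2 / (p : ℝ)) U ≤ Pi0 := by
    simp_rw [m4_pow]
    rw [m4_fam (fun p : {p // p ∈ P} => (E : ℝ) * (2 / (p.1 : ℝ))),
      m4_all hK (fun p => 1 + (E : ℝ) * (2 / (p : ℝ)))]
    refine le_trans (Finset.prod_le_prod (fun p _ => by positivity) fun p _ => ?_) hPi
    refine pow_le_pow_left₀ (by positivity) ?_ K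
    have : (E : ℝ) * (2 / (p : ℝ)) ≤ 4 * (E : ℝ) / p := by
      rw [← mul_div_assoc]
      gcongr ?_ / _
      linarith
    linarith
  have hS4 : ∑ U : Fam P H, ((2 * E : ℝ)) ^ (∑ h, (U h).card) * fpr (fun p => 2 / (p : ℝ)) U ≤
      Pi0 := by
    simp_rw [m4_pow]
    rw [m4_fam (fun p : {p // p ∈ P} => (2 * E : ℝ) * (2 / (p.1 : ℝ))),
      m4_all hK (fun p => 1 + (2 * E : ℝ) * (2 / (p : ℝ)))]
    refine le_trans (le_of_eq ?_) hPi
    refine Finset.prod_congr rfl fun p _ => ?_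
    ring
  have hPi0 : 0 ≤ Pi0 := le_trans (Finset.prod_nonneg fun p _ => by positivity) hPi
  refine ⟨?_, ?_⟩
  · unfold Am
    refine (Finset.abs_sum_le_sum_abs _ _).trans ?_
    refine le_trans (Finset.sum_le_sum fun U _ => ?_)
      (le_trans (Finset.mul_sum univ (fun U : Fam P H =>
        (E : ℝ) ^ (∑ h, (U h).card) * fpr (fun p => 2 / (p : ℝ)) U) CF).symm.le
        (mul_le_mul_of_nonneg_left hS2 hCF))
    have hnn : 0 ≤ CF * ((E : ℝ) ^ (∑ h, (U h).card) * fpr (fun p => 2 / (p : ℝ)) U) :=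
      mul_nonneg hCF (mul_nonneg (by positivity) (hf0 U))
    split_ifs
    · rw [abs_mul, abs_of_nonneg (hf1 U).1, ← mul_assoc]
      exact mul_le_mul (hcb U) (hf1 U).2 (hf1 U).1 (mul_nonneg hCF (by positivity))
    · rw [abs_zero]; exact hnn
  · -- the bad primes
    set Bd : Finset {p // p ∈ P} := univ.filter (fun p => p.1 ∈ d.primeFactors ∨
      p.1 ∈ P.filter (fun p => ∃ h ∈ H, i ≠ some h ∧ ∃ c : ℕ, p ∣ c + h ∧ ¬ Al p c)) with hBd
    have hBc : (Bd.card : ℝ) ≤ b + d.primeFactors.card := by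
      have h1 : Bd.card ≤ (d.primeFactors ∪
          P.filter (fun p => ∃ h ∈ H, i ≠ some h ∧ ∃ c : ℕ, p ∣ c + h ∧ ¬ Al p c)).card := by
        refine Finset.card_le_card_of_injOn (fun p => p.1) ?_ ?_
        · intro p hp
          have := (Finset.mem_filter.1 (Finset.mem_coe.1 hp)).2
          exact Finset.mem_coe.2 (Finset.mem_union.2 this)
        · intro p _ p' _ h
          exact Subtype.ext h
      have h2 := Finset.card_union_le d.primeFactors
        (P.filter (fun p => ∃ h ∈ H, i ≠ some h ∧ ∃ c : ℕ, p ∣ c + h ∧ ¬ Al p c))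
      have h3 : Bd.card ≤ b + d.primeFactors.card := by omega
      exact_mod_cast h3
    have hterm : ∀ U : Fam P H,
        |(if okA P H i U ∧ okB P H Al d U then c U * fpr hd U else 0) -
          (if okA P H i U ∧ okB P H (fun _ _ => True) 1 U then c U * fpr (hdr i) U else 0)| ≤
        CF * ((2 / (W : ℝ)) * ((2 * E : ℝ) ^ (∑ h, (U h).card) * fpr (fun p => 2 / (p : ℝ)) U)) +
        CF * ∑ p ∈ Bd, ∑ h : {h // h ∈ H}, (if p ∈ U h then
          (E : ℝ) ^ (∑ h, (U h).card) * fpr (fun p => 2 / (p : ℝ)) U else 0) := by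
      intro U
      have hB1 : okB P H (fun _ _ => True) 1 U :=
        ⟨fun h p _ hdv => (hP p.1 p.2).1.one_lt.ne' (Nat.dvd_one.1 hdv), fun _ _ _ _ _ => trivial⟩
      have hnn1 : 0 ≤ CF * ((2 / (W : ℝ)) * ((2 * E : ℝ) ^ (∑ h, (U h).card) *
          fpr (fun p => 2 / (p : ℝ)) U)) :=
        mul_nonneg hCF (mul_nonneg (by positivity) (mul_nonneg (by positivity) (hf0 U)))
      have hnn3 : 0 ≤ (E : ℝ) ^ (∑ h, (U h).card) * fpr (fun p => 2 / (p : ℝ)) U :=
        mul_nonneg (by positivity) (hf0 U)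
      have hnn4 : ∀ p ∈ Bd, 0 ≤ ∑ h : {h // h ∈ H}, (if p ∈ U h then
          (E : ℝ) ^ (∑ h, (U h).card) * fpr (fun p => 2 / (p : ℝ)) U else 0) := fun p _ =>
        Finset.sum_nonneg fun h _ => by split_ifs <;> first | exact hnn3 | exact le_rfl
      have hnn2 : 0 ≤ CF * ∑ p ∈ Bd, ∑ h : {h // h ∈ H}, (if p ∈ U h then
          (E : ℝ) ^ (∑ h, (U h).card) * fpr (fun p => 2 / (p : ℝ)) U else 0) :=
        mul_nonneg hCF (Finset.sum_nonneg hnn4)
      by_cases hA : okA P H i U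
      · by_cases hB : okB P H Al d U
        · rw [if_pos ⟨hA, hB⟩, if_pos ⟨hA, hB1⟩, ← mul_sub, abs_mul]
          refine le_trans ?_ (le_add_of_nonneg_right hnn2)
          calc |c U| * |fpr hd U - fpr (hdr i) U|
              ≤ (CF * (E : ℝ) ^ (∑ h, (U h).card)) *
                ((2 : ℝ) ^ (∑ h, (U h).card) * (2 / (W : ℝ)) * fpr (fun p => 2 / (p : ℝ)) U) :=
                mul_le_mul (hcb U) (hf3 U) (abs_nonneg _) (mul_nonneg hCF (by positivity))
            _ = _ := by rw [mul_pow]; ring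
        · rw [if_neg (fun h => hB h.2), if_pos ⟨hA, hB1⟩, zero_sub, abs_neg, abs_mul,
            abs_of_nonneg (hf2 U).1]
          refine le_trans ?_ (le_add_of_nonneg_left hnn1)
          -- find the bad prime
          have hex : ∃ p ∈ Bd, ∃ h : {h // h ∈ H}, p ∈ U h := by
            unfold okB at hB
            by_cases hB2 : ∀ h, ∀ p ∈ U h, ¬ p.1 ∣ d
            · have hB3 : ¬ ∀ h, ∀ p ∈ U h, ∀ c : ℕ, p.1 ∣ c + h.1 → Al p.1 c := fun h => hB ⟨hB2, h⟩
              push Not at hB3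
              obtain ⟨h, p, hp, c', hc', hc2⟩ := hB3
              refine ⟨p, ?_, h, hp⟩
              rw [hBd, Finset.mem_filter]
              refine ⟨Finset.mem_univ _, Or.inr (Finset.mem_filter.2 ⟨p.2, h.1, h.2, ?_, c', hc', hc2⟩)⟩
              intro hi
              have := hA.1 h hi
              rw [this] at hp
              exact absurd hp (Finset.notMem_empty _)
            · push Not at hB2
              obtain ⟨h, p, hp, hpd⟩ := hB2
              refine ⟨p, ?_, h, hp⟩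
              rw [hBd, Finset.mem_filter]
              exact ⟨Finset.mem_univ _, Or.inl (Nat.mem_primeFactors.2
                ⟨(hP p.1 p.2).1, hpd, by omega⟩)⟩
          obtain ⟨p, hp, h, hph⟩ := hex
          calc |c U| * fpr (hdr i) U
              ≤ (CF * (E : ℝ) ^ (∑ h, (U h).card)) * fpr (fun p => 2 / (p : ℝ)) U :=
                mul_le_mul (hcb U) (hf2 U).2 (hf2 U).1 (mul_nonneg hCF (by positivity))
            _ = CF * ((E : ℝ) ^ (∑ h, (U h).card) * fpr (fun p => 2 / (p : ℝ)) U) := by ring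
            _ ≤ _ := by
                refine mul_le_mul_of_nonneg_left ?_ hCF
                refine le_trans ?_ (Finset.single_le_sum hnn4 hp)
                refine le_trans (le_of_eq (if_pos hph).symm)
                  (Finset.single_le_sum (f := fun h : {h // h ∈ H} => if p ∈ U h then
                    (E : ℝ) ^ (∑ h, (U h).card) * fpr (fun p => 2 / (p : ℝ)) U else 0)
                    (fun h _ => ?_) (Finset.mem_univ h))
                split_ifs <;> first | exact hnn3 | exact le_rfl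
      · rw [if_neg (fun h => hA h.1), if_neg (fun h => hA h.1), sub_zero, abs_zero]
        exact add_nonneg hnn1 hnn2
    have hbad : ∑ U : Fam P H, ∑ p ∈ Bd, ∑ h : {h // h ∈ H}, (if p ∈ U h then
          (E : ℝ) ^ (∑ h, (U h).card) * fpr (fun p => 2 / (p : ℝ)) U else 0) ≤
        ((b + d.primeFactors.card : ℝ)) * (K * (((2 * E : ℝ) / W) * Pi0)) := by
      rw [Finset.sum_comm]
      have h1 : ∀ p ∈ Bd, ∑ U : Fam P H, ∑ h : {h // h ∈ H}, (if p ∈ U h then
          (E : ℝ) ^ (∑ h, (U h).card) * fpr (fun p => 2 / (p : ℝ)) U else 0) ≤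
          K * (((2 * E : ℝ) / W) * Pi0) := by
        intro p _
        rw [Finset.sum_comm]
        have h2 : ∀ h : {h // h ∈ H}, ∑ U : Fam P H, (if p ∈ U h then
            (E : ℝ) ^ (∑ h, (U h).card) * fpr (fun p => 2 / (p : ℝ)) U else 0) ≤
            ((2 * E : ℝ) / W) * Pi0 := by
          intro h
          simp_rw [m4_pow]
          refine (m4_famp (fun p : {p // p ∈ P} => (E : ℝ) * (2 / (p.1 : ℝ)))
            (fun p => by positivity) h p).trans ?_
          have h3 : ∏ _h : {h // h ∈ H}, ∏ p : {p // p ∈ P}, (1 + (E : ℝ) * (2 / (p.1 : ℝ))) ≤ Pi0 := by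
            refine le_trans (le_of_eq ?_) hS2
            simp_rw [m4_pow]
            rw [m4_fam (fun p : {p // p ∈ P} => (E : ℝ) * (2 / (p.1 : ℝ)))]
          refine mul_le_mul ?_ h3 (Finset.prod_nonneg fun h _ => Finset.prod_nonneg fun p _ => by
            positivity) (by positivity)
          have := hpW p
          rw [← mul_div_assoc, mul_comm (E : ℝ) 2]
          gcongr
        calc ∑ h : {h // h ∈ H}, ∑ U : Fam P H, (if p ∈ U h then
              (E : ℝ) ^ (∑ h, (U h).card) * fpr (fun p => 2 / (p : ℝ)) U else 0)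
            ≤ ∑ _h : {h // h ∈ H}, ((2 * E : ℝ) / W) * Pi0 := Finset.sum_le_sum fun h _ => h2 h
          _ = K * (((2 * E : ℝ) / W) * Pi0) := by
              rw [Finset.sum_const, Finset.card_univ, Fintype.card_coe, hK, nsmul_eq_mul]
      calc _ ≤ ∑ _p ∈ Bd, (K * (((2 * E : ℝ) / W) * Pi0)) := Finset.sum_le_sum h1
        _ = Bd.card * (K * (((2 * E : ℝ) / W) * Pi0)) := by rw [Finset.sum_const, nsmul_eq_mul]
        _ ≤ _ := mul_le_mul_of_nonneg_right hBc
            (mul_nonneg (by positivity) (mul_nonneg (by positivity) hPi0))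
    unfold Am
    rw [← Finset.sum_sub_distrib]
    refine (Finset.abs_sum_le_sum_abs _ _).trans ?_
    refine (Finset.sum_le_sum fun U _ => hterm U).trans ?_
    rw [Finset.sum_add_distrib, ← Finset.mul_sum, ← Finset.mul_sum, ← Finset.mul_sum]
    calc _ ≤ CF * ((2 / (W : ℝ)) * Pi0) +
          CF * (((b + d.primeFactors.card : ℝ)) * (K * (((2 * E : ℝ) / W) * Pi0))) := by
          refine add_le_add (mul_le_mul_of_nonneg_left
            (mul_le_mul_of_nonneg_left hS4 (by positivity)) hCF)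
            (mul_le_mul_of_nonneg_left hbad hCF)
      _ = CF * Pi0 * ((2 * K * E * (b + d.primeFactors.card) + 2) / W) := by
          field_simp
          ring

end Pool.Agent.Lib.H57C
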