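import Pool.Agent.Lib.H59C.SW4
import Pool.Agent.Lib.H59C.C0

/-!
# Chunk V6: the exceptional prime is small
-/

open Finset

namespace Pool.Agent.Lib.H57C

open Pool.Agent.Lib.H59C

/-- Proof. `sw_exists A K0` gives `p1`. If `p1 ≤ (log n)^A` done (`A ≤ A + 1`). Otherwise no conductor `≤ ⌊(log n)^A⌋` is divisible by `p1`
(conductors of `PC` are `≥ 1`), so `SWp A n p'` holds for every `p'`; take a prime `p' ∈ [K0, 2 K0 + 2]` (`Nat.exists_infinite_primes`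
gives a prime `≥ K0`, a constant), `n` large. -/
theorem sw2 (A K0 : ℕ) : ∃ n0 : ℕ, ∀ n : ℕ, n0 ≤ n → ∃ p1 : ℕ, p1.Prime ∧ K0 ≤ p1 ∧
    (p1 : ℝ) ≤ Real.log n ^ (A + 1) ∧ SWp A n p1 := by
  obtain ⟨n0, hn0⟩ := sw_exists A K0
  obtain ⟨P0, hP0, hP0p⟩ := Nat.exists_infinite_primes K0
  refine ⟨max n0 ⌈Real.exp (P0 + 1)⌉₊, fun n hn => ?_⟩
  have h1 : n0 ≤ n := le_trans (le_max_left _ _) hn
  have h2 : Real.exp (P0 + 1) ≤ n := by
    have h3 : ⌈Real.exp ((P0 : ℝ) + 1)⌉₊ ≤ n := le_trans (le_max_right _ _) hn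
    exact (Nat.le_ceil _).trans (by exact_mod_cast h3)
  have hn1 : (0 : ℝ) < n := lt_of_lt_of_le (Real.exp_pos _) h2
  have hL : (P0 : ℝ) + 1 ≤ Real.log n := by
    rw [Real.le_log_iff_exp_le hn1]
    exact h2
  have hP : (0 : ℝ) ≤ P0 := Nat.cast_nonneg _
  have hL1 : 1 ≤ Real.log n := by linarith
  obtain ⟨p1, hp1, hK, _, hS⟩ := hn0 n h1
  by_cases h : (p1 : ℝ) ≤ Real.log n ^ A
  · exact ⟨p1, hp1, hK, h.trans (pow_le_pow_right₀ hL1 (Nat.le_succ A)), hS⟩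
  · refine ⟨P0, hP0p, hP0, ?_, ?_⟩
    · have h4 : Real.log n ^ 1 ≤ Real.log n ^ (A + 1) := pow_le_pow_right₀ hL1 (by omega)
      rw [pow_one] at h4
      linarith
    · intro p hp hp0 _ y hy1 hy2
      refine hS p hp hp0 ?_ y hy1 hy2
      intro hd
      have hp' := Pool.Agent.Lib.H68T.mem_PC.mp hp
      have h5 : p1 ≤ p.1 := Nat.le_of_dvd (by omega) hd
      have h6 : (p1 : ℝ) ≤ Real.log n ^ A := by
        have h7 : p1 ≤ ⌊Real.log n ^ A⌋₊ := h5.trans hp'.2.1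
        exact (Nat.cast_le.mpr h7).trans (Nat.floor_le (by positivity))
      exact h h6

end Pool.Agent.Lib.H57C
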