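import Pool.Agent.Lib.H57C.S0
import Pool.Agent.Lib.H59C.CP2
import Pool.Agent.Lib.H59C.CS1

/-!
# Chunk S2: the second sum
-/

open Finset

namespace Pool.Agent.Lib.H57C

open Pool.Agent.Lib.H57M
open Pool.Agent.Lib.H59C (AA zz yy gq PR)
open Pool.Agent.Lib.H59C (cdl_log_pow cdl_zz cdl_log log_zz cp2_int cp2_eta prime_int mem_PR jr AA_pos VV VP
  sift remd lg lg_nonneg XX XX_nonneg Sq)

theorem s2_lv (θ : ℝ) (h0 : 0 < θ) (h1 : θ ≤ 1 / 100) (Q0 : ℕ) (hQ : 1 ≤ Q0) :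
    ∃ n0 : ℕ, ∀ n : ℕ, n0 ≤ n →
    1 ≤ Lv n θ ∧ (1 / 2 - 5 * θ) * Real.log n ≤ Real.log ((Lv n θ : ℝ) / Q0) ∧
    Real.log ((Lv n θ : ℝ) / Q0) ≤ 1 / 2 * Real.log n ∧ (0 : ℝ) < (Lv n θ : ℝ) / Q0 := by
  have hQ' : (1 : ℝ) ≤ Q0 := by exact_mod_cast hQ
  obtain ⟨n0, hn0⟩ := cdl_log_pow 0 (2 * Q0) θ (by positivity) h0
  refine ⟨max n0 3, fun n hn => ?_⟩
  have hn3 : 3 ≤ n := le_trans (le_max_right _ _) hn
  have h4 := hn0 n (le_trans (le_max_left _ _) hn)
  rw [pow_zero, mul_one] at h4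
  have hn' : (3 : ℝ) ≤ n := by exact_mod_cast hn3
  have hx : 2 * Q0 * (n : ℝ) ^ (1 / 2 - 5 * θ) ≤ (n : ℝ) ^ (1 / 2 - 4 * θ) := by
    calc 2 * Q0 * (n : ℝ) ^ (1 / 2 - 5 * θ) ≤ (n : ℝ) ^ θ * (n : ℝ) ^ (1 / 2 - 5 * θ) :=
          mul_le_mul_of_nonneg_right h4 (by positivity)
      _ = (n : ℝ) ^ (1 / 2 - 4 * θ) := by
          rw [← Real.rpow_add (by linarith)]
          congr 1
          ring
  have hpow : 1 ≤ (n : ℝ) ^ (1 / 2 - 5 * θ) := Real.one_le_rpow (by linarith) (by linarith)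
  have hx1 : 2 ≤ (n : ℝ) ^ (1 / 2 - 4 * θ) := by
    refine le_trans ?_ hx
    nlinarith
  have hfl : (n : ℝ) ^ (1 / 2 - 4 * θ) < (Lv n θ : ℝ) + 1 := Nat.lt_floor_add_one _
  have hfl2 : (Lv n θ : ℝ) ≤ (n : ℝ) ^ (1 / 2 - 4 * θ) := Nat.floor_le (by positivity)
  have hD : (Q0 : ℝ) * (n : ℝ) ^ (1 / 2 - 5 * θ) ≤ Lv n θ := by linarith
  have hD1 : (1 : ℝ) ≤ Lv n θ := by linarith
  have hpos : (0 : ℝ) < (Lv n θ : ℝ) / Q0 := by positivity
  refine ⟨by exact_mod_cast hD1, ?_, ?_, hpos⟩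
  · have h5 : (n : ℝ) ^ (1 / 2 - 5 * θ) ≤ (Lv n θ : ℝ) / Q0 := by
      rw [le_div_iff₀ (by linarith)]
      linarith
    have h6 := Real.log_le_log (by positivity) h5
    rw [Real.log_rpow (by linarith)] at h6
    exact h6
  · have h5 : (Lv n θ : ℝ) / Q0 ≤ (n : ℝ) ^ (1 / 2 : ℝ) := by
      calc (Lv n θ : ℝ) / Q0 ≤ Lv n θ := div_le_self (by positivity) hQ'
        _ ≤ (n : ℝ) ^ (1 / 2 - 4 * θ) := hfl2
        _ ≤ (n : ℝ) ^ (1 / 2 : ℝ) := Real.rpow_le_rpow_of_exponent_le (by linarith) (by linarith)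
    have h6 := Real.log_le_log hpos h5
    rw [Real.log_rpow (by linarith)] at h6
    exact h6

/-- Proof. As `prime_S2` (`H59C/CP2.lean`; `cp2_int`, `cp2_eta`, `prime_int`): with `κ = 1/2 - 5 θ` (and `θ` small, the `η` of `cp2_eta`)
`log (Lv N θ/q/Q0) ≥ κ log N - log q` for large `N`. -/
theorem prime_S2' (ε : ℝ) (hε : 0 < ε) : ∃ θ0 : ℝ, 0 < θ0 ∧ ∀ θ : ℝ, 0 < θ → θ ≤ θ0 →
    ∀ Q0 : ℕ, 1 ≤ Q0 → ∃ n0 : ℕ, ∀ n : ℕ, n0 ≤ n →
    ∑ q ∈ PR (zz n) (yy n), gq q * (Real.log (zz n) / Real.log ((Lv n θ : ℝ) / q / Q0)) ≤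
      1 / 4 * Real.log 6 + ε ∧
    ∑ q ∈ PR (zz n) (yy n), gq q ≤ 2 := by
  obtain ⟨η, hη, hη1, hG⟩ := cp2_eta (ε / 2) (by linarith)
  refine ⟨η / 5, by positivity, fun θ hθ hθη Q0 hQ => ?_⟩
  obtain ⟨C, hC, hpi⟩ := prime_int
  obtain ⟨n1, hn1⟩ := s2_lv θ hθ (by linarith) Q0 hQ
  obtain ⟨n2, hn2⟩ := cdl_zz (2 + (1 + η) / η)
  obtain ⟨n3, hn3⟩ := cdl_log (max (1 / η) (max (32 * C / ε) (80 * C)))
  refine ⟨n1 + n2 + n3 + 3, fun n hn => ?_⟩
  have hN : (3 : ℝ) ≤ n := by exact_mod_cast (by omega : 3 ≤ n)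
  have hL : 0 < Real.log n := Real.log_pos (by linarith)
  obtain ⟨L, hLdef⟩ : ∃ L : ℝ, L = Real.log n := ⟨_, rfl⟩
  obtain ⟨hD1, hDl', hDu, hDp⟩ := hn1 n (by omega)
  have hDl : (1 / 2 - η) * Real.log n ≤ Real.log ((Lv n θ : ℝ) / Q0) :=
    le_trans (mul_le_mul_of_nonneg_right (by linarith) hL.le) hDl'
  have hzn := hn2 n (by omega)
  have hLn := hn3 n (by omega)
  have hlz := log_zz n (by omega)
  rw [← hLdef] at hL hDl hDu hLn hlz
  have hL1 : 1 / η ≤ L := le_trans (le_max_left _ _) hLn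
  have hL2 : 32 * C / ε ≤ L := le_trans (le_trans (le_max_left _ _) (le_max_right _ _)) hLn
  have hL3 : 80 * C ≤ L := le_trans (le_trans (le_max_right _ _) (le_max_right _ _)) hLn
  have hηinv : 0 < (1 + η) / η := by positivity
  have hz2 : 2 ≤ zz n := by linarith
  have hzpos : 0 < zz n := by linarith
  obtain ⟨b, hb⟩ : ∃ b : ℝ, b = 1 / 3 + η := ⟨_, rfl⟩
  have hlyy : Real.log (yy n) = 1 / 3 * (Real.log 2 + L) := by
    unfold yy
    rw [Real.log_rpow (by linarith), Real.log_mul (by norm_num) (by linarith), hLdef]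
  have hlog2 : Real.log 2 ≤ 1 := by
    have := Real.log_two_lt_d9
    linarith
  have hyypos : 0 < yy n := by unfold yy; positivity
  have hyb : yy n ≤ (n : ℝ) ^ b := by
    rw [← Real.log_le_log_iff hyypos (by positivity), hlyy, Real.log_rpow (by linarith),
      ← hLdef, hb]
    have : 1 ≤ η * L := by
      rw [div_le_iff₀ hη] at hL1
      linarith
    nlinarith
  have hsub : PR (zz n) (yy n) ⊆ PR ((n : ℝ) ^ (1 / 8 : ℝ)) ((n : ℝ) ^ b) := by
    intro q hq
    rw [mem_PR] at hq ⊢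
    exact ⟨hq.1, hq.2.1, lt_of_lt_of_le hq.2.2 hyb⟩
  -- facts about `q`
  have hqf : ∀ q ∈ PR ((n : ℝ) ^ (1 / 8 : ℝ)) ((n : ℝ) ^ b), (0 : ℝ) < q ∧ 1 / 8 ≤ Real.log q / L ∧
      Real.log q / L ≤ b ∧ 0 ≤ gq q ∧ gq q ≤ (1 + η) / q := by
    intro q hq
    obtain ⟨hqp, hq1, hq2⟩ := mem_PR.mp hq
    have hq1' : zz n ≤ q := hq1
    have hq0 : (0 : ℝ) < q := by linarith
    refine ⟨hq0, ?_, ?_, ?_, ?_⟩
    · rw [le_div_iff₀ hL]
      have := Real.log_le_log hzpos hq1'
      rw [hlz] at this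
      exact this
    · rw [div_le_iff₀ hL]
      have := Real.log_le_log hq0 hq2.le
      rw [Real.log_rpow (by linarith), ← hLdef] at this
      exact this
    · unfold gq
      apply div_nonneg zero_le_one
      linarith
    · unfold gq
      rw [div_le_div_iff₀ (by linarith) hq0]
      have h1 : (1 + η) / η ≤ q := by linarith
      rw [div_le_iff₀ hη] at h1
      linarith
  have hκb : b < 1 / 2 - η := by rw [hb]; linarith
  constructor
  · -- first sum
    have hΦ : ∀ x ∈ Set.Icc (1 / 8 : ℝ) b, |1 / 8 / ((1 / 2 - η) - x)| ≤ 1 := by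
      intro x hx
      rw [Set.mem_Icc] at hx
      have h1 : 1 / 8 ≤ (1 / 2 - η) - x := by rw [hb] at hx; linarith
      rw [abs_of_nonneg (by apply div_nonneg (by norm_num); linarith)]
      rw [div_le_one (by linarith)]
      exact h1
    have hmono : MonotoneOn (fun x : ℝ => 1 / 8 / ((1 / 2 - η) - x)) (Set.Icc (1 / 8 : ℝ) b) := by
      intro x hx y hy hxy
      rw [Set.mem_Icc] at hx hy
      apply div_le_div_of_nonneg_left (by norm_num)
      · rw [hb] at hy; linarith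
      · linarith
    have hpi1 := hpi n (1 / 8) b 1 (fun x : ℝ => 1 / 8 / ((1 / 2 - η) - x)) (by omega)
      (by norm_num) (by rw [hb]; linarith) (by rw [hb]; linarith) hz2 (Or.inl hmono) hΦ
    rw [cp2_int (1 / 2 - η) b (by rw [hb]; linarith) hκb, ← hLdef, abs_le] at hpi1
    have hterm : ∀ q ∈ PR (zz n) (yy n), gq q * (Real.log (zz n) /
        Real.log ((Lv n θ : ℝ) / q / Q0)) ≤
        (1 + η) * ((1 / 8 / ((1 / 2 - η) - Real.log q / L)) / q) := by
      intro q hq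
      obtain ⟨hq0, hx1, hx2, hg0, hg1⟩ := hqf q (hsub hq)
      have h1 : Real.log ((Lv n θ : ℝ) / q / Q0) = Real.log ((Lv n θ : ℝ) / Q0) - Real.log q := by
        rw [show (Lv n θ : ℝ) / q / Q0 = (Lv n θ : ℝ) / Q0 / q by ring,
          Real.log_div hDp.ne' hq0.ne']
      have h2 : 0 < (1 / 2 - η) - Real.log q / L := by linarith
      have h3 : ((1 / 2 - η) - Real.log q / L) * L ≤ Real.log ((Lv n θ : ℝ) / q / Q0) := by
        rw [h1, sub_mul, div_mul_cancel₀ _ hL.ne']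
        linarith
      have h4 : Real.log (zz n) / Real.log ((Lv n θ : ℝ) / q / Q0) ≤
          1 / 8 / ((1 / 2 - η) - Real.log q / L) := by
        rw [hlz, div_le_div_iff₀ (lt_of_lt_of_le (by positivity) h3) h2]
        calc 1 / 8 * L * ((1 / 2 - η) - Real.log q / L) =
            1 / 8 * (((1 / 2 - η) - Real.log q / L) * L) := by ring
          _ ≤ 1 / 8 * Real.log ((Lv n θ : ℝ) / q / Q0) := by
            apply mul_le_mul_of_nonneg_left h3 (by norm_num)
      have h5 : 0 ≤ Real.log (zz n) / Real.log ((Lv n θ : ℝ) / q / Q0) := by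
        apply div_nonneg
        · rw [hlz]; positivity
        · exact le_trans (by positivity) h3
      calc gq q * (Real.log (zz n) / Real.log ((Lv n θ : ℝ) / q / Q0))
          ≤ (1 + η) / q * (1 / 8 / ((1 / 2 - η) - Real.log q / L)) := by
            apply mul_le_mul hg1 h4 h5 (by positivity)
        _ = (1 + η) * ((1 / 8 / ((1 / 2 - η) - Real.log q / L)) / q) := by ring
    calc ∑ q ∈ PR (zz n) (yy n), gq q * (Real.log (zz n) / Real.log ((Lv n θ : ℝ) / q / Q0))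
        ≤ ∑ q ∈ PR (zz n) (yy n), (1 + η) * ((1 / 8 / ((1 / 2 - η) - Real.log q / L)) / q) :=
          sum_le_sum hterm
      _ = (1 + η) * ∑ q ∈ PR (zz n) (yy n), (1 / 8 / ((1 / 2 - η) - Real.log q / L)) / q := by
          rw [mul_sum]
      _ ≤ (1 + η) * ∑ q ∈ PR ((n : ℝ) ^ (1 / 8 : ℝ)) ((n : ℝ) ^ b),
          (1 / 8 / ((1 / 2 - η) - Real.log q / L)) / q := by
          apply mul_le_mul_of_nonneg_left _ (by linarith)
          apply sum_le_sum_of_subset_of_nonneg hsub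
          intro q hq _
          obtain ⟨hq0, hx1, hx2, hg0, hg1⟩ := hqf q hq
          have h2 : 0 < (1 / 2 - η) - Real.log q / L := by linarith
          positivity
      _ ≤ (1 + η) * (1 / (8 * (1 / 2 - η)) * (Real.log b - Real.log ((1 / 2 - η) - b)) -
          1 / (8 * (1 / 2 - η)) * (Real.log (1 / 8) - Real.log ((1 / 2 - η) - 1 / 8)) +
          C * 1 / (1 / 8 * L)) := by
          apply mul_le_mul_of_nonneg_left _ (by linarith)
          linarith [hpi1.2]
      _ ≤ 1 / 4 * Real.log 6 + ε / 2 + (1 + η) * (C * 1 / (1 / 8 * L)) := by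
          rw [mul_add, hb]
          linarith
      _ ≤ 1 / 4 * Real.log 6 + ε := by
          have h1 : (1 + η) * (C * 1 / (1 / 8 * L)) ≤ ε / 2 := by
            have h2 : C * 1 / (1 / 8 * L) = 8 * C / L := by
              field_simp
            have h3 : 8 * C / L ≤ ε / 4 := by
              rw [div_le_iff₀ hL]
              rw [div_le_iff₀ hε] at hL2
              linarith
            rw [h2]
            have h4 : 0 ≤ 8 * C / L := by positivity
            nlinarith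
          linarith
  · have hΦ : ∀ x ∈ Set.Icc (1 / 8 : ℝ) b, |(1 : ℝ)| ≤ 1 := by
      intro x _
      simp
    have hmono : MonotoneOn (fun _ : ℝ => (1 : ℝ)) (Set.Icc (1 / 8 : ℝ) b) := by
      intro x hx y hy hxy
      exact le_rfl
    have hpi1 := hpi n (1 / 8) b 1 (fun _ : ℝ => (1 : ℝ)) (by omega)
      (by norm_num) (by rw [hb]; linarith) (by rw [hb]; linarith) hz2 (Or.inl hmono) hΦ
    have hint : ∫ x in (1 / 8 : ℝ)..b, (1 : ℝ) / x = Real.log (8 * b) := by
      rw [integral_one_div_of_pos (by norm_num) (by rw [hb]; linarith)]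
      congr 1
      field_simp
    rw [hint, ← hLdef, abs_le] at hpi1
    have hlogb : Real.log (8 * b) ≤ 8 * b - 1 := by
      have : 0 < 8 * b := by rw [hb]; linarith
      exact Real.log_le_sub_one_of_pos this
    calc ∑ q ∈ PR (zz n) (yy n), gq q ≤ ∑ q ∈ PR (zz n) (yy n), (1 + η) * (1 / (q : ℝ)) := by
          apply sum_le_sum
          intro q hq
          have := (hqf q (hsub hq)).2.2.2.2
          calc gq q ≤ (1 + η) / q := this
            _ = (1 + η) * (1 / (q : ℝ)) := by ring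
      _ = (1 + η) * ∑ q ∈ PR (zz n) (yy n), 1 / (q : ℝ) := by rw [mul_sum]
      _ ≤ (1 + η) * ∑ q ∈ PR ((n : ℝ) ^ (1 / 8 : ℝ)) ((n : ℝ) ^ b), 1 / (q : ℝ) := by
          apply mul_le_mul_of_nonneg_left _ (by linarith)
          apply sum_le_sum_of_subset_of_nonneg hsub
          intro q hq _
          positivity
      _ ≤ (1 + η) * (8 * b - 1 + C * 1 / (1 / 8 * L)) := by
          apply mul_le_mul_of_nonneg_left _ (by linarith)
          linarith [hpi1.2]
      _ ≤ 2 := by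
          have h2 : C * 1 / (1 / 8 * L) = 8 * C / L := by
            field_simp
          have h3 : 8 * C / L ≤ 1 / 10 := by
            rw [div_le_iff₀ hL]
            linarith
          rw [h2, hb]
          nlinarith


theorem s2_Fs {K : ℕ} (w : Par K) (H : Finset ℕ) (N p1 : ℕ) (i : Option ℕ) (t : ℕ) :
    0 ≤ Fs w H N p1 i t := by
  have hz : 0 ≤ w.z := by
    unfold Par.z
    have : 0 ≤ ∑ i, H15P.ex (H15P.qq w.P K) (fun A => w.D i A ^ 2) :=
      Finset.sum_nonneg fun i _ => H15P.ex_nonneg _ w.good.q0 w.good.q1 _ fun A => sq_nonneg _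
    linarith
  unfold Fs FF Sg
  refine mul_nonneg (div_nonneg (sq_nonneg _) (pow_nonneg hz _)) ?_
  split_ifs <;> norm_num

theorem s2_Pg {N W : ℕ} {H : Finset ℕ} (hW : 2 ≤ W) {q : ℕ} (hq : q ∈ Pg N W H) :
    q.Prime ∧ 3 ≤ q := by
  unfold Pg at hq
  rw [mem_filter, mem_Ioc] at hq
  exact ⟨hq.2.1, by omega⟩

open Classical in
/-- The remainder terms of the subsequences. -/
theorem s2_rem (S : Finset ℕ) (w : ℕ → ℝ) (a : ℕ → ℕ) (P QC : Finset ℕ) (z X : ℝ) (L : ℕ)
    (hQ : ∀ q ∈ QC, q.Prime ∧ z ≤ q ∧ q ∈ P) :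
    ∑ q ∈ QC, remd (S.filter (fun p => q ∣ a p)) w a P z (X * gq q) ((L : ℝ) / q) ≤
      ∑ d ∈ Dv P L, |∑ p ∈ S.filter (fun p => d ∣ a p), w p - X / (Nat.totient d : ℝ)| := by
  obtain ⟨r, hr⟩ : ∃ r : ℕ → ℝ, r = fun d => |∑ p ∈ S.filter
    (fun p => d ∣ a p), w p - X / (Nat.totient d : ℝ)| := ⟨_, rfl⟩
  obtain ⟨E, hE⟩ : ∃ E : ℕ → Finset ℕ, E = fun q : ℕ => (Icc 1 ⌊(L : ℝ) / (q : ℝ)⌋₊).filter
    (fun d => Squarefree d ∧ ∀ l ∈ d.primeFactors, l ∈ P ∧ (l : ℝ) < z) := ⟨_, rfl⟩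
  -- facts about a pair
  have hpair : ∀ q ∈ QC, ∀ d ∈ E q, q.Prime ∧ 0 < d ∧ Nat.Coprime q d ∧ q * d ≤ L ∧
      (Squarefree (q * d) ∧ ∀ l ∈ (q * d).primeFactors, l ∈ P) ∧ z ≤ q ∧
      ∀ l ∈ d.primeFactors, (l : ℝ) < z := by
    intro q hq d hd
    rw [hE] at hd
    simp only [mem_filter, mem_Icc] at hd
    obtain ⟨⟨hd1, hd2⟩, hd3, hd4⟩ := hd
    obtain ⟨hqp, hq1, hqP⟩ := hQ q hq
    have hqpos : (0 : ℝ) < q := by exact_mod_cast hqp.pos
    have hcop : Nat.Coprime q d := by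
      rw [Nat.Prime.coprime_iff_not_dvd hqp]
      intro hqd
      have h1 := (hd4 q (Nat.mem_primeFactors.mpr ⟨hqp, hqd, by omega⟩)).2
      linarith
    have hle : q * d ≤ L := by
      have h1 : (d : ℝ) ≤ (L : ℝ) / q := by
        have h0 : (0 : ℝ) ≤ (L : ℝ) / q := by positivity
        exact (Nat.le_floor_iff h0).mp hd2
      rw [le_div_iff₀ hqpos] at h1
      have h2 : ((q * d : ℕ) : ℝ) ≤ (L : ℝ) := by
        push_cast
        linarith
      exact_mod_cast h2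
    refine ⟨hqp, hd1, hcop, hle, ⟨(Nat.squarefree_mul hcop).mpr ⟨hqp.squarefree, hd3⟩, ?_⟩, hq1,
      fun l hl => (hd4 l hl).2⟩
    intro l hl
    rw [Nat.primeFactors_mul hqp.ne_zero (by omega), mem_union] at hl
    rcases hl with hl | hl
    · rw [Nat.Prime.primeFactors hqp, mem_singleton] at hl
      rw [hl]; exact hqP
    · exact (hd4 l hl).1
  have hterm : ∀ q ∈ QC, remd (S.filter (fun p => q ∣ a p)) w a P z (X * gq q) ((L : ℝ) / q) =
      ∑ d ∈ E q, r (q * d) := by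
    intro q hq
    unfold remd
    rw [hE]
    apply sum_congr rfl
    intro d hd
    have hd' : d ∈ E q := by rw [hE]; exact hd
    obtain ⟨hqp, hd0, hcop, hle, -, -, -⟩ := hpair q hq d hd'
    rw [hr]
    show |_| = |_|
    congr 1
    congr 1
    · rw [filter_filter]
      apply sum_congr _ fun _ _ => rfl
      ext p
      simp only [mem_filter]
      constructor
      · rintro ⟨h1, h2, h3⟩
        exact ⟨h1, Nat.Coprime.mul_dvd_of_dvd_of_dvd hcop h2 h3⟩
      · rintro ⟨h1, h2⟩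
        exact ⟨h1, dvd_trans (dvd_mul_right _ _) h2, dvd_trans (dvd_mul_left _ _) h2⟩
    · rw [Nat.totient_mul hcop, Nat.totient_prime hqp]
      unfold gq
      have hq1 := hqp.one_lt
      rw [Nat.cast_mul, Nat.cast_sub hq1.le, Nat.cast_one]
      have h1 : (1 : ℝ) < q := by exact_mod_cast hq1
      have h2 : (0 : ℝ) < Nat.totient d := by exact_mod_cast Nat.totient_pos.mpr hd0
      have h3 : (q : ℝ) - 1 ≠ 0 := by linarith
      field_simp
  rw [sum_congr rfl hterm, sum_sigma']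
  have hinj : Set.InjOn (fun x : (_ : ℕ) × ℕ => x.1 * x.2) (QC.sigma E) := by
    rintro ⟨q, d⟩ hx ⟨q', d'⟩ hx' heq
    simp only [coe_sigma, Set.mem_sigma_iff, mem_coe] at hx hx'
    obtain ⟨hqp, hd0, hcop, hle, -, hz, hl⟩ := hpair q hx.1 d hx.2
    obtain ⟨hqp', hd0', hcop', hle', -, hz', hl'⟩ := hpair q' hx'.1 d' hx'.2
    have heq' : q * d = q' * d' := heq
    have hqq : q = q' := by
      have h1 : q ∣ q' * d' := by rw [← heq']; exact dvd_mul_right _ _
      rcases (Nat.Prime.dvd_mul hqp).mp h1 with h2 | h2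
      · exact (Nat.prime_dvd_prime_iff_eq hqp hqp').mp h2
      · exfalso
        have h3 := hl' q (Nat.mem_primeFactors.mpr ⟨hqp, h2, by omega⟩)
        linarith
    subst hqq
    have hdd : d = d' := Nat.eq_of_mul_eq_mul_left hqp.pos heq'
    rw [hdd]
  calc ∑ x ∈ QC.sigma E, r (x.1 * x.2)
      = ∑ m ∈ (QC.sigma E).image (fun x : (_ : ℕ) × ℕ => x.1 * x.2), r m := by
        rw [sum_image hinj]
    _ ≤ ∑ m ∈ Dv P L, r m := by
        apply sum_le_sum_of_subset_of_nonneg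
        · intro m hm
          rw [mem_image] at hm
          obtain ⟨⟨q, d⟩, hx, rfl⟩ := hm
          rw [mem_sigma] at hx
          obtain ⟨hqp, hd0, hcop, hle, hcc, hz, hl⟩ := hpair q hx.1 d hx.2
          unfold Dv
          rw [mem_filter, mem_Icc]
          exact ⟨⟨Nat.mul_pos hqp.pos hd0, hle⟩, hcc⟩
        · intro m _ _
          rw [hr]
          exact abs_nonneg _
    _ = ∑ d ∈ Dv P L, |∑ p ∈ S.filter (fun p => d ∣ a p), w p - X / (Nat.totient d : ℝ)| := by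
        rw [hr]

/-- Proof. As `S2_upper` (`H59C/CS2.lean`), with `remB` instead of `rem_A`: for `q ∈ Qc` and `d ≤ Lv/q` composed of primes of `Pg`, `< z ≤ q`: `q ∣ a` and
`d ∣ a` iff `d q ∣ a`, `gq q/φ(d) = 1/φ(d q)`, the products `d q` are different members of `Dv (Pg) (Lv)` (see the second part of `rem_A` in `H59C/CR.lean`):
the sum over `q` of the remainders is at most `N/L^10`. `jr` with `D = Lv/q/Q0` (`log D ≤ 3 log z`, `z ≤ D` for `θ ≤ 1/100` and large `N`), weights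
`X gq q`. -/
theorem S2_up (ε : ℝ) (hε : 0 < ε) : ∃ θ0 : ℝ, 0 < θ0 ∧ ∀ θ : ℝ, 0 < θ → θ ≤ θ0 →
    ∀ (K B cF : ℕ) (G : ℝ), 1 ≤ K → 3 ≤ B → ∃ n0 : ℕ, ∀ N : ℕ, n0 ≤ N →
    ∀ (w : Par K) (H : Finset ℕ) (p1 : ℕ), Reg B cF θ G w H N p1 → ∀ h ∈ H,
    S2s w H N p1 h ≤ Xh w H N p1 h * Vz N w.W H * (AA / 4 * Real.log 6 + ε) := by
  classical
  have hAA := AA_pos
  obtain ⟨Q0, hQ0, z0, hz0, hjr⟩ := jr (ε / 8) (by linarith)
  obtain ⟨θ0, hθ0, hps0⟩ := prime_S2' (ε / (4 * AA)) (by positivity)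
  refine ⟨min θ0 (1 / 500), lt_min hθ0 (by norm_num), fun θ hθ hθ1 K B cF G hK hB => ?_⟩
  have hθa : θ ≤ θ0 := le_trans hθ1 (min_le_left _ _)
  have hθb : θ ≤ 1 / 500 := le_trans hθ1 (min_le_right _ _)
  obtain ⟨n1, hmain⟩ := main_low K B cF hK θ G
  obtain ⟨n3, hn3⟩ := s2_lv θ hθ (by linarith) Q0 hQ0
  obtain ⟨n4, hn4⟩ := cdl_zz z0
  obtain ⟨n5, hn5⟩ := hps0 θ hθ hθa Q0 hQ0
  obtain ⟨n6, hn6⟩ := cdl_log (max 100 (4 / ε))
  refine ⟨n1 + n3 + n4 + n5 + n6 + 3, fun n hn w H p1 hR h hh => ?_⟩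
  have hN : (3 : ℝ) ≤ n := by exact_mod_cast (by omega : 3 ≤ n)
  have hL : 0 < Real.log n := Real.log_pos (by linarith)
  have hLL := hn6 n (by omega)
  have hL100 : 100 ≤ Real.log n := le_trans (le_max_left _ _) hLL
  have hLε : 4 / ε ≤ Real.log n := le_trans (le_max_right _ _) hLL
  obtain ⟨hD1, hDl', hDu, hDp⟩ := hn3 n (by omega)
  have hDl : (1 / 2 - 1 / 100) * Real.log n ≤ Real.log ((Lv n θ : ℝ) / Q0) :=
    le_trans (mul_le_mul_of_nonneg_right (by linarith) hL.le) hDl'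
  have hzn := hn4 n (by omega)
  have hlz := log_zz n (by omega)
  obtain ⟨hm1, hX, -, -⟩ := hmain n (by omega) w H p1 hR h hh
  obtain ⟨hps, hps2⟩ := hn5 n (by omega)
  have hzpos : 0 < zz n := by linarith
  have hlz0 : 0 < Real.log (zz n) := by rw [hlz]; linarith
  have hQ0' : (1 : ℝ) ≤ Q0 := by exact_mod_cast hQ0
  have hW2 : 2 ≤ w.W := by
    have h1 := w.KW
    have h2 := w.Kpos
    nlinarith
  have hPg : ∀ q ∈ Pg n w.W H, q.Prime ∧ 3 ≤ q := fun q hq => s2_Pg hW2 hq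
  have hV : 0 ≤ Vz n w.W H := by
    unfold Vz VV VP
    apply prod_nonneg
    intro q hq
    have h3 := (hPg q (mem_filter.mp hq).1).2
    have h3' : (3 : ℝ) ≤ q := by exact_mod_cast h3
    unfold gq
    rw [sub_nonneg, div_le_one (by linarith)]
    linarith
  have hVX : 0 ≤ Xh w H n p1 h * Vz n w.W H := mul_nonneg hX hV
  have hwn : ∀ p ∈ Sh n h, 0 ≤ wh w H n p1 h p := fun p _ =>
    mul_nonneg (lg_nonneg p) (s2_Fs w H n p1 _ _)
  -- the remainder
  have hQcp : ∀ q ∈ Qc n w.W H, q.Prime ∧ zz n ≤ q ∧ q ∈ Pg n w.W H := by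
    intro q hq
    unfold Qc at hq
    rw [mem_filter, mem_PR] at hq
    exact ⟨hq.1.1, hq.1.2.1, hq.2⟩
  have hr : ∑ q ∈ Qc n w.W H, remd ((Sh n h).filter (fun p => q ∣ Nat.dist (n + h) p))
      (wh w H n p1 h) (fun p => Nat.dist (n + h) p) (Pg n w.W H) (zz n)
      (Xh w H n p1 h * gq q) ((Lv n θ : ℝ) / q) ≤ n / Real.log n ^ 10 :=
    (s2_rem (Sh n h) (wh w H n p1 h) (fun p => Nat.dist (n + h) p) (Pg n w.W H) (Qc n w.W H) (zz n)
      (Xh w H n p1 h) (Lv n θ) hQcp).trans (hR.remB h hh)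
  have hsm : n / Real.log n ^ 10 ≤ ε / 4 * (Xh w H n p1 h * Vz n w.W H) := by
    have h1 : (n : ℝ) / Real.log n ^ 10 ≤ ε / 4 * (n / Real.log n ^ 3) := by
      rw [div_le_iff₀ (by positivity)]
      have e1 : ε / 4 * (n / Real.log n ^ 3) * Real.log n ^ 10 = n * (ε / 4 * Real.log n ^ 7) := by
        field_simp
      rw [e1]
      have h2 : 1 ≤ ε / 4 * Real.log n ^ 7 := by
        rw [div_le_iff₀ hε] at hLε
        have h3 : Real.log n ≤ Real.log n ^ 7 := le_self_pow₀ (by linarith) (by norm_num)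
        nlinarith
      nlinarith
    exact h1.trans (mul_le_mul_of_nonneg_left hm1 (by positivity))
  -- the bound for one `q`
  have hone : ∀ q ∈ Qc n w.W H, sift ((Sh n h).filter (fun p => q ∣ Nat.dist (n + h) p))
        (wh w H n p1 h) (fun p => Nat.dist (n + h) p) (Pg n w.W H) (zz n) ≤
      Xh w H n p1 h * Vz n w.W H * (AA * (gq q * (Real.log (zz n) /
        Real.log ((Lv n θ : ℝ) / q / Q0))) + ε / 8 * gq q) +
      remd ((Sh n h).filter (fun p => q ∣ Nat.dist (n + h) p)) (wh w H n p1 h)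
        (fun p => Nat.dist (n + h) p) (Pg n w.W H) (zz n) (Xh w H n p1 h * gq q)
        ((Lv n θ : ℝ) / q) := by
    intro q hq
    have hq' : q ∈ PR (zz n) (yy n) ∧ q ∈ Pg n w.W H := by
      unfold Qc at hq
      exact mem_filter.mp hq
    obtain ⟨hqp, hq1, hq2⟩ := mem_PR.mp hq'.1
    have hqpos : (0 : ℝ) < q := by linarith
    have hlq1 : Real.log (zz n) ≤ Real.log q := Real.log_le_log hzpos hq1
    have hyy : Real.log (yy n) = 1 / 3 * (Real.log 2 + Real.log n) := by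
      unfold yy
      rw [Real.log_rpow (by linarith), Real.log_mul (by norm_num) (by linarith)]
    have hlq2 : Real.log q ≤ 1 / 3 * (Real.log 2 + Real.log n) := by
      rw [← hyy]
      exact Real.log_le_log hqpos hq2.le
    have hlog2 : Real.log 2 ≤ 1 := by
      have := Real.log_two_lt_d9
      linarith
    have hDDpos : (0 : ℝ) < Lv n θ := by
      have : (1 : ℝ) ≤ Lv n θ := by exact_mod_cast hD1
      linarith
    obtain ⟨Dq, hDq⟩ : ∃ Dq : ℝ, Dq = (Lv n θ : ℝ) / q / Q0 := ⟨_, rfl⟩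
    have hDqpos : 0 < Dq := by rw [hDq]; positivity
    have hDqlog : Real.log Dq = Real.log ((Lv n θ : ℝ) / Q0) - Real.log q := by
      rw [hDq, show (Lv n θ : ℝ) / q / Q0 = (Lv n θ : ℝ) / Q0 / q by ring,
        Real.log_div hDp.ne' hqpos.ne']
    have h3z : Real.log Dq ≤ 3 * Real.log (zz n) := by
      rw [hDqlog]
      rw [hlz] at hlq1 ⊢
      linarith
    have hzD : zz n ≤ Dq := by
      rw [← Real.log_le_log_iff hzpos hDqpos, hDqlog, hlz]
      nlinarith
    obtain ⟨hup, -⟩ := hjr (Pg n w.W H) hPg (zz n) Dq hzn hzD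
      ((Sh n h).filter (fun p => q ∣ Nat.dist (n + h) p)) (wh w H n p1 h)
      (fun p => Nat.dist (n + h) p) (Xh w H n p1 h * gq q) (by
        apply mul_nonneg hX
        unfold gq
        have h3 := (hPg q hq'.2).2
        have h3' : (3 : ℝ) ≤ q := by exact_mod_cast h3
        apply div_nonneg zero_le_one
        linarith) (fun p hp => hwn p (mem_filter.mp hp).1)
    have hup := hup h3z
    have hDQ : Dq * (Q0 : ℝ) = (Lv n θ : ℝ) / q := by
      rw [hDq]
      field_simp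
    rw [hDQ] at hup
    refine hup.trans (le_of_eq ?_)
    rw [← hDq]
    have hDlog0 : Real.log Dq ≠ 0 := by
      have : 0 < Real.log Dq := by
        rw [hDqlog]
        nlinarith
      exact this.ne'
    unfold Vz
    congr 1
    field_simp
  unfold S2s
  calc ∑ q ∈ Qc n w.W H, sift ((Sh n h).filter (fun p => q ∣ Nat.dist (n + h) p))
        (wh w H n p1 h) (fun p => Nat.dist (n + h) p) (Pg n w.W H) (zz n)
      ≤ ∑ q ∈ Qc n w.W H, (Xh w H n p1 h * Vz n w.W H * (AA * (gq q * (Real.log (zz n) /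
        Real.log ((Lv n θ : ℝ) / q / Q0))) + ε / 8 * gq q) +
      remd ((Sh n h).filter (fun p => q ∣ Nat.dist (n + h) p)) (wh w H n p1 h)
        (fun p => Nat.dist (n + h) p) (Pg n w.W H) (zz n) (Xh w H n p1 h * gq q)
        ((Lv n θ : ℝ) / q)) :=
        sum_le_sum hone
    _ = Xh w H n p1 h * Vz n w.W H * (AA * ∑ q ∈ Qc n w.W H, gq q * (Real.log (zz n) /
        Real.log ((Lv n θ : ℝ) / q / Q0)) + ε / 8 * ∑ q ∈ Qc n w.W H, gq q) +
        ∑ q ∈ Qc n w.W H, remd ((Sh n h).filter (fun p => q ∣ Nat.dist (n + h) p)) (wh w H n p1 h)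
        (fun p => Nat.dist (n + h) p) (Pg n w.W H) (zz n) (Xh w H n p1 h * gq q)
        ((Lv n θ : ℝ) / q) := by
        rw [sum_add_distrib, ← mul_sum, sum_add_distrib, ← mul_sum, ← mul_sum]
    _ ≤ Xh w H n p1 h * Vz n w.W H * (AA * (1 / 4 * Real.log 6 + ε / (4 * AA)) + ε / 8 * 2) +
        n / Real.log n ^ 10 := by
        apply add_le_add _ hr
        apply mul_le_mul_of_nonneg_left _ hVX
        have hgq : ∀ q ∈ PR (zz n) (yy n), 0 ≤ gq q := by
          intro q hq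
          have h2 := (mem_PR.mp hq).1.two_le
          have h2' : (2 : ℝ) ≤ q := by exact_mod_cast h2
          unfold gq
          apply div_nonneg zero_le_one
          linarith
        have hsub : Qc n w.W H ⊆ PR (zz n) (yy n) := by
          unfold Qc
          exact filter_subset _ _
        apply add_le_add
        · apply mul_le_mul_of_nonneg_left _ hAA.le
          refine le_trans (sum_le_sum_of_subset_of_nonneg hsub ?_) hps
          intro q hq _
          apply mul_nonneg (hgq q hq)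
          apply div_nonneg hlz0.le
          obtain ⟨hqp, hq1, hq2⟩ := mem_PR.mp hq
          have hqpos : (0 : ℝ) < q := by linarith
          rw [show (Lv n θ : ℝ) / q / Q0 = (Lv n θ : ℝ) / Q0 / q by ring,
            Real.log_div hDp.ne' hqpos.ne']
          have hyy : Real.log (yy n) = 1 / 3 * (Real.log 2 + Real.log n) := by
            unfold yy
            rw [Real.log_rpow (by linarith), Real.log_mul (by norm_num) (by linarith)]
          have hlq2 : Real.log q ≤ 1 / 3 * (Real.log 2 + Real.log n) := by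
            rw [← hyy]
            exact Real.log_le_log hqpos hq2.le
          have hlog2 : Real.log 2 ≤ 1 := by
            have := Real.log_two_lt_d9
            linarith
          nlinarith
        · apply mul_le_mul_of_nonneg_left _ (by linarith)
          exact le_trans (sum_le_sum_of_subset_of_nonneg hsub fun q hq _ => hgq q hq) hps2
    _ ≤ Xh w H n p1 h * Vz n w.W H * (AA * (1 / 4 * Real.log 6 + ε / (4 * AA)) + ε / 8 * 2) +
        ε / 4 * (Xh w H n p1 h * Vz n w.W H) := by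
        linarith
    _ = Xh w H n p1 h * Vz n w.W H * (AA / 4 * Real.log 6 + 3 / 4 * ε) := by
        field_simp
        ring
    _ ≤ Xh w H n p1 h * Vz n w.W H * (AA / 4 * Real.log 6 + ε) := by
        apply mul_le_mul_of_nonneg_left _ hVX
        linarith

end Pool.Agent.Lib.H57C
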