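import Pool.Agent.Lib.H57C.S3a
import Pool.Agent.Lib.H57C.S3b
import Pool.Agent.Lib.H57C.S2
import Pool.Agent.Lib.H59C.CS3

/-!
# Chunk S3: the third sum (switching)
-/

open Finset

namespace Pool.Agent.Lib.H57C

open Pool.Agent.Lib.H57M
open Pool.Agent.Lib.H59C (AA zz)

/-- Proof. As `S3_upper` (`H59C/CS3.lean`): `lg p ≤ log N` (`p ≤ Yb N + h ≤ N`), `cover'` with `N' = N + h` and `Φ p = Fs (some h) (p - h) ≥ 0`, `box_sieve'` for every relevant box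
(`rel_par`: the conditions `N^(1/4) ≤ M, u, v`; `al` as `α`), `1/log (lv j) ≤ 4/log N`, `count_boxes` and `triple_sum`, `XX_bounds`, `win_h`; the remainder is
`(number of boxes) 4 N/L^10 ≤ (ε/2) Xh Vz` by `main_low`. -/
theorem S3_up (ε : ℝ) (hε : 0 < ε) : ∃ θ0 : ℝ, 0 < θ0 ∧ ∀ θ : ℝ, 0 < θ → θ ≤ θ0 →
    ∀ (K B cF : ℕ) (G : ℝ), 1 ≤ K → 3 ≤ B → ∃ n0 : ℕ, ∀ N : ℕ, n0 ≤ N →
    ∀ (w : Par K) (H : Finset ℕ) (p1 : ℕ), Reg B cF θ G w H N p1 → ∀ h ∈ H,
    S3s w H N p1 h ≤ Xh w H N p1 h * Vz N w.W H * (AA / 4 * (3 / 8) + ε) := by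
  classical
  have hAA : 0 < AA := H59C.AA_pos
  obtain ⟨θ0, hθ0, hbox0⟩ := box_sieve' ε hε
  refine ⟨θ0, hθ0, fun θ hθ hθ1 K B cF G hK hB => ?_⟩
  obtain ⟨n1, hbox⟩ := hbox0 θ hθ hθ1 K B cF G hK hB
  obtain ⟨δ, hδ, hδ1, n2, hcount⟩ := H59C.count_boxes (1 / 1000) (by norm_num)
  obtain ⟨n3, hcov⟩ := cover' δ hδ hδ1
  obtain ⟨n4, hpar⟩ := H59C.rel_par δ hδ hδ1
  obtain ⟨n5, htri⟩ := H59C.triple_sum
  obtain ⟨n6, hXXb⟩ := H59C.XX_bounds (1 / 1000) (by norm_num)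
  obtain ⟨n7, hmain⟩ := main_low K B cF hK θ G
  obtain ⟨n8, hn8⟩ := s0_large B 1 one_pos
  obtain ⟨n9, hn9⟩ := H59C.cdl_log (max 1 (200 / (δ ^ 2 * ε)))
  refine ⟨n1 + n2 + n3 + n4 + n5 + n6 + n7 + n8 + n9 + 3, fun n hn w H p1 hR h hh => ?_⟩
  obtain ⟨g1, hL1, -, g4⟩ := hn8 n (by omega)
  have hN : (3 : ℝ) ≤ n := by exact_mod_cast (by omega : 3 ≤ n)
  have hL : 0 < Real.log n := by linarith
  have hh100 : 100 * h ≤ n := by
    have h1 : (w.W : ℝ) ≤ Real.log n ^ B + 1 := by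
      rw [hR.Wdef]
      exact (Nat.ceil_lt_add_one (by positivity)).le
    have h2 : (h : ℝ) ≤ w.W := by exact_mod_cast hR.HW h hh
    have h3 : (100 * h : ℝ) ≤ n := by linarith
    exact_mod_cast h3
  obtain ⟨hW, hlt⟩ := win_h n h g1 hh100 (hR.even h hh)
  have hLn := hn9 n (by omega)
  have hL9 : 200 / (δ ^ 2 * ε) ≤ Real.log n := le_trans (le_max_right _ _) hLn
  obtain ⟨Φ, hΦ⟩ : ∃ Φ : ℕ → ℝ, Φ = fun p => Fs w H n p1 (some h) (p - h) := ⟨_, rfl⟩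
  have hΦ0 : ∀ p, 0 ≤ Φ p := fun p => by
    rw [hΦ]
    exact s2_Fs w H n p1 _ _
  have hcount := hcount n (by omega) (n + h) (Ya n + h) (Yb n + h) hW
  have hcov := hcov n (by omega) (n + h) (Ya n + h) (Yb n + h) hW hlt Φ hΦ0
  obtain ⟨hp1', hp2, hp3⟩ := hpar n (by omega) (n + h) (Ya n + h) (Yb n + h) hW
  have htri := htri n (by omega)
  obtain ⟨hX1, hX2⟩ := hXXb n (by omega) (n + h) (Ya n + h) (Yb n + h) hW
  obtain ⟨hXV, hXh0, hXX, -⟩ := hmain n (by omega) w H p1 hR h hh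
  obtain ⟨X, hX⟩ : ∃ X : ℝ, X = H59C.XX (Ya n + h) (Yb n + h) := ⟨_, rfl⟩
  obtain ⟨A, hA⟩ : ∃ A : ℝ, A = AE w.P H (some h) (FC w H) * Vb n w.W p1 H := ⟨_, rfl⟩
  obtain ⟨V, hV⟩ : ∃ V : ℝ, V = Vz n w.W H := ⟨_, rfl⟩
  have hXh : Xh w H n p1 h = X * A := by
    rw [hX, hA]
    rfl
  rw [hXh, ← hV] at hXV
  rw [hXh] at hXh0
  rw [hXh, ← hV]
  rw [← hX] at hXX hX1 hX2
  have hX0 : 0 < X := by
    refine lt_of_lt_of_le ?_ hXX
    positivity
  have hA0 : 0 ≤ A := by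
    by_contra hc
    push Not at hc
    have := mul_neg_of_pos_of_neg hX0 hc
    linarith
  have hV0 : 0 ≤ V := by
    by_contra hc
    push Not at hc
    have h1 : (X * A) * V ≤ 0 := mul_nonpos_of_nonneg_of_nonpos hXh0 hc.le
    have h2 : 0 < (n : ℝ) / Real.log n ^ 3 := by positivity
    linarith
  have hyy : (0 : ℝ) ≤ ((Yb n + h : ℕ) : ℝ) - ((Ya n + h : ℕ) : ℝ) := by
    have : ((Ya n + h : ℕ) : ℝ) ≤ ((Yb n + h : ℕ) : ℝ) := by exact_mod_cast hW.lt.le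
    linarith
  -- weights
  have hstep1 : S3s w H n p1 h ≤ Real.log n *
      ∑ p ∈ (H59C.Sq (Ya n + h) (Yb n + h)).filter (fun p => H59C.Tri n (Nat.dist (n + h) p)), Φ p := by
    unfold S3s Sh
    rw [mul_sum]
    apply sum_le_sum
    intro p hp
    rw [mem_filter, H59C.mem_Sq] at hp
    unfold wh
    rw [hΦ]
    refine mul_le_mul_of_nonneg_right ?_ (s2_Fs w H n p1 _ _)
    unfold H59C.lg
    apply Real.log_le_log
    · exact_mod_cast hp.1.2.pos
    · exact_mod_cast le_trans hp.1.1.2 hW.le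
  -- the logarithms of the box ends
  have hlv : ∀ b ∈ H59C.Rel n (n + h) (Ya n + h) (Yb n + h) δ, 0 ≤ 1 / Real.log (H59C.lv δ b.2) ∧
      1 / Real.log (H59C.lv δ b.2) ≤ 4 / Real.log n := by
    intro b hb
    have h1 := (hp1' b hb).2.2.1
    have h2 : 1 / 4 * Real.log n ≤ Real.log (H59C.lv δ b.2) := by
      have h3 := Real.log_le_log (by positivity) h1
      rwa [Real.log_rpow (by linarith)] at h3
    have h4 : 0 < Real.log (H59C.lv δ b.2) := by linarith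
    refine ⟨by positivity, ?_⟩
    rw [div_le_div_iff₀ h4 hL]
    linarith
  -- one box
  have hone : ∀ b ∈ H59C.Rel n (n + h) (Ya n + h) (Yb n + h) δ, 1 / Real.log (H59C.lv δ b.2) *
      ∑ x ∈ (H59C.BX (H59C.lv δ (b.1 + 1)) (H59C.lv δ b.2) (H59C.lv δ (b.2 + 1))).filter
        (fun x => x.1 * x.2 < n + h ∧ (n + h - x.1 * x.2).Prime ∧
            (n : ℝ) ^ (1 / 6 : ℝ) ≤ (n + h - x.1 * x.2 : ℕ)),
          H59C.wB (H59C.al n δ b) x * Φ (n + h - x.1 * x.2) ≤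
      A * V * (AA / 4 + ε) * (1 / Real.log (H59C.lv δ b.2) *
        H59C.XB (H59C.lv δ (b.1 + 1)) (H59C.lv δ b.2) (H59C.lv δ (b.2 + 1)) (H59C.al n δ b)) +
      4 / Real.log n * (n / Real.log n ^ 10) := by
    intro b hb
    obtain ⟨h1, h2, h3, h4, h5⟩ := hp1' b hb
    have h6 := hbox n (by omega) w H p1 hR h hh (H59C.lv δ (b.1 + 1)) (H59C.lv δ b.2)
      (H59C.lv δ (b.2 + 1)) (H59C.al n δ b) (fun m => ⟨(hp3 b m).1, (hp3 b m).2.1⟩)
      (fun m => (hp3 b m).2.2) h1 h3 h4 h5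
    rw [← hV, ← hA] at h6
    obtain ⟨h7, h8⟩ := hlv b hb
    have h9 := mul_le_mul_of_nonneg_left h6 h7
    rw [hΦ]
    refine h9.trans ?_
    rw [mul_add]
    apply add_le_add
    · apply le_of_eq
      ring
    · exact mul_le_mul_of_nonneg_right h8 (by positivity)
  -- sum over the boxes
  obtain ⟨SB, hSB⟩ : ∃ SB : ℝ, SB = ∑ b ∈ H59C.Rel n (n + h) (Ya n + h) (Yb n + h) δ,
      1 / Real.log (H59C.lv δ b.2) *
        H59C.XB (H59C.lv δ (b.1 + 1)) (H59C.lv δ b.2) (H59C.lv δ (b.2 + 1)) (H59C.al n δ b) := ⟨_, rfl⟩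
  obtain ⟨R, hRr⟩ : ∃ R : ℝ, R = ((H59C.Rel n (n + h) (Ya n + h) (Yb n + h) δ).card : ℝ) := ⟨_, rfl⟩
  have hsum : ∑ p ∈ (H59C.Sq (Ya n + h) (Yb n + h)).filter
        (fun p => H59C.Tri n (Nat.dist (n + h) p)), Φ p ≤
      A * V * (AA / 4 + ε) * SB + R * (4 / Real.log n * (n / Real.log n ^ 10)) := by
    refine hcov.trans ((sum_le_sum hone).trans (le_of_eq ?_))
    rw [sum_add_distrib, ← mul_sum, sum_const, nsmul_eq_mul, hSB, hRr]
  rw [← hSB] at hcount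
  rw [← hRr] at hp2
  have hmainb : Real.log n * (A * V * (AA / 4 + ε) * SB) ≤
      X * A * V * (AA / 4 * (3 / 8) + 3 / 8 * ε) := by
    have h1 : Real.log n * SB ≤ 3 / 8 * X := by
      have h2 := mul_le_mul_of_nonneg_left hcount hL.le
      refine h2.trans ?_
      calc Real.log n * ((1 + 1 / 1000) * (((Yb n + h : ℕ) : ℝ) - ((Ya n + h : ℕ) : ℝ)) *
            ∑ q1 ∈ H59C.PR (zz n) (H59C.yy n),
            ∑ q2 ∈ (H59C.PR (H59C.yy n) n).filter (fun q2 => q1 * q2 ^ 2 ≤ 3 * n),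
              1 / ((q1 : ℝ) * q2 * Real.log (n / (20 * q1 * q2))))
          = (1 + 1 / 1000) * (((Yb n + h : ℕ) : ℝ) - ((Ya n + h : ℕ) : ℝ)) *
            (Real.log n * ∑ q1 ∈ H59C.PR (zz n) (H59C.yy n),
            ∑ q2 ∈ (H59C.PR (H59C.yy n) n).filter (fun q2 => q1 * q2 ^ 2 ≤ 3 * n),
              1 / ((q1 : ℝ) * q2 * Real.log (n / (20 * q1 * q2)))) := by ring
        _ ≤ (1 + 1 / 1000) * (((Yb n + h : ℕ) : ℝ) - ((Ya n + h : ℕ) : ℝ)) * (373 / 1000) := by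
            apply mul_le_mul_of_nonneg_left htri
            positivity
        _ ≤ 3 / 8 * X := by linarith
    calc Real.log n * (A * V * (AA / 4 + ε) * SB)
        = A * V * (AA / 4 + ε) * (Real.log n * SB) := by ring
      _ ≤ A * V * (AA / 4 + ε) * (3 / 8 * X) := by
          apply mul_le_mul_of_nonneg_left h1
          positivity
      _ = X * A * V * (AA / 4 * (3 / 8) + 3 / 8 * ε) := by ring
  have hrest : Real.log n * (R * (4 / Real.log n * (n / Real.log n ^ 10))) ≤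
      ε / 2 * (X * A * V) := by
    have h1 : Real.log n * (R * (4 / Real.log n * (n / Real.log n ^ 10))) =
        R * (4 * (n / Real.log n ^ 10)) := by
      field_simp
    rw [h1]
    calc R * (4 * (n / Real.log n ^ 10))
        ≤ (25 * Real.log n ^ 2 / δ ^ 2) * (4 * (n / Real.log n ^ 10)) := by
          apply mul_le_mul_of_nonneg_right hp2
          positivity
      _ = 100 / δ ^ 2 * (1 / Real.log n ^ 5) * (n / Real.log n ^ 3) := by
          field_simp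
          ring
      _ ≤ ε / 2 * (n / Real.log n ^ 3) := by
          apply mul_le_mul_of_nonneg_right _ (by positivity)
          rw [mul_one_div, div_div, div_le_iff₀ (by positivity)]
          rw [div_le_iff₀ (by positivity)] at hL9
          have h2 : Real.log n ≤ Real.log n ^ 5 := le_self_pow₀ hL1 (by norm_num)
          have h3 : Real.log n * (δ ^ 2 * ε) ≤ Real.log n ^ 5 * (δ ^ 2 * ε) :=
            mul_le_mul_of_nonneg_right h2 (by positivity)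
          nlinarith
      _ ≤ ε / 2 * (X * A * V) := by
          apply mul_le_mul_of_nonneg_left hXV (by positivity)
  calc S3s w H n p1 h ≤ Real.log n * ∑ p ∈ (H59C.Sq (Ya n + h) (Yb n + h)).filter
        (fun p => H59C.Tri n (Nat.dist (n + h) p)), Φ p := hstep1
    _ ≤ Real.log n * (A * V * (AA / 4 + ε) * SB + R * (4 / Real.log n * (n / Real.log n ^ 10))) :=
        mul_le_mul_of_nonneg_left hsum hL.le
    _ ≤ X * A * V * (AA / 4 * (3 / 8) + 3 / 8 * ε) + ε / 2 * (X * A * V) := by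
        rw [mul_add]
        exact add_le_add hmainb hrest
    _ ≤ X * A * V * (AA / 4 * (3 / 8) + ε) := by
        have : 0 ≤ ε / 8 * (X * A * V) := by positivity
        linarith

end Pool.Agent.Lib.H57C
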