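import Pool.Agent.Lib.H57C.G1

/-!
# Chunk G2: double roots modulo primes
-/

open Finset Polynomial

namespace Pool.Agent.Lib.H57C

/-- Proof. Over `ℚ` the ring `ℚ[x]/(G')` is finite dimensional (`G' ≠ 0`), so the powers of `G` are linearly dependent modulo `G'`: there is a nonzero `D0 ∈ ℚ[Y]` with
`G' ∣ D0(G)` in `ℚ[x]` (e.g. `minpoly`, or the case `natDegree G = 1`: `G'` constant). Clear denominators: `D ∈ ℤ[Y]`, `D ≠ 0`, with `D(G) = G' E`, `E ∈ ℤ[x]`. If
`q ∣ N - G(c)` then `D(N) ≡ D(G(c)) = G'(c) E(c)` modulo `q`. -/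
theorem disc_exists (G : ℤ[X]) (hG : 1 ≤ G.natDegree) : ∃ D : ℤ[X], D ≠ 0 ∧
    ∀ (N c : ℤ) (q : ℕ), (q : ℤ) ∣ N - G.eval c → (q : ℤ) ∣ G.derivative.eval c →
      (q : ℤ) ∣ D.eval N := by
  have hinj : Function.Injective (algebraMap ℤ ℚ) := (algebraMap ℤ ℚ).injective_int
  set g : ℚ[X] := G.map (algebraMap ℤ ℚ) with hg
  have hg' : g.derivative ≠ 0 := by
    intro h
    have h1 := natDegree_eq_zero_of_derivative_eq_zero h
    rw [hg, natDegree_map_eq_of_injective hinj] at h1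
    omega
  have hfin : Module.Finite ℚ (AdjoinRoot g.derivative) := (AdjoinRoot.powerBasis hg').finite
  obtain ⟨P, hPm, hP⟩ := (Algebra.IsIntegral.of_finite ℚ (AdjoinRoot g.derivative)).isIntegral
    (AdjoinRoot.mk g.derivative g)
  have h1 : AdjoinRoot.mk g.derivative (P.comp g) = 0 := by
    rw [← hP]
    unfold Polynomial.comp
    rw [hom_eval₂]
    rfl
  obtain ⟨e, he⟩ := AdjoinRoot.mk_eq_zero.1 h1
  obtain ⟨b1, hb1⟩ := IsLocalization.integerNormalization_map_to_map (nonZeroDivisors ℤ) P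
  obtain ⟨b2, hb2⟩ := IsLocalization.integerNormalization_map_to_map (nonZeroDivisors ℤ) e
  have hb10 : (b1 : ℤ) ≠ 0 := nonZeroDivisors.coe_ne_zero b1
  have hb20 : (b2 : ℤ) ≠ 0 := nonZeroDivisors.coe_ne_zero b2
  set D1 := IsLocalization.integerNormalization (nonZeroDivisors ℤ) P with hD1
  set E1 := IsLocalization.integerNormalization (nonZeroDivisors ℤ) e with hE1
  have hPs : ∀ (b : ℤ) (p : ℚ[X]), b • p = C (b : ℚ) * p := by
    intro b p
    rw [zsmul_eq_mul]
    congr 1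
  have hcomp : (C (b2 : ℤ) * D1).comp G = G.derivative * (C (b1 : ℤ) * E1) := by
    apply map_injective _ hinj
    rw [map_comp, Polynomial.map_mul, Polynomial.map_mul, Polynomial.map_mul, hb1, hb2, hPs, hPs,
      ← hg, map_C, map_C, ← derivative_map, ← hg]
    simp only [mul_comp, C_comp, he, algebraMap_int_eq, Int.coe_castRingHom]
    ring
  refine ⟨C (b2 : ℤ) * D1, ?_, ?_⟩
  · intro h
    have h2 := congrArg (Polynomial.map (algebraMap ℤ ℚ)) h
    rw [Polynomial.map_mul, hb1, hPs, map_C, Polynomial.map_zero] at h2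
    have h3 : C (algebraMap ℤ ℚ (b2 : ℤ)) ≠ 0 := by
      rw [Ne, C_eq_zero]
      simpa using hb20
    have h4 : (C ((b1 : ℤ) : ℚ) : ℚ[X]) ≠ 0 := by
      rw [Ne, C_eq_zero]
      exact_mod_cast hb10
    exact (mul_ne_zero h3 (mul_ne_zero h4 hPm.ne_zero)) h2
  · intro N c q hq1 hq2
    have h2 : (N - G.eval c) ∣ (C (b2 : ℤ) * D1).eval N - (C (b2 : ℤ) * D1).eval (G.eval c) :=
      sub_dvd_eval_sub _ _ _
    have h3 : (C (b2 : ℤ) * D1).eval (G.eval c) = G.derivative.eval c * (C (b1 : ℤ) * E1).eval c := by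
      rw [← eval_comp, hcomp, eval_mul]
    have h4 : (q : ℤ) ∣ (C (b2 : ℤ) * D1).eval (G.eval c) := by
      rw [h3]
      exact Dvd.dvd.mul_right hq2 _
    have h5 := (hq1.trans h2).add h4
    rwa [sub_add_cancel] at h5

/-- Proof. Hensel: the map `c ↦ c % q` from `T2g G N q` to `Tg G N q` is injective: if `c ≡ c'` modulo `q` and `q^2` divides `N - G(c)` and `N - G(c')`, then
`q^2 ∣ G(c) - G(c') = G'(c')(c - c') + (..)(c - c')^2`, so `q^2 ∣ G'(c') (c - c')`, and `q ∤ G'(c')` (otherwise `q ∣ D(N)`, i.e. `q ∈ Zg`), so `c = c'`. Then `tg_card`. -/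
theorem t2_card (G D : ℤ[X]) (hD : ∀ (N c : ℤ) (q : ℕ), (q : ℤ) ∣ N - G.eval c →
    (q : ℤ) ∣ G.derivative.eval c → (q : ℤ) ∣ D.eval N) (N n W : ℕ) (H : Finset ℕ)
    (hn : NoFix G N H) (q : ℕ) (hq : q ∈ Pgg G D N n W H) :
    (T2g G N q).card ≤ G.natDegree := by
  classical
  unfold Pgg at hq
  rw [Finset.mem_filter] at hq
  obtain ⟨hqI, hqp, hqZ⟩ := hq
  have hDN : ¬ (q : ℤ) ∣ D.eval (N : ℤ) := by
    intro h
    apply hqZ
    unfold Zg
    rw [Finset.mem_filter]
    exact ⟨hqI, hqp, Or.inr h⟩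
  have hqZp : Prime (q : ℤ) := Nat.prime_iff_prime_int.1 hqp
  refine le_trans ?_ (tg_card G N H hn q hqp)
  refine Finset.card_le_card_of_injOn (fun c => c % q) ?_ ?_
  · intro c hc
    have hc' := Finset.mem_coe.1 hc
    unfold T2g at hc'
    rw [Finset.mem_filter] at hc'
    refine Finset.mem_coe.2 ?_
    unfold Tg
    rw [Finset.mem_filter, Finset.mem_range]
    refine ⟨Nat.mod_lt _ hqp.pos, ?_⟩
    have h1 : (q : ℤ) ∣ (N : ℤ) - G.eval (c : ℤ) := by
      refine dvd_trans ?_ hc'.2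
      push_cast
      exact dvd_pow_self _ two_ne_zero
    have h2 : ((c : ℤ) - ((c % q : ℕ) : ℤ)) ∣ G.eval (c : ℤ) - G.eval ((c % q : ℕ) : ℤ) :=
      sub_dvd_eval_sub _ _ _
    have h3 : (q : ℤ) ∣ (c : ℤ) - ((c % q : ℕ) : ℤ) := by
      push_cast
      exact Int.dvd_self_sub_emod
    have h4 := h1.add (h3.trans h2)
    have h5 : (N : ℤ) - G.eval (c : ℤ) + (G.eval (c : ℤ) - G.eval ((c % q : ℕ) : ℤ)) =
        (N : ℤ) - G.eval ((c % q : ℕ) : ℤ) := by ring
    rwa [h5] at h4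
  · intro c hc c' hc' hcc
    have hc1 := Finset.mem_coe.1 hc
    have hc2 := Finset.mem_coe.1 hc'
    unfold T2g at hc1 hc2
    rw [Finset.mem_filter, Finset.mem_range] at hc1 hc2
    simp only at hcc
    obtain ⟨m, hm⟩ : (q : ℤ) ∣ (c : ℤ) - (c' : ℤ) :=
      Nat.modEq_iff_dvd.1 (show c' ≡ c [MOD q] from hcc.symm)
    obtain ⟨k, hk⟩ := binomExpansion G (c' : ℤ) ((q : ℤ) * m)
    have hcc2 : (c' : ℤ) + (q : ℤ) * m = c := by rw [← hm]; ring
    rw [hcc2] at hk
    have h1 : ((q : ℤ) ^ 2) ∣ G.eval (c : ℤ) - G.eval (c' : ℤ) := by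
      have e1 := hc1.2
      have e2 := hc2.2
      push_cast at e1 e2
      have e3 := e2.sub e1
      have e4 : (N : ℤ) - G.eval (c' : ℤ) - ((N : ℤ) - G.eval (c : ℤ)) =
        G.eval (c : ℤ) - G.eval (c' : ℤ) := by ring
      rwa [e4] at e3
    have h2 : ((q : ℤ) ^ 2) ∣ (q : ℤ) * (G.derivative.eval (c' : ℤ) * m) := by
      have e1 : (q : ℤ) * (G.derivative.eval (c' : ℤ) * m) =
          G.eval (c : ℤ) - G.eval (c' : ℤ) - (q : ℤ) ^ 2 * (k * m ^ 2) := by
        rw [hk]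
        ring
      rw [e1]
      exact h1.sub (Dvd.intro _ rfl)
    have h3 : (q : ℤ) ∣ G.derivative.eval (c' : ℤ) * m := by
      rw [sq] at h2
      exact (mul_dvd_mul_iff_left hqZp.ne_zero).1 h2
    have h4 : (q : ℤ) ∣ m := by
      rcases hqZp.dvd_or_dvd h3 with h | h
      · exfalso
        apply hDN
        refine hD N c' q ?_ h
        refine dvd_trans ?_ hc2.2
        push_cast
        exact dvd_pow_self _ two_ne_zero
      · exact h
    obtain ⟨m', hm'⟩ := h4
    have h5 : ((q ^ 2 : ℕ) : ℤ) ∣ (c : ℤ) - (c' : ℤ) := by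
      rw [hm, hm']
      push_cast
      exact ⟨m', by ring⟩
    have h6 : c' ≡ c [MOD (q ^ 2)] := Nat.modEq_iff_dvd.2 h5
    exact (Nat.ModEq.eq_of_lt_of_lt h6 hc2.1 hc1.1).symm

theorem g2_omega (M : ℕ) (hM : 0 < M) : (M.primeFactors.card : ℝ) ≤ 2 * Real.log M := by
  have h1 : 2 ^ M.primeFactors.card ≤ M := by
    calc 2 ^ M.primeFactors.card ≤ ∏ p ∈ M.primeFactors, p := by
          rw [← Finset.prod_const]
          exact Finset.prod_le_prod' fun p hp => (Nat.prime_of_mem_primeFactors hp).two_le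
      _ ≤ M := Nat.le_of_dvd hM (Nat.prod_primeFactors_dvd M)
  have h2 : ((2 : ℝ) ^ M.primeFactors.card) ≤ M := by exact_mod_cast h1
  have h3 := Real.log_le_log (by positivity) h2
  rw [Real.log_pow] at h3
  have h4 := Real.log_two_gt_d9
  have h5 : (0 : ℝ) ≤ M.primeFactors.card := Nat.cast_nonneg _
  nlinarith

theorem g2_eval (D : ℤ[X]) (N : ℕ) (hN : 1 ≤ N) :
    (((D.eval (N : ℤ)).natAbs : ℕ) : ℝ) ≤ H59.coeffSum D * (N : ℝ) ^ D.natDegree := by
  have e : (((D.eval (N : ℤ)).natAbs : ℕ) : ℝ) = |((D.eval (N : ℤ) : ℤ) : ℝ)| := by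
    rw [Nat.cast_natAbs, Int.cast_abs]
  rw [e, abs_le]
  have h1 := H59.eval_le_coeffSum D hN
  have h2 := H59.eval_le_coeffSum (-D) hN
  have h3 : H59.coeffSum (-D) = H59.coeffSum D := by
    unfold H59.coeffSum
    simp
  rw [h3, natDegree_neg, eval_neg] at h2
  push_cast at h2
  constructor
  · linarith
  · exact h1

/-- Proof. `Zc`: every `q ∈ Zg` divides one of the `N - G(-h)` (positive, `≤ C n^k`, `size_G`) or `D(N)` (`≠ 0` for large `N`, `|D(N)| ≤ C' N^d ≤ C'' n^(k d)`); a positive integer `M` has at most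
`log M/log 2` prime factors; so `#Zg ≤ C''' log n ≤ log^2 n` (`n = argCount G N → ∞`). `ZT`, `T1`: `tg_card`. `T2c`: `t2_card`. `all`, `P'n`: definitions. -/
theorem hz_G (G D : ℤ[X]) (hG : 1 ≤ G.natDegree) (hl : 0 < G.leadingCoeff) (hD0 : D ≠ 0)
    (hD : ∀ (N c : ℤ) (q : ℕ), (q : ℤ) ∣ N - G.eval c →
    (q : ℤ) ∣ G.derivative.eval c → (q : ℤ) ∣ D.eval N) (H : Finset ℕ) :
    ∃ N0 : ℕ, ∀ N : ℕ, N0 ≤ N → NoFix G N H → ∀ W p1 : ℕ, p1.Prime →
      HZ G.natDegree (H59.argCount G N) W p1 (Tg G N) (T2g G N)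
        (Pgg G D N (H59.argCount G N) W H) (Zg G D N (H59.argCount G N) W H) := by
  classical
  obtain ⟨C, hC1, N1, hN1⟩ := size_G G hG hl H
  -- nonvanishing of D(N)
  obtain ⟨N2, hN2⟩ : ∃ N2 : ℕ, ∀ N : ℕ, N2 ≤ N → D.eval (N : ℤ) ≠ 0 := by
    obtain ⟨M, hM⟩ : ∃ M : ℤ, ∀ x ∈ D.roots.toFinset, x ≤ M := by
      rcases (D.roots.toFinset).eq_empty_or_nonempty with h | h
      · exact ⟨0, by rw [h]; simp⟩
      · exact ⟨(D.roots.toFinset).max' h, fun x hx => Finset.le_max' _ x hx⟩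
    refine ⟨M.toNat + 1, fun N hN h0 => ?_⟩
    have h1 : (N : ℤ) ∈ D.roots.toFinset := by
      rw [Multiset.mem_toFinset, mem_roots hD0]
      exact h0
    have h2 := hM _ h1
    have h3 : M ≤ M.toNat := Int.self_le_toNat M
    have h4 : ((M.toNat + 1 : ℕ) : ℤ) ≤ N := by exact_mod_cast hN
    push_cast at h4
    linarith
  set S : ℝ := max 1 (H59.coeffSum D) with hS
  have hS1 : (1 : ℝ) ≤ S := le_max_left _ _
  set k := G.natDegree with hk
  set d := D.natDegree with hd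
  set A : ℝ := 2 * H.card * Real.log C + 2 * (Real.log S + d * Real.log C) with hA
  set B : ℝ := 2 * H.card * k + 2 * (d * k) with hB
  have hlogC : 0 ≤ Real.log C := Real.log_nonneg hC1
  have hlogS : 0 ≤ Real.log S := Real.log_nonneg hS1
  have hA0 : 0 ≤ A := by positivity
  have hB0 : 0 ≤ B := by positivity
  have ht := (H59.argCount_tendsto hG hl)
  have ht2 : Filter.Tendsto (fun N => Real.log (H59.argCount G N)) Filter.atTop Filter.atTop :=
    Real.tendsto_log_atTop.comp (tendsto_natCast_atTop_atTop.comp ht)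
  obtain ⟨N3, hN3⟩ := Filter.eventually_atTop.1 (ht2.eventually_ge_atTop (max 1 (A + B)))
  obtain ⟨N4, hN4⟩ := Filter.eventually_atTop.1 (ht.eventually_ge_atTop 1)
  refine ⟨max (max N1 N2) (max N3 (max N4 1)), fun N hN hn W p1 hp1 => ?_⟩
  have hNN1 : N1 ≤ N := le_trans (le_trans (le_max_left _ _) (le_max_left _ _)) hN
  have hNN2 : N2 ≤ N := le_trans (le_trans (le_max_right _ _) (le_max_left _ _)) hN
  have hNN3 : N3 ≤ N := le_trans (le_trans (le_max_left _ _) (le_max_right _ _)) hN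
  have hNN4 : N4 ≤ N := le_trans (le_trans (le_trans (le_max_left _ _) (le_max_right _ _))
    (le_max_right _ _)) hN
  have hNN5 : 1 ≤ N := le_trans (le_trans (le_trans (le_max_right _ _) (le_max_right _ _))
    (le_max_right _ _)) hN
  obtain ⟨-, hNle, hsize⟩ := hN1 N hNN1
  have hlog := hN3 N hNN3
  have hn1 := hN4 N hNN4
  set n := H59.argCount G N with hndef
  have hn1' : (1 : ℝ) ≤ n := by exact_mod_cast hn1
  have hn0' : (0 : ℝ) < n := by linarith
  refine ⟨?_, ?_, ?_, ?_, ?_, ?_, ?_⟩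
  · intro q hq
    unfold Zg at hq
    rw [Finset.mem_filter, Finset.mem_Ioc] at hq
    exact ⟨hq.2.1, hq.1.1, hq.1.2⟩
  · have hsub : Zg G D N n W H ⊆ (H.biUnion fun h => ((N : ℤ) - G.eval (-(h : ℤ))).natAbs.primeFactors) ∪
        (D.eval (N : ℤ)).natAbs.primeFactors := by
      intro q hq
      unfold Zg at hq
      rw [Finset.mem_filter] at hq
      obtain ⟨-, hqp, hq⟩ := hq
      rw [Finset.mem_union]
      rcases hq with ⟨h, hh, hq⟩ | hq
      · left
        rw [Finset.mem_biUnion]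
        refine ⟨h, hh, ?_⟩
        rw [Nat.mem_primeFactors]
        refine ⟨hqp, Int.natCast_dvd.1 hq, ?_⟩
        have := (hsize h hh).1
        omega
      · right
        rw [Nat.mem_primeFactors]
        refine ⟨hqp, Int.natCast_dvd.1 hq, ?_⟩
        have := hN2 N hNN2
        omega
    have hcard : ((Zg G D N n W H).card : ℝ) ≤
        ∑ h ∈ H, (((N : ℤ) - G.eval (-(h : ℤ))).natAbs.primeFactors.card : ℝ) +
        ((D.eval (N : ℤ)).natAbs.primeFactors.card : ℝ) := by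
      have h1 := (Finset.card_le_card hsub).trans (Finset.card_union_le _ _)
      have h2 := Finset.card_biUnion_le (s := H)
        (t := fun h : ℕ => ((N : ℤ) - G.eval (-(h : ℤ))).natAbs.primeFactors)
      have h3 := h1.trans (Nat.add_le_add_right h2 _)
      exact_mod_cast h3
    have hterm : ∀ h ∈ H, (((N : ℤ) - G.eval (-(h : ℤ))).natAbs.primeFactors.card : ℝ) ≤
        2 * (Real.log C + k * Real.log n) := by
      intro h hh
      obtain ⟨s1, s2⟩ := hsize h hh
      have hpos : 0 < ((N : ℤ) - G.eval (-(h : ℤ))).natAbs := by omega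
      refine (g2_omega _ hpos).trans ?_
      have e : ((((N : ℤ) - G.eval (-(h : ℤ))).natAbs : ℕ) : ℝ) =
          (((N : ℤ) - G.eval (-(h : ℤ)) : ℤ) : ℝ) := by
        rw [Nat.cast_natAbs, abs_of_pos s1]
      rw [e]
      have hpos' : (0 : ℝ) < (((N : ℤ) - G.eval (-(h : ℤ)) : ℤ) : ℝ) := by exact_mod_cast s1
      have := Real.log_le_log hpos' s2
      rw [Real.log_mul (by linarith) (by positivity), Real.log_pow] at this
      linarith
    have hDt : ((D.eval (N : ℤ)).natAbs.primeFactors.card : ℝ) ≤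
        2 * (Real.log S + d * (Real.log C + k * Real.log n)) := by
      have hpos : 0 < (D.eval (N : ℤ)).natAbs := by
        have := hN2 N hNN2
        omega
      refine (g2_omega _ hpos).trans ?_
      have hpos' : (0 : ℝ) < (((D.eval (N : ℤ)).natAbs : ℕ) : ℝ) := by exact_mod_cast hpos
      have hN0 : (0 : ℝ) < N := by exact_mod_cast hNN5
      have h1 : (((D.eval (N : ℤ)).natAbs : ℕ) : ℝ) ≤ S * (N : ℝ) ^ d :=
        (g2_eval D N hNN5).trans (mul_le_mul_of_nonneg_right (le_max_right _ _) (by positivity))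
      have h2 := Real.log_le_log hpos' h1
      rw [Real.log_mul (by linarith) (by positivity), Real.log_pow] at h2
      have h3 := Real.log_le_log hN0 hNle
      rw [Real.log_mul (by linarith) (by positivity), Real.log_pow] at h3
      have h4 : (d : ℝ) * Real.log N ≤ d * (Real.log C + k * Real.log n) :=
        mul_le_mul_of_nonneg_left h3 (Nat.cast_nonneg _)
      linarith
    have hsum : ∑ h ∈ H, (((N : ℤ) - G.eval (-(h : ℤ))).natAbs.primeFactors.card : ℝ) ≤
        H.card * (2 * (Real.log C + k * Real.log n)) := by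
      have := Finset.sum_le_sum hterm
      rwa [Finset.sum_const, nsmul_eq_mul] at this
    have htot : ((Zg G D N n W H).card : ℝ) ≤ A + B * Real.log n := by
      rw [hA, hB]
      linarith
    have hl1 : 1 ≤ Real.log n := (le_max_left _ _).trans hlog
    have hl2 : A + B ≤ Real.log n := (le_max_right _ _).trans hlog
    calc ((Zg G D N n W H).card : ℝ) ≤ A + B * Real.log n := htot
      _ ≤ (A + B) * Real.log n := by nlinarith
      _ ≤ Real.log n * Real.log n := mul_le_mul_of_nonneg_right hl2 (by linarith)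
      _ = Real.log n ^ 2 := (sq _).symm
  · intro q hq
    unfold Zg at hq
    rw [Finset.mem_filter] at hq
    exact tg_card G N H hn q hq.2.1
  · exact tg_card G N H hn p1 hp1
  · intro q hq
    exact t2_card G D hD N n W H hn q hq
  · intro q hqp hWq hqn
    by_cases hZ : q ∈ Zg G D N n W H
    · exact Or.inr hZ
    · left
      unfold Pgg
      rw [Finset.mem_filter, Finset.mem_Ioc]
      exact ⟨⟨hWq, hqn⟩, hqp, hZ⟩
  · intro q hq
    unfold Pgg at hq
    rw [Finset.mem_filter, Finset.mem_Ioc] at hq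
    exact hq.1.2

end Pool.Agent.Lib.H57C
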