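import Pool.Agent.Lib.H57C.G1

/-!
# Chunk G3: the number of prime factors
-/

open Finset Polynomial

namespace Pool.Agent.Lib.H57C

theorem g3_logprod (l : List ℕ) (h : ∀ q ∈ l, q ≠ 0) :
    Real.log ((l.prod : ℕ) : ℝ) = (l.map (fun q : ℕ => Real.log q)).sum := by
  induction l with
  | nil => simp
  | cons a l ih =>
    have h1 : ∀ q ∈ l, q ≠ 0 := fun q hq => h q (List.mem_cons_of_mem _ hq)
    have ha : (a : ℝ) ≠ 0 := by exact_mod_cast h a List.mem_cons_self
    have hl : ((l.prod : ℕ) : ℝ) ≠ 0 := by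
      have : l.prod ≠ 0 := by
        rw [Ne, List.prod_eq_zero_iff]
        exact fun h0 => h1 0 h0 rfl
      exact_mod_cast this
    rw [List.prod_cons, List.map_cons, List.sum_cons, Nat.cast_mul, Real.log_mul ha hl, ih h1]

theorem g3_sumw (L : ℝ) (l : List ℕ) :
    (l.map (fun q : ℕ => 1 - 3 * Real.log q / L)).sum =
      (l.length : ℝ) - 3 * (l.map (fun q : ℕ => Real.log q)).sum / L := by
  induction l with
  | nil => simp
  | cons a l ih =>
    rw [List.map_cons, List.sum_cons, ih, List.map_cons, List.sum_cons, List.length_cons]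
    push_cast
    ring

theorem g3_mod (G : ℤ[X]) (N t q : ℕ) (hq : (q : ℤ) ∣ (N : ℤ) - G.eval (t : ℤ)) :
    (q : ℤ) ∣ (N : ℤ) - G.eval ((t % q : ℕ) : ℤ) := by
  have h2 : ((t : ℤ) - ((t % q : ℕ) : ℤ)) ∣ G.eval (t : ℤ) - G.eval ((t % q : ℕ) : ℤ) :=
    sub_dvd_eval_sub _ _ _
  have h3 : (q : ℤ) ∣ (t : ℤ) - ((t % q : ℕ) : ℤ) := by
    push_cast
    exact Int.dvd_self_sub_emod
  have h4 := hq.add (h3.trans h2)
  have h5 : (N : ℤ) - G.eval (t : ℤ) + (G.eval (t : ℤ) - G.eval ((t % q : ℕ) : ℤ)) =
      (N : ℤ) - G.eval ((t % q : ℕ) : ℤ) := by ring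
  rwa [h5] at h4

/-- Proof. Let `n = argCount G N`, `a = N - G(t) > 0` (`t ≤ Yb n ≤ n`, `size_G`), `a ≤ C n^k`. Let `q` be a prime factor of `a`. `q ≤ W`, `q ≠ p1` is impossible: `t % q ∈ Rg`. `q = p1` is impossible: `t % p1 ∈ Tg`.
If `W < q ≤ z2` then `q ∈ Pgg`, `q ∈ Q2`, or `q ∈ Zg` (for `q ≤ n`): impossible. So `q > z2 = ⌊n^(1/s)⌋`, hence `q > n^(1/s)`. If `q ≤ n`, `q^3 ≤ n`, then `q ∈ Qy` and `q^2 ∤ a`. If `q^3 > n` then `1 - 3 log q/log n < 0`. So
`Ω(a) - 3 log a/log n = ∑_{q^v ∥ a} v (1 - 3 log q/log n) ≤ ∑_{q ∈ Qy, q ∣ a} wq n q < lam k`, and `3 log a/log n ≤ 3 k + 3 log C/log n ≤ 3 k + 1/100` for large `n`; `lam k + 1/100 ≤ 45/10 k + 105/100 k log (k + 1)`. -/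
theorem fin_G (G D : ℤ[X]) (hG : 1 ≤ G.natDegree) (hl : 0 < G.leadingCoeff) (g : ℕ)
    (H : Finset ℕ) : ∃ N0 : ℕ, ∀ N : ℕ, N0 ≤ N → ∀ (W p1 : ℕ), p1.Prime →
    ∀ t ∈ GdR H (H59.argCount G N) G.natDegree W p1 g (Rg G N H) (Tg G N) (T2g G N)
      (Pgg G D N (H59.argCount G N) W H) (Zg G D N (H59.argCount G N) W H),
    1 ≤ t ∧ t ≤ H59.argCount G N ∧ G.eval (t : ℤ) < N ∧
    g ≤ (H.filter (fun h => (t + h).Prime)).card ∧
    ((((N : ℤ) - G.eval (t : ℤ)).toNat.primeFactorsList.length : ℕ) : ℝ) ≤
      15 / 2 * G.natDegree + 21 / 20 * G.natDegree * Real.log (G.natDegree + 1) ∧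
    ∀ q : ℕ, q.Prime → (q : ℤ) ∣ (N : ℤ) - G.eval (t : ℤ) →
      (H59.argCount G N : ℝ) ^ (1 / (600 * (G.natDegree : ℝ) + 750)) < q := by
  classical
  obtain ⟨C, hC1, N1, hN1⟩ := size_G G hG hl H
  have ht := (H59.argCount_tendsto hG hl)
  have ht2 : Filter.Tendsto (fun N => Real.log (H59.argCount G N)) Filter.atTop Filter.atTop :=
    Real.tendsto_log_atTop.comp (tendsto_natCast_atTop_atTop.comp ht)
  obtain ⟨N3, hN3⟩ := Filter.eventually_atTop.1 (ht2.eventually_ge_atTop (max 1 (300 * Real.log C)))
  obtain ⟨N4, hN4⟩ := Filter.eventually_atTop.1 (ht.eventually_ge_atTop 3)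
  refine ⟨max N1 (max N3 N4), fun N hN W p1 hp1 t htG => ?_⟩
  have hNN1 : N1 ≤ N := le_trans (le_max_left _ _) hN
  have hNN3 : N3 ≤ N := le_trans (le_trans (le_max_left _ _) (le_max_right _ _)) hN
  have hNN4 : N4 ≤ N := le_trans (le_trans (le_max_right _ _) (le_max_right _ _)) hN
  obtain ⟨hsz, -, -⟩ := hN1 N hNN1
  have hlog := hN3 N hNN3
  have hn3 := hN4 N hNN4
  set n := H59.argCount G N with hndef
  set k := G.natDegree with hk
  have hn3' : (3 : ℝ) ≤ n := by exact_mod_cast hn3
  have hn0' : (0 : ℝ) < n := by linarith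
  have hl1 : 1 ≤ Real.log n := (le_max_left _ _).trans hlog
  have hl2 : 300 * Real.log C ≤ Real.log n := (le_max_right _ _).trans hlog
  have hk1 : (1 : ℝ) ≤ k := by exact_mod_cast hG
  unfold GdR at htG
  rw [Finset.mem_filter, Finset.mem_Ioc] at htG
  obtain ⟨⟨ht1, ht2'⟩, hg, hR, hTp1, hZ, hQ2, hQy, hlam⟩ := htG
  have htpos : 1 ≤ t := by omega
  have htn : t ≤ n := by
    unfold Yb at ht2'
    omega
  obtain ⟨hGt, haC⟩ := hsz t htpos htn
  have hapos : 0 < (N : ℤ) - G.eval (t : ℤ) := by linarith
  set a := ((N : ℤ) - G.eval (t : ℤ)).toNat with ha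
  have haZ : (a : ℤ) = (N : ℤ) - G.eval (t : ℤ) := Int.toNat_of_nonneg hapos.le
  have ha0 : a ≠ 0 := by omega
  have haR : (a : ℝ) ≤ C * (n : ℝ) ^ k := by
    have e : (a : ℝ) = (((N : ℤ) - G.eval (t : ℤ) : ℤ) : ℝ) := by
      rw [← haZ, Int.cast_natCast]
    rw [e]
    exact haC
  have hse : (0 : ℝ) < se k := by
    unfold se
    positivity
  -- prime factors
  have hcls : ∀ q : ℕ, q.Prime → (q : ℤ) ∣ (N : ℤ) - G.eval (t : ℤ) → t % q ∈ Tg G N q := by
    intro q hqp hq
    unfold Tg
    rw [Finset.mem_filter, Finset.mem_range]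
    exact ⟨Nat.mod_lt _ hqp.pos, g3_mod G N t q hq⟩
  have hmain : ∀ q : ℕ, q.Prime → (q : ℤ) ∣ (N : ℤ) - G.eval (t : ℤ) →
      n < q ∨ (q ≤ n ∧ q ∈ Pgg G D N n W H ∧ z2 n k < q) := by
    intro q hqp hq
    have hqT := hcls q hqp hq
    have hqp1 : q ≠ p1 := by
      rintro rfl
      exact hTp1 hqT
    have hqW : W < q := by
      by_contra hle
      have hqPs : q ∈ Ps W p1 := by
        unfold Ps
        rw [Finset.mem_filter, Finset.mem_Icc]
        exact ⟨⟨hqp.one_lt.le, not_lt.1 hle⟩, hqp, hqp1⟩
      apply hR q hqPs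
      unfold Rg
      unfold Tg at hqT
      rw [Finset.mem_filter] at hqT ⊢
      exact ⟨hqT.1, Or.inr hqT.2⟩
    by_cases hqn : q ≤ n
    · right
      have hqZ : q ∉ Zg G D N n W H := fun h => hZ q h hqT
      have hqP : q ∈ Pgg G D N n W H := by
        unfold Pgg
        rw [Finset.mem_filter, Finset.mem_Ioc]
        exact ⟨⟨hqW, hqn⟩, hqp, hqZ⟩
      refine ⟨hqn, hqP, ?_⟩
      by_contra hle
      have hqQ : q ∈ Q2 (Pgg G D N n W H) n k := by
        unfold Q2
        rw [Finset.mem_filter]
        exact ⟨hqP, not_lt.1 hle⟩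
      exact hQ2 q hqQ hqT
    · left
      exact not_le.1 hqn
  refine ⟨htpos, htn, hGt, hg, ?_, ?_⟩
  · -- number of prime factors
    have hlist := g3_sumw (Real.log n) a.primeFactorsList
    rw [← g3_logprod _ (fun q hq => (Nat.prime_of_mem_primeFactorsList hq).ne_zero),
      Nat.prod_primeFactorsList ha0] at hlist
    have hcount : (a.primeFactorsList.map (fun q : ℕ => 1 - 3 * Real.log q / Real.log n)).sum =
        ∑ q ∈ a.primeFactorsList.toFinset, (a.primeFactorsList.count q) •
          (1 - 3 * Real.log q / Real.log n) :=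
      Finset.sum_list_map_count a.primeFactorsList _
    have hle : ∑ q ∈ a.primeFactorsList.toFinset, (a.primeFactorsList.count q) •
          (1 - 3 * Real.log q / Real.log n) ≤
        ∑ q ∈ (Qy (Pgg G D N n W H) n k).filter (fun q => t % q ∈ Tg G N q), wq n q := by
      have hwnn : ∀ q ∈ (Qy (Pgg G D N n W H) n k).filter (fun q => t % q ∈ Tg G N q),
          0 ≤ wq n q := by
        intro q hq
        rw [Finset.mem_filter] at hq
        unfold Qy at hq
        rw [Finset.mem_filter] at hq
        obtain ⟨⟨hqP, hz, hq3⟩, -⟩ := hq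
        have hqp : q.Prime := by
          unfold Pgg at hqP
          rw [Finset.mem_filter] at hqP
          exact hqP.2.1
        have hq0 : (0 : ℝ) < q := by exact_mod_cast hqp.pos
        have h1 : ((q : ℝ) ^ 3) ≤ n := by exact_mod_cast hq3
        have h2 := Real.log_le_log (by positivity) h1
        rw [Real.log_pow] at h2
        unfold wq
        rw [sub_nonneg, div_le_one (by linarith)]
        push_cast at h2
        linarith
      calc ∑ q ∈ a.primeFactorsList.toFinset, (a.primeFactorsList.count q) •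
            (1 - 3 * Real.log q / Real.log n) ≤
          ∑ q ∈ a.primeFactorsList.toFinset.filter (fun q => q ^ 3 ≤ n), wq n q := by
            rw [Finset.sum_filter]
            refine Finset.sum_le_sum fun q hq => ?_
            rw [List.mem_toFinset] at hq
            have hqp : q.Prime := Nat.prime_of_mem_primeFactorsList hq
            have hqa : q ∣ a := Nat.dvd_of_mem_primeFactorsList hq
            have hqa' : (q : ℤ) ∣ (N : ℤ) - G.eval (t : ℤ) := by
              rw [← haZ]
              exact Int.natCast_dvd_natCast.2 hqa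
            split_ifs with h3
            · -- multiplicity one
              have hqn : q ≤ n := le_trans (Nat.le_self_pow (by norm_num) q) h3
              have hz : z2 n k < q ∧ q ∈ Pgg G D N n W H := by
                rcases hmain q hqp hqa' with h | h
                · omega
                · exact ⟨h.2.2, h.2.1⟩
              have hqQ : q ∈ Qy (Pgg G D N n W H) n k := by
                unfold Qy
                rw [Finset.mem_filter]
                exact ⟨hz.2, hz.1, h3⟩
              have hsq := hQy q hqQ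
              have hcnt : a.primeFactorsList.count q ≤ 1 := by
                by_contra hgt
                rw [Nat.primeFactorsList_count_eq] at hgt
                have h4 : q ^ 2 ∣ a := (hqp.pow_dvd_iff_le_factorization ha0).2 (by omega)
                have h5 : ((q ^ 2 : ℕ) : ℤ) ∣ (N : ℤ) - G.eval (t : ℤ) := by
                  rw [← haZ]
                  exact Int.natCast_dvd_natCast.2 h4
                apply hsq
                unfold T2g
                rw [Finset.mem_filter, Finset.mem_range]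
                exact ⟨Nat.mod_lt _ (pow_pos hqp.pos 2), g3_mod G N t (q ^ 2) h5⟩
              have hcnt1 : a.primeFactorsList.count q = 1 := by
                have : 0 < a.primeFactorsList.count q := List.count_pos_iff.2 hq
                omega
              rw [hcnt1, one_smul]
              exact le_refl _
            · have hq0 : (0 : ℝ) < q := by exact_mod_cast hqp.pos
              have h1 : (n : ℝ) ≤ (q : ℝ) ^ 3 := by exact_mod_cast (not_le.1 h3).le
              have h2 := Real.log_le_log hn0' h1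
              rw [Real.log_pow] at h2
              push_cast at h2
              have h4 : 1 - 3 * Real.log q / Real.log n ≤ 0 := by
                rw [sub_nonpos, le_div_iff₀ (by linarith)]
                linarith
              rw [nsmul_eq_mul]
              exact mul_nonpos_of_nonneg_of_nonpos (Nat.cast_nonneg _) h4
        _ ≤ ∑ q ∈ (Qy (Pgg G D N n W H) n k).filter (fun q => t % q ∈ Tg G N q), wq n q := by
            refine Finset.sum_le_sum_of_subset_of_nonneg ?_ fun q hq _ => hwnn q hq
            intro q hq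
            rw [Finset.mem_filter, List.mem_toFinset] at hq
            obtain ⟨hq, h3⟩ := hq
            have hqp : q.Prime := Nat.prime_of_mem_primeFactorsList hq
            have hqa : q ∣ a := Nat.dvd_of_mem_primeFactorsList hq
            have hqa' : (q : ℤ) ∣ (N : ℤ) - G.eval (t : ℤ) := by
              rw [← haZ]
              exact Int.natCast_dvd_natCast.2 hqa
            have hqn : q ≤ n := le_trans (Nat.le_self_pow (by norm_num) q) h3
            have hz : z2 n k < q ∧ q ∈ Pgg G D N n W H := by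
              rcases hmain q hqp hqa' with h | h
              · omega
              · exact ⟨h.2.2, h.2.1⟩
            rw [Finset.mem_filter]
            refine ⟨?_, hcls q hqp hqa'⟩
            unfold Qy
            rw [Finset.mem_filter]
            exact ⟨hz.2, hz.1, h3⟩
    have hloga : 3 * Real.log a / Real.log n ≤ 3 * k + 1 / 100 := by
      have h1 := Real.log_le_log (show (0 : ℝ) < a by exact_mod_cast Nat.pos_of_ne_zero ha0) haR
      rw [Real.log_mul (by linarith) (by positivity), Real.log_pow] at h1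
      rw [div_le_iff₀ (by linarith)]
      nlinarith
    have h1 : ((a.primeFactorsList.length : ℕ) : ℝ) - 3 * Real.log a / Real.log n < lam k := by
      rw [← hlist, hcount]
      exact lt_of_le_of_lt hle hlam
    unfold lam at h1
    have hlk : 0 ≤ Real.log ((k : ℝ) + 1) := Real.log_nonneg (by linarith)
    nlinarith
  · intro q hqp hq
    have hexp : (1 / (600 * (k : ℝ) + 750)) = 1 / se k := by
      unfold se
      rfl
    rw [hexp]
    rcases hmain q hqp hq with h | ⟨-, -, h⟩
    · have h1 : (n : ℝ) ^ (1 / se k) ≤ (n : ℝ) ^ (1 : ℝ) := by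
        apply Real.rpow_le_rpow_of_exponent_le (by linarith)
        rw [div_le_one hse]
        unfold se
        nlinarith
      rw [Real.rpow_one] at h1
      have h2 : (n : ℝ) < q := by exact_mod_cast h
      linarith
    · unfold z2 at h
      exact Nat.lt_of_floor_lt h

end Pool.Agent.Lib.H57C
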