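import Pool.Agent.Lib.H57C.TG
import Pool.Agent.Lib.H57C.G2
import Pool.Agent.Lib.H57C.G3

/-!
# Project H57C, part (ii): the final form of the theorem
-/

open Finset Polynomial

namespace Pool.Agent.Lib.H57C

theorem NoFix.mono {G : ℤ[X]} {N : ℕ} {H' H : Finset ℕ} (hs : H' ⊆ H) (h : NoFix G N H) :
    NoFix G N H' := by
  intro p hp
  obtain ⟨v, hv⟩ := h p hp
  refine ⟨v, fun hd => hv (dvd_trans hd ?_)⟩
  exact mul_dvd_mul_right (Finset.prod_dvd_prod_of_subset _ _ _ hs) _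

/-- **Chen-type theorem with Maynard-Tao tuples for polynomials, for all large `N`.** -/
theorem main2 (g k : ℕ) (hg : 1 ≤ g) (hk : 1 ≤ k) : ∃ K B : ℕ, ∀ H : Finset ℕ, K ≤ H.card →
    ∀ G : ℤ[X], G.natDegree = k → 0 < G.leadingCoeff → ∃ N0 : ℕ, ∀ N : ℕ, N0 ≤ N →
    NoFix G N H →
    (H59.argCount G N : ℝ) / Real.log (H59.argCount G N) ^ B ≤
      ((open Classical in (Icc 1 (H59.argCount G N)).filter (fun t : ℕ =>
        G.eval (t : ℤ) < N ∧ g ≤ (H.filter (fun h => (t + h).Prime)).card ∧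
        ((((N : ℤ) - G.eval (t : ℤ)).toNat.primeFactorsList.length : ℕ) : ℝ) ≤
          15 / 2 * k + 21 / 20 * k * Real.log (k + 1) ∧
        ∀ q : ℕ, q.Prime → (q : ℤ) ∣ (N : ℤ) - G.eval (t : ℤ) →
          (H59.argCount G N : ℝ) ^ (1 / (600 * (k : ℝ) + 750)) < q)).card : ℝ) := by
  classical
  obtain ⟨K, B, B2, hK, hB, hmain⟩ := gdR_card g k hg hk
  refine ⟨K, B2, fun H hH G hGk hl => ?_⟩
  subst hGk
  obtain ⟨H', hs, hc⟩ := exists_subset_card_eq hH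
  obtain ⟨n0, hn0⟩ := hmain H' hc
  obtain ⟨D, hD0, hD⟩ := disc_exists G hk
  obtain ⟨N1, hN1⟩ := hz_G G D hk hl hD0 hD H'
  obtain ⟨N2, hN2⟩ := fin_G G D hk hl g H'
  obtain ⟨N3, hN3⟩ := Filter.eventually_atTop.mp
    ((H59.argCount_tendsto hk hl).eventually_ge_atTop n0)
  refine ⟨max N1 (max N2 N3), fun N hN hadm => ?_⟩
  have a1 : N1 ≤ N := le_trans (le_max_left _ _) hN
  have a2 : N2 ≤ N := le_trans (le_trans (le_max_left _ _) (le_max_right _ _)) hN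
  have a3 : N3 ≤ N := le_trans (le_trans (le_max_right _ _) (le_max_right _ _)) hN
  have hadm' := hadm.mono hs
  obtain ⟨W, p1, hp1, hp1W, hW, hHW, hfin⟩ := hn0 (H59.argCount G N) (hN3 N a3)
  have h1 := hrt_G G D N (H59.argCount G N) W p1 H' hadm'
  rw [hc] at h1
  have h2 := hfin _ _ _ _ _ h1 (hN1 N a1 hadm' W p1 hp1)
  refine le_trans h2 ?_
  have hsub : GdR H' (H59.argCount G N) G.natDegree W p1 g (Rg G N H') (Tg G N) (T2g G N)
      (Pgg G D N (H59.argCount G N) W H') (Zg G D N (H59.argCount G N) W H') ⊆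
      (Icc 1 (H59.argCount G N)).filter (fun t : ℕ =>
        G.eval (t : ℤ) < N ∧ g ≤ (H.filter (fun h => (t + h).Prime)).card ∧
        ((((N : ℤ) - G.eval (t : ℤ)).toNat.primeFactorsList.length : ℕ) : ℝ) ≤
          15 / 2 * G.natDegree + 21 / 20 * G.natDegree * Real.log (G.natDegree + 1) ∧
        ∀ q : ℕ, q.Prime → (q : ℤ) ∣ (N : ℤ) - G.eval (t : ℤ) →
          (H59.argCount G N : ℝ) ^ (1 / (600 * (G.natDegree : ℝ) + 750)) < q) := by
    intro t ht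
    obtain ⟨b1, b2, b3, b4, b5, b6⟩ := hN2 N a2 W p1 hp1 t ht
    rw [mem_filter, mem_Icc]
    exact ⟨⟨b1, b2⟩, b3, le_trans b4 (card_le_card (filter_subset_filter _ hs)), b5, b6⟩
  exact_mod_cast card_le_card hsub

end Pool.Agent.Lib.H57C
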