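import Pool.Agent.Lib.H57C.Defs

/-!
# Definitions for the weighted sieve
-/

open Finset

namespace Pool.Agent.Lib.H57C

open Pool.Agent.Lib.H57M
open Pool.Agent.Lib.H59C (Sq lg XX gq VV PR zz yy Tri sift)

noncomputable section

variable {K : ℕ} (w : Par K) (H : Finset ℕ) (N p1 h : ℕ)

/-- The primes `t + h`. -/
def Sh (N h : ℕ) : Finset ℕ := Sq (Ya N + h) (Yb N + h)

/-- The weight of the prime `p = t + h`. -/
def wh (p : ℕ) : ℝ := lg p * Fs w H N p1 (some h) (p - h)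

/-- `V(z)` -/
def Vz (N W : ℕ) (H : Finset ℕ) : ℝ := VV (Pg N W H) (zz N)

/-- The bad primes in `(W, N]`: they divide some `N + h`, `h ∈ H`. -/
def Bd (N W : ℕ) (H : Finset ℕ) : Finset ℕ :=
  (Ioc W N).filter (fun q => q.Prime ∧ ∃ h ∈ H, q ∣ N + h)

/-- The primes with weights. -/
def Qc (N W : ℕ) (H : Finset ℕ) : Finset ℕ := (PR (zz N) (yy N)).filter (fun q => q ∈ Pg N W H)

/-- The first sum. -/
def S1s : ℝ := sift (Sh N h) (wh w H N p1 h) (fun p => Nat.dist (N + h) p) (Pg N w.W H) (zz N)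

/-- The second sum. -/
def S2s : ℝ := ∑ q ∈ Qc N w.W H, sift ((Sh N h).filter (fun p => q ∣ Nat.dist (N + h) p))
  (wh w H N p1 h) (fun p => Nat.dist (N + h) p) (Pg N w.W H) (zz N)

open Classical in
/-- The third sum. -/
def S3s : ℝ := ∑ p ∈ (Sh N h).filter (fun p => Tri N (Nat.dist (N + h) p)), wh w H N p1 h p

open Classical in
/-- Exceptional: `p1` divides `N - t`. -/
def E1s : ℝ := ∑ p ∈ (Sh N h).filter (fun p => p1 ∣ Nat.dist (N + h) p ∧
  ∀ q ∈ Pg N w.W H, (q : ℝ) < zz N → ¬ q ∣ Nat.dist (N + h) p), wh w H N p1 h p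

/-- Exceptional: a bad prime divides `N - t`. -/
def E2s : ℝ := ∑ q ∈ Bd N w.W H, ∑ p ∈ (Sh N h).filter (fun p => q ∣ Nat.dist (N + h) p),
  wh w H N p1 h p

open Classical in
/-- Exceptional: squares. -/
def E3s : ℝ := ∑ p ∈ (Sh N h).filter
  (fun p => ∃ q : ℕ, q.Prime ∧ zz N ≤ q ∧ q ^ 2 ∣ Nat.dist (N + h) p), wh w H N p1 h p

/-- The negative part. -/
def Ns : ℝ := sift (Ioc (Ya N) (Yb N)) (Fs w H N p1 none) (fun t => N - t) (Pg N w.W H) (zz N)

/-- The whole weighted sum. -/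
def Tt (g : ℕ) : ℝ :=
  ∑ h ∈ H, (S1s w H N p1 h - 1 / 2 * S2s w H N p1 h - 1 / 2 * S3s w H N p1 h -
    E1s w H N p1 h - E2s w H N p1 h - E3s w H N p1 h) - ((g : ℝ) - 1) * Real.log (2 * N) *
    Ns w H N p1

/-- A prime or a product of two primes, all prime factors `≥ N^(1/10)`. -/
def AP2 (N a : ℕ) : Prop :=
  (∀ q : ℕ, q.Prime → q ∣ a → (N : ℝ) ^ (1 / 10 : ℝ) ≤ q) ∧
    (a.Prime ∨ ∃ r s : ℕ, r.Prime ∧ s.Prime ∧ a = r * s)

open Classical in
/-- The good `t` in the window. -/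
def Gd (H : Finset ℕ) (N g : ℕ) : Finset ℕ :=
  (Ioc (Ya N) (Yb N)).filter (fun t => g ≤ (H.filter (fun h => (t + h).Prime)).card ∧
    AP2 N (N - t))

end

end Pool.Agent.Lib.H57C
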