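import Pool.Agent.Lib.H57C.D2
import Pool.Agent.Lib.H57C.SDefs
import Pool.Agent.Lib.H59.SchinzelDefs

/-!
# Part (ii): definitions
-/

open Finset

namespace Pool.Agent.Lib.H57C

open Pool.Agent.Lib.H57M
open Pool.Agent.Lib.H59C (Sq lg XX gq)

noncomputable section

/-! ## Parameters -/

/-- The exponent `s`: the small primes of the sieve are those up to `n^(1/s)`. -/
def se (k : ℕ) : ℝ := 600 * k + 750

/-- `n^(1/s)` -/
def z2 (n k : ℕ) : ℕ := ⌊(n : ℝ) ^ (1 / se k)⌋₊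

/-- The good primes up to `n^(1/s)`. -/
def Q2 (P' : Finset ℕ) (n k : ℕ) : Finset ℕ := P'.filter (fun q => q ≤ z2 n k)

/-- The good primes between `n^(1/s)` and `n^(1/3)`. -/
def Qy (P' : Finset ℕ) (n k : ℕ) : Finset ℕ := P'.filter (fun q => z2 n k < q ∧ q ^ 3 ≤ n)

/-- The weight of a prime. -/
def wq (n q : ℕ) : ℝ := 1 - 3 * Real.log q / Real.log n

/-- The constant of the weighted sieve. -/
def lam (k : ℕ) : ℝ := 449 / 100 * k + 105 / 100 * k * Real.log (k + 1)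

/-! ## Products -/

/-- primes -/
def V1R (T : ℕ → Finset ℕ) (Q : Finset ℕ) : ℝ := ∏ q ∈ Q, (1 - ((T q).card : ℝ) * gq q)

/-- integers -/
def V0R (T : ℕ → Finset ℕ) (Q : Finset ℕ) : ℝ := ∏ q ∈ Q, (1 - ((T q).card : ℝ) * (1 / (q : ℝ)))

/-- integers, with the additional class `-h` -/
def V2R (T : ℕ → Finset ℕ) (Q : Finset ℕ) : ℝ :=
  ∏ q ∈ Q, (1 - (((T q).card : ℝ) + 1) * (1 / (q : ℝ)))

/-! ## Assumptions -/

/-- Everything that is needed for the sieve in part (ii). -/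
structure Reg2 (B cF k : ℕ) (θ Ga : ℝ) {K : ℕ} (w : Par K) (H : Finset ℕ) (n p1 : ℕ)
    (R T : ℕ → Finset ℕ) (P' : Finset ℕ) : Prop
    extends Pre0 B cF θ w H n p1, HRT K k w.W p1 H R T P' where
  aen0 : 0 ≤ AE w.P H none (FC w H)
  aen : AE w.P H none (FC w H) ≤ 11 / 10
  aes : ∀ h ∈ H, 36 / 100 * (1 + w.n * w.c) ^ 2 ≤ AE w.P H (some h) (FC w H)
  gain : Ga * Real.log n ≤ K * (1 + w.n * w.c) ^ 2 * Real.log w.W
  remB : ∀ h ∈ H, ∑ d ∈ Dv P' (Lv n θ),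
    |∑ p ∈ (Sq (Ya n + h) (Yb n + h)).filter (fun p => inT T d (p - h)),
        lg p * (FF w H (some h) (p - h) * Sg (Ps w.W p1) R (p - h)) -
      XX (Ya n + h) (Yb n + h) * (AE w.P H (some h) (FC w H) * VbR (Ps w.W p1) R) *
        ∏ q ∈ d.primeFactors, (((T q).card : ℝ) * gq q)| ≤ n / Real.log n ^ (k + 12)
  remI : ∑ d ∈ Dv P' (Lv n θ),
    |∑ t ∈ (Ioc (Ya n) (Yb n)).filter (fun t => inT T d t),
        FF w H none t * Sg (Ps w.W p1) R t -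
      ((Yb n : ℝ) - Ya n) * (AE w.P H none (FC w H) * VaR (Ps w.W p1) R) *
        ∏ q ∈ d.primeFactors, (((T q).card : ℝ) * (1 / (q : ℝ)))| ≤
      n / Real.log n ^ (k + 12)
  remJ : ∀ h ∈ H, ∀ c0 : ℕ, ∑ d ∈ Dv P' (Lv n θ),
    |∑ t ∈ (Ioc (Ya n) (Yb n)).filter (fun t => t ≡ c0 [MOD p1] ∧ inT (Tp T h) d t),
        FF w H (some h) t * Sg (Ps w.W p1) R t -
      ((Yb n : ℝ) - Ya n) / p1 * (AE w.P H (some h) (FC w H) * VaR (Ps w.W p1) R) *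
        ∏ q ∈ d.primeFactors, ((((T q).card : ℝ) + 1) * (1 / (q : ℝ)))| ≤
      n / Real.log n ^ (k + 12)
  cls : ∀ h ∈ H, ∀ r c : ℕ,
    ((∃ q : ℕ, q.Prime ∧ (r = q ∨ r = q ^ 2)) ∨ ∀ p ∈ w.P, r.Coprime p) → 1 ≤ r →
    ∑ t ∈ (Ioc (Ya n) (Yb n)).filter (fun t => t ≡ c [MOD r]), FF w H (some h) t ≤
      Real.log n ^ B * (n / r) / Real.log n ^ (k + 22) + (n : ℝ) ^ (1 / 20 : ℝ)
  mom : ∑ t ∈ Icc 1 n, FF w H none t ^ 2 ≤ Real.log n ^ B * n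

/-- The bad primes `Z`, and the classes `T2 q` modulo `q^2`. -/
structure HZ (k n W p1 : ℕ) (T T2 : ℕ → Finset ℕ) (P' Z : Finset ℕ) : Prop where
  Zp : ∀ q ∈ Z, q.Prime ∧ W < q ∧ q ≤ n
  Zc : (Z.card : ℝ) ≤ Real.log n ^ 2
  ZT : ∀ q ∈ Z, (T q).card ≤ k
  T1 : (T p1).card ≤ k
  T2c : ∀ q ∈ P', (T2 q).card ≤ k
  all : ∀ q : ℕ, q.Prime → W < q → q ≤ n → q ∈ P' ∨ q ∈ Z
  P'n : ∀ q ∈ P', q ≤ n

/-! ## The weighted sums -/

variable {K : ℕ} (w : Par K) (H : Finset ℕ) (n k p1 h : ℕ) (R T T2 : ℕ → Finset ℕ)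
  (P' Z : Finset ℕ)

/-- The weight of the prime `p = t + h`. -/
def whR (p : ℕ) : ℝ := lg p * (FF w H (some h) (p - h) * Sg (Ps w.W p1) R (p - h))

/-- The total weight of the `t` with `t + h` prime. -/
def XhR : ℝ := XX (Ya n + h) (Yb n + h) * (AE w.P H (some h) (FC w H) * VbR (Ps w.W p1) R)

/-- The first sum. -/
def S1R : ℝ := ∑ p ∈ (Sh n h).filter (fun p => ∀ q ∈ Q2 P' n k, (p - h) % q ∉ T q),
  whR w H p1 h R p

/-- The second sum. -/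
def S2R : ℝ := ∑ q ∈ Qy P' n k, wq n q *
  ∑ p ∈ (Sh n h).filter (fun p => (p - h) % q ∈ T q ∧ ∀ q' ∈ Q2 P' n k, (p - h) % q' ∉ T q'),
    whR w H p1 h R p

/-- Exceptional: `p1`. -/
def E1R : ℝ := ∑ p ∈ (Sh n h).filter
  (fun p => (p - h) % p1 ∈ T p1 ∧ ∀ q ∈ Q2 P' n k, (p - h) % q ∉ T q), whR w H p1 h R p

/-- Exceptional: bad primes. -/
def E2R : ℝ := ∑ q ∈ Z, ∑ p ∈ (Sh n h).filter (fun p => (p - h) % q ∈ T q), whR w H p1 h R p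

open Classical in
/-- Exceptional: squares. -/
def E3R : ℝ := ∑ p ∈ (Sh n h).filter (fun p => ∃ q ∈ Qy P' n k, (p - h) % (q ^ 2) ∈ T2 q),
  whR w H p1 h R p

/-- The negative part. -/
def NsR : ℝ := ∑ t ∈ (Ioc (Ya n) (Yb n)).filter (fun t => ∀ q ∈ Q2 P' n k, t % q ∉ T q),
  FF w H none t * Sg (Ps w.W p1) R t

/-- The whole weighted sum. -/
def TtR (g : ℕ) : ℝ :=
  ∑ h ∈ H, (S1R w H n k p1 h R T P' - 1 / lam k * S2R w H n k p1 h R T P' -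
    E1R w H n k p1 h R T P' - E2R w H n p1 h R T Z - E3R w H n k p1 h R T2 P') -
  ((g : ℝ) - 1) * Real.log (2 * n) * NsR w H n k p1 R T P'

open Classical in
/-- The good `t` in the window. -/
def GdR (H : Finset ℕ) (n k W p1 g : ℕ) (R T T2 : ℕ → Finset ℕ) (P' Z : Finset ℕ) : Finset ℕ :=
  (Ioc (Ya n) (Yb n)).filter (fun t => g ≤ (H.filter (fun h => (t + h).Prime)).card ∧
    (∀ q ∈ Ps W p1, t % q ∉ R q) ∧ t % p1 ∉ T p1 ∧ (∀ q ∈ Z, t % q ∉ T q) ∧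
    (∀ q ∈ Q2 P' n k, t % q ∉ T q) ∧ (∀ q ∈ Qy P' n k, t % (q ^ 2) ∉ T2 q) ∧
    ∑ q ∈ (Qy P' n k).filter (fun q => t % q ∈ T q), wq n q < lam k)

/-! ## Polynomials -/

open Polynomial in
/-- The classes with `q ∣ N - G`. -/
def Tg (G : ℤ[X]) (N q : ℕ) : Finset ℕ :=
  (range q).filter (fun c => (q : ℤ) ∣ (N : ℤ) - G.eval (c : ℤ))

open Polynomial in
/-- The bad classes. -/
def Rg (G : ℤ[X]) (N : ℕ) (H : Finset ℕ) (q : ℕ) : Finset ℕ :=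
  (range q).filter (fun c => (∃ h ∈ H, q ∣ c + h) ∨ (q : ℤ) ∣ (N : ℤ) - G.eval (c : ℤ))

open Polynomial in
/-- The classes modulo `q^2` with `q^2 ∣ N - G`. -/
def T2g (G : ℤ[X]) (N q : ℕ) : Finset ℕ :=
  (range (q ^ 2)).filter (fun c => ((q ^ 2 : ℕ) : ℤ) ∣ (N : ℤ) - G.eval (c : ℤ))

open Polynomial in
open Classical in
/-- The bad primes. `D`: the polynomial of `disc_exists`. -/
def Zg (G D : ℤ[X]) (N n W : ℕ) (H : Finset ℕ) : Finset ℕ :=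
  (Ioc W n).filter (fun q => q.Prime ∧ ((∃ h ∈ H, (q : ℤ) ∣ (N : ℤ) - G.eval (-(h : ℤ))) ∨
    (q : ℤ) ∣ D.eval (N : ℤ)))

open Polynomial in
open Classical in
/-- The good primes. -/
def Pgg (G D : ℤ[X]) (N n W : ℕ) (H : Finset ℕ) : Finset ℕ :=
  (Ioc W n).filter (fun q => q.Prime ∧ q ∉ Zg G D N n W H)

open Polynomial in
/-- The product `∏ (x + h) · (N - G)` has no fixed prime divisor. -/
def NoFix (G : ℤ[X]) (N : ℕ) (H : Finset ℕ) : Prop :=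
  ∀ p : ℕ, p.Prime → ∃ v : ℤ, ¬ (p : ℤ) ∣ (∏ h ∈ H, (v + (h : ℤ))) * ((N : ℤ) - G.eval v)

end

end Pool.Agent.Lib.H57C
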