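import Pool.Agent.Lib.H57C.Main1
import Pool.Agent.Lib.H57C.P2
import Pool.Agent.Lib.H59.SchinzelCount

/-!
# Project H57C: part (i) for `G = x + b`
-/

open Finset Polynomial

namespace Pool.Agent.Lib.H57C

theorem main3_eval (b : ℤ) (v : ℤ) : (X + C b : ℤ[X]).eval v = v + b := by simp

theorem main3_count (b : ℤ) (N : ℕ) (M : ℕ) (hM : (M : ℤ) = N - b) (hM1 : 1 ≤ M) :
    H59.argCount (X + C b : ℤ[X]) N = M - 1 := by
  have h : H59.argSet (X + C b : ℤ[X]) N = ↑(Icc 1 (M - 1)) := by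
    ext t
    simp only [H59.argSet, Set.mem_ofPred_eq, main3_eval, coe_Icc, Set.mem_Icc]
    constructor
    · rintro ⟨h1, h2⟩
      omega
    · rintro ⟨h1, h2⟩
      omega
  rw [H59.argCount, h, Set.ncard_coe_finset, Nat.card_Icc]
  omega

/-- Comparison of the two normalisations. -/
theorem main3_cmp (B : ℕ) : ∃ M0 : ℕ, ∀ M : ℕ, M0 ≤ M →
    ((M - 1 : ℕ) : ℝ) / Real.log ((M - 1 : ℕ) : ℝ) ^ (B + 1) ≤ M / Real.log M ^ B := by
  refine ⟨⌈Real.exp (2 ^ B)⌉₊ + 5, fun M hM => ?_⟩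
  have h0 : Real.exp (2 ^ B) ≤ ⌈Real.exp (2 ^ B)⌉₊ := Nat.le_ceil _
  have h1 : (⌈Real.exp (2 ^ B)⌉₊ + 5 : ℕ) ≤ (M : ℝ) := by exact_mod_cast hM
  push_cast at h1
  have hM5 : 5 ≤ M := by omega
  have hM5' : (5 : ℝ) ≤ M := by exact_mod_cast hM5
  have hc : ((M - 1 : ℕ) : ℝ) = (M : ℝ) - 1 := by rw [Nat.cast_sub (by omega)]; simp
  rw [hc]
  have hx1 : (4 : ℝ) ≤ (M : ℝ) - 1 := by linarith
  have hl0 : 0 < Real.log ((M : ℝ) - 1) := Real.log_pos (by linarith)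
  have hl1 : (2 : ℝ) ^ B ≤ Real.log ((M : ℝ) - 1) := by
    rw [Real.le_log_iff_exp_le (by linarith)]
    linarith
  have hl2 : Real.log M ≤ 2 * Real.log ((M : ℝ) - 1) := by
    have : Real.log M ≤ Real.log (((M : ℝ) - 1) ^ 2) := by
      apply Real.log_le_log (by linarith)
      nlinarith
    rwa [Real.log_pow, Nat.cast_ofNat] at this
  have hlM : 0 < Real.log M := Real.log_pos (by linarith)
  have hpow : Real.log M ^ B ≤ Real.log ((M : ℝ) - 1) ^ (B + 1) := by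
    calc Real.log M ^ B ≤ (2 * Real.log ((M : ℝ) - 1)) ^ B := pow_le_pow_left₀ hlM.le hl2 B
      _ = 2 ^ B * Real.log ((M : ℝ) - 1) ^ B := by rw [mul_pow]
      _ ≤ Real.log ((M : ℝ) - 1) * Real.log ((M : ℝ) - 1) ^ B :=
          mul_le_mul_of_nonneg_right hl1 (by positivity)
      _ = Real.log ((M : ℝ) - 1) ^ (B + 1) := by rw [pow_succ, mul_comm]
  have hp0 : 0 < Real.log M ^ B := by positivity
  calc ((M : ℝ) - 1) / Real.log ((M : ℝ) - 1) ^ (B + 1) ≤ M / Real.log ((M : ℝ) - 1) ^ (B + 1) := by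
        apply div_le_div_of_nonneg_right (by linarith) (by positivity)
    _ ≤ M / Real.log M ^ B := by
        apply div_le_div_of_nonneg_left (by linarith) hp0 hpow

theorem main3_omega (N a : ℕ) (h : AP2 N a) : a.primeFactorsList.length ≤ 2 := by
  rcases h.2 with h1 | ⟨r, s, hr, hs, rfl⟩
  · rw [Nat.primeFactorsList_prime h1]
    simp
  · rw [(Nat.perm_primeFactorsList_mul hr.ne_zero hs.ne_zero).length_eq,
      Nat.primeFactorsList_prime hr, Nat.primeFactorsList_prime hs]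
    simp

/-- **Part (i) for `G = x + b`.** -/
theorem main3 (g : ℕ) (hg : 1 ≤ g) : ∃ K B : ℕ, ∀ H : Finset ℕ, K ≤ H.card → ∀ b : ℤ,
    ∃ N0 : ℕ, ∀ N : ℕ, N0 ≤ N → NoFix (X + C b) N H →
    (H59.argCount (X + C b) N : ℝ) / Real.log (H59.argCount (X + C b) N) ^ B ≤
      ((open Classical in (Icc 1 (H59.argCount (X + C b) N)).filter (fun t : ℕ =>
        (X + C b : ℤ[X]).eval (t : ℤ) < N ∧ g ≤ (H.filter (fun h => (t + h).Prime)).card ∧
        ((N : ℤ) - (X + C b : ℤ[X]).eval (t : ℤ)).toNat.primeFactorsList.length ≤ 2 ∧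
        ∀ q : ℕ, q.Prime → (q : ℤ) ∣ (N : ℤ) - (X + C b : ℤ[X]).eval (t : ℤ) →
          (H59.argCount (X + C b) N : ℝ) ^ (1 / 10 : ℝ) < q)).card : ℝ) := by
  classical
  obtain ⟨K, B, hmain⟩ := main1 g hg
  refine ⟨K, B + 1, fun H hH b => ?_⟩
  obtain ⟨N1, hN1⟩ := hmain H hH
  obtain ⟨M0, hM0⟩ := main3_cmp B
  refine ⟨N1 + M0 + b.natAbs + 5, fun N hN hadm => ?_⟩
  obtain ⟨M, hM⟩ : ∃ M : ℕ, (M : ℤ) = N - b := ⟨((N : ℤ) - b).toNat, by omega⟩
  have hM1 : N1 ≤ M := by omega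
  have hM2 : M0 ≤ M := by omega
  have hM5 : 5 ≤ M := by omega
  rw [main3_count b N M hM (by omega)]
  refine le_trans (hM0 M hM2) ?_
  have h1 := hN1 M hM1 (by
    intro p hp
    obtain ⟨v, hv⟩ := hadm p hp
    refine ⟨v, ?_⟩
    rw [main3_eval] at hv
    rw [hM]
    have : (N : ℤ) - b - v = (N : ℤ) - (v + b) := by ring
    rwa [this])
  refine le_trans h1 ?_
  have hsub : (Icc 1 M).filter (fun t => t < M ∧ g ≤ (H.filter (fun h => (t + h).Prime)).card ∧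
      AP2 M (M - t)) ⊆ (Icc 1 (M - 1)).filter (fun t : ℕ =>
        (X + C b : ℤ[X]).eval (t : ℤ) < N ∧ g ≤ (H.filter (fun h => (t + h).Prime)).card ∧
        ((N : ℤ) - (X + C b : ℤ[X]).eval (t : ℤ)).toNat.primeFactorsList.length ≤ 2 ∧
        ∀ q : ℕ, q.Prime → (q : ℤ) ∣ (N : ℤ) - (X + C b : ℤ[X]).eval (t : ℤ) →
          ((M - 1 : ℕ) : ℝ) ^ (1 / 10 : ℝ) < q) := by
    intro t ht
    rw [mem_filter, mem_Icc] at ht ⊢
    obtain ⟨⟨ht1, ht2⟩, ht3, ht4, ht5⟩ := ht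
    have he : (N : ℤ) - (X + C b : ℤ[X]).eval (t : ℤ) = ((M - t : ℕ) : ℤ) := by
      rw [main3_eval]
      omega
    refine ⟨⟨ht1, by omega⟩, ?_, ht4, ?_, ?_⟩
    · rw [main3_eval]; omega
    · rw [he, Int.toNat_natCast]
      exact main3_omega M _ ht5
    · intro q hq hd
      rw [he] at hd
      have hd' : q ∣ M - t := by exact_mod_cast hd
      refine lt_of_lt_of_le ?_ (ht5.1 q hq hd')
      apply Real.rpow_lt_rpow (by positivity) _ (by norm_num)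
      exact_mod_cast (by omega : M - 1 < M)
  exact_mod_cast card_le_card hsub

end Pool.Agent.Lib.H57C
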