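import Mathlib

/-!
# From `at least g primes among the t + h` to one tuple
-/

open Finset

namespace Pool.Agent.Lib.H57C

theorem pig (g : ℕ) (H : Finset ℕ) (S : Finset ℕ)
    (hS : ∀ t ∈ S, g ≤ (H.filter (fun h => (t + h).Prime)).card) (hne : S.Nonempty) :
    ∃ h : Fin g → ℕ, StrictMono h ∧ (∀ i, h i ∈ H) ∧
      (S.card : ℝ) ≤ 2 ^ H.card * ((S.filter (fun t => ∀ i, (t + h i).Prime)).card : ℝ) := by
  classical
  have hch : ∀ t ∈ S, ∃ A : Finset ℕ, A ⊆ H.filter (fun h => (t + h).Prime) ∧ A.card = g :=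
    fun t ht => exists_subset_card_eq (hS t ht)
  choose! A hA hAc using hch
  have hmaps : ∀ t ∈ S, A t ∈ powersetCard g H := fun t ht => by
    rw [mem_powersetCard]
    exact ⟨(hA t ht).trans (filter_subset _ _), hAc t ht⟩
  have hsum := card_eq_sum_card_fiberwise hmaps
  have hPne : (powersetCard g H).Nonempty := by
    obtain ⟨t, ht⟩ := hne
    exact ⟨_, hmaps t ht⟩
  obtain ⟨A0, hA0, hmax⟩ := exists_max_image (powersetCard g H)
    (fun B => (S.filter (fun t => A t = B)).card) hPne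
  have h1 : S.card ≤ (powersetCard g H).card * (S.filter (fun t => A t = A0)).card := by
    rw [hsum, ← smul_eq_mul]
    exact sum_le_card_nsmul _ _ _ hmax
  rw [mem_powersetCard] at hA0
  refine ⟨fun i => A0.orderEmbOfFin hA0.2 i, (A0.orderEmbOfFin hA0.2).strictMono, fun i =>
    hA0.1 (orderEmbOfFin_mem A0 hA0.2 i), ?_⟩
  have h2 : (powersetCard g H).card ≤ 2 ^ H.card := by
    rw [← card_powerset]
    apply card_le_card
    intro B hB
    rw [mem_powersetCard] at hB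
    exact mem_powerset.mpr hB.1
  have h3 : S.filter (fun t => A t = A0) ⊆
      S.filter (fun t => ∀ i, (t + A0.orderEmbOfFin hA0.2 i).Prime) := by
    intro t ht
    rw [mem_filter] at ht ⊢
    refine ⟨ht.1, fun i => ?_⟩
    have h4 : A0 ⊆ H.filter (fun h => (t + h).Prime) := by
      have := hA t ht.1
      rwa [ht.2] at this
    exact (mem_filter.mp (h4 (orderEmbOfFin_mem A0 hA0.2 i))).2
  have h5 : S.card ≤ 2 ^ H.card *
      (S.filter (fun t => ∀ i, (t + A0.orderEmbOfFin hA0.2 i).Prime)).card :=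
    h1.trans (Nat.mul_le_mul h2 (card_le_card h3))
  exact_mod_cast h5

/-- Absorbing a constant into the power of the logarithm. -/
theorem absorb (B c : ℕ) : ∃ M0 : ℕ, ∀ M : ℕ, M0 ≤ M →
    0 < Real.log (M : ℝ) ∧ (M : ℝ) / Real.log M ^ (B + 1) * 2 ^ c ≤ M / Real.log M ^ B := by
  refine ⟨⌈Real.exp (2 ^ c)⌉₊ + 5, fun M hM => ?_⟩
  have h0 : Real.exp (2 ^ c) ≤ ⌈Real.exp (2 ^ c)⌉₊ := Nat.le_ceil _
  have h1 : (⌈Real.exp (2 ^ c)⌉₊ + 5 : ℕ) ≤ (M : ℝ) := by exact_mod_cast hM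
  push_cast at h1
  have hM5 : (5 : ℝ) ≤ M := by exact_mod_cast (by omega : 5 ≤ M)
  have hl1 : (2 : ℝ) ^ c ≤ Real.log M := by
    rw [Real.le_log_iff_exp_le (by linarith)]
    linarith
  have hl : 0 < Real.log M := Real.log_pos (by linarith)
  refine ⟨hl, ?_⟩
  have h2 : (M : ℝ) / Real.log M ^ (B + 1) * 2 ^ c = M / Real.log M ^ B * (2 ^ c / Real.log M) := by
    rw [pow_succ]
    field_simp
  rw [h2]
  have h3 : (2 : ℝ) ^ c / Real.log M ≤ 1 := by rw [div_le_one hl]; exact hl1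
  have h4 : 0 ≤ (M : ℝ) / Real.log M ^ B := by positivity
  calc (M : ℝ) / Real.log M ^ B * (2 ^ c / Real.log M) ≤ M / Real.log M ^ B * 1 :=
        mul_le_mul_of_nonneg_left h3 h4
    _ = M / Real.log M ^ B := mul_one _

theorem mono_log {M : ℝ} (hM : 0 ≤ M) (hl : 1 ≤ Real.log M) {B B' : ℕ} (h : B ≤ B') :
    M / Real.log M ^ B' ≤ M / Real.log M ^ B := by
  apply div_le_div_of_nonneg_left hM (by positivity)
  exact pow_le_pow_right₀ hl h

end Pool.Agent.Lib.H57C
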