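import Mathlib
import Pool.Agent.Lib.H59.SchinzelDefs
import Pool.Agent.Lib.H57C.Main2
import Pool.Agent.Lib.H57C.Main3
import Pool.Agent.Lib.H57C.Pig

/-!
# Primes `n + h_1, …, n + h_g` and an almost prime `N - G(n)`, for all large `N`

For all `g, k ≥ 1` there are `K` and `B` such that, for every set `H` of at least `K` natural numbers, every
polynomial `G` of degree `k` with positive leading coefficient and all large `N` for which
`∏_{h ∈ H} (x + h) (N - G)` has no fixed prime divisor, there are `h_1 < ⋯ < h_g` in `H` such that for at least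
`X/(log X)^B` of the positive integers `n` with `N - G(n) > 0` all the `n + h_i` are primes and
`N - G(n)` has at most `r(G)` prime factors; `r(G) = 2` if `G = x + b` (Chen's theorem is the case
`g = 1`, `G = x`).
-/

open Finset Polynomial Filter Pool.Agent.Lib.H59

namespace Pool.Agent.Lib.H57C.FinalII

/-- The polynomial `∏_{h ∈ H} (x + h) · (N - G)` has no fixed prime divisor. -/
def NoFixed (H : Finset ℕ) (G : ℤ[X]) (N : ℕ) : Prop :=
  ∀ p : ℕ, p.Prime → ¬ ∀ n : ℤ, (p : ℤ) ∣ ((∏ h ∈ H, (X + C (h : ℤ))) * (C (N : ℤ) - G)).eval n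

/-- The number of prime factors which is allowed for `N - G(n)`: `2` if `G = x + b`, and
`7.5 k + 1.05 k log (k + 1)` otherwise, `k` the degree of `G`. -/
noncomputable def r (G : ℤ[X]) : ℝ :=
  if G.natDegree = 1 ∧ G.leadingCoeff = 1 then 2
  else 15 / 2 * G.natDegree + 21 / 20 * G.natDegree * Real.log (G.natDegree + 1)

/-- The prime factors of `N - G(n)` are larger than `X(N)^(e(G))`. -/
noncomputable def e (G : ℤ[X]) : ℝ :=
  if G.natDegree = 1 ∧ G.leadingCoeff = 1 then 1 / 10 else 1 / (600 * G.natDegree + 750)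

/-- The positive integers `n` with `N - G(n) > 0` for which all the `n + h_i` are primes, and `N - G(n)` has at most
`r(G)` prime factors, counted with multiplicity, all larger than `X(N)^(e(G))`. -/
def almostSet {g : ℕ} (h : Fin g → ℕ) (G : ℤ[X]) (N : ℕ) : Set ℕ :=
  {n | n ∈ argSet G N ∧ (∀ i, (n + h i).Prime) ∧
    (ArithmeticFunction.cardFactors ((N : ℤ) - G.eval (n : ℤ)).toNat : ℝ) ≤ r G ∧
    ∀ q : ℕ, q.Prime → (q : ℤ) ∣ (N : ℤ) - G.eval (n : ℤ) → (argCount G N : ℝ) ^ e G < q}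

theorem noFix_of (H : Finset ℕ) (G : ℤ[X]) (N : ℕ) (h : NoFixed H G N) :
    Pool.Agent.Lib.H57C.NoFix G N H := by
  intro p hp
  have h1 := h p hp
  push Not at h1
  obtain ⟨v, hv⟩ := h1
  refine ⟨v, fun hd => hv ?_⟩
  rw [eval_mul, eval_prod, eval_sub, eval_C]
  simpa using hd

theorem card_inst (P : ℕ → Prop) (i1 i2 : DecidablePred P) (s : Finset ℕ) :
    ((@Finset.filter ℕ P i1 s).card : ℝ) = (@Finset.filter ℕ P i2 s).card := by
  congr!

/-- From a lower bound for the number of the `t` with at least `g` primes `t + h` to one tuple. -/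
theorem finish (g : ℕ) (H : Finset ℕ) (G : ℤ[X]) (hdeg : 1 ≤ G.natDegree)
    (hlc : 0 < G.leadingCoeff) (B B' : ℕ) (hB : B ≤ B') (P : ℕ → ℕ → Prop)
    (hP : ∀ N t : ℕ, P N t →
      (ArithmeticFunction.cardFactors ((N : ℤ) - G.eval (t : ℤ)).toNat : ℝ) ≤ r G ∧
      ∀ q : ℕ, q.Prime → (q : ℤ) ∣ (N : ℤ) - G.eval (t : ℤ) → (argCount G N : ℝ) ^ e G < q)
    (hN : ∃ N0 : ℕ, ∀ N : ℕ, N0 ≤ N → Pool.Agent.Lib.H57C.NoFix G N H →
      (argCount G N : ℝ) / Real.log (argCount G N) ^ B ≤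
      ((open Classical in (Icc 1 (argCount G N)).filter (fun t : ℕ =>
        G.eval (t : ℤ) < N ∧ g ≤ (H.filter (fun h => (t + h).Prime)).card ∧ P N t)).card : ℝ)) :
    ∀ᶠ N : ℕ in atTop, NoFixed H G N → ∃ h : Fin g → ℕ, StrictMono h ∧ (∀ i, h i ∈ H) ∧
      (argCount G N : ℝ) / Real.log (argCount G N) ^ (B' + 1) ≤ (almostSet h G N).ncard := by
  classical
  obtain ⟨N0, hN0⟩ := hN
  obtain ⟨M0, hM0⟩ := Pool.Agent.Lib.H57C.absorb B' H.card
  have ht := argCount_tendsto hdeg hlc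
  filter_upwards [eventually_ge_atTop N0, ht.eventually_ge_atTop (max M0 3),
    argSet_eq hdeg hlc] with N hN hNM hset hadm
  have h1 := hN0 N hN (noFix_of H G N hadm)
  obtain ⟨hl, h2⟩ := hM0 (argCount G N) (le_trans (le_max_left _ _) hNM)
  have hX3 : (3 : ℝ) ≤ argCount G N := by exact_mod_cast le_trans (le_max_right _ _) hNM
  have hX0 : (0 : ℝ) < argCount G N := by linarith
  have hl1 : 1 ≤ Real.log (argCount G N) := by
    rw [Real.le_log_iff_exp_le hX0]
    have := Real.exp_one_lt_d9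
    linarith
  set S := (Icc 1 (argCount G N)).filter (fun t : ℕ =>
        G.eval (t : ℤ) < N ∧ g ≤ (H.filter (fun h => (t + h).Prime)).card ∧ P N t) with hSdef
  have h1' : (argCount G N : ℝ) / Real.log (argCount G N) ^ B' ≤ (S.card : ℝ) :=
    (Pool.Agent.Lib.H57C.mono_log hX0.le hl1 hB).trans h1
  have hSpos : 0 < S.card := by
    have h3 : (0 : ℝ) < argCount G N / Real.log (argCount G N) ^ B' := by positivity
    exact_mod_cast h3.trans_le h1'
  obtain ⟨h, hmono, hhH, hcard⟩ := Pool.Agent.Lib.H57C.pig g H S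
    (fun t ht => (mem_filter.mp ht).2.2.1) (card_pos.mp hSpos)
  refine ⟨h, hmono, hhH, ?_⟩
  have hsub : (↑(S.filter (fun t => ∀ i, (t + h i).Prime)) : Set ℕ) ⊆ almostSet h G N := by
    intro t ht
    rw [mem_coe, mem_filter, hSdef, mem_filter] at ht
    obtain ⟨⟨ht1, ht2, ht3, ht4⟩, ht6⟩ := ht
    refine ⟨?_, ht6, (hP N t ht4).1, (hP N t ht4).2⟩
    rw [hset]
    exact_mod_cast ht1
  have hfin : (almostSet h G N).Finite := by
    refine Set.Finite.subset (Icc 1 (argCount G N)).finite_toSet fun n hn => ?_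
    rw [← hset]
    exact hn.1
  have hle : ((S.filter (fun t => ∀ i, (t + h i).Prime)).card : ℝ) ≤
      ((almostSet h G N).ncard : ℝ) := by
    rw [← Set.ncard_coe_finset]
    exact_mod_cast Set.ncard_le_ncard hsub hfin
  have h4 : (argCount G N : ℝ) / Real.log (argCount G N) ^ (B' + 1) * 2 ^ H.card ≤
      2 ^ H.card * ((almostSet h G N).ncard : ℝ) := by
    calc (argCount G N : ℝ) / Real.log (argCount G N) ^ (B' + 1) * 2 ^ H.card
        ≤ argCount G N / Real.log (argCount G N) ^ B' := h2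
      _ ≤ S.card := h1'
      _ ≤ 2 ^ H.card * ((S.filter (fun t => ∀ i, (t + h i).Prime)).card : ℝ) := hcard
      _ ≤ 2 ^ H.card * ((almostSet h G N).ncard : ℝ) :=
          mul_le_mul_of_nonneg_left hle (by positivity)
  have h5 : (0 : ℝ) < 2 ^ H.card := by positivity
  rw [mul_comm] at h4
  exact le_of_mul_le_mul_left h4 h5

/-- The main theorem. -/
theorem result (g k : ℕ) (hg : 1 ≤ g) (hk : 1 ≤ k) : ∃ K B : ℕ,
    ∀ H : Finset ℕ, K ≤ H.card → ∀ G : ℤ[X], G.natDegree = k → 0 < G.leadingCoeff →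
      ∀ᶠ N : ℕ in atTop, NoFixed H G N → ∃ h : Fin g → ℕ, StrictMono h ∧ (∀ i, h i ∈ H) ∧
        (argCount G N : ℝ) / Real.log (argCount G N) ^ B ≤ (almostSet h G N).ncard := by
  classical
  obtain ⟨K1, B1, h1⟩ := Pool.Agent.Lib.H57C.main3 g hg
  obtain ⟨K2, B2, h2⟩ := Pool.Agent.Lib.H57C.main2 g k hg hk
  refine ⟨max K1 K2, max B1 B2 + 1, fun H hH G hGk hl => ?_⟩
  have hdeg : 1 ≤ G.natDegree := by omega
  by_cases hG : G.natDegree = 1 ∧ G.leadingCoeff = 1
  · have hGb : G = X + C (G.coeff 0) := by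
      have h3 := Polynomial.eq_X_add_C_of_natDegree_le_one hG.1.le
      have h4 : G.coeff 1 = 1 := by
        have := hG.2
        rwa [leadingCoeff, hG.1] at this
      rw [h4, C_1, one_mul] at h3
      exact h3
    refine finish g H G hdeg hl B1 (max B1 B2) (le_max_left _ _) (fun N t =>
      ((N : ℤ) - G.eval (t : ℤ)).toNat.primeFactorsList.length ≤ 2 ∧
        ∀ q : ℕ, q.Prime → (q : ℤ) ∣ (N : ℤ) - G.eval (t : ℤ) →
          (argCount G N : ℝ) ^ (1 / 10 : ℝ) < q) ?_ ?_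
    · rintro N t ⟨h3, h4⟩
      rw [ArithmeticFunction.cardFactors_apply]
      unfold r e
      rw [if_pos hG, if_pos hG]
      exact ⟨by exact_mod_cast h3, h4⟩
    · have h3 := h1 H (le_trans (le_max_left _ _) hH) (G.coeff 0)
      rw [← hGb] at h3
      obtain ⟨N0, hN0⟩ := h3
      exact ⟨N0, fun N hN hadm => (hN0 N hN hadm).trans (le_of_eq (card_inst _ _ _ _))⟩
  · refine finish g H G hdeg hl B2 (max B1 B2) (le_max_right _ _) (fun N t =>
      ((((N : ℤ) - G.eval (t : ℤ)).toNat.primeFactorsList.length : ℕ) : ℝ) ≤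
          15 / 2 * k + 21 / 20 * k * Real.log (k + 1) ∧
        ∀ q : ℕ, q.Prime → (q : ℤ) ∣ (N : ℤ) - G.eval (t : ℤ) →
          (argCount G N : ℝ) ^ (1 / (600 * (k : ℝ) + 750)) < q) ?_ ?_
    · rintro N t ⟨h3, h4⟩
      rw [ArithmeticFunction.cardFactors_apply]
      unfold r e
      rw [if_neg hG, if_neg hG, hGk]
      exact ⟨h3, h4⟩
    · obtain ⟨N0, hN0⟩ := h2 H (le_trans (le_max_right _ _) hH) G hGk hl
      exact ⟨N0, fun N hN hadm => (hN0 N hN hadm).trans (le_of_eq (card_inst _ _ _ _))⟩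

end Pool.Agent.Lib.H57C.FinalII
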