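import Pool.Agent.Lib.H57C.P2
import Pool.Agent.Lib.H59.SchinzelCount

/-!
# Chunk G1: the classes of a polynomial
-/

open Finset Polynomial

namespace Pool.Agent.Lib.H57C

theorem G1_eval (G : ℤ[X]) (N : ℕ) (q : ℕ) (v : ℤ) :
    ((C (N : ℤ) - G).map (Int.castRingHom (ZMod q))).eval (v : ZMod q) =
      (((N : ℤ) - G.eval v : ℤ) : ZMod q) := by
  rw [Polynomial.map_sub, Polynomial.map_C, Polynomial.eval_sub, Polynomial.eval_C]
  have h1 : (G.map (Int.castRingHom (ZMod q))).eval (v : ZMod q) = ((G.eval v : ℤ) : ZMod q) := by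
    have h2 := Polynomial.eval_intCast_map (Int.castRingHom (ZMod q)) G v
    rw [h2]
    rfl
  rw [h1]
  simp

/-- Proof. If `N - G` vanishes identically modulo `q` then `q` is a fixed divisor, against `NoFix`. So `N - G` is a nonzero polynomial over `ZMod q` of degree at most
`natDegree G`, with at most so many roots (`Polynomial.card_roots'`); `c ↦ (c : ZMod q)` is injective on `range q`. -/
theorem tg_card (G : ℤ[X]) (N : ℕ) (H : Finset ℕ) (hn : NoFix G N H) (q : ℕ) (hq : q.Prime) :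
    (Tg G N q).card ≤ G.natDegree := by
  classical
  have : Fact q.Prime := ⟨hq⟩
  set P : (ZMod q)[X] := (C (N : ℤ) - G).map (Int.castRingHom (ZMod q)) with hP
  have hP0 : P ≠ 0 := by
    intro h0
    obtain ⟨v, hv⟩ := hn q hq
    apply hv
    apply Dvd.dvd.mul_left
    rw [← ZMod.intCast_zmod_eq_zero_iff_dvd]
    rw [← G1_eval, ← hP, h0]
    simp
  have hdeg : P.natDegree ≤ G.natDegree := by
    refine (Polynomial.natDegree_map_le).trans ?_
    exact (H59.natDegree_C_sub' G N).le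
  have h1 : (Tg G N q).card ≤ P.roots.toFinset.card := by
    refine Finset.card_le_card_of_injOn (fun c : ℕ => (c : ZMod q)) ?_ ?_
    · intro c hc
      rw [Finset.mem_coe, Tg, Finset.mem_filter, Finset.mem_range] at hc
      rw [Finset.mem_coe, Multiset.mem_toFinset, Polynomial.mem_roots hP0, Polynomial.IsRoot]
      have h3 := G1_eval G N q (c : ℤ)
      rw [Int.cast_natCast] at h3
      show P.eval (c : ZMod q) = 0
      rw [hP, h3, ZMod.intCast_zmod_eq_zero_iff_dvd]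
      exact hc.2
    · intro a ha b hb hab
      rw [Finset.mem_coe, Tg, Finset.mem_filter, Finset.mem_range] at ha hb
      have h3 : (a : ZMod q) = (b : ZMod q) := hab
      rw [ZMod.natCast_eq_natCast_iff'] at h3
      rwa [Nat.mod_eq_of_lt ha.1, Nat.mod_eq_of_lt hb.1] at h3
  exact h1.trans ((Multiset.toFinset_card_le _).trans ((Polynomial.card_roots' P).trans hdeg))

theorem G1_neg_class (q h : ℕ) :
    ((range q).filter (fun c => q ∣ c + h)).card ≤ 1 := by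
  rw [Finset.card_le_one]
  intro a ha b hb
  rw [Finset.mem_filter, Finset.mem_range] at ha hb
  have h1 : a + h ≡ b + h [MOD q] :=
    ((Nat.modEq_zero_iff_dvd).mpr ha.2).trans ((Nat.modEq_zero_iff_dvd).mpr hb.2).symm
  have h2 : a ≡ b [MOD q] := Nat.ModEq.add_right_cancel' h h1
  exact Nat.ModEq.eq_of_lt_of_lt h2 ha.1 hb.1

/-- Proof. `Rr`, `RH`, `P'p`, `Tr`: definitions. `Rk`: the classes of `-h` (one for every `h ∈ H`) and `tg_card`. `Rq`: the class of the `v` of `NoFix` is not in `Rg`. `TH`: if `q ∣ N - G(t)` and `q ∣ t + h`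
then `q ∣ N - G(-h)` (`Polynomial.sub_dvd_eval_sub`), so `q ∈ Zg`. -/
theorem hrt_G (G D : ℤ[X]) (N n W p1 : ℕ) (H : Finset ℕ) (hn : NoFix G N H) :
    HRT H.card G.natDegree W p1 H (Rg G N H) (Tg G N) (Pgg G D N n W H) := by
  classical
  refine ⟨?_, ?_, ?_, ?_, ?_, ?_, ?_, ?_⟩
  · intro q
    exact Finset.filter_subset _ _
  · intro q hq
    rw [Ps, Finset.mem_filter] at hq
    have hqp : q.Prime := hq.2.1
    have h1 : Rg G N H q ⊆ (H.biUnion (fun h => (range q).filter (fun c => q ∣ c + h))) ∪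
        Tg G N q := by
      intro c hc
      rw [Rg, Finset.mem_filter] at hc
      rw [Finset.mem_union, Finset.mem_biUnion, Tg, Finset.mem_filter]
      rcases hc.2 with ⟨h, hh, hd⟩ | hd
      · exact Or.inl ⟨h, hh, Finset.mem_filter.mpr ⟨hc.1, hd⟩⟩
      · exact Or.inr ⟨hc.1, hd⟩
    refine (Finset.card_le_card h1).trans ((Finset.card_union_le _ _).trans ?_)
    refine Nat.add_le_add ?_ (tg_card G N H hn q hqp)
    refine (Finset.card_biUnion_le).trans ?_
    calc ∑ h ∈ H, ((range q).filter (fun c => q ∣ c + h)).card ≤ ∑ _h ∈ H, 1 :=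
          Finset.sum_le_sum fun h _ => G1_neg_class q h
      _ = H.card := by simp
  · intro q hq
    rw [Ps, Finset.mem_filter] at hq
    have hqp : q.Prime := hq.2.1
    obtain ⟨v, hv⟩ := hn q hqp
    have hq0 : (0 : ℤ) < q := by exact_mod_cast hqp.pos
    obtain ⟨c, hc⟩ : ∃ c : ℕ, (c : ℤ) = v % q :=
      ⟨(v % q).toNat, Int.toNat_of_nonneg (Int.emod_nonneg _ hq0.ne')⟩
    have hcq : c < q := by
      have h1 := Int.emod_lt_of_pos v hq0
      rw [← hc] at h1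
      exact_mod_cast h1
    have hcv : (q : ℤ) ∣ v - c := by
      rw [hc]
      exact Int.dvd_self_sub_emod
    have hcR : c ∉ Rg G N H q := by
      intro hcR
      rw [Rg, Finset.mem_filter] at hcR
      apply hv
      rcases hcR.2 with ⟨h, hh, hd⟩ | hd
      · apply Dvd.dvd.mul_right
        refine Dvd.dvd.trans ?_ (Finset.dvd_prod_of_mem (fun h : ℕ => v + (h : ℤ)) hh)
        have h1 : v + (h : ℤ) = (v - c) + ((c + h : ℕ) : ℤ) := by push_cast; ring
        show (q : ℤ) ∣ v + (h : ℤ)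
        rw [h1]
        exact dvd_add hcv (by exact_mod_cast hd)
      · apply Dvd.dvd.mul_left
        have h1 : (N : ℤ) - G.eval v = ((N : ℤ) - G.eval (c : ℤ)) - (G.eval v - G.eval (c : ℤ)) := by
          ring
        rw [h1]
        exact dvd_sub hd (hcv.trans (Polynomial.sub_dvd_eval_sub v c G))
    have h2 : Rg G N H q ⊂ range q := by
      refine Finset.ssubset_iff_subset_ne.mpr ⟨Finset.filter_subset _ _, fun h => hcR ?_⟩
      rw [h]
      exact Finset.mem_range.mpr hcq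
    have h3 := Finset.card_lt_card h2
    rwa [Finset.card_range] at h3
  · intro q _ h hh c hc hd
    rw [Rg, Finset.mem_filter, Finset.mem_range]
    exact ⟨hc, Or.inl ⟨h, hh, hd⟩⟩
  · intro q hq
    rw [Pgg, Finset.mem_filter, Finset.mem_Ioc] at hq
    exact ⟨hq.2.1, hq.1.1⟩
  · intro q _
    exact Finset.filter_subset _ _
  · intro q hq
    rw [Pgg, Finset.mem_filter] at hq
    exact tg_card G N H hn q hq.2.1
  · intro q hq t ht h hh hd
    rw [Pgg, Finset.mem_filter] at hq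
    rw [Tg, Finset.mem_filter] at ht
    apply hq.2.2
    rw [Zg, Finset.mem_filter]
    refine ⟨hq.1, hq.2.1, Or.inl ⟨h, hh, ?_⟩⟩
    have h1 : (N : ℤ) - G.eval (-(h : ℤ)) =
        ((N : ℤ) - G.eval (t : ℤ)) + (G.eval (t : ℤ) - G.eval (-(h : ℤ))) := by ring
    rw [h1]
    refine dvd_add ht.2 (Dvd.dvd.trans ?_ (Polynomial.sub_dvd_eval_sub (t : ℤ) (-(h : ℤ)) G))
    rw [sub_neg_eq_add]
    exact_mod_cast hd

theorem G1_abs_eval_le (G : ℤ[X]) {n t : ℕ} (ht : 1 ≤ t) (htn : t ≤ n) :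
    |((G.eval (t : ℤ) : ℤ) : ℝ)| ≤ H59.coeffSum G * (n : ℝ) ^ G.natDegree := by
  rw [eval_eq_sum_range]
  push_cast
  unfold H59.coeffSum
  rw [Finset.sum_mul]
  refine (Finset.abs_sum_le_sum_abs _ _).trans ?_
  refine Finset.sum_le_sum fun i hi => ?_
  rw [Finset.mem_range] at hi
  have hn' : (1 : ℝ) ≤ n := by exact_mod_cast ht.trans htn
  have ht' : (t : ℝ) ≤ n := by exact_mod_cast htn
  rw [abs_mul, abs_of_nonneg (by positivity : (0 : ℝ) ≤ (t : ℝ) ^ i)]
  calc |(G.coeff i : ℝ)| * (t : ℝ) ^ i ≤ |(G.coeff i : ℝ)| * (n : ℝ) ^ i := by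
        gcongr
    _ ≤ |(G.coeff i : ℝ)| * (n : ℝ) ^ G.natDegree := by
        gcongr
        omega

/-- Sizes. Proof. `argSet_eq`, `argCount_tendsto` (`H59/SchinzelCount.lean`). `n + 1` is not in `argSet`, so `N ≤ G(n + 1) ≤ coeffSum G (n + 1)^k ≤ 2^k coeffSum G n^k`. `|G(t)| ≤ coeffSum G n^k` for
`1 ≤ t ≤ n`, and `G(-h)` is bounded (`H` is fixed): `0 < N - G(-h) ≤ 2 N` for large `N`. -/
theorem size_G (G : ℤ[X]) (hG : 1 ≤ G.natDegree) (hl : 0 < G.leadingCoeff) (H : Finset ℕ) :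
    ∃ C : ℝ, 1 ≤ C ∧ ∃ N0 : ℕ, ∀ N : ℕ, N0 ≤ N →
      (∀ t : ℕ, 1 ≤ t → t ≤ H59.argCount G N → G.eval (t : ℤ) < N ∧
        (((N : ℤ) - G.eval (t : ℤ) : ℤ) : ℝ) ≤ C * (H59.argCount G N : ℝ) ^ G.natDegree) ∧
      (N : ℝ) ≤ C * (H59.argCount G N : ℝ) ^ G.natDegree ∧
      ∀ h ∈ H, 0 < (N : ℤ) - G.eval (-(h : ℤ)) ∧
        (((N : ℤ) - G.eval (-(h : ℤ)) : ℤ) : ℝ) ≤ C * (H59.argCount G N : ℝ) ^ G.natDegree := by
  classical
  have hG0 : G ≠ 0 := by rintro rfl; simp at hl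
  have hH1 : 1 ≤ H59.coeffSum G := H59.one_le_coeffSum hG0
  set S : ℝ := H59.coeffSum G with hS
  set k := G.natDegree with hk
  set M : ℕ := H.sup (fun h => (G.eval (-(h : ℤ))).natAbs) with hM
  have h2k : (1 : ℝ) ≤ 2 ^ k := one_le_pow₀ (by norm_num)
  obtain ⟨N0, hN0⟩ := Filter.eventually_atTop.mp ((H59.argSet_eq hG hl).and
    (((H59.argCount_tendsto hG hl).eventually_ge_atTop 1).and
      (Filter.eventually_ge_atTop (M + 1))))
  refine ⟨2 * 2 ^ k * S, by nlinarith, N0, fun N hN => ?_⟩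
  obtain ⟨h1, h2, h3⟩ := hN0 N hN
  set n := H59.argCount G N with hn
  have hn1 : (1 : ℝ) ≤ n := by exact_mod_cast h2
  have hnot : n + 1 ∉ H59.argSet G N := by
    rw [h1, Finset.mem_coe, Finset.mem_Icc]
    omega
  have hNle : (N : ℤ) ≤ G.eval ((n + 1 : ℕ) : ℤ) := by
    by_contra hcon
    push Not at hcon
    exact hnot ⟨by omega, by omega⟩
  have hNle' : (N : ℝ) ≤ S * ((n + 1 : ℕ) : ℝ) ^ k := by
    refine le_trans ?_ (H59.eval_le_coeffSum G (by omega))
    exact_mod_cast hNle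
  have h4 : ((n + 1 : ℕ) : ℝ) ^ k ≤ 2 ^ k * (n : ℝ) ^ k := by
    rw [← mul_pow]
    push_cast
    gcongr
    linarith
  have hS0 : 0 ≤ S := by linarith
  have hNle2 : (N : ℝ) ≤ S * (2 ^ k * (n : ℝ) ^ k) :=
    hNle'.trans (mul_le_mul_of_nonneg_left h4 hS0)
  have hnk : (0 : ℝ) ≤ (n : ℝ) ^ k := by positivity
  refine ⟨?_, ?_, ?_⟩
  · intro t ht htn
    have h5 : t ∈ H59.argSet G N := by
      rw [h1, Finset.mem_coe, Finset.mem_Icc]
      exact ⟨ht, htn⟩
    have h6 : 0 < (N : ℤ) - G.eval (t : ℤ) := h5.2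
    refine ⟨by linarith, ?_⟩
    have h7 := G1_abs_eval_le G ht htn
    have h8 := neg_abs_le ((G.eval (t : ℤ) : ℤ) : ℝ)
    push_cast
    have h9 : S * (n : ℝ) ^ k ≤ S * (2 ^ k * (n : ℝ) ^ k) := by
      refine mul_le_mul_of_nonneg_left ?_ hS0
      exact le_mul_of_one_le_left hnk h2k
    have h10 : 2 * 2 ^ k * S * (n : ℝ) ^ k = S * (2 ^ k * (n : ℝ) ^ k) + S * (2 ^ k * (n : ℝ) ^ k) := by
      ring
    rw [h10]
    linarith
  · have h10 : 2 * 2 ^ k * S * (n : ℝ) ^ k = S * (2 ^ k * (n : ℝ) ^ k) + S * (2 ^ k * (n : ℝ) ^ k) := by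
      ring
    have h11 : 0 ≤ S * (2 ^ k * (n : ℝ) ^ k) := by positivity
    rw [h10]
    linarith
  · intro h hh
    have h5 : (G.eval (-(h : ℤ))).natAbs ≤ M :=
      Finset.le_sup (f := fun h : ℕ => (G.eval (-(h : ℤ))).natAbs) hh
    have h6 : 0 < (N : ℤ) - G.eval (-(h : ℤ)) := by omega
    have h7 : (N : ℤ) - G.eval (-(h : ℤ)) ≤ 2 * N := by omega
    refine ⟨h6, ?_⟩
    have h8 : (((N : ℤ) - G.eval (-(h : ℤ)) : ℤ) : ℝ) ≤ 2 * N := by exact_mod_cast h7
    have h10 : 2 * 2 ^ k * S * (n : ℝ) ^ k = S * (2 ^ k * (n : ℝ) ^ k) + S * (2 ^ k * (n : ℝ) ^ k) := by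
      ring
    rw [h10]
    linarith

end Pool.Agent.Lib.H57C
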