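import Pool.Agent.Lib.H57C.P2
import Pool.Agent.Lib.H57C.BH3
import Pool.Agent.Lib.H57C.A2
import Pool.Agent.Lib.H57C.VP
import Pool.Agent.Lib.H57M.B8

/-!
# Chunk L1: the first sum and the negative part
-/

open Finset

namespace Pool.Agent.Lib.H57C

open Pool.Agent.Lib.H57M
open Pool.Agent.Lib.H59C (gq)

theorem l1_se (k : ℕ) : 750 ≤ se k := by
  unfold se
  have : (0 : ℝ) ≤ k := Nat.cast_nonneg _
  linarith

/-- The level. Proof. `(96 k + 122)/(600 k + 750) ≤ 1/6 - 4 θ` for `θ ≤ 1/1000`: `6 (96 k + 122) = 576 k + 732` and `24 θ (600 k + 750) ≤ 14.4 k + 18 ≤ 24 k + 18`. -/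
theorem l1_lev (n k : ℕ) (θ : ℝ) (hn : 1 ≤ n) (hθ : 0 < θ) (hθ1 : θ ≤ 1 / 1000) :
    ((z2 n k : ℝ)) ^ (96 * (k + 1) + 10 + 2 * 8) ≤ (n : ℝ) ^ (1 / 6 - 4 * θ) := by
  have hnr : (1 : ℝ) ≤ n := by exact_mod_cast hn
  have hn0 : (0 : ℝ) ≤ n := by linarith
  have hse := l1_se k
  have h1 : (z2 n k : ℝ) ≤ (n : ℝ) ^ (1 / se k) := Nat.floor_le (by positivity)
  refine (pow_le_pow_left₀ (Nat.cast_nonneg _) h1 _).trans ?_
  rw [← Real.rpow_natCast, ← Real.rpow_mul hn0]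
  refine Real.rpow_le_rpow_of_exponent_le hnr ?_
  have hk0 : (0 : ℝ) ≤ k := Nat.cast_nonneg _
  rw [one_div_mul_eq_div, div_le_iff₀ (by linarith)]
  unfold se
  push_cast
  nlinarith

/-- large `n` -/
theorem l1_facts (k B : ℕ) (hB : 3 ≤ B) : ∃ n0 : ℕ, ∀ n : ℕ, n0 ≤ n → ∀ W : ℕ,
    W = ⌈Real.log n ^ B⌉₊ → 1000 ≤ n ∧ 100 * ((k : ℝ) + 1) ≤ Real.log n ∧ Real.log n ^ 3 ≤ W ∧
    8 * (k + 1) + 8 ≤ W ∧ (W : ℝ) + 1 ≤ (n : ℝ) ^ (1 / se k) ∧ 2 ≤ z2 n k ∧ W * 100 ≤ n := by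
  have hse := l1_se k
  obtain ⟨n0, hn0⟩ := vp_large B (1 / se k) (100 * ((k : ℝ) + 1)) (by positivity)
  refine ⟨n0, fun n hn W hW => ?_⟩
  obtain ⟨hn1000, hL, hlarge⟩ := hn0 n hn
  set L : ℝ := Real.log n with hLd
  have hk0 : (0 : ℝ) ≤ k := Nat.cast_nonneg _
  have hL0 : 100 ≤ L := by linarith
  have hnr : (1000 : ℝ) ≤ n := by exact_mod_cast hn1000
  have hWl : L ^ B ≤ W := by rw [hW]; exact Nat.le_ceil _
  have hWu : (W : ℝ) ≤ L ^ B + 1 := by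
    rw [hW]
    exact (Nat.ceil_lt_add_one (by positivity)).le
  have hW3 : L ^ 3 ≤ W := (pow_le_pow_right₀ (by linarith) hB).trans hWl
  have hWL : L ≤ W := by
    refine le_trans ?_ hW3
    calc L = L ^ 1 := (pow_one L).symm
      _ ≤ L ^ 3 := pow_le_pow_right₀ (by linarith) (by norm_num)
  set v : ℝ := (n : ℝ) ^ (1 / se k) with hv
  have hWv : (W : ℝ) + 1 ≤ v := by linarith
  refine ⟨hn1000, hL, hW3, ?_, hWv, ?_, ?_⟩
  · have : ((8 * (k + 1) + 8 : ℕ) : ℝ) ≤ W := by push_cast; linarith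
    exact_mod_cast this
  · unfold z2
    apply Nat.le_floor
    push_cast
    linarith
  · have h1 : v ^ se k = n := by
      rw [hv, ← Real.rpow_mul (by linarith), one_div, inv_mul_cancel₀ (by linarith), Real.rpow_one]
    have h2 : v ^ (2 : ℝ) ≤ v ^ se k := Real.rpow_le_rpow_of_exponent_le (by linarith) (by linarith)
    rw [h1, Real.rpow_two] at h2
    have h3 : (W : ℝ) * 100 ≤ n := by nlinarith
    exact_mod_cast h3

theorem l1_Q {k n W : ℕ} {T : ℕ → Finset ℕ} {P' : Finset ℕ} (h1 : ∀ q ∈ P', q.Prime ∧ W < q)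
    (h2 : ∀ q ∈ P', (T q).card ≤ k) :
    ∀ q ∈ Q2 P' n k, q.Prime ∧ W < q ∧ (T q).card ≤ k ∧ q ≤ z2 n k ∧ q ∈ P' := by
  intro q hq
  unfold Q2 at hq
  rw [Finset.mem_filter] at hq
  exact ⟨(h1 q hq.1).1, (h1 q hq.1).2, h2 q hq.1, hq.2, hq.1⟩

theorem l1_Lv (n k : ℕ) (θ : ℝ) (hn : 1 ≤ n) (hθ : 0 < θ) (hθ1 : θ ≤ 1 / 1000) :
    z2 n k ^ (96 * (k + 1) + 10 + 2 * 8) ≤ Lv n θ := by
  unfold Lv
  apply Nat.le_floor
  push_cast
  refine (l1_lev n k θ hn hθ hθ1).trans ?_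
  refine Real.rpow_le_rpow_of_exponent_le (by exact_mod_cast hn) ?_
  linarith

theorem l1_FF {K : ℕ} (w : Par K) (H : Finset ℕ) (i : Option ℕ) (t : ℕ) : 0 ≤ FF w H i t := by
  unfold FF
  have h1 := w.z_bounds.1
  have h2 : 0 < w.z ^ K := by positivity
  exact div_nonneg (sq_nonneg _) h2.le

theorem l1_Sg (Q : Finset ℕ) (R : ℕ → Finset ℕ) (t : ℕ) : 0 ≤ Sg Q R t := by
  unfold Sg
  split_ifs <;> norm_num

theorem l1_VaR {Q : Finset ℕ} {R : ℕ → Finset ℕ} (h : ∀ q ∈ Q, (R q).card < q) : 0 ≤ VaR Q R := by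
  unfold VaR
  refine Finset.prod_nonneg fun q hq => ?_
  have h1 := h q hq
  have h2 : ((R q).card : ℝ) ≤ q := by exact_mod_cast h1.le
  have h3 : (0 : ℝ) < q := by
    have : 0 < q := by omega
    exact_mod_cast this
  have h4 : ((R q).card : ℝ) / q ≤ 1 := (div_le_one h3).2 h2
  linarith

theorem l1_Ps {W p1 q : ℕ} (hq : q ∈ Ps W p1) : q.Prime := by
  unfold Ps at hq
  exact (Finset.mem_filter.1 hq).2.1

theorem l1_VbR {W p1 : ℕ} {R : ℕ → Finset ℕ} (h : ∀ q ∈ Ps W p1, (R q).card < q) :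
    0 ≤ VbR (Ps W p1) R := by
  unfold VbR
  refine mul_nonneg (l1_VaR h) (Finset.prod_nonneg fun q hq => ?_)
  have h1 : (2 : ℝ) ≤ q := by exact_mod_cast (l1_Ps hq).two_le
  exact div_nonneg (by linarith) (by linarith)

theorem l1_XX (y1 y2 : ℕ) : 0 ≤ H59C.XX y1 y2 := by
  unfold H59C.XX
  refine Finset.sum_nonneg fun p hp => ?_
  unfold H59C.Sq at hp
  have h1 := (Finset.mem_filter.1 hp).2
  unfold H59C.lg
  exact Real.log_nonneg (by exact_mod_cast h1.one_lt.le)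

theorem l1_XhR {B cF k : ℕ} {θ Ga : ℝ} {K : ℕ} {w : Par K} {H : Finset ℕ} {n p1 : ℕ}
    {R T : ℕ → Finset ℕ} {P' : Finset ℕ} (hR : Reg2 B cF k θ Ga w H n p1 R T P') {h : ℕ}
    (hh : h ∈ H) : 0 ≤ AE w.P H (some h) (FC w H) ∧ 0 ≤ XhR w H n p1 h R := by
  have h1 : 0 ≤ AE w.P H (some h) (FC w H) := le_trans (by positivity) (hR.aes h hh)
  refine ⟨h1, ?_⟩
  unfold XhR
  exact mul_nonneg (l1_XX _ _) (mul_nonneg h1 (l1_VbR hR.Rq))

theorem l1_whR {K : ℕ} (w : Par K) (H : Finset ℕ) (n p1 h : ℕ) (R : ℕ → Finset ℕ) (p : ℕ)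
    (hp : p ∈ Sh n h) : 0 ≤ whR w H p1 h R p := by
  unfold whR
  refine mul_nonneg ?_ (mul_nonneg (l1_FF _ _ _ _) (l1_Sg _ _ _))
  unfold Sh H59C.Sq at hp
  have h1 := (Finset.mem_filter.1 hp).2
  unfold H59C.lg
  exact Real.log_nonneg (by exact_mod_cast h1.one_lt.le)

open Classical in
/-- the function `g` of the sieve for the primes -/
noncomputable def l1_g (T : ℕ → Finset ℕ) (Q : Finset ℕ) (q : ℕ) : ℝ :=
  if q ∈ Q then ((T q).card : ℝ) * gq q else 0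

theorem l1_g_eq {T : ℕ → Finset ℕ} {Q : Finset ℕ} {q : ℕ} (hq : q ∈ Q) :
    l1_g T Q q = ((T q).card : ℝ) * gq q := by
  unfold l1_g
  rw [if_pos hq]

theorem l1_gq {q : ℕ} (hq : q.Prime) : 0 ≤ gq q := by
  unfold gq
  have h1 : (2 : ℝ) ≤ q := by exact_mod_cast hq.two_le
  exact div_nonneg (by norm_num) (by linarith)

theorem l1_g0 {T : ℕ → Finset ℕ} {Q : Finset ℕ} (hQ : ∀ q ∈ Q, q.Prime) (q : ℕ) :
    0 ≤ l1_g T Q q := by
  unfold l1_g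
  split_ifs with h
  · exact mul_nonneg (Nat.cast_nonneg _) (l1_gq (hQ q h))
  · exact le_rfl

theorem l1_gk {k W : ℕ} {T : ℕ → Finset ℕ} {Q : Finset ℕ} (hW : k + 1 ≤ W)
    (hQ : ∀ q ∈ Q, q.Prime ∧ W < q ∧ (T q).card ≤ k) :
    ∀ q ∈ Q, l1_g T Q q ≤ ((k + 1 : ℕ) : ℝ) / q := by
  intro q hq
  obtain ⟨h1, h2, h3⟩ := hQ q hq
  rw [l1_g_eq hq]
  unfold gq
  have h4 : ((T q).card : ℝ) ≤ k := by exact_mod_cast h3
  have h5 : ((k + 1 : ℕ) : ℝ) ≤ q := by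
    have : k + 1 ≤ q := by omega
    exact_mod_cast this
  push_cast at h5 ⊢
  have hk0 : (0 : ℝ) ≤ k := Nat.cast_nonneg _
  have h6 : (2 : ℝ) ≤ q := by exact_mod_cast h1.two_le
  rw [mul_one_div, div_le_div_iff₀ (by linarith) (by linarith)]
  nlinarith

/-- Proof. `bhc` with `k + 1`, `c = 8`, `z = z2 n k`, `Q = Q2 P' n k`, `g q = #T q gq q` (`≤ k/(q - 1) ≤ (k + 1)/q` as `q > W ≥ k + 1`; put `g q = 0` for `q ∉ Q`),
`S = Sh n h`, `wt = whR`, `ev q p = (p - h) % q ∈ T q`, `X = XhR`. `hRm`: the `d ≤ z2^(96 (k+1) + 26) ≤ Lv n θ` (`l1_lev`) composed of primes of `Q` are in `Dv P' (Lv n θ)`, and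
`∀ q ∈ d.primeFactors, ev q p` is `inT T d (p - h)`: `Reg2.remB`. -/
theorem S1R_low (K B cF k : ℕ) (θ Ga : ℝ) (hK : 1 ≤ K) (hk : 1 ≤ k) (hB : 3 ≤ B) (hθ : 0 < θ)
    (hθ1 : θ ≤ 1 / 1000) : ∃ n0 : ℕ, ∀ n : ℕ, n0 ≤ n → ∀ (w : Par K) (H : Finset ℕ) (p1 : ℕ)
    (R T : ℕ → Finset ℕ) (P' : Finset ℕ), Reg2 B cF k θ Ga w H n p1 R T P' → ∀ h ∈ H,
    (1 - 1 / 512) * (XhR w H n p1 h R * V1R T (Q2 P' n k)) - n / Real.log n ^ (k + 12) ≤
      S1R w H n k p1 h R T P' := by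
  classical
  obtain ⟨n0, hn0⟩ := l1_facts k B hB
  refine ⟨n0, fun n hn w H p1 R T P' hR h hh => ?_⟩
  obtain ⟨hn1000, hL, hW3, hW8, hWv, hz, hWn⟩ := hn0 n hn w.W hR.Wdef
  have hQ := l1_Q (n := n) (k := k) hR.P'p hR.Tk
  set Q := Q2 P' n k with hQd
  have hrem := hR.remB h hh
  have hbh := (bhc (k + 1) 8 (z2 n k) hz (by omega) (by decide) Q
    (fun q hq => by
      obtain ⟨h1, h2, h3, h4, -⟩ := hQ q hq
      exact ⟨h1, by omega, h4⟩) (l1_g T Q) (l1_g0 fun q hq => (hQ q hq).1)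
    (l1_gk (by omega) fun q hq => ⟨(hQ q hq).1, (hQ q hq).2.1, (hQ q hq).2.2.1⟩)
    (Sh n h) (whR w H p1 h R) (fun p hp => l1_whR w H n p1 h R p hp)
    (fun q p => (p - h) % q ∈ T q) (XhR w H n p1 h R) (l1_XhR hR hh).2
    (n / Real.log n ^ (k + 12)) (by
      refine le_trans ?_ hrem
      have hsub : (Icc 1 (z2 n k ^ (96 * (k + 1) + 10 + 2 * 8))).filter
          (fun d => Squarefree d ∧ ∀ q ∈ d.primeFactors, q ∈ Q) ⊆ Dv P' (Lv n θ) := by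
        intro d hd
        rw [Finset.mem_filter, Finset.mem_Icc] at hd
        unfold Dv
        rw [Finset.mem_filter, Finset.mem_Icc]
        exact ⟨⟨hd.1.1, hd.1.2.trans (l1_Lv n k θ (by omega) hθ hθ1)⟩, hd.2.1,
          fun q hq => (hQ q (hd.2.2 q hq)).2.2.2.2⟩
      refine le_trans (le_of_eq ?_) (Finset.sum_le_sum_of_subset_of_nonneg hsub fun d _ _ => abs_nonneg _)
      refine Finset.sum_congr rfl fun d hd => ?_
      rw [Finset.mem_filter] at hd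
      congr 2
      · refine Finset.sum_congr ?_ fun _ _ => rfl
        ext t
        simp only [Finset.mem_filter, inT, Sh]
      · unfold XhR
        congr 1
        exact Finset.prod_congr rfl fun q hq => l1_g_eq (hd.2.2 q hq))).1
  have h1 : ∏ q ∈ Q, (1 - l1_g T Q q) = V1R T Q := by
    unfold V1R
    exact Finset.prod_congr rfl fun q hq => by rw [l1_g_eq hq]
  rw [h1] at hbh
  have h2 : (1 - 1 / 512) * (XhR w H n p1 h R * V1R T Q) =
      (1 - 1 / 2 ^ (8 + 1)) * XhR w H n p1 h R * V1R T Q := by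
    norm_num
    ring
  rw [h2]
  refine hbh.trans (le_of_eq ?_)
  unfold S1R
  refine Finset.sum_congr ?_ fun _ _ => rfl
  ext t
  simp only [Finset.mem_filter, ← hQd]

/-- Proof. `bhc` (or `bh`, `c = 0`) with `k + 1`, `g q = #T q/q`, `S = (Ya, Yb]`, `wt t = FF none t Sg t`, `ev q t = t % q ∈ T q`, `Reg2.remI`. The main term is at most
`(1 + 1/256) (Yb - Ya) AE VaR V0R ≤ 2 (n/8) (11/10) VaR V0R` (`aen`). -/
theorem NsR_up (K B cF k : ℕ) (θ Ga : ℝ) (hK : 1 ≤ K) (hk : 1 ≤ k) (hB : 3 ≤ B) (hθ : 0 < θ)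
    (hθ1 : θ ≤ 1 / 1000) : ∃ n0 : ℕ, ∀ n : ℕ, n0 ≤ n → ∀ (w : Par K) (H : Finset ℕ) (p1 : ℕ)
    (R T : ℕ → Finset ℕ) (P' : Finset ℕ), Reg2 B cF k θ Ga w H n p1 R T P' →
    NsR w H n k p1 R T P' ≤ n / 3 * (VaR (Ps w.W p1) R * V0R T (Q2 P' n k)) +
      n / Real.log n ^ (k + 12) := by
  classical
  obtain ⟨n0, hn0⟩ := l1_facts k B hB
  refine ⟨n0, fun n hn w H p1 R T P' hR => ?_⟩
  obtain ⟨hn1000, hL, hW3, hW8, hWv, hz, hWn⟩ := hn0 n hn w.W hR.Wdef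
  have hQ := l1_Q (n := n) (k := k) hR.P'p hR.Tk
  set Q := Q2 P' n k with hQd
  have hrem := hR.remI
  have hYab : (Ya n : ℝ) ≤ Yb n := by
    have : Ya n ≤ Yb n := by unfold Ya Yb; omega
    exact_mod_cast this
  have hYd : (Yb n : ℝ) - Ya n ≤ n / 8 := by
    have h1 : 8 * Yb n ≤ 8 * Ya n + n := by unfold Ya Yb; omega
    have h2 : (8 : ℝ) * Yb n ≤ 8 * Ya n + n := by exact_mod_cast h1
    linarith
  have hVa0 := l1_VaR hR.Rq
  set X : ℝ := ((Yb n : ℝ) - Ya n) * (AE w.P H none (FC w H) * VaR (Ps w.W p1) R) with hX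
  have hX0 : 0 ≤ X := mul_nonneg (by linarith) (mul_nonneg hR.aen0 hVa0)
  have hbh := (bhc (k + 1) 8 (z2 n k) hz (by omega) (by decide) Q
    (fun q hq => by
      obtain ⟨h1, h2, h3, h4, -⟩ := hQ q hq
      exact ⟨h1, by omega, h4⟩) (fun q => ((T q).card : ℝ) * (1 / (q : ℝ)))
    (fun q => by positivity)
    (fun q hq => by
      have h3 := (hQ q hq).2.2.1
      have h4 : ((T q).card : ℝ) ≤ ((k + 1 : ℕ) : ℝ) := by exact_mod_cast h3.trans (Nat.le_succ k)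
      rw [mul_one_div]
      exact div_le_div_of_nonneg_right h4 (Nat.cast_nonneg _))
    (Ioc (Ya n) (Yb n)) (fun t => FF w H none t * Sg (Ps w.W p1) R t)
    (fun t _ => mul_nonneg (l1_FF _ _ _ _) (l1_Sg _ _ _))
    (fun q t => t % q ∈ T q) X hX0
    (n / Real.log n ^ (k + 12)) (by
      refine le_trans ?_ hrem
      have hsub : (Icc 1 (z2 n k ^ (96 * (k + 1) + 10 + 2 * 8))).filter
          (fun d => Squarefree d ∧ ∀ q ∈ d.primeFactors, q ∈ Q) ⊆ Dv P' (Lv n θ) := by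
        intro d hd
        rw [Finset.mem_filter, Finset.mem_Icc] at hd
        unfold Dv
        rw [Finset.mem_filter, Finset.mem_Icc]
        exact ⟨⟨hd.1.1, hd.1.2.trans (l1_Lv n k θ (by omega) hθ hθ1)⟩, hd.2.1,
          fun q hq => (hQ q (hd.2.2 q hq)).2.2.2.2⟩
      refine le_trans (le_of_eq ?_) (Finset.sum_le_sum_of_subset_of_nonneg hsub fun d _ _ => abs_nonneg _)
      refine Finset.sum_congr rfl fun d hd => ?_
      rw [Finset.mem_filter] at hd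
      congr 2
      refine Finset.sum_congr ?_ fun _ _ => rfl
      ext t
      simp only [Finset.mem_filter, inT])).2
  have h0 : NsR w H n k p1 R T P' ≤ (1 + 1 / 2 ^ 8) * X * V0R T Q + n / Real.log n ^ (k + 12) := by
    refine le_trans (le_of_eq ?_) hbh
    unfold NsR
    refine Finset.sum_congr ?_ fun _ _ => rfl
    ext t
    simp only [Finset.mem_filter, ← hQd]
  refine h0.trans (add_le_add ?_ le_rfl)
  have hV0 : 0 ≤ V0R T Q := by
    unfold V0R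
    refine Finset.prod_nonneg fun q hq => ?_
    obtain ⟨h1, h2, h3, -, -⟩ := hQ q hq
    have h4 : ((T q).card : ℝ) ≤ q := by
      have : (T q).card ≤ q := by omega
      exact_mod_cast this
    have h5 : ((T q).card : ℝ) * (1 / (q : ℝ)) ≤ 1 := by
      rw [mul_one_div]
      exact div_le_one_of_le₀ h4 (Nat.cast_nonneg _)
    linarith
  have hn0' : (0 : ℝ) ≤ n := Nat.cast_nonneg _
  have h1 : ((Yb n : ℝ) - Ya n) * AE w.P H none (FC w H) ≤ n / 8 * (11 / 10) :=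
    mul_le_mul hYd hR.aen hR.aen0 (by positivity)
  have h2 : 0 ≤ VaR (Ps w.W p1) R * V0R T Q := mul_nonneg hVa0 hV0
  calc (1 + 1 / 2 ^ 8) * X * V0R T Q = (1 + 1 / 2 ^ 8) * (((Yb n : ℝ) - Ya n) * AE w.P H none (FC w H)) *
        (VaR (Ps w.W p1) R * V0R T Q) := by
        rw [hX]
        ring
    _ ≤ (1 + 1 / 2 ^ 8) * (n / 8 * (11 / 10)) * (VaR (Ps w.W p1) R * V0R T Q) :=
        mul_le_mul_of_nonneg_right (mul_le_mul_of_nonneg_left h1 (by norm_num)) h2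
    _ ≤ n / 3 * (VaR (Ps w.W p1) R * V0R T Q) := by
        refine mul_le_mul_of_nonneg_right ?_ h2
        linarith

end Pool.Agent.Lib.H57C
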