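import Pool.Agent.Lib.H57C.P2
import Pool.Agent.Lib.H59C.MER0

/-!
# Chunk MS: the sum over the primes with weights, and the numerical constant
-/

open Finset

namespace Pool.Agent.Lib.H57C

open Pool.Agent.Lib.H59C (gq)

theorem ms_sq (a b : ℕ) (ha : 1 ≤ a) : ∑ q ∈ Ioc a b, 1 / ((q : ℝ) * (q - 1)) ≤ 2 / a := by
  rcases le_or_gt a b with hab | hab
  · have h1 := sum_Ioc_inv_sq_le_sub (α := ℝ) (k := a) (n := b) (by omega) hab
    have h2 : ∑ q ∈ Ioc a b, 1 / ((q : ℝ) * (q - 1)) ≤ 2 * ∑ q ∈ Ioc a b, ((q : ℝ) ^ 2)⁻¹ := by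
      rw [mul_sum]
      apply sum_le_sum
      intro q hq
      rw [mem_Ioc] at hq
      have h3 : (2 : ℝ) ≤ q := by
        have : 2 ≤ q := by omega
        exact_mod_cast this
      rw [← one_div, mul_one_div, div_le_div_iff₀ (by nlinarith) (by positivity)]
      nlinarith
    have h4 : (0 : ℝ) ≤ (b : ℝ)⁻¹ := by positivity
    calc _ ≤ 2 * ∑ q ∈ Ioc a b, ((q : ℝ) ^ 2)⁻¹ := h2
      _ ≤ 2 * (a : ℝ)⁻¹ := by linarith
      _ = 2 / a := by ring
  · rw [Ioc_eq_empty (by omega), sum_empty]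
    positivity

theorem ms_log (u v : ℝ) (huv : u ≤ v) :
    ∑ q ∈ (Ioc ⌊u⌋₊ ⌊v⌋₊).filter Nat.Prime, Real.log q / q =
      ∑ k ∈ Icc 0 ⌊v⌋₊, H59C.MER0_c k - ∑ k ∈ Icc 0 ⌊u⌋₊, H59C.MER0_c k := by
  have h1 : Icc 0 ⌊v⌋₊ = Icc 0 ⌊u⌋₊ ∪ Ioc ⌊u⌋₊ ⌊v⌋₊ := by
    have := Nat.floor_le_floor huv
    ext x
    simp only [mem_union, mem_Icc, mem_Ioc]
    omega
  have h2 : Disjoint (Icc 0 ⌊u⌋₊) (Ioc ⌊u⌋₊ ⌊v⌋₊) := by
    rw [Finset.disjoint_left]
    intro x hx hx'
    simp only [mem_Icc, mem_Ioc] at hx hx'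
    omega
  rw [h1, sum_union h2, add_sub_cancel_left, sum_filter]
  apply sum_congr rfl
  intro x _
  unfold H59C.MER0_c
  split_ifs <;> rfl

theorem ms_num {L s C1 C2 z : ℝ} (hs : 0 < s) (hL : 0 < L)
    (h1 : (3 * Real.log 2 + 6 * C2 + C1 * s) / L ≤ 1 / 2000) (h2 : 2 / z ≤ 1 / 2000) :
    (Real.log (L / 3 + Real.log 2) - Real.log (L / s) + C1 / (L / s)) -
      3 / L * ((L / 3 - C2) - (L / s + C2)) + 2 / z ≤ Real.log (s / 3) - 1 + 3 / s + 1 / 1000 := by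
  have hl2 : 0 < Real.log 2 := Real.log_pos (by norm_num)
  have e1 : Real.log (L / 3 + Real.log 2) - Real.log (L / s) =
      Real.log (s / 3) + Real.log (1 + 3 * Real.log 2 / L) := by
    rw [← Real.log_div (by positivity) (by positivity), ← Real.log_mul (by positivity)
      (by positivity)]
    congr 1
    field_simp
  have e2 : Real.log (1 + 3 * Real.log 2 / L) ≤ 3 * Real.log 2 / L := by
    have := Real.log_le_sub_one_of_pos (x := 1 + 3 * Real.log 2 / L) (by positivity)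
    linarith
  have e3 : 3 / L * ((L / 3 - C2) - (L / s + C2)) = 1 - 3 / s - 6 * C2 / L := by
    field_simp
    ring
  have e4 : C1 / (L / s) = C1 * s / L := by
    field_simp
  have e5 : (3 * Real.log 2 + 6 * C2 + C1 * s) / L =
      3 * Real.log 2 / L + 6 * C2 / L + C1 * s / L := by ring
  rw [e1, e3, e4]
  linarith

/-- Proof. `s = se k`, `z2 = ⌊n^(1/s)⌋`. `∑ 1/(q-1) ≤ ∑ 1/q + 2/z2`. By `mertens` `∑_{n^(1/s) < q ≤ n^(1/3)} 1/q = log (s/3) + O(1/log n)`, and by `MER0_first`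
(`∑_{q ≤ t} (log q)/q = log t + O(1)`, `MER0_c`) `∑_{n^(1/s) < q ≤ n^(1/3)} (log q)/q = (1/3 - 1/s) log n + O(1)`. So the sum is
`log (s/3) - 3 (1/3 - 1/s) + O(1/log n)`. -/
theorem ms (k : ℕ) : ∃ n0 : ℕ, ∀ n : ℕ, n0 ≤ n →
    ∑ q ∈ (Ioc (z2 n k) n).filter (fun q => q.Prime ∧ q ^ 3 ≤ n), wq n q * gq q ≤
      Real.log (se k / 3) - 1 + 3 / se k + 1 / 1000 := by
  obtain ⟨C1, hC1, hm⟩ := H59C.mertens
  obtain ⟨C2, hC2, hf⟩ := H59C.MER0_first
  have hs : (750 : ℝ) ≤ se k := by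
    unfold se
    have : (0 : ℝ) ≤ k := Nat.cast_nonneg _
    linarith
  have hs0 : 0 < se k := by linarith
  have hl2 : 0 < Real.log 2 := Real.log_pos (by norm_num)
  have ht1 : Filter.Tendsto (fun n : ℕ => Real.log (n : ℝ)) Filter.atTop Filter.atTop :=
    Real.tendsto_log_atTop.comp tendsto_natCast_atTop_atTop
  have ht2 : Filter.Tendsto (fun n : ℕ => (n : ℝ) ^ (1 / se k)) Filter.atTop Filter.atTop :=
    (tendsto_rpow_atTop (by positivity)).comp tendsto_natCast_atTop_atTop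
  obtain ⟨n0, hn0⟩ := Filter.eventually_atTop.1
    ((ht1.eventually_ge_atTop (2000 * (3 * Real.log 2 + 6 * C2 + C1 * se k) + 1)).and
      ((ht2.eventually_ge_atTop 4001).and (Filter.eventually_ge_atTop 1)))
  refine ⟨n0, fun n hn => ?_⟩
  obtain ⟨hL, hu, hn1⟩ := hn0 n hn
  have hn1R : (1 : ℝ) ≤ n := by exact_mod_cast hn1
  obtain ⟨L, hLd⟩ : ∃ L : ℝ, L = Real.log n := ⟨_, rfl⟩
  obtain ⟨u, hud⟩ : ∃ u : ℝ, u = (n : ℝ) ^ (1 / se k) := ⟨_, rfl⟩
  obtain ⟨v, hvd⟩ : ∃ v : ℝ, v = (n : ℝ) ^ (1 / 3 : ℝ) := ⟨_, rfl⟩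
  rw [← hud] at hu
  rw [← hLd] at hL
  have hL0 : 0 < L := by
    have : 0 < 2000 * (3 * Real.log 2 + 6 * C2 + C1 * se k) := by positivity
    linarith
  have hlu : Real.log u = L / se k := by
    rw [hud, Real.log_rpow (by linarith), ← hLd]; ring
  have hlv : Real.log v = L / 3 := by
    rw [hvd, Real.log_rpow (by linarith), ← hLd]; ring
  have huv : u ≤ v := by
    rw [hud, hvd]
    apply Real.rpow_le_rpow_of_exponent_le hn1R
    rw [div_le_div_iff₀ hs0 (by norm_num)]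
    linarith
  have hz : z2 n k = ⌊u⌋₊ := by
    unfold z2
    rw [hud]
  have hz1 : (4000 : ℝ) ≤ z2 n k := by
    rw [hz]
    have := Nat.lt_floor_add_one u
    linarith
  have hz1' : 1 ≤ z2 n k := by
    have : (1 : ℝ) ≤ z2 n k := by linarith
    exact_mod_cast this
  have hv3 : ∀ q : ℕ, ((q : ℝ) ≤ v ↔ q ^ 3 ≤ n) := by
    intro q
    have h3 : v ^ 3 = n := by
      rw [hvd, ← Real.rpow_natCast, ← Real.rpow_mul (by linarith)]
      norm_num
    have hv0 : 0 ≤ v := by linarith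
    constructor
    · intro h
      have h4 : (q : ℝ) ^ 3 ≤ v ^ 3 := pow_le_pow_left₀ (Nat.cast_nonneg _) h 3
      rw [h3] at h4
      exact_mod_cast h4
    · intro h
      have h4 : (q : ℝ) ^ 3 ≤ v ^ 3 := by
        rw [h3]
        exact_mod_cast h
      exact le_of_pow_le_pow_left₀ (by norm_num) hv0 h4
  have hF : (Ioc (z2 n k) n).filter (fun q => q.Prime ∧ q ^ 3 ≤ n) =
      (Ioc ⌊u⌋₊ ⌊v⌋₊).filter Nat.Prime := by
    ext q
    rw [mem_filter, mem_filter, mem_Ioc, mem_Ioc, hz, Nat.le_floor_iff (by linarith), hv3]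
    constructor
    · rintro ⟨⟨h1, h2⟩, h3, h4⟩
      exact ⟨⟨h1, h4⟩, h3⟩
    · rintro ⟨⟨h1, h2⟩, h3⟩
      refine ⟨⟨h1, ?_⟩, h3, h2⟩
      exact (Nat.le_self_pow (by norm_num) q).trans h2
  rw [hF]
  have hA : ∀ q ∈ (Ioc ⌊u⌋₊ ⌊v⌋₊).filter Nat.Prime, wq n q * gq q ≤
      1 / (q : ℝ) - 3 / L * (Real.log q / q) + 1 / ((q : ℝ) * (q - 1)) := by
    intro q hq
    rw [mem_filter, mem_Ioc, Nat.le_floor_iff (by linarith)] at hq
    have hq2 : (2 : ℝ) ≤ q := by exact_mod_cast hq.2.two_le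
    have hlq0 : 0 ≤ Real.log q := Real.log_natCast_nonneg q
    have hlq : Real.log q ≤ L / 3 := by
      rw [← hlv]
      exact Real.log_le_log (by linarith) hq.1.2
    unfold wq gq
    rw [← hLd]
    have hw0 : 0 ≤ 3 * Real.log q / L := by positivity
    have e1 : 1 / ((q : ℝ) - 1) = 1 / q + 1 / ((q : ℝ) * (q - 1)) := by
      have : (q : ℝ) - 1 ≠ 0 := by linarith
      field_simp
      ring
    rw [e1]
    have e2 : 0 ≤ 1 / ((q : ℝ) * (q - 1)) := by
      apply div_nonneg zero_le_one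
      nlinarith
    have e3 : 3 / L * (Real.log q / q) = 3 * Real.log q / L * (1 / q) := by ring
    rw [e3]
    nlinarith
  refine (sum_le_sum hA).trans ?_
  rw [sum_add_distrib, sum_sub_distrib, ← mul_sum]
  have hB : ∑ q ∈ (Ioc ⌊u⌋₊ ⌊v⌋₊).filter Nat.Prime, 1 / (q : ℝ) ≤
      Real.log (L / 3 + Real.log 2) - Real.log (L / se k) + C1 / (L / se k) := by
    have h1 := hm u (2 * v) (by linarith) (by linarith)
    rw [hlu, Real.log_mul (by norm_num) (by linarith), hlv, add_comm (Real.log 2)] at h1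
    have h2 := (abs_le.1 h1).2
    have h3 : ∑ q ∈ (Ioc ⌊u⌋₊ ⌊v⌋₊).filter Nat.Prime, 1 / (q : ℝ) ≤
        ∑ q ∈ H59C.PR u (2 * v), 1 / (q : ℝ) := by
      apply sum_le_sum_of_subset_of_nonneg
      · intro q hq
        rw [mem_filter, mem_Ioc, Nat.le_floor_iff (by linarith)] at hq
        rw [H59C.mem_PR]
        refine ⟨hq.2, ?_, by linarith⟩
        exact ((Nat.floor_lt (by linarith)).1 hq.1.1).le
      · intro _ _ _
        positivity
    linarith
  have hC : (L / 3 - C2) - (L / se k + C2) ≤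
      ∑ q ∈ (Ioc ⌊u⌋₊ ⌊v⌋₊).filter Nat.Prime, Real.log q / q := by
    rw [ms_log u v huv]
    have h1 := (abs_le.1 (hf v (by linarith))).1
    have h2 := (abs_le.1 (hf u (by linarith))).2
    rw [hlv] at h1
    rw [hlu] at h2
    linarith
  have hD : ∑ q ∈ (Ioc ⌊u⌋₊ ⌊v⌋₊).filter Nat.Prime, 1 / ((q : ℝ) * (q - 1)) ≤ 2 / (z2 n k) := by
    refine le_trans ?_ (ms_sq (z2 n k) ⌊v⌋₊ hz1')
    rw [hz]
    apply sum_le_sum_of_subset_of_nonneg (filter_subset _ _)
    intro q hq _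
    rw [mem_Ioc] at hq
    have : (1 : ℝ) ≤ q := by
      have : 1 ≤ q := by omega
      exact_mod_cast this
    apply div_nonneg zero_le_one
    nlinarith
  have hE := ms_num (L := L) (s := se k) (C1 := C1) (C2 := C2) (z := (z2 n k : ℝ)) hs0 hL0
    (by
      rw [div_le_div_iff₀ hL0 (by norm_num)]
      linarith) (by
      rw [div_le_div_iff₀ (by linarith) (by norm_num)]
      linarith)
  have hG : 3 / L * ((L / 3 - C2) - (L / se k + C2)) ≤
      3 / L * ∑ q ∈ (Ioc ⌊u⌋₊ ⌊v⌋₊).filter Nat.Prime, Real.log q / q :=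
    mul_le_mul_of_nonneg_left hC (by positivity)
  linarith

/-- Proof. `se k/3 = 200 k + 250 ≤ 225 (k + 1)`, `log 225 ≤ 5.4162`, `3/se k ≤ 1/450`. With `l = log (k + 1) ≥ log 2 ≥ 0.693`: the claim is
`(1 + 1/256) (5.4162 - 1 + 1/450 + 1/1000 + l) ≤ (1 - 1/512 - 1/100) (4.49 + 1.05 l)`; it is linear in `l`, and true at `l = 0.693`. -/
theorem num (k : ℕ) (hk : 1 ≤ k) :
    0 < lam k ∧ (1 + 1 / 256) * (k * (Real.log (se k / 3) - 1 + 3 / se k + 1 / 1000)) ≤
      (1 - 1 / 512 - 1 / 100) * lam k := by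
  have hk1 : (1 : ℝ) ≤ k := by exact_mod_cast hk
  obtain ⟨l, hl⟩ : ∃ l : ℝ, l = Real.log ((k : ℝ) + 1) := ⟨_, rfl⟩
  have h2 := Real.log_two_gt_d9
  have h2' := Real.log_two_lt_d9
  have hl1 : 0.693 ≤ l := by
    rw [hl]
    have : Real.log 2 ≤ Real.log ((k : ℝ) + 1) := Real.log_le_log (by norm_num) (by linarith)
    linarith
  have h225 : Real.log 225 ≤ 5.4241 := by
    have e1 : (225 : ℝ) = 2 ^ 8 * (225 / 256) := by norm_num
    rw [e1, Real.log_mul (by norm_num) (by norm_num), Real.log_pow]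
    have e2 := Real.log_le_sub_one_of_pos (x := (225 / 256 : ℝ)) (by norm_num)
    push_cast
    linarith
  have hse : Real.log (se k / 3) ≤ 5.4241 + l := by
    have e1 : se k / 3 ≤ 225 * ((k : ℝ) + 1) := by
      unfold se
      linarith
    have e2 : 0 < se k / 3 := by
      unfold se
      positivity
    have e3 := Real.log_le_log e2 e1
    rw [Real.log_mul (by norm_num) (by positivity), ← hl] at e3
    linarith
  have h3 : 3 / se k ≤ 1 / 450 := by
    have : (1350 : ℝ) ≤ se k := by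
      unfold se
      linarith
    rw [div_le_div_iff₀ (by linarith) (by norm_num)]
    linarith
  have hlam : lam k = k * (449 / 100 + 105 / 100 * l) := by
    unfold lam
    rw [← hl]
    ring
  rw [hlam]
  constructor
  · have : 0 < 449 / 100 + 105 / 100 * l := by linarith
    positivity
  · have h4 : (1 + 1 / 256) * (Real.log (se k / 3) - 1 + 3 / se k + 1 / 1000) ≤
        (1 - 1 / 512 - 1 / 100) * (449 / 100 + 105 / 100 * l) := by
      norm_num at hl1 h3 hse ⊢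
      linarith
    calc (1 + 1 / 256) * (k * (Real.log (se k / 3) - 1 + 3 / se k + 1 / 1000)) =
          k * ((1 + 1 / 256) * (Real.log (se k / 3) - 1 + 3 / se k + 1 / 1000)) := by ring
      _ ≤ k * ((1 - 1 / 512 - 1 / 100) * (449 / 100 + 105 / 100 * l)) :=
          mul_le_mul_of_nonneg_left h4 (by linarith)
      _ = _ := by ring

end Pool.Agent.Lib.H57C
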