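import Pool.Agent.Lib.H57C.L1
import Pool.Agent.Lib.H57C.MS

/-!
# Chunk L2: the second sum
-/

open Finset

namespace Pool.Agent.Lib.H57C

open Pool.Agent.Lib.H57M
open Pool.Agent.Lib.H59C (gq)

/-- the set of moduli of the sieve -/
noncomputable def l2_D (n k : ℕ) (Q : Finset ℕ) : Finset ℕ :=
  (Icc 1 (z2 n k ^ (96 * (k + 1) + 10 + 2 * 8))).filter
    (fun d => Squarefree d ∧ ∀ q ∈ d.primeFactors, q ∈ Q)

theorem l2_Lv {n k q d : ℕ} {θ : ℝ} (hn : 1 ≤ n) (hθ : 0 < θ) (hθ1 : θ ≤ 1 / 1000)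
    (hq : q ^ 3 ≤ n) (hd : d ≤ z2 n k ^ (96 * (k + 1) + 10 + 2 * 8)) : d * q ≤ Lv n θ := by
  unfold Lv
  apply Nat.le_floor
  push_cast
  have hnr : (1 : ℝ) ≤ n := by exact_mod_cast hn
  have h1 : (d : ℝ) ≤ (n : ℝ) ^ (1 / 6 - 4 * θ) := by
    refine le_trans ?_ (l1_lev n k θ hn hθ hθ1)
    exact_mod_cast hd
  have h2 : (q : ℝ) ≤ (n : ℝ) ^ (1 / 3 : ℝ) := by
    have h3 : ((q : ℝ) ^ 3) ≤ n := by exact_mod_cast hq
    have h4 : (q : ℝ) = ((q : ℝ) ^ 3) ^ (1 / 3 : ℝ) := by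
      rw [← Real.rpow_natCast, ← Real.rpow_mul (Nat.cast_nonneg _)]
      norm_num
    rw [h4]
    exact Real.rpow_le_rpow (by positivity) h3 (by norm_num)
  calc (d : ℝ) * q ≤ (n : ℝ) ^ (1 / 6 - 4 * θ) * (n : ℝ) ^ (1 / 3 : ℝ) :=
        mul_le_mul h1 h2 (Nat.cast_nonneg _) (by positivity)
    _ = (n : ℝ) ^ (1 / 2 - 4 * θ) := by
        rw [← Real.rpow_add (by linarith)]
        congr 1
        ring

/-- Proof. For every `q ∈ Qy`: `bhc` with `k + 1`, `c = 8`, `z = z2 n k`, `Q = Q2 P' n k`, `g = #T gq`, `S = (Sh n h).filter ((p - h) % q ∈ T q)`, `X = XhR #T q gq q`. Since `q^3 ≤ n` and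
`z2^(96 (k+1) + 26) ≤ n^(1/6 - 4θ)` (`l1_lev`) the products `d q` are `≤ n^(1/2 - 4θ)`, so `≤ Lv n θ`; `q > z2` does not divide `d`; `inT T (d q) t ↔ inT T d t ∧ t % q ∈ T q`; different pairs
`(d, q)` give different `d q` (`q` is the only prime factor `> z2`): the sum over `q` of the remainders is at most `n/L^(k + 12)` (`Reg2.remB`), as `0 ≤ wq n q ≤ 1`. So
`S2R ≤ (1 + 1/256) XhR V1R ∑_{q ∈ Qy} wq n q k gq q + n/L^(k+12)`, use `ms` (the primes of `Qy` are among those in `ms`). -/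
theorem S2R_up (K B cF k : ℕ) (θ Ga : ℝ) (hK : 1 ≤ K) (hk : 1 ≤ k) (hB : 3 ≤ B) (hθ : 0 < θ)
    (hθ1 : θ ≤ 1 / 1000) : ∃ n0 : ℕ, ∀ n : ℕ, n0 ≤ n → ∀ (w : Par K) (H : Finset ℕ) (p1 : ℕ)
    (R T : ℕ → Finset ℕ) (P' : Finset ℕ), Reg2 B cF k θ Ga w H n p1 R T P' →
    (∀ q ∈ P', q ≤ n) → ∀ h ∈ H,
    S2R w H n k p1 h R T P' ≤ (1 + 1 / 256) * (XhR w H n p1 h R * V1R T (Q2 P' n k)) *
      (k * (Real.log (se k / 3) - 1 + 3 / se k + 1 / 1000)) + n / Real.log n ^ (k + 12) := by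
  classical
  obtain ⟨n0, hn0⟩ := l1_facts k B hB
  obtain ⟨n1, hn1⟩ := ms k
  refine ⟨max n0 n1, fun n hn w H p1 R T P' hR hPn h hh => ?_⟩
  obtain ⟨hn1000, hL, hW3, hW8, hWv, hz, hWn⟩ := hn0 n ((le_max_left _ _).trans hn) w.W hR.Wdef
  have hms := hn1 n ((le_max_right _ _).trans hn)
  have hQ := l1_Q (n := n) (k := k) hR.P'p hR.Tk
  set Q := Q2 P' n k with hQd
  set L : ℝ := Real.log n with hLd
  have hk0 : (1 : ℝ) ≤ k := by exact_mod_cast hk
  have hL0 : 100 ≤ L := by linarith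
  have hnr : (1000 : ℝ) ≤ n := by exact_mod_cast hn1000
  obtain ⟨hAE, hXh⟩ := l1_XhR hR hh
  have hV10 : 0 ≤ V1R T Q :=
    (v0_le k w.W T Q (by omega) fun q hq => ⟨(hQ q hq).1, (hQ q hq).2.1, (hQ q hq).2.2.1⟩).2
  -- the primes of Qy
  have hQy : ∀ q ∈ Qy P' n k, q.Prime ∧ (T q).card ≤ k ∧ z2 n k < q ∧ q ^ 3 ≤ n ∧ q ∈ P' := by
    intro q hq
    unfold Qy at hq
    rw [Finset.mem_filter] at hq
    exact ⟨(hR.P'p q hq.1).1, hR.Tk q hq.1, hq.2.1, hq.2.2, hq.1⟩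
  have hwq : ∀ q : ℕ, q.Prime → q ^ 3 ≤ n → 0 ≤ wq n q ∧ wq n q ≤ 1 := by
    intro q hqp hq3
    have h1 : 3 * Real.log q ≤ L := by
      have h2 : Real.log ((q : ℝ) ^ 3) ≤ L := by
        refine Real.log_le_log ?_ (by exact_mod_cast hq3)
        have : (0 : ℝ) < q := by exact_mod_cast hqp.pos
        positivity
      rw [Real.log_pow] at h2
      exact_mod_cast h2
    have h3 : 0 ≤ Real.log q := Real.log_nonneg (by exact_mod_cast hqp.one_lt.le)
    unfold wq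
    have h4 : 3 * Real.log q / L ≤ 1 := (div_le_one (by linarith)).2 h1
    have h5 : 0 ≤ 3 * Real.log q / L := by positivity
    constructor <;> linarith
  -- the remainder terms
  set tm : ℕ → ℝ := fun d => |∑ p ∈ (H59C.Sq (Ya n + h) (Yb n + h)).filter (fun p => inT T d (p - h)),
        H59C.lg p * (FF w H (some h) (p - h) * Sg (Ps w.W p1) R (p - h)) -
      H59C.XX (Ya n + h) (Yb n + h) * (AE w.P H (some h) (FC w H) * VbR (Ps w.W p1) R) *
        ∏ q ∈ d.primeFactors, (((T q).card : ℝ) * gq q)| with htm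
  have hrem : ∑ d ∈ Dv P' (Lv n θ), tm d ≤ n / L ^ (k + 12) := hR.remB h hh
  have hD : ∀ d ∈ l2_D n k Q, 1 ≤ d ∧ d ≤ z2 n k ^ (96 * (k + 1) + 10 + 2 * 8) ∧ Squarefree d ∧
      ∀ q ∈ d.primeFactors, q ∈ Q := by
    intro d hd
    unfold l2_D at hd
    rw [Finset.mem_filter, Finset.mem_Icc] at hd
    exact ⟨hd.1.1, hd.1.2, hd.2.1, hd.2.2⟩
  have hcop : ∀ q ∈ Qy P' n k, ∀ d ∈ l2_D n k Q, ¬ q ∣ d := by
    intro q hq d hd hqd
    obtain ⟨h1, -, h3, -⟩ := hQy q hq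
    obtain ⟨h5, -, -, h8⟩ := hD d hd
    have h9 := h8 q (Nat.mem_primeFactors.2 ⟨h1, hqd, by omega⟩)
    have h10 := (hQ q h9).2.2.2.1
    omega
  have hpf : ∀ q ∈ Qy P' n k, ∀ d ∈ l2_D n k Q, (d * q).primeFactors = insert q d.primeFactors := by
    intro q hq d hd
    obtain ⟨h1, -⟩ := hQy q hq
    obtain ⟨h5, -⟩ := hD d hd
    rw [Nat.primeFactors_mul (by omega) h1.ne_zero, h1.primeFactors, Finset.union_comm,
      Finset.insert_eq]
  have hnotin : ∀ q ∈ Qy P' n k, ∀ d ∈ l2_D n k Q, q ∉ d.primeFactors := by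
    intro q hq d hd hmem
    exact hcop q hq d hd (Nat.dvd_of_mem_primeFactors hmem)
  have hone : ∀ q ∈ Qy P' n k, ∑ p ∈ (Sh n h).filter
      (fun p => (p - h) % q ∈ T q ∧ ∀ q' ∈ Q, (p - h) % q' ∉ T q'), whR w H p1 h R p ≤
      (1 + 1 / 256) * (XhR w H n p1 h R * V1R T Q) * (((T q).card : ℝ) * gq q) +
        ∑ d ∈ l2_D n k Q, tm (d * q) := by
    intro q hq
    obtain ⟨hq1, hq2, hq3, hq4, hq5⟩ := hQy q hq
    have hbh := (bhc (k + 1) 8 (z2 n k) hz (by omega) (by decide) Q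
      (fun q hq => by
        obtain ⟨h1, h2, h3, h4, -⟩ := hQ q hq
        exact ⟨h1, by omega, h4⟩) (l1_g T Q) (l1_g0 fun q hq => (hQ q hq).1)
      (l1_gk (by omega) fun q hq => ⟨(hQ q hq).1, (hQ q hq).2.1, (hQ q hq).2.2.1⟩)
      ((Sh n h).filter (fun p => (p - h) % q ∈ T q)) (whR w H p1 h R)
      (fun p hp => l1_whR w H n p1 h R p (Finset.mem_filter.1 hp).1)
      (fun q p => (p - h) % q ∈ T q) (XhR w H n p1 h R * (((T q).card : ℝ) * gq q))
      (mul_nonneg hXh (mul_nonneg (Nat.cast_nonneg _) (l1_gq hq1)))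
      (∑ d ∈ l2_D n k Q, tm (d * q)) (by
        refine le_of_eq ?_
        unfold l2_D
        refine Finset.sum_congr rfl fun d hd => ?_
        have hd' : d ∈ l2_D n k Q := hd
        rw [Finset.mem_filter] at hd
        simp only [htm]
        congr 2
        · refine Finset.sum_congr ?_ fun _ _ => rfl
          ext t
          simp only [Finset.mem_filter, inT, Sh, hpf q hq d hd', Finset.forall_mem_insert, and_assoc]
        · rw [hpf q hq d hd', Finset.prod_insert (hnotin q hq d hd')]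
          unfold XhR
          rw [mul_assoc]
          congr 2
          exact Finset.prod_congr rfl fun q hq => l1_g_eq (hd.2.2 q hq))).2
    have h1 : ∏ q ∈ Q, (1 - l1_g T Q q) = V1R T Q := by
      unfold V1R
      exact Finset.prod_congr rfl fun q hq => by rw [l1_g_eq hq]
    rw [h1] at hbh
    have h2 : (1 + 1 / 256) * (XhR w H n p1 h R * V1R T Q) * (((T q).card : ℝ) * gq q) =
        (1 + 1 / 2 ^ 8) * (XhR w H n p1 h R * (((T q).card : ℝ) * gq q)) * V1R T Q := by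
      norm_num
      ring
    rw [h2]
    refine le_trans (le_of_eq ?_) hbh
    refine Finset.sum_congr ?_ fun _ _ => rfl
    ext t
    simp only [Finset.mem_filter, and_assoc]
  -- the sum of the remainders
  have hrsum : ∑ q ∈ Qy P' n k, ∑ d ∈ l2_D n k Q, tm (d * q) ≤ n / L ^ (k + 12) := by
    refine le_trans ?_ hrem
    rw [← Finset.sum_product']
    have hinj : Set.InjOn (fun x : ℕ × ℕ => x.2 * x.1)
        ((Qy P' n k ×ˢ l2_D n k Q : Finset (ℕ × ℕ)) : Set (ℕ × ℕ)) := by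
      rintro ⟨q, d⟩ hx ⟨q', d'⟩ hx' heq
      rw [Finset.mem_coe, Finset.mem_product] at hx hx'
      simp only at hx hx' heq
      obtain ⟨hq, hd⟩ := hx
      obtain ⟨hq', hd'⟩ := hx'
      have h1 := (hQy q hq).1
      have h2 := (hQy q' hq').1
      have h3 : q ∣ d' * q' := by rw [← heq]; exact dvd_mul_left _ _
      rcases h1.dvd_mul.1 h3 with h4 | h4
      · exact absurd h4 (hcop q hq d' hd')
      · have h5 : q = q' := (Nat.prime_dvd_prime_iff_eq h1 h2).1 h4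
        subst h5
        have h6 : d = d' := Nat.eq_of_mul_eq_mul_right h1.pos heq
        rw [h6]
    rw [← Finset.sum_image (f := tm) (g := fun x : ℕ × ℕ => x.2 * x.1) hinj]
    refine Finset.sum_le_sum_of_subset_of_nonneg ?_ fun d _ _ => abs_nonneg _
    intro m hm
    rw [Finset.mem_image] at hm
    obtain ⟨⟨q, d⟩, hx, rfl⟩ := hm
    rw [Finset.mem_product] at hx
    simp only at hx
    obtain ⟨hq, hd⟩ := hx
    obtain ⟨hq1, hq2, hq3, hq4, hq5⟩ := hQy q hq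
    obtain ⟨hd1, hd2, hd3, hd4⟩ := hD d hd
    unfold Dv
    rw [Finset.mem_filter, Finset.mem_Icc]
    refine ⟨⟨?_, l2_Lv (by omega) hθ hθ1 hq4 hd2⟩, ?_, ?_⟩
    · exact Nat.mul_pos hd1 hq1.pos
    · rw [Nat.squarefree_mul]
      · exact ⟨hd3, hq1.squarefree⟩
      · exact (Nat.Coprime.symm ((Nat.Prime.coprime_iff_not_dvd hq1).2 (hcop q hq d hd)))
    · intro q' hq'
      simp only at hq'
      rw [hpf q hq d hd, Finset.mem_insert] at hq'
      rcases hq' with rfl | hq'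
      · exact hq5
      · exact (hQ q' (hd4 q' hq')).2.2.2.2
  -- conclusion
  have htm0 : ∀ d, 0 ≤ tm d := fun d => abs_nonneg _
  have hmain : S2R w H n k p1 h R T P' ≤ ∑ q ∈ Qy P' n k, ((1 + 1 / 256) *
      (XhR w H n p1 h R * V1R T Q) * (k * (wq n q * gq q)) + ∑ d ∈ l2_D n k Q, tm (d * q)) := by
    unfold S2R
    rw [← hQd]
    refine Finset.sum_le_sum fun q hq => ?_
    obtain ⟨hq1, hq2, hq3, hq4, hq5⟩ := hQy q hq
    obtain ⟨hw0, hw1⟩ := hwq q hq1 hq4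
    refine (mul_le_mul_of_nonneg_left (hone q hq) hw0).trans ?_
    rw [mul_add]
    have h0 : 0 ≤ ∑ d ∈ l2_D n k Q, tm (d * q) := Finset.sum_nonneg fun d _ => htm0 _
    refine add_le_add ?_ (mul_le_of_le_one_left h0 hw1)
    have h1 : ((T q).card : ℝ) ≤ k := by exact_mod_cast hq2
    have h2 := l1_gq hq1
    have h3 : wq n q * ((T q).card * gq q) ≤ k * (wq n q * gq q) := by
      have h4 : ((T q).card : ℝ) * (wq n q * gq q) ≤ k * (wq n q * gq q) :=
        mul_le_mul_of_nonneg_right h1 (mul_nonneg hw0 h2)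
      linarith
    have h5 : 0 ≤ (1 + 1 / 256) * (XhR w H n p1 h R * V1R T Q) := by positivity
    have h6 := mul_le_mul_of_nonneg_left h3 h5
    linarith
  refine hmain.trans ?_
  rw [Finset.sum_add_distrib, ← Finset.mul_sum, ← Finset.mul_sum]
  refine add_le_add ?_ hrsum
  refine mul_le_mul_of_nonneg_left ?_ (by positivity)
  refine mul_le_mul_of_nonneg_left ?_ (by linarith)
  refine le_trans ?_ hms
  refine Finset.sum_le_sum_of_subset_of_nonneg ?_ ?_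
  · intro q hq
    obtain ⟨hq1, hq2, hq3, hq4, hq5⟩ := hQy q hq
    rw [Finset.mem_filter, Finset.mem_Ioc]
    exact ⟨⟨hq3, hPn q hq5⟩, hq1, hq4⟩
  · intro q hq _
    rw [Finset.mem_filter] at hq
    exact mul_nonneg (hwq q hq.2.1 hq.2.2).1 (l1_gq hq.2.1)

end Pool.Agent.Lib.H57C
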