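import Pool.Agent.Lib.H57C.MDefs

/-!
# Chunk M0: sums over residue classes
-/

open Finset

namespace Pool.Agent.Lib.H57C

/-- The Chinese remainder theorem for a product of pairwise coprime numbers. -/
theorem M0_crt (s : Finset ℕ) (hs : ∀ q ∈ s, q.Prime) (A : ℕ → Finset ℕ)
    (hA : ∀ q ∈ s, A q ⊆ range q) :
    ((range (∏ q ∈ s, q)).filter (fun c => ∀ q ∈ s, c % q ∈ A q)).card = ∏ q ∈ s, (A q).card := by
  classical
  induction s using Finset.induction_on with
  | empty => simp
  | insert a s ha ih =>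
    have hpa : a.Prime := hs a (Finset.mem_insert_self a s)
    have hs' : ∀ q ∈ s, q.Prime := fun q hq => hs q (Finset.mem_insert_of_mem hq)
    have hA' : ∀ q ∈ s, A q ⊆ range q := fun q hq => hA q (Finset.mem_insert_of_mem hq)
    have ih' := ih hs' hA'
    rw [Finset.prod_insert ha, Finset.prod_insert ha, ← ih', ← Finset.card_product]
    set M := ∏ q ∈ s, q with hM
    have hcop : Nat.Coprime a M := by
      rw [hM]
      refine Nat.Coprime.prod_right fun q hq => ?_
      rw [Nat.coprime_primes hpa (hs' q hq)]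
      rintro rfl
      exact ha hq
    have hMpos : 0 < M := Finset.prod_pos fun q hq => (hs' q hq).pos
    refine Finset.card_bij (fun c _ => (c % a, c % M)) ?_ ?_ ?_
    · intro c hc
      rw [Finset.mem_filter] at hc
      rw [Finset.mem_product]
      refine ⟨hc.2 a (Finset.mem_insert_self a s), ?_⟩
      rw [Finset.mem_filter]
      refine ⟨Finset.mem_range.2 (Nat.mod_lt _ hMpos), fun q hq => ?_⟩
      rw [Nat.mod_mod_of_dvd c (Finset.dvd_prod_of_mem (fun q => q) hq)]
      exact hc.2 q (Finset.mem_insert_of_mem hq)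
    · intro c hc d hd h
      rw [Finset.mem_filter, Finset.mem_range] at hc hd
      have h1 : c ≡ d [MOD a] := (Prod.ext_iff.1 h).1
      have h2 : c ≡ d [MOD M] := (Prod.ext_iff.1 h).2
      have h3 : c ≡ d [MOD a * M] := (Nat.modEq_and_modEq_iff_modEq_mul hcop).1 ⟨h1, h2⟩
      exact Nat.ModEq.eq_of_lt_of_lt h3 hc.1 hd.1
    · rintro ⟨x, y⟩ hxy
      rw [Finset.mem_product, Finset.mem_filter, Finset.mem_range] at hxy
      obtain ⟨hx, hy, hy2⟩ := hxy
      dsimp only at hx hy hy2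
      have hxa : x < a := Finset.mem_range.1 (hA a (Finset.mem_insert_self a s) hx)
      obtain ⟨k, hk1, hk2⟩ := Nat.chineseRemainder hcop x y
      have hk1' : k % (a * M) % a = x := by
        rw [Nat.mod_mod_of_dvd k (Dvd.intro _ rfl)]
        have := hk1
        unfold Nat.ModEq at this
        rw [this, Nat.mod_eq_of_lt hxa]
      have hk2' : k % (a * M) % M = y := by
        rw [Nat.mod_mod_of_dvd k (Dvd.intro_left _ rfl)]
        have := hk2
        unfold Nat.ModEq at this
        rw [this, Nat.mod_eq_of_lt hy]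
      refine ⟨k % (a * M), ?_, Prod.ext hk1' hk2'⟩
      rw [Finset.mem_filter, Finset.mem_range]
      refine ⟨Nat.mod_lt _ (Nat.mul_pos hpa.pos hMpos), fun q hq => ?_⟩
      rw [Finset.mem_insert] at hq
      rcases hq with rfl | hq
      · rw [hk1']; exact hx
      · have h4 := hy2 q hq
        rw [← hk2', Nat.mod_mod_of_dvd _ (Finset.dvd_prod_of_mem (fun q => q) hq)] at h4
        exact h4

/-- Chinese remainder theorem, counting form. Induction over the prime factors, or a bijection with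
`Fintype.piFinset`/`Finset.pi` (`ZMod.equivPi`, `Nat.chineseRemainderOfFinset`). -/
theorem crt_card (m : ℕ) (hm : Squarefree m) (A : ℕ → Finset ℕ)
    (hA : ∀ q ∈ m.primeFactors, A q ⊆ range q) :
    ((range m).filter (fun c => ∀ q ∈ m.primeFactors, c % q ∈ A q)).card =
      ∏ q ∈ m.primeFactors, (A q).card := by
  have h := M0_crt m.primeFactors (fun q hq => Nat.prime_of_mem_primeFactors hq) A hA
  rw [Nat.prod_primeFactors_of_squarefree hm] at h
  exact h

/-- Proof. `x j % q ∈ A q` for all `q ∣ m` iff `x j % m` is in the set `C` of `crt_card` (`Nat.mod_mod_of_dvd`); so the sum is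
`∑_{c ∈ C} ∑_{x j ≡ c [MOD m]} wt j`, every `c ∈ C` satisfies `Al q c` for all `q ∣ m` (`al`: `c ≡ c % q [MOD q]`), use the bound of
`Lvl` for every `c ∈ C` and `crt_card`. -/
theorem class_sum {ι : Type} (s : Seq ι)
    (al : ∀ q c c' : ℕ, c ≡ c' [MOD q] → (s.Al q c ↔ s.Al q c')) (m : ℕ) (hm : Squarefree m)
    (B : ℝ) (hB : ∀ c : ℕ, (∀ q ∈ m.primeFactors, s.Al q c) →
      |∑ i ∈ s.S.filter (fun i => s.x i ≡ c [MOD m]), s.wt i -
        s.X * ∏ q ∈ m.primeFactors, s.hd q| ≤ B)
    (A : ℕ → Finset ℕ) (hA : ∀ q ∈ m.primeFactors, A q ⊆ range q)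
    (hAl : ∀ q ∈ m.primeFactors, ∀ c ∈ A q, s.Al q c) :
    |∑ i ∈ s.S.filter (fun i => ∀ q ∈ m.primeFactors, s.x i % q ∈ A q), s.wt i -
        s.X * ∏ q ∈ m.primeFactors, (((A q).card : ℝ) * s.hd q)| ≤
      (∏ q ∈ m.primeFactors, ((A q).card : ℝ)) * B := by
  classical
  have hm0 : 0 < m := Nat.pos_of_ne_zero hm.ne_zero
  set C := (range m).filter (fun c => ∀ q ∈ m.primeFactors, c % q ∈ A q) with hC
  have hCc : (C.card : ℝ) = ∏ q ∈ m.primeFactors, ((A q).card : ℝ) := by
    rw [hC, crt_card m hm A hA]; push_cast; rfl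
  have hsum : ∑ i ∈ s.S.filter (fun i => ∀ q ∈ m.primeFactors, s.x i % q ∈ A q), s.wt i =
      ∑ c ∈ C, ∑ i ∈ s.S.filter (fun i => s.x i ≡ c [MOD m]), s.wt i := by
    rw [← Finset.sum_fiberwise_of_maps_to (s := s.S.filter (fun i => ∀ q ∈ m.primeFactors, s.x i % q ∈ A q))
      (t := C) (g := fun i => s.x i % m)]
    · refine Finset.sum_congr rfl fun c hc => Finset.sum_congr ?_ fun _ _ => rfl
      rw [hC, Finset.mem_filter, Finset.mem_range] at hc
      ext i
      simp only [Finset.mem_filter]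
      constructor
      · rintro ⟨⟨h1, _⟩, h3⟩
        refine ⟨h1, ?_⟩
        unfold Nat.ModEq
        rw [h3, Nat.mod_eq_of_lt hc.1]
      · rintro ⟨h1, h2⟩
        unfold Nat.ModEq at h2
        rw [Nat.mod_eq_of_lt hc.1] at h2
        refine ⟨⟨h1, fun q hq => ?_⟩, h2⟩
        have h3 := hc.2 q hq
        rw [← h2, Nat.mod_mod_of_dvd _ (Nat.dvd_of_mem_primeFactors hq)] at h3
        exact h3
    · intro i hi
      rw [Finset.mem_filter] at hi
      rw [hC, Finset.mem_filter, Finset.mem_range]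
      refine ⟨Nat.mod_lt _ hm0, fun q hq => ?_⟩
      rw [Nat.mod_mod_of_dvd _ (Nat.dvd_of_mem_primeFactors hq)]
      exact hi.2 q hq
  have hX : s.X * ∏ q ∈ m.primeFactors, (((A q).card : ℝ) * s.hd q) =
      ∑ _c ∈ C, s.X * ∏ q ∈ m.primeFactors, s.hd q := by
    rw [Finset.sum_const, nsmul_eq_mul, hCc, Finset.prod_mul_distrib]; ring
  rw [hsum, hX, ← Finset.sum_sub_distrib, ← hCc]
  calc |∑ c ∈ C, (∑ i ∈ s.S.filter (fun i => s.x i ≡ c [MOD m]), s.wt i - s.X * ∏ q ∈ m.primeFactors, s.hd q)|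
      ≤ ∑ c ∈ C, |∑ i ∈ s.S.filter (fun i => s.x i ≡ c [MOD m]), s.wt i - s.X * ∏ q ∈ m.primeFactors, s.hd q| :=
        Finset.abs_sum_le_sum_abs _ _
    _ ≤ ∑ _c ∈ C, B := by
        refine Finset.sum_le_sum fun c hc => hB c fun q hq => ?_
        rw [hC, Finset.mem_filter] at hc
        refine (al q c (c % q) ?_).2 (hAl q hq _ (hc.2 q hq))
        exact (Nat.mod_modEq c q).symm
    _ = (C.card : ℝ) * B := by rw [Finset.sum_const, nsmul_eq_mul]

end Pool.Agent.Lib.H57C
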