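import Pool.Agent.Lib.H57C.MDefs

/-!
# Chunk M2: the sum of the remainder terms
-/

open Finset

namespace Pool.Agent.Lib.H57C

/-- Colourings of a finite set. -/
theorem m2_col {X τ : Type} [Fintype X] (S : Finset ℕ) (T : Finset τ) (c : τ → ℕ → X) (w : X → ℝ)
    (hw : ∀ x, 0 ≤ w x)
    (inj : ∀ t ∈ T, ∀ t' ∈ T, (∀ q ∈ S, c t q = c t' q) → t = t') :
    ∑ t ∈ T, ∏ q ∈ S, w (c t q) ≤ (∑ x, w x) ^ S.card := by
  classical
  have h1 : (∑ x, w x) ^ S.card = ∑ f : {q // q ∈ S} → X, ∏ q, w (f q) := by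
    have h := Finset.prod_univ_sum (ι := {q // q ∈ S}) (κ := fun _ => X) (R := ℝ)
      (fun _ => (Finset.univ : Finset X)) (fun _ x => w x)
    rw [Fintype.piFinset_univ] at h
    rw [← h]
    simp
  rw [h1]
  let Φ : τ → ({q // q ∈ S} → X) := fun t q => c t q.1
  have h2 : ∀ t, ∏ q ∈ S, w (c t q) = ∏ q, w (Φ t q) := fun t => by
    rw [← Finset.prod_coe_sort]
  have hinj : Set.InjOn Φ T := by
    intro t ht t' ht' h
    refine inj t (by simpa using ht) t' (by simpa using ht') fun q hq => ?_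
    exact congrFun h ⟨q, hq⟩
  calc ∑ t ∈ T, ∏ q ∈ S, w (c t q) = ∑ t ∈ T, ∏ q, w (Φ t q) := Finset.sum_congr rfl fun t _ => h2 t
    _ = ∑ f ∈ T.image Φ, ∏ q, w (f q) := by
        rw [Finset.sum_image (f := fun f : {q // q ∈ S} → X => ∏ q, w (f q)) hinj]
    _ ≤ ∑ f : {q // q ∈ S} → X, ∏ q, w (f q) :=
        Finset.sum_le_sum_of_subset_of_nonneg (Finset.subset_univ _)
          fun f _ _ => Finset.prod_nonneg fun q _ => hw _

/-- The primes of the family, as a set. -/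
noncomputable def m2_UU {P H : Finset ℕ} (U : Fam P H) : Finset ℕ :=
  Finset.univ.biUnion (fun h => (U h).map (Function.Embedding.subtype _))

theorem m2_mem_UU {P H : Finset ℕ} (U : Fam P H) (q : ℕ) :
    q ∈ m2_UU U ↔ ∃ h, ∃ hq : q ∈ P, (⟨q, hq⟩ : {p // p ∈ P}) ∈ U h := by
  unfold m2_UU
  simp only [Finset.mem_biUnion, Finset.mem_univ, true_and, Finset.mem_map,
    Function.Embedding.coe_subtype, Subtype.exists, exists_and_right, exists_eq_right]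

theorem m2_prod_UU {P H : Finset ℕ} {M : Type} [CommMonoid M] (U : Fam P H)
    (hd : ∀ h h', h ≠ h' → Disjoint (U h) (U h')) (f : ℕ → M) :
    ∏ q ∈ m2_UU U, f q = ∏ h, ∏ p ∈ U h, f p.1 := by
  unfold m2_UU
  rw [Finset.prod_biUnion]
  · refine Finset.prod_congr rfl fun h _ => ?_
    rw [Finset.prod_map]
    rfl
  · intro h _ h' _ hne
    rw [Function.onFun, Finset.disjoint_map]
    exact hd h h' hne

theorem m2_fp {P H : Finset ℕ} (U : Fam P H)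
    (hd : ∀ h h', h ≠ h' → Disjoint (U h) (U h')) : fp U = ∏ q ∈ m2_UU U, q := by
  rw [m2_prod_UU U hd (fun q => q)]
  rfl

theorem m2_sqf (s : Finset ℕ) (hs : ∀ p ∈ s, p.Prime) : Squarefree (∏ p ∈ s, p) := by
  refine Finset.squarefree_prod_of_pairwise_isCoprime (fun p hp q hq hpq ↦ ?_)
    fun p hp ↦ (hs p hp).squarefree
  simp only [← Nat.coprime_iff_isRelPrime]
  exact (Nat.coprime_primes (hs p (by simpa using hp)) (hs q (by simpa using hq))).mpr hpq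

open Classical in
/-- The colour of `q`. -/
noncomputable def m2_c {P H : Finset ℕ} (t : ℕ × Finset ℕ × Fam P H) (q : ℕ) :
    Option (Option {h // h ∈ H}) :=
  if q ∈ t.2.1 then none else if h : ∃ h, ∃ hq : q ∈ P, (⟨q, hq⟩ : {p // p ∈ P}) ∈ t.2.2 h then
    some (some h.choose) else some none

/-- The weight of a colour. -/
noncomputable def m2_w (H : Finset ℕ) (k E : ℕ) : Option (Option {h // h ∈ H}) → ℝ
  | none => k
  | some none => k
  | some (some _) => E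

theorem m2_w_sum (H : Finset ℕ) (k E K : ℕ) (hK : H.card = K) :
    ∑ x, m2_w H k E x = ((K * E + 2 * k : ℕ) : ℝ) := by
  rw [Fintype.sum_option, Fintype.sum_option]
  simp only [m2_w]
  simp [hK]
  ring

/-- The conditions on a triple. -/
structure m2_ok {P H : Finset ℕ} (W p1 : ℕ) (P' : Finset ℕ) (t : ℕ × Finset ℕ × Fam P H) : Prop where
  sq : Squarefree t.1
  dP : ∀ q ∈ t.1.primeFactors, q ∈ P'
  V : t.2.1 ⊆ Ps W p1
  dis : ∀ h h', h ≠ h' → Disjoint (t.2.2 h) (t.2.2 h')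
  cop : ∀ h, ∀ p ∈ t.2.2 h, ¬ p.1 ∣ t.1

section

variable {P H : Finset ℕ} {W p1 : ℕ} {P' : Finset ℕ}

/-- The product of a triple. -/
noncomputable def m2_m (t : ℕ × Finset ℕ × Fam P H) : ℕ := fp t.2.2 * (∏ q ∈ t.2.1, q) * t.1

theorem m2_VU (hP : ∀ p ∈ P, p.Prime ∧ W < p) {t : ℕ × Finset ℕ × Fam P H} (h : m2_ok W p1 P' t) :
    Disjoint (m2_UU t.2.2) t.2.1 := by
  rw [Finset.disjoint_left]
  intro q hq hV
  obtain ⟨h', hqP, -⟩ := (m2_mem_UU _ _).1 hq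
  have h1 := (hP q hqP).2
  have h2 := h.V hV
  simp only [Ps, Finset.mem_filter, Finset.mem_Icc] at h2
  omega

theorem m2_UVd (hP : ∀ p ∈ P, p.Prime ∧ W < p) (hP' : ∀ q ∈ P', q.Prime ∧ W < q)
    {t : ℕ × Finset ℕ × Fam P H} (h : m2_ok W p1 P' t) :
    Disjoint (m2_UU t.2.2 ∪ t.2.1) t.1.primeFactors := by
  rw [Finset.disjoint_left]
  intro q hq hd
  rcases Finset.mem_union.1 hq with hq | hV
  · obtain ⟨h', hqP, hq'⟩ := (m2_mem_UU _ _).1 hq
    exact h.cop h' _ hq' (Nat.dvd_of_mem_primeFactors hd)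
  · have h1 := (hP' q (h.dP q hd)).2
    have h2 := h.V hV
    simp only [Ps, Finset.mem_filter, Finset.mem_Icc] at h2
    omega

theorem m2_m_eq (hP : ∀ p ∈ P, p.Prime ∧ W < p) (hP' : ∀ q ∈ P', q.Prime ∧ W < q)
    {t : ℕ × Finset ℕ × Fam P H} (h : m2_ok W p1 P' t) :
    m2_m t = ∏ q ∈ m2_UU t.2.2 ∪ t.2.1 ∪ t.1.primeFactors, q := by
  rw [Finset.prod_union (m2_UVd hP hP' h), Finset.prod_union (m2_VU hP h),
    Nat.prod_primeFactors_of_squarefree h.sq, m2_m, m2_fp _ h.dis]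

theorem m2_pr (hP : ∀ p ∈ P, p.Prime ∧ W < p)
    {t : ℕ × Finset ℕ × Fam P H} (h : m2_ok W p1 P' t) :
    ∀ q ∈ m2_UU t.2.2 ∪ t.2.1 ∪ t.1.primeFactors, q.Prime := by
  intro q hq
  rcases Finset.mem_union.1 hq with hq | hq
  · rcases Finset.mem_union.1 hq with hq | hq
    · obtain ⟨h', hqP, hq'⟩ := (m2_mem_UU _ _).1 hq
      exact (hP q hqP).1
    · have h2 := h.V hq
      simp only [Ps, Finset.mem_filter, Finset.mem_Icc] at h2
      exact h2.2.1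
  · exact Nat.prime_of_mem_primeFactors hq

theorem m2_pf (hP : ∀ p ∈ P, p.Prime ∧ W < p) (hP' : ∀ q ∈ P', q.Prime ∧ W < q)
    {t : ℕ × Finset ℕ × Fam P H} (h : m2_ok W p1 P' t) :
    (m2_m t).primeFactors = m2_UU t.2.2 ∪ t.2.1 ∪ t.1.primeFactors := by
  rw [m2_m_eq hP hP' h, Nat.primeFactors_prod (m2_pr hP h)]

theorem m2_p1 (hP : ∀ p ∈ P, p.Prime ∧ W < p) (hP' : ∀ q ∈ P', q.Prime ∧ W < q)
    (hp1 : p1.Prime) (hp1W : p1 ≤ W)
    {t : ℕ × Finset ℕ × Fam P H} (h : m2_ok W p1 P' t) : Squarefree (m2_m t) ∧ ¬ p1 ∣ m2_m t := by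
  have h0 : Squarefree (m2_m t) := by
    rw [m2_m_eq hP hP' h]
    exact m2_sqf _ (m2_pr hP h)
  refine ⟨h0, fun h1 => ?_⟩
  have h2 : p1 ∈ (m2_m t).primeFactors := Nat.mem_primeFactors.2 ⟨hp1, h1, h0.ne_zero⟩
  rw [m2_pf hP hP' h] at h2
  rcases Finset.mem_union.1 h2 with hq | hq
  · rcases Finset.mem_union.1 hq with hq | hq
    · obtain ⟨h', hqP, hq'⟩ := (m2_mem_UU _ _).1 hq
      have := (hP p1 hqP).2
      omega
    · have h2 := h.V hq
      simp only [Ps, Finset.mem_filter, Finset.mem_Icc] at h2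
      exact h2.2.2 rfl
  · have := (hP' p1 (h.dP p1 hq)).2
    omega

theorem m2_cV (t : ℕ × Finset ℕ × Fam P H) {q : ℕ} (hq : q ∈ t.2.1) : m2_c t q = none := by
  simp [m2_c, hq]

theorem m2_cd (hP : ∀ p ∈ P, p.Prime ∧ W < p) (hP' : ∀ q ∈ P', q.Prime ∧ W < q)
    {t : ℕ × Finset ℕ × Fam P H} (h : m2_ok W p1 P' t) {q : ℕ} (hq : q ∈ t.1.primeFactors) :
    m2_c t q = some none := by
  have h1 := Finset.disjoint_right.1 (m2_UVd hP hP' h) hq
  rw [Finset.mem_union, not_or, m2_mem_UU] at h1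
  unfold m2_c
  rw [if_neg h1.2, dif_neg h1.1]

theorem m2_cU (hP : ∀ p ∈ P, p.Prime ∧ W < p)
    {t : ℕ × Finset ℕ × Fam P H} (h : m2_ok W p1 P' t) {q : ℕ} {h' : {h // h ∈ H}} {hqP : q ∈ P}
    (hq : (⟨q, hqP⟩ : {p // p ∈ P}) ∈ t.2.2 h') :
    m2_c t q = some (some h') := by
  have h0 : ∃ h, ∃ hq : q ∈ P, (⟨q, hq⟩ : {p // p ∈ P}) ∈ t.2.2 h := ⟨h', hqP, hq⟩
  have h1 := Finset.disjoint_left.1 (m2_VU hP h) ((m2_mem_UU _ _).2 h0)
  unfold m2_c
  rw [if_neg h1, dif_pos h0]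
  congr 2
  by_contra hne
  obtain ⟨hq1, hq2⟩ := h0.choose_spec
  exact Finset.disjoint_left.1 (h.dis _ _ hne) hq2 hq

theorem m2_wt (hP : ∀ p ∈ P, p.Prime ∧ W < p) (hP' : ∀ q ∈ P', q.Prime ∧ W < q) (k E : ℕ)
    {t : ℕ × Finset ℕ × Fam P H} (h : m2_ok W p1 P' t) :
    ∏ q ∈ (m2_m t).primeFactors, m2_w H k E (m2_c t q) =
      (E : ℝ) ^ (∑ h, (t.2.2 h).card) * ((k : ℝ) ^ t.2.1.card * (k : ℝ) ^ t.1.primeFactors.card) := by
  rw [m2_pf hP hP' h, Finset.prod_union (m2_UVd hP hP' h), Finset.prod_union (m2_VU hP h)]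
  have h1 : ∏ q ∈ t.2.1, m2_w H k E (m2_c t q) = (k : ℝ) ^ t.2.1.card := by
    rw [Finset.prod_congr rfl fun q hq => by rw [m2_cV t hq], Finset.prod_const]
    rfl
  have h2 : ∏ q ∈ t.1.primeFactors, m2_w H k E (m2_c t q) = (k : ℝ) ^ t.1.primeFactors.card := by
    rw [Finset.prod_congr rfl fun q hq => by rw [m2_cd hP hP' h hq], Finset.prod_const]
    rfl
  have h3 : ∏ q ∈ m2_UU t.2.2, m2_w H k E (m2_c t q) = (E : ℝ) ^ (∑ h, (t.2.2 h).card) := by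
    rw [m2_prod_UU _ h.dis, ← Finset.prod_pow_eq_pow_sum]
    refine Finset.prod_congr rfl fun h' _ => ?_
    rw [Finset.prod_congr rfl fun p (hp : p ∈ t.2.2 h') => by
      rw [show m2_c t p.1 = some (some h') from m2_cU hP h (hqP := p.2) hp], Finset.prod_const]
    rfl
  rw [h1, h2, h3]
  ring

theorem m2_inj (hP : ∀ p ∈ P, p.Prime ∧ W < p) (hP' : ∀ q ∈ P', q.Prime ∧ W < q) (m : ℕ)
    {t t' : ℕ × Finset ℕ × Fam P H} (h : m2_ok W p1 P' t) (h' : m2_ok W p1 P' t')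
    (e : m2_m t = m) (e' : m2_m t' = m)
    (hc : ∀ q ∈ m.primeFactors, m2_c t q = m2_c t' q) : t = t' := by
  have f := m2_pf hP hP' h
  have f' := m2_pf hP hP' h'
  rw [e] at f
  rw [e'] at f'
  -- the colour classes
  have key : ∀ {s : ℕ × Finset ℕ × Fam P H}, m2_ok W p1 P' s →
      (m.primeFactors = m2_UU s.2.2 ∪ s.2.1 ∪ s.1.primeFactors) →
      (∀ q, q ∈ s.2.1 ↔ q ∈ m.primeFactors ∧ m2_c s q = none) ∧
      (∀ q, q ∈ s.1.primeFactors ↔ q ∈ m.primeFactors ∧ m2_c s q = some none) ∧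
      (∀ (g : {h // h ∈ H}) (p : {p // p ∈ P}), p ∈ s.2.2 g ↔
        p.1 ∈ m.primeFactors ∧ m2_c s p.1 = some (some g)) := by
    intro s hs fs
    have hcase : ∀ q ∈ m.primeFactors, (q ∈ s.2.1 ∧ m2_c s q = none) ∨
        (q ∈ s.1.primeFactors ∧ m2_c s q = some none) ∨
        ∃ (g : {h // h ∈ H}) (hqP : q ∈ P), (⟨q, hqP⟩ : {p // p ∈ P}) ∈ s.2.2 g ∧
          m2_c s q = some (some g) := by
      intro q hq
      rw [fs] at hq
      rcases Finset.mem_union.1 hq with hq | hq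
      · rcases Finset.mem_union.1 hq with hq | hq
        · obtain ⟨g, hqP, hq'⟩ := (m2_mem_UU _ _).1 hq
          exact Or.inr (Or.inr ⟨g, hqP, hq', m2_cU hP hs hq'⟩)
        · exact Or.inl ⟨hq, m2_cV s hq⟩
      · exact Or.inr (Or.inl ⟨hq, m2_cd hP hP' hs hq⟩)
    refine ⟨fun q => ⟨fun hq => ⟨?_, m2_cV s hq⟩, fun hq => ?_⟩,
      fun q => ⟨fun hq => ⟨?_, m2_cd hP hP' hs hq⟩, fun hq => ?_⟩,
      fun g p => ⟨fun hq => ⟨?_, m2_cU hP hs (hqP := p.2) hq⟩, fun hq => ?_⟩⟩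
    · rw [fs]; simp [hq]
    · rcases hcase q hq.1 with h1 | h1 | ⟨g, hqP, h1, h2⟩
      · exact h1.1
      · rw [hq.2] at h1; simp at h1
      · rw [hq.2] at h2; simp at h2
    · rw [fs]; exact Finset.mem_union_right _ hq
    · rcases hcase q hq.1 with h1 | h1 | ⟨g, hqP, h1, h2⟩
      · rw [hq.2] at h1; simp at h1
      · exact h1.1
      · rw [hq.2] at h2; simp at h2
    · rw [fs]
      exact Finset.mem_union_left _ (Finset.mem_union_left _ ((m2_mem_UU _ _).2 ⟨g, p.2, hq⟩))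
    · rcases hcase p.1 hq.1 with h1 | h1 | ⟨g', hqP, h1, h2⟩
      · rw [hq.2] at h1; simp at h1
      · rw [hq.2] at h1; simp at h1
      · rw [hq.2] at h2
        simp only [Option.some.injEq] at h2
        rw [h2]
        exact h1
  obtain ⟨a1, a2, a3⟩ := key h f
  obtain ⟨b1, b2, b3⟩ := key h' f'
  have e1 : t.2.1 = t'.2.1 := by
    ext q
    rw [a1, b1]
    constructor
    · rintro ⟨x, y⟩; exact ⟨x, by rw [← hc q x, y]⟩
    · rintro ⟨x, y⟩; exact ⟨x, by rw [hc q x, y]⟩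
  have e2 : t.1.primeFactors = t'.1.primeFactors := by
    ext q
    rw [a2, b2]
    constructor
    · rintro ⟨x, y⟩; exact ⟨x, by rw [← hc q x, y]⟩
    · rintro ⟨x, y⟩; exact ⟨x, by rw [hc q x, y]⟩
  have e3 : t.2.2 = t'.2.2 := by
    funext g
    ext p
    rw [a3, b3]
    constructor
    · rintro ⟨x, y⟩; exact ⟨x, by rw [← hc _ x, y]⟩
    · rintro ⟨x, y⟩; exact ⟨x, by rw [hc _ x, y]⟩
  have e4 : t.1 = t'.1 := by
    rw [← Nat.prod_primeFactors_of_squarefree h.sq, e2, Nat.prod_primeFactors_of_squarefree h'.sq]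
  exact Prod.ext e4 (Prod.ext e1 e3)

end

open Classical in
/-- Proof. For a triple `(d, U, V)` in the sum, `m = fp U (∏ V) d` is squarefree, `≤ D`, not divisible by `p1`. For a fixed `m` the
triple is determined by the function on the prime factors of `m` which says for every `q ∣ m` whether `q ∈ V`, `q ∣ d` or `q ∈ U_h`
(`K + 2` possibilities): `d = ∏ {q : q ∣ d}` since `d` is squarefree. So the sum of `E^(∑|U_h|) k^|V| k^ω(d)` over the triples with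
this `m` is at most `∏_{q ∣ m} (k + k + K E) = (K E + 2 k)^ω(m)` (`Finset.prod_univ_sum`, or sum over maps `m.primeFactors → Option (Option
{h // h ∈ H})`). Another way: sum over `d` first, by the inequality
`∑_{(a, b) : a b = m} α^ω(a) β^ω(b) ≤ (α + β)^ω(m)` for squarefree `m`, used for `V`, for `d` and for every `h ∈ H` in turn. -/
theorem m2 (P H : Finset ℕ) (W p1 k E D D1 r K : ℕ) (P' : Finset ℕ) (DF : ℝ) (rr : ℕ → ℝ)
    (hrr : ∀ m, 0 ≤ rr m) (hP : ∀ p ∈ P, p.Prime ∧ W < p) (hp1 : p1.Prime) (hp1W : p1 ≤ W)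
    (hP' : ∀ q ∈ P', q.Prime ∧ W < q) (hK : H.card = K) (hW : 1 ≤ W)
    (hD : DF * (W : ℝ) ^ (r + 1) * D1 ≤ D) (hDF : 0 ≤ DF) :
    ∑ d ∈ Dv P' D1, ∑ V ∈ (Ps W p1).powerset.filter (fun V => V.card ≤ r + 1),
      ∑ U : Fam P H, (if (∀ h h', h ≠ h' → Disjoint (U h) (U h')) ∧ (∀ h, ∀ p ∈ U h, ¬ p.1 ∣ d) ∧
          (fp U : ℝ) ≤ DF then
        (E : ℝ) ^ (∑ h, (U h).card) * ((k : ℝ) ^ V.card * (k : ℝ) ^ d.primeFactors.card) *
          rr (fp U * (∏ q ∈ V, q) * d) else 0) ≤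
      ∑ m ∈ (Icc 1 D).filter (fun m => Squarefree m ∧ ¬ p1 ∣ m),
        ((K * E + 2 * k : ℕ) : ℝ) ^ m.primeFactors.card * rr m := by
  set I : Finset (ℕ × Finset ℕ × Fam P H) :=
    (Dv P' D1 ×ˢ ((Ps W p1).powerset.filter (fun V => V.card ≤ r + 1) ×ˢ
      (Finset.univ : Finset (Fam P H)))).filter (fun t =>
        (∀ h h', h ≠ h' → Disjoint (t.2.2 h) (t.2.2 h')) ∧ (∀ h, ∀ p ∈ t.2.2 h, ¬ p.1 ∣ t.1) ∧
          (fp t.2.2 : ℝ) ≤ DF) with hI
  have hok : ∀ t ∈ I, m2_ok W p1 P' t ∧ m2_m t ∈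
      (Icc 1 D).filter (fun m => Squarefree m ∧ ¬ p1 ∣ m) := by
    intro t ht
    simp only [hI, Finset.mem_filter, Finset.mem_product, Finset.mem_powerset, Dv,
      Finset.mem_Icc, Finset.mem_univ, and_true] at ht
    obtain ⟨⟨⟨⟨hd1, hd2⟩, hd3, hd4⟩, hV1, hV2⟩, hU1, hU2, hU3⟩ := ht
    have ok : m2_ok W p1 P' t := ⟨hd3, hd4, hV1, hU1, hU2⟩
    obtain ⟨h1, h2⟩ := m2_p1 hP hP' hp1 hp1W ok
    refine ⟨ok, ?_⟩
    rw [Finset.mem_filter, Finset.mem_Icc]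
    refine ⟨⟨Nat.pos_of_ne_zero h1.ne_zero, ?_⟩, h1, h2⟩
    have h3 : ((∏ q ∈ t.2.1, q : ℕ) : ℝ) ≤ (W : ℝ) ^ (r + 1) := by
      have h4 : ∏ q ∈ t.2.1, q ≤ W ^ t.2.1.card := by
        refine Finset.prod_le_pow_card _ _ _ fun q hq => ?_
        have h5 := hV1 hq
        simp only [Ps, Finset.mem_filter, Finset.mem_Icc] at h5
        exact h5.1.2
      have h6 : W ^ t.2.1.card ≤ W ^ (r + 1) := Nat.pow_le_pow_right hW hV2
      exact_mod_cast h4.trans h6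
    have h7 : ((m2_m t : ℕ) : ℝ) ≤ D := by
      refine le_trans ?_ hD
      unfold m2_m
      push_cast
      push_cast at h3
      have h8 : (t.1 : ℝ) ≤ D1 := by exact_mod_cast hd2
      have h9 : (0 : ℝ) ≤ ∏ q ∈ t.2.1, (q : ℝ) := Finset.prod_nonneg fun q _ => by positivity
      gcongr
    exact_mod_cast h7
  have step1 : ∑ d ∈ Dv P' D1, ∑ V ∈ (Ps W p1).powerset.filter (fun V => V.card ≤ r + 1),
      ∑ U : Fam P H, (if (∀ h h', h ≠ h' → Disjoint (U h) (U h')) ∧ (∀ h, ∀ p ∈ U h, ¬ p.1 ∣ d) ∧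
          (fp U : ℝ) ≤ DF then
        (E : ℝ) ^ (∑ h, (U h).card) * ((k : ℝ) ^ V.card * (k : ℝ) ^ d.primeFactors.card) *
          rr (fp U * (∏ q ∈ V, q) * d) else 0) =
      ∑ t ∈ I, (E : ℝ) ^ (∑ h, (t.2.2 h).card) *
        ((k : ℝ) ^ t.2.1.card * (k : ℝ) ^ t.1.primeFactors.card) * rr (m2_m t) := by
    rw [hI, Finset.sum_filter, Finset.sum_product]
    refine Finset.sum_congr rfl fun d _ => ?_
    rw [Finset.sum_product]
    rfl
  rw [step1, ← Finset.sum_fiberwise_of_maps_to (g := m2_m) (fun t ht => (hok t ht).2)]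
  refine Finset.sum_le_sum fun m hm => ?_
  have step2 : ∑ t ∈ I.filter (fun t => m2_m t = m), (E : ℝ) ^ (∑ h, (t.2.2 h).card) *
        ((k : ℝ) ^ t.2.1.card * (k : ℝ) ^ t.1.primeFactors.card) * rr (m2_m t) =
      (∑ t ∈ I.filter (fun t => m2_m t = m), ∏ q ∈ m.primeFactors, m2_w H k E (m2_c t q)) * rr m := by
    rw [Finset.sum_mul]
    refine Finset.sum_congr rfl fun t ht => ?_
    rw [Finset.mem_filter] at ht
    rw [← m2_wt hP hP' k E (hok t ht.1).1, ht.2]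
  rw [step2]
  refine mul_le_mul_of_nonneg_right ?_ (hrr m)
  rw [← m2_w_sum H k E K hK]
  refine m2_col _ _ _ _ (fun x => ?_) fun t ht t' ht' hc => ?_
  · rcases x with _ | _ | _ <;> simp only [m2_w] <;> positivity
  · rw [Finset.mem_filter] at ht ht'
    exact m2_inj hP hP' m (hok t ht.1).1 (hok t' ht'.1).1 ht.2 ht'.2 hc

end Pool.Agent.Lib.H57C
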