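import Pool.Agent.Lib.H57C.M0
import Pool.Agent.Lib.H57C.M2

/-!
# Chunk M1: one family `U`, one set `V`, one modulus `d`
-/

open Finset

namespace Pool.Agent.Lib.H57C

open Pool.Agent.Lib.H15P Pool.Agent.Lib.H92G Pool.Agent.Lib.H57M

variable {ι : Type} {s : Seq ι} {P H : Finset ℕ} {i : Option ℕ} {W p1 : ℕ} {R T : ℕ → Finset ℕ}
  {P' : Finset ℕ} {k b : ℕ}

/-- The sum which is evaluated. -/
noncomputable def su (s : Seq ι) (P H : Finset ℕ) (i : Option ℕ) (R T : ℕ → Finset ℕ) (U : Fam P H)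
    (V : Finset ℕ) (d : ℕ) : ℝ :=
  ∑ j ∈ s.S.filter (fun j => inT T d (s.x j)), s.wt j *
    ((if ∀ h, U h ⊆ cfg P H i (s.x j) h then 1 else 0) *
      ∏ q ∈ V, (if s.x j % q ∈ R q then (1 : ℝ) else 0))

theorem m1_one (q h : ℕ) (hq : 0 < q) : ((range q).filter (fun c => q ∣ c + h)).card = 1 := by
  rw [Finset.card_eq_one]
  refine ⟨(q - h % q) % q, ?_⟩
  ext c
  simp only [Finset.mem_filter, Finset.mem_range, Finset.mem_singleton]
  have h1 := Nat.mod_lt h hq
  have h2 : h % q + q * (h / q) = h := Nat.mod_add_div h q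
  constructor
  · rintro ⟨hc, ha⟩
    have h3 : q ∣ c + h % q := by
      have h4 : c + h = (c + h % q) + q * (h / q) := by omega
      rw [h4] at ha
      exact (Nat.dvd_add_left (Dvd.intro _ rfl)).1 ha
    obtain ⟨a, ha⟩ := h3
    have h5 : a = 0 ∨ a = 1 := by
      by_contra hne
      have h6 : 2 ≤ a := by omega
      have h7 : q * 2 ≤ q * a := Nat.mul_le_mul_left _ h6
      omega
    rcases h5 with rfl | rfl
    · have h6 : c = 0 ∧ h % q = 0 := by omega
      rw [h6.1, h6.2]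
      simp
    · have h6 : c = q - h % q := by omega
      have h7 : q - h % q < q := by omega
      rw [h6]
      exact (Nat.mod_eq_of_lt h7).symm
  · rintro rfl
    refine ⟨Nat.mod_lt _ hq, ?_⟩
    rcases Nat.eq_zero_or_pos (h % q) with h0 | h0
    · rw [h0]
      simp only [Nat.sub_zero, Nat.mod_self, zero_add]
      exact Nat.dvd_of_mod_eq_zero h0
    · rw [Nat.mod_eq_of_lt (by omega)]
      have h4 : q - h % q + h = q + q * (h / q) := by omega
      rw [h4]
      exact Dvd.intro (1 + h / q) (by ring)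

theorem m1_ok (hy : Hy s P H i W p1 R T P' k b) (U : Fam P H) (V : Finset ℕ) (d : ℕ)
    (hA : okA P H i U) (hO : okB P H s.Al d U) (hV : V ⊆ Ps W p1) (hd : Squarefree d)
    (hdP : ∀ q ∈ d.primeFactors, q ∈ P') : m2_ok W p1 P' (d, V, U) :=
  ⟨hd, hdP, hV, hA.2, hO.1⟩

open Classical in
/-- The allowed classes. -/
theorem m1_A (s : Seq ι) (R T : ℕ → Finset ℕ) (U : Fam P H) (V : Finset ℕ) (d : ℕ)
    (dis1 : Disjoint (m2_UU U) V) (dis2 : Disjoint (m2_UU U ∪ V) d.primeFactors)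
    (hdis : ∀ h h', h ≠ h' → Disjoint (U h) (U h')) :
    ∃ A : ℕ → Finset ℕ, (∀ q ∈ V, A q = (R q).filter (fun c => s.Al q c)) ∧
      (∀ q ∈ d.primeFactors, A q = T q) ∧
      ∀ (h : {h // h ∈ H}) (p : {p // p ∈ P}), p ∈ U h →
        A p.1 = (range p.1).filter (fun c => p.1 ∣ c + h.1) := by
  refine ⟨fun q => if q ∈ V then (R q).filter (fun c => s.Al q c)
    else if h : ∃ h, ∃ hq : q ∈ P, (⟨q, hq⟩ : {p // p ∈ P}) ∈ U h then
      (range q).filter (fun c => q ∣ c + h.choose.1)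
    else T q, fun q hq => ?_, fun q hq => ?_, fun h p hp => ?_⟩
  · beta_reduce
    rw [if_pos hq]
  · have h1 := Finset.disjoint_right.1 dis2 hq
    rw [Finset.mem_union, not_or, m2_mem_UU] at h1
    beta_reduce
    rw [if_neg h1.2, dif_neg h1.1]
  · have h0 : ∃ h, ∃ hq : p.1 ∈ P, (⟨p.1, hq⟩ : {p // p ∈ P}) ∈ U h := ⟨h, p.2, hp⟩
    have h1 : p.1 ∉ V := Finset.disjoint_left.1 dis1 ((m2_mem_UU _ _).2 h0)
    have h2 : h0.choose = h := by
      by_contra hne
      obtain ⟨hq1, hq2⟩ := h0.choose_spec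
      exact Finset.disjoint_left.1 (hdis _ _ hne) hq2 hp
    beta_reduce
    rw [if_neg h1, dif_pos h0, h2]

open Classical in
/-- Proof. `m = fp U * (∏ V) * d` is squarefree: the `U_h` are disjoint sets of primes of `P` not dividing `d`, the primes in `V` are
`≤ W` and `≠ p1`, those of `P` and `P'` are `> W`. Apply `class_sum` to `m` and
`A q = {c < q : q ∣ c + h}` (one element) if `q ∈ U h`, `A q = (R q).filter Al` if `q ∈ V`, `A q = T q` if `q ∣ d`.
For `j` with `wt j ≠ 0`: `x j % q ∈ R q` iff `x j % q ∈ (R q).filter Al` (`nev`, `al`), `U h ⊆ cfg P H i (x j) h` iff `q ∣ x j + h` for all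
`q ∈ U h` (for `i = some h` the set `U h` is empty). The number of classes is at most `k^|V| k^ω(d)` (`Rk`, `Tk`). -/
theorem m1 (hy : Hy s P H i W p1 R T P' k b) (B : ℝ) (hB0 : 0 ≤ B) (U : Fam P H) (V : Finset ℕ) (d : ℕ)
    (hA : okA P H i U) (hO : okB P H s.Al d U) (hV : V ⊆ Ps W p1) (hd : Squarefree d)
    (hdP : ∀ q ∈ d.primeFactors, q ∈ P')
    (hB : ∀ c : ℕ, (∀ q ∈ (fp U * (∏ q ∈ V, q) * d).primeFactors, s.Al q c) →
      |∑ i ∈ s.S.filter (fun i => s.x i ≡ c [MOD fp U * (∏ q ∈ V, q) * d]), s.wt i -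
        s.X * ∏ q ∈ (fp U * (∏ q ∈ V, q) * d).primeFactors, s.hd q| ≤ B) :
    |su s P H i R T U V d - s.X * (fpr s.hd U *
        (∏ q ∈ V, (((R q).filter (fun c => s.Al q c)).card : ℝ) * s.hd q) *
        ∏ q ∈ d.primeFactors, (((T q).card : ℝ) * s.hd q))| ≤
      (k : ℝ) ^ V.card * (k : ℝ) ^ d.primeFactors.card * B := by
  have ok := m1_ok hy U V d hA hO hV hd hdP
  have hm : Squarefree (fp U * (∏ q ∈ V, q) * d) := (m2_p1 hy.Pp hy.P'p hy.p1p hy.p1W ok).1
  have hpf : (fp U * (∏ q ∈ V, q) * d).primeFactors = m2_UU U ∪ V ∪ d.primeFactors :=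
    m2_pf hy.Pp hy.P'p ok
  have dis1 : Disjoint (m2_UU U) V := m2_VU hy.Pp ok
  have dis2 : Disjoint (m2_UU U ∪ V) d.primeFactors := m2_UVd hy.Pp hy.P'p ok
  obtain ⟨A, aV, ad, aU⟩ := m1_A s R T U V d dis1 dis2 hA.2
  generalize fp U * (∏ q ∈ V, q) * d = m at hm hpf hB
  have cases3 : ∀ q ∈ m.primeFactors, (q ∈ V) ∨ (q ∈ d.primeFactors) ∨
      ∃ (h : {h // h ∈ H}) (p : {p // p ∈ P}), p ∈ U h ∧ p.1 = q := fun q hq => by
    rw [hpf] at hq
    rcases Finset.mem_union.1 hq with hq | hq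
    · rcases Finset.mem_union.1 hq with hq | hq
      · obtain ⟨g, hqP, hq'⟩ := (m2_mem_UU _ _).1 hq
        exact Or.inr (Or.inr ⟨g, ⟨q, hqP⟩, hq', rfl⟩)
      · exact Or.inl hq
    · exact Or.inr (Or.inl hq)
  have memV : ∀ q ∈ V, q ∈ m.primeFactors := fun q hq => by rw [hpf]; simp [hq]
  have memd : ∀ q ∈ d.primeFactors, q ∈ m.primeFactors := fun q hq => by
    rw [hpf]; exact Finset.mem_union_right _ hq
  have memU : ∀ (h : {h // h ∈ H}) (p : {p // p ∈ P}), p ∈ U h → p.1 ∈ m.primeFactors :=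
    fun h p hp => by
      rw [hpf]
      exact Finset.mem_union_left _ (Finset.mem_union_left _ ((m2_mem_UU _ _).2 ⟨h, p.2, hp⟩))
  have key := class_sum s hy.al m hm B hB A
    (fun q hq => by
      rcases cases3 q hq with h | h | ⟨h, p, hp, rfl⟩
      · rw [aV q h]; exact (Finset.filter_subset _ _).trans (hy.Rr q)
      · rw [ad q h]; exact hy.Tr q (hdP q h)
      · rw [aU h p hp]; exact Finset.filter_subset _ _)
    (fun q hq c hc => by
      rcases cases3 q hq with h | h | ⟨h, p, hp, rfl⟩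
      · rw [aV q h] at hc; exact (Finset.mem_filter.1 hc).2
      · rw [ad q h] at hc; exact hy.TA q (hdP q h) c hc
      · rw [aU h p hp] at hc
        exact hO.2 h p hp c (Finset.mem_filter.1 hc).2)
  -- the sum
  have e1 : su s P H i R T U V d =
      ∑ j ∈ s.S.filter (fun j => ∀ q ∈ m.primeFactors, s.x j % q ∈ A q), s.wt j := by
    unfold su
    rw [Finset.sum_filter, Finset.sum_filter]
    refine Finset.sum_congr rfl fun j hj => ?_
    by_cases hw : s.wt j = 0
    · simp [hw]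
    have hnev := hy.nev j hj hw
    have hiff : (∀ q ∈ m.primeFactors, s.x j % q ∈ A q) ↔
        (inT T d (s.x j) ∧ (∀ h, U h ⊆ cfg P H i (s.x j) h) ∧ ∀ q ∈ V, s.x j % q ∈ R q) := by
      constructor
      · intro h
        refine ⟨fun q hq => ?_, fun g p hp => ?_, fun q hq => ?_⟩
        · have := h q (memd q hq)
          rwa [ad q hq] at this
        · have h1 := h p.1 (memU g p hp)
          rw [aU g p hp, Finset.mem_filter] at h1
          have hi : i ≠ some g.1 := fun hi => by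
            rw [hA.1 g hi] at hp
            simp at hp
          unfold cfg
          rw [if_neg hi]
          unfold hit
          rw [Finset.mem_filter]
          refine ⟨Finset.mem_univ _, ?_⟩
          have h2 : s.x j + g.1 ≡ s.x j % p.1 + g.1 [MOD p.1] :=
            Nat.ModEq.add_right _ (Nat.mod_modEq _ _).symm
          exact (Nat.ModEq.dvd_iff h2 dvd_rfl).2 h1.2
        · have := h q (memV q hq)
          rw [aV q hq] at this
          exact (Finset.mem_filter.1 this).1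
      · rintro ⟨h1, h2, h3⟩ q hq
        rcases cases3 q hq with h | h | ⟨g, p, hp, rfl⟩
        · rw [aV q h, Finset.mem_filter]
          refine ⟨h3 q h, ?_⟩
          have h5 := hV h
          simp only [Ps, Finset.mem_filter, Finset.mem_Icc] at h5
          rw [hy.al q _ _ (Nat.mod_modEq _ _)]
          exact hnev q h5.2.1 (Or.inr ⟨h5.1.2, h5.2.2⟩)
        · rw [ad q h]; exact h1 q h
        · rw [aU g p hp, Finset.mem_filter, Finset.mem_range]
          refine ⟨Nat.mod_lt _ (hy.Pp p.1 p.2).1.pos, ?_⟩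
          have hi : i ≠ some g.1 := fun hi => by
            rw [hA.1 g hi] at hp
            simp at hp
          have h4 := h2 g hp
          unfold cfg at h4
          rw [if_neg hi] at h4
          unfold hit at h4
          rw [Finset.mem_filter] at h4
          have h5 : s.x j + g.1 ≡ s.x j % p.1 + g.1 [MOD p.1] :=
            Nat.ModEq.add_right _ (Nat.mod_modEq _ _).symm
          exact (Nat.ModEq.dvd_iff h5 dvd_rfl).1 h4.2
    by_cases hc : ∀ q ∈ m.primeFactors, s.x j % q ∈ A q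
    · rw [if_pos hc]
      obtain ⟨h1, h2, h3⟩ := hiff.1 hc
      rw [if_pos h1, if_pos h2, Finset.prod_congr rfl fun q hq => if_pos (h3 q hq)]
      simp
    · rw [if_neg hc]
      by_cases h1 : inT T d (s.x j)
      · rw [if_pos h1]
        by_cases h2 : ∀ h, U h ⊆ cfg P H i (s.x j) h
        · have h3 : ∃ q ∈ V, ¬ s.x j % q ∈ R q := by
            by_contra h4
            push Not at h4
            exact hc (hiff.2 ⟨h1, h2, h4⟩)
          obtain ⟨q, hq, h4⟩ := h3
          rw [Finset.prod_eq_zero hq (if_neg h4)]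
          simp
        · rw [if_neg h2]
          simp
      · rw [if_neg h1]
  have e2 : ∏ q ∈ m.primeFactors, (((A q).card : ℝ) * s.hd q) = fpr s.hd U *
        (∏ q ∈ V, (((R q).filter (fun c => s.Al q c)).card : ℝ) * s.hd q) *
        ∏ q ∈ d.primeFactors, (((T q).card : ℝ) * s.hd q) := by
    rw [hpf, Finset.prod_union dis2, Finset.prod_union dis1, m2_prod_UU U hA.2]
    congr 1
    · congr 1
      · unfold fpr
        refine Finset.prod_congr rfl fun h _ => Finset.prod_congr rfl fun p hp => ?_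
        rw [aU h p hp, m1_one p.1 h.1 (hy.Pp p.1 p.2).1.pos, Nat.cast_one, one_mul]
      · exact Finset.prod_congr rfl fun q hq => by rw [aV q hq]
    · exact Finset.prod_congr rfl fun q hq => by rw [ad q hq]
  have e3 : ∏ q ∈ m.primeFactors, ((A q).card : ℝ) ≤ (k : ℝ) ^ V.card * (k : ℝ) ^ d.primeFactors.card := by
    rw [hpf, Finset.prod_union dis2, Finset.prod_union dis1, m2_prod_UU U hA.2]
    have h1 : ∏ h, ∏ p ∈ U h, ((A p.1).card : ℝ) = 1 := by
      refine Finset.prod_eq_one fun h _ => Finset.prod_eq_one fun p hp => ?_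
      rw [aU h p hp, m1_one p.1 h.1 (hy.Pp p.1 p.2).1.pos, Nat.cast_one]
    rw [h1, one_mul]
    have h2 : ∏ q ∈ V, ((A q).card : ℝ) ≤ (k : ℝ) ^ V.card := by
      rw [← Finset.prod_const]
      refine Finset.prod_le_prod (fun q _ => Nat.cast_nonneg _) fun q hq => ?_
      rw [aV q hq]
      exact_mod_cast (Finset.card_filter_le _ _).trans (hy.Rk q (hV hq))
    have h3 : ∏ q ∈ d.primeFactors, ((A q).card : ℝ) ≤ (k : ℝ) ^ d.primeFactors.card := by
      rw [← Finset.prod_const]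
      refine Finset.prod_le_prod (fun q _ => Nat.cast_nonneg _) fun q hq => ?_
      rw [ad q hq]
      exact_mod_cast hy.Tk q (hdP q hq)
    have h4 : (0 : ℝ) ≤ ∏ q ∈ d.primeFactors, ((A q).card : ℝ) :=
      Finset.prod_nonneg fun q _ => Nat.cast_nonneg _
    exact mul_le_mul h2 h3 h4 (pow_nonneg (Nat.cast_nonneg _) _)
  rw [← e1, e2] at key
  exact key.trans (mul_le_mul_of_nonneg_right e3 hB0)

/-- The modulus is squarefree and not divisible by `p1`. -/
theorem m1_sqf (hy : Hy s P H i W p1 R T P' k b) (U : Fam P H) (V : Finset ℕ) (d : ℕ)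
    (hA : okA P H i U) (hO : okB P H s.Al d U) (hV : V ⊆ Ps W p1) (hd : Squarefree d)
    (hdP : ∀ q ∈ d.primeFactors, q ∈ P') :
    Squarefree (fp U * (∏ q ∈ V, q) * d) ∧ ¬ p1 ∣ fp U * (∏ q ∈ V, q) * d :=
  m2_p1 hy.Pp hy.P'p hy.p1p hy.p1W (m1_ok hy U V d hA hO hV hd hdP)

/-- Proof. If `U` is not ok every term is `0`: if `i = some h` and `U h ≠ ∅` then `U h ⊆ ∅` is false. If `p ∈ U h ∩ U h'`, `h ≠ h'`, and
`p ∣ x j + h`, `p ∣ x j + h'` then `p ∣ h - h'`, `|h - h'| ≤ W < p`: impossible. If `p ∈ U h`, `p ∣ d` (so `p ∈ P'`), `p ∣ x j + h` and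
`x j % p ∈ T p`: contradiction to `TH` (if `i = some h` then `U h ≠ ∅`, first case). If `p ∈ U h`, `p ∣ x j + h` and some class `c`, `p ∣ c + h`,
is not allowed: `c ≡ x j [MOD p]`, contradiction to `nev` (if `wt j ≠ 0`). -/
theorem m1_zero (hy : Hy s P H i W p1 R T P' k b) (U : Fam P H) (V : Finset ℕ) (d : ℕ)
    (hd : Squarefree d) (hdP : ∀ q ∈ d.primeFactors, q ∈ P')
    (hn : ¬ (okA P H i U ∧ okB P H s.Al d U)) : su s P H i R T U V d = 0 := by
  unfold su
  refine Finset.sum_eq_zero fun j hj => ?_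
  rw [Finset.mem_filter] at hj
  by_cases hw : s.wt j = 0
  · simp [hw]
  have hnev := hy.nev j hj.1 hw
  by_cases h2 : ∀ h, U h ⊆ cfg P H i (s.x j) h
  swap
  · rw [if_neg h2]; simp
  exfalso
  have hi : ∀ (g : {h // h ∈ H}) (p : {p // p ∈ P}), p ∈ U g → i ≠ some g.1 ∧ p.1 ∣ s.x j + g.1 := by
    intro g p hp
    have h3 := h2 g hp
    unfold cfg at h3
    by_cases h4 : i = some g.1
    · rw [if_pos h4] at h3
      simp at h3
    · rw [if_neg h4] at h3
      unfold hit at h3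
      rw [Finset.mem_filter] at h3
      exact ⟨h4, h3.2⟩
  apply hn
  refine ⟨⟨fun g hg => ?_, fun g g' hne => ?_⟩, fun g p hp hpd => ?_, fun g p hp c hc => ?_⟩
  · rw [Finset.eq_empty_iff_forall_notMem]
    intro p hp
    exact (hi g p hp).1 hg
  · rw [Finset.disjoint_left]
    intro p hp hp'
    have h3 := (hi g p hp).2
    have h4 := (hi g' p hp').2
    have hW := (hy.Pp p.1 p.2).2
    have hg := hy.HW g.1 g.2
    have hg' := hy.HW g'.1 g'.2
    have h5 : g.1 ≡ g'.1 [MOD p.1] := by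
      have h6 : s.x j + g.1 ≡ s.x j + g'.1 [MOD p.1] :=
        ((Nat.modEq_zero_iff_dvd).2 h3).trans ((Nat.modEq_zero_iff_dvd).2 h4).symm
      exact Nat.ModEq.add_left_cancel' _ h6
    have h7 : g.1 = g'.1 := Nat.ModEq.eq_of_lt_of_lt h5 (by omega) (by omega)
    exact hne (Subtype.ext h7)
  · obtain ⟨h3, h4⟩ := hi g p hp
    have hpp : p.1 ∈ d.primeFactors := Nat.mem_primeFactors.2 ⟨(hy.Pp p.1 p.2).1, hpd, hd.ne_zero⟩
    have h5 := hj.2 p.1 hpp
    refine hy.TH p.1 (hdP p.1 hpp) _ h5 g.1 g.2 h3 ?_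
    have h6 : s.x j + g.1 ≡ s.x j % p.1 + g.1 [MOD p.1] :=
      Nat.ModEq.add_right _ (Nat.mod_modEq _ _).symm
    exact (Nat.ModEq.dvd_iff h6 dvd_rfl).1 h4
  · obtain ⟨h3, h4⟩ := hi g p hp
    have h5 : s.x j ≡ c [MOD p.1] := by
      have h6 : s.x j + g.1 ≡ c + g.1 [MOD p.1] :=
        ((Nat.modEq_zero_iff_dvd).2 h4).trans ((Nat.modEq_zero_iff_dvd).2 hc).symm
      exact Nat.ModEq.add_right_cancel' _ h6
    rw [← hy.al p.1 _ _ h5]
    exact hnev p.1 (hy.Pp p.1 p.2).1 (Or.inl p.2)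

end Pool.Agent.Lib.H57C
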