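import Pool.Agent.Lib.H57C.M5
import Pool.Agent.Lib.H59C.MER0

/-!
# Chunk M6: the transfer theorem, asymptotic form
-/

open Finset

namespace Pool.Agent.Lib.H57C

open Pool.Agent.Lib.H15P Pool.Agent.Lib.H92G Pool.Agent.Lib.H57M

/-- Mertens, upper bound. -/
theorem m6_inv : ∃ C : ℝ, 0 < C ∧ ∀ x : ℝ, 2 ≤ x → ∀ S : Finset ℕ,
    (∀ q ∈ S, q.Prime ∧ (q : ℝ) ≤ x) → ∑ q ∈ S, 1 / (q : ℝ) ≤ Real.log (Real.log x) + C := by
  obtain ⟨C, hC, h⟩ := H59C.mertens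
  have hl2 : 0 < Real.log 2 := Real.log_pos (by norm_num)
  refine ⟨|Real.log (Real.log 2)| + C / Real.log 2 + Real.log 2, by positivity, ?_⟩
  intro x hx S hS
  have h1 := h 2 (x + 1) le_rfl (by linarith)
  have h2 : ∑ q ∈ S, 1 / (q : ℝ) ≤ ∑ q ∈ H59C.PR 2 (x + 1), 1 / (q : ℝ) := by
    refine sum_le_sum_of_subset_of_nonneg ?_ (fun q _ _ => by positivity)
    intro q hq
    rw [H59C.mem_PR]
    have := hS q hq
    refine ⟨this.1, ?_, by linarith⟩
    exact_mod_cast this.1.two_le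
  have h3 := (abs_le.1 h1).2
  have hlx : 0 < Real.log x := Real.log_pos (by linarith)
  have h4 : Real.log (Real.log (x + 1)) ≤ Real.log 2 + Real.log (Real.log x) := by
    have h5 : Real.log (x + 1) ≤ 2 * Real.log x := by
      have h6 : Real.log (x + 1) ≤ Real.log (x ^ 2) :=
        Real.log_le_log (by linarith) (by nlinarith)
      rw [Real.log_pow] at h6
      exact_mod_cast h6
    have h7 : 0 < Real.log (x + 1) := Real.log_pos (by linarith)
    have h8 := Real.log_le_log h7 h5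
    rw [Real.log_mul (by norm_num) hlx.ne'] at h8
    exact h8
  have h5 := neg_abs_le (Real.log (Real.log 2))
  linarith

/-- Products over primes. -/
theorem m6_prod (C : ℝ) (h : ∀ x : ℝ, 2 ≤ x → ∀ S : Finset ℕ,
    (∀ q ∈ S, q.Prime ∧ (q : ℝ) ≤ x) → ∑ q ∈ S, 1 / (q : ℝ) ≤ Real.log (Real.log x) + C)
    (a : ℕ) (x : ℝ) (hx : 2 ≤ x) (S : Finset ℕ) (hS : ∀ q ∈ S, q.Prime ∧ (q : ℝ) ≤ x) :
    Real.exp (∑ q ∈ S, (a : ℝ) / (q : ℝ)) ≤ Real.exp (a * C) * Real.log x ^ a := by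
  have hlx : 0 < Real.log x := Real.log_pos (by linarith)
  have h1 := h x hx S hS
  have h2 : ∑ q ∈ S, (a : ℝ) / (q : ℝ) = a * ∑ q ∈ S, 1 / (q : ℝ) := by
    rw [mul_sum]
    refine sum_congr rfl (fun q _ => by ring)
  rw [h2]
  have h3 : (a : ℝ) * ∑ q ∈ S, 1 / (q : ℝ) ≤ a * C + a * Real.log (Real.log x) := by
    have := mul_le_mul_of_nonneg_left h1 (Nat.cast_nonneg (α := ℝ) a)
    linarith
  refine (Real.exp_le_exp.2 h3).trans (le_of_eq ?_)
  rw [Real.exp_add, Real.exp_nat_mul (Real.log (Real.log x)), Real.exp_log hlx]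

/-- Squarefree sums. -/
theorem m6_sqf (D : ℕ) (a : ℝ) (ha : 0 ≤ a) :
    ∑ d ∈ (Icc 1 D).filter Squarefree, a ^ d.primeFactors.card / (d : ℝ) ≤
      Real.exp (∑ q ∈ (Icc 1 D).filter Nat.Prime, a / (q : ℝ)) := by
  classical
  have h1 : Real.exp (∑ q ∈ (Icc 1 D).filter Nat.Prime, a / (q : ℝ)) ≥
      ∏ q ∈ (Icc 1 D).filter Nat.Prime, (1 + a / (q : ℝ)) := by
    rw [Real.exp_sum]
    refine prod_le_prod (fun q _ => by positivity) (fun q _ => ?_)
    have := Real.add_one_le_exp (a / (q : ℝ))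
    linarith
  refine le_trans ?_ h1
  rw [Finset.prod_one_add]
  have h2 : ∀ d ∈ (Icc 1 D).filter Squarefree, a ^ d.primeFactors.card / (d : ℝ) =
      ∏ q ∈ d.primeFactors, a / (q : ℝ) := by
    intro d hd
    rw [prod_div_distrib, prod_const]
    congr 1
    have := Nat.prod_primeFactors_of_squarefree (mem_filter.1 hd).2
    calc (d : ℝ) = ((∏ q ∈ d.primeFactors, q : ℕ) : ℝ) := by rw [this]
      _ = ∏ q ∈ d.primeFactors, (q : ℝ) := by rw [Nat.cast_prod]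
  rw [sum_congr rfl h2]
  have hinj : Set.InjOn (fun d : ℕ => d.primeFactors) ((Icc 1 D).filter Squarefree : Finset ℕ) := by
    intro d hd d' hd' hh
    have a1 := Nat.prod_primeFactors_of_squarefree (mem_filter.1 (mem_coe.1 hd)).2
    have a2 := Nat.prod_primeFactors_of_squarefree (mem_filter.1 (mem_coe.1 hd')).2
    have hh' : d.primeFactors = d'.primeFactors := hh
    rw [← a1, ← a2, hh']
  have h3 : ∑ d ∈ (Icc 1 D).filter Squarefree, ∏ q ∈ d.primeFactors, a / (q : ℝ) =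
      ∑ E ∈ ((Icc 1 D).filter Squarefree).image (fun d : ℕ => d.primeFactors),
        ∏ q ∈ E, a / (q : ℝ) := by
    rw [sum_image hinj]
  rw [h3]
  refine sum_le_sum_of_subset_of_nonneg ?_ (fun E _ _ => prod_nonneg (fun q _ => by positivity))
  intro E hE
  rw [mem_image] at hE
  obtain ⟨d, hd, rfl⟩ := hE
  rw [mem_filter, mem_Icc] at hd
  rw [mem_powerset]
  intro q hq
  rw [mem_filter, mem_Icc]
  have hp := Nat.prime_of_mem_primeFactors hq
  have hle := Nat.le_of_dvd (by omega) (Nat.dvd_of_mem_primeFactors hq)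
  exact ⟨⟨hp.one_le, by omega⟩, hp⟩

theorem m6_log (s B : ℝ) : ∃ x0 : ℝ, ∀ x : ℝ, x0 ≤ x → B * Real.log x ^ s ≤ x := by
  have h := (isLittleO_log_rpow_rpow_atTop s (zero_lt_one)).def (c := 1 / (|B| + 1)) (by positivity)
  obtain ⟨x1, hx1⟩ := Filter.eventually_atTop.1 h
  refine ⟨max x1 1, fun x hx => ?_⟩
  have h1 := hx1 x ((le_max_left _ _).trans hx)
  have hx0 : 1 ≤ x := (le_max_right _ _).trans hx
  have hl : 0 ≤ Real.log x := Real.log_nonneg hx0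
  have hx0' : (0 : ℝ) ≤ x := by linarith
  rw [Real.rpow_one, Real.norm_eq_abs, Real.norm_eq_abs, abs_of_nonneg (Real.rpow_nonneg hl _),
    abs_of_nonneg hx0'] at h1
  have hls : 0 ≤ Real.log x ^ s := Real.rpow_nonneg hl _
  calc B * Real.log x ^ s ≤ |B| * Real.log x ^ s := mul_le_mul_of_nonneg_right (le_abs_self _) hls
    _ ≤ |B| * (1 / (|B| + 1) * x) := mul_le_mul_of_nonneg_left h1 (abs_nonneg _)
    _ = (|B| / (|B| + 1)) * x := by ring
    _ ≤ 1 * x := by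
        apply mul_le_mul_of_nonneg_right _ (by linarith)
        rw [div_le_one (by positivity)]
        linarith
    _ = x := one_mul x

/-- The numerical conditions. -/
theorem m6_L (K k M B : ℕ) (C θ : ℝ) (hθ : 0 < θ) : ∃ L0 : ℝ, ∀ L : ℝ, L0 ≤ L →
    6 ≤ L ∧ 1800 * (K : ℝ) ≤ L ∧ Real.exp ((12 * K : ℕ) * C) ≤ L ∧ Real.exp ((8 * k : ℕ) * C) ≤ L ∧
    Real.exp ((6 * k : ℕ) * C) * (((B : ℝ) + 1) * Real.log L) ^ (6 * k) ≤ L ∧
    ((B : ℝ) * Real.log L + Real.log 2) * (2 * M * Real.log L + 3) ≤ θ * L := by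
  obtain ⟨x1, h1⟩ := m6_log (6 * k : ℕ) (Real.exp ((6 * k : ℕ) * C) * ((B : ℝ) + 1) ^ (6 * k))
  obtain ⟨x2, h2⟩ := m6_log 2 (((B : ℝ) + 1) * (2 * M + 3) / θ)
  refine ⟨max 6 (max (1800 * (K : ℝ)) (max (Real.exp ((12 * K : ℕ) * C))
    (max (Real.exp ((8 * k : ℕ) * C)) (max x1 x2)))), ?_⟩
  intro L hL
  rw [max_le_iff, max_le_iff, max_le_iff, max_le_iff, max_le_iff] at hL
  obtain ⟨a1, a2, a3, a4, a5, a6⟩ := hL
  refine ⟨a1, a2, a3, a4, ?_, ?_⟩
  · have h3 := h1 L a5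
    rw [Real.rpow_natCast] at h3
    rw [mul_pow]
    linarith [h3, mul_assoc (Real.exp ((6 * k : ℕ) * C)) (((B : ℝ) + 1) ^ (6 * k)) (Real.log L ^ (6 * k))]
  · have h3 := h2 L a6
    have hl1 : 1 ≤ Real.log L := by
      rw [Real.le_log_iff_exp_le (by linarith)]
      have := Real.exp_one_lt_d9
      linarith
    have hl2 : Real.log 2 ≤ Real.log L := Real.log_le_log (by norm_num) (by linarith)
    have e2 : Real.log L ^ (2 : ℝ) = Real.log L ^ 2 := by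
      rw [← Real.rpow_natCast]
      norm_num
    rw [e2, div_mul_eq_mul_div, div_le_iff₀ hθ] at h3
    have hB : (0 : ℝ) ≤ B := Nat.cast_nonneg _
    have hM : (0 : ℝ) ≤ M := Nat.cast_nonneg _
    calc ((B : ℝ) * Real.log L + Real.log 2) * (2 * M * Real.log L + 3)
        ≤ (((B : ℝ) + 1) * Real.log L) * ((2 * M + 3) * Real.log L) := by
          apply mul_le_mul
          · linarith
          · nlinarith
          · positivity
          · positivity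
      _ = ((B : ℝ) + 1) * (2 * M + 3) * Real.log L ^ 2 := by ring
      _ ≤ L * θ := h3
      _ = θ * L := by ring

theorem m6_final (K k cF A0 B : ℕ) (L n X b W : ℝ) (hL : 6 ≤ L) (hKL : 1800 * (K : ℝ) ≤ L)
    (hn : 0 ≤ n) (hX0 : 0 ≤ X) (hb0 : 0 ≤ b) (hX : X ≤ n * L ^ 2) (hb : b ≤ L ^ 2)
    (hW : L ^ B ≤ W) (hB : A0 + cF + 12 * K + 8 * k + 8 ≤ B) :
    L ^ cF * (2 * (n / L ^ (A0 + cF + 1)) + X * (L ^ (12 * K + 1) * L ^ (8 * k + 1) *
      (L / L ^ (2 * (A0 + cF + 12 * K + 8 * k + 6)) + 100 * K * 3 * (b + 1) / W))) ≤ n / L ^ A0 := by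
  have hL0 : 0 < L := by linarith
  have hL1 : 1 ≤ L := by linarith
  have hWp : 0 < W := lt_of_lt_of_le (pow_pos hL0 _) hW
  have hK0 : (0 : ℝ) ≤ K := Nat.cast_nonneg _
  have t1 : L / L ^ (2 * (A0 + cF + 12 * K + 8 * k + 6)) ≤
      1 / (L ^ A0 * L ^ cF * L ^ (12 * K + 1) * L ^ (8 * k + 1) * L ^ 3) := by
    rw [div_le_div_iff₀ (by positivity) (by positivity), one_mul]
    have e : L * (L ^ A0 * L ^ cF * L ^ (12 * K + 1) * L ^ (8 * k + 1) * L ^ 3) =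
        L ^ (A0 + cF + 12 * K + 8 * k + 6) := by
      rw [← pow_add, ← pow_add, ← pow_add, ← pow_add, ← pow_succ']
      congr 1
      ring
    rw [e]
    exact pow_le_pow_right₀ hL1 (by omega)
  have t2 : 100 * K * 3 * (b + 1) / W ≤
      1 / (3 * (L ^ A0 * L ^ cF * L ^ (12 * K + 1) * L ^ (8 * k + 1) * L ^ 2)) := by
    rw [div_le_div_iff₀ hWp (by positivity), one_mul]
    have e : L ^ (A0 + cF + 12 * K + 8 * k + 8) ≤ W := (pow_le_pow_right₀ hL1 hB).trans hW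
    refine le_trans ?_ e
    have e2 : L ^ (A0 + cF + 12 * K + 8 * k + 8) =
        (L ^ 2 * L ^ 2) * (L ^ A0 * L ^ cF * L ^ (12 * K + 1) * L ^ (8 * k + 1) * L ^ 2) := by
      rw [← pow_add, ← pow_add, ← pow_add, ← pow_add, ← pow_add, ← pow_add]
      congr 1
      ring
    rw [e2]
    have hg : 0 < L ^ A0 * L ^ cF * L ^ (12 * K + 1) * L ^ (8 * k + 1) * L ^ 2 := by positivity
    have e3 : 100 * (K : ℝ) * 3 * (b + 1) * 3 ≤ L ^ 2 * L ^ 2 := by
      have hb1 : b + 1 ≤ 2 * L ^ 2 := by nlinarith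
      calc 100 * (K : ℝ) * 3 * (b + 1) * 3 ≤ 100 * (K : ℝ) * 3 * (2 * L ^ 2) * 3 := by
            have : 0 ≤ 100 * (K : ℝ) * 3 := by positivity
            nlinarith
        _ = 1800 * K * L ^ 2 := by ring
        _ ≤ L * L ^ 2 := mul_le_mul_of_nonneg_right hKL (by positivity)
        _ ≤ L ^ 2 * L ^ 2 := by
            apply mul_le_mul_of_nonneg_right _ (by positivity)
            nlinarith
    calc 100 * (K : ℝ) * 3 * (b + 1) * (3 * (L ^ A0 * L ^ cF * L ^ (12 * K + 1) * L ^ (8 * k + 1) * L ^ 2))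
        = (100 * (K : ℝ) * 3 * (b + 1) * 3) *
          (L ^ A0 * L ^ cF * L ^ (12 * K + 1) * L ^ (8 * k + 1) * L ^ 2) := by ring
      _ ≤ _ := mul_le_mul_of_nonneg_right e3 hg.le
  have t3 : L / L ^ (2 * (A0 + cF + 12 * K + 8 * k + 6)) + 100 * K * 3 * (b + 1) / W ≤
      1 / (L ^ A0 * L ^ cF * L ^ (12 * K + 1) * L ^ (8 * k + 1) * L ^ 2) * (1 / L + 1 / 3) := by
    refine (add_le_add t1 t2).trans (le_of_eq ?_)
    field_simp
  have hpos : 0 ≤ L ^ (12 * K + 1) * L ^ (8 * k + 1) *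
      (1 / (L ^ A0 * L ^ cF * L ^ (12 * K + 1) * L ^ (8 * k + 1) * L ^ 2) * (1 / L + 1 / 3)) := by
    positivity
  have t4 : X * (L ^ (12 * K + 1) * L ^ (8 * k + 1) *
      (L / L ^ (2 * (A0 + cF + 12 * K + 8 * k + 6)) + 100 * K * 3 * (b + 1) / W)) ≤
      n * L ^ 2 * (L ^ (12 * K + 1) * L ^ (8 * k + 1) *
      (1 / (L ^ A0 * L ^ cF * L ^ (12 * K + 1) * L ^ (8 * k + 1) * L ^ 2) * (1 / L + 1 / 3))) := by
    have hp1 : 0 ≤ L ^ (12 * K + 1) * L ^ (8 * k + 1) *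
        (L / L ^ (2 * (A0 + cF + 12 * K + 8 * k + 6)) + 100 * K * 3 * (b + 1) / W) := by
      positivity
    refine (mul_le_mul_of_nonneg_right hX hp1).trans ?_
    refine mul_le_mul_of_nonneg_left ?_ (by positivity)
    exact mul_le_mul_of_nonneg_left t3 (by positivity)
  refine (mul_le_mul_of_nonneg_left (add_le_add le_rfl t4) (by positivity)).trans ?_
  have e5 : L ^ cF * (2 * (n / L ^ (A0 + cF + 1)) + n * L ^ 2 * (L ^ (12 * K + 1) * L ^ (8 * k + 1) *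
      (1 / (L ^ A0 * L ^ cF * L ^ (12 * K + 1) * L ^ (8 * k + 1) * L ^ 2) * (1 / L + 1 / 3)))) =
      n / L ^ A0 * (3 / L + 1 / 3) := by
    rw [pow_add L (A0 + cF) 1, pow_add L A0 cF, pow_one]
    field_simp
    ring
  rw [e5]
  have h6 : 3 / L ≤ 1 / 2 := by
    rw [div_le_iff₀ hL0]
    linarith
  have h7 : 0 ≤ n / L ^ A0 := by positivity
  nlinarith

theorem mta (K k cF A0 : ℕ) (hK : 1 ≤ K) (hk : 1 ≤ k) : ∃ A B0 : ℕ, ∀ B : ℕ, B0 ≤ B →
    ∀ θ : ℝ, 0 < θ → θ ≤ 1 / 100 → ∃ n0 : ℕ, ∀ n : ℕ, n0 ≤ n →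
    ∀ {ι : Type} (s : Seq ι) (P H : Finset ℕ) (i : Option ℕ) (W p1 : ℕ) (R T : ℕ → Finset ℕ)
    (P' : Finset ℕ) (b : ℕ) (hr : ℕ → ℝ) (F : Fam P H → ℝ) (D : ℕ),
    Hy s P H i W p1 R T P' k b → (∀ q : ℕ, q.Prime → 0 ≤ hr q) →
    (∀ q : ℕ, q.Prime → hr q ≤ 2 / q) →
    (∀ q : ℕ, q.Prime → W < q → |hr q - 1 / q| ≤ 2 / (q : ℝ) ^ 2) →
    H.card = K → W = ⌈Real.log n ^ B⌉₊ → (∀ p ∈ P, p ≤ n) → s.X ≤ n * Real.log n ^ 2 →
    (b : ℝ) ≤ Real.log n ^ 2 → (∀ S, 0 ≤ F S) →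
    ExJ P F (Real.log n ^ cF) 3 ((n : ℝ) ^ (2 * θ)) → (n : ℝ) ^ (1 / 2 - θ) ≤ D →
    Lvl s p1 D (K * 3 + 2 * k) (n / Real.log n ^ A) →
    ∑ d ∈ Dv P' (Lv n θ),
      |∑ j ∈ s.S.filter (fun j => inT T d (s.x j)),
          s.wt j * (F (cfg P H i (s.x j)) * Sg (Ps W p1) R (s.x j)) -
        s.X * (AE P H i F * VS (Ps W p1) R s.hd s.Al) *
          ∏ q ∈ d.primeFactors, (((T q).card : ℝ) * hr q)| ≤ n / Real.log n ^ A0 := by
  obtain ⟨C, hC, hCh⟩ := m6_inv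
  set M : ℕ := A0 + cF + 12 * K + 8 * k + 6 with hM
  refine ⟨A0 + cF + 1, A0 + cF + 12 * K + 8 * k + 8, fun B hB θ hθ hθ1 => ?_⟩
  obtain ⟨L0, hL0⟩ := m6_L K k M B C θ hθ
  refine ⟨⌈Real.exp (max L0 6)⌉₊, fun n hn ι s P H i W p1 R T P' b hr F D hy hr0 hr2 hrq hKc hW
    hPn hX hb F0 hF hD hLv => ?_⟩
  have hn1 : Real.exp (max L0 6) ≤ n := (Nat.le_ceil _).trans (by exact_mod_cast hn)
  have hn0 : (0 : ℝ) < n := lt_of_lt_of_le (Real.exp_pos _) hn1
  have hLL : max L0 6 ≤ Real.log n := (Real.le_log_iff_exp_le hn0).2 hn1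
  obtain ⟨a1, a2, a3, a4, a5, a6⟩ := hL0 (Real.log n) ((le_max_left _ _).trans hLL)
  set L := Real.log n with hLdef
  have hLp : 0 < L := by linarith
  have hL1 : 1 ≤ L := by linarith
  have hnL : (n : ℝ) = Real.exp L := (Real.exp_log hn0).symm
  have hn2 : (2 : ℝ) ≤ n := by
    rw [hnL]
    have := Real.add_one_le_exp L
    linarith
  have hlL : 0 ≤ Real.log L := Real.log_nonneg hL1
  have hWr : (W : ℝ) ≤ 2 * L ^ B ∧ L ^ B ≤ W := by
    rw [hW]
    have h1 := Nat.ceil_lt_add_one (a := L ^ B) (by positivity)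
    have h2 : 1 ≤ L ^ B := one_le_pow₀ hL1
    exact ⟨by linarith, Nat.le_ceil _⟩
  have hW2 : (2 : ℝ) ≤ W := by
    have h3 : L ^ 1 ≤ L ^ B := pow_le_pow_right₀ hL1 (by omega)
    rw [pow_one] at h3
    linarith [hWr.2]
  have hlW : Real.log W ≤ B * Real.log L + Real.log 2 := by
    have h3 := Real.log_le_log (by linarith) hWr.1
    rw [Real.log_mul (by norm_num) (by positivity), Real.log_pow] at h3
    linarith
  have hl2L : Real.log 2 ≤ Real.log L := Real.log_le_log (by norm_num) (by linarith)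
  have hlW' : Real.log W ≤ ((B : ℝ) + 1) * Real.log L := by linarith
  have hlW0 : 0 < Real.log W := Real.log_pos (by linarith)
  -- the parameter `r`
  set r : ℕ := 2 * ⌈(M : ℝ) * Real.log L⌉₊ with hrd
  have hre : Even r := ⟨⌈(M : ℝ) * Real.log L⌉₊, by rw [hrd]; ring⟩
  have hrlo : 2 * (M : ℝ) * Real.log L ≤ r := by
    rw [hrd]
    push_cast
    have := Nat.le_ceil ((M : ℝ) * Real.log L)
    linarith
  have hrhi : (r : ℝ) + 1 ≤ 2 * (M : ℝ) * Real.log L + 3 := by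
    rw [hrd]
    push_cast
    have := Nat.ceil_lt_add_one (a := (M : ℝ) * Real.log L) (by positivity)
    linarith
  -- the products
  have hPi : ∏ p ∈ P, (1 + 4 * ((3 : ℕ) : ℝ) / p) ^ K ≤ L ^ (12 * K + 1) := by
    have h1 : ∏ p ∈ P, (1 + 4 * ((3 : ℕ) : ℝ) / p) ^ K ≤ Real.exp (∑ q ∈ P, ((12 * K : ℕ) : ℝ) / (q : ℝ)) := by
      rw [Real.exp_sum]
      refine prod_le_prod (fun q _ => by positivity) (fun q _ => ?_)
      have h2 := Real.add_one_le_exp (4 * ((3 : ℕ) : ℝ) / q)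
      calc (1 + 4 * ((3 : ℕ) : ℝ) / q) ^ K ≤ Real.exp (4 * ((3 : ℕ) : ℝ) / q) ^ K :=
            pow_le_pow_left₀ (by positivity) (by linarith) _
        _ = Real.exp (((12 * K : ℕ) : ℝ) / (q : ℝ)) := by
            rw [← Real.exp_nat_mul]
            congr 1
            push_cast
            ring
    refine h1.trans ((m6_prod C hCh (12 * K) n hn2 P (fun q hq => ⟨(hy.Pp q hq).1, by exact_mod_cast hPn q hq⟩)).trans ?_)
    rw [pow_succ, mul_comm (L ^ (12 * K)) L]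
    exact mul_le_mul_of_nonneg_right a3 (by positivity)
  have hD1n : (Lv n θ : ℝ) ≤ (n : ℝ) ^ (1 / 2 - 4 * θ) := by
    unfold Lv
    exact Nat.floor_le (by positivity)
  have hn1' : (1 : ℝ) ≤ n := by linarith
  have hLvn : (Lv n θ : ℝ) ≤ n := by
    refine hD1n.trans ?_
    calc (n : ℝ) ^ (1 / 2 - 4 * θ) ≤ (n : ℝ) ^ (1 : ℝ) :=
          Real.rpow_le_rpow_of_exponent_le hn1' (by linarith)
      _ = n := Real.rpow_one _
  have hG : ∑ d ∈ (Icc 1 (Lv n θ)).filter Squarefree, (8 * (k : ℝ)) ^ d.primeFactors.card / d ≤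
      L ^ (8 * k + 1) := by
    refine (m6_sqf (Lv n θ) (8 * (k : ℝ)) (by positivity)).trans ?_
    have h1 := m6_prod C hCh (8 * k) n hn2 ((Icc 1 (Lv n θ)).filter Nat.Prime) (fun q hq => by
      rw [mem_filter, mem_Icc] at hq
      refine ⟨hq.2, ?_⟩
      have : (q : ℝ) ≤ (Lv n θ : ℝ) := by exact_mod_cast hq.1.2
      linarith)
    push_cast at h1 a4
    refine h1.trans ?_
    rw [pow_succ, mul_comm (L ^ (8 * k)) L]
    exact mul_le_mul_of_nonneg_right a4 (by positivity)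
  have hτ : Sieve.poly (Sieve.cE (r + 1)) (fun q : ℕ => 2 * (k : ℝ) / q) (Ps W p1) ≤
      L / L ^ (2 * M) := by
    have h1 := Sieve.rankinE (f := fun q : ℕ => 2 * (k : ℝ) / q) (Q := Ps W p1)
      (fun p _ => by positivity) (r + 1) (l := Real.exp 1) (Real.exp_pos _).le
    have h2 : ∏ p ∈ Ps W p1, (1 + Real.exp 1 * (2 * (k : ℝ) / p)) ≤
        Real.exp (∑ q ∈ Ps W p1, ((6 * k : ℕ) : ℝ) / (q : ℝ)) := by
      rw [Real.exp_sum]
      refine prod_le_prod (fun q _ => by positivity) (fun q _ => ?_)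
      have h3 := Real.add_one_le_exp (((6 * k : ℕ) : ℝ) / (q : ℝ))
      refine le_trans ?_ h3
      have h4 : Real.exp 1 * (2 * (k : ℝ) / q) ≤ ((6 * k : ℕ) : ℝ) / (q : ℝ) := by
        have h5 : Real.exp 1 ≤ 3 := by
          have := Real.exp_one_lt_d9
          linarith
        calc Real.exp 1 * (2 * (k : ℝ) / q) ≤ 3 * (2 * (k : ℝ) / q) :=
              mul_le_mul_of_nonneg_right h5 (by positivity)
          _ = ((6 * k : ℕ) : ℝ) / (q : ℝ) := by
              push_cast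
              ring
      linarith
    have h3 := m6_prod C hCh (6 * k) W hW2 (Ps W p1) (fun q hq => by
      unfold Ps at hq
      rw [mem_filter, mem_Icc] at hq
      exact ⟨hq.2.1, by exact_mod_cast hq.1.2⟩)
    have h4 : Real.exp ((6 * k : ℕ) * C) * Real.log W ^ (6 * k) ≤ L := by
      refine le_trans ?_ a5
      refine mul_le_mul_of_nonneg_left ?_ (Real.exp_pos _).le
      exact pow_le_pow_left₀ hlW0.le hlW' _
    have h5 : Real.exp 1 ^ (r + 1) * Sieve.poly (Sieve.cE (r + 1)) (fun q : ℕ => 2 * (k : ℝ) / q)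
        (Ps W p1) ≤ L := h1.trans (h2.trans (h3.trans h4))
    have h6 : L ^ (2 * M) ≤ Real.exp 1 ^ (r + 1) := by
      rw [← Real.exp_nat_mul, mul_one]
      calc L ^ (2 * M) = Real.exp ((2 * M : ℕ) * Real.log L) := by
            rw [Real.exp_nat_mul, Real.exp_log hLp]
        _ ≤ Real.exp ((r + 1 : ℕ) : ℝ) := by
            apply Real.exp_le_exp.2
            push_cast
            linarith
    have h7 : 0 ≤ Sieve.poly (Sieve.cE (r + 1)) (fun q : ℕ => 2 * (k : ℝ) / q) (Ps W p1) := by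
      apply Sieve.poly_nonneg
      · intro D
        unfold Sieve.cE
        split_ifs <;> norm_num
      · intro p _
        positivity
    rw [le_div_iff₀ (by positivity), mul_comm]
    exact (mul_le_mul_of_nonneg_right h6 h7).trans h5
  -- the level
  have hWn : (W : ℝ) ^ (r + 1) ≤ (n : ℝ) ^ θ := by
    have h1 : (W : ℝ) ^ (r + 1) = Real.exp ((r + 1 : ℕ) * Real.log W) := by
      rw [Real.exp_nat_mul, Real.exp_log (by linarith)]
    rw [h1, Real.rpow_def_of_pos hn0]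
    apply Real.exp_le_exp.2
    rw [← hLdef]
    push_cast
    calc ((r : ℝ) + 1) * Real.log W ≤ (2 * (M : ℝ) * Real.log L + 3) * (B * Real.log L + Real.log 2) :=
          mul_le_mul hrhi hlW hlW0.le (by positivity)
      _ = (B * Real.log L + Real.log 2) * (2 * M * Real.log L + 3) := by ring
      _ ≤ θ * L := a6
      _ = L * θ := by ring
  have hDD : (n : ℝ) ^ (2 * θ) * (W : ℝ) ^ (r + 1) * (Lv n θ : ℕ) ≤ D := by
    refine le_trans ?_ hD
    calc (n : ℝ) ^ (2 * θ) * (W : ℝ) ^ (r + 1) * (Lv n θ : ℕ)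
        ≤ (n : ℝ) ^ (2 * θ) * (n : ℝ) ^ θ * (n : ℝ) ^ (1 / 2 - 4 * θ) := by
          apply mul_le_mul _ hD1n (Nat.cast_nonneg _) (by positivity)
          exact mul_le_mul_of_nonneg_left hWn (by positivity)
      _ = (n : ℝ) ^ (1 / 2 - θ) := by
          rw [← Real.rpow_add hn0, ← Real.rpow_add hn0]
          congr 1
          ring
  have hmt := mt s P H i W p1 R T P' k b K 3 r D (Lv n θ) hy hr hr0 hr2 hrq hKc hK (by norm_num) hk hre
    F F0 (L ^ cF) ((n : ℝ) ^ (2 * θ)) (by positivity) (by positivity) hF hDD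
    (n / L ^ (A0 + cF + 1)) hLv (L ^ (12 * K + 1)) (L ^ (8 * k + 1)) (L / L ^ (2 * M)) hPi hG hτ
  refine hmt.trans ?_
  have hfin := m6_final K k cF A0 B L n s.X b W a1 a2 (Nat.cast_nonneg _) hy.X0 (Nat.cast_nonneg _)
    hX hb hWr.2 hB
  rw [← hM] at hfin
  push_cast at hfin ⊢
  exact hfin

end Pool.Agent.Lib.H57C
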