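import Pool.Agent.Lib.H57C.Defs

/-!
# Definitions for the transfer theorem
-/

open Finset

namespace Pool.Agent.Lib.H57C

open Pool.Agent.Lib.H15P Pool.Agent.Lib.H92G Pool.Agent.Lib.H57M

/-- Families of sets of primes. -/
abbrev Fam (P H : Finset ℕ) : Type := {h // h ∈ H} → Finset {p // p ∈ P}

/-- `U_i = ∅`, and the sets are pairwise disjoint. -/
def okA (P H : Finset ℕ) (i : Option ℕ) (U : Fam P H) : Prop :=
  (∀ h : {h // h ∈ H}, i = some h.1 → U h = ∅) ∧ ∀ h h', h ≠ h' → Disjoint (U h) (U h')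

/-- The primes in the `U_h` do not divide `d`, and their classes `-h` are allowed. -/
def okB (P H : Finset ℕ) (Al : ℕ → ℕ → Prop) (d : ℕ) (U : Fam P H) : Prop :=
  (∀ h, ∀ p ∈ U h, ¬ p.1 ∣ d) ∧ ∀ h, ∀ p ∈ U h, ∀ c : ℕ, p.1 ∣ c + h.1 → Al p.1 c

/-- The product of all primes in the `U_h`. -/
def fp {P H : Finset ℕ} (U : Fam P H) : ℕ := ∏ h, ∏ p ∈ U h, p.1

/-- `∏_h ∏_{p ∈ U_h} f p` -/
noncomputable def fpr {P H : Finset ℕ} (f : ℕ → ℝ) (U : Fam P H) : ℝ := ∏ h, ∏ p ∈ U h, f p.1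

/-- The reference densities: `1/p`, resp. `1/(p-1)` if a form is prime. -/
noncomputable def hdr (i : Option ℕ) (p : ℕ) : ℝ := if i = none then 1 / (p : ℝ) else 1 / ((p : ℝ) - 1)

open Classical in
/-- The main term for the modulus `d`. -/
noncomputable def Am (P H : Finset ℕ) (i : Option ℕ) (Al : ℕ → ℕ → Prop) (hd : ℕ → ℝ) (d : ℕ)
    (c : Fam P H → ℝ) : ℝ :=
  ∑ U : Fam P H, if okA P H i U ∧ okB P H Al d U then c U * fpr hd U else 0

end Pool.Agent.Lib.H57C
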