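import Pool.Agent.Lib.H57C.FIN

/-!
# Project H57C, part (i): the final form of the theorem
-/

open Finset

namespace Pool.Agent.Lib.H57C

/-- If the product `∏_{h ∈ H} (x + h) · (N - x)` has no fixed prime divisor then for every `H' ⊆ H` the bad classes modulo
`q` are not all classes. -/
theorem main1_Rb (N : ℕ) (H' H : Finset ℕ) (hs : H' ⊆ H) (q : ℕ) (hq : q.Prime)
    (hn : ∃ v : ℤ, ¬ (q : ℤ) ∣ (∏ h ∈ H, (v + (h : ℤ))) * ((N : ℤ) - v)) :
    (Rb N H' q).card < q := by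
  obtain ⟨v, hv⟩ := hn
  have hq0 : (0 : ℤ) < q := by exact_mod_cast hq.pos
  set c : ℕ := (v % q).toNat with hc
  have hc0 : (0 : ℤ) ≤ v % q := Int.emod_nonneg _ hq0.ne'
  have hcc : (c : ℤ) = v % q := by rw [hc, Int.toNat_of_nonneg hc0]
  have hcq : c < q := by
    have h1 : (c : ℤ) < q := by rw [hcc]; exact Int.emod_lt_of_pos _ hq0
    exact_mod_cast h1
  have hcv : (q : ℤ) ∣ v - c := by rw [hcc]; exact Int.dvd_self_sub_emod
  have hcn : c ∉ Rb N H' q := by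
    intro hmem
    rw [Rb, mem_filter] at hmem
    apply hv
    rcases hmem.2 with ⟨h, hh, hd⟩ | hd
    · apply Dvd.dvd.mul_right
      refine dvd_trans ?_ (Finset.dvd_prod_of_mem _ (hs hh))
      have h1 : (q : ℤ) ∣ (c : ℤ) + h := by exact_mod_cast hd
      have h2 : v + (h : ℤ) = (v - c) + (c + h) := by ring
      rw [h2]
      exact dvd_add hcv h1
    · apply Dvd.dvd.mul_left
      have h1 : (q : ℤ) ∣ (N : ℤ) - c := by
        exact (Nat.modEq_iff_dvd.mp hd)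
      have h2 : (N : ℤ) - v = ((N : ℤ) - c) - (v - c) := by ring
      rw [h2]
      exact dvd_sub h1 hcv
  have hsub : Rb N H' q ⊆ (range q).erase c := by
    intro x hx
    rw [mem_erase]
    refine ⟨fun h => hcn (h ▸ hx), ?_⟩
    rw [Rb, mem_filter] at hx
    exact hx.1
  calc (Rb N H' q).card ≤ ((range q).erase c).card := card_le_card hsub
    _ = q - 1 := by rw [card_erase_of_mem (mem_range.mpr hcq), card_range]
    _ < q := Nat.sub_lt hq.pos one_pos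

theorem main1_even (N : ℕ) (H : Finset ℕ)
    (hn : ∃ v : ℤ, ¬ ((2 : ℕ) : ℤ) ∣ (∏ h ∈ H, (v + (h : ℤ))) * ((N : ℤ) - v)) :
    ∀ h ∈ H, 2 ∣ N + h := by
  obtain ⟨v, hv⟩ := hn
  intro h hh
  have h1 : ¬ ((2 : ℕ) : ℤ) ∣ v + (h : ℤ) := fun hd => hv (Dvd.dvd.mul_right
    (dvd_trans hd (Finset.dvd_prod_of_mem (fun h : ℕ => v + (h : ℤ)) hh)) _)
  have h2 : ¬ ((2 : ℕ) : ℤ) ∣ (N : ℤ) - v := fun hd => hv (Dvd.dvd.mul_left hd _)
  omega

/-- **Chen's theorem with Maynard-Tao tuples, for all large `N`.** -/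
theorem main1 (g : ℕ) (hg : 1 ≤ g) : ∃ K B : ℕ, ∀ H : Finset ℕ, K ≤ H.card →
    ∃ N0 : ℕ, ∀ N : ℕ, N0 ≤ N →
    (∀ p : ℕ, p.Prime → ∃ v : ℤ, ¬ (p : ℤ) ∣ (∏ h ∈ H, (v + (h : ℤ))) * ((N : ℤ) - v)) →
    N / Real.log N ^ B ≤ ((open Classical in (Icc 1 N).filter (fun t =>
      t < N ∧ g ≤ (H.filter (fun h => (t + h).Prime)).card ∧ AP2 N (N - t))).card : ℝ) := by
  classical
  obtain ⟨K, B, hK, hmain⟩ := gd_card g hg
  refine ⟨K, B, fun H hH => ?_⟩
  obtain ⟨H', hs, hc⟩ := exists_subset_card_eq hH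
  obtain ⟨n0, hn0⟩ := hmain H' hc
  refine ⟨max n0 20, fun N hN hadm => ?_⟩
  have h1 := hn0 N (le_trans (le_max_left _ _) hN)
    (fun h hh => main1_even N H (hadm 2 Nat.prime_two) h (hs hh))
    (fun q hq => main1_Rb N H' H hs q hq (hadm q hq))
  refine le_trans h1 ?_
  have h20 : 20 ≤ N := le_trans (le_max_right _ _) hN
  have hsub : Gd H' N g ⊆ (Icc 1 N).filter (fun t =>
      t < N ∧ g ≤ (H.filter (fun h => (t + h).Prime)).card ∧ AP2 N (N - t)) := by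
    intro t ht
    rw [Gd, mem_filter, mem_Ioc] at ht
    obtain ⟨⟨ht1, ht2⟩, ht3, ht4⟩ := ht
    have hY : Yb N < N := by unfold Yb; omega
    rw [mem_filter, mem_Icc]
    refine ⟨⟨by omega, by omega⟩, by omega, le_trans ht3 ?_, ht4⟩
    exact card_le_card (filter_subset_filter _ hs)
  exact_mod_cast card_le_card hsub

end Pool.Agent.Lib.H57C
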