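import Pool.Agent.Lib.H57C.P2
import Pool.Agent.Lib.H57M.B8

/-!
# Chunk PT: only good `t` contribute positively
-/

open Finset

namespace Pool.Agent.Lib.H57C

open Pool.Agent.Lib.H57M
open Pool.Agent.Lib.H59C (Sq lg)

section

variable {K : ℕ} (w : Par K) (H : Finset ℕ) (n k p1 : ℕ) (R T T2 : ℕ → Finset ℕ)
  (P' Z : Finset ℕ)

theorem pt_Yb (N : ℕ) : Yb N ≤ N := by unfold Yb; omega

theorem pt_FF_nonneg (i : Option ℕ) (t : ℕ) : 0 ≤ FF w H i t := by
  unfold FF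
  have hz : 0 ≤ w.z := by
    have := w.z_bounds.1
    linarith
  positivity

theorem pt_Sg (Q : Finset ℕ) (R : ℕ → Finset ℕ) (t : ℕ) : 0 ≤ Sg Q R t ∧ Sg Q R t ≤ 1 := by
  unfold Sg
  split_ifs <;> norm_num

/-- The weight of `t`. -/
noncomputable def pt_F (t : ℕ) : ℝ := FF w H none t * Sg (Ps w.W p1) R t

theorem pt_F_nonneg (t : ℕ) : 0 ≤ pt_F w H p1 R t :=
  mul_nonneg (pt_FF_nonneg w H none t) (pt_Sg _ _ t).1

theorem pt_F_le (t : ℕ) : pt_F w H p1 R t ≤ FF w H none t := by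
  unfold pt_F
  have h1 := pt_FF_nonneg w H none t
  have h2 := (pt_Sg (Ps w.W p1) R t).2
  nlinarith

/-- If `t + h` is a prime larger than the primes of the weight, the form `t + h` does not matter. -/
theorem pt_FF_eq {h t : ℕ} (hp : (t + h).Prime) (hP : ∀ p ∈ w.P, p < t + h) :
    FF w H (some h) t = FF w H none t := by
  unfold FF
  have h1 : cfg w.P H (some h) t = cfg w.P H none t := by
    funext h'
    unfold cfg
    by_cases h2 : h'.1 = h
    · have h3 : (some h : Option ℕ) = some h'.1 := by rw [h2]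
      rw [if_pos h3, if_neg (by simp), h2]
      symm
      unfold Pool.Agent.Lib.H15P.hit
      rw [Finset.filter_eq_empty_iff]
      intro p _ hd
      have h4 := hP p.1 p.2
      have h5 := (Nat.prime_dvd_prime_iff_eq (w.prime p.1 p.2) hp).1 hd
      omega
    · have h3 : ¬ ((some h : Option ℕ) = some h'.1) := by
        intro h4
        rw [Option.some.injEq] at h4
        exact h2 h4.symm
      rw [if_neg h3, if_neg (by simp)]
  rw [h1]

/-- The contribution of `t` for the shift `h`. -/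
noncomputable def pt_u (h t : ℕ) : ℝ := if (t + h).Prime then lg (t + h) * pt_F w H p1 R t else 0

theorem pt_lg (p : ℕ) : 0 ≤ lg p := Real.log_natCast_nonneg p

theorem pt_u_nonneg (h t : ℕ) : 0 ≤ pt_u w H p1 R h t := by
  unfold pt_u
  split_ifs
  · exact mul_nonneg (pt_lg _) (pt_F_nonneg w H p1 R t)
  · exact le_rfl

open Classical in
/-- Reindexing. -/
theorem pt_sum (hP : ∀ t ∈ Ioc (Ya n) (Yb n), ∀ p ∈ w.P, p < t) (h : ℕ) (P : ℕ → Prop) :
    ∑ p ∈ (Sh n h).filter (fun p => P (p - h)), whR w H p1 h R p =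
      ∑ t ∈ Ioc (Ya n) (Yb n), pt_u w H p1 R h t * (if P t then 1 else 0) := by
  have h1 : ∀ t ∈ Ioc (Ya n) (Yb n), pt_u w H p1 R h t * (if P t then 1 else 0) =
      if ((t + h).Prime ∧ P t) then whR w H p1 h R (t + h) else 0 := by
    intro t ht
    unfold pt_u whR pt_F
    by_cases h2 : (t + h).Prime
    · rw [if_pos h2, Nat.add_sub_cancel,
        pt_FF_eq w H h2 (fun p hp => by have := hP t ht p hp; omega)]
      by_cases h3 : P t
      · rw [if_pos h3, if_pos ⟨h2, h3⟩, mul_one]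
      · rw [if_neg h3, if_neg (fun h4 => h3 h4.2), mul_zero]
    · rw [if_neg h2, if_neg (show ¬ ((t + h).Prime ∧ P t) from fun h4 => h2 h4.1), zero_mul]
  rw [Finset.sum_congr rfl h1, ← Finset.sum_filter]
  symm
  refine Finset.sum_bij (fun t _ => t + h) ?_ ?_ ?_ ?_
  · intro t ht
    rw [Finset.mem_filter, Finset.mem_Ioc] at ht
    rw [Finset.mem_filter]
    unfold Sh
    rw [Pool.Agent.Lib.H59C.mem_Sq]
    refine ⟨⟨⟨by omega, by omega⟩, ht.2.1⟩, ?_⟩
    rw [Nat.add_sub_cancel]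
    exact ht.2.2
  · intro a _ b _ hab
    simpa using hab
  · intro p hp
    rw [Finset.mem_filter] at hp
    unfold Sh at hp
    rw [Pool.Agent.Lib.H59C.mem_Sq] at hp
    have h2 : p - h + h = p := by omega
    refine ⟨p - h, ?_, h2⟩
    rw [Finset.mem_filter, Finset.mem_Ioc, h2]
    exact ⟨⟨by omega, by omega⟩, hp.1.2, hp.2⟩
  · intro t _
    rfl

open Classical in
/-- Rough. -/
noncomputable def pt_R (n k : ℕ) (T : ℕ → Finset ℕ) (P' : Finset ℕ) (t : ℕ) : ℝ :=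
  if (∀ q ∈ Q2 P' n k, t % q ∉ T q) then 1 else 0

theorem pt_R01 (t : ℕ) : 0 ≤ pt_R n k T P' t ∧ pt_R n k T P' t ≤ 1 := by
  unfold pt_R
  split_ifs <;> norm_num

open Classical in
/-- The bracket. -/
noncomputable def pt_b (n k p1 : ℕ) (T T2 : ℕ → Finset ℕ) (P' Z : Finset ℕ) (t : ℕ) : ℝ :=
  1 - 1 / lam k * (∑ q ∈ (Qy P' n k).filter (fun q => t % q ∈ T q), wq n q) -
    (if t % p1 ∈ T p1 then 1 else 0) - ((Z.filter (fun q => t % q ∈ T q)).card : ℝ) -
    (if ∃ q ∈ Qy P' n k, t % (q ^ 2) ∈ T2 q then 1 else 0)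

open Classical in
theorem pt_S1 (hP : ∀ t ∈ Ioc (Ya n) (Yb n), ∀ p ∈ w.P, p < t) (h : ℕ) :
    S1R w H n k p1 h R T P' = ∑ t ∈ Ioc (Ya n) (Yb n), pt_u w H p1 R h t * pt_R n k T P' t := by
  unfold S1R pt_R
  convert pt_sum w H n p1 R hP h (fun t => ∀ q ∈ Q2 P' n k, t % q ∉ T q)

open Classical in
theorem pt_S2 (hP : ∀ t ∈ Ioc (Ya n) (Yb n), ∀ p ∈ w.P, p < t) (h : ℕ) :
    S2R w H n k p1 h R T P' = ∑ t ∈ Ioc (Ya n) (Yb n), pt_u w H p1 R h t *
      (pt_R n k T P' t * (∑ q ∈ (Qy P' n k).filter (fun q => t % q ∈ T q), wq n q)) := by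
  unfold S2R
  have h1 : ∀ q ∈ Qy P' n k, wq n q * ∑ p ∈ (Sh n h).filter
      (fun p => (p - h) % q ∈ T q ∧ ∀ q' ∈ Q2 P' n k, (p - h) % q' ∉ T q'), whR w H p1 h R p =
      ∑ t ∈ Ioc (Ya n) (Yb n), pt_u w H p1 R h t * (pt_R n k T P' t *
        (if t % q ∈ T q then wq n q else 0)) := by
    intro q _
    have h2 := pt_sum w H n p1 R hP h
      (fun t => t % q ∈ T q ∧ ∀ q' ∈ Q2 P' n k, t % q' ∉ T q')
    have h3 : ∑ p ∈ (Sh n h).filter
      (fun p => (p - h) % q ∈ T q ∧ ∀ q' ∈ Q2 P' n k, (p - h) % q' ∉ T q'), whR w H p1 h R p =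
      ∑ t ∈ Ioc (Ya n) (Yb n), pt_u w H p1 R h t *
        (if (t % q ∈ T q ∧ ∀ q' ∈ Q2 P' n k, t % q' ∉ T q') then 1 else 0) := by
      convert h2
    rw [h3, Finset.mul_sum]
    refine Finset.sum_congr rfl fun t _ => ?_
    unfold pt_R
    by_cases h4 : t % q ∈ T q
    · by_cases h5 : ∀ q ∈ Q2 P' n k, t % q ∉ T q
      · rw [if_pos h4, if_pos h5, if_pos ⟨h4, h5⟩]
        ring
      · rw [if_pos h4, if_neg h5, if_neg (fun h6 => h5 h6.2)]
        ring
    · rw [if_neg h4, if_neg (show ¬ (t % q ∈ T q ∧ ∀ q' ∈ Q2 P' n k, t % q' ∉ T q')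
          from fun h6 => h4 h6.1)]
      ring
  rw [Finset.sum_congr rfl h1, Finset.sum_comm]
  refine Finset.sum_congr rfl fun t _ => ?_
  rw [← Finset.mul_sum, ← Finset.mul_sum, Finset.sum_filter]

open Classical in
theorem pt_E1 (hP : ∀ t ∈ Ioc (Ya n) (Yb n), ∀ p ∈ w.P, p < t) (h : ℕ) :
    ∑ t ∈ Ioc (Ya n) (Yb n), pt_u w H p1 R h t *
      (pt_R n k T P' t * (if t % p1 ∈ T p1 then 1 else 0)) = E1R w H n k p1 h R T P' := by
  unfold E1R
  have h2 := pt_sum w H n p1 R hP h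
    (fun t => t % p1 ∈ T p1 ∧ ∀ q ∈ Q2 P' n k, t % q ∉ T q)
  have h3 : ∀ t ∈ Ioc (Ya n) (Yb n), pt_u w H p1 R h t * (pt_R n k T P' t *
      (if t % p1 ∈ T p1 then 1 else 0)) = pt_u w H p1 R h t *
      (if (t % p1 ∈ T p1 ∧ ∀ q ∈ Q2 P' n k, t % q ∉ T q) then 1 else 0) := by
    intro t _
    congr 1
    unfold pt_R
    by_cases h4 : t % p1 ∈ T p1
    · by_cases h5 : ∀ q ∈ Q2 P' n k, t % q ∉ T q
      · rw [if_pos h4, if_pos h5, if_pos ⟨h4, h5⟩, mul_one]
      · rw [if_pos h4, if_neg h5, if_neg (fun h6 => h5 h6.2), zero_mul]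
    · rw [if_neg h4, if_neg (show ¬ (t % p1 ∈ T p1 ∧ ∀ q ∈ Q2 P' n k, t % q ∉ T q)
        from fun h6 => h4 h6.1), mul_zero]
  rw [Finset.sum_congr rfl h3]
  symm
  convert h2

open Classical in
theorem pt_E2 (hP : ∀ t ∈ Ioc (Ya n) (Yb n), ∀ p ∈ w.P, p < t) (h : ℕ) :
    ∑ t ∈ Ioc (Ya n) (Yb n), pt_u w H p1 R h t *
      (pt_R n k T P' t * ((Z.filter (fun q => t % q ∈ T q)).card : ℝ)) ≤
      E2R w H n p1 h R T Z := by
  unfold E2R
  have h1 : ∀ q ∈ Z, ∑ p ∈ (Sh n h).filter (fun p => (p - h) % q ∈ T q),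
      whR w H p1 h R p =
      ∑ t ∈ Ioc (Ya n) (Yb n), pt_u w H p1 R h t * (if t % q ∈ T q then 1 else 0) := by
    intro q _
    have h2 := pt_sum w H n p1 R hP h (fun t => t % q ∈ T q)
    convert h2
  rw [Finset.sum_congr rfl h1, Finset.sum_comm]
  refine Finset.sum_le_sum fun t _ => ?_
  rw [← Finset.mul_sum, Finset.sum_boole]
  refine mul_le_mul_of_nonneg_left ?_ (pt_u_nonneg w H p1 R h t)
  have h3 := pt_R01 n k T P' t
  have h4 : (0 : ℝ) ≤ ((Z.filter (fun q => t % q ∈ T q)).card : ℝ) := Nat.cast_nonneg _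
  nlinarith

open Classical in
theorem pt_E3 (hP : ∀ t ∈ Ioc (Ya n) (Yb n), ∀ p ∈ w.P, p < t) (h : ℕ) :
    ∑ t ∈ Ioc (Ya n) (Yb n), pt_u w H p1 R h t *
      (pt_R n k T P' t * (if ∃ q ∈ Qy P' n k, t % (q ^ 2) ∈ T2 q then 1 else 0)) ≤
      E3R w H n k p1 h R T2 P' := by
  unfold E3R
  have h1 := pt_sum w H n p1 R hP h (fun t => ∃ q ∈ Qy P' n k, t % (q ^ 2) ∈ T2 q)
  have h2 : ∑ p ∈ (Sh n h).filter (fun p => ∃ q ∈ Qy P' n k, (p - h) % (q ^ 2) ∈ T2 q),
      whR w H p1 h R p = ∑ t ∈ Ioc (Ya n) (Yb n), pt_u w H p1 R h t *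
        (if ∃ q ∈ Qy P' n k, t % (q ^ 2) ∈ T2 q then 1 else 0) := by
    convert h1
  rw [h2]
  refine Finset.sum_le_sum fun t _ => ?_
  refine mul_le_mul_of_nonneg_left ?_ (pt_u_nonneg w H p1 R h t)
  have h3 := pt_R01 n k T P' t
  split_ifs <;> linarith

open Classical in
theorem pt_N : NsR w H n k p1 R T P' =
    ∑ t ∈ Ioc (Ya n) (Yb n), pt_R n k T P' t * pt_F w H p1 R t := by
  unfold NsR pt_R pt_F
  rw [Finset.sum_filter]
  refine Finset.sum_congr rfl fun t _ => ?_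
  split_ifs <;> simp

/-- The weighted sum as a sum over `t`. -/
theorem pt_T (hP : ∀ t ∈ Ioc (Ya n) (Yb n), ∀ p ∈ w.P, p < t) (g : ℕ) :
    TtR w H n k p1 R T T2 P' Z g ≤ ∑ t ∈ Ioc (Ya n) (Yb n), pt_R n k T P' t *
      (pt_b n k p1 T T2 P' Z t * ∑ h ∈ H, pt_u w H p1 R h t -
        ((g : ℝ) - 1) * Real.log (2 * n) * pt_F w H p1 R t) := by
  have h1 : ∀ h ∈ H, S1R w H n k p1 h R T P' - 1 / lam k * S2R w H n k p1 h R T P' -
      E1R w H n k p1 h R T P' - E2R w H n p1 h R T Z - E3R w H n k p1 h R T2 P' ≤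
      ∑ t ∈ Ioc (Ya n) (Yb n), pt_u w H p1 R h t * (pt_R n k T P' t * pt_b n k p1 T T2 P' Z t) := by
    intro h _
    have h4 := pt_E1 w H n k p1 R T P' hP h
    have h5 := pt_E2 w H n k p1 R T P' Z hP h
    have h6 := pt_E3 w H n k p1 R T T2 P' hP h
    rw [pt_S1 w H n k p1 R T P' hP h, pt_S2 w H n k p1 R T P' hP h]
    have h7 : ∑ t ∈ Ioc (Ya n) (Yb n), pt_u w H p1 R h t *
          (pt_R n k T P' t * pt_b n k p1 T T2 P' Z t) =
        ∑ t ∈ Ioc (Ya n) (Yb n), pt_u w H p1 R h t * pt_R n k T P' t -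
        1 / lam k * ∑ t ∈ Ioc (Ya n) (Yb n), pt_u w H p1 R h t *
          (pt_R n k T P' t * (∑ q ∈ (Qy P' n k).filter (fun q => t % q ∈ T q), wq n q)) -
        ∑ t ∈ Ioc (Ya n) (Yb n), pt_u w H p1 R h t *
          (pt_R n k T P' t * (open Classical in if t % p1 ∈ T p1 then 1 else 0)) -
        ∑ t ∈ Ioc (Ya n) (Yb n), pt_u w H p1 R h t *
          (pt_R n k T P' t * ((Z.filter (fun q => t % q ∈ T q)).card : ℝ)) -
        ∑ t ∈ Ioc (Ya n) (Yb n), pt_u w H p1 R h t *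
          (pt_R n k T P' t *
            (open Classical in if ∃ q ∈ Qy P' n k, t % (q ^ 2) ∈ T2 q then 1 else 0)) := by
      rw [Finset.mul_sum, ← Finset.sum_sub_distrib, ← Finset.sum_sub_distrib,
        ← Finset.sum_sub_distrib, ← Finset.sum_sub_distrib]
      refine Finset.sum_congr rfl fun t _ => ?_
      unfold pt_b
      ring
    rw [h7]
    linarith
  unfold TtR
  rw [pt_N]
  have h2 := Finset.sum_le_sum h1
  rw [Finset.sum_comm] at h2
  have h3 : ∑ t ∈ Ioc (Ya n) (Yb n), pt_R n k T P' t *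
      (pt_b n k p1 T T2 P' Z t * ∑ h ∈ H, pt_u w H p1 R h t -
        ((g : ℝ) - 1) * Real.log (2 * n) * pt_F w H p1 R t) =
      ∑ t ∈ Ioc (Ya n) (Yb n), ∑ h ∈ H,
        pt_u w H p1 R h t * (pt_R n k T P' t * pt_b n k p1 T T2 P' Z t) -
      ((g : ℝ) - 1) * Real.log (2 * n) *
        ∑ t ∈ Ioc (Ya n) (Yb n), pt_R n k T P' t * pt_F w H p1 R t := by
    rw [Finset.mul_sum, ← Finset.sum_sub_distrib]
    refine Finset.sum_congr rfl fun t _ => ?_
    rw [← Finset.sum_mul]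
    ring
  rw [h3]
  linarith

end

theorem pt_lam {k : ℕ} (hk : 1 ≤ k) : 0 < lam k := by
  have h1 : (1 : ℝ) ≤ k := by exact_mod_cast hk
  have h2 : 0 ≤ Real.log ((k : ℝ) + 1) := Real.log_nonneg (by linarith)
  unfold lam
  positivity

theorem pt_wq {n k q : ℕ} {P' : Finset ℕ} (hn : 2 ≤ n) (hq : q ∈ Qy P' n k) : 0 ≤ wq n q := by
  unfold Qy at hq
  rw [Finset.mem_filter] at hq
  obtain ⟨-, hq1, hq3⟩ := hq
  have hn2 : (2 : ℝ) ≤ n := by exact_mod_cast hn
  have hlog : 0 < Real.log n := Real.log_pos (by linarith)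
  have hq0 : (0 : ℝ) < q := by
    have : 0 < q := by omega
    exact_mod_cast this
  have h1 : 3 * Real.log q ≤ Real.log n := by
    have h2 : Real.log ((q : ℝ) ^ 3) ≤ Real.log n :=
      Real.log_le_log (by positivity) (by exact_mod_cast hq3)
    rw [Real.log_pow] at h2
    push_cast at h2
    exact h2
  unfold wq
  rw [sub_nonneg, div_le_one hlog]
  exact h1

/-- Proof. Write everything as a sum over `t ∈ (Ya, Yb]` (`p = t + h`; `lg p ≤ log (2 n)`). If `t + h` is prime then `FF (some h) t = FF none t`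
(`hit w.P (t + h) = ∅`, since the primes of `w.P` are `≤ n^(1/100) < t + h`). For a `t` which is rough (`t % q ∉ T q` for all `q ∈ Q2`) the contribution is `FF none t Sg t` times
`∑_{h : t + h prime} lg (t + h) b(t) - (g - 1) log (2n)`,
`b(t) = 1 - (1/lam k) ∑_{q ∈ Qy, t % q ∈ T q} wq n q - [t % p1 ∈ T p1] - #{q ∈ Z : t % q ∈ T q} - [∃ q ∈ Qy, t % q^2 ∈ T2 q]`. `b(t) ≤ 1` (`wq ≥ 0` on `Qy`, `lam k > 0`), and if `b(t) > 0` then all the conditions of
`GdR` on `p1`, `Z`, `Qy` hold (each of the last three terms is `0` or `≥ 1`). So the contribution is `≤ 0` unless `t ∈ GdR` (if fewer than `g` of the `t + h` are prime: `∑ ≤ (g - 1) log (2n)`; if `Sg t = 0` it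
is `0`), and for `t ∈ GdR` it is at most `#H log (2n) FF none t`. For a `t` which is not rough only `E2R`, `E3R` contribute, with a minus sign. -/
theorem T_leR (K B cF k : ℕ) (θ Ga : ℝ) (hK : 1 ≤ K) (hk : 1 ≤ k) (hB : 3 ≤ B) (g : ℕ)
    (hg : 1 ≤ g) : ∃ n0 : ℕ, ∀ n : ℕ, n0 ≤ n → ∀ (w : Par K) (H : Finset ℕ) (p1 : ℕ)
    (R T T2 : ℕ → Finset ℕ) (P' Z : Finset ℕ), Reg2 B cF k θ Ga w H n p1 R T P' →
    HZ k n w.W p1 T T2 P' Z →
    TtR w H n k p1 R T T2 P' Z g ≤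
      K * Real.log (2 * n) * ∑ t ∈ GdR H n k w.W p1 g R T T2 P' Z, FF w H none t := by
  classical
  have _ := hB
  have hlarge : ∃ n0 : ℕ, ∀ n : ℕ, n0 ≤ n → Real.log n ^ B + 1 ≤ (n : ℝ) := by
    have e1 := (Real.isLittleO_pow_log_id_atTop (n := B)).def (show (0 : ℝ) < 1 / 2 by norm_num)
    have e2 : ∀ᶠ x : ℝ in Filter.atTop, Real.log x ^ B + 1 ≤ x := by
      filter_upwards [e1, Filter.eventually_ge_atTop (2 : ℝ)] with x hx1 hx2
      rw [Real.norm_eq_abs, Real.norm_eq_abs, id, abs_of_nonneg (by linarith : (0 : ℝ) ≤ x)] at hx1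
      have := le_abs_self (Real.log x ^ B)
      linarith
    obtain ⟨n0, hn0⟩ := Filter.eventually_atTop.1
      ((tendsto_natCast_atTop_atTop (R := ℝ)).eventually e2)
    exact ⟨n0, hn0⟩
  obtain ⟨n1, hn1⟩ := hlarge
  refine ⟨n1 + 1000, fun n hn w H p1 R T T2 P' Z hR hZ => ?_⟩
  have hN1 : 1000 ≤ n := by omega
  have hW1 : w.W ≤ n := by
    have h1 := hn1 n (by omega)
    have h2 : (w.W : ℝ) ≤ Real.log n ^ B + 1 := by
      rw [hR.Wdef]
      exact (Nat.ceil_lt_add_one (pow_nonneg (Real.log_natCast_nonneg _) _)).le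
    exact_mod_cast h2.trans h1
  have hN1' : (1000 : ℝ) ≤ n := by exact_mod_cast hN1
  have hYb := pt_Yb n
  have hYa : n / 3 ≤ Ya n := by unfold Ya; omega
  have hP : ∀ t ∈ Ioc (Ya n) (Yb n), ∀ p ∈ w.P, p < t := by
    intro t ht p hp
    rw [Finset.mem_Ioc] at ht
    have h1 := hR.PN p hp
    have h2 : (n : ℝ) ^ (1 / 100 : ℝ) ≤ (n : ℝ) ^ (1 / 2 : ℝ) :=
      Real.rpow_le_rpow_of_exponent_le (by linarith) (by norm_num)
    have h3 : (n : ℝ) ^ (1 / 2 : ℝ) ≤ n / 30 := by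
      rw [← Real.sqrt_eq_rpow]
      rw [Real.sqrt_le_left (by positivity)]
      nlinarith
    have h4 : (30 * p : ℝ) ≤ n := by linarith
    have h5 : 30 * p ≤ n := by exact_mod_cast h4
    omega
  refine (pt_T w H n k p1 R T T2 P' Z hP g).trans ?_
  have hlog : 0 ≤ Real.log (2 * n) := Real.log_nonneg (by linarith)
  have hg1 : (1 : ℝ) ≤ g := by exact_mod_cast hg
  have hKr : (1 : ℝ) ≤ K := by exact_mod_cast hK
  have hlam := pt_lam hk
  have hlam' : 0 ≤ 1 / lam k := by positivity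
  have hGd : GdR H n k w.W p1 g R T T2 P' Z ⊆ Ioc (Ya n) (Yb n) := by
    unfold GdR
    exact Finset.filter_subset _ _
  rw [Finset.mul_sum]
  have hsplit : ∑ t ∈ GdR H n k w.W p1 g R T T2 P' Z, (K : ℝ) * Real.log (2 * n) * FF w H none t =
      ∑ t ∈ Ioc (Ya n) (Yb n), if t ∈ GdR H n k w.W p1 g R T T2 P' Z then
        (K : ℝ) * Real.log (2 * n) * FF w H none t else 0 := by
    rw [← Finset.sum_filter]
    refine Finset.sum_congr ?_ fun _ _ => rfl
    ext t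
    rw [Finset.mem_filter]
    exact ⟨fun h => ⟨hGd h, h⟩, fun h => h.2⟩
  rw [hsplit]
  refine Finset.sum_le_sum fun t ht => ?_
  have ht' := Finset.mem_Ioc.1 ht
  have hA := pt_F_nonneg w H p1 R t
  have hFF := pt_FF_nonneg w H none t
  have hrhs : (0 : ℝ) ≤ if t ∈ GdR H n k w.W p1 g R T T2 P' Z then
      (K : ℝ) * Real.log (2 * n) * FF w H none t else 0 := by
    split_ifs
    · positivity
    · exact le_rfl
  -- trivial cases
  by_cases hrough : ∀ q ∈ Q2 P' n k, t % q ∉ T q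
  swap
  · have h1 : pt_R n k T P' t = 0 := by unfold pt_R; rw [if_neg hrough]
    rw [h1, zero_mul]
    exact hrhs
  have h1 : pt_R n k T P' t = 1 := by unfold pt_R; rw [if_pos hrough]
  rw [h1, one_mul]
  have hu0 : 0 ≤ ∑ h ∈ H, pt_u w H p1 R h t :=
    Finset.sum_nonneg fun h _ => pt_u_nonneg w H p1 R h t
  rcases le_or_gt (pt_b n k p1 T T2 P' Z t) 0 with hb | hb
  · refine le_trans ?_ hrhs
    have h2 : pt_b n k p1 T T2 P' Z t * ∑ h ∈ H, pt_u w H p1 R h t ≤ 0 :=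
      mul_nonpos_of_nonpos_of_nonneg hb hu0
    have h3 : 0 ≤ ((g : ℝ) - 1) * Real.log (2 * n) * pt_F w H p1 R t :=
      mul_nonneg (mul_nonneg (by linarith) hlog) hA
    linarith
  -- the sum over the shifts
  have hcard : ∑ h ∈ H, pt_u w H p1 R h t ≤
      ((H.filter (fun h => (t + h).Prime)).card : ℝ) * Real.log (2 * n) * pt_F w H p1 R t := by
    have h2 : ∀ h ∈ H, pt_u w H p1 R h t ≤
        (if (t + h).Prime then 1 else 0) * (Real.log (2 * n) * pt_F w H p1 R t) := by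
      intro h hh
      unfold pt_u
      split_ifs with h3
      · rw [one_mul]
        refine mul_le_mul_of_nonneg_right ?_ hA
        unfold lg
        refine Real.log_le_log (by exact_mod_cast h3.pos) ?_
        have h4 := hR.HW h hh
        have h5 : t + h ≤ 2 * n := by omega
        exact_mod_cast h5
      · simp
    refine (Finset.sum_le_sum h2).trans (le_of_eq ?_)
    rw [← Finset.sum_mul, Finset.sum_boole, mul_assoc]
  -- the parts of the bracket
  have e0 : 0 ≤ ∑ q ∈ (Qy P' n k).filter (fun q => t % q ∈ T q), wq n q :=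
    Finset.sum_nonneg fun q hq => pt_wq (by omega) (Finset.mem_filter.1 hq).1
  have e1 : 0 ≤ 1 / lam k * ∑ q ∈ (Qy P' n k).filter (fun q => t % q ∈ T q), wq n q :=
    mul_nonneg hlam' e0
  have e2 : (0 : ℝ) ≤ ((Z.filter (fun q => t % q ∈ T q)).card : ℝ) := Nat.cast_nonneg _
  have e4 : (0 : ℝ) ≤ (if t % p1 ∈ T p1 then (1 : ℝ) else 0) := by split_ifs <;> norm_num
  have e5 : (0 : ℝ) ≤ (if ∃ q ∈ Qy P' n k, t % (q ^ 2) ∈ T2 q then (1 : ℝ) else 0) := by
    split_ifs <;> norm_num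
  have hbR : pt_b n k p1 T T2 P' Z t ≤ 1 := by
    unfold pt_b
    linarith
  by_cases hr : g ≤ (H.filter (fun h => (t + h).Prime)).card
  · -- `t` is good
    by_cases hS : Sg (Ps w.W p1) R t = 0
    · have h2 : pt_F w H p1 R t = 0 := by unfold pt_F; rw [hS, mul_zero]
      have h3 : ∑ h ∈ H, pt_u w H p1 R h t ≤ 0 := by
        refine hcard.trans (le_of_eq ?_)
        rw [h2, mul_zero]
      have h4 : pt_b n k p1 T T2 P' Z t * ∑ h ∈ H, pt_u w H p1 R h t ≤ 0 :=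
        mul_nonpos_of_nonneg_of_nonpos hb.le h3
      rw [h2, mul_zero]
      linarith
    have hb' := hb
    unfold pt_b at hb'
    have f0 : ∀ q ∈ Ps w.W p1, t % q ∉ R q := by
      unfold Sg at hS
      by_contra h2
      exact hS (if_neg h2)
    have f1 : t % p1 ∉ T p1 := by
      intro h2
      rw [if_pos h2] at hb'
      linarith
    have f2 : ∀ q ∈ Z, t % q ∉ T q := by
      intro q hq hqd
      have h2 : 1 ≤ (Z.filter (fun q => t % q ∈ T q)).card :=
        Finset.card_pos.2 ⟨q, Finset.mem_filter.2 ⟨hq, hqd⟩⟩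
      have h3 : (1 : ℝ) ≤ ((Z.filter (fun q => t % q ∈ T q)).card : ℝ) := by
        exact_mod_cast h2
      linarith
    have f3 : ∀ q ∈ Qy P' n k, t % (q ^ 2) ∉ T2 q := by
      intro q hq hqd
      rw [if_pos (⟨q, hq, hqd⟩ : ∃ q ∈ Qy P' n k, t % (q ^ 2) ∈ T2 q)] at hb'
      linarith
    have f4 : ∑ q ∈ (Qy P' n k).filter (fun q => t % q ∈ T q), wq n q < lam k := by
      have h2 : 1 / lam k * ∑ q ∈ (Qy P' n k).filter (fun q => t % q ∈ T q), wq n q < 1 := by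
        linarith
      rwa [one_div, inv_mul_lt_iff₀ hlam, mul_one] at h2
    have hin : t ∈ GdR H n k w.W p1 g R T T2 P' Z := by
      unfold GdR
      rw [Finset.mem_filter]
      exact ⟨ht, hr, f0, f1, f2, hrough, f3, f4⟩
    rw [if_pos hin]
    have hc : ((H.filter (fun h => (t + h).Prime)).card : ℝ) ≤ K := by
      have h2 := Finset.card_filter_le H (fun h => (t + h).Prime)
      rw [hR.cardH] at h2
      exact_mod_cast h2
    have h2 : pt_b n k p1 T T2 P' Z t * ∑ h ∈ H, pt_u w H p1 R h t ≤ ∑ h ∈ H, pt_u w H p1 R h t := by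
      nlinarith
    have h3 : 0 ≤ ((g : ℝ) - 1) * Real.log (2 * n) * pt_F w H p1 R t :=
      mul_nonneg (mul_nonneg (by linarith) hlog) hA
    have h4 : ((H.filter (fun h => (t + h).Prime)).card : ℝ) * Real.log (2 * n) *
        pt_F w H p1 R t ≤ K * Real.log (2 * n) * FF w H none t :=
      mul_le_mul (mul_le_mul_of_nonneg_right hc hlog) (pt_F_le w H p1 R t) hA
        (by positivity)
    linarith
  · -- fewer than `g` primes
    refine le_trans ?_ hrhs
    push Not at hr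
    have hc : ((H.filter (fun h => (t + h).Prime)).card : ℝ) ≤ (g : ℝ) - 1 := by
      have h2 : (H.filter (fun h => (t + h).Prime)).card + 1 ≤ g := hr
      have h3 : (((H.filter (fun h => (t + h).Prime)).card + 1 : ℕ) : ℝ) ≤ g := by
        exact_mod_cast h2
      rw [Nat.cast_add, Nat.cast_one] at h3
      linarith
    have h2 : pt_b n k p1 T T2 P' Z t * ∑ h ∈ H, pt_u w H p1 R h t ≤ ∑ h ∈ H, pt_u w H p1 R h t := by
      nlinarith
    have h4 : ((H.filter (fun h => (t + h).Prime)).card : ℝ) * Real.log (2 * n) *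
        pt_F w H p1 R t ≤ ((g : ℝ) - 1) * Real.log (2 * n) * pt_F w H p1 R t :=
      mul_le_mul_of_nonneg_right (mul_le_mul_of_nonneg_right hc hlog) hA
    linarith

end Pool.Agent.Lib.H57C
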