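import Pool.Agent.Lib.H57C.Defs

/-!
# Chunk X3: expansion of the weight function `L`
-/

open Finset

namespace Pool.Agent.Lib.H57C

open Pool.Agent.Lib.H15P Pool.Agent.Lib.H92G Pool.Agent.Lib.H57M

/-- The coefficients of the factor with label `o`. -/
noncomputable def x3_e {ι I : Type} [DecidableEq ι] (g : I → Finset ι → ℝ) : Option I → Finset ι → ℝ
  | none, T => if T = ∅ then 1 else 0
  | some i, T => g i T

/-- The level of the factor with label `o`. -/
noncomputable def x3_lv {I : Type} (lvs : I → ℝ) : Option I → ℝ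
  | none => 1
  | some i => lvs i

theorem x3_prod_lv {J I : Type} [Fintype J] [DecidableEq J] [Fintype I] [DecidableEq I] (lvs : I → ℝ)
    (l : J → Option I) : ∏ j, x3_lv lvs (l j) = ∏ i, lvs i ^ cnt l i := by
  rw [← Finset.prod_fiberwise univ l (fun j => x3_lv lvs (l j)), Fintype.prod_option]
  have h1 : ∏ j ∈ univ.filter (fun j => l j = none), x3_lv lvs (l j) = 1 := by
    refine Finset.prod_eq_one fun j hj => ?_
    rw [(Finset.mem_filter.1 hj).2]
    rfl
  rw [h1, one_mul]
  refine Finset.prod_congr rfl fun i _ => ?_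
  have h2 : ∏ j ∈ univ.filter (fun j => l j = some i), x3_lv lvs (l j) =
      ∏ j ∈ univ.filter (fun j => l j = some i), lvs i := by
    refine Finset.prod_congr rfl fun j hj => ?_
    rw [(Finset.mem_filter.1 hj).2]
    rfl
  rw [h2, Finset.prod_const]
  rfl

theorem x3_adm {J I : Type} [Fintype J] [DecidableEq J] [Fintype I] [DecidableEq I]
    {B : Finset J} {m : I → ℕ} {l : J → Option I} (hl : l ∈ adm B m) (i : I) : cnt l i ≤ m i :=
  (Finset.mem_filter.1 hl).2.2 i

/-- Proof. `w.L S = ∑_{l ∈ adm univ m} ∏_j dg D j (l j) (S j)` (`Par.L`, `LG`, `LW`, `dg`). The factor with label `none` is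
`1 = ∑_{T ⊆ A} 1[T = ∅]`, the factor with label `some i` is `D i A = ∑_{T ⊆ A} g_i(T)`, `|g_i| ≤ C`. Multiply out
(`Finset.prod_univ_sum` over `Fintype.piFinset (fun j => (S j).powerset)`): for every `l` the coefficient of `U : J → Finset`
is a product of `K` factors, each at most `C` in absolute value (`1 ≤ C`), there are at most `(n + 1)^K` labelings
(`Fintype.card (J → Option (Fin n))`); and if it is not `0` then
`∏_j ∏_{p ∈ U_j} p ≤ ∏_{j : l j = some i} lvs i = ∏_i (lvs i)^(cnt l i) ≤ ∏_i (lvs i)^(m i)` (`lvs ≥ 1`, `adm`).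
`E = 1`: `(1:ℝ)^_ = 1`. -/
theorem exJ_L {K : ℕ} (w : Par K) (C : ℝ) (hC : 1 ≤ C) (lvs : Fin w.n → ℝ)
    (h1 : ∀ i, 1 ≤ lvs i) (hE : ∀ i, Ex1 w.P (w.D i) C (lvs i))
    (J : Type) [Fintype J] [DecidableEq J] (hJ : Fintype.card J = K) :
    ExJ w.P (fun S : J → Finset {p // p ∈ w.P} => w.L S)
      ((((w.n : ℝ) + 1) * C) ^ K) 1 (∏ i, lvs i ^ w.m i) := by
  choose g hg1 hg2 hg3 using hE
  have hdg : ∀ (j : J) (o : Option (Fin w.n)) (A : Finset {p // p ∈ w.P}),
      dg (fun _ : J => w.D) j o A = ∑ T ∈ A.powerset, x3_e g o T := by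
    intro j o A
    cases o with
    | none =>
      show (1 : ℝ) = ∑ T ∈ A.powerset, (if T = ∅ then 1 else 0)
      rw [Finset.sum_ite_eq' A.powerset ∅ (fun _ => (1 : ℝ))]
      simp
    | some i => exact hg1 i A
  have heb : ∀ (o : Option (Fin w.n)) (T : Finset {p // p ∈ w.P}), |x3_e g o T| ≤ C := by
    intro o T
    cases o with
    | none =>
      show |(if T = ∅ then (1 : ℝ) else 0)| ≤ C
      split_ifs
      · simpa using hC
      · simpa using le_trans zero_le_one hC
    | some i => exact hg2 i T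
  have hel : ∀ (o : Option (Fin w.n)) (T : Finset {p // p ∈ w.P}), x3_e g o T ≠ 0 →
      (∏ p ∈ T, (p.1 : ℝ)) ≤ x3_lv lvs o := by
    intro o T h
    cases o with
    | none =>
      have hT : T = ∅ := by
        by_contra hT
        exact h (if_neg hT)
      subst hT
      simp [x3_lv]
    | some i => exact hg3 i T h
  refine ⟨fun U => ∑ l ∈ adm univ w.m, ∏ j, x3_e g (l j) (U j), ?_, ?_, ?_⟩
  · intro S
    have e1 : (∑ U : J → Finset {p // p ∈ w.P},
        if ∀ j, U j ⊆ S j then ∑ l ∈ adm univ w.m, ∏ j, x3_e g (l j) (U j) else 0) =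
        ∑ U ∈ Fintype.piFinset (fun j => (S j).powerset), ∑ l ∈ adm univ w.m, ∏ j, x3_e g (l j) (U j) := by
      rw [← Finset.sum_filter]
      refine Finset.sum_congr ?_ fun _ _ => rfl
      ext U
      simp [Fintype.mem_piFinset]
    rw [e1, Finset.sum_comm]
    show LW (fun _ : J => w.D) (adm univ w.m) (fun _ => 1) S = _
    unfold LW
    refine Finset.sum_congr rfl fun l _ => ?_
    rw [one_mul]
    have e2 : ∏ j, dg (fun _ : J => w.D) j (l j) (S j) = ∏ j, ∑ T ∈ (S j).powerset, x3_e g (l j) T :=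
      Finset.prod_congr rfl fun j _ => hdg j (l j) (S j)
    rw [e2, Finset.prod_univ_sum]
  · intro U
    have hn : (0 : ℝ) ≤ (w.n : ℝ) + 1 := by positivity
    have hC0 : (0 : ℝ) ≤ C := by linarith
    calc |∑ l ∈ adm univ w.m, ∏ j, x3_e g (l j) (U j)| ≤ ∑ l ∈ adm univ w.m, |∏ j, x3_e g (l j) (U j)| :=
          Finset.abs_sum_le_sum_abs _ _
      _ ≤ ∑ l ∈ adm univ w.m, C ^ K := by
          refine Finset.sum_le_sum fun l _ => ?_
          rw [Finset.abs_prod]
          calc ∏ j, |x3_e g (l j) (U j)| ≤ ∏ _j : J, C :=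
                Finset.prod_le_prod (fun _ _ => abs_nonneg _) fun j _ => heb (l j) (U j)
            _ = C ^ K := by rw [Finset.prod_const, Finset.card_univ, hJ]
      _ = ((adm univ w.m : Finset (J → Option (Fin w.n))).card : ℝ) * C ^ K := by
          rw [Finset.sum_const, nsmul_eq_mul]
      _ ≤ ((w.n : ℝ) + 1) ^ K * C ^ K := by
          refine mul_le_mul_of_nonneg_right ?_ (pow_nonneg hC0 K)
          have hc : (adm univ w.m : Finset (J → Option (Fin w.n))).card ≤ (w.n + 1) ^ K := by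
            calc (adm univ w.m : Finset (J → Option (Fin w.n))).card ≤ Fintype.card (J → Option (Fin w.n)) :=
                  Finset.card_le_univ _
              _ = (w.n + 1) ^ K := by simp [hJ]
          exact_mod_cast hc
      _ = (((w.n : ℝ) + 1) * C) ^ K * ((1 : ℕ) : ℝ) ^ (∑ j, (U j).card) := by
          rw [mul_pow]; simp
  · intro U hU
    obtain ⟨l, hl, hne⟩ := Finset.exists_ne_zero_of_sum_ne_zero hU
    have hl2 := x3_adm hl
    calc (∏ j, ∏ p ∈ U j, (p.1 : ℝ)) ≤ ∏ j, x3_lv lvs (l j) := by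
          refine Finset.prod_le_prod (fun j _ => Finset.prod_nonneg fun p _ => by positivity) fun j _ => ?_
          exact hel (l j) (U j) (Finset.prod_ne_zero_iff.1 hne j (Finset.mem_univ j))
      _ = ∏ i, lvs i ^ cnt l i := x3_prod_lv lvs l
      _ ≤ ∏ i, lvs i ^ w.m i := by
          refine Finset.prod_le_prod (fun i _ => pow_nonneg (by linarith [h1 i]) _) fun i _ => ?_
          exact pow_le_pow_right₀ (h1 i) (hl2 i)

end Pool.Agent.Lib.H57C
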