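import Pool.Agent.Lib.H57C.Defs

/-!
# Chunk X4: expansion of a square
-/

open Finset

namespace Pool.Agent.Lib.H57C

open Pool.Agent.Lib.H15P Pool.Agent.Lib.H92G Pool.Agent.Lib.H57M

theorem x4_card {α : Type} [Fintype α] [DecidableEq α] (V : Finset α) :
    ((univ : Finset (Finset α × Finset α)).filter (fun x => x.1 ∪ x.2 = V)).card ≤ 3 ^ V.card := by
  have h1 : (V.powerset.sigma (fun A => A.powerset)).card = 3 ^ V.card := by
    rw [Finset.card_sigma]
    simp only [Finset.card_powerset]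
    have := Finset.prod_one_add (f := fun _ : α => (2 : ℕ)) V
    simp only [Finset.prod_const] at this
    rw [← this]
  rw [← h1]
  refine Finset.card_le_card_of_injOn (fun x => ⟨x.1, x.1 ∩ x.2⟩) ?_ ?_
  · intro x hx
    have hx' := (Finset.mem_filter.1 (Finset.mem_coe.1 hx)).2
    refine Finset.mem_coe.2 (Finset.mem_sigma.2 ⟨?_, ?_⟩)
    · rw [Finset.mem_powerset, ← hx']
      exact Finset.subset_union_left
    · rw [Finset.mem_powerset]
      exact Finset.inter_subset_left
  · rintro ⟨A, B⟩ hx ⟨A', B'⟩ hx' h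
    have e1 := (Finset.mem_filter.1 (Finset.mem_coe.1 hx)).2
    have e2 := (Finset.mem_filter.1 (Finset.mem_coe.1 hx')).2
    simp only [Sigma.mk.injEq] at h e1 e2
    obtain ⟨h1, h2⟩ := h
    subst h1
    have h3 := eq_of_heq h2
    congr 1
    ext y
    have f1 := Finset.ext_iff.1 h3 y
    have f2 := Finset.ext_iff.1 (e1.trans e2.symm) y
    simp only [Finset.mem_inter, Finset.mem_union] at f1 f2
    tauto

theorem x4_cardJ {J α : Type} [Fintype J] [DecidableEq J] [Fintype α] [DecidableEq α]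
    (V : J → Finset α) :
    ∑ U : J → Finset α, ∑ U' : J → Finset α, (if ∀ j, U j ∪ U' j = V j then (1 : ℝ) else 0) ≤
      3 ^ (∑ j, (V j).card) := by
  classical
  rw [← Finset.sum_product', ← Finset.prod_pow_eq_pow_sum]
  have h1 : ∑ x ∈ (univ : Finset (J → Finset α)) ×ˢ (univ : Finset (J → Finset α)),
      (if ∀ j, x.1 j ∪ x.2 j = V j then (1 : ℝ) else 0) =
      ((Fintype.piFinset (fun j => (univ : Finset (Finset α × Finset α)).filter
        (fun x => x.1 ∪ x.2 = V j))).card : ℝ) := by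
    rw [Finset.sum_boole]
    congr 1
    refine Finset.card_nbij' (fun x j => (x.1 j, x.2 j)) (fun y => (fun j => (y j).1, fun j => (y j).2))
      ?_ ?_ ?_ ?_
    · intro x hx
      have hx' := (Finset.mem_filter.1 (Finset.mem_coe.1 hx)).2
      refine Finset.mem_coe.2 (Fintype.mem_piFinset.2 fun j => ?_)
      rw [Finset.mem_filter]
      exact ⟨Finset.mem_univ _, hx' j⟩
    · intro y hy
      have hy' := Fintype.mem_piFinset.1 (Finset.mem_coe.1 hy)
      refine Finset.mem_coe.2 (Finset.mem_filter.2 ⟨by simp, fun j => ?_⟩)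
      exact (Finset.mem_filter.1 (hy' j)).2
    · intro x _
      rfl
    · intro y _
      rfl
  rw [h1, Fintype.card_piFinset]
  push_cast
  refine Finset.prod_le_prod (fun j _ => by positivity) fun j _ => ?_
  exact_mod_cast x4_card (V j)

/-- Proof. `F(S)^2 = ∑_{U, U' ⊆ S} c(U) c(U')`; the new coefficient of `V` is `a ∑_{U ∪ U' = V} c(U) c(U')` (union for
every `j`). The number of the pairs with union `V` is `∏_j 3^|V_j|` (every element of `V_j` is in `U_j` only, in `U'_j` only, or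
in both), and `∏_{V} p ≤ ∏_U p ∏_{U'} p ≤ D^2` (primes are `≥ 1`). -/
theorem exJ_sq {J : Type} [Fintype J] [DecidableEq J] (P : Finset ℕ) (hP : ∀ p ∈ P, p.Prime)
    (F : (J → Finset {p // p ∈ P}) → ℝ) (C D : ℝ) (hC : 0 ≤ C) (hD : 0 ≤ D)
    (h : ExJ P F C 1 D) (a : ℝ) (ha0 : 0 ≤ a) (ha : a ≤ 1) :
    ExJ P (fun S => a * F S ^ 2) (C ^ 2) 3 (D ^ 2) := by
  obtain ⟨c, h1, h2, h3⟩ := h
  have h2' : ∀ U, |c U| ≤ C := by
    intro U
    have := h2 U
    simpa using this
  refine ⟨fun V => a * ∑ U : J → Finset {p // p ∈ P}, ∑ U' : J → Finset {p // p ∈ P},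
    if ∀ j, U j ∪ U' j = V j then c U * c U' else 0, ?_, ?_, ?_⟩
  · intro S
    simp only
    rw [h1 S, sq, Finset.sum_mul_sum]
    have e1 : ∀ V : J → Finset {p // p ∈ P},
        (if ∀ j, V j ⊆ S j then a * ∑ U : J → Finset {p // p ∈ P}, ∑ U' : J → Finset {p // p ∈ P},
          (if ∀ j, U j ∪ U' j = V j then c U * c U' else 0) else 0) =
        a * ∑ U : J → Finset {p // p ∈ P}, ∑ U' : J → Finset {p // p ∈ P},
          (if (fun j => U j ∪ U' j) = V then (if ∀ j, V j ⊆ S j then c U * c U' else 0) else 0) := by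
      intro V
      by_cases hV : ∀ j, V j ⊆ S j
      · simp only [if_pos hV, funext_iff]
      · simp [if_neg hV]
    rw [Finset.sum_congr rfl fun V _ => e1 V, ← Finset.mul_sum]
    congr 1
    have e5 : ∑ V : J → Finset {p // p ∈ P}, ∑ U : J → Finset {p // p ∈ P},
        ∑ U' : J → Finset {p // p ∈ P},
          (if (fun j => U j ∪ U' j) = V then (if ∀ j, V j ⊆ S j then c U * c U' else 0) else 0) =
        ∑ U : J → Finset {p // p ∈ P}, ∑ U' : J → Finset {p // p ∈ P},
          ∑ V : J → Finset {p // p ∈ P},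
          (if (fun j => U j ∪ U' j) = V then (if ∀ j, V j ⊆ S j then c U * c U' else 0) else 0) := by
      rw [Finset.sum_comm]
      exact Finset.sum_congr rfl fun U _ => Finset.sum_comm
    rw [e5]
    refine Finset.sum_congr rfl fun U _ => Finset.sum_congr rfl fun U' _ => ?_
    rw [Finset.sum_ite_eq, if_pos (Finset.mem_univ _)]
    by_cases hU : ∀ j, U j ⊆ S j
    · by_cases hU' : ∀ j, U' j ⊆ S j
      · rw [if_pos hU, if_pos hU', if_pos fun j => Finset.union_subset (hU j) (hU' j)]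
      · have hU2 : ¬ ∀ j, U j ∪ U' j ⊆ S j := fun hh =>
          hU' fun j => (Finset.subset_union_right (s₁ := U j)).trans (hh j)
        rw [if_neg hU', if_neg hU2, mul_zero]
    · have hU2 : ¬ ∀ j, U j ∪ U' j ⊆ S j := fun hh =>
        hU fun j => (Finset.subset_union_left (s₂ := U' j)).trans (hh j)
      rw [if_neg hU, if_neg hU2, zero_mul]
  · intro V
    simp only
    rw [abs_mul, abs_of_nonneg ha0]
    have e2 : |∑ U : J → Finset {p // p ∈ P}, ∑ U' : J → Finset {p // p ∈ P},
        (if ∀ j, U j ∪ U' j = V j then c U * c U' else 0)| ≤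
        C ^ 2 * ∑ U : J → Finset {p // p ∈ P}, ∑ U' : J → Finset {p // p ∈ P},
          (if ∀ j, U j ∪ U' j = V j then (1 : ℝ) else 0) := by
      rw [Finset.mul_sum]
      refine (Finset.abs_sum_le_sum_abs _ _).trans (Finset.sum_le_sum fun U _ => ?_)
      rw [Finset.mul_sum]
      refine (Finset.abs_sum_le_sum_abs _ _).trans (Finset.sum_le_sum fun U' _ => ?_)
      split_ifs
      · rw [abs_mul, mul_one, sq]
        exact mul_le_mul (h2' U) (h2' U') (abs_nonneg _) hC
      · simp
    have e3 := x4_cardJ V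
    have e4 : (0 : ℝ) ≤ |∑ U : J → Finset {p // p ∈ P}, ∑ U' : J → Finset {p // p ∈ P},
        (if ∀ j, U j ∪ U' j = V j then c U * c U' else 0)| := abs_nonneg _
    calc a * |∑ U : J → Finset {p // p ∈ P}, ∑ U' : J → Finset {p // p ∈ P},
        (if ∀ j, U j ∪ U' j = V j then c U * c U' else 0)| ≤ 1 * (C ^ 2 *
          ∑ U : J → Finset {p // p ∈ P}, ∑ U' : J → Finset {p // p ∈ P},
          (if ∀ j, U j ∪ U' j = V j then (1 : ℝ) else 0)) := mul_le_mul ha e2 e4 (by norm_num)
      _ ≤ C ^ 2 * ((3 : ℕ) : ℝ) ^ (∑ j, (V j).card) := by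
          rw [one_mul]
          push_cast
          exact mul_le_mul_of_nonneg_left e3 (by positivity)
  · intro V hV
    simp only at hV
    have hV' := right_ne_zero_of_mul hV
    obtain ⟨U, -, hU⟩ := Finset.exists_ne_zero_of_sum_ne_zero hV'
    obtain ⟨U', -, hU'⟩ := Finset.exists_ne_zero_of_sum_ne_zero hU
    by_cases hj : ∀ j, U j ∪ U' j = V j
    · rw [if_pos hj] at hU'
      have g1 := h3 U (left_ne_zero_of_mul hU')
      have g2 := h3 U' (right_ne_zero_of_mul hU')
      have p1 : ∀ p : {p // p ∈ P}, (1 : ℝ) ≤ (p.1 : ℝ) := fun p => by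
        exact_mod_cast (hP p.1 p.2).one_lt.le
      have p0 : ∀ W : J → Finset {p // p ∈ P}, 0 ≤ ∏ j, ∏ p ∈ W j, (p.1 : ℝ) := fun W =>
        Finset.prod_nonneg fun j _ => Finset.prod_nonneg fun p _ => by linarith [p1 p]
      calc ∏ j, ∏ p ∈ V j, (p.1 : ℝ) ≤ ∏ j, ((∏ p ∈ U j, (p.1 : ℝ)) * ∏ p ∈ U' j, (p.1 : ℝ)) := by
            refine Finset.prod_le_prod (fun j _ => Finset.prod_nonneg fun p _ => by linarith [p1 p])
              fun j _ => ?_
            rw [← hj j, ← Finset.prod_union_inter]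
            refine le_mul_of_one_le_right (Finset.prod_nonneg fun p _ => by linarith [p1 p]) ?_
            have : ∏ p ∈ U j ∩ U' j, (1 : ℝ) ≤ ∏ p ∈ U j ∩ U' j, (p.1 : ℝ) :=
              Finset.prod_le_prod (fun _ _ => by norm_num) fun p _ => p1 p
            simpa using this
        _ = (∏ j, ∏ p ∈ U j, (p.1 : ℝ)) * ∏ j, ∏ p ∈ U' j, (p.1 : ℝ) := Finset.prod_mul_distrib
        _ ≤ D * D := mul_le_mul g1 g2 (p0 U') hD
        _ = D ^ 2 := (sq D).symm
    · rw [if_neg hj] at hU'
      exact absurd rfl hU'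

end Pool.Agent.Lib.H57C
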