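import Pool.Agent.Lib.H57C.X2
import Pool.Agent.Lib.H57C.X3
import Pool.Agent.Lib.H57C.X4
import Pool.Agent.Lib.H57M.B8

/-!
# Chunk X5: the weight at the scale `N`
-/

open Finset

namespace Pool.Agent.Lib.H57C

open Pool.Agent.Lib.H15P Pool.Agent.Lib.H92G Pool.Agent.Lib.H57M

theorem x5_mono {J : Type} [Fintype J] [DecidableEq J] {P : Finset ℕ}
    {F : (J → Finset {p // p ∈ P}) → ℝ} {C C' D D' : ℝ} {E : ℕ} (h : ExJ P F C E D)
    (hC : C ≤ C') (hD : D ≤ D') : ExJ P F C' E D' := by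
  obtain ⟨c, h1, h2, h3⟩ := h
  refine ⟨c, h1, fun U => (h2 U).trans ?_, fun U hU => (h3 U hU).trans hD⟩
  exact mul_le_mul_of_nonneg_right hC (by positivity)

theorem x5_large (B : ℕ) (c : ℝ) : ∃ n0 : ℕ, ∀ N : ℕ, n0 ≤ N →
    3 ≤ N ∧ c ≤ Real.log N ∧ (B + 1) * Real.log (Real.log N) ≤ Real.sqrt (Real.log N) := by
  have h1 := (isLittleO_log_rpow_atTop (show (0 : ℝ) < 1 / 2 by norm_num)).def
    (show (0 : ℝ) < 1 / (B + 1) by positivity)
  obtain ⟨y, hy⟩ := Filter.eventually_atTop.mp h1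
  refine ⟨⌈Real.exp (max c (max y 1))⌉₊ + 3, fun N hN => ?_⟩
  have h2 : Real.exp (max c (max y 1)) ≤ ⌈Real.exp (max c (max y 1))⌉₊ := Nat.le_ceil _
  have h3 : ((⌈Real.exp (max c (max y 1))⌉₊ + 3 : ℕ) : ℝ) ≤ N := by exact_mod_cast hN
  push_cast at h3
  have h4 : max c (max y 1) ≤ Real.log N := by
    rw [Real.le_log_iff_exp_le (by linarith [Real.exp_pos (max c (max y 1))])]
    linarith
  refine ⟨by omega, le_trans (le_max_left _ _) h4, ?_⟩
  have hy1 : y ≤ Real.log N := le_trans (le_trans (le_max_left _ _) (le_max_right _ _)) h4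
  have hL1 : 1 ≤ Real.log N := le_trans (le_trans (le_max_right _ _) (le_max_right _ _)) h4
  have h5 := hy (Real.log N) hy1
  rw [Real.norm_of_nonneg (Real.log_nonneg hL1), Real.norm_of_nonneg (by positivity),
    ← Real.sqrt_eq_rpow] at h5
  have h6 : (0 : ℝ) < B + 1 := by positivity
  calc ((B : ℝ) + 1) * Real.log (Real.log N) ≤ (B + 1) * (1 / (B + 1) * Real.sqrt (Real.log N)) :=
        mul_le_mul_of_nonneg_left h5 h6.le
    _ = Real.sqrt (Real.log N) := by field_simp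

/-- Proof. `mkPar2` with `L = log N`, `W = ⌈L^B⌉₊` (`log W ≤ (B + 1) log L ≤ √L` and `4 (4000^n)^2 ≤ W` for large `N`; `1 ≤ B`).
* `P = PP W (κ0 θ L/n)`: all primes are at most `exp (κ0 θ L/n) ≤ N^(1/100)` (`κ0 ≤ 1/100`, `θ ≤ 1`).
* gain: `κ0 θ n L/(8000 log W) ≤ 4000^n (1 + n c)^2`; choose `n = m ≥ 8000 G/(κ0 θ)`: then `G L/log W ≤ ..`, multiply by
  `log W > 0`.
* `FC w H S = L(S)^2/z^K`: `exJ_L` with `C = 2 L` gives the constant `((n+1) 2 L)^K ≤ L^(2K)` for `2 (n + 1) ≤ L`, and the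
  level `exp (θ L) = N^θ`; `exJ_sq` with `a = 1/z^K ≤ 1` (`Par.z_bounds`) gives `L^(4K)` and `N^(2θ)`. -/
theorem wt_exists (θ G : ℝ) (hθ : 0 < θ) (hθ1 : θ ≤ 1 / 100) (hG : 0 < G) :
    ∃ m : ℕ, 1 ≤ m ∧ ∃ cF : ℕ, ∃ Dt : ℝ, ∀ B : ℕ, 1 ≤ B → ∃ n0 : ℕ, ∀ N : ℕ, n0 ≤ N →
      ∃ w : Par (4000 ^ m), w.n = m ∧ w.W = ⌈Real.log N ^ B⌉₊ ∧ w.Dt = Dt ∧
        w.h ≤ Real.log N ^ 3 ∧ w.lv ≤ (N : ℝ) ^ θ ∧
        (∀ p ∈ w.P, (p : ℝ) ≤ (N : ℝ) ^ (1 / 100 : ℝ)) ∧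
        G * Real.log N ≤ (4000 ^ m : ℕ) * (1 + w.n * w.c) ^ 2 * Real.log w.W ∧
        ∀ H : Finset ℕ, H.card = 4000 ^ m →
          ExJ w.P (FC w H) (Real.log N ^ cF) 3 ((N : ℝ) ^ (2 * θ)) := by
  obtain ⟨κ0, Dt, hκ, hκ1, hDt, hmk⟩ := mkPar2
  set m : ℕ := ⌈8000 * G / (κ0 * θ)⌉₊ + 1 with hm
  have hm1 : 1 ≤ m := by omega
  have hmG : 8000 * G ≤ κ0 * θ * m := by
    have h1 : 8000 * G / (κ0 * θ) ≤ ⌈8000 * G / (κ0 * θ)⌉₊ := Nat.le_ceil _
    have h2 : (m : ℝ) = ⌈8000 * G / (κ0 * θ)⌉₊ + 1 := by rw [hm]; push_cast; ring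
    have h3 : 8000 * G / (κ0 * θ) ≤ m := by linarith
    rw [div_le_iff₀ (by positivity)] at h3
    linarith
  obtain ⟨L0, hL0⟩ := hmk m hm1 θ hθ (by linarith)
  refine ⟨m, hm1, 4 * 4000 ^ m, Dt, fun B hB => ?_⟩
  obtain ⟨n0, hn0⟩ := x5_large B (max L0 (max (4 * (4000 ^ m : ℝ) ^ 2) (2 * (m + 1))))
  refine ⟨n0, fun N hN => ?_⟩
  obtain ⟨hN3, hLm, hLL⟩ := hn0 N hN
  set L := Real.log N with hL
  have hLL0 : L0 ≤ L := le_trans (le_max_left _ _) hLm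
  have hLW : 4 * (4000 ^ m : ℝ) ^ 2 ≤ L :=
    le_trans (le_trans (le_max_left _ _) (le_max_right _ _)) hLm
  have hLmm : 2 * ((m : ℝ) + 1) ≤ L :=
    le_trans (le_trans (le_max_right _ _) (le_max_right _ _)) hLm
  have hm0 : (1 : ℝ) ≤ m := by exact_mod_cast hm1
  have hL4 : 4 ≤ L := by linarith
  have hLpos : 0 < L := by linarith
  have hN0 : (0 : ℝ) < N := by exact_mod_cast (by omega : 0 < N)
  have hLB : L ≤ L ^ B := by
    calc L = L ^ 1 := (pow_one _).symm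
      _ ≤ L ^ B := pow_le_pow_right₀ (by linarith) hB
  set W := ⌈L ^ B⌉₊ with hW
  have hWle : L ^ B ≤ (W : ℝ) := Nat.le_ceil _
  have hWup : (W : ℝ) ≤ L ^ (B + 1) := by
    have h1 : (W : ℝ) < L ^ B + 1 := Nat.ceil_lt_add_one (by positivity)
    have h2 : 1 ≤ L ^ B := one_le_pow₀ (by linarith)
    have h3 : L ^ (B + 1) = L ^ B * L := pow_succ _ _
    nlinarith
  have hW1 : (1 : ℝ) < W := by linarith
  have hlogW0 : 0 < Real.log W := Real.log_pos hW1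
  have hlogW : Real.log W ≤ Real.sqrt L := by
    have h1 : Real.log W ≤ Real.log (L ^ (B + 1)) := Real.log_le_log (by linarith) hWup
    rw [Real.log_pow] at h1
    push_cast at h1
    exact h1.trans hLL
  have hW4 : 4 * (4000 ^ m) ^ 2 ≤ W := by
    have h1 : ((4 * (4000 ^ m) ^ 2 : ℕ) : ℝ) ≤ W := by
      push_cast
      linarith
    exact_mod_cast h1
  obtain ⟨w, hwn, hwW, hwP, hwD, hwlv, hwh, hwg, hwc, lvs, hl1, hl2, hl3⟩ := hL0 L hLL0 W hW4 hlogW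
  have hexpL : ∀ x : ℝ, Real.exp (x * L) = (N : ℝ) ^ x := by
    intro x
    rw [Real.rpow_def_of_pos hN0, mul_comm]
  refine ⟨w, hwn, hwW, hwD, hwh, ?_, ?_, ?_, ?_⟩
  · rw [← hexpL]; exact hwlv
  · intro p hp
    rw [hwP] at hp
    have h1 : (p : ℝ) ≤ Real.exp (κ0 * θ * L / m) := by
      unfold PP at hp
      rw [mem_filter, mem_Ioc] at hp
      exact (Nat.le_floor_iff (Real.exp_pos _).le).mp hp.1.2
    refine h1.trans ?_
    rw [← hexpL]
    apply Real.exp_le_exp.mpr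
    rw [div_le_iff₀ (by linarith)]
    have h2 : κ0 * θ ≤ 1 / 100 := by nlinarith
    have h3 : κ0 * θ * L ≤ 1 / 100 * L := mul_le_mul_of_nonneg_right h2 hLpos.le
    have h4 : 1 / 100 * L ≤ 1 / 100 * L * m := by nlinarith
    linarith
  · rw [hwW, hwn]
    push_cast
    have h1 : G * L ≤ κ0 * θ * m * L / (8000 * Real.log W) * Real.log W := by
      have h2 : κ0 * θ * m * L / (8000 * Real.log W) * Real.log W = κ0 * θ * m / 8000 * L := by
        field_simp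
      rw [h2]
      apply mul_le_mul_of_nonneg_right _ hLpos.le
      linarith
    exact h1.trans (mul_le_mul_of_nonneg_right hwg hlogW0.le)
  · intro H hH
    have hJ : Fintype.card {h // h ∈ H} = 4000 ^ m := by rw [Fintype.card_coe, hH]
    have e1 := exJ_L w (2 * L) (by linarith) lvs hl1 hl2 {h // h ∈ H} hJ
    obtain ⟨hz1, hz2⟩ := w.z_bounds
    have hzK : 1 ≤ w.z ^ (4000 ^ m) := one_le_pow₀ hz1
    have hD0 : 0 ≤ ∏ i, lvs i ^ w.m i :=
      prod_nonneg fun i _ => pow_nonneg (zero_le_one.trans (hl1 i)) _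
    have e2 := exJ_sq w.P w.prime _ _ _ (by positivity) hD0 e1 (1 / w.z ^ (4000 ^ m))
      (by positivity) (by rw [div_le_one (by positivity)]; exact hzK)
    have e3 : (fun S => 1 / w.z ^ (4000 ^ m) * w.L S ^ 2) = FC w H := by
      funext S
      unfold FC
      ring
    rw [e3] at e2
    refine x5_mono e2 ?_ ?_
    · rw [hwn]
      have h1 : ((m : ℝ) + 1) * (2 * L) ≤ L ^ 2 := by nlinarith
      calc ((((m : ℝ) + 1) * (2 * L)) ^ (4000 ^ m)) ^ 2 ≤ ((L ^ 2) ^ (4000 ^ m)) ^ 2 := by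
            apply pow_le_pow_left₀ (by positivity)
            exact pow_le_pow_left₀ (by positivity) h1 _
        _ = L ^ (4 * 4000 ^ m) := by
            rw [← pow_mul, ← pow_mul]
            congr 1
            ring
    · calc (∏ i, lvs i ^ w.m i) ^ 2 ≤ Real.exp (θ * L) ^ 2 := pow_le_pow_left₀ hD0 hl3 2
        _ = (N : ℝ) ^ (2 * θ) := by
            rw [← Real.exp_nat_mul, ← hexpL]
            congr 1
            push_cast
            ring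

end Pool.Agent.Lib.H57C
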