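import Pool.Agent.Lib.H57C.SDefs
import Pool.Agent.Lib.H57C.A2
import Pool.Agent.Lib.H59C.MER3
import Pool.Agent.Lib.H59C.CVX

/-!
# Chunk S0: windows, `V(z)` and the size of the main term
-/

open Finset

namespace Pool.Agent.Lib.H57C

open Pool.Agent.Lib.H57M
open Pool.Agent.Lib.H59C (Sq lg XX gq VV PR zz yy Tri sift Win)

/-- The window of project H59C. Proof. `Ya N = 7N/20`, `Yb N = 9N/20`: `16 (Yb - Ya) ≥ 16 (N/10 - 1) ≥ N`; `N + h - (Yb + h) = N - Yb ≥ 11N/20`;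
`h ≤ N/100` for large `N` is a hypothesis. -/
theorem win_h (N h : ℕ) (hN : 1000 ≤ N) (hh : 100 * h ≤ N) (he : 2 ∣ N + h) :
    Win N (N + h) (Ya N + h) (Yb N + h) ∧ Yb N + h < N + h := by
  unfold Ya Yb
  refine ⟨⟨by omega, he, by omega, by omega, by omega, by omega, by omega, Or.inl ⟨by omega, by omega⟩⟩, by omega⟩

/-- `N + h` is not a multiple of a prime `p ∈ (Ya + h, Yb + h]`: `(N + h)/p` is between `2` and `3`. -/
theorem not_dvd_h (N h p : ℕ) (hN : 1000 ≤ N) (hh : 100 * h ≤ N) (hp : p ∈ Sh N h) :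
    ¬ p ∣ N + h := by
  unfold Sh Sq Ya Yb at hp
  rw [Finset.mem_filter, Finset.mem_Ioc] at hp
  obtain ⟨⟨h1, h2⟩, _⟩ := hp
  rintro ⟨k, hk⟩
  rcases Nat.lt_or_ge k 3 with h3 | h3
  · have h4 : p * k ≤ p * 2 := Nat.mul_le_mul_left p (by omega)
    omega
  · have h4 : p * 3 ≤ p * k := Nat.mul_le_mul_left p h3
    omega

/-- Proof. `Pg` consists of primes `> W ≥ 2`, `VV` of a subset of the odd primes is at least the one of all odd primes in `[3, z)`: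
`VV_lower` with its `N = 1` (`c/log N ≤ VV`), and `VV ≤ 1`. -/
theorem vz_low : ∃ c : ℝ, 0 < c ∧ ∃ n0 : ℕ, ∀ N : ℕ, n0 ≤ N → ∀ (W : ℕ) (H : Finset ℕ), 2 ≤ W →
    c / Real.log N ≤ Vz N W H ∧ Vz N W H ≤ 1 := by
  obtain ⟨c, hc, n0, hn0⟩ := Pool.Agent.Lib.H59C.VV_lower
  refine ⟨c, hc, max n0 1, fun N hN W H hW => ?_⟩
  have hN1 : 1 ≤ N := le_trans (le_max_right _ _) hN
  have hN1' : (1 : ℝ) ≤ N := by exact_mod_cast hN1
  have hP : ∀ q ∈ Pg N W H, q.Prime ∧ 3 ≤ q := by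
    intro q hq
    unfold Pg at hq
    rw [Finset.mem_filter, Finset.mem_Ioc] at hq
    exact ⟨hq.2.1, by omega⟩
  constructor
  · have h1 := hn0 N (le_trans (le_max_left _ _) hN) (Pg N W H) 1 (zz N) one_pos (Nat.one_le_pow _ _ hN1)
      (by
        unfold zz
        exact Real.rpow_le_rpow_of_exponent_le hN1' (by norm_num))
      (by
        unfold zz
        calc (N : ℝ) ^ (1 / 8 : ℝ) ≤ (N : ℝ) ^ (1 : ℝ) := Real.rpow_le_rpow_of_exponent_le hN1' (by norm_num)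
          _ = N := Real.rpow_one _)
      (fun q hq => ⟨(hP q hq).1, (hP q hq).2, fun h => (hP q hq).1.one_lt.ne' (Nat.dvd_one.1 h)⟩)
    have h2 : (∏ q ∈ (1 : ℕ).primeFactors.filter (fun q => 2 < q), (((q : ℝ) - 1) / (q - 2))) = 1 := by
      rw [Nat.primeFactors_one]
      simp
    rw [h2, mul_one] at h1
    exact h1
  · unfold Vz VV Pool.Agent.Lib.H59C.VP
    have h1 : ∀ q ∈ (Pg N W H).filter (fun q : ℕ => (q : ℝ) < zz N), 0 ≤ gq q ∧ gq q ≤ 1 := by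
      intro q hq
      have hq3 : (3 : ℝ) ≤ q := by exact_mod_cast (hP q (Finset.mem_filter.1 hq).1).2
      unfold gq
      constructor
      · exact div_nonneg zero_le_one (by linarith)
      · rw [div_le_one (by linarith)]
        linarith
    refine Finset.prod_le_one (fun q hq => ?_) fun q hq => ?_
    · linarith [(h1 q hq).2]
    · linarith [(h1 q hq).1]

theorem s0_large (B : ℕ) (c : ℝ) (hc : 0 < c) : ∃ n0 : ℕ, ∀ N : ℕ, n0 ≤ N →
    1000 ≤ N ∧ 1 ≤ Real.log N ∧ 1 ≤ c * Real.log N ∧ 100 * (Real.log N ^ B + 1) ≤ (N : ℝ) := by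
  have h1 : ∀ᶠ x : ℝ in Filter.atTop, 1 ≤ Real.log x ∧ 1 ≤ c * Real.log x ∧ 100 * (Real.log x ^ B + 1) ≤ x := by
    have e1 := (Real.isLittleO_pow_log_id_atTop (n := B)).def (show (0 : ℝ) < 1 / 200 by norm_num)
    filter_upwards [e1, Filter.eventually_ge_atTop (200 : ℝ),
      Real.tendsto_log_atTop.eventually_ge_atTop 1, Real.tendsto_log_atTop.eventually_ge_atTop (1 / c)] with x hx1 hx2 hx3 hx4
    refine ⟨hx3, ?_, ?_⟩
    · rw [div_le_iff₀ hc] at hx4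
      linarith
    · rw [Real.norm_eq_abs, Real.norm_eq_abs, abs_of_nonneg (pow_nonneg (by linarith) _), id, abs_of_nonneg (by linarith)] at hx1
      linarith
  obtain ⟨n0, hn0⟩ := Filter.eventually_atTop.1
    ((tendsto_natCast_atTop_atTop (R := ℝ)).eventually h1)
  exact ⟨max n0 1000, fun N hN => ⟨le_trans (le_max_right _ _) hN, hn0 N (le_trans (le_max_left _ _) hN)⟩⟩

/-- Proof. `Xh = XX AE Vb`, `XX ≥ N/20` (`XX_bounds` with `win_h`), `AE ≥ 36/100` (`aes`, `c ≥ 0`), `Vb ≥ Va ≥ 1/L` (`vb_ge`, `va_low`), `Vz ≥ c/L`: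
`Xh Vz ≥ c' N/L^2 ≥ N/L^3` for large `N`. -/
theorem main_low (K B cF : ℕ) (hK : 1 ≤ K) (θ G : ℝ) : ∃ n0 : ℕ, ∀ N : ℕ, n0 ≤ N →
    ∀ (w : Par K) (H : Finset ℕ) (p1 : ℕ), Reg B cF θ G w H N p1 → ∀ h ∈ H,
    N / Real.log N ^ 3 ≤ Xh w H N p1 h * Vz N w.W H ∧ 0 ≤ Xh w H N p1 h ∧
    (N : ℝ) / 20 ≤ XX (Ya N + h) (Yb N + h) ∧ XX (Ya N + h) (Yb N + h) ≤ N / 5 := by
  obtain ⟨c, hc, n1, hn1⟩ := vz_low
  obtain ⟨n2, hn2⟩ := va_low K B hK
  obtain ⟨n3, hn3⟩ := Pool.Agent.Lib.H59C.XX_bounds (1 / 10) (by norm_num)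
  obtain ⟨n4, hn4⟩ := s0_large B (18 / 1000 * c) (by positivity)
  refine ⟨max (max n1 n2) (max n3 n4), fun N hN w H p1 hR h hh => ?_⟩
  have hN1 : n1 ≤ N := le_trans (le_trans (le_max_left _ _) (le_max_left _ _)) hN
  have hN2 : n2 ≤ N := le_trans (le_trans (le_max_right _ _) (le_max_left _ _)) hN
  have hN3 : n3 ≤ N := le_trans (le_trans (le_max_left _ _) (le_max_right _ _)) hN
  have hN4 : n4 ≤ N := le_trans (le_trans (le_max_right _ _) (le_max_right _ _)) hN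
  obtain ⟨g1, g2, g3, g4⟩ := hn4 N hN4
  have hNr : (1000 : ℝ) ≤ N := by exact_mod_cast g1
  have hL0 : 0 < Real.log N := by linarith
  have hW4 : 4 ≤ w.W := by
    have := w.KW
    have h1 := w.Kpos
    nlinarith
  have hhW : h ≤ w.W := hR.HW h hh
  have hh100 : 100 * h ≤ N := by
    have h1 : (w.W : ℝ) ≤ Real.log N ^ B + 1 := by
      rw [hR.Wdef]
      exact (Nat.ceil_lt_add_one (by positivity)).le
    have h2 : (h : ℝ) ≤ w.W := by exact_mod_cast hhW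
    have h3 : (100 * h : ℝ) ≤ N := by linarith
    exact_mod_cast h3
  obtain ⟨hwin, _⟩ := win_h N h g1 hh100 (hR.even h hh)
  obtain ⟨x1, x2⟩ := hn3 N hN3 _ _ _ hwin
  have hdl : (N : ℝ) / 10 - 1 ≤ ((Yb N + h : ℕ) : ℝ) - ((Ya N + h : ℕ) : ℝ) := by
    have : N ≤ 10 * (Yb N + h) - 10 * (Ya N + h) + 10 := by unfold Ya Yb; omega
    have h2 : 10 * (Ya N + h) ≤ 10 * (Yb N + h) := by unfold Ya Yb; omega
    have h3 : N + 10 * (Ya N + h) ≤ 10 * (Yb N + h) + 10 := by omega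
    have h4 : (N : ℝ) + 10 * ((Ya N + h : ℕ) : ℝ) ≤ 10 * ((Yb N + h : ℕ) : ℝ) + 10 := by exact_mod_cast h3
    linarith
  have hdu : ((Yb N + h : ℕ) : ℝ) - ((Ya N + h : ℕ) : ℝ) ≤ (N : ℝ) / 10 + 1 := by
    have h3 : 10 * (Yb N + h) ≤ N + 10 * (Ya N + h) + 10 := by unfold Ya Yb; omega
    have h4 : 10 * ((Yb N + h : ℕ) : ℝ) ≤ (N : ℝ) + 10 * ((Ya N + h : ℕ) : ℝ) + 10 := by exact_mod_cast h3
    linarith
  have hX1 : (N : ℝ) / 20 ≤ XX (Ya N + h) (Yb N + h) := by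
    refine le_trans ?_ x1
    nlinarith
  have hX2 : XX (Ya N + h) (Yb N + h) ≤ N / 5 := by
    refine le_trans x2 ?_
    nlinarith
  have hAE : 36 / 100 ≤ AE w.P H (some h) (FC w H) := by
    refine le_trans ?_ (hR.aes h hh)
    have h1 : 0 ≤ (w.n : ℝ) * w.c := mul_nonneg (Nat.cast_nonneg _) w.c0
    nlinarith
  obtain ⟨v1, _⟩ := hn2 N hN2 w.W p1 H hR.Wdef hR.cardH hR.nf
  have hva0 : 0 ≤ Va N w.W p1 H := le_trans (by positivity) v1
  have hvb : 1 / Real.log N ≤ Vb N w.W p1 H := le_trans v1 (vb_ge N w.W p1 H (by omega) hR.p1p hva0).2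
  obtain ⟨z1, _⟩ := hn1 N hN1 w.W H (by omega)
  have hXh : (N : ℝ) / 20 * (36 / 100 * (1 / Real.log N)) ≤ Xh w H N p1 h := by
    unfold Xh
    refine mul_le_mul hX1 (mul_le_mul hAE hvb (by positivity) (by linarith)) (by positivity) (by linarith)
  have hXh0 : 0 ≤ Xh w H N p1 h := le_trans (by positivity) hXh
  refine ⟨?_, hXh0, hX1, hX2⟩
  calc (N : ℝ) / Real.log N ^ 3 = N / Real.log N ^ 3 * 1 := (mul_one _).symm
    _ ≤ N / Real.log N ^ 3 * (18 / 1000 * c * Real.log N) := mul_le_mul_of_nonneg_left g3 (by positivity)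
    _ = (N : ℝ) / 20 * (36 / 100 * (1 / Real.log N)) * (c / Real.log N) := by
        field_simp
        ring
    _ ≤ Xh w H N p1 h * Vz N w.W H := mul_le_mul hXh z1 (by positivity) hXh0

end Pool.Agent.Lib.H57C
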