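import Pool.Agent.Lib.H57C.S0
import Pool.Agent.Lib.H57C.S2

/-!
# Chunk S1: the first sum
-/

open Finset

namespace Pool.Agent.Lib.H57C

open Pool.Agent.Lib.H57M
open Pool.Agent.Lib.H59C (AA zz)

/-- Proof. As `S1_lower` (`H59C/CS1.lean`): `jr (ε/4)` gives `Q0, z0`, `D = Lv N θ/Q0`, `z = zz N = N^(1/8)`, `s = log D/log z`:
`s ≤ 4` and `s ≥ 4 - 32 θ - o(1)`. Choose `θ0` such that `AA log (s - 1)/s ≥ AA (log 3)/4 - ε/4` for `|s - 4| ≤ 33 θ0` (continuity at `4`), `θ0 ≤ 1/100`.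
The remainder `remd .. ≤` the sum in `remB` (a subset of the moduli), `≤ N/L^10 ≤ (ε/4) Xh Vz` for large `N` by `main_low`. -/
theorem S1_low (ε : ℝ) (hε : 0 < ε) : ∃ θ0 : ℝ, 0 < θ0 ∧ ∀ θ : ℝ, 0 < θ → θ ≤ θ0 →
    ∀ (K B cF : ℕ) (G : ℝ), 1 ≤ K → 3 ≤ B → ∃ n0 : ℕ, ∀ N : ℕ, n0 ≤ N →
    ∀ (w : Par K) (H : Finset ℕ) (p1 : ℕ), Reg B cF θ G w H N p1 → ∀ h ∈ H,
    Xh w H N p1 h * Vz N w.W H * (AA * Real.log 3 / 4 - ε) ≤ S1s w H N p1 h := by
  classical
  obtain ⟨Q0, hQ0, z0, hz0, hjr⟩ := H59C.jr (ε / 4) (by linarith)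
  have hcont : ContinuousAt (fun s : ℝ => AA * Real.log (s - 1) / s) 4 := by
    apply ContinuousAt.div
    · apply ContinuousAt.mul continuousAt_const
      apply ContinuousAt.log
      · fun_prop
      · norm_num
    · fun_prop
    · norm_num
  obtain ⟨δ, hδ, hcδ⟩ := Metric.continuousAt_iff.mp hcont (ε / 4) (by linarith)
  obtain ⟨η, hη⟩ : ∃ η : ℝ, η = min (δ / 16) (1 / 20) := ⟨_, rfl⟩
  have hη0 : 0 < η := by rw [hη]; exact lt_min (by linarith) (by norm_num)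
  have hη1 : η ≤ δ / 16 := by rw [hη]; exact min_le_left _ _
  have hη2 : η ≤ 1 / 20 := by rw [hη]; exact min_le_right _ _
  refine ⟨η / 5, by linarith, fun θ hθ hθη K B cF G hK hB => ?_⟩
  obtain ⟨n1, hmain⟩ := main_low K B cF hK θ G
  obtain ⟨n3, hn3⟩ := s2_lv θ hθ (by linarith) Q0 hQ0
  obtain ⟨n4, hn4⟩ := H59C.cdl_zz z0
  obtain ⟨n5, hn5⟩ := H59C.cdl_log (max 1 (4 / ε))
  refine ⟨n1 + n3 + n4 + n5 + 3, fun N hn w H p1 hR h hh => ?_⟩
  have hN : (3 : ℝ) ≤ N := by exact_mod_cast (by omega : 3 ≤ N)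
  have hL : 0 < Real.log N := Real.log_pos (by linarith)
  obtain ⟨hD1, hDl', hDu, hDp⟩ := hn3 N (by omega)
  have hzn := hn4 N (by omega)
  have hLn := hn5 N (by omega)
  have hL1 : 1 ≤ Real.log N := le_trans (le_max_left _ _) hLn
  have hL4 : 4 / ε ≤ Real.log N := le_trans (le_max_right _ _) hLn
  have hlz := H59C.log_zz N (by omega)
  obtain ⟨hXV, hX0, -, -⟩ := hmain N (by omega) w H p1 hR h hh
  have hW4 : 2 ≤ w.W := by
    have := w.KW
    have h1 := w.Kpos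
    nlinarith
  have hzpos : 0 < zz N := by linarith
  obtain ⟨D, hD⟩ : ∃ D : ℝ, D = (Lv N θ : ℝ) / Q0 := ⟨_, rfl⟩
  rw [← hD] at hDl' hDu hDp
  have hDl : (1 / 2 - η) * Real.log N ≤ Real.log D :=
    le_trans (mul_le_mul_of_nonneg_right (by linarith) hL.le) hDl'
  have hlz0 : 0 < Real.log (zz N) := by rw [hlz]; linarith
  have h2z : 2 * Real.log (zz N) ≤ Real.log D := by
    rw [hlz]
    have : (3 / 8 : ℝ) * Real.log N ≤ (1 / 2 - η) * Real.log N := by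
      apply mul_le_mul_of_nonneg_right (by linarith) hL.le
    linarith
  have h4z : Real.log D ≤ 4 * Real.log (zz N) := by
    rw [hlz]
    linarith
  have hzD : zz N ≤ D := by
    rw [← Real.log_le_log_iff hzpos hDp]
    linarith
  obtain ⟨-, hlow⟩ := hjr (Pg N w.W H) (fun q hq => s2_Pg hW4 hq) (zz N) D hzn hzD (Sh N h)
    (wh w H N p1 h) (fun p => Nat.dist (N + h) p) (Xh w H N p1 h) hX0
    (fun p _ => mul_nonneg (H59C.lg_nonneg p) (s2_Fs w H N p1 _ _))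
  have hlow := hlow h2z h4z
  have hDQ : D * (Q0 : ℝ) = (Lv N θ : ℝ) := by
    rw [hD]
    have : (Q0 : ℝ) ≠ 0 := by
      have : (1 : ℝ) ≤ Q0 := by exact_mod_cast hQ0
      linarith
    field_simp
  rw [hDQ] at hlow
  have hrem : H59C.remd (Sh N h) (wh w H N p1 h) (fun p => Nat.dist (N + h) p) (Pg N w.W H) (zz N)
      (Xh w H N p1 h) (Lv N θ) ≤ N / Real.log N ^ 10 := by
    refine le_trans ?_ (hR.remB h hh)
    unfold H59C.remd
    rw [Nat.floor_natCast]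
    refine sum_le_sum_of_subset_of_nonneg ?_ fun d _ _ => abs_nonneg _
    intro d hd
    unfold Dv
    rw [mem_filter] at hd ⊢
    exact ⟨hd.1, hd.2.1, fun q hq => (hd.2.2 q hq).1⟩
  have hsm : N / Real.log N ^ 10 ≤ ε / 4 * (Xh w H N p1 h * Vz N w.W H) := by
    have e1 : (N : ℝ) / Real.log N ^ 10 = N / Real.log N ^ 3 * (1 / Real.log N ^ 7) := by
      field_simp
    have e2 : 1 / Real.log N ^ 7 ≤ ε / 4 := by
      rw [div_le_iff₀ (by positivity)]
      rw [div_le_iff₀ hε] at hL4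
      have e3 : Real.log N ≤ Real.log N ^ 7 := le_self_pow₀ hL1 (by norm_num)
      nlinarith
    rw [e1, mul_comm]
    exact mul_le_mul e2 hXV (by positivity) (by positivity)
  obtain ⟨s, hs⟩ : ∃ s : ℝ, s = Real.log D / Real.log (zz N) := ⟨_, rfl⟩
  rw [← hs] at hlow
  have hs4 : s ≤ 4 := by
    rw [hs, div_le_iff₀ hlz0]
    linarith
  have hsl : 4 - 8 * η ≤ s := by
    rw [hs, le_div_iff₀ hlz0, hlz]
    have : (4 - 8 * η) * (1 / 8 * Real.log N) = (1 / 2 - η) * Real.log N := by ring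
    linarith
  have hdist : dist s 4 < δ := by
    rw [Real.dist_eq, abs_lt]
    constructor <;> linarith
  have hclose := hcδ hdist
  rw [Real.dist_eq, abs_lt] at hclose
  have hmain2 : AA * Real.log 3 / 4 - ε / 4 ≤ AA * Real.log (s - 1) / s := by
    have h31 : (4 : ℝ) - 1 = 3 := by norm_num
    have := hclose.1
    rw [h31] at this
    linarith
  have hVX : 0 ≤ Xh w H N p1 h * Vz N w.W H := by
    have h0 : 0 ≤ (N : ℝ) / Real.log N ^ 3 := by positivity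
    exact h0.trans hXV
  have hA : Xh w H N p1 h * Vz N w.W H * (AA * Real.log 3 / 4 - ε / 2) ≤
      Xh w H N p1 h * Vz N w.W H * (AA * Real.log (s - 1) / s - ε / 4) := by
    apply mul_le_mul_of_nonneg_left _ hVX
    linarith
  have hlow2 : Xh w H N p1 h * Vz N w.W H * (AA * Real.log (s - 1) / s - ε / 4) -
      H59C.remd (Sh N h) (wh w H N p1 h) (fun p => Nat.dist (N + h) p) (Pg N w.W H) (zz N)
      (Xh w H N p1 h) (Lv N θ) ≤ S1s w H N p1 h := hlow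
  have e1 : Xh w H N p1 h * Vz N w.W H * (AA * Real.log 3 / 4 - ε) =
      Xh w H N p1 h * Vz N w.W H * (AA * Real.log 3 / 4 - ε / 2) -
        ε / 2 * (Xh w H N p1 h * Vz N w.W H) := by ring
  have e2 : 0 ≤ ε / 4 * (Xh w H N p1 h * Vz N w.W H) := by positivity
  rw [e1]
  linarith

end Pool.Agent.Lib.H57C
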