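import Pool.Agent.Lib.H57C.L2
import Pool.Agent.Lib.H57C.F1
import Pool.Agent.Lib.H57C.F2
import Pool.Agent.Lib.H57C.PT
import Pool.Agent.Lib.H57C.REG2

/-!
# Chunk TG: the number of good `t`
-/

open Finset

namespace Pool.Agent.Lib.H57C

open Pool.Agent.Lib.H57M

/-- Large `n`. -/
theorem tg_large (c : ℝ) : ∃ n0 : ℕ, ∀ n : ℕ, n0 ≤ n → 3 ≤ n ∧ c ≤ Real.log n := by
  refine ⟨⌈Real.exp c⌉₊ + 3, fun n hn => ?_⟩
  have h1 : Real.exp c ≤ ⌈Real.exp c⌉₊ := Nat.le_ceil _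
  have h2 : ((⌈Real.exp c⌉₊ + 3 : ℕ) : ℝ) ≤ n := by exact_mod_cast hn
  push_cast at h2
  refine ⟨by omega, ?_⟩
  rw [Real.le_log_iff_exp_le (by linarith [Real.exp_pos c])]
  linarith

theorem tg_log2 (n : ℕ) (hn : 3 ≤ n) : 0 ≤ Real.log (2 * n) ∧ Real.log (2 * n) ≤ 2 * Real.log n := by
  have h3 : (3 : ℝ) ≤ n := by exact_mod_cast hn
  constructor
  · exact Real.log_nonneg (by linarith)
  · have h1 : Real.log (2 * n) ≤ Real.log ((n : ℝ) ^ 2) := by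
      apply Real.log_le_log (by linarith)
      nlinarith
    rwa [Real.log_pow, Nat.cast_ofNat] at h1

theorem tg_W (n B k : ℕ) (hB : 3 ≤ B) (hl1 : 1 ≤ Real.log n) (hl : (8 * k + 8 : ℝ) ≤ Real.log n) :
    8 * k + 8 ≤ ⌈Real.log n ^ B⌉₊ := by
  have h1 : Real.log n ≤ Real.log n ^ B := by
    calc Real.log n = Real.log n ^ 1 := (pow_one _).symm
      _ ≤ Real.log n ^ B := pow_le_pow_right₀ hl1 (by omega)
  have h2 : Real.log n ^ B ≤ ⌈Real.log n ^ B⌉₊ := Nat.le_ceil _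
  have h3 : ((8 * k + 8 : ℕ) : ℝ) ≤ (⌈Real.log n ^ B⌉₊ : ℝ) := by
    push_cast
    linarith
  exact_mod_cast h3

theorem tg_pow {N L : ℝ} (hL : 0 < L) (a b : ℕ) : N / L ^ a = N / L ^ (a + b) * L ^ b := by
  have h1 : L ^ b ≠ 0 := (pow_pos hL b).ne'
  have h2 : L ^ a ≠ 0 := (pow_pos hL a).ne'
  rw [pow_add]
  field_simp

/-- The bracket for one `h`. -/
theorem tg_one {M L N A lam S1 S2 E1 E2 E3 C p : ℝ} (k : ℕ) (hL : 800 ≤ L) (hN : 0 ≤ N)
    (hM : N / L ^ (k + 3) ≤ M) (hlam : 1 ≤ lam)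
    (hnum : (1 + 1 / 256) * A ≤ (1 - 1 / 512 - 1 / 100) * lam)
    (h1 : (1 - 1 / 512) * M - N / L ^ (k + 12) ≤ S1)
    (h2 : S2 ≤ (1 + 1 / 256) * M * A + N / L ^ (k + 12))
    (h3 : E1 ≤ C / p * M + N / L ^ (k + 10)) (hC : C / p ≤ 1 / 200)
    (h4 : E2 ≤ N / L ^ (k + 11)) (h5 : E3 ≤ N / L ^ (k + 11)) :
    1 / 400 * M + N / L ^ (k + 4) ≤ S1 - 1 / lam * S2 - E1 - E2 - E3 := by
  have hL0 : (0 : ℝ) < L := by linarith
  have hM0 : 0 ≤ M := le_trans (by positivity) hM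
  set r := N / L ^ (k + 10) with hr
  have hr0 : 0 ≤ r := by positivity
  have hr1 : N / L ^ (k + 12) ≤ r := by
    rw [hr]
    apply div_le_div_of_nonneg_left hN (by positivity)
    exact pow_le_pow_right₀ (by linarith) (by omega)
  have hr2 : N / L ^ (k + 11) ≤ r := by
    rw [hr]
    apply div_le_div_of_nonneg_left hN (by positivity)
    exact pow_le_pow_right₀ (by linarith) (by omega)
  have hl0 : 0 < lam := by linarith
  have hS2 : 1 / lam * S2 ≤ (1 - 1 / 512 - 1 / 100) * M + r := by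
    have a1 : 1 / lam * S2 ≤ 1 / lam * ((1 + 1 / 256) * M * A + N / L ^ (k + 12)) :=
      mul_le_mul_of_nonneg_left h2 (by positivity)
    have a2 : 1 / lam * ((1 + 1 / 256) * M * A + N / L ^ (k + 12)) =
        M * (((1 + 1 / 256) * A) / lam) + N / L ^ (k + 12) / lam := by
      field_simp
    have a3 : ((1 + 1 / 256) * A) / lam ≤ 1 - 1 / 512 - 1 / 100 := by
      rw [div_le_iff₀ hl0]
      exact hnum
    have a4 : M * (((1 + 1 / 256) * A) / lam) ≤ M * (1 - 1 / 512 - 1 / 100) :=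
      mul_le_mul_of_nonneg_left a3 hM0
    have a5 : N / L ^ (k + 12) / lam ≤ r := by
      refine le_trans (div_le_self (by positivity) hlam) hr1
    linarith
  have hE1 : E1 ≤ 1 / 200 * M + r := by
    have := mul_le_mul_of_nonneg_right hC hM0
    linarith
  -- `M/400 ≥ 2 N/L^(k+4)` and `5 r ≤ N/L^(k+4)`
  have b1 : 2 * (N / L ^ (k + 4)) ≤ 1 / 400 * M := by
    have c1 : N / L ^ (k + 3) = N / L ^ (k + 4) * L := by
      have := tg_pow (N := N) hL0 (k + 3) 1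
      rwa [pow_one, show k + 3 + 1 = k + 4 by ring] at this
    have c2 : 0 ≤ N / L ^ (k + 4) := by positivity
    rw [c1] at hM
    nlinarith
  have b2 : 5 * r ≤ N / L ^ (k + 4) := by
    have c1 : N / L ^ (k + 4) = r * L ^ 6 := by
      rw [hr, show k + 10 = k + 4 + 6 by ring]
      exact tg_pow hL0 _ _
    rw [c1]
    have c2 : (5 : ℝ) ≤ L ^ 6 := by
      calc (5 : ℝ) ≤ L := by linarith
        _ = L ^ 1 := (pow_one _).symm
        _ ≤ L ^ 6 := pow_le_pow_right₀ (by linarith) (by norm_num)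
    nlinarith
  linarith

/-- Proof. `θ = 1/1000`. `S1R_low`, `S2R_up` and `num`: `S1R - S2R/lam ≥ (1/100) XhR V1R - (1 + 1/lam) n/L^(k+12)`. `E1R_up` gives `C`, `K0 ≥ 200 C`: `E1R ≤ (1/200) XhR V1R + n/L^(k+10)`. `E2R_up`, `E3R_up`. So
for every `h ∈ H`: the bracket is `≥ (1/200) XhR V1R - n/L^(k+9) ≥ (1/400) XhR V1R + n/L^(k+4)` for large `n` (`mainR_low`: `XhR V1R ≥ n/L^(k+3)`), and `XhR V1R ≥ (n/20) (36/100) (1 + n c)^2 (log W/4) VaR V1R`,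
so the sum over the `K` elements of `H` is `≥ (1/400) (9/2000) n Ga L VaR V1R + n/L^(k+4)` (`gain`). The negative part is at most
`(g - 1) 2 L ((n/3) VaR V0R + n/L^(k+12))` (`NsR_up`), `V0R ≤ 2 V1R` (`v0_le`). So `Ga = C' g` with an absolute constant `C'` gives `TtR ≥ n/L^(k+4) - 2 g n/L^(k+11) ≥ n/L^(k+5)`. -/
theorem T_geR (g k : ℕ) (hg : 1 ≤ g) (hk : 1 ≤ k) : ∃ θ Ga : ℝ, 0 < θ ∧ θ ≤ 1 / 1000 ∧
    0 < Ga ∧ ∃ K0 : ℕ, ∀ (K B cF : ℕ), 1 ≤ K → 3 ≤ B → ∃ n0 : ℕ, ∀ n : ℕ, n0 ≤ n →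
    ∀ (w : Par K) (H : Finset ℕ) (p1 : ℕ) (R T T2 : ℕ → Finset ℕ) (P' Z : Finset ℕ),
    K0 ≤ p1 → Reg2 B cF k θ Ga w H n p1 R T P' → HZ k n w.W p1 T T2 P' Z →
    n / Real.log n ^ (k + 5) ≤ TtR w H n k p1 R T T2 P' Z g := by
  obtain ⟨C, hC, hE1⟩ := E1R_up k hk
  obtain ⟨hlam0, hnum⟩ := num k hk
  have hg1 : (1 : ℝ) ≤ g := by exact_mod_cast hg
  refine ⟨1 / 1000, 200000 * g, by norm_num, le_rfl, by positivity, ⌈200 * C⌉₊ + 1,
    fun K B cF hK hB => ?_⟩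
  obtain ⟨n1, hn1⟩ := S1R_low K B cF k (1 / 1000) (200000 * g) hK hk hB (by norm_num) le_rfl
  obtain ⟨n2, hn2⟩ := S2R_up K B cF k (1 / 1000) (200000 * g) hK hk hB (by norm_num) le_rfl
  obtain ⟨n3, hn3⟩ := hE1 K B cF (1 / 1000) (200000 * g) hK hB (by norm_num) le_rfl
  obtain ⟨n4, hn4⟩ := E2R_up K B cF k (1 / 1000) (200000 * g) hK hk hB
  obtain ⟨n5, hn5⟩ := E3R_up K B cF k (1 / 1000) (200000 * g) hK hk hB
  obtain ⟨n6, hn6⟩ := mainR_low K B cF k (1 / 1000) (200000 * g) hK hk hB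
  obtain ⟨n7, hn7⟩ := NsR_up K B cF k (1 / 1000) (200000 * g) hK hk hB (by norm_num) le_rfl
  obtain ⟨n8, hn8⟩ := tg_large (max 800 (max (8 * k + 8) (2 * g + 2)))
  refine ⟨n1 + n2 + n3 + n4 + n5 + n6 + n7 + n8, fun n hn w H p1 R T T2 P' Z hp1 hR hZ => ?_⟩
  obtain ⟨h3n, hLmax⟩ := hn8 n (by omega)
  set L := Real.log n with hLdef
  have hL8 : 800 ≤ L := le_trans (le_max_left _ _) hLmax
  have hLk : (8 * k + 8 : ℝ) ≤ L := le_trans (le_trans (le_max_left _ _) (le_max_right _ _)) hLmax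
  have hLg : (2 * g + 2 : ℝ) ≤ L := le_trans (le_trans (le_max_right _ _) (le_max_right _ _)) hLmax
  have hL0 : (0 : ℝ) < L := by linarith
  have hn0 : (0 : ℝ) ≤ n := Nat.cast_nonneg n
  -- `lam ≥ 1`
  have hk1 : (1 : ℝ) ≤ k := by exact_mod_cast hk
  have hlam1 : 1 ≤ lam k := by
    unfold lam
    have h1 : 0 ≤ Real.log ((k : ℝ) + 1) := Real.log_nonneg (by linarith)
    have h2 : 0 ≤ 105 / 100 * (k : ℝ) * Real.log ((k : ℝ) + 1) := by positivity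
    linarith
  -- `C/p1 ≤ 1/200`
  have hp1C : 200 * C ≤ (p1 : ℝ) := by
    have a1 : 200 * C ≤ ⌈200 * C⌉₊ := Nat.le_ceil _
    have a2 : ((⌈200 * C⌉₊ + 1 : ℕ) : ℝ) ≤ p1 := by exact_mod_cast hp1
    push_cast at a2
    linarith
  have hp10 : (0 : ℝ) < p1 := by linarith [mul_pos (show (0 : ℝ) < 200 by norm_num) hC]
  have hCp : C / p1 ≤ 1 / 200 := by
    rw [div_le_iff₀ hp10]
    linarith
  -- one `h`
  have hone : ∀ h ∈ H, 1 / 400 * (XhR w H n p1 h R * V1R T (Q2 P' n k)) + n / L ^ (k + 4) ≤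
      S1R w H n k p1 h R T P' - 1 / lam k * S2R w H n k p1 h R T P' -
      E1R w H n k p1 h R T P' - E2R w H n p1 h R T Z - E3R w H n k p1 h R T2 P' := by
    intro h hh
    exact tg_one k hL8 hn0 (hn6 n (by omega) w H p1 R T P' hR hZ.P'n h hh).1 hlam1 hnum
      (hn1 n (by omega) w H p1 R T P' hR h hh)
      (hn2 n (by omega) w H p1 R T P' hR hZ.P'n h hh)
      (hn3 n (by omega) w H p1 R T T2 P' Z hR hZ h hh) hCp
      (hn4 n (by omega) w H p1 R T T2 P' Z hR hZ h hh)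
      (hn5 n (by omega) w H p1 R T T2 P' Z hR hZ h hh)
  -- the sum over `h`
  have hHc : H.card = K := hR.cardH
  have hHne : H.Nonempty := by
    rw [← card_pos, hHc]
    omega
  obtain ⟨h0, hh0⟩ := hHne
  obtain ⟨_, _, hVa0, hV10⟩ := hn6 n (by omega) w H p1 R T P' hR hZ.P'n h0 hh0
  set Va := VaR (Ps w.W p1) R with hVadef
  set V1 := V1R T (Q2 P' n k) with hV1def
  set m1 : ℝ := n / 20 * (36 / 100 * (1 + w.n * w.c) ^ 2 * (Real.log w.W / 4 * Va)) * V1 with hm1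
  have hsum : (K : ℝ) * (1 / 400 * m1 + n / L ^ (k + 4)) ≤
      ∑ h ∈ H, (S1R w H n k p1 h R T P' - 1 / lam k * S2R w H n k p1 h R T P' -
      E1R w H n k p1 h R T P' - E2R w H n p1 h R T Z - E3R w H n k p1 h R T2 P') := by
    have a1 : ∑ _h ∈ H, (1 / 400 * m1 + n / L ^ (k + 4)) = (K : ℝ) * (1 / 400 * m1 + n / L ^ (k + 4)) := by
      rw [sum_const, nsmul_eq_mul, hHc]
    rw [← a1]
    apply sum_le_sum
    intro h hh
    have a2 := (hn6 n (by omega) w H p1 R T P' hR hZ.P'n h hh).2.1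
    have a3 := hone h hh
    linarith
  have hgain := hR.gain
  have hKr : (1 : ℝ) ≤ K := by exact_mod_cast hK
  have hVV : 0 ≤ Va * V1 := mul_nonneg hVa0 hV10
  have hKm : 9 / 4 * g * (n * L * (Va * V1)) ≤ (K : ℝ) * (1 / 400 * m1) := by
    have a1 : (K : ℝ) * (1 / 400 * m1) = 9 / 800000 * n * (Va * V1) *
        (K * (1 + w.n * w.c) ^ 2 * Real.log w.W) := by
      rw [hm1]; ring
    rw [a1]
    have a2 : 9 / 4 * g * (n * L * (Va * V1)) = 9 / 800000 * n * (Va * V1) * (200000 * g * L) := by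
      ring
    rw [a2]
    exact mul_le_mul_of_nonneg_left hgain (by positivity)
  -- the negative part
  have hneg := hn7 n (by omega) w H p1 R T P' hR
  obtain ⟨hlog0, hlog2⟩ := tg_log2 n h3n
  have hW8 : 8 * k + 8 ≤ w.W := by
    rw [hR.Wdef]
    exact tg_W n B k hB (by linarith) hLk
  have hv0 := v0_le k w.W T (Q2 P' n k) hW8 (fun q hq => by
    have hq' : q ∈ P' := (mem_filter.mp hq).1
    exact ⟨(hR.P'p q hq').1, (hR.P'p q hq').2, hR.Tk q hq'⟩)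
  have hneg2 : ((g : ℝ) - 1) * Real.log (2 * n) * NsR w H n k p1 R T P' ≤
      g * (2 * L) * (2 / 3 * n * (Va * V1) + n / L ^ (k + 12)) := by
    have a1 : NsR w H n k p1 R T P' ≤ 2 / 3 * n * (Va * V1) + n / L ^ (k + 12) := by
      refine hneg.trans ?_
      have b1 : Va * V0R T (Q2 P' n k) ≤ Va * (2 * V1) := mul_le_mul_of_nonneg_left hv0.1 hVa0
      have b2 : (n : ℝ) / 3 * (Va * V0R T (Q2 P' n k)) ≤ n / 3 * (Va * (2 * V1)) :=
        mul_le_mul_of_nonneg_left b1 (by positivity)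
      linarith
    have a2 : 0 ≤ 2 / 3 * n * (Va * V1) + n / L ^ (k + 12) := by positivity
    calc ((g : ℝ) - 1) * Real.log (2 * n) * NsR w H n k p1 R T P'
        ≤ ((g : ℝ) - 1) * Real.log (2 * n) * (2 / 3 * n * (Va * V1) + n / L ^ (k + 12)) :=
          mul_le_mul_of_nonneg_left a1 (mul_nonneg (by linarith) hlog0)
      _ ≤ g * (2 * L) * (2 / 3 * n * (Va * V1) + n / L ^ (k + 12)) := by
          apply mul_le_mul_of_nonneg_right _ a2
          apply mul_le_mul (by linarith) hlog2 hlog0 (by linarith)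
  -- the powers of the logarithm
  have hp : n / L ^ (k + 5) ≤ n / L ^ (k + 4) - g * (2 * L) * (n / L ^ (k + 12)) := by
    set r := (n : ℝ) / L ^ (k + 12) with hr
    have hr0 : 0 ≤ r := by positivity
    have a1 : n / L ^ (k + 5) = r * L ^ 7 := by
      rw [hr, show k + 12 = k + 5 + 7 by ring]
      exact tg_pow hL0 _ _
    have a2 : n / L ^ (k + 4) = r * L ^ 8 := by
      rw [hr, show k + 12 = k + 4 + 8 by ring]
      exact tg_pow hL0 _ _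
    rw [a1, a2]
    have a3 : L ^ 7 + g * (2 * L) ≤ L ^ 8 := by
      have c1 : (1 : ℝ) ≤ L ^ 6 := one_le_pow₀ (by linarith)
      have c2 : L ≤ L ^ 7 := by
        calc L = L * 1 := (mul_one _).symm
          _ ≤ L * L ^ 6 := mul_le_mul_of_nonneg_left c1 hL0.le
          _ = L ^ 7 := by ring
      have c3 : L ^ 8 = L * L ^ 7 := by ring
      have c4 : (2 * g + 1) * L ^ 7 ≤ L * L ^ 7 :=
        mul_le_mul_of_nonneg_right (by linarith) (by positivity)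
      have c5 : 2 * (g : ℝ) * L ≤ 2 * g * L ^ 7 := mul_le_mul_of_nonneg_left c2 (by positivity)
      rw [c3]
      linarith
    have a4 := mul_le_mul_of_nonneg_left a3 hr0
    linarith
  have hKn : n / L ^ (k + 4) ≤ (K : ℝ) * (n / L ^ (k + 4)) := by
    have a1 : 0 ≤ n / L ^ (k + 4) := by positivity
    nlinarith
  have hfin : 4 / 3 * g * (n * L * (Va * V1)) ≤ 9 / 4 * g * (n * L * (Va * V1)) := by
    have a1 : 0 ≤ n * L * (Va * V1) := by positivity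
    nlinarith [mul_nonneg (by linarith : (0 : ℝ) ≤ g) a1]
  unfold TtR
  have e1 : g * (2 * L) * (2 / 3 * n * (Va * V1) + n / L ^ (k + 12)) =
      4 / 3 * g * (n * L * (Va * V1)) + g * (2 * L) * (n / L ^ (k + 12)) := by ring
  rw [e1] at hneg2
  have e2 : (K : ℝ) * (1 / 400 * m1 + n / L ^ (k + 4)) =
      (K : ℝ) * (1 / 400 * m1) + K * (n / L ^ (k + 4)) := by ring
  rw [e2] at hsum
  linarith

/-- Proof. `T_geR`, `reg2_exists`, `T_leR`: `n/L^(k+5) ≤ K log (2n) ∑_{GdR} FF`, Cauchy-Schwarz and `mom`: `(∑_{GdR} FF)^2 ≤ #GdR L^B n`; so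
`#GdR ≥ n/(L^(2k+10) K^2 (2L)^2 L^B) ≥ n/L^(B + 2k + 13)`. -/
theorem gdR_card (g k : ℕ) (hg : 1 ≤ g) (hk : 1 ≤ k) : ∃ K B B2 : ℕ, 1 ≤ K ∧ 3 ≤ B ∧
    ∀ H : Finset ℕ, H.card = K → ∃ n0 : ℕ, ∀ n : ℕ, n0 ≤ n → ∃ W p1 : ℕ, p1.Prime ∧ p1 ≤ W ∧
    W = ⌈Real.log n ^ B⌉₊ ∧ (∀ h ∈ H, h ≤ W) ∧
    ∀ (R T T2 : ℕ → Finset ℕ) (P' Z : Finset ℕ), HRT K k W p1 H R T P' →
    HZ k n W p1 T T2 P' Z →
    n / Real.log n ^ B2 ≤ ((GdR H n k W p1 g R T T2 P' Z).card : ℝ) := by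
  obtain ⟨θ, Ga, hθ, hθ1, hGa, K0, hge⟩ := T_geR g k hg hk
  obtain ⟨m, hm, cF, B, hB, hreg⟩ := reg2_exists k hk θ Ga hθ (by linarith) hGa
  have hK1 : 1 ≤ 4000 ^ m := Nat.one_le_pow _ _ (by norm_num)
  refine ⟨4000 ^ m, B, B + 2 * k + 13, hK1, hB, fun H hH => ?_⟩
  obtain ⟨n1, hn1⟩ := hreg K0 H hH
  obtain ⟨n2, hn2⟩ := hge (4000 ^ m) B cF hK1 hB
  obtain ⟨n3, hn3⟩ := T_leR (4000 ^ m) B cF k θ Ga hK1 hk hB g hg
  obtain ⟨n4, hn4⟩ := tg_large (max 1 (4 * ((4000 ^ m : ℕ) : ℝ) ^ 2))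
  refine ⟨n1 + n2 + n3 + n4, fun n hn => ?_⟩
  obtain ⟨w, p1, hKp, hp1, hp1W, hWdef, hHW, hfin⟩ := hn1 n (by omega)
  refine ⟨w.W, p1, hp1, hp1W, hWdef, hHW, fun R T T2 P' Z hHRT hHZ => ?_⟩
  have hR := hfin R T P' hHRT
  have hlow := hn2 n (by omega) w H p1 R T T2 P' Z hKp hR hHZ
  have hup := hn3 n (by omega) w H p1 R T T2 P' Z hR hHZ
  obtain ⟨h3n, hLmax⟩ := hn4 n (by omega)
  obtain ⟨hlog0, hlog2⟩ := tg_log2 n h3n
  have hmom := hR.mom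
  set L := Real.log n with hLdef
  have hL1 : 1 ≤ L := le_trans (le_max_left _ _) hLmax
  have hL0 : 0 < L := by linarith
  have hLK : 4 * ((4000 ^ m : ℕ) : ℝ) ^ 2 ≤ L := le_trans (le_max_right _ _) hLmax
  set Kr : ℝ := ((4000 ^ m : ℕ) : ℝ) with hKr
  have hKr1 : 1 ≤ Kr := by rw [hKr]; exact_mod_cast hK1
  have hn0 : (0 : ℝ) < n := by exact_mod_cast (by omega : 0 < n)
  set Gs := GdR H n k w.W p1 g R T T2 P' Z with hGs
  set F := ∑ t ∈ Gs, FF w H none t with hF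
  have hFF0 : ∀ t, 0 ≤ FF w H none t := by
    intro t
    unfold FF
    have hz : 0 ≤ w.z := by
      have := w.z_bounds
      linarith [this.1]
    positivity
  have hF0 : 0 ≤ F := sum_nonneg fun t _ => hFF0 t
  have hsub : Gs ⊆ Icc 1 n := by
    intro t ht
    rw [hGs, GdR, mem_filter, mem_Ioc] at ht
    obtain ⟨⟨h1, h2⟩, _⟩ := ht
    rw [mem_Icc]
    unfold Yb at h2
    omega
  have hcs : F ^ 2 ≤ Gs.card * (L ^ B * n) := by
    calc F ^ 2 ≤ Gs.card * ∑ t ∈ Gs, FF w H none t ^ 2 := sq_sum_le_card_mul_sum_sq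
      _ ≤ Gs.card * ∑ t ∈ Icc 1 n, FF w H none t ^ 2 := by
          apply mul_le_mul_of_nonneg_left _ (Nat.cast_nonneg _)
          exact sum_le_sum_of_subset_of_nonneg hsub fun t _ _ => sq_nonneg _
      _ ≤ Gs.card * (L ^ B * n) := mul_le_mul_of_nonneg_left hmom (Nat.cast_nonneg _)
  have h1 : n / L ^ (k + 5) ≤ Kr * (2 * L) * F := by
    refine (hlow.trans hup).trans ?_
    apply mul_le_mul_of_nonneg_right _ hF0
    exact mul_le_mul_of_nonneg_left hlog2 (by linarith)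
  have h2 : (n / L ^ (k + 5)) ^ 2 ≤ (Kr * (2 * L)) ^ 2 * (Gs.card * (L ^ B * n)) := by
    calc (n / L ^ (k + 5)) ^ 2 ≤ (Kr * (2 * L) * F) ^ 2 := pow_le_pow_left₀ (by positivity) h1 2
      _ = (Kr * (2 * L)) ^ 2 * F ^ 2 := by ring
      _ ≤ (Kr * (2 * L)) ^ 2 * (Gs.card * (L ^ B * n)) :=
          mul_le_mul_of_nonneg_left hcs (by positivity)
  have h3 : (Kr * (2 * L)) ^ 2 * (Gs.card * (L ^ B * n)) ≤ L ^ 3 * L ^ B * (Gs.card * n) := by
    have a1 : (Kr * (2 * L)) ^ 2 = 4 * Kr ^ 2 * L ^ 2 := by ring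
    rw [a1]
    have a2 : 4 * Kr ^ 2 * L ^ 2 ≤ L * L ^ 2 := mul_le_mul_of_nonneg_right hLK (by positivity)
    have a3 : 0 ≤ (Gs.card : ℝ) * (L ^ B * n) := by positivity
    calc 4 * Kr ^ 2 * L ^ 2 * (Gs.card * (L ^ B * n)) ≤ L * L ^ 2 * (Gs.card * (L ^ B * n)) :=
          mul_le_mul_of_nonneg_right a2 a3
      _ = L ^ 3 * L ^ B * (Gs.card * n) := by ring
  have h4 : (n : ℝ) ^ 2 ≤ L ^ (B + 2 * k + 13) * (Gs.card * n) := by
    have a1 : (n / L ^ (k + 5)) ^ 2 * (L ^ (k + 5)) ^ 2 = (n : ℝ) ^ 2 := by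
      rw [div_pow]
      field_simp
    have a2 : L ^ 3 * L ^ B * (Gs.card * n) * (L ^ (k + 5)) ^ 2 =
        L ^ (B + 2 * k + 13) * (Gs.card * n) := by
      rw [← pow_mul, show B + 2 * k + 13 = 3 + B + (k + 5) * 2 by ring, pow_add, pow_add]
      ring
    rw [← a1, ← a2]
    exact mul_le_mul_of_nonneg_right (h2.trans h3) (by positivity)
  rw [div_le_iff₀ (by positivity)]
  have h5 : (n : ℝ) * n ≤ (Gs.card * L ^ (B + 2 * k + 13)) * n := by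
    calc (n : ℝ) * n = n ^ 2 := by ring
      _ ≤ L ^ (B + 2 * k + 13) * (Gs.card * n) := h4
      _ = (Gs.card * L ^ (B + 2 * k + 13)) * n := by ring
  exact le_of_mul_le_mul_right h5 hn0

end Pool.Agent.Lib.H57C
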