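import Pool.Agent.Lib.H59C.BV3
import Pool.Agent.Lib.H59C.BV2

/-!
# VF: the theorems of Bombieri and Vinogradov of project H59C, the residue class may depend on the modulus

The proofs of `bv` and `bv_bil` (`H59C/BV2.lean`, `H59C/BV3.lean`, helper59 and provers) with `a d` instead of `a`.
-/

open Finset

namespace Pool.Agent.Lib.H57C

open Pool.Agent.Lib.H59C
open Pool.Agent.Lib.H68T (PC p0 e)

open Classical in
theorem bvf (A : ℕ) : ∃ A' B n0 : ℕ, ∀ n : ℕ, n0 ≤ n → ∀ p1 : ℕ, SWp A' n p1 →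
    ∀ (a : ℕ → ℕ) (y : ℕ), y ≤ 8 * n →
    ∑ d ∈ (Icc 1 (DD n B)).filter (fun d => (a d).Coprime d ∧ ¬ p1 ∣ d),
      |thp y d (a d) - th y / (Nat.totient d : ℝ)| ≤ n / Real.log n ^ A := by
  obtain ⟨C₁, hC₁, h1⟩ := sum_inv_totient
  obtain ⟨C₂, hC₂, h2⟩ := prog_le
  obtain ⟨C₃, hC₃, h3⟩ := psi_sum
  obtain ⟨K, hK⟩ : ∃ K : ℝ, K = 10240 * (C₁ * C₃ + C₁ + C₂ + 1) := ⟨_, rfl⟩
  have hK1 : 10240 ≤ K := by
    have : 0 < C₁ * C₃ := by positivity
    rw [hK]
    nlinarith
  obtain ⟨n0, hn0⟩ := bv2_large K (A + 12)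
  refine ⟨2 * A + 20, A + 12, max n0 8, fun n hn p1 hSW a y hy => ?_⟩
  obtain ⟨hL, hLs⟩ := hn0 n ((le_max_left _ _).trans hn)
  have hn8 : 8 ≤ n := (le_max_right _ _).trans hn
  have hnR : (8 : ℝ) ≤ n := by exact_mod_cast hn8
  have hn0' : (0 : ℝ) < n := by linarith
  obtain ⟨L, hLdef⟩ : ∃ L : ℝ, L = Real.log n := ⟨_, rfl⟩
  obtain ⟨s, hsdef⟩ : ∃ s : ℝ, s = (n : ℝ) ^ (1 / 20 : ℝ) := ⟨_, rfl⟩
  rw [← hLdef] at hL hLs ⊢
  rw [← hsdef] at hLs
  have hL1 : 1 ≤ L := by linarith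
  have hL0 : 0 < L := by linarith
  have hs20 : s ^ 20 = n := by
    rw [hsdef, ← Real.rpow_natCast, ← Real.rpow_mul hn0'.le]
    norm_num
  have hLpow : ∀ j : ℕ, j ≤ A + 12 → L ^ j ≤ s := by
    intro j hj
    calc L ^ j ≤ L ^ (A + 12) := pow_le_pow_right₀ hL1 hj
      _ = 1 * L ^ (A + 12) := (one_mul _).symm
      _ ≤ K * L ^ (A + 12) := mul_le_mul_of_nonneg_right (by linarith) (by positivity)
      _ ≤ s := hLs
  have hs1 : 1 ≤ s := by
    have := hLpow 0 (by omega)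
    simpa using this
  have hs0 : 0 < s := by linarith
  have hsqrt : Real.sqrt n = s ^ 10 := by
    rw [← hs20, show (20 : ℕ) = 10 * 2 by norm_num, pow_mul]
    exact Real.sqrt_sq (by positivity)
  obtain ⟨hnum1, hnum2⟩ := bv2_num A hC₁ hC₂ hC₃ hK hL hLs
  rw [hs20] at hnum1 hnum2
  -- the level
  obtain ⟨D, hD⟩ : ∃ D : ℕ, D = DD n (A + 12) := ⟨_, rfl⟩
  rw [← hD]
  have hDle : (D : ℝ) ≤ s ^ 10 / L ^ (A + 12) := by
    rw [hD, DD, ← hLdef, hsqrt]
    exact Nat.floor_le (by positivity)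
  have hDs : (D : ℝ) ≤ s ^ 10 := by
    refine hDle.trans ?_
    rw [div_le_iff₀ (by positivity)]
    have : 1 ≤ L ^ (A + 12) := one_le_pow₀ hL1
    have h5 : 0 < s ^ 10 := by positivity
    nlinarith
  have hD2 : 2 ≤ D := by
    rw [hD, DD, ← hLdef, hsqrt]
    apply Nat.le_floor
    push_cast
    rw [le_div_iff₀ (by positivity)]
    have e1 : 2 * L ^ (A + 12) ≤ K * L ^ (A + 12) :=
      mul_le_mul_of_nonneg_right (by linarith) (by positivity)
    calc 2 * L ^ (A + 12) ≤ s := e1.trans hLs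
      _ = s ^ 1 := (pow_one s).symm
      _ ≤ s ^ 10 := pow_le_pow_right₀ hs1 (by norm_num)
  have hDR : (2 : ℝ) ≤ D := by exact_mod_cast hD2
  have hlogD : Real.log D ≤ L := by
    rw [hLdef]
    apply Real.log_le_log (by linarith)
    refine hDs.trans ?_
    rw [← hs20]
    exact pow_le_pow_right₀ hs1 (by norm_num)
  have hlogD0 : 0 ≤ Real.log D := Real.log_nonneg (by linarith)
  have hphi : ∑ k ∈ Icc 1 D, 1 / (Nat.totient k : ℝ) ≤ C₁ * L :=
    (h1 D hD2).trans (mul_le_mul_of_nonneg_left hlogD hC₁.le)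
  have hsub : ∑ d ∈ (Icc 1 D).filter (fun d => (a d).Coprime d ∧ ¬ p1 ∣ d), 1 / (Nat.totient d : ℝ) ≤
      C₁ * L := by
    refine le_trans ?_ hphi
    exact sum_le_sum_of_subset_of_nonneg (filter_subset _ _) fun _ _ _ => by positivity
  have hcard : (((Icc 1 D).filter (fun d => (a d).Coprime d ∧ ¬ p1 ∣ d)).card : ℝ) ≤ D := by
    have : ((Icc 1 D).filter (fun d => (a d).Coprime d ∧ ¬ p1 ∣ d)).card ≤ D := by
      refine (card_filter_le _ _).trans ?_
      rw [Nat.card_Icc]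
      omega
    exact_mod_cast this
  have hyR : (y : ℝ) ≤ 8 * n := by exact_mod_cast hy
  by_cases hcase : (y : ℝ) ≤ n / L ^ (A + 4)
  · -- small y
    have hyn : (y : ℝ) ≤ n := by
      refine hcase.trans ?_
      rw [div_le_iff₀ (by positivity)]
      have : 1 ≤ L ^ (A + 4) := one_le_pow₀ hL1
      nlinarith
    have hlogy : Real.log y ≤ L := by
      rcases Nat.eq_zero_or_pos y with h0 | h0
      · rw [h0]
        simp [hL0.le]
      · rw [hLdef]
        exact Real.log_le_log (by exact_mod_cast h0) hyn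
    have hly0 : 0 ≤ Real.log y := Real.log_natCast_nonneg y
    have e1 : ∑ d ∈ (Icc 1 D).filter (fun d => (a d).Coprime d ∧ ¬ p1 ∣ d),
        |thp y d (a d) - th y / (Nat.totient d : ℝ)| ≤
        ∑ d ∈ (Icc 1 D).filter (fun d => (a d).Coprime d ∧ ¬ p1 ∣ d),
          (2 * (y * Real.log y) * (1 / (Nat.totient d : ℝ)) + Real.log y) := by
      apply sum_le_sum
      intro d hd
      exact bv2_triv y d (a d) (mem_Icc.1 (mem_filter.1 hd).1).1
    refine e1.trans ?_
    rw [sum_add_distrib, ← mul_sum, sum_const, nsmul_eq_mul]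
    have e2 : 2 * (y * Real.log y) * ∑ d ∈ (Icc 1 D).filter (fun d => (a d).Coprime d ∧ ¬ p1 ∣ d),
        1 / (Nat.totient d : ℝ) ≤ 2 * C₁ * (n / L ^ (A + 4)) * L ^ 2 := by
      calc 2 * (y * Real.log y) * ∑ d ∈ (Icc 1 D).filter (fun d => (a d).Coprime d ∧ ¬ p1 ∣ d),
          1 / (Nat.totient d : ℝ) ≤ 2 * (y * Real.log y) * (C₁ * L) :=
            mul_le_mul_of_nonneg_left hsub (by positivity)
        _ ≤ 2 * ((n / L ^ (A + 4)) * L) * (C₁ * L) := by
            apply mul_le_mul_of_nonneg_right _ (by positivity)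
            apply mul_le_mul_of_nonneg_left _ (by norm_num)
            exact mul_le_mul hcase hlogy hly0 (by positivity)
        _ = _ := by ring
    have e3 : (((Icc 1 D).filter (fun d => (a d).Coprime d ∧ ¬ p1 ∣ d)).card : ℝ) * Real.log y ≤
        s ^ 10 * L := mul_le_mul (hcard.trans hDs) hlogy hly0 (by positivity)
    linarith
  · -- large y
    push Not at hcase
    have hy19 : s ^ 19 < y := by
      refine lt_of_le_of_lt ?_ hcase
      rw [le_div_iff₀ (by positivity), ← hs20]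
      calc s ^ 19 * L ^ (A + 4) ≤ s ^ 19 * s :=
            mul_le_mul_of_nonneg_left (hLpow _ (by omega)) (by positivity)
        _ = s ^ 20 := by ring
    have hs2 : 2 ≤ s := by
      have : K * 1 ≤ K * L ^ (A + 12) :=
        mul_le_mul_of_nonneg_left (one_le_pow₀ hL1) (by linarith)
      linarith
    have hy2 : 2 ≤ y := by
      have : (2 : ℝ) ≤ y := by
        have e1 : s ^ 1 ≤ s ^ 19 := pow_le_pow_right₀ hs1 (by norm_num)
        rw [pow_one] at e1
        linarith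
      exact_mod_cast this
    have hyR0 : (0 : ℝ) < y := lt_trans (by positivity) hy19
    have hDy : D ≤ y := by
      have : (D : ℝ) ≤ y := by
        have e1 : s ^ 10 ≤ s ^ 19 := pow_le_pow_right₀ hs1 (by norm_num)
        linarith
      exact_mod_cast this
    have hDD : D ^ 2 ≤ y := by
      have e1 : (D : ℝ) ^ 2 ≤ n / L ^ (A + 4) := by
        calc (D : ℝ) ^ 2 ≤ (s ^ 10 / L ^ (A + 12)) ^ 2 :=
              pow_le_pow_left₀ (by positivity) hDle 2
          _ = s ^ 20 / (L ^ (A + 12)) ^ 2 := by rw [div_pow, ← pow_mul]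
          _ ≤ s ^ 20 / L ^ (A + 4) := by
              apply div_le_div_of_nonneg_left (by positivity) (by positivity)
              rw [← pow_mul]
              exact pow_le_pow_right₀ hL1 (by omega)
          _ = n / L ^ (A + 4) := by rw [hs20]
      have e2 : (D : ℝ) ^ 2 ≤ y := e1.trans hcase.le
      exact_mod_cast e2
    have hlogy : Real.log y ≤ 2 * L := by
      have e1 : Real.log y ≤ Real.log (8 * n) := Real.log_le_log hyR0 hyR
      rw [Real.log_mul (by norm_num) hn0'.ne', ← hLdef] at e1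
      have e2 : Real.log 8 ≤ 8 := (Real.log_le_sub_one_of_pos (by norm_num)).trans (by norm_num)
      linarith
    have hly0 : 0 ≤ Real.log y := Real.log_natCast_nonneg y
    -- the sum over the primitive characters
    obtain ⟨S, hS⟩ : ∃ S : ℝ, S = ∑ p ∈ (PC D).filter (fun p => p ≠ p0 ∧ ¬ p1 ∣ p.1),
      1 / (Nat.totient p.1 : ℝ) * ‖psi y p‖ := ⟨_, rfl⟩
    have hS0 : 0 ≤ S := by
      rw [hS]
      exact sum_nonneg fun _ _ => by positivity
    have hsqy : Real.sqrt y ≤ 3 * s ^ 10 := by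
      rw [Real.sqrt_le_left (by positivity)]
      refine hyR.trans ?_
      rw [← hs20]
      have e1 : (3 * s ^ 10) ^ 2 = 9 * s ^ 20 := by ring
      rw [e1]
      have : 0 < s ^ 20 := by positivity
      linarith
    have hmain : ∑ d ∈ (Icc 1 D).filter (fun d => (a d).Coprime d ∧ ¬ p1 ∣ d),
        |thp y d (a d) - th y / (Nat.totient d : ℝ)| ≤
        C₁ * L * S + D * (C₂ * Real.sqrt y * Real.log y ^ 2) := by
      have e1 : ∑ d ∈ (Icc 1 D).filter (fun d => (a d).Coprime d ∧ ¬ p1 ∣ d),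
          |thp y d (a d) - th y / (Nat.totient d : ℝ)| ≤
          ∑ d ∈ (Icc 1 D).filter (fun d => (a d).Coprime d ∧ ¬ p1 ∣ d),
          (1 / (Nat.totient d : ℝ) * ∑ p ∈ (PC d).filter (fun p => p ≠ p0 ∧ p.1 ∣ d),
            ‖psi y p‖ + C₂ * Real.sqrt y * Real.log y ^ 2) := by
        apply sum_le_sum
        intro d hd
        rw [mem_filter, mem_Icc] at hd
        exact h2 d (a d) y hd.1.1 (hd.1.2.trans hDy) hd.2.1 hy2
      refine e1.trans ?_
      rw [sum_add_distrib, sum_const, nsmul_eq_mul]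
      have e2 : ∑ d ∈ (Icc 1 D).filter (fun d => (a d).Coprime d ∧ ¬ p1 ∣ d),
          1 / (Nat.totient d : ℝ) * ∑ p ∈ (PC d).filter (fun p => p ≠ p0 ∧ p.1 ∣ d),
            ‖psi y p‖ ≤ C₁ * L * S := by
        have e3 := exchange D p1 (fun _ p => ‖psi y p‖) (fun _ _ => norm_nonneg _)
        have e4 : ∑ d ∈ (Icc 1 D).filter (fun d => (a d).Coprime d ∧ ¬ p1 ∣ d),
            1 / (Nat.totient d : ℝ) * ∑ p ∈ (PC d).filter (fun p => p ≠ p0 ∧ p.1 ∣ d),
              ‖psi y p‖ ≤ ∑ d ∈ (Icc 1 D).filter (fun d => ¬ p1 ∣ d),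
            1 / (Nat.totient d : ℝ) * ∑ p ∈ (PC d).filter (fun p => p ≠ p0 ∧ p.1 ∣ d),
              ‖psi y p‖ := by
          apply sum_le_sum_of_subset_of_nonneg
          · exact monotone_filter_right _ fun d _ hd => hd.2
          · intro d _ _
            exact mul_nonneg (by positivity) (sum_nonneg fun _ _ => norm_nonneg _)
        refine e4.trans (e3.trans ?_)
        rw [← sum_mul, ← hS]
        exact mul_le_mul_of_nonneg_right hphi hS0
      have e5 : (((Icc 1 D).filter (fun d => (a d).Coprime d ∧ ¬ p1 ∣ d)).card : ℝ) *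
          (C₂ * Real.sqrt y * Real.log y ^ 2) ≤ D * (C₂ * Real.sqrt y * Real.log y ^ 2) :=
        mul_le_mul_of_nonneg_right hcard (by positivity)
      linarith
    -- splitting of S
    obtain ⟨R0, hR0⟩ : ∃ R0 : ℕ, R0 = ⌊L ^ (A + 10)⌋₊ := ⟨_, rfl⟩
    have hLp1 : 1 ≤ L ^ (A + 10) := one_le_pow₀ hL1
    have hR0le : (R0 : ℝ) ≤ L ^ (A + 10) := by
      rw [hR0]
      exact Nat.floor_le (by positivity)
    have hR01 : 1 ≤ R0 := by
      rw [hR0]
      exact Nat.le_floor (by simpa using hLp1)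
    have hR0ge : L ^ (A + 10) / 2 ≤ R0 := by
      have e1 : L ^ (A + 10) < R0 + 1 := by
        rw [hR0]
        exact Nat.lt_floor_add_one _
      have e2 : (1 : ℝ) ≤ R0 := by exact_mod_cast hR01
      linarith
    have hsmall : ∑ p ∈ ((PC D).filter (fun p => p ≠ p0 ∧ ¬ p1 ∣ p.1)).filter
        (fun p => ¬ R0 < p.1), 1 / (Nat.totient p.1 : ℝ) * ‖psi y p‖ ≤
        8 * n / L ^ (A + 10) := by
      have e1 : ∀ p ∈ ((PC D).filter (fun p => p ≠ p0 ∧ ¬ p1 ∣ p.1)).filter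
          (fun p => ¬ R0 < p.1), 1 / (Nat.totient p.1 : ℝ) * ‖psi y p‖ ≤
          1 / (Nat.totient p.1 : ℝ) * (y / L ^ (2 * A + 20)) := by
        intro p hp
        rw [mem_filter, mem_filter, not_lt] at hp
        apply mul_le_mul_of_nonneg_left _ (by positivity)
        have e2 := H68T.mem_PC.1 hp.1.1
        have e3 : p ∈ PC ⌊Real.log n ^ (2 * A + 20)⌋₊ := by
          refine H68T.mem_PC.2 ⟨e2.1, ?_, e2.2.2⟩
          rw [← hLdef]
          apply Nat.le_floor
          calc (p.1 : ℝ) ≤ R0 := by exact_mod_cast hp.2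
            _ ≤ L ^ (A + 10) := hR0le
            _ ≤ L ^ (2 * A + 20) := pow_le_pow_right₀ hL1 (by omega)
        have e4 := hSW p e3 hp.1.2.1 hp.1.2.2 y ?_ hy
        · rwa [← hLdef] at e4
        · have e5 : (n : ℝ) ^ (1 / 10 : ℝ) = s ^ 2 := by
            rw [hsdef, ← Real.rpow_natCast, ← Real.rpow_mul hn0'.le]
            norm_num
          rw [e5]
          have e6 : s ^ 2 ≤ s ^ 19 := pow_le_pow_right₀ hs1 (by norm_num)
          linarith
      refine (sum_le_sum e1).trans ?_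
      rw [← sum_mul]
      have e2 : ∑ p ∈ ((PC D).filter (fun p => p ≠ p0 ∧ ¬ p1 ∣ p.1)).filter
          (fun p => ¬ R0 < p.1), 1 / (Nat.totient p.1 : ℝ) ≤ L ^ (A + 10) := by
        refine le_trans ?_ ((bv2_count R0).trans hR0le)
        apply sum_le_sum_of_subset_of_nonneg
        · intro p hp
          rw [mem_filter, mem_filter, not_lt] at hp
          have e2 := H68T.mem_PC.1 hp.1.1
          exact H68T.mem_PC.2 ⟨e2.1, hp.2, e2.2.2⟩
        · intro _ _ _
          positivity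
      calc (∑ p ∈ ((PC D).filter (fun p => p ≠ p0 ∧ ¬ p1 ∣ p.1)).filter
          (fun p => ¬ R0 < p.1), 1 / (Nat.totient p.1 : ℝ)) * (y / L ^ (2 * A + 20))
          ≤ L ^ (A + 10) * (8 * n / L ^ (2 * A + 20)) :=
            mul_le_mul e2 (div_le_div_of_nonneg_right hyR (by positivity)) (by positivity)
              (by positivity)
        _ = 8 * n / L ^ (A + 10) := by
            rw [show 2 * A + 20 = (A + 10) + (A + 10) by ring, pow_add L (A + 10) (A + 10)]
            have h10 : L ^ (A + 10) ≠ 0 := by positivity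
            rw [← mul_div_assoc, mul_comm (L ^ (A + 10)) (8 * (n : ℝ)),
              mul_div_mul_right _ _ h10]
    have hlarge : ∑ p ∈ ((PC D).filter (fun p => p ≠ p0 ∧ ¬ p1 ∣ p.1)).filter
        (fun p => R0 < p.1), 1 / (Nat.totient p.1 : ℝ) * ‖psi y p‖ ≤
        C₃ * (2 * L) ^ 7 * (16 * n / L ^ (A + 10) + 8 * s ^ 19 + 3 * n / L ^ (A + 12)) := by
      have e1 := h3 R0 D y hR01 hDD hy2
      have e2 : ∑ p ∈ ((PC D).filter (fun p => p ≠ p0 ∧ ¬ p1 ∣ p.1)).filter
          (fun p => R0 < p.1), 1 / (Nat.totient p.1 : ℝ) * ‖psi y p‖ ≤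
          ∑ p ∈ (PC D).filter (fun p => R0 < p.1), 1 / (Nat.totient p.1 : ℝ) * ‖psi y p‖ := by
        apply sum_le_sum_of_subset_of_nonneg
        · intro p hp
          rw [mem_filter, mem_filter] at hp
          exact mem_filter.2 ⟨hp.1.1, hp.2⟩
        · intro _ _ _
          positivity
      refine e2.trans (e1.trans ?_)
      have hR0' : (0 : ℝ) < R0 := by exact_mod_cast hR01
      have e3 : (y : ℝ) / R0 ≤ 16 * n / L ^ (A + 10) := by
        calc (y : ℝ) / R0 ≤ (8 * n) / (L ^ (A + 10) / 2) :=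
              div_le_div₀ (by positivity) hyR (by positivity) hR0ge
          _ = 16 * n / L ^ (A + 10) := by rw [div_div_eq_mul_div]; ring
      have e4 : (y : ℝ) ^ (19 / 20 : ℝ) ≤ 8 * s ^ 19 := by
        calc (y : ℝ) ^ (19 / 20 : ℝ) ≤ (8 * n : ℝ) ^ (19 / 20 : ℝ) :=
              Real.rpow_le_rpow (by positivity) hyR (by norm_num)
          _ = (8 : ℝ) ^ (19 / 20 : ℝ) * (n : ℝ) ^ (19 / 20 : ℝ) :=
              Real.mul_rpow (by norm_num) hn0'.le
          _ ≤ 8 * s ^ 19 := by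
              have e5 : (8 : ℝ) ^ (19 / 20 : ℝ) ≤ 8 := by
                calc (8 : ℝ) ^ (19 / 20 : ℝ) ≤ (8 : ℝ) ^ (1 : ℝ) :=
                      Real.rpow_le_rpow_of_exponent_le (by norm_num) (by norm_num)
                  _ = 8 := Real.rpow_one _
              have e6 : (n : ℝ) ^ (19 / 20 : ℝ) = s ^ 19 := by
                rw [hsdef, ← Real.rpow_natCast, ← Real.rpow_mul hn0'.le]
                norm_num
              rw [e6]
              exact mul_le_mul_of_nonneg_right e5 (by positivity)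
      have e7 : (D : ℝ) * Real.sqrt y ≤ 3 * n / L ^ (A + 12) := by
        calc (D : ℝ) * Real.sqrt y ≤ (s ^ 10 / L ^ (A + 12)) * (3 * s ^ 10) :=
              mul_le_mul hDle hsqy (by positivity) (by positivity)
          _ = 3 * s ^ 20 / L ^ (A + 12) := by ring
          _ = 3 * n / L ^ (A + 12) := by rw [hs20]
      apply mul_le_mul _ (by linarith) (by positivity) (by positivity)
      apply mul_le_mul_of_nonneg_left _ hC₃.le
      exact pow_le_pow_left₀ hly0 hlogy 7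
    have hSle : S ≤ 8 * n / L ^ (A + 10) +
        C₃ * (2 * L) ^ 7 * (16 * n / L ^ (A + 10) + 8 * s ^ 19 + 3 * n / L ^ (A + 12)) := by
      rw [hS, ← sum_filter_add_sum_filter_not ((PC D).filter (fun p => p ≠ p0 ∧ ¬ p1 ∣ p.1))
        (fun p => R0 < p.1)]
      linarith
    have herr : (D : ℝ) * (C₂ * Real.sqrt y * Real.log y ^ 2) ≤
        C₂ * (2 * L) ^ 2 * (3 * n / L ^ (A + 12)) := by
      have e7 : (D : ℝ) * Real.sqrt y ≤ 3 * n / L ^ (A + 12) := by
        calc (D : ℝ) * Real.sqrt y ≤ (s ^ 10 / L ^ (A + 12)) * (3 * s ^ 10) :=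
              mul_le_mul hDle hsqy (by positivity) (by positivity)
          _ = 3 * s ^ 20 / L ^ (A + 12) := by ring
          _ = 3 * n / L ^ (A + 12) := by rw [hs20]
      have e8 : Real.log y ^ 2 ≤ (2 * L) ^ 2 := pow_le_pow_left₀ hly0 hlogy 2
      calc (D : ℝ) * (C₂ * Real.sqrt y * Real.log y ^ 2) =
          C₂ * Real.log y ^ 2 * (D * Real.sqrt y) := by ring
        _ ≤ C₂ * (2 * L) ^ 2 * (3 * n / L ^ (A + 12)) :=
            mul_le_mul (mul_le_mul_of_nonneg_left e8 hC₂.le) e7 (by positivity) (by positivity)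
    have hfin : C₁ * L * S ≤ C₁ * L * (8 * n / L ^ (A + 10) +
        C₃ * (2 * L) ^ 7 * (16 * n / L ^ (A + 10) + 8 * s ^ 19 + 3 * n / L ^ (A + 12))) :=
      mul_le_mul_of_nonneg_left hSle (by positivity)
    linarith


open Classical in
theorem bv_bilf (A : ℕ) : ∃ A' B n0 : ℕ, ∀ n : ℕ, n0 ≤ n → ∀ p1 : ℕ, SWp A' n p1 →
    ∀ (a : ℕ → ℕ) (M u v : ℕ) (α : ℕ → ℝ), (∀ m, |α m| ≤ 1) → (n : ℝ) ^ (1 / 4 : ℝ) ≤ M →
    (n : ℝ) ^ (1 / 4 : ℝ) ≤ v → u ≤ v → M * v ≤ 8 * n →
    ∑ d ∈ (Icc 1 (DD n B)).filter (fun d => (a d).Coprime d ∧ ¬ p1 ∣ d),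
      |∑ m ∈ Icc 1 M, α m * ∑ q ∈ (Ioc u v).filter (fun q => q.Prime ∧ m * q ≡ a d [MOD d]),
          Real.log q -
        1 / (Nat.totient d : ℝ) * ((∑ m ∈ (Icc 1 M).filter (fun m => m.Coprime d), α m) *
          ∑ q ∈ (Ioc u v).filter (fun q => q.Prime ∧ q.Coprime d), Real.log q)| ≤
      n / Real.log n ^ A := by
  obtain ⟨C0, hC0, hφ⟩ := sum_inv_totient
  obtain ⟨C, hC, hin⟩ := bv3_inner
  obtain ⟨n0, hn0⟩ := bv3_ev (C0 * (84 * C + 17)) (3 * A + 31)
  refine ⟨3 * A + 30, A + 12, n0, fun n hn p1 hS a M u v α hα hM hv huv hMv => ?_⟩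
  obtain ⟨hn8, hL, hLC, h120⟩ := hn0 n hn
  have hn1 : (1 : ℝ) ≤ n := by
    have : 1 ≤ n := by omega
    exact_mod_cast this
  have hn00 : (0 : ℝ) < n := by linarith
  have hDle : ((DD n (A + 12) : ℕ) : ℝ) ≤ Real.sqrt n / Real.log n ^ (A + 12) := by
    unfold DD
    exact Nat.floor_le (by positivity)
  have hD2 : 2 ≤ DD n (A + 12) := by
    unfold DD
    apply Nat.le_floor
    rw [le_div_iff₀ (by positivity)]
    have h1 : Real.log n ^ (A + 12) ≤ Real.log n ^ (3 * A + 31) :=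
      pow_le_pow_right₀ hL (by omega)
    have h2 : (n : ℝ) ^ (1 / 8 : ℝ) ≤ Real.sqrt n := by
      rw [Real.sqrt_eq_rpow]
      exact Real.rpow_le_rpow_of_exponent_le hn1 (by norm_num)
    have h3 : (0 : ℝ) ≤ Real.log n ^ (A + 12) := by positivity
    push_cast
    linarith
  set D := DD n (A + 12) with hD
  set L := Real.log n with hLdef
  have hL0 : 0 < L := by linarith
  set F : ℕ → PCh → ℝ := fun k p => ‖bv3_A M α k p‖ * ‖bv3_T u v k p‖ with hF
  have hF0 : ∀ k p, 0 ≤ F k p := fun k p => by positivity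
  have h1 : ∑ d ∈ (Icc 1 D).filter (fun d => (a d).Coprime d ∧ ¬ p1 ∣ d),
      |∑ m ∈ Icc 1 M, α m * ∑ q ∈ (Ioc u v).filter (fun q => q.Prime ∧ m * q ≡ a d [MOD d]),
          Real.log q -
        1 / (Nat.totient d : ℝ) * ((∑ m ∈ (Icc 1 M).filter (fun m => m.Coprime d), α m) *
          ∑ q ∈ (Ioc u v).filter (fun q => q.Prime ∧ q.Coprime d), Real.log q)| ≤
      ∑ d ∈ (Icc 1 D).filter (fun d => ¬ p1 ∣ d), 1 / (Nat.totient d : ℝ) *
        ∑ p ∈ (PC d).filter (fun p => p ≠ p0 ∧ p.1 ∣ d), F (d / p.1) p := by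
    have h2 : ∀ d ∈ (Icc 1 D).filter (fun d => (a d).Coprime d ∧ ¬ p1 ∣ d),
        |∑ m ∈ Icc 1 M, α m * ∑ q ∈ (Ioc u v).filter (fun q => q.Prime ∧ m * q ≡ a d [MOD d]),
          Real.log q -
        1 / (Nat.totient d : ℝ) * ((∑ m ∈ (Icc 1 M).filter (fun m => m.Coprime d), α m) *
          ∑ q ∈ (Ioc u v).filter (fun q => q.Prime ∧ q.Coprime d), Real.log q)| ≤
        1 / (Nat.totient d : ℝ) *
          ∑ p ∈ (PC d).filter (fun p => p ≠ p0 ∧ p.1 ∣ d), F (d / p.1) p := by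
      intro d hd
      rw [mem_filter, mem_Icc] at hd
      exact bv3_dev M u v d (a d) α hd.1.1 hd.2.1
    refine (sum_le_sum h2).trans ?_
    apply sum_le_sum_of_subset_of_nonneg
    · intro d hd
      rw [mem_filter] at hd ⊢
      exact ⟨hd.1, hd.2.2⟩
    · intro d _ _
      exact mul_nonneg (by positivity) (sum_nonneg fun p _ => hF0 _ _)
  refine h1.trans ((exchange D p1 F hF0).trans ?_)
  have h3 : ∀ k ∈ Icc 1 D, 1 / (Nat.totient k : ℝ) *
        ∑ p ∈ (PC D).filter (fun p => p ≠ p0 ∧ ¬ p1 ∣ p.1), 1 / (Nat.totient p.1 : ℝ) * F k p ≤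
      1 / (Nat.totient k : ℝ) * ((84 * C + 17) * (L ^ 3 * (n / L ^ (A + 10)))) := by
    intro k hk
    rw [mem_Icc] at hk
    apply mul_le_mul_of_nonneg_left _ (by positivity)
    exact hin A n p1 M u v k D hS hn8 hL h120 hM hv huv hMv hk.1 hk.2 hD2 hDle α hα
  refine (sum_le_sum h3).trans ?_
  rw [← sum_mul]
  have hDn : (D : ℝ) ≤ n := by
    refine hDle.trans ?_
    have h1 : (1 : ℝ) ≤ L ^ (A + 12) := one_le_pow₀ hL
    refine (div_le_self (Real.sqrt_nonneg _) h1).trans ?_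
    rw [Real.sqrt_le_left (by linarith)]
    nlinarith
  have hlD : Real.log D ≤ L := Real.log_le_log (by
    have : 0 < D := by omega
    exact_mod_cast this) hDn
  have h4 : ∑ k ∈ Icc 1 D, 1 / (Nat.totient k : ℝ) ≤ C0 * L :=
    (hφ D hD2).trans (mul_le_mul_of_nonneg_left hlD hC0.le)
  refine (mul_le_mul_of_nonneg_right h4 (by positivity)).trans ?_
  have h5 : C0 * L * ((84 * C + 17) * (L ^ 3 * (n / L ^ (A + 10)))) =
      (C0 * (84 * C + 17)) * (n / L ^ (A + 6)) := by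
    have h6 : L ^ (A + 10) = L ^ (A + 6) * L ^ 4 := by rw [← pow_add]
    rw [h6]
    field_simp
  rw [h5]
  calc (C0 * (84 * C + 17)) * (n / L ^ (A + 6)) ≤ L * (n / L ^ (A + 6)) :=
        mul_le_mul_of_nonneg_right hLC (by positivity)
    _ = n / L ^ (A + 5) := by
        have h6 : L ^ (A + 6) = L ^ (A + 5) * L := by rw [← pow_succ]
        rw [h6]
        field_simp
    _ ≤ n / L ^ A := by
        apply div_le_div_of_nonneg_left hn00.le (by positivity)
        exact pow_le_pow_right₀ hL (by omega)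


end Pool.Agent.Lib.H57C
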