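import Pool.Agent.Lib.H57C.Defs
import Pool.Agent.Lib.H57C.BH1
import Pool.Agent.Lib.H15P.BH4

/-!
# Chunk X1: expansion of the one form functions
-/

open Finset

namespace Pool.Agent.Lib.H57C

open Pool.Agent.Lib.H15P

/-- Coefficients of `TT`. -/
noncomputable def x1_g {α : Type} (m : ℕ) (T : Finset α) : ℝ :=
  if T.card ≤ m then (-1 : ℝ) ^ T.card else 0

theorem x1_g_abs {α : Type} (m : ℕ) (T : Finset α) : |x1_g m T| ≤ 1 := by
  unfold x1_g
  split_ifs
  · rw [abs_pow, abs_neg, abs_one, one_pow]
  · simp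

theorem x1_TT {α : Type} [DecidableEq α] (r : ℕ) (A : Finset α) :
    ∑ T ∈ A.powerset, x1_g (2 * r) T = TT r A.card := by
  have h := Finset.sum_powerset_apply_card (x := A) (fun l => if l ≤ 2 * r then (-1 : ℝ) ^ l else 0)
  have h1 : ∑ T ∈ A.powerset, x1_g (2 * r) T =
      ∑ T ∈ A.powerset, (fun l => if l ≤ 2 * r then (-1 : ℝ) ^ l else 0) T.card := rfl
  rw [h1, h]
  unfold TT
  have e1 : ∑ m ∈ range (A.card + 1), A.card.choose m • (if m ≤ 2 * r then (-1 : ℝ) ^ m else 0) =
      ∑ m ∈ range (A.card + 1 + (2 * r + 1)), (if m ≤ 2 * r then (-1 : ℝ) ^ m * (A.card.choose m : ℝ) else 0) := by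
    rw [Finset.sum_range_add _ (A.card + 1) (2 * r + 1)]
    have : ∑ x ∈ range (2 * r + 1), (if A.card + 1 + x ≤ 2 * r then
        (-1 : ℝ) ^ (A.card + 1 + x) * (A.card.choose (A.card + 1 + x) : ℝ) else 0) = 0 := by
      refine Finset.sum_eq_zero fun x _ => ?_
      rw [Nat.choose_eq_zero_of_lt (by omega)]
      simp
    rw [this, add_zero]
    refine Finset.sum_congr rfl fun m _ => ?_
    split_ifs
    · rw [nsmul_eq_mul, mul_comm]
    · simp
  have e2 : ∑ m ∈ range (2 * r + 1), (-1 : ℝ) ^ m * (A.card.choose m : ℝ) =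
      ∑ m ∈ range (2 * r + 1 + (A.card + 1)), (if m ≤ 2 * r then (-1 : ℝ) ^ m * (A.card.choose m : ℝ) else 0) := by
    rw [Finset.sum_range_add _ (2 * r + 1) (A.card + 1)]
    have : ∑ x ∈ range (A.card + 1), (if 2 * r + 1 + x ≤ 2 * r then
        (-1 : ℝ) ^ (2 * r + 1 + x) * (A.card.choose (2 * r + 1 + x) : ℝ) else 0) = 0 := by
      refine Finset.sum_eq_zero fun x _ => ?_
      rw [if_neg (by omega)]
    rw [this, add_zero]
    refine Finset.sum_congr rfl fun m hm => ?_
    rw [Finset.mem_range] at hm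
    rw [if_pos (by omega)]
  rw [e1, e2, add_comm (A.card + 1)]

/-- Proof. `TT r s = ∑_{l ≤ 2r} (-1)^l (s choose l)`, so for a block `b`
`TT r |A_b| = ∑_{T ⊆ A} g_b(T)` with `g_b(T) = (-1)^|T|` if all elements of `T` are in the block `b` and `|T| ≤ 2r`, and
`0` otherwise; the product of the primes of such a `T` is at most `(XB b)^|T| ≤ (1 + XB b)^(2r)` (every prime of the block
is `≤ XB b`). The last factor `(TT r0 |A_i| - τ)/(1 - τ)` has the coefficient `1` at `∅` and `± 1/(1 - τ)`, at most `2` in
absolute value, at the other `T`. A product over different blocks: the coefficient of `T` is the product of the coefficients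
of the parts `T ∩ block b` (show by induction over the blocks: if `G` and `G'` have expansions with coefficients supported
on the subsets of `B` resp. `B'`, `B` and `B'` disjoint, then `G G'` has the coefficients `g(T ∩ B) g'(T ∩ B')`,
`T ⊆ B ∪ B'`). So the coefficients of `DB` are at most `2` and the products of primes at most
`∏_{b ∈ [i, N)} (1 + XB b)^(2 (r0 + b - i))`. -/
theorem ex1_DB (P : Finset ℕ) (hP : ∀ p ∈ P, p.Prime) (q : {p // p ∈ P} → ℝ)
    (blk : {p // p ∈ P} → ℕ) (r0 N i : ℕ) (hi : i < N) (ht0 : 0 ≤ tau q blk r0 i)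
    (ht1 : tau q blk r0 i ≤ 1 / 2) (D : ℝ)
    (hD : ∏ b ∈ Ico i N, (1 + XB (fun i : {p // p ∈ P} => i.1) blk b) ^ (2 * (r0 + (b - i))) ≤ D) :
    Ex1 P (fun A => DB q blk r0 N i A) 2 D := by
  classical
  set τ := tau q blk r0 i with hτ
  have hτ1 : (0 : ℝ) < 1 - τ := by linarith
  -- coefficients of the blocks
  set c : ℕ → Finset {p // p ∈ P} → ℝ := fun b T =>
    if b = i then (x1_g (2 * r0) T - (if T = ∅ then τ else 0)) / (1 - τ)
    else x1_g (2 * (r0 + (b - i))) T with hc
  have hcsum : ∀ (b : ℕ) (A : Finset {p // p ∈ P}), ∑ T ∈ A.powerset, c b T =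
      if b = i then (TT r0 A.card - τ) / (1 - τ) else TT (r0 + (b - i)) A.card := by
    intro b A
    by_cases hb : b = i
    · simp only [hc, if_pos hb]
      rw [← Finset.sum_div, Finset.sum_sub_distrib, x1_TT]
      congr 2
      rw [Finset.sum_ite_eq' , if_pos (Finset.empty_mem_powerset A)]
    · simp only [hc, if_neg hb]
      exact x1_TT _ _
  have hcabs : ∀ b T, |c b T| ≤ if b = i then 2 else 1 := by
    intro b T
    by_cases hb : b = i
    · simp only [hc, if_pos hb]
      rw [abs_div, abs_of_pos hτ1, div_le_iff₀ hτ1]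
      by_cases hT : T = ∅
      · subst hT
        rw [if_pos rfl]
        have : x1_g (2 * r0) (∅ : Finset {p // p ∈ P}) = 1 := by
          unfold x1_g
          simp
        rw [this, abs_of_pos hτ1]
        linarith
      · rw [if_neg hT, sub_zero]
        have := x1_g_abs (2 * r0) T
        linarith
    · simp only [hc, if_neg hb]
      exact x1_g_abs _ _
  have hcsupp : ∀ b T, c b T ≠ 0 → T.card ≤ 2 * (r0 + (b - i)) := by
    intro b T h
    by_contra hcard
    apply h
    by_cases hb : b = i
    · simp only [hc, if_pos hb]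
      have hT : T ≠ ∅ := by
        rintro rfl
        simp at hcard
      have : x1_g (2 * r0) T = 0 := by
        unfold x1_g
        rw [if_neg]
        rw [hb] at hcard
        simpa using hcard
      rw [if_neg hT, this]
      simp
    · simp only [hc, if_neg hb]
      unfold x1_g
      rw [if_neg hcard]
  refine ⟨fun T => if ∀ p ∈ T, blk p ∈ Ico i N then ∏ b ∈ Ico i N, c b (AB blk b T) else 0,
    ?_, ?_, ?_⟩
  · intro A
    have hdisj : ∀ a ∈ Ico i N, ∀ b ∈ Ico i N, a ≠ b → Disjoint (AB blk a A) (AB blk b A) := by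
      intro a _ b _ hab
      rw [Finset.disjoint_left]
      intro x hx hx'
      unfold AB at hx hx'
      exact hab ((Finset.mem_filter.1 hx).2.symm.trans (Finset.mem_filter.1 hx').2)
    have h1 := bh1_rep (fun b => AB blk b A) (Ico i N) hdisj c (fun _ => 1)
    have hbU : (Ico i N).biUnion (fun b => AB blk b A) = A.filter (fun p => blk p ∈ Ico i N) := by
      ext x
      simp only [Finset.mem_biUnion, AB, Finset.mem_filter]
      constructor
      · rintro ⟨b, hb, hx, hxb⟩
        exact ⟨hx, hxb ▸ hb⟩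
      · rintro ⟨hx, hb⟩
        exact ⟨blk x, hb, hx, rfl⟩
    rw [hbU] at h1
    have h2 : ∏ b ∈ Ico i N, Sieve.poly (c b) (fun _ => 1) (AB blk b A) = DB q blk r0 N i A := by
      have e : ∀ b, Sieve.poly (c b) (fun _ => 1) (AB blk b A) =
          if b = i then (TT r0 (AB blk b A).card - τ) / (1 - τ) else TT (r0 + (b - i)) (AB blk b A).card := by
        intro b
        rw [← hcsum b]
        unfold Sieve.poly
        simp
      rw [Finset.prod_congr rfl fun b _ => e b]
      unfold DB
      rw [← Finset.insert_Ico_add_one_left_eq_Ico hi, Finset.prod_insert (by simp), if_pos rfl, mul_comm]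
      congr 1
      refine Finset.prod_congr rfl fun b hb => ?_
      rw [if_neg]
      rw [Finset.mem_Ico] at hb
      omega
    simp only
    rw [← h2, ← h1]
    symm
    have h3 : ∑ T ∈ A.powerset, (if ∀ p ∈ T, blk p ∈ Ico i N then ∏ b ∈ Ico i N, c b (AB blk b T) else 0) =
        ∑ T ∈ (A.filter (fun p => blk p ∈ Ico i N)).powerset, ∏ b ∈ Ico i N, c b (AB blk b T) := by
      rw [← Finset.sum_filter]
      refine Finset.sum_congr ?_ fun _ _ => rfl
      ext T
      simp only [Finset.mem_filter, Finset.mem_powerset, Finset.subset_iff]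
      constructor
      · rintro ⟨h1, h2⟩ x hx
        exact ⟨h1 hx, h2 x hx⟩
      · intro h
        exact ⟨fun x hx => (h hx).1, fun x hx => (h hx).2⟩
    rw [h3]
    refine Finset.sum_congr rfl fun T hT => ?_
    rw [Finset.prod_const_one, mul_one]
    refine Finset.prod_congr rfl fun b _ => ?_
    congr 1
    rw [Finset.mem_powerset] at hT
    ext x
    simp only [AB, Finset.mem_filter, Finset.mem_inter]
    constructor
    · rintro ⟨h1, h2⟩
      exact ⟨h1, (Finset.mem_filter.1 (hT h1)).1, h2⟩
    · rintro ⟨h1, _, h2⟩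
      exact ⟨h1, h2⟩
  · intro T
    simp only
    split_ifs with h
    · rw [Finset.abs_prod]
      calc ∏ b ∈ Ico i N, |c b (AB blk b T)| ≤ ∏ b ∈ Ico i N, (if b = i then (2 : ℝ) else 1) :=
            Finset.prod_le_prod (fun _ _ => abs_nonneg _) fun b _ => hcabs b _
        _ ≤ 2 := by
            rw [Finset.prod_ite_eq' ]
            rw [if_pos (Finset.mem_Ico.2 ⟨le_refl i, hi⟩)]
    · simp
  · intro T hT
    simp only at hT
    by_cases h : ∀ p ∈ T, blk p ∈ Ico i N
    · rw [if_pos h] at hT
      have h1 := Finset.prod_ne_zero_iff.1 hT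
      have hX0 : ∀ b, 0 ≤ XB (fun i : {p // p ∈ P} => i.1) blk b := fun b =>
        Finset.sum_nonneg fun _ _ => Nat.cast_nonneg _
      have h2 : ∏ p ∈ T, (p.1 : ℝ) = ∏ b ∈ Ico i N, ∏ p ∈ AB blk b T, (p.1 : ℝ) := by
        unfold AB
        exact (Finset.prod_fiberwise_of_maps_to h _).symm
      rw [h2]
      refine le_trans (Finset.prod_le_prod (fun b _ => Finset.prod_nonneg fun _ _ => Nat.cast_nonneg _)
        fun b hb => ?_) hD
      calc ∏ p ∈ AB blk b T, (p.1 : ℝ) ≤
            ∏ p ∈ AB blk b T, (1 + XB (fun i : {p // p ∈ P} => i.1) blk b) := by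
            refine Finset.prod_le_prod (fun _ _ => Nat.cast_nonneg _) fun p hp => ?_
            unfold AB at hp
            have hpb := (Finset.mem_filter.1 hp).2
            have : (p.1 : ℝ) ≤ XB (fun i : {p // p ∈ P} => i.1) blk b := by
              unfold XB
              exact Finset.single_le_sum (f := fun i : {p // p ∈ P} => (i.1 : ℝ))
                (fun _ _ => Nat.cast_nonneg _) (Finset.mem_filter.2 ⟨Finset.mem_univ p, hpb⟩)
            linarith
        _ = (1 + XB (fun i : {p // p ∈ P} => i.1) blk b) ^ (AB blk b T).card := Finset.prod_const _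
        _ ≤ (1 + XB (fun i : {p // p ∈ P} => i.1) blk b) ^ (2 * (r0 + (b - i))) :=
            pow_le_pow_right₀ (by linarith [hX0 b]) (hcsupp b _ (h1 b hb))
    · rw [if_neg h] at hT
      exact absurd rfl hT

end Pool.Agent.Lib.H57C
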